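import Pool.Agent.Lib.MP_7b7e48_nt.TC.FLM
import Pool.Agent.Lib.MP_7b7e48_nt.OW.LFC

/-!
# EX, module ACnt: the fundamental lemma for arbitrary forbidden classes in a progression
-/

set_option autoImplicit false

open Finset

namespace Pool.Agent.Lib.EX.AX

theorem card_small_prod (P : Finset ℕ) (hP : ∀ p ∈ P, p.Prime) (D : ℕ) :
    (P.powerset.filter fun d => ∏ r ∈ d, r ≤ D).card ≤ D := by
  have h := Finset.card_le_card_of_injOn (s := P.powerset.filter fun d => ∏ r ∈ d, r ≤ D) (t := Icc 1 D)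
    (fun d => ∏ r ∈ d, r) (by
      intro d hd
      rw [mem_coe, mem_filter, mem_powerset] at hd
      rw [mem_coe, mem_Icc]
      exact ⟨Nat.one_le_iff_ne_zero.mpr (Finset.prod_ne_zero_iff.mpr fun r hr => (hP r (hd.1 hr)).ne_zero), hd.2⟩) (by
      intro d hd e he hde
      rw [mem_coe, mem_filter, mem_powerset] at hd he
      have hh : ∀ s ⊆ P, (∏ r ∈ s, r).primeFactors = s := fun s hs =>
        Nat.primeFactors_prod fun p hp => hP p (hs hp)
      have h1 : (∏ r ∈ d, r) = ∏ r ∈ e, r := hde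
      rw [← hh d hd.1, ← hh e he.1, h1])
  simpa using h

/-- sum of a weight on the subsets of `P` against the counts -/
theorem sum_weight (P : Finset ℕ) (T : Finset ℕ) (Z : ℕ → Finset ℕ) (wt : Finset ℕ → ℝ) :
    ∑ d ∈ P.powerset, wt d * ((T.filter fun n => ∀ p ∈ d, n % p ∈ Z p).card : ℝ) =
      ∑ n ∈ T, ∑ d ∈ (P.filter fun p => n % p ∈ Z p).powerset, wt d := by
  classical
  have h1 : ∀ d ∈ P.powerset, wt d * ((T.filter fun n => ∀ p ∈ d, n % p ∈ Z p).card : ℝ) =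
      ∑ n ∈ T, if (∀ p ∈ d, n % p ∈ Z p) then wt d else 0 := by
    intro d _
    rw [← Finset.sum_filter, Finset.sum_const, nsmul_eq_mul, mul_comm]
  rw [Finset.sum_congr rfl h1, Finset.sum_comm]
  refine Finset.sum_congr rfl fun n _ => ?_
  rw [← Finset.sum_filter]
  refine Finset.sum_congr ?_ fun _ _ => rfl
  ext d
  rw [mem_filter, mem_powerset, mem_powerset]
  constructor
  · rintro ⟨h3, h4⟩ p hp
    exact mem_filter.mpr ⟨h3 hp, h4 p hp⟩
  · intro h3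
    exact ⟨h3.trans (filter_subset _ _), fun p hp => (mem_filter.mp (h3 hp)).2⟩

/-- **Count**: arbitrary forbidden classes at the primes `r ∈ P` (at most `κ`, at most `2 r / 3`), in a progression. -/
theorem cnt (κ : ℕ) : ∃ K : ℕ, 1 ≤ K ∧ ∀ b : ℕ, 1 ≤ b → ∀ z : ℕ, 2 ≤ z → ∀ P : Finset ℕ, (∀ r ∈ P, r.Prime ∧ r ≤ z) →
    ∀ Z : ℕ → Finset ℕ, (∀ r ∈ P, (Z r).card ≤ κ ∧ 3 * (Z r).card ≤ 2 * r ∧ ∀ x ∈ Z r, x < r) →
    ∀ u v W c : ℕ, u ≤ v → 1 ≤ W → (∀ r ∈ P, ¬ r ∣ W) →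
    |(((Ioc u v).filter fun n => n ≡ c [MOD W] ∧ ∀ r ∈ P, n % r ∉ Z r).card : ℝ) -
        ((v : ℝ) - u) / W * ∏ r ∈ P, (1 - ((Z r).card : ℝ) / r)| ≤
      K * (1 / 2) ^ b * (((v : ℝ) - u) / W * ∏ r ∈ P, (1 - ((Z r).card : ℝ) / r)) + (z : ℝ) ^ (26 * b) := by
  classical
  obtain ⟨K, hK, hflm⟩ := Pool.Agent.Lib.TC.flm (κ : ℝ) (by positivity)
  refine ⟨⌈K⌉₊ + 1, by omega, fun b hb z hz P hP Z hZ u v W c huv hW hWP => ?_⟩
  obtain ⟨up, lo, hw1, hw2, hw3, hw4⟩ := hflm b hb z hz P hP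
  have hPp : ∀ p ∈ P, p.Prime := fun p hp => (hP p hp).1
  have hz0 : (2 : ℝ) ≤ z := by exact_mod_cast hz
  set g : ℕ → ℝ := fun p => ((Z p).card : ℝ) / p with hg
  have hgP : ∀ r ∈ P, 0 ≤ g r ∧ g r ≤ (κ : ℝ) / r ∧ g r ≤ 2 / 3 := by
    intro r hr
    obtain ⟨h1, h2, h3⟩ := hZ r hr
    have hrR : (0 : ℝ) < r := by exact_mod_cast (hPp r hr).pos
    have h5 : ((Z r).card : ℝ) ≤ κ := by exact_mod_cast h1
    refine ⟨by positivity, div_le_div_of_nonneg_right h5 hrR.le, ?_⟩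
    rw [div_le_iff₀ hrR]
    have h7 : (3 * (Z r).card : ℝ) ≤ 2 * r := by exact_mod_cast h2
    linarith
  obtain ⟨hup, hlo⟩ := hw4 g hgP
  set V := ∏ r ∈ P, (1 - g r) with hV
  have hV0 : 0 ≤ V := Finset.prod_nonneg fun r hr => by linarith [(hgP r hr).2.2]
  set T := (Ioc u v).filter (fun n => n ≡ c [MOD W]) with hT
  set X := ((v : ℝ) - u) / W with hX
  have hX0 : 0 ≤ X := div_nonneg (by have : (u : ℝ) ≤ v := by exact_mod_cast huv
                                     linarith) (by positivity)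
  have hcnt : ∀ d ∈ P.powerset, |((T.filter fun n => ∀ p ∈ d, n % p ∈ Z p).card : ℝ) - X * ∏ p ∈ d, g p| ≤
      ∏ p ∈ d, ((Z p).card : ℝ) := by
    intro d hd
    have hd' := mem_powerset.mp hd
    have h := Pool.Agent.Lib.OW.crt_count d (fun p hp => hPp p (hd' hp)) Z (fun p hp => (hZ p (hd' hp)).2.2) u v huv W hW
      (fun p hp => ((hPp p (hd' hp)).coprime_iff_not_dvd.mpr (hWP p (hd' hp))).symm) c
    rw [hT, Finset.filter_filter]
    exact h
  have key : ∀ wt : Finset ℕ → ℝ, (∀ d, |wt d| ≤ (z : ℝ) ^ 2) → (∀ d ⊆ P, wt d ≠ 0 → ((∏ r ∈ d, r : ℕ) : ℝ) ≤ (z : ℝ) ^ (12 * b)) →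
      |∑ d ∈ P.powerset, wt d * ((T.filter fun n => ∀ p ∈ d, n % p ∈ Z p).card : ℝ) -
        X * ∑ d ∈ P.powerset, wt d * ∏ r ∈ d, g r| ≤ (z : ℝ) ^ (2 + 24 * b) := by
    intro wt hwt1 hwt2
    have h1 : ∑ d ∈ P.powerset, wt d * ((T.filter fun n => ∀ p ∈ d, n % p ∈ Z p).card : ℝ) -
        X * ∑ d ∈ P.powerset, wt d * ∏ r ∈ d, g r =
        ∑ d ∈ P.powerset, wt d * (((T.filter fun n => ∀ p ∈ d, n % p ∈ Z p).card : ℝ) - X * ∏ p ∈ d, g p) := by
      rw [Finset.mul_sum, ← Finset.sum_sub_distrib]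
      refine Finset.sum_congr rfl fun d _ => ?_
      ring
    rw [h1]
    have h1' : ∀ d ∈ P.powerset, |wt d * (((T.filter fun n => ∀ p ∈ d, n % p ∈ Z p).card : ℝ) - X * ∏ p ∈ d, g p)| ≤
        if ∏ r ∈ d, r ≤ z ^ (12 * b) then (z : ℝ) ^ (2 + 12 * b) else 0 := by
      intro d hd
      have hd' := mem_powerset.mp hd
      rw [abs_mul]
      have h2 : ∏ p ∈ d, ((Z p).card : ℝ) ≤ ((∏ r ∈ d, r : ℕ) : ℝ) := by
        push_cast
        refine Finset.prod_le_prod (fun _ _ => by positivity) fun p hp => ?_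
        have h3 := (hZ p (hd' hp)).2.1
        exact_mod_cast (by omega : (Z p).card ≤ p)
      by_cases h5 : ∏ r ∈ d, r ≤ z ^ (12 * b)
      · rw [if_pos h5]
        have h6 : ((∏ r ∈ d, r : ℕ) : ℝ) ≤ (z : ℝ) ^ (12 * b) := by exact_mod_cast h5
        calc |wt d| * |((T.filter fun n => ∀ p ∈ d, n % p ∈ Z p).card : ℝ) - X * ∏ p ∈ d, g p|
            ≤ (z : ℝ) ^ 2 * (z : ℝ) ^ (12 * b) :=
              mul_le_mul (hwt1 d) ((hcnt d hd).trans (h2.trans h6)) (abs_nonneg _) (by positivity)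
          _ = (z : ℝ) ^ (2 + 12 * b) := by rw [← pow_add]
      · rw [if_neg h5]
        have h6 : wt d = 0 := by
          by_contra h7
          have := hwt2 d hd' h7
          exact h5 (by exact_mod_cast this)
        rw [h6, abs_zero, zero_mul]
    refine (Finset.abs_sum_le_sum_abs _ _).trans ((Finset.sum_le_sum h1').trans ?_)
    rw [← Finset.sum_filter, Finset.sum_const, nsmul_eq_mul]
    have h2 : ((P.powerset.filter fun d => ∏ r ∈ d, r ≤ z ^ (12 * b)).card : ℝ) ≤ (z : ℝ) ^ (12 * b) := by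
      exact_mod_cast card_small_prod P hPp (z ^ (12 * b))
    calc ((P.powerset.filter fun d => ∏ r ∈ d, r ≤ z ^ (12 * b)).card : ℝ) * (z : ℝ) ^ (2 + 12 * b)
        ≤ (z : ℝ) ^ (12 * b) * (z : ℝ) ^ (2 + 12 * b) := mul_le_mul_of_nonneg_right h2 (by positivity)
      _ = (z : ℝ) ^ (2 + 24 * b) := by rw [← pow_add]; congr 1; ring
  have hNJ : ((Pool.Agent.Lib.GT.NJ z : ℕ) : ℝ) + 1 ≤ (z : ℝ) ^ 2 := Pool.Agent.Lib.GT.NJ_le z hz
  have h1z : (1 : ℝ) ≤ (z : ℝ) ^ 2 := one_le_pow₀ (by linarith)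
  have hkU := key up (fun d => ((hw1 d).1).trans h1z) (fun d hd h => hw2 d hd (Or.inl h))
  have hkL := key lo (fun d => ((hw1 d).2).trans hNJ) (fun d hd h => hw2 d hd (Or.inr h))
  have hcard : (((Ioc u v).filter fun n => n ≡ c [MOD W] ∧ ∀ r ∈ P, n % r ∉ Z r).card : ℝ) =
      ∑ n ∈ T, if P.filter (fun p => n % p ∈ Z p) = ∅ then (1 : ℝ) else 0 := by
    rw [← Finset.sum_filter, hT, Finset.filter_filter, Finset.sum_const, nsmul_eq_mul, mul_one]
    congr 2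
    ext n
    rw [mem_filter, mem_filter]
    refine and_congr_right fun _ => and_congr_right fun _ => ?_
    rw [Finset.filter_eq_empty_iff]
  have hU : (((Ioc u v).filter fun n => n ≡ c [MOD W] ∧ ∀ r ∈ P, n % r ∉ Z r).card : ℝ) ≤
      ∑ d ∈ P.powerset, up d * ((T.filter fun n => ∀ p ∈ d, n % p ∈ Z p).card : ℝ) := by
    rw [hcard, sum_weight]
    exact Finset.sum_le_sum fun n _ => (hw3 (P.filter fun p => n % p ∈ Z p) (filter_subset _ _)).2
  have hL : ∑ d ∈ P.powerset, lo d * ((T.filter fun n => ∀ p ∈ d, n % p ∈ Z p).card : ℝ) ≤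
      (((Ioc u v).filter fun n => n ≡ c [MOD W] ∧ ∀ r ∈ P, n % r ∉ Z r).card : ℝ) := by
    rw [hcard, sum_weight]
    exact Finset.sum_le_sum fun n _ => (hw3 (P.filter fun p => n % p ∈ Z p) (filter_subset _ _)).1
  have hKK : K ≤ ((⌈K⌉₊ + 1 : ℕ) : ℝ) := by
    push_cast
    linarith [Nat.le_ceil K]
  have hzz : (z : ℝ) ^ (2 + 24 * b) ≤ (z : ℝ) ^ (26 * b) :=
    pow_le_pow_right₀ (by linarith) (by omega)
  have hXV : K * (1 / 2) ^ b * (X * V) ≤ ((⌈K⌉₊ + 1 : ℕ) : ℝ) * (1 / 2) ^ b * (X * V) := by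
    have : 0 ≤ (1 / 2 : ℝ) ^ b * (X * V) := by positivity
    nlinarith
  have hup' := mul_le_mul_of_nonneg_left (abs_le.mp hup).2 hX0
  have hlo' := mul_le_mul_of_nonneg_left (abs_le.mp hlo).1 hX0
  have e1 : X * (K * (1 / 2) ^ b * V) = K * (1 / 2) ^ b * (X * V) := by ring
  have hkU' := (abs_le.mp hkU).2
  have hkL' := (abs_le.mp hkL).1
  rw [abs_le]
  constructor
  · nlinarith [hL, hkL', hlo', hXV, hzz, e1]
  · nlinarith [hU, hkU', hup', hXV, hzz, e1]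

end Pool.Agent.Lib.EX.AX
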