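import Pool.Agent.Lib.MP_61161c_nt.EX.ARoots

/-!
# EX, module ASing: the product of the local densities is `MM` up to a small relative error
-/

set_option autoImplicit false

open Finset
open Pool.Agent.Lib.GT (pr)

namespace Pool.Agent.Lib.EX.AX

theorem big_primes_card {w : ℕ} (hw : 2 ≤ w) {D : ℤ} (hD : D ≠ 0) {S : Finset ℕ} (hS : ∀ p ∈ S, p.Prime ∧ w < p ∧ (p : ℤ) ∣ D) :
    (S.card : ℝ) * Real.log w ≤ Real.log |(D : ℝ)| := by
  have h1 : (∏ p ∈ S, p) ∣ D.natAbs := Finset.prod_primes_dvd _ (fun p hp => (hS p hp).1.prime) fun p hp =>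
    Int.natCast_dvd.mp (hS p hp).2.2
  have h2 : ∏ p ∈ S, p ≤ D.natAbs := Nat.le_of_dvd (Int.natAbs_pos.mpr hD) h1
  have h3 : w ^ S.card ≤ ∏ p ∈ S, p := by
    rw [← prod_const]
    exact prod_le_prod' fun p hp => (hS p hp).2.1.le
  have h4 : ((w : ℝ)) ^ S.card ≤ |(D : ℝ)| := by
    have h5 : ((w ^ S.card : ℕ) : ℝ) ≤ (D.natAbs : ℝ) := by exact_mod_cast h3.trans h2
    rw [Nat.cast_natAbs, Int.cast_abs] at h5
    push_cast at h5
    exact h5
  have h6 : (0 : ℝ) < (w : ℝ) ^ S.card := by positivity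
  have h7 := Real.log_le_log h6 h4
  rwa [Real.log_pow] at h7

open Classical in
/-- the bad primes of a set of forms -/
theorem bad_sum {e : Env} {k : ℕ} {t : Frm} {Fs : List Frm} (hF : e.SOk 40 t Fs) (hl : Fs.length ≤ k) (hw : 2 ≤ e.w) (hX : 1 ≤ e.X) :
    (((pr e.z).filter fun p => e.w < p ∧ (Zs e t Fs p).card < Fs.length).card : ℝ) * Real.log e.w ≤
      (k : ℝ) ^ 2 * (Real.log 2 + 80 * Real.log e.X) := by
  set F := Fs.toFinset with hFF
  set T := (F ×ˢ F).filter fun q => q.1 ≠ q.2 with hT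
  set Bd : Frm × Frm → Finset ℕ := fun q => (pr e.z).filter fun p : ℕ => e.w < p ∧ (p : ℤ) ∣ q.1.a * q.2.b - q.2.a * q.1.b with hBd
  have hsub : ((pr e.z).filter fun p => e.w < p ∧ (Zs e t Fs p).card < Fs.length) ⊆ T.biUnion Bd := by
    intro p hp
    obtain ⟨h1, h2, h3⟩ := mem_filter.mp hp
    obtain ⟨h4, h5⟩ := mem_pr.mp h1
    by_contra hno
    have h6 := card_Zs_eq hF h4 (by omega) h5 (fun l hl' l' hl'' hne hd => hno (mem_biUnion.mpr ⟨(l, l'),
      mem_filter.mpr ⟨mem_product.mpr ⟨List.mem_toFinset.mpr hl', List.mem_toFinset.mpr hl''⟩, hne⟩, mem_filter.mpr ⟨h1, h2, hd⟩⟩))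
    omega
  have hlw : 0 ≤ Real.log e.w := Real.log_nonneg (by exact_mod_cast (by omega : 1 ≤ e.w))
  have hXR : (1 : ℝ) ≤ e.X := by exact_mod_cast hX
  have hbd : ∀ G ∈ F, |(G.a : ℝ)| ≤ (e.X : ℝ) ^ 40 ∧ |(G.b : ℝ)| ≤ (e.X : ℝ) ^ 40 := by
    intro G hG
    obtain ⟨h1, h2⟩ := hF.bd G (List.mem_toFinset.mp hG)
    constructor
    · rw [← Int.cast_abs]
      exact_mod_cast h1
    · rw [← Int.cast_abs]
      exact_mod_cast h2
  have hone : ∀ q ∈ T, ((Bd q).card : ℝ) * Real.log e.w ≤ Real.log 2 + 80 * Real.log e.X := by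
    intro q hq
    obtain ⟨h1, h2⟩ := mem_filter.mp hq
    obtain ⟨h3, h4⟩ := mem_product.mp h1
    have hD : q.1.a * q.2.b - q.2.a * q.1.b ≠ 0 := np_of_ne hF.np (List.mem_toFinset.mp h3) (List.mem_toFinset.mp h4) h2
    refine (big_primes_card (w := e.w) hw hD (S := Bd q) fun p hp => ?_).trans ?_
    · obtain ⟨h5, h6, h7⟩ := mem_filter.mp hp
      exact ⟨(mem_pr.mp h5).1, h6, h7⟩
    · have hle : |((q.1.a * q.2.b - q.2.a * q.1.b : ℤ) : ℝ)| ≤ 2 * (e.X : ℝ) ^ 80 := by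
        push_cast
        obtain ⟨h5, h6⟩ := hbd _ h3
        obtain ⟨h7, h8⟩ := hbd _ h4
        refine (abs_sub _ _).trans ?_
        rw [abs_mul, abs_mul]
        have h9 : |(q.1.a : ℝ)| * |(q.2.b : ℝ)| ≤ (e.X : ℝ) ^ 40 * (e.X : ℝ) ^ 40 := mul_le_mul h5 h8 (abs_nonneg _) (by positivity)
        have h10 : |(q.2.a : ℝ)| * |(q.1.b : ℝ)| ≤ (e.X : ℝ) ^ 40 * (e.X : ℝ) ^ 40 := mul_le_mul h7 h6 (abs_nonneg _) (by positivity)
        have h11 : (e.X : ℝ) ^ 40 * (e.X : ℝ) ^ 40 = (e.X : ℝ) ^ 80 := by rw [← pow_add]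
        rw [h11] at h9 h10
        linarith
      have hpos : 0 < |((q.1.a * q.2.b - q.2.a * q.1.b : ℤ) : ℝ)| := abs_pos.mpr (by exact_mod_cast hD)
      have h5 := Real.log_le_log hpos hle
      rw [Real.log_mul (by norm_num) (by positivity), Real.log_pow] at h5
      push_cast at h5 ⊢
      linarith
  have hFc : F.card ≤ k := (List.toFinset_card_le _).trans hl
  have hTc : T.card ≤ k ^ 2 := by
    refine (card_filter_le _ _).trans ?_
    rw [card_product, sq]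
    exact Nat.mul_le_mul hFc hFc
  calc (((pr e.z).filter fun p => e.w < p ∧ (Zs e t Fs p).card < Fs.length).card : ℝ) * Real.log e.w
      ≤ (∑ q ∈ T, ((Bd q).card : ℝ)) * Real.log e.w := by
        refine mul_le_mul_of_nonneg_right ?_ hlw
        exact_mod_cast (card_le_card hsub).trans card_biUnion_le
    _ = ∑ q ∈ T, ((Bd q).card : ℝ) * Real.log e.w := by rw [sum_mul]
    _ ≤ ∑ _q ∈ T, (Real.log 2 + 80 * Real.log e.X) := sum_le_sum hone
    _ = (T.card : ℝ) * (Real.log 2 + 80 * Real.log e.X) := by rw [sum_const, nsmul_eq_mul]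
    _ ≤ (k : ℝ) ^ 2 * (Real.log 2 + 80 * Real.log e.X) := by
        refine mul_le_mul_of_nonneg_right (by exact_mod_cast hTc) ?_
        have := Real.log_nonneg hXR
        have := Real.log_nonneg (by norm_num : (1 : ℝ) ≤ 2)
        linarith

theorem pr_split {w z : ℕ} (hwz : w ≤ z) : pr z = pr w ∪ (pr z).filter fun p => w < p := by
  ext p
  rw [mem_union, mem_filter, mem_pr, mem_pr]
  constructor
  · rintro ⟨h1, h2⟩
    by_cases h4 : p ≤ w
    · exact Or.inl ⟨h1, h4⟩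
    · exact Or.inr ⟨⟨h1, h2⟩, by omega⟩
  · rintro (⟨h1, h2⟩ | ⟨h1, h2⟩)
    · exact ⟨h1, by omega⟩
    · exact h1

theorem pr_disj (w z : ℕ) : Disjoint (pr w) ((pr z).filter fun p => w < p) := by
  rw [disjoint_left]
  intro p h1 h2
  have h3 := (mem_pr.mp h1).2
  have h4 := (mem_filter.mp h2).2
  omega

/-- the first factor of `MM` -/
noncomputable def VW (e : Env) : ℝ := ∏ p ∈ pr e.w, (1 - (e.nu p : ℝ) / p)

theorem VW_nonneg (e : Env) (h2 : 2 ∣ e.N0) : 0 ≤ VW e := by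
  unfold VW Env.nu
  refine prod_nonneg fun p hp => ?_
  have hp' := (mem_pr.mp hp).1
  have h1 : (2 : ℝ) ≤ p := by exact_mod_cast hp'.two_le
  have h3 : ((if p ∣ e.N0 then 1 else 2 : ℕ) : ℝ) / p ≤ 1 := by
    rw [div_le_one (by linarith)]
    split_ifs
    · push_cast; linarith
    · push_cast; linarith
  linarith

theorem MM_nonneg (e : Env) (h2 : 2 ∣ e.N0) {k : ℕ} (hk : k ≤ e.w) : 0 ≤ e.MM k := by
  unfold Env.MM
  refine mul_nonneg (VW_nonneg e h2) (prod_nonneg fun p hp => ?_)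
  obtain ⟨h1, h3⟩ := mem_filter.mp hp
  have h4 : (0 : ℝ) < p := by exact_mod_cast (mem_pr.mp h1).1.pos
  have h5 : (k : ℝ) ≤ p := by exact_mod_cast (by omega : k ≤ p)
  have h6 : (k : ℝ) / p ≤ 1 := (div_le_one h4).mpr h5
  linarith

/-- **the singular series of a scheme** -/
theorem sing (e : Env) (k : ℕ) (μ : ℝ) (hμ0 : 0 < μ) (hμ1 : μ ≤ 1) (hk : 2 * k ≤ e.w) (hw : 2 ≤ e.w) (hwz : e.w ≤ e.z) (hN0 : 2 ∣ e.N0)
    (hX : 1 ≤ e.X) (hlog : 4 * (k : ℝ) ^ 3 * (Real.log 2 + 80 * Real.log e.X) ≤ μ * (e.w * Real.log e.w)) {t : Frm} {Fs : List Frm}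
    (h : e.SOk 40 t Fs) (hl : Fs.length ≤ k) :
    e.MM Fs.length ≤ ∏ p ∈ pr e.z, (1 - ((Zs e t Fs p).card : ℝ) / p) ∧
      ∏ p ∈ pr e.z, (1 - ((Zs e t Fs p).card : ℝ) / p) ≤ (1 + μ) * e.MM Fs.length := by
  classical
  set S := (pr e.z).filter fun p => e.w < p with hS
  have hsmall : ∏ p ∈ pr e.w, (1 - ((Zs e t Fs p).card : ℝ) / p) = VW e := by
    unfold VW
    refine prod_congr rfl fun p hp => ?_
    obtain ⟨h1, h2⟩ := mem_pr.mp hp
    rw [card_Zs_small h h1 h2]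
  have hVW := VW_nonneg e hN0
  have hsplit : ∏ p ∈ pr e.z, (1 - ((Zs e t Fs p).card : ℝ) / p) = VW e * ∏ p ∈ S, (1 - ((Zs e t Fs p).card : ℝ) / p) := by
    rw [← hsmall, ← prod_union (pr_disj _ _), ← pr_split hwz]
  rw [hsplit]
  have hMM : e.MM Fs.length = VW e * ∏ p ∈ S, (1 - (Fs.length : ℝ) / p) := rfl
  rw [hMM]
  set K := Fs.length with hK
  have hKk : (K : ℝ) ≤ k := by exact_mod_cast hl
  have hK0 : (0 : ℝ) ≤ K := Nat.cast_nonneg K
  have hkR : (0 : ℝ) ≤ k := Nat.cast_nonneg k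
  set Q := ∏ p ∈ S, (1 - ((Zs e t Fs p).card : ℝ) / p) with hQ
  set Q0 := ∏ p ∈ S, (1 - (K : ℝ) / p) with hQ0
  have hwR : (2 : ℝ) ≤ e.w := by exact_mod_cast hw
  have hwk : 2 * (k : ℝ) ≤ e.w := by exact_mod_cast hk
  have hpS : ∀ p ∈ S, p.Prime ∧ e.w < p ∧ p ≤ e.z ∧ (e.w : ℝ) ≤ p ∧ (0 : ℝ) < p ∧ (K : ℝ) / p ≤ 1 / 2 := by
    intro p hp
    obtain ⟨h1, h2⟩ := mem_filter.mp hp
    obtain ⟨h3, h4⟩ := mem_pr.mp h1
    have h5 : (e.w : ℝ) ≤ p := by exact_mod_cast h2.le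
    have h6 : (0 : ℝ) < p := by linarith
    refine ⟨h3, h2, h4, h5, h6, ?_⟩
    rw [div_le_iff₀ h6]; linarith
  have hcardle : ∀ p ∈ S, ((Zs e t Fs p).card : ℝ) ≤ K := fun p hp => by
    obtain ⟨h1, h2, h3, -⟩ := hpS p hp
    exact_mod_cast card_Zs_le h h1 (by omega) h3
  have hQ00 : 0 ≤ Q0 := prod_nonneg fun p hp => by linarith [(hpS p hp).2.2.2.2.2]
  -- lower bound
  have hlow : Q0 ≤ Q := by
    refine prod_le_prod (fun p hp => by linarith [(hpS p hp).2.2.2.2.2]) fun p hp => ?_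
    have := div_le_div_of_nonneg_right (hcardle p hp) (hpS p hp).2.2.2.2.1.le
    linarith
  -- upper bound
  have hupp : Q ≤ Q0 * (1 + μ) := by
    have h1 : Q ≤ ∏ p ∈ S, ((1 - (K : ℝ) / p) * (1 + 2 * (K - ((Zs e t Fs p).card : ℝ)) / p)) := by
      refine prod_le_prod (fun p hp => ?_) fun p hp => ?_
      · obtain ⟨h1, h2, h3, h4, h5, h6⟩ := hpS p hp
        have := div_le_div_of_nonneg_right (hcardle p hp) h5.le
        linarith
      · obtain ⟨h1, h2, h3, h4, h5, h6⟩ := hpS p hp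
        have h9 : 0 ≤ 2 * (K - ((Zs e t Fs p).card : ℝ)) / p := by
          have := hcardle p hp
          exact div_nonneg (by linarith) h5.le
        have h10 : 2 * (K - ((Zs e t Fs p).card : ℝ)) / p = 2 * ((K : ℝ) / p - ((Zs e t Fs p).card : ℝ) / p) := by ring
        rw [h10] at h9 ⊢
        nlinarith
    rw [prod_mul_distrib] at h1
    refine h1.trans (mul_le_mul_of_nonneg_left ?_ hQ00)
    have h2 : ∏ p ∈ S, (1 + 2 * (K - ((Zs e t Fs p).card : ℝ)) / p) ≤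
        Real.exp (∑ p ∈ S, 2 * (K - ((Zs e t Fs p).card : ℝ)) / p) := by
      rw [Real.exp_sum]
      refine prod_le_prod (fun p hp => ?_) fun p hp => ?_
      · have := hcardle p hp
        have := (hpS p hp).2.2.2.2.1
        have : 0 ≤ 2 * (K - ((Zs e t Fs p).card : ℝ)) / p := div_nonneg (by linarith) (by linarith)
        linarith
      · rw [add_comm]
        exact Real.add_one_le_exp _
    refine h2.trans ?_
    set Bd := (pr e.z).filter fun p => e.w < p ∧ (Zs e t Fs p).card < Fs.length with hBd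
    have h3 : ∑ p ∈ S, 2 * (K - ((Zs e t Fs p).card : ℝ)) / p ≤ 2 * k * (Bd.card / e.w) := by
      have h4 : ∀ p ∈ S, 2 * (K - ((Zs e t Fs p).card : ℝ)) / p ≤ if p ∈ Bd then 2 * k / (e.w : ℝ) else 0 := by
        intro p hp
        obtain ⟨g1, g2, g3, g4, g5, g6⟩ := hpS p hp
        split_ifs with h5
        · refine div_le_div₀ (by positivity) ?_ (by linarith) g4
          have : (0 : ℝ) ≤ ((Zs e t Fs p).card : ℝ) := Nat.cast_nonneg _
          linarith
        · have h6 : K ≤ (Zs e t Fs p).card := by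
            by_contra h7
            exact h5 (mem_filter.mpr ⟨mem_pr.mpr ⟨g1, g3⟩, g2, by omega⟩)
          have h7 : (K : ℝ) ≤ (Zs e t Fs p).card := by exact_mod_cast h6
          exact div_nonpos_of_nonpos_of_nonneg (by linarith) g5.le
      refine (sum_le_sum h4).trans ?_
      rw [← sum_filter, sum_const, nsmul_eq_mul]
      have h5 : ((S.filter fun p => p ∈ Bd).card : ℝ) ≤ Bd.card := by
        exact_mod_cast card_le_card fun p hp => (mem_filter.mp hp).2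
      have h6 : 0 ≤ 2 * k / (e.w : ℝ) := by positivity
      calc ((S.filter fun p => p ∈ Bd).card : ℝ) * (2 * k / (e.w : ℝ)) ≤ Bd.card * (2 * k / (e.w : ℝ)) := mul_le_mul_of_nonneg_right h5 h6
        _ = 2 * k * (Bd.card / e.w) := by ring
    have h4 := bad_sum h hl hw hX
    have hlw0 : 0 < Real.log e.w := Real.log_pos (by linarith)
    have h5 : 2 * k * (Bd.card / e.w) ≤ μ / 2 := by
      have hwpos : (0 : ℝ) < e.w := by linarith
      have h7 : 2 * k * (Bd.card / (e.w : ℝ)) = 2 * k * (Bd.card * Real.log e.w) / (e.w * Real.log e.w) := by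
        field_simp
      rw [h7, div_le_iff₀ (by positivity)]
      have h8 := mul_le_mul_of_nonneg_left h4 (by positivity : (0 : ℝ) ≤ 2 * k)
      nlinarith
    have h6 : Real.exp (∑ p ∈ S, 2 * (K - ((Zs e t Fs p).card : ℝ)) / p) ≤ Real.exp (μ / 2) := Real.exp_le_exp.mpr (h3.trans h5)
    refine h6.trans ?_
    have h7 : Real.exp (μ / 2) ≤ 1 / (1 - μ / 2) := by
      have h8 := Real.add_one_le_exp (-(μ / 2))
      have h9 : 0 < 1 - μ / 2 := by linarith
      rw [le_div_iff₀ h9]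
      have h10 : Real.exp (μ / 2) * Real.exp (-(μ / 2)) = 1 := by rw [← Real.exp_add]; simp
      have := Real.exp_pos (μ / 2)
      nlinarith
    refine h7.trans ?_
    rw [div_le_iff₀ (by linarith)]
    nlinarith
  constructor
  · exact mul_le_mul_of_nonneg_left hlow hVW
  · have := mul_le_mul_of_nonneg_left hupp hVW
    linarith

end Pool.Agent.Lib.EX.AX
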