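import Pool.Agent.Lib.MP_61161c_nt.EX.ACnt
import Pool.Agent.Lib.MP_61161c_nt.EX.ASing

/-!
# EX, module AP1: the upper weights on an interval, and (P1)
-/

set_option autoImplicit false

open Finset
open Pool.Agent.Lib.GT (Rough pr)

namespace Pool.Agent.Lib.EX.AX

/-- changing the interval by its end points -/
theorem card_ico_ioc (A L : ℕ) (Q : ℕ → Prop) [DecidablePred Q] :
    |(((Ico A (A + L)).filter Q).card : ℝ) - (((Ioc A (A + L)).filter Q).card : ℝ)| ≤ 1 := by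
  classical
  have h1 : ((Ico A (A + L)).filter Q).card ≤ ((Ioc A (A + L)).filter Q).card + 1 := by
    have h : (Ico A (A + L)).filter Q ⊆ insert A ((Ioc A (A + L)).filter Q) := by
      intro n hn
      obtain ⟨h2, h3⟩ := mem_filter.mp hn
      rw [mem_Ico] at h2
      rw [mem_insert, mem_filter, mem_Ioc]
      by_cases h4 : n = A
      · exact Or.inl h4
      · exact Or.inr ⟨⟨by omega, by omega⟩, h3⟩
    exact (card_le_card h).trans (card_insert_le _ _)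
  have h2 : ((Ioc A (A + L)).filter Q).card ≤ ((Ico A (A + L)).filter Q).card + 1 := by
    have h : (Ioc A (A + L)).filter Q ⊆ insert (A + L) ((Ico A (A + L)).filter Q) := by
      intro n hn
      obtain ⟨h2, h3⟩ := mem_filter.mp hn
      rw [mem_Ioc] at h2
      rw [mem_insert, mem_filter, mem_Ico]
      by_cases h4 : n = A + L
      · exact Or.inl h4
      · exact Or.inr ⟨⟨by omega, by omega⟩, h3⟩
    exact (card_le_card h).trans (card_insert_le _ _)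
  have h3 : (((Ico A (A + L)).filter Q).card : ℝ) ≤ (((Ioc A (A + L)).filter Q).card : ℝ) + 1 := by exact_mod_cast h1
  have h4 : (((Ioc A (A + L)).filter Q).card : ℝ) ≤ (((Ico A (A + L)).filter Q).card : ℝ) + 1 := by exact_mod_cast h2
  rw [abs_le]
  constructor <;> linarith

/-- **upper weights**: `1_{s = ∅} ≤ ∑_{d ⊆ s} up d`, and their total over an interval -/
theorem cnt_up (κ : ℕ) : ∃ K : ℕ, 1 ≤ K ∧ ∀ b : ℕ, 1 ≤ b → ∀ z : ℕ, 2 ≤ z → ∀ P : Finset ℕ, (∀ r ∈ P, r.Prime ∧ r ≤ z) →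
    ∀ Z : ℕ → Finset ℕ, (∀ r ∈ P, (Z r).card ≤ κ ∧ 3 * (Z r).card ≤ 2 * r ∧ ∀ x ∈ Z r, x < r) →
    ∃ up : Finset ℕ → ℝ, (∀ d, |up d| ≤ 1) ∧ (∀ d ⊆ P, up d ≠ 0 → ∏ r ∈ d, r ≤ z ^ (12 * b)) ∧
      (∀ s ⊆ P, (if s = ∅ then (1 : ℝ) else 0) ≤ ∑ d ∈ s.powerset, up d) ∧
      ∀ A L : ℕ, ∑ n ∈ Ico A (A + L), ∑ d ∈ (P.filter fun p => n % p ∈ Z p).powerset, up d ≤
        (1 + K * (1 / 2) ^ b) * (L * ∏ r ∈ P, (1 - ((Z r).card : ℝ) / r)) + (z : ℝ) ^ (26 * b) := by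
  classical
  obtain ⟨K, hK, hflm⟩ := Pool.Agent.Lib.TC.flm (κ : ℝ) (by positivity)
  refine ⟨⌈K⌉₊ + 1, by omega, fun b hb z hz P hP Z hZ => ?_⟩
  obtain ⟨up, lo, hw1, hw2, hw3, hw4⟩ := hflm b hb z hz P hP
  have hPp : ∀ p ∈ P, p.Prime := fun p hp => (hP p hp).1
  have hz0 : (2 : ℝ) ≤ z := by exact_mod_cast hz
  have hsupp : ∀ d ⊆ P, up d ≠ 0 → ∏ r ∈ d, r ≤ z ^ (12 * b) := fun d hd h => by
    exact_mod_cast hw2 d hd (Or.inl h)
  refine ⟨up, fun d => (hw1 d).1, hsupp, fun s hs => (hw3 s hs).2, fun A L => ?_⟩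
  set g : ℕ → ℝ := fun p => ((Z p).card : ℝ) / p with hg
  have hgP : ∀ r ∈ P, 0 ≤ g r ∧ g r ≤ (κ : ℝ) / r ∧ g r ≤ 2 / 3 := by
    intro r hr
    obtain ⟨h1, h2, h3⟩ := hZ r hr
    have hrR : (0 : ℝ) < r := by exact_mod_cast (hPp r hr).pos
    have h5 : ((Z r).card : ℝ) ≤ κ := by exact_mod_cast h1
    refine ⟨by positivity, div_le_div_of_nonneg_right h5 hrR.le, ?_⟩
    rw [div_le_iff₀ hrR]
    have h7 : (3 * (Z r).card : ℝ) ≤ 2 * r := by exact_mod_cast h2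
    linarith
  obtain ⟨hup, -⟩ := hw4 g hgP
  set V := ∏ r ∈ P, (1 - g r) with hV
  have hV0 : 0 ≤ V := Finset.prod_nonneg fun r hr => by linarith [(hgP r hr).2.2]
  have hcnt : ∀ d ∈ P.powerset, |(((Ico A (A + L)).filter fun n => ∀ p ∈ d, n % p ∈ Z p).card : ℝ) - L * ∏ p ∈ d, g p| ≤
      ∏ p ∈ d, ((Z p).card : ℝ) + 1 := by
    intro d hd
    have hd' := mem_powerset.mp hd
    have h := Pool.Agent.Lib.OW.crt_count d (fun p hp => hPp p (hd' hp)) Z (fun p hp => (hZ p (hd' hp)).2.2) A (A + L) (by omega) 1 le_rfl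
      (fun p _ => Nat.coprime_one_left p) 0
    have h1 : ((Ioc A (A + L)).filter fun n => n ≡ 0 [MOD 1] ∧ ∀ p ∈ d, n % p ∈ Z p) = (Ioc A (A + L)).filter fun n => ∀ p ∈ d, n % p ∈ Z p := by
      refine filter_congr fun n _ => ?_
      simp [Nat.modEq_one]
    rw [h1] at h
    have h2 := card_ico_ioc A L (fun n => ∀ p ∈ d, n % p ∈ Z p)
    have h3 : (((A + L : ℕ) : ℝ) - A) / (1 : ℕ) * ∏ p ∈ d, (((Z p).card : ℝ) / p) = L * ∏ p ∈ d, g p := by
      push_cast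
      rw [div_one]
      ring
    rw [h3] at h
    have h4 := abs_add_le ((((Ico A (A + L)).filter fun n => ∀ p ∈ d, n % p ∈ Z p).card : ℝ) - (((Ioc A (A + L)).filter fun n => ∀ p ∈ d, n % p ∈ Z p).card : ℝ))
      ((((Ioc A (A + L)).filter fun n => ∀ p ∈ d, n % p ∈ Z p).card : ℝ) - L * ∏ p ∈ d, g p)
    rw [sub_add_sub_cancel] at h4
    linarith
  have hkey : ∑ d ∈ P.powerset, up d * (((Ico A (A + L)).filter fun n => ∀ p ∈ d, n % p ∈ Z p).card : ℝ) -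
      L * ∑ d ∈ P.powerset, up d * ∏ r ∈ d, g r ≤ (z : ℝ) ^ (26 * b) := by
    have h1 : ∑ d ∈ P.powerset, up d * (((Ico A (A + L)).filter fun n => ∀ p ∈ d, n % p ∈ Z p).card : ℝ) -
        L * ∑ d ∈ P.powerset, up d * ∏ r ∈ d, g r =
        ∑ d ∈ P.powerset, up d * ((((Ico A (A + L)).filter fun n => ∀ p ∈ d, n % p ∈ Z p).card : ℝ) - L * ∏ p ∈ d, g p) := by
      rw [Finset.mul_sum, ← Finset.sum_sub_distrib]
      refine Finset.sum_congr rfl fun d _ => ?_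
      ring
    rw [h1]
    have h1' : ∀ d ∈ P.powerset, up d * ((((Ico A (A + L)).filter fun n => ∀ p ∈ d, n % p ∈ Z p).card : ℝ) - L * ∏ p ∈ d, g p) ≤
        if ∏ r ∈ d, r ≤ z ^ (12 * b) then 2 * (z : ℝ) ^ (12 * b) else 0 := by
      intro d hd
      have hd' := mem_powerset.mp hd
      have h2 : ∏ p ∈ d, ((Z p).card : ℝ) ≤ ((∏ r ∈ d, r : ℕ) : ℝ) := by
        push_cast
        refine Finset.prod_le_prod (fun _ _ => by positivity) fun p hp => ?_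
        have h3 := (hZ p (hd' hp)).2.1
        exact_mod_cast (by omega : (Z p).card ≤ p)
      have h2' : (1 : ℝ) ≤ (z : ℝ) ^ (12 * b) := one_le_pow₀ (by linarith)
      refine (le_abs_self _).trans ?_
      rw [abs_mul]
      by_cases h5 : ∏ r ∈ d, r ≤ z ^ (12 * b)
      · rw [if_pos h5]
        have h6 : ((∏ r ∈ d, r : ℕ) : ℝ) ≤ (z : ℝ) ^ (12 * b) := by exact_mod_cast h5
        calc |up d| * |(((Ico A (A + L)).filter fun n => ∀ p ∈ d, n % p ∈ Z p).card : ℝ) - L * ∏ p ∈ d, g p|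
            ≤ 1 * (∏ p ∈ d, ((Z p).card : ℝ) + 1) :=
              mul_le_mul (hw1 d).1 (hcnt d hd) (abs_nonneg _) (by norm_num)
          _ ≤ 2 * (z : ℝ) ^ (12 * b) := by linarith
      · rw [if_neg h5]
        have h6 : up d = 0 := by
          by_contra h7
          exact h5 (hsupp d hd' h7)
        rw [h6, abs_zero, zero_mul]
    refine (Finset.sum_le_sum h1').trans ?_
    rw [← Finset.sum_filter, Finset.sum_const, nsmul_eq_mul]
    have h2 : ((P.powerset.filter fun d => ∏ r ∈ d, r ≤ z ^ (12 * b)).card : ℝ) ≤ (z : ℝ) ^ (12 * b) := by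
      exact_mod_cast card_small_prod P hPp (z ^ (12 * b))
    calc ((P.powerset.filter fun d => ∏ r ∈ d, r ≤ z ^ (12 * b)).card : ℝ) * (2 * (z : ℝ) ^ (12 * b))
        ≤ (z : ℝ) ^ (12 * b) * (z * (z : ℝ) ^ (12 * b)) := by
          refine mul_le_mul h2 (mul_le_mul_of_nonneg_right hz0 (by positivity)) (by positivity) (by positivity)
      _ = (z : ℝ) ^ (24 * b + 1) := by rw [← pow_succ', ← pow_add]; congr 1; ring
      _ ≤ (z : ℝ) ^ (26 * b) := pow_le_pow_right₀ (by linarith) (by omega)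
  rw [← sum_weight]
  have hKK : K ≤ ((⌈K⌉₊ + 1 : ℕ) : ℝ) := by
    push_cast
    linarith [Nat.le_ceil K]
  have hL0 : (0 : ℝ) ≤ L := Nat.cast_nonneg L
  have hup' := mul_le_mul_of_nonneg_left (abs_le.mp hup).2 hL0
  have hXV : K * (1 / 2) ^ b * (L * V) ≤ ((⌈K⌉₊ + 1 : ℕ) : ℝ) * (1 / 2) ^ b * (L * V) := by
    have : 0 ≤ (1 / 2 : ℝ) ^ b * (L * V) := by positivity
    nlinarith
  have e1 : (L : ℝ) * (K * (1 / 2) ^ b * V) = K * (1 / 2) ^ b * (L * V) := by ring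
  linarith [hkey, hup', hXV, e1]

/-- the local conditions of the sieve -/
theorem Zs_ok {e : Env} {B : ℕ} {t : Frm} {Fs : List Frm} (h : e.SOk B t Fs) (k0 : ℕ) (hk : Fs.length ≤ k0) (hw : 2 * k0 ≤ e.w)
    (hN0 : 2 ∣ e.N0) : ∀ r ∈ pr e.z, (Zs e t Fs r).card ≤ k0 + 2 ∧ 3 * (Zs e t Fs r).card ≤ 2 * r ∧ ∀ x ∈ Zs e t Fs r, x < r := by
  intro r hr
  obtain ⟨h1, h2⟩ := mem_pr.mp hr
  refine ⟨?_, ?_, fun x hx => Zs_lt hx⟩
  · by_cases h3 : r ≤ e.w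
    · rw [card_Zs_small h h1 h3]
      unfold Env.nu
      split_ifs <;> omega
    · have := card_Zs_le h h1 h3 h2
      omega
  · by_cases h3 : r ≤ e.w
    · rw [card_Zs_small h h1 h3]
      unfold Env.nu
      have h4 := h1.two_le
      rcases Nat.lt_or_ge 2 r with h5 | h5
      · split_ifs <;> omega
      · have h6 : r = 2 := by omega
        rw [h6, if_pos hN0]
        omega
    · have := card_Zs_le h h1 h3 h2
      omega

/-- **(P1)** -/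
theorem p1_of (k0 : ℕ) : ∃ K : ℕ, 1 ≤ K ∧ ∀ b : ℕ, 1 ≤ b → ∀ e : Env, 0 < e.eta → e.eta ≤ 1 → (K : ℝ) * (1 / 2) ^ b ≤ e.eta / 4 →
    2 ≤ e.w → 2 * k0 ≤ e.w → e.w ≤ e.z → 2 ∣ e.N0 → 1 ≤ e.X →
    4 * (k0 : ℝ) ^ 3 * (Real.log 2 + 80 * Real.log e.X) ≤ e.eta / 8 * (e.w * Real.log e.w) →
    (∀ k ≤ k0, (e.z : ℝ) ^ (26 * b) + 1 ≤ e.eta / 4 * (e.Y * e.MM k)) → e.P1 k0 := by
  classical
  obtain ⟨K, hK, hcnt⟩ := cnt (k0 + 2)
  refine ⟨K, hK, fun b hb e heta0 heta1 hKb hw2 hw hwz hN0 hX hlog hz26 t Fs A L hS hlen hYL => ?_⟩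
  have hz : 2 ≤ e.z := by omega
  have h1 := hcnt b hb e.z hz (pr e.z) (fun r hr => mem_pr.mp hr) (Zs e t Fs) (Zs_ok hS k0 hlen hw hN0) A (A + L) 1 0 (by omega) le_rfl
    (fun r hr hd => by
      have h2 := (mem_pr.mp hr).1.two_le
      have h3 := Nat.le_of_dvd one_pos hd
      omega)
  obtain ⟨h2, h3⟩ := sing e k0 (e.eta / 8) (by linarith) (by linarith) hw hw2 hwz hN0 hX hlog hS hlen
  set V := ∏ p ∈ pr e.z, (1 - ((Zs e t Fs p).card : ℝ) / p) with hV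
  have hM0 : 0 ≤ e.MM Fs.length := MM_nonneg e hN0 (by omega)
  have h4 : e.SS t Fs A L = (Ico A (A + L)).filter fun n => ∀ r ∈ pr e.z, n % r ∉ Zs e t Fs r := by
    ext n
    rw [mem_SS_iff hS hwz, mem_filter]
  have h5 := card_ico_ioc A L (fun n => ∀ r ∈ pr e.z, n % r ∉ Zs e t Fs r)
  rw [← h4] at h5
  have h6 : ((Ioc A (A + L)).filter fun n => n ≡ 0 [MOD 1] ∧ ∀ r ∈ pr e.z, n % r ∉ Zs e t Fs r) =
      (Ioc A (A + L)).filter fun n => ∀ r ∈ pr e.z, n % r ∉ Zs e t Fs r := by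
    refine filter_congr fun n _ => ?_
    simp [Nat.modEq_one]
  rw [h6] at h1
  have h7 : (((A + L : ℕ) : ℝ) - A) / (1 : ℕ) = L := by
    push_cast
    rw [div_one]
    ring
  rw [h7] at h1
  have hL0 : (0 : ℝ) ≤ L := Nat.cast_nonneg L
  have hYL' : (e.Y : ℝ) ≤ L := by exact_mod_cast hYL
  have h8 := hz26 Fs.length hlen
  have h9 : (e.Y : ℝ) * e.MM Fs.length ≤ L * e.MM Fs.length := mul_le_mul_of_nonneg_right hYL' hM0
  have h10 : (L : ℝ) * V ≤ (1 + e.eta / 8) * (L * e.MM Fs.length) := by nlinarith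
  have h11 : (L : ℝ) * e.MM Fs.length ≤ L * V := mul_le_mul_of_nonneg_left h2 hL0
  have hLM : 0 ≤ (L : ℝ) * e.MM Fs.length := mul_nonneg hL0 hM0
  have h12 : (K : ℝ) * (1 / 2) ^ b * (L * V) ≤ e.eta / 4 * ((1 + e.eta / 8) * (L * e.MM Fs.length)) :=
    mul_le_mul hKb h10 (mul_nonneg hL0 (hM0.trans h2)) (by linarith)
  have h13 : e.eta / 4 * ((1 + e.eta / 8) * (L * e.MM Fs.length)) ≤ e.eta / 2 * (L * e.MM Fs.length) := by
    have : 0 ≤ e.eta * (L * e.MM Fs.length) := mul_nonneg heta0.le hLM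
    nlinarith
  have h14 : e.eta / 4 * (e.Y * e.MM Fs.length) ≤ e.eta / 4 * (L * e.MM Fs.length) :=
    mul_le_mul_of_nonneg_left h9 (by linarith)
  obtain ⟨h15, h16⟩ := abs_le.mp h1
  obtain ⟨h17, h18⟩ := abs_le.mp h5
  have h19 : 0 ≤ e.eta * (L * e.MM Fs.length) := mul_nonneg heta0.le hLM
  rw [abs_le]
  constructor
  · linarith
  · linarith

end Pool.Agent.Lib.EX.AX
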