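import Pool.Agent.Lib.MP_61161c_nt.EX.PDefs

/-!
# EX, module PCls: a sum over residue conditions modulo several primes from sums over single classes
-/

set_option autoImplicit false

open Finset

namespace Pool.Agent.Lib.EX.AX

private theorem cls_card (d : Finset ℕ) (hd : ∀ p ∈ d, p.Prime) (Z : ℕ → Finset ℕ) :
    ((range (∏ p ∈ d, p)).filter (fun c => ∀ p ∈ d, c % p ∈ Z p)).card ≤ ∏ p ∈ d, (Z p).card := by
  classical
  rw [← Finset.card_pi]
  refine Finset.card_le_card_of_injOn (fun c => fun p _ => c % p) ?_ ?_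
  · intro c hc
    rw [mem_coe, mem_filter] at hc
    rw [mem_coe, Finset.mem_pi]
    exact hc.2
  · intro c hc c' hc' he
    rw [mem_coe, mem_filter, mem_range] at hc hc'
    have h1 : ∀ p ∈ d, c % p = c' % p := fun p hp => congrFun (congrFun he p) hp
    have key : ∀ a b : ℕ, a ≤ b → b < ∏ p ∈ d, p → (∀ p ∈ d, a % p = b % p) → a = b := by
      intro a b hab hb h
      have h2 : ∏ p ∈ d, p ∣ b - a := by
        refine Finset.prod_primes_dvd _ (fun p hp => (hd p hp).prime) fun p hp => ?_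
        exact (Nat.modEq_iff_dvd' hab).1 (h p hp)
      have h3 := Nat.eq_zero_of_dvd_of_lt h2 (by omega)
      omega
    rcases le_total c c' with h2 | h2
    · exact key c c' h2 hc'.1 h1
    · exact (key c' c h2 hc.1 fun p hp => (h1 p hp).symm).symm

/-- Classes modulo `D = ∏ d`. -/
theorem cls_sum (d : Finset ℕ) (hd : ∀ p ∈ d, p.Prime) (Z : ℕ → Finset ℕ) (hZ : ∀ p ∈ d, ∀ x ∈ Z p, x < p) (F : ℕ → ℝ)
    (T : Finset ℕ) (B : ℝ) (hB : 0 ≤ B) (h : ∀ c : ℕ, |∑ n ∈ T.filter (fun n => n ≡ c [MOD ∏ p ∈ d, p]), F n| ≤ B) :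
    |∑ n ∈ T.filter (fun n => ∀ p ∈ d, n % p ∈ Z p), F n| ≤ 2 * (∏ p ∈ d, ((Z p).card : ℝ)) * B := by
  classical
  have _ := hZ
  obtain ⟨D, hD⟩ : ∃ D, D = ∏ p ∈ d, p := ⟨_, rfl⟩
  have hD0 : 0 < D := by rw [hD]; exact Finset.prod_pos fun p hp => (hd p hp).pos
  have hmod : ∀ n : ℕ, ∀ p ∈ d, (n % D) % p = n % p := fun n p hp =>
    Nat.mod_mod_of_dvd n (by rw [hD]; exact Finset.dvd_prod_of_mem _ hp)
  have hmap : ∀ n ∈ T.filter (fun n => ∀ p ∈ d, n % p ∈ Z p), n % D ∈ (range D).filter (fun c => ∀ p ∈ d, c % p ∈ Z p) := by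
    intro n hn
    rw [mem_filter] at hn
    rw [mem_filter, mem_range]
    refine ⟨Nat.mod_lt _ hD0, fun p hp => ?_⟩
    rw [hmod n p hp]
    exact hn.2 p hp
  rw [← Finset.sum_fiberwise_of_maps_to hmap]
  refine (Finset.abs_sum_le_sum_abs _ _).trans ?_
  have hone : ∀ c ∈ (range D).filter (fun c => ∀ p ∈ d, c % p ∈ Z p),
      |∑ n ∈ (T.filter (fun n => ∀ p ∈ d, n % p ∈ Z p)).filter (fun n => n % D = c), F n| ≤ B := by
    intro c hc
    rw [mem_filter, mem_range] at hc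
    have hs : (T.filter (fun n => ∀ p ∈ d, n % p ∈ Z p)).filter (fun n => n % D = c) =
        T.filter (fun n => n ≡ c [MOD ∏ p ∈ d, p]) := by
      ext n
      rw [mem_filter, mem_filter, mem_filter, ← hD]
      constructor
      · rintro ⟨⟨h1, h2⟩, h3⟩
        refine ⟨h1, ?_⟩
        show n % D = c % D
        rw [h3, Nat.mod_eq_of_lt hc.1]
      · rintro ⟨h1, h2⟩
        have h3 : n % D = c := by
          have : n % D = c % D := h2
          rw [this, Nat.mod_eq_of_lt hc.1]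
        refine ⟨⟨h1, fun p hp => ?_⟩, h3⟩
        rw [← hmod n p hp, h3]
        exact hc.2 p hp
    rw [hs]
    exact h c
  refine (Finset.sum_le_sum hone).trans ?_
  rw [Finset.sum_const, nsmul_eq_mul]
  have h1 : (((range D).filter (fun c => ∀ p ∈ d, c % p ∈ Z p)).card : ℝ) ≤ ∏ p ∈ d, ((Z p).card : ℝ) := by
    rw [hD]
    exact_mod_cast cls_card d hd Z
  have h2 : 0 ≤ ∏ p ∈ d, ((Z p).card : ℝ) := Finset.prod_nonneg fun p _ => by positivity
  nlinarith [mul_le_mul_of_nonneg_right h1 hB, mul_nonneg h2 hB]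

end Pool.Agent.Lib.EX.AX
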