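import Pool.Agent.Lib.MP_7b7e48_nt.TE.Defs

/-!
# EX: the exceptional set `X^ε` for sums of two almost primes with prescribed parities. Definitions

Text: `/team-store/EX_TEXT.md`.

`X` scale (`N ∈ (X, 2X]`), `Y = ⌊X^ω⌋`, `z = ⌊Y^(1/(24 b))⌋`, `W = primorial w` with `w = ⌊(ω/2) log X⌋` (so `W ≤ Y`), `E` the exceptional numbers, all in one class `N0` modulo `W` and in
`[Xs, Xs + H]` with `10^6 H ≤ X`, `Bad` the (few) primes `> z` of the bad conductors, `kap = ±1` the sign with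
`lam a * lam (N - a) = kap` for most rough `a`, `eta` the relative error.
-/

set_option autoImplicit false

open Finset
open Pool.Agent.Lib.MP_45349e_nt.LS (lam)
open Pool.Agent.Lib.GT (Rough pr)

namespace Pool.Agent.Lib.EX

/-- a linear form `a n + b` -/
structure Frm where
  a : ℤ
  b : ℤ
deriving DecidableEq

namespace Frm

/-- the value of the form -/
def ev (F : Frm) (n : ℤ) : ℤ := F.a * n + F.b

/-- `k F + v` -/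
def af (F : Frm) (k v : ℤ) : Frm := ⟨k * F.a, k * F.b + v⟩

/-- `F (c + m n)` -/
def cp (F : Frm) (c m : ℤ) : Frm := ⟨F.a * m, F.a * c + F.b⟩

/-- the two forms are not proportional -/
def NP (F F' : Frm) : Prop := F.a * F'.b ≠ F'.a * F.b

end Frm

/-- no prime `≤ z` divides `x` -/
def Sf (z : ℕ) (x : ℤ) : Prop := ∀ p : ℕ, p.Prime → p ≤ z → ¬ (p : ℤ) ∣ x

/-- the Liouville function of `|x|` -/
noncomputable def lz (x : ℤ) : ℝ := lam x.natAbs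

/-- the environment; `U` bounds all `(log X)^C 2^(1/c0)` -/
structure Env where
  X : ℕ
  Y : ℕ
  z : ℕ
  w : ℕ
  U : ℕ
  N0 : ℕ
  Xs : ℕ
  H : ℕ
  E : Finset ℕ
  Bad : Finset ℕ
  kap : ℝ
  eta : ℝ

namespace Env

variable (e : Env)

/-- `W` -/
def W : ℕ := primorial e.w

/-- good moduli: no prime factor `≤ z` and no bad one -/
def Gd (m : ℤ) : Prop := Sf e.z m ∧ ∀ p ∈ e.Bad, ¬ (p : ℤ) ∣ m

/-- number of roots of `t (N0 - t)` modulo `p` -/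
def nu (p : ℕ) : ℕ := if p ∣ e.N0 then 1 else 2

/-- density of a scheme with `k` forms -/
noncomputable def MM (k : ℕ) : ℝ :=
  (∏ p ∈ pr e.w, (1 - (e.nu p : ℝ) / p)) * ∏ p ∈ (pr e.z).filter (fun p => e.w < p), (1 - (k : ℝ) / p)

/-- `F` is, modulo `W`, a unit times `t` or `N0 - t` -/
def Typ (t F : Frm) : Prop := ∃ c : ℤ, IsCoprime c (e.W : ℤ) ∧
  (((e.W : ℤ) ∣ F.a - c * t.a ∧ (e.W : ℤ) ∣ F.b - c * t.b) ∨
    ((e.W : ℤ) ∣ F.a + c * t.a ∧ (e.W : ℤ) ∣ F.b - c * (e.N0 - t.b)))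

/-- `F` is, modulo `W`, equal to `t` or `N0 - t` -/
def Ext (t F : Frm) : Prop :=
  ((e.W : ℤ) ∣ F.a - t.a ∧ (e.W : ℤ) ∣ F.b - t.b) ∨
    ((e.W : ℤ) ∣ F.a + t.a ∧ (e.W : ℤ) ∣ F.b - (e.N0 - t.b))

/-- admissible lists of forms; `B` bounds the exponents of the coefficients -/
structure SOk (B : ℕ) (t : Frm) (Fs : List Frm) : Prop where
  ta : IsCoprime t.a (e.W : ℤ)
  sa : ∀ F ∈ Fs, Sf e.z F.a
  bd : ∀ F ∈ Fs, |F.a| ≤ (e.X : ℤ) ^ B ∧ |F.b| ≤ (e.X : ℤ) ^ B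
  ty : ∀ F ∈ Fs, e.Typ t F
  np : Fs.Pairwise Frm.NP

open Classical in
/-- the sifted set of a scheme: `n ∈ [A, A + L)`, `(t (N0 - t), W) = 1`, no form divisible by a prime `≤ z` -/
noncomputable def SS (t : Frm) (Fs : List Frm) (A L : ℕ) : Finset ℕ :=
  (Finset.Ico A (A + L)).filter fun n : ℕ =>
    IsCoprime (t.ev n * (e.N0 - t.ev n)) (e.W : ℤ) ∧ ∀ F ∈ Fs, Sf e.z (F.ev n)

/-- (P1) the sieve: the sifted set has the expected size -/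
def P1 (k0 : ℕ) : Prop := ∀ (t : Frm) (Fs : List Frm) (A L : ℕ), e.SOk 40 t Fs → Fs.length ≤ k0 → e.Y ≤ L →
  |((e.SS t Fs A L).card : ℝ) - L * e.MM Fs.length| ≤ e.eta * (L * e.MM Fs.length)

open Classical in
/-- (P2) reflections about `N ∈ E` -/
def P2 (k0 : ℕ) : Prop := ∀ (t : Frm) (Fs : List Frm) (A L : ℕ), e.SOk 40 t Fs → Fs.length ≤ k0 →
  ∀ x : Frm, ∀ N ∈ e.E, e.Gd x.a → |x.a| ≤ (e.Y : ℤ) ^ 100 → (e.X : ℤ) ≤ 10 ^ 9 * (|x.a| * L) → A + L ≤ e.X ^ 40 →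
  (∀ n : ℕ, A ≤ n → n < A + L → 0 < x.ev n ∧ x.ev n < N) →
  (∀ n ∈ e.SS t Fs A L, Sf e.z (x.ev n) ∧ Sf e.z (N - x.ev n)) →
  (((e.SS t Fs A L).filter fun n : ℕ => lz (x.ev n) * lz (N - x.ev n) ≠ e.kap).card : ℝ) ≤
    e.eta * (L * e.MM Fs.length)

open Classical in
/-- the shift by `v` is valid (error `dl`) in every scheme with `≤ k0` forms, for base forms `G` with values in `[lo, hi]` -/
def Val (k0 B cr : ℕ) (v : ℤ) (dl : ℝ) (a0 lo hi : ℤ) : Prop := ∀ (t : Frm) (Fs : List Frm) (A L : ℕ), e.SOk B t Fs →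
  Fs.length ≤ k0 → A + L ≤ e.X ^ B →
  ∀ G : Frm, e.Ext t G → e.Gd G.a → |G.a| ≤ a0 → |G.b| ≤ (e.X : ℤ) ^ B → (e.X : ℤ) ≤ cr * (|G.a| * L) →
  (∀ n : ℕ, A ≤ n → n < A + L → lo ≤ G.ev n ∧ G.ev n ≤ hi ∧ lo ≤ G.ev n + v ∧ G.ev n + v ≤ hi) →
  (∀ n ∈ e.SS t Fs A L, Sf e.z (G.ev n) ∧ Sf e.z (G.ev n + v)) →
  (((e.SS t Fs A L).filter fun n : ℕ => lz (G.ev n) ≠ lz (G.ev n + v)).card : ℝ) ≤ dl * (L * e.MM Fs.length)

open Classical in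
/-- the lower move `τ m = eps m + g` with auxiliary reflection at `Ns - qs m`, in positions `G = q m`:
`lz (eps G + q g) = s * lz G` in every scheme in which `G`, `eps G + q g` and `q Ns - qs G` are rough -/
def Low (k0 B cr : ℕ) (eps g : ℤ) (Ns qs : ℕ) (q : ℤ) (s dl : ℝ) (a0 lo hi : ℤ) : Prop :=
  ∀ (t : Frm) (Fs : List Frm) (A L : ℕ), e.SOk B t Fs → Fs.length ≤ k0 → A + L ≤ e.X ^ B →
  ∀ G : Frm, e.Ext t G → e.Gd G.a → |G.a| ≤ a0 → |G.b| ≤ (e.X : ℤ) ^ B → q ∣ G.a → q ∣ G.b →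
  (e.X : ℤ) ≤ cr * (|G.a| * L) →
  (∀ n : ℕ, A ≤ n → n < A + L → lo ≤ G.ev n ∧ G.ev n ≤ hi ∧ 0 < eps * G.ev n + q * g) →
  (∀ n ∈ e.SS t Fs A L, Sf e.z (G.ev n) ∧ Sf e.z (eps * G.ev n + q * g) ∧ Sf e.z (q * Ns - qs * G.ev n)) →
  (((e.SS t Fs A L).filter fun n : ℕ => lz (eps * G.ev n + q * g) ≠ s * lz (G.ev n)).card : ℝ) ≤
    dl * (L * e.MM Fs.length)

/-- the static facts -/
structure Ok : Prop where
  kap : e.kap = 1 ∨ e.kap = -1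
  eta0 : 0 < e.eta
  eta1 : e.eta ≤ 1 / 100
  etaU : 1 ≤ e.eta * e.U
  w : 200 ≤ e.w
  wz : e.w < e.z
  W : e.W ≤ e.Y
  zY : e.z ^ 2 ≤ e.Y
  YX : e.Y ^ 10000 ≤ e.X
  Uz : e.U ^ 60 ≤ e.z
  logU : Real.log e.X ^ 50 ≤ e.U
  MM0 : ∀ k ≤ 36, (e.U : ℝ)⁻¹ ≤ e.MM k
  MMr : ∀ k r : ℕ, k + 2 * r ≤ 36 → e.MM (k + 2 * r) * e.MM k ≤ (1 + e.eta) * e.MM (k + r) ^ 2
  /-- few rough divisors -/
  dvs : ∀ D : ℕ, D ≠ 0 → D ≤ e.X ^ 100 → (D.divisors.filter (fun d => Rough e.z d)).card ≤ e.U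
  bad : e.Bad.card ≤ e.U ∧ ∀ p ∈ e.Bad, p.Prime ∧ e.z < p
  E0 : e.Y ^ 60 ≤ e.E.card
  EH : ∀ N ∈ e.E, e.Xs ≤ N ∧ N ≤ e.Xs + e.H
  EW : ∀ N ∈ e.E, N ≡ e.N0 [MOD e.W]
  N0e : 2 ∣ e.N0
  H1 : 1 ≤ e.H
  HX : 10 ^ 6 * e.H ≤ e.X
  Xs0 : e.X < e.Xs
  Xs1 : e.Xs + e.H ≤ 2 * e.X

end Env

/-! ### The double half move
`eps = ± 1`, `τ m = eps m + g`, `θ = (q, n1, n1', n2, n2')` with `q' = q - k`; base form `G`.
`F2 = G + (n1' - n1)` is divisible by `q`, `F8` by `q'`. Chain of the values of `lz`: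
`G -(n1)- F1 -(n1')- F2 -(low, q)- F4 -(nA)- F5 -(nB)- F6 -(n2)- F7 -(n2')- F8 -(low, q')- F10 -(nC)- F11 -(nD)- G + eps k g`,
`nA = n1', nB = n1, nC = n2', nD = n2` if `eps = 1`, `nA = n1, nB = n1', nC = n2, nD = n2'` if `eps = -1`. -/

/-- the parameters of a path -/
structure Th where
  q : ℕ
  n1 : ℕ
  n1' : ℕ
  n2 : ℕ
  n2' : ℕ
deriving DecidableEq

namespace Th

variable (eps g : ℤ) (Ns qs : ℕ) (k : ℤ) (G : Frm) (θ : Th)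

def nA : ℕ := if eps = 1 then θ.n1' else θ.n1
def nB : ℕ := if eps = 1 then θ.n1 else θ.n1'
def nC : ℕ := if eps = 1 then θ.n2' else θ.n2
def nD : ℕ := if eps = 1 then θ.n2 else θ.n2'
def F1 : Frm := G.af (-1) θ.n1
def F2 : Frm := G.af 1 (θ.n1' - θ.n1)
def F3 : Frm := (θ.F2 G).af (-qs) (θ.q * Ns)
def F4 : Frm := (θ.F2 G).af eps (θ.q * g)
def F5 : Frm := (θ.F4 eps g G).af (-1) (θ.nA eps)
def F6 : Frm := G.af eps (θ.q * g)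
def F7 : Frm := (θ.F6 eps g G).af (-1) θ.n2
def F8 : Frm := (θ.F6 eps g G).af 1 (θ.n2' - θ.n2)
def F10 : Frm := (θ.F8 eps g G).af eps (-eps * ((θ.q - k) * g))
def F9 : Frm := (θ.F10 eps g k G).af (-qs) ((θ.q - k) * Ns)
def F11 : Frm := (θ.F10 eps g k G).af (-1) (θ.nC eps)

/-- the eleven interior forms -/
def Fs : List Frm :=
  [θ.F1 G, θ.F2 G, θ.F3 Ns qs G, θ.F4 eps g G, θ.F5 eps g G, θ.F6 eps g G, θ.F7 eps g G, θ.F8 eps g G,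
    θ.F9 eps g Ns qs k G, θ.F10 eps g k G, θ.F11 eps g k G]

end Th

namespace Env

variable (e : Env)

/-- probability that `u` divides the difference of two elements of `E` -/
noncomputable def eE (u : ℕ) : ℝ :=
  (((e.E ×ˢ e.E).filter fun x => (x.1 : ℤ) ≡ x.2 [ZMOD u]).card : ℝ) / (e.E.card : ℝ) ^ 2

open Classical in
/-- `∑ u * eE u` over the divisors of `q` -/
noncomputable def sE (q : ℕ) : ℝ := ∑ u ∈ q.divisors, (u : ℝ) * e.eE u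

open Classical in
/-- the moduli `q` of the double half move with difference `k` -/
noncomputable def Qs (qs qlo qhi : ℕ) (k a : ℤ) : Finset ℕ := (Finset.Icc qlo qhi).filter fun q : ℕ =>
  (qlo : ℤ) ≤ q - k ∧ q - k ≤ qhi ∧ q ≡ qs [MOD e.W] ∧ e.Gd q ∧ e.Gd (q - k) ∧
  IsCoprime (q : ℤ) (q - k) ∧ IsCoprime (q : ℤ) a ∧ IsCoprime (q - k) a ∧
  e.sE q ≤ (e.W : ℝ) ^ 2 * e.U ^ 2 ∧ e.sE ((q : ℤ) - k).natAbs ≤ (e.W : ℝ) ^ 2 * e.U ^ 2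

open Classical in
/-- (PER) output of the double half moves: `lam` is periodic modulo `G` on the rough numbers `y = al n` in
`[X/10^4, X/50]` with `(N0 - y, W) = 1` -/
structure Per (G : ℕ) (dl : ℝ) : Prop where
  G0 : 0 < G
  GX : G * e.Y ^ 17 ≤ e.X
  GW : e.W ∣ G
  per : ∀ k : ℤ, k ≠ 0 → 100 * (|k| * G) ≤ 3 * e.X → ∀ al A L : ℕ, e.Gd al → al ≤ e.Y ^ 12 → e.X ≤ 10 ^ 5 * (al * L) →
    (∀ n : ℕ, A ≤ n → n < A + L → (e.X : ℤ) ≤ 10 ^ 4 * (al * n) ∧ 50 * ((al : ℤ) * n) ≤ e.X ∧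
      (e.X : ℤ) ≤ 10 ^ 4 * (al * n + k * G) ∧ 50 * ((al : ℤ) * n + k * G) ≤ e.X) →
    (((Finset.Ico A (A + L)).filter fun n : ℕ => IsCoprime (((al * n : ℕ) : ℤ) * (e.N0 - (al * n : ℕ))) (e.W : ℤ) ∧
      Sf e.z ((al * n : ℕ) : ℤ) ∧ Sf e.z ((al * n : ℕ) + k * G) ∧
      lz ((al * n : ℕ) : ℤ) ≠ lz ((al * n : ℕ) + k * G)).card : ℝ) ≤ dl * (L * e.MM 2)

end Env

end Pool.Agent.Lib.EX
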