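import Pool.Agent.Lib.MP_7b7e48_nt.TE.Defs
import Pool.Agent.Lib.MP_61161c_nt.EX.Defs

/-!
# EX, module PDefs: bad conductors

`K = log N`. The conductor `f ≤ N^(1/1000)` is bad if, for some `T` of the grid (ratio `1 + K^(-(A+2))`), the sum over `h ≤ N^(1/1000)` of the sums of
`|∑_{n ≤ T / h} λ(n) ψ(n)|` over the primitive characters `ψ` modulo `f` is larger than `T / K^(A+2)`.
-/

set_option autoImplicit false

open Finset
open Pool.Agent.Lib.BV (PS)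
open Pool.Agent.Lib.TE (FN LamC)

namespace Pool.Agent.Lib.EX.AX

/-- the grid -/
noncomputable def grd (N A i : ℕ) : ℕ := ⌊(1 + 1 / Real.log N ^ (A + 2)) ^ i⌋₊

/-- `N^(1/1000)` -/
noncomputable def rtN (N : ℕ) : ℕ := ⌊(N : ℝ) ^ ((1 : ℝ) / 1000)⌋₊

open Classical in
/-- the bad conductors -/
noncomputable def Bf (N A : ℕ) : Finset ℕ := (Ioc 1 (rtN N)).filter fun f => ∃ i : ℕ, (i : ℝ) ≤ 2 * Real.log N ^ (A + 3) ∧
  (N : ℝ) ^ ((1 : ℝ) / 8) ≤ grd N A i ∧ grd N A i ≤ N ∧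
  (grd N A i : ℝ) / Real.log N ^ (A + 2) < ∑ h ∈ Icc 1 (rtN N), PS f (fun ψ => ‖LamC N (grd N A i / h) ψ‖)

end Pool.Agent.Lib.EX.AX
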