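import Pool.Agent.Lib.MP_7b7e48_nt.TE.LSL
import Pool.Agent.Lib.MP_7b7e48_nt.TE.SWL
import Pool.Agent.Lib.MP_61161c_nt.EX.PDefs

/-!
# EX, module PBf: there are few bad conductors, and they are large
-/

set_option autoImplicit false

open Finset
open Pool.Agent.Lib.BV (PS PS_nonneg PS_le_const)
open Pool.Agent.Lib.TE (FN LamC)

namespace Pool.Agent.Lib.EX.AX

private theorem rtN_le (N : ℕ) : ((rtN N : ℕ) : ℝ) ≤ (N : ℝ) ^ ((1 : ℝ) / 1000) :=
  Nat.floor_le (by positivity)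

private theorem ev_base : ∃ N0 : ℕ, ∀ N : ℕ, N0 ≤ N → (18 : ℝ) ≤ Real.log N ∧ (1 : ℝ) ≤ N ∧
    (N : ℝ) ^ ((1 : ℝ) / 9) + 1 ≤ (N : ℝ) ^ ((31 : ℝ) / 250) := by
  have a1 : ∀ᶠ x : ℝ in Filter.atTop, 18 ≤ Real.log x := Real.tendsto_log_atTop.eventually_ge_atTop _
  have a2 : ∀ᶠ x : ℝ in Filter.atTop, 2 ≤ x ^ ((29 : ℝ) / 2250) :=
    (tendsto_rpow_atTop (by norm_num)).eventually_ge_atTop _
  have a3 := Filter.eventually_ge_atTop (1 : ℝ)
  obtain ⟨X, hX⟩ := Filter.eventually_atTop.mp (a1.and (a2.and a3))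
  refine ⟨⌈X⌉₊, fun N hN => ?_⟩
  have hNX : X ≤ N := (Nat.le_ceil X).trans (by exact_mod_cast hN)
  obtain ⟨g1, g2, g3⟩ := hX N hNX
  refine ⟨g1, g3, ?_⟩
  have e : (N : ℝ) ^ ((31 : ℝ) / 250) = (N : ℝ) ^ ((1 : ℝ) / 9) * (N : ℝ) ^ ((29 : ℝ) / 2250) := by
    rw [← Real.rpow_add (by linarith)]
    norm_num
  have h1 : (1 : ℝ) ≤ (N : ℝ) ^ ((1 : ℝ) / 9) := Real.one_le_rpow g3 (by norm_num)
  rw [e]
  nlinarith

private theorem div_ge {N G h : ℕ} (hN : (1 : ℝ) ≤ N)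
    (hb : (N : ℝ) ^ ((1 : ℝ) / 9) + 1 ≤ (N : ℝ) ^ ((31 : ℝ) / 250))
    (hG : (N : ℝ) ^ ((1 : ℝ) / 8) ≤ G) (h1 : 1 ≤ h) (h2 : h ≤ rtN N) :
    (N : ℝ) ^ ((1 : ℝ) / 9) ≤ ((G / h : ℕ) : ℝ) := by
  have h3 : G < h * (G / h + 1) := Nat.lt_mul_div_succ G (by omega)
  have h4 : (G : ℝ) ≤ (h : ℝ) * (((G / h : ℕ) : ℝ) + 1) := by exact_mod_cast h3.le
  have h5 : (h : ℝ) ≤ (N : ℝ) ^ ((1 : ℝ) / 1000) :=
    le_trans (by exact_mod_cast h2) (rtN_le N)
  have h6 : (N : ℝ) ^ ((1 : ℝ) / 8) ≤ (N : ℝ) ^ ((1 : ℝ) / 1000) * (((G / h : ℕ) : ℝ) + 1) :=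
    hG.trans (h4.trans (mul_le_mul_of_nonneg_right h5 (by positivity)))
  have e : (N : ℝ) ^ ((1 : ℝ) / 8) = (N : ℝ) ^ ((1 : ℝ) / 1000) * (N : ℝ) ^ ((31 : ℝ) / 250) := by
    rw [← Real.rpow_add (by linarith)]
    norm_num
  rw [e] at h6
  have h7 := le_of_mul_le_mul_left h6 (Real.rpow_pos_of_pos (by linarith) _)
  linarith

private theorem log_rtN {N : ℕ} (hN : (1 : ℝ) ≤ N) : Real.log (rtN N) ≤ Real.log N := by
  rcases Nat.eq_zero_or_pos (rtN N) with h | h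
  · rw [h]
    simpa using Real.log_nonneg hN
  · apply Real.log_le_log (by exact_mod_cast h)
    calc ((rtN N : ℕ) : ℝ) ≤ (N : ℝ) ^ ((1 : ℝ) / 1000) := rtN_le N
      _ ≤ (N : ℝ) ^ (1 : ℝ) := Real.rpow_le_rpow_of_exponent_le hN (by norm_num)
      _ = N := Real.rpow_one _

/-- `∑_{h ≤ R} ⌊G / h⌋ ≤ 2 K G` -/
private theorem sum_div {N : ℕ} (hN : (1 : ℝ) ≤ N) (hK : (18 : ℝ) ≤ Real.log N) (G : ℕ) :
    ∑ h ∈ Icc 1 (rtN N), ((G / h : ℕ) : ℝ) ≤ 2 * Real.log N * G := by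
  have h1 : ∑ h ∈ Icc 1 (rtN N), ((h : ℝ))⁻¹ ≤ 1 + Real.log (rtN N) := by
    have h2 := harmonic_le_one_add_log (rtN N)
    rw [harmonic_eq_sum_Icc] at h2
    push_cast at h2
    exact h2
  calc ∑ h ∈ Icc 1 (rtN N), ((G / h : ℕ) : ℝ) ≤ ∑ h ∈ Icc 1 (rtN N), (G : ℝ) * ((h : ℝ))⁻¹ := by
        refine sum_le_sum fun h _ => ?_
        rw [← div_eq_mul_inv]
        exact Nat.cast_div_le
    _ = (G : ℝ) * ∑ h ∈ Icc 1 (rtN N), ((h : ℝ))⁻¹ := by rw [mul_sum]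
    _ ≤ (G : ℝ) * (2 * Real.log N) := by
        refine mul_le_mul_of_nonneg_left ?_ (Nat.cast_nonneg _)
        have := log_rtN hN
        linarith
    _ = _ := by ring

/-- dyadic blocks -/
private theorem sum_dyadic {N : ℕ} (hN : (1 : ℝ) ≤ N) (hK : (18 : ℝ) ≤ Real.log N) (g : ℕ → ℝ) (hg : ∀ f, 0 ≤ g f)
    (B : ℝ) (hB0 : 0 ≤ B)
    (hB : ∀ D : ℕ, 1 ≤ D → (D : ℝ) ≤ (N : ℝ) ^ ((1 : ℝ) / 500) → ∑ f ∈ Ioc D (2 * D), g f ≤ B) :
    ∑ f ∈ Ioc 1 (rtN N), g f ≤ 3 * Real.log N * B := by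
  rw [← sum_fiberwise_of_maps_to (t := range (Nat.log 2 (rtN N) + 1)) (g := fun f => Nat.log 2 (f - 1))
    (fun f hf => mem_range.2 (Nat.lt_succ_of_le (Nat.log_mono_right
      ((Nat.sub_le _ _).trans (mem_Ioc.1 hf).2))))]
  rcases Nat.eq_zero_or_pos (rtN N) with hR | hR
  · rw [hR]
    simp
    positivity
  have hlog : (Nat.log 2 (rtN N) : ℝ) ≤ 2 * Real.log N := by
    have h1 : 2 ^ Nat.log 2 (rtN N) ≤ rtN N := Nat.pow_log_le_self 2 hR.ne'
    have h2 : Real.log ((2 : ℝ) ^ Nat.log 2 (rtN N)) ≤ Real.log (rtN N) :=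
      Real.log_le_log (by positivity) (by exact_mod_cast h1)
    rw [Real.log_pow] at h2
    have h3 := log_rtN hN
    have h4 : (0.6931471803 : ℝ) < Real.log 2 := Real.log_two_gt_d9
    have h5 : (0 : ℝ) ≤ (Nat.log 2 (rtN N) : ℝ) := Nat.cast_nonneg _
    nlinarith
  calc ∑ j ∈ range (Nat.log 2 (rtN N) + 1), ∑ f ∈ (Ioc 1 (rtN N)).filter (fun f => Nat.log 2 (f - 1) = j), g f
      ≤ ∑ _j ∈ range (Nat.log 2 (rtN N) + 1), B := by
        refine sum_le_sum fun j hj => ?_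
        have hj' : j ≤ Nat.log 2 (rtN N) := Nat.lt_succ_iff.1 (mem_range.1 hj)
        refine le_trans (sum_le_sum_of_subset_of_nonneg (t := Ioc (2 ^ j) (2 * 2 ^ j)) ?_ fun f _ _ => hg f)
          (hB (2 ^ j) Nat.one_le_two_pow ?_)
        · intro f hf
          obtain ⟨hf1, hf2⟩ := mem_filter.1 hf
          have hf3 := mem_Ioc.1 hf1
          have h1 : 2 ^ j ≤ f - 1 := by
            rw [← hf2]
            exact Nat.pow_log_le_self 2 (by omega)
          have h2 : f - 1 < 2 ^ (j + 1) := by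
            rw [← hf2]
            exact Nat.lt_pow_succ_log_self (by norm_num) _
          rw [pow_succ] at h2
          exact mem_Ioc.2 ⟨by omega, by omega⟩
        · have h1 : 2 ^ j ≤ rtN N :=
            (Nat.pow_le_pow_right (by norm_num) hj').trans (Nat.pow_log_le_self 2 hR.ne')
          calc ((2 ^ j : ℕ) : ℝ) ≤ ((rtN N : ℕ) : ℝ) := by exact_mod_cast h1
            _ ≤ (N : ℝ) ^ ((1 : ℝ) / 1000) := rtN_le N
            _ ≤ (N : ℝ) ^ ((1 : ℝ) / 500) := Real.rpow_le_rpow_of_exponent_le hN (by norm_num)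
    _ = ((Nat.log 2 (rtN N) : ℝ) + 1) * B := by
        rw [sum_const, card_range, nsmul_eq_mul]
        push_cast
        ring
    _ ≤ 3 * Real.log N * B := mul_le_mul_of_nonneg_right (by linarith) hB0

/-- few bad conductors -/
theorem bf_card (A : ℕ) : ∃ C N0 : ℕ, ∀ N : ℕ, N0 ≤ N → ((Bf N A).card : ℝ) ≤ Real.log N ^ C := by
  classical
  obtain ⟨C, N1, hlsl⟩ := Pool.Agent.Lib.TE.lsl
  obtain ⟨N2, hb⟩ := ev_base
  refine ⟨2 * A + C + 8, max N1 N2, fun N hN => ?_⟩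
  obtain ⟨hK, hN1, hpow⟩ := hb N ((le_max_right _ _).trans hN)
  have hl := hlsl N ((le_max_left _ _).trans hN)
  clear hlsl hb
  set K := Real.log N with hKd
  have hK0 : 0 < K := by linarith
  set R := rtN N with hR
  set S : ℕ → ℕ → ℝ := fun i f => ∑ h ∈ Icc 1 R, PS f (fun ψ => ‖LamC N (grd N A i / h) ψ‖) with hS
  set I : ℕ := ⌊2 * K ^ (A + 3)⌋₊ with hI
  set cond : ℕ → ℕ → Prop := fun i f => (N : ℝ) ^ ((1 : ℝ) / 8) ≤ grd N A i ∧ grd N A i ≤ N ∧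
    (grd N A i : ℝ) / K ^ (A + 2) < S i f with hcond
  have hsub : Bf N A ⊆ (range (I + 1)).biUnion fun i => (Ioc 1 R).filter (fun f => cond i f) := by
    intro f hf
    obtain ⟨hf1, i, hi, h1, h2, h3⟩ := mem_filter.1 hf
    refine mem_biUnion.2 ⟨i, mem_range.2 (Nat.lt_succ_of_le (Nat.le_floor hi)), ?_⟩
    exact mem_filter.2 ⟨hf1, h1, h2, h3⟩
  have hone : ∀ i, (((Ioc 1 R).filter (fun f => cond i f)).card : ℝ) ≤ 6 * K ^ (A + C + 4) := by
    intro i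
    by_cases hi : (N : ℝ) ^ ((1 : ℝ) / 8) ≤ grd N A i ∧ grd N A i ≤ N
    · obtain ⟨h1, h2⟩ := hi
      have hG : (0 : ℝ) < grd N A i := lt_of_lt_of_le (Real.rpow_pos_of_pos (by linarith) _) h1
      have hpos : ∀ f, 0 ≤ S i f := fun f => sum_nonneg fun h _ => PS_nonneg fun ψ => norm_nonneg _
      have t1 : ∑ f ∈ Ioc 1 R, S i f ≤ 6 * K ^ (C + 2) * grd N A i := by
        calc ∑ f ∈ Ioc 1 R, S i f
            = ∑ h ∈ Icc 1 R, ∑ f ∈ Ioc 1 R, PS f (fun ψ => ‖LamC N (grd N A i / h) ψ‖) := sum_comm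
          _ ≤ ∑ h ∈ Icc 1 R, 3 * K * (K ^ C * ((grd N A i / h : ℕ) : ℝ)) := by
              refine sum_le_sum fun h hh => ?_
              obtain ⟨hh1, hh2⟩ := mem_Icc.1 hh
              refine sum_dyadic hN1 hK _ (fun f => PS_nonneg fun ψ => norm_nonneg _) _ (by positivity) ?_
              intro D hD hDN
              exact hl (grd N A i / h) (div_ge hN1 hpow h1 hh1 hh2) ((Nat.div_le_self _ _).trans h2) D hD hDN
          _ = 3 * K * K ^ C * ∑ h ∈ Icc 1 R, ((grd N A i / h : ℕ) : ℝ) := by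
              rw [mul_sum]
              exact sum_congr rfl fun h _ => by ring
          _ ≤ 3 * K * K ^ C * (2 * K * grd N A i) :=
              mul_le_mul_of_nonneg_left (sum_div hN1 hK _) (by positivity)
          _ = 6 * K ^ (C + 2) * grd N A i := by ring
      have t2 : (((Ioc 1 R).filter (fun f => cond i f)).card : ℝ) * ((grd N A i : ℝ) / K ^ (A + 2)) ≤
          6 * K ^ (C + 2) * grd N A i := by
        calc (((Ioc 1 R).filter (fun f => cond i f)).card : ℝ) * ((grd N A i : ℝ) / K ^ (A + 2))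
            = ∑ _f ∈ (Ioc 1 R).filter (fun f => cond i f), (grd N A i : ℝ) / K ^ (A + 2) := by
              rw [sum_const, nsmul_eq_mul]
          _ ≤ ∑ f ∈ (Ioc 1 R).filter (fun f => cond i f), S i f :=
              sum_le_sum fun f hf => (mem_filter.1 hf).2.2.2.le
          _ ≤ ∑ f ∈ Ioc 1 R, S i f :=
              sum_le_sum_of_subset_of_nonneg (filter_subset _ _) fun f _ _ => hpos f
          _ ≤ _ := t1
      have hKA : (0 : ℝ) < K ^ (A + 2) := by positivity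
      rw [← mul_div_assoc, div_le_iff₀ hKA] at t2
      have t3 : (((Ioc 1 R).filter (fun f => cond i f)).card : ℝ) * grd N A i ≤
          (6 * K ^ (A + C + 4)) * grd N A i := by
        calc _ ≤ 6 * K ^ (C + 2) * grd N A i * K ^ (A + 2) := t2
          _ = _ := by ring
      exact le_of_mul_le_mul_right t3 hG
    · have : (Ioc 1 R).filter (fun f => cond i f) = ∅ := by
        refine filter_eq_empty_iff.2 fun f _ hf => hi ⟨hf.1, hf.2.1⟩
      rw [this]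
      simp only [card_empty, Nat.cast_zero]
      positivity
  have hfl : ((I : ℕ) : ℝ) ≤ 2 * K ^ (A + 3) := Nat.floor_le (by positivity)
  have hK3 : (1 : ℝ) ≤ K ^ (A + 3) := one_le_pow₀ (by linarith)
  calc ((Bf N A).card : ℝ) ≤ (((range (I + 1)).biUnion fun i => (Ioc 1 R).filter (fun f => cond i f)).card : ℝ) := by
        exact_mod_cast card_le_card hsub
    _ ≤ ∑ i ∈ range (I + 1), (((Ioc 1 R).filter (fun f => cond i f)).card : ℝ) := by
        exact_mod_cast card_biUnion_le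
    _ ≤ ∑ _i ∈ range (I + 1), 6 * K ^ (A + C + 4) := sum_le_sum fun i _ => hone i
    _ = ((I : ℝ) + 1) * (6 * K ^ (A + C + 4)) := by
        rw [sum_const, card_range, nsmul_eq_mul]
        push_cast
        ring
    _ ≤ (3 * K ^ (A + 3)) * (6 * K ^ (A + C + 4)) :=
        mul_le_mul_of_nonneg_right (by linarith) (by positivity)
    _ = 18 * K ^ (2 * A + C + 7) := by ring
    _ ≤ K * K ^ (2 * A + C + 7) := mul_le_mul_of_nonneg_right hK (by positivity)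
    _ = K ^ (2 * A + C + 8) := by ring

/-- bad conductors are larger than every power of `log N` -/
theorem bf_big (A B : ℕ) : ∃ N0 : ℕ, ∀ N : ℕ, N0 ≤ N → ∀ f ∈ Bf N A, Real.log N ^ B < f := by
  classical
  obtain ⟨N1, hswl⟩ := Pool.Agent.Lib.TE.swl (2 * A + B + 10) B
  obtain ⟨N2, hb⟩ := ev_base
  refine ⟨max N1 N2, fun N hN f hf => ?_⟩
  obtain ⟨hK, hN1, hpow⟩ := hb N ((le_max_right _ _).trans hN)
  have hs := hswl N ((le_max_left _ _).trans hN)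
  clear hswl hb
  obtain ⟨hf1, i, hi, h1, h2, h3⟩ := mem_filter.1 hf
  by_contra hcon
  have hfB : (f : ℝ) ≤ Real.log N ^ B := not_lt.1 hcon
  have hf2 := (mem_Ioc.1 hf1).1
  set K := Real.log N with hKd
  have hK0 : 0 < K := by linarith
  have hG : (0 : ℝ) < grd N A i := lt_of_lt_of_le (Real.rpow_pos_of_pos (by linarith) _) h1
  have t1 : ∑ h ∈ Icc 1 (rtN N), PS f (fun ψ => ‖LamC N (grd N A i / h) ψ‖) ≤
      ∑ h ∈ Icc 1 (rtN N), K ^ B * (((grd N A i / h : ℕ) : ℝ) / K ^ (2 * A + B + 10)) := by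
    refine sum_le_sum fun h hh => ?_
    obtain ⟨hh1, hh2⟩ := mem_Icc.1 hh
    have hc : (0 : ℝ) ≤ ((grd N A i / h : ℕ) : ℝ) / K ^ (2 * A + B + 10) := by positivity
    refine (PS_le_const (by omega) hc fun χ hχ => ?_).trans (mul_le_mul_of_nonneg_right ?_ hc)
    · have : NeZero f := ⟨by omega⟩
      refine hs (grd N A i / h) (div_ge hN1 hpow h1 hh1 hh2) ((Nat.div_le_self _ _).trans h2) f hf2 hfB χ ?_
      intro hone
      rw [DirichletCharacter.isPrimitive_def, hone, DirichletCharacter.conductor_one] at hχ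
      omega
    · exact le_trans (by exact_mod_cast Nat.totient_le f) hfB
  have t2 : ∑ h ∈ Icc 1 (rtN N), K ^ B * (((grd N A i / h : ℕ) : ℝ) / K ^ (2 * A + B + 10)) ≤
      K ^ B / K ^ (2 * A + B + 10) * (2 * K * grd N A i) := by
    calc _ = K ^ B / K ^ (2 * A + B + 10) * ∑ h ∈ Icc 1 (rtN N), ((grd N A i / h : ℕ) : ℝ) := by
          rw [mul_sum]
          exact sum_congr rfl fun h _ => by ring
      _ ≤ _ := mul_le_mul_of_nonneg_left (sum_div hN1 hK _) (by positivity)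
  have t3 : (grd N A i : ℝ) / K ^ (A + 2) < K ^ B / K ^ (2 * A + B + 10) * (2 * K * grd N A i) :=
    lt_of_lt_of_le h3 (t1.trans t2)
  rw [div_lt_iff₀ (by positivity)] at t3
  have e : K ^ B / K ^ (2 * A + B + 10) * (2 * K * grd N A i) * K ^ (A + 2) =
      2 * grd N A i / K ^ (A + 7) := by
    have e1 : K ^ (2 * A + B + 10) = K ^ B * K ^ (A + 3) * K ^ (A + 7) := by ring
    rw [e1]
    field_simp
    ring
  rw [e, lt_div_iff₀ (by positivity)] at t3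
  have h6 : (2 : ℝ) ≤ K ^ (A + 7) := by
    calc (2 : ℝ) ≤ K := by linarith
      _ = K ^ 1 := (pow_one K).symm
      _ ≤ K ^ (A + 7) := pow_le_pow_right₀ (by linarith) (by omega)
  nlinarith

end Pool.Agent.Lib.EX.AX
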