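import Pool.Agent.Lib.Sieve.Mertens
import Pool.Agent.Lib.MP_61161c_nt.EX.PBf

/-!
# EX, module PW: sums of `∏ c / p` over sets of primes
-/

set_option autoImplicit false

open Finset

namespace Pool.Agent.Lib.EX.AX

private theorem sum_over_supersets (P S : Finset ℕ) (hS : S ⊆ P) (g : ℕ → ℝ) :
    ∑ d ∈ P.powerset.filter (fun d => S ⊆ d), ∏ p ∈ d, g p = (∏ p ∈ S, g p) * ∏ p ∈ P \ S, (1 + g p) := by
  classical
  rw [prod_one_add, mul_sum]
  refine sum_nbij' (fun d => d \ S) (fun e => e ∪ S) ?_ ?_ ?_ ?_ ?_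
  · intro d hd
    obtain ⟨h1, _⟩ := mem_filter.1 hd
    exact mem_powerset.2 (sdiff_subset_sdiff (mem_powerset.1 h1) subset_rfl)
  · intro e he
    have h1 := mem_powerset.1 he
    exact mem_filter.2 ⟨mem_powerset.2 (union_subset (h1.trans sdiff_subset) hS), subset_union_right⟩
  · intro d hd
    exact sdiff_union_of_subset (mem_filter.1 hd).2
  · intro e he
    have h1 := mem_powerset.1 he
    have h2 : Disjoint e S := disjoint_of_subset_left h1 sdiff_disjoint
    exact union_sdiff_cancel_right h2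
  · intro d hd
    rw [mul_comm, prod_sdiff (mem_filter.1 hd).2]

/-- MODULE PW. Euler product. -/
theorem w_sum (c : ℕ) : ∃ C N0 : ℕ, ∀ N : ℕ, N0 ≤ N → ∀ P : Finset ℕ, (∀ p ∈ P, p.Prime ∧ p ≤ N) → ∀ S : Finset ℕ, S ⊆ P →
    ∑ d ∈ P.powerset.filter (fun d => S ⊆ d), ∏ p ∈ d, ((c : ℝ) / p) ≤ Real.log N ^ C * ∏ p ∈ S, ((c : ℝ) / p) := by
  classical
  obtain ⟨C0, hC0, hM⟩ := Pool.Agent.Lib.Sieve.mertens_product_upper
  have a1 : ∀ᶠ x : ℝ in Filter.atTop, max 1 C0 ≤ Real.log x := Real.tendsto_log_atTop.eventually_ge_atTop _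
  have a3 := Filter.eventually_ge_atTop (2 : ℝ)
  obtain ⟨X, hX⟩ := Filter.eventually_atTop.mp (a1.and a3)
  refine ⟨2 * c, ⌈X⌉₊, fun N hN P hP S hS => ?_⟩
  have hNX : X ≤ N := (Nat.le_ceil X).trans (by exact_mod_cast hN)
  obtain ⟨g1, g3⟩ := hX N hNX
  have hK1 : 1 ≤ Real.log N := (le_max_left _ _).trans g1
  have hKC : C0 ≤ Real.log N := (le_max_right _ _).trans g1
  have hN2 : 2 ≤ N := by exact_mod_cast g3
  rw [sum_over_supersets P S hS, mul_comm]
  refine mul_le_mul_of_nonneg_right ?_ (prod_nonneg fun p _ => by positivity)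
  have hfac : ∀ p : ℕ, p.Prime → (1 : ℝ) ≤ (1 - 1 / (p : ℝ))⁻¹ := by
    intro p hp
    have hp2 : (2 : ℝ) ≤ p := by exact_mod_cast hp.two_le
    have h1 : (1 : ℝ) / p ≤ 1 / 2 := one_div_le_one_div_of_le (by norm_num) hp2
    have h2 : (0 : ℝ) < 1 / p := by positivity
    rw [one_le_inv₀ (by linarith)]
    linarith
  calc ∏ p ∈ P \ S, (1 + (c : ℝ) / p) ≤ ∏ p ∈ P \ S, ((1 - 1 / (p : ℝ))⁻¹) ^ c := by
        refine prod_le_prod (fun p _ => by positivity) fun p hp => ?_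
        have hpp := (hP p (sdiff_subset hp)).1
        have hp2 : (2 : ℝ) ≤ p := by exact_mod_cast hpp.two_le
        have h1 : (1 : ℝ) / p ≤ 1 / 2 := one_div_le_one_div_of_le (by norm_num) hp2
        have h2 : (0 : ℝ) < 1 / p := by positivity
        have h3 : 1 + (c : ℝ) * (1 / p) ≤ (1 + 1 / p) ^ c := one_add_mul_le_pow (by linarith) c
        have h4 : 1 + 1 / (p : ℝ) ≤ (1 - 1 / (p : ℝ))⁻¹ := by
          rw [le_inv_comm₀ (by linarith) (by linarith), ← one_div, le_div_iff₀ (by linarith)]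
          nlinarith
        calc 1 + (c : ℝ) / p = 1 + (c : ℝ) * (1 / p) := by ring
          _ ≤ (1 + 1 / p) ^ c := h3
          _ ≤ _ := pow_le_pow_left₀ (by linarith) h4 c
    _ = (∏ p ∈ P \ S, (1 - 1 / (p : ℝ))⁻¹) ^ c := prod_pow _ _ _
    _ ≤ (∏ p ∈ (Icc 1 N).filter Nat.Prime, (1 - 1 / (p : ℝ))⁻¹) ^ c := by
        refine pow_le_pow_left₀ (prod_nonneg fun p hp => ?_) ?_ c
        · exact zero_le_one.trans (hfac p (hP p (sdiff_subset hp)).1)
        · have hsub : P \ S ⊆ (Icc 1 N).filter Nat.Prime := by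
            intro p hp
            obtain ⟨h1, h2⟩ := hP p (sdiff_subset hp)
            exact mem_filter.2 ⟨mem_Icc.2 ⟨h1.one_lt.le, h2⟩, h1⟩
          rw [← prod_sdiff hsub]
          refine le_mul_of_one_le_left (prod_nonneg fun p hp => ?_) ?_
          · exact zero_le_one.trans (hfac p (hP p (sdiff_subset hp)).1)
          · refine one_le_prod fun p hp => hfac p (mem_filter.1 (sdiff_subset hp)).2
    _ ≤ (C0 * Real.log N) ^ c := by
        refine pow_le_pow_left₀ (prod_nonneg fun p hp => ?_) (hM N hN2) c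
        exact zero_le_one.trans (hfac p (mem_filter.1 hp).2)
    _ ≤ (Real.log N * Real.log N) ^ c :=
        pow_le_pow_left₀ (by positivity) (mul_le_mul_of_nonneg_right hKC (by linarith)) c
    _ = Real.log N ^ (2 * c) := by rw [← sq, ← pow_mul]

private theorem sum_bu {ι κ : Type*} [DecidableEq ι] [DecidableEq κ] (s : Finset ι) (t : ι → Finset κ) (g : κ → ℝ)
    (hg : ∀ x, 0 ≤ g x) : ∑ x ∈ s.biUnion t, g x ≤ ∑ i ∈ s, ∑ x ∈ t i, g x := by
  induction s using Finset.induction_on with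
  | empty => simp
  | insert a s ha ih =>
    rw [biUnion_insert, sum_insert ha]
    have h1 := sum_union_inter (s₁ := t a) (s₂ := s.biUnion t) (f := g)
    have h2 : 0 ≤ ∑ x ∈ t a ∩ s.biUnion t, g x := sum_nonneg fun x _ => hg x
    linarith

private theorem sq_prod {d : Finset ℕ} (hd : ∀ p ∈ d, p.Prime) : Squarefree (∏ p ∈ d, p) := by
  refine Finset.squarefree_prod_of_pairwise_isCoprime (fun p hp q hq hpq => ?_) fun p hp => (hd p hp).squarefree
  simp only [Function.onFun, ← Nat.coprime_iff_isRelPrime]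
  exact (Nat.coprime_primes (hd p hp) (hd q hq)).mpr hpq

/-- `c^ω(f) ≤ C f^(1/2)` -/
private theorem pow_omega (c : ℕ) : ∃ C : ℝ, 1 ≤ C ∧ ∀ f : ℕ, 1 ≤ f →
    (c : ℝ) ^ f.primeFactors.card ≤ C * (f : ℝ) ^ ((1 : ℝ) / 2) := by
  obtain ⟨C, hC, h⟩ := Pool.Agent.Lib.RG.divisor_bound (1 / (2 * ((c : ℝ) + 1))) (by positivity)
  refine ⟨C ^ c, one_le_pow₀ hC, fun f hf => ?_⟩
  have hf1 : (1 : ℝ) ≤ f := by exact_mod_cast hf
  have h1 : 2 ^ f.primeFactors.card ≤ f.divisors.card := by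
    rw [Nat.card_divisors (by omega), ← Finset.prod_const]
    apply Finset.prod_le_prod'
    intro p hp
    have : 1 ≤ f.factorization p :=
      (Nat.prime_of_mem_primeFactors hp).factorization_pos_of_dvd (by omega)
        (Nat.dvd_of_mem_primeFactors hp)
    omega
  have h2 : (c : ℝ) ≤ 2 ^ c := by exact_mod_cast (Nat.lt_two_pow_self).le
  calc (c : ℝ) ^ f.primeFactors.card ≤ ((2 : ℝ) ^ c) ^ f.primeFactors.card :=
        pow_le_pow_left₀ (Nat.cast_nonneg _) h2 _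
    _ = ((2 : ℝ) ^ f.primeFactors.card) ^ c := by rw [← pow_mul, mul_comm, pow_mul]
    _ ≤ (f.divisors.card : ℝ) ^ c := pow_le_pow_left₀ (by positivity) (by exact_mod_cast h1) c
    _ ≤ (C * (f : ℝ) ^ (1 / (2 * ((c : ℝ) + 1)))) ^ c := pow_le_pow_left₀ (Nat.cast_nonneg _) (h f hf) c
    _ = C ^ c * (f : ℝ) ^ ((1 / (2 * ((c : ℝ) + 1))) * c) := by
        rw [mul_pow, ← Real.rpow_natCast ((f : ℝ) ^ _) c, ← Real.rpow_mul (by linarith)]
    _ ≤ C ^ c * (f : ℝ) ^ ((1 : ℝ) / 2) := by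
        refine mul_le_mul_of_nonneg_left (Real.rpow_le_rpow_of_exponent_le hf1 ?_) (by positivity)
        rw [div_mul_eq_mul_div, one_mul, div_le_div_iff₀ (by positivity) (by norm_num)]
        linarith

/-- MODULE PW. From `w_sum`, `bf_card`, `bf_big` and the divisor bound. -/
theorem w_bad (c A E : ℕ) : ∃ N0 : ℕ, ∀ N : ℕ, N0 ≤ N → ∀ P : Finset ℕ, (∀ p ∈ P, p.Prime ∧ p ≤ N) →
    ∑ d ∈ P.powerset.filter (fun d => ∃ f ∈ Bf N A, f ∣ ∏ p ∈ d, p), ∏ p ∈ d, ((c : ℝ) / p) ≤ 1 / Real.log N ^ E := by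
  classical
  obtain ⟨C, N1, hw⟩ := w_sum c
  obtain ⟨C', N2, hcard⟩ := bf_card A
  obtain ⟨C1, hC1, hom⟩ := pow_omega c
  obtain ⟨N3, hbig⟩ := bf_big A (2 * (C + C' + 1 + E))
  have a1 : ∀ᶠ x : ℝ in Filter.atTop, max 1 C1 ≤ Real.log x := Real.tendsto_log_atTop.eventually_ge_atTop _
  obtain ⟨X, hX⟩ := Filter.eventually_atTop.mp a1
  refine ⟨max (max N1 N2) (max N3 ⌈X⌉₊), fun N hN P hP => ?_⟩
  simp only [max_le_iff] at hN
  obtain ⟨⟨hN1, hN2⟩, hN3, hN4⟩ := hN
  have hNX : X ≤ N := (Nat.le_ceil X).trans (by exact_mod_cast hN4)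
  have g1 := hX N hNX
  have hK1 : 1 ≤ Real.log N := (le_max_left _ _).trans g1
  have hKC : C1 ≤ Real.log N := (le_max_right _ _).trans g1
  have hw' := hw N hN1 P hP
  have hcard' := hcard N hN2
  have hbig' := hbig N hN3
  clear hw hcard hbig hX a1
  set K := Real.log N with hKd
  have hK0 : 0 < K := by linarith
  have hone : ∀ f ∈ Bf N A, ∑ d ∈ P.powerset.filter (fun d => f ∣ ∏ p ∈ d, p), ∏ p ∈ d, ((c : ℝ) / p) ≤
      K ^ C * (C1 / K ^ (C + C' + 1 + E)) := by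
    intro f hf
    have hfb := hbig' f hf
    have hf0 : (0 : ℝ) < f := lt_trans (by positivity) hfb
    have hf1 : 1 ≤ f := by exact_mod_cast hf0
    rcases (P.powerset.filter (fun d => f ∣ ∏ p ∈ d, p)).eq_empty_or_nonempty with h | ⟨d0, hd0⟩
    · rw [h, sum_empty]
      positivity
    obtain ⟨hd0P, hd0f⟩ := mem_filter.1 hd0
    have hd0P' := mem_powerset.1 hd0P
    have hpf : ∀ d ⊆ P, f ∣ ∏ p ∈ d, p → f.primeFactors ⊆ d := by
      intro d hd hfd q hq
      have hq1 := Nat.prime_of_mem_primeFactors hq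
      have hq2 : q ∣ ∏ p ∈ d, p := (Nat.dvd_of_mem_primeFactors hq).trans hfd
      obtain ⟨p, hp, hqp⟩ := (Prime.dvd_finsetProd_iff hq1.prime _).1 hq2
      have : q = p := (Nat.prime_dvd_prime_iff_eq hq1 (hP p (hd hp)).1).1 hqp
      exact this ▸ hp
    have hsf : Squarefree f := (sq_prod fun p hp => (hP p (hd0P' hp)).1).squarefree_of_dvd hd0f
    have hSP : f.primeFactors ⊆ P := (hpf d0 hd0P' hd0f).trans hd0P'
    have hprod : ∏ p ∈ f.primeFactors, ((c : ℝ) / p) = (c : ℝ) ^ f.primeFactors.card / f := by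
      rw [prod_div_distrib, prod_const]
      congr 1
      rw [← Nat.cast_prod, Nat.prod_primeFactors_of_squarefree hsf]
    calc ∑ d ∈ P.powerset.filter (fun d => f ∣ ∏ p ∈ d, p), ∏ p ∈ d, ((c : ℝ) / p)
        ≤ ∑ d ∈ P.powerset.filter (fun d => f.primeFactors ⊆ d), ∏ p ∈ d, ((c : ℝ) / p) := by
          refine sum_le_sum_of_subset_of_nonneg ?_ fun d _ _ => prod_nonneg fun p _ => by positivity
          intro d hd
          obtain ⟨h1, h2⟩ := mem_filter.1 hd
          exact mem_filter.2 ⟨h1, hpf d (mem_powerset.1 h1) h2⟩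
      _ ≤ K ^ C * ∏ p ∈ f.primeFactors, ((c : ℝ) / p) := hw' _ hSP
      _ ≤ K ^ C * (C1 / K ^ (C + C' + 1 + E)) := by
          refine mul_le_mul_of_nonneg_left ?_ (by positivity)
          rw [hprod, div_le_div_iff₀ hf0 (by positivity)]
          have h1 := hom f hf1
          have h2 : K ^ (C + C' + 1 + E) ≤ (f : ℝ) ^ ((1 : ℝ) / 2) := by
            rw [← Real.sqrt_eq_rpow]
            apply Real.le_sqrt_of_sq_le
            rw [← pow_mul, mul_comm]
            exact hfb.le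
          have h3 : (f : ℝ) ^ ((1 : ℝ) / 2) * (f : ℝ) ^ ((1 : ℝ) / 2) = f := by
            rw [← Real.rpow_add hf0]
            norm_num
          calc (c : ℝ) ^ f.primeFactors.card * K ^ (C + C' + 1 + E)
              ≤ (C1 * (f : ℝ) ^ ((1 : ℝ) / 2)) * (f : ℝ) ^ ((1 : ℝ) / 2) :=
                mul_le_mul h1 h2 (by positivity) (by positivity)
            _ = C1 * f := by rw [mul_assoc, h3]
  calc ∑ d ∈ P.powerset.filter (fun d => ∃ f ∈ Bf N A, f ∣ ∏ p ∈ d, p), ∏ p ∈ d, ((c : ℝ) / p)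
      ≤ ∑ f ∈ Bf N A, ∑ d ∈ P.powerset.filter (fun d => f ∣ ∏ p ∈ d, p), ∏ p ∈ d, ((c : ℝ) / p) := by
        have hsub : P.powerset.filter (fun d => ∃ f ∈ Bf N A, f ∣ ∏ p ∈ d, p) ⊆
            (Bf N A).biUnion fun f => P.powerset.filter (fun d => f ∣ ∏ p ∈ d, p) := by
          intro d hd
          obtain ⟨h1, f, hf, h2⟩ := mem_filter.1 hd
          exact mem_biUnion.2 ⟨f, hf, mem_filter.2 ⟨h1, h2⟩⟩
        refine (sum_le_sum_of_subset_of_nonneg hsub fun d _ _ => prod_nonneg fun p _ => by positivity).trans ?_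
        exact sum_bu _ _ _ fun d => prod_nonneg fun p _ => by positivity
    _ ≤ ∑ _f ∈ Bf N A, K ^ C * (C1 / K ^ (C + C' + 1 + E)) := sum_le_sum hone
    _ = ((Bf N A).card : ℝ) * (K ^ C * (C1 / K ^ (C + C' + 1 + E))) := by rw [sum_const, nsmul_eq_mul]
    _ ≤ K ^ C' * (K ^ C * (K / K ^ (C + C' + 1 + E))) := by
        refine mul_le_mul hcard' ?_ (by positivity) (by positivity)
        refine mul_le_mul_of_nonneg_left ?_ (by positivity)
        exact div_le_div_of_nonneg_right hKC (by positivity)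
    _ = 1 / K ^ E := by
        have e1 : K ^ (C + C' + 1 + E) = K ^ C' * K ^ C * K * K ^ E := by ring
        rw [e1]
        field_simp

end Pool.Agent.Lib.EX.AX
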