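import Pool.Agent.Lib.MP_61161c_nt.EX.PFrm
import Pool.Agent.Lib.MP_61161c_nt.EX.PCls
import Pool.Agent.Lib.MP_61161c_nt.EX.PW
import Pool.Agent.Lib.MP_7b7e48_nt.OW.LFC

/-!
# EX, module PMarg: the marginal sums with sieve weights
-/

set_option autoImplicit false

open Finset
open Pool.Agent.Lib.MP_45349e_nt.LS (lam)
open Pool.Agent.Lib.BV (PS)
open Pool.Agent.Lib.TE (FN LamC)

namespace Pool.Agent.Lib.EX.AX

theorem le_card_mul_totient (m : ℕ) : m ≤ m.divisors.card * m.totient := by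
  rcases Nat.eq_zero_or_pos m with h | h
  · subst h; simp
  · calc m = ∑ d ∈ m.divisors, d.totient := (Nat.sum_totient m).symm
      _ ≤ ∑ _d ∈ m.divisors, m.totient := sum_le_sum fun d hd =>
          Nat.le_of_dvd (Nat.totient_pos.mpr h) (Nat.totient_dvd_of_dvd (Nat.dvd_of_mem_divisors hd))
      _ = m.divisors.card * m.totient := by rw [sum_const, smul_eq_mul]

theorem card_div_prod (d : Finset ℕ) (hd : ∀ p ∈ d, p.Prime) : (∏ p ∈ d, p).divisors.card = 2 ^ d.card := by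
  classical
  induction d using Finset.induction_on with
  | empty => simp
  | insert p s hp ih =>
    rw [prod_insert hp, card_insert_of_notMem hp, pow_succ, ← ih fun q hq => hd q (mem_insert_of_mem hq)]
    have h1 := hd p (mem_insert_self _ _)
    have hco : p.Coprime (∏ q ∈ s, q) := by
      refine Nat.Coprime.prod_right fun q hq => ?_
      refine (Nat.coprime_primes h1 (hd q (mem_insert_of_mem hq))).mpr fun h => hp (h ▸ hq)
    rw [Nat.Coprime.card_divisors_mul hco, h1.divisors, card_pair h1.one_lt.ne]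
    ring

theorem abs_lz (x : ℤ) : |lz x| = 1 := by
  unfold lz
  exact Pool.Agent.Lib.MP_45349e_nt.LS.abs_lam _

/-- the trivial bound -/
theorem triv_cls (F : ℕ → ℝ) (hF : ∀ n, |F n| ≤ 1) (A0 L D c : ℕ) (hD : 1 ≤ D) :
    |∑ n ∈ (Ico A0 (A0 + L)).filter (fun n => n ≡ c [MOD D]), F n| ≤ (L : ℝ) / D + 1 := by
  have h3 := Pool.Agent.Lib.GT.abs_card_class D (by omega) (c % D) (Nat.mod_lt _ (by omega)) A0 L
  have h4 : ((Ico A0 (A0 + L)).filter fun n => n ≡ c [MOD D]) = (Ico A0 (A0 + L)).filter fun n => n % D = c % D := rfl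
  refine (abs_sum_le_sum_abs _ _).trans ?_
  refine (sum_le_card_nsmul _ _ 1 fun n _ => hF n).trans ?_
  rw [nsmul_eq_mul, mul_one, h4]
  have := (abs_le.mp h3).2
  linarith

theorem marg (κ E : ℕ) : ∃ A N0 : ℕ, ∀ N : ℕ, N0 ≤ N → N.Prime → ∀ D : ℕ, ∀ P : Finset ℕ, (∀ p ∈ P, p.Prime ∧ p ≤ N) →
    ∀ Z : ℕ → Finset ℕ, (∀ p ∈ P, (Z p).card ≤ κ ∧ ∀ x ∈ Z p, x < p) → ∀ wt : Finset ℕ → ℝ, (∀ d, |wt d| ≤ 1) →
    (∀ d ⊆ P, wt d ≠ 0 → ∏ r ∈ d, r ≤ D) → ∀ (x : Frm) (A0 L : ℕ), x.a ≠ 0 → (∀ p ∈ P, ¬ (p : ℤ) ∣ x.a) →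
    (∀ f ∈ Bf N A, x.a.natAbs.Coprime f) → (x.a.natAbs.divisors.card : ℝ) ≤ Real.log N →
    ((x.a.natAbs * D : ℕ) : ℝ) ≤ (N : ℝ) ^ ((1 : ℝ) / 1000) →
    (∀ n : ℕ, A0 ≤ n → n < A0 + L → 0 < x.ev n ∧ x.ev n < N) →
    |∑ n ∈ Ico A0 (A0 + L), (∑ d ∈ (P.filter fun p => n % p ∈ Z p).powerset, wt d) * lz (x.ev n)| ≤
      N / (x.a.natAbs * Real.log N ^ E) := by
  classical
  obtain ⟨C1, N1, hws⟩ := w_sum (4 * κ)
  set A := C1 + E + 3 with hA
  obtain ⟨N2, hwb⟩ := w_bad κ A (E + 1)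
  obtain ⟨N3, hfrm⟩ := lap_frm A
  obtain ⟨N4, hN4⟩ := Filter.eventually_atTop.mp ((Real.tendsto_log_atTop.comp tendsto_natCast_atTop_atTop).eventually_ge_atTop (10 : ℝ))
  refine ⟨A, max (max N1 N2) (max N3 N4), fun N hN hNp D P hP Z hZ wt hwt1 hwt2 x A0 L hx0 hxP hxB hxτ hxD hxev => ?_⟩
  have hws := hws N (by omega) P hP ∅ (empty_subset _)
  have hwb := hwb N (by omega) P hP
  have hfrm := hfrm N (by omega) hNp x
  have hK : (10 : ℝ) ≤ Real.log N := hN4 N (by omega)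
  clear hN4
  obtain ⟨K, hKd⟩ : ∃ K : ℝ, K = Real.log N := ⟨_, rfl⟩
  rw [← hKd] at hws hwb hfrm hK hxτ ⊢
  have hK0 : 0 < K := by linarith
  have hN1 : 1 ≤ N := hNp.one_lt.le
  have hNR : (1 : ℝ) ≤ N := by exact_mod_cast hN1
  obtain ⟨α, hα⟩ : ∃ α : ℕ, α = x.a.natAbs := ⟨_, rfl⟩
  rw [← hα] at hxB hxτ hxD ⊢
  have hα1 : 1 ≤ α := by rw [hα]; exact Int.natAbs_pos.mpr hx0
  have hαR : (1 : ℝ) ≤ α := by exact_mod_cast hα1
  have hrtN : (N : ℝ) ^ ((1 : ℝ) / 1000) ≤ N := by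
    calc (N : ℝ) ^ ((1 : ℝ) / 1000) ≤ (N : ℝ) ^ (1 : ℝ) := Real.rpow_le_rpow_of_exponent_le hNR (by norm_num)
      _ = N := Real.rpow_one _
  set I := Ico A0 (A0 + L) with hI
  set F : ℕ → ℝ := fun n => lz (x.ev n) with hF
  have hF1 : ∀ n, |F n| ≤ 1 := fun n => (abs_lz _).le
  -- swap
  have hswap : ∑ n ∈ I, (∑ d ∈ (P.filter fun p => n % p ∈ Z p).powerset, wt d) * F n =
      ∑ d ∈ P.powerset, wt d * ∑ n ∈ I.filter (fun n => ∀ p ∈ d, n % p ∈ Z p), F n := by
    have h1 : ∀ d ∈ P.powerset, wt d * ∑ n ∈ I.filter (fun n => ∀ p ∈ d, n % p ∈ Z p), F n =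
        ∑ n ∈ I, if (∀ p ∈ d, n % p ∈ Z p) then wt d * F n else 0 := by
      intro d _
      rw [mul_sum, ← sum_filter]
    rw [sum_congr rfl h1, sum_comm]
    refine sum_congr rfl fun n _ => ?_
    rw [← sum_filter, sum_mul]
    refine sum_congr ?_ fun _ _ => rfl
    ext d
    rw [mem_filter, mem_powerset, mem_powerset]
    constructor
    · intro h3
      exact ⟨h3.trans (filter_subset _ _), fun p hp => (mem_filter.mp (h3 hp)).2⟩
    · rintro ⟨h3, h4⟩ p hp
      exact mem_filter.mpr ⟨h3 hp, h4 p hp⟩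
  -- length
  have hL : (L : ℝ) ≤ N / α + 1 := by
    rcases Nat.eq_zero_or_pos L with h0 | h0
    · rw [h0]; push_cast; positivity
    · have h1 := hxev A0 le_rfl (by omega)
      have h2 := hxev (A0 + (L - 1)) (by omega) (by omega)
      have h3 : x.ev ((A0 + (L - 1) : ℕ) : ℤ) - x.ev (A0 : ℤ) = x.a * ((L - 1 : ℕ) : ℤ) := by
        unfold Frm.ev
        push_cast
        ring
      have h4 : |x.a * ((L - 1 : ℕ) : ℤ)| ≤ (N : ℤ) := by
        rw [← h3, abs_le]
        constructor <;> linarith [h1.1, h1.2, h2.1, h2.2]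
      rw [abs_mul, Nat.abs_cast] at h4
      have h5 : (α : ℤ) * ((L - 1 : ℕ) : ℤ) ≤ N := by
        rw [hα, Int.natCast_natAbs]
        exact h4
      have h6 : (α : ℝ) * ((L - 1 : ℕ) : ℝ) ≤ N := by exact_mod_cast h5
      rw [Nat.cast_sub (by omega : 1 ≤ L)] at h6
      push_cast at h6
      have h7 : (L : ℝ) - 1 ≤ N / α := by
        rw [le_div_iff₀ (by linarith)]
        linarith
      linarith
  -- the bound of one term
  have hterm : ∀ d ∈ P.powerset, |wt d * ∑ n ∈ I.filter (fun n => ∀ p ∈ d, n % p ∈ Z p), F n| ≤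
      4 * (N / α) * K ^ 2 / K ^ A * ∏ p ∈ d, (((4 * κ : ℕ) : ℝ) / p) +
        if (∃ f ∈ Bf N A, f ∣ ∏ p ∈ d, p) then 6 * (N / α) * ∏ p ∈ d, ((κ : ℝ) / p) else 0 := by
    intro d hd
    have hd' := mem_powerset.mp hd
    have hdp : ∀ p ∈ d, p.Prime := fun p hp => (hP p (hd' hp)).1
    have hpos1 : 0 ≤ 4 * (N / α) * K ^ 2 / K ^ A * ∏ p ∈ d, (((4 * κ : ℕ) : ℝ) / p) := by positivity
    have hpos2 : 0 ≤ 6 * (N / (α : ℝ)) * ∏ p ∈ d, ((κ : ℝ) / p) := by positivity
    by_cases hw0 : wt d = 0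
    · rw [hw0, zero_mul, abs_zero]
      split_ifs <;> linarith
    have hDd := hwt2 d hd' hw0
    obtain ⟨m, hm⟩ : ∃ m : ℕ, m = ∏ p ∈ d, p := ⟨_, rfl⟩
    rw [← hm] at hDd
    have hm1 : 1 ≤ m := by
      rw [hm]
      exact Nat.one_le_iff_ne_zero.mpr (prod_ne_zero_iff.mpr fun p hp => (hdp p hp).ne_zero)
    have hmR : (1 : ℝ) ≤ m := by exact_mod_cast hm1
    have hαm : ((α * m : ℕ) : ℝ) ≤ (N : ℝ) ^ ((1 : ℝ) / 1000) := by
      refine le_trans ?_ hxD
      exact_mod_cast Nat.mul_le_mul_left α hDd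
    have hZκ : ∏ p ∈ d, ((Z p).card : ℝ) ≤ (κ : ℝ) ^ d.card := by
      rw [← prod_const]
      exact prod_le_prod (fun _ _ => by positivity) fun p hp => by exact_mod_cast (hZ p (hd' hp)).1
    have hprod : ∀ c : ℝ, ∏ p ∈ d, (c / (p : ℝ)) = c ^ d.card / m := by
      intro c
      rw [prod_div_distrib, prod_const, hm]
      push_cast
      rfl
    have habs : |wt d * ∑ n ∈ I.filter (fun n => ∀ p ∈ d, n % p ∈ Z p), F n| ≤ |∑ n ∈ I.filter (fun n => ∀ p ∈ d, n % p ∈ Z p), F n| := by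
      rw [abs_mul]
      calc |wt d| * |∑ n ∈ I.filter (fun n => ∀ p ∈ d, n % p ∈ Z p), F n| ≤ 1 * |∑ n ∈ I.filter (fun n => ∀ p ∈ d, n % p ∈ Z p), F n| :=
            mul_le_mul_of_nonneg_right (hwt1 d) (abs_nonneg _)
        _ = _ := one_mul _
    refine habs.trans ?_
    have hcls := cls_sum d hdp Z (fun p hp => (hZ p (hd' hp)).2) F I
    rw [← hm] at hcls ⊢
    by_cases hbad : ∃ f ∈ Bf N A, f ∣ m
    · rw [if_pos hbad]
      have h1 : ∀ c : ℕ, |∑ n ∈ I.filter (fun n => n ≡ c [MOD m]), F n| ≤ 3 * (N / α) / m := by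
        intro c
        refine (triv_cls F hF1 A0 L m c hm1).trans ?_
        rw [le_div_iff₀ (by linarith)]
        have h2 : (m : ℝ) ≤ N / α := by
          rw [le_div_iff₀ (by linarith)]
          have := hαm.trans hrtN
          push_cast at this
          linarith
        have h3 : ((L : ℝ) / m + 1) * m = L + m := by field_simp
        have h4 : (1 : ℝ) ≤ N / α := hmR.trans h2
        rw [h3]
        linarith
      have h2 := hcls (3 * (N / α) / m) (by positivity) h1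
      have h3 : 2 * (∏ p ∈ d, ((Z p).card : ℝ)) * (3 * (N / α) / m) ≤ 6 * (N / α) * ∏ p ∈ d, ((κ : ℝ) / p) := by
        rw [hprod]
        calc 2 * (∏ p ∈ d, ((Z p).card : ℝ)) * (3 * (N / α) / m) ≤ 2 * (κ : ℝ) ^ d.card * (3 * (N / α) / m) :=
              mul_le_mul_of_nonneg_right (mul_le_mul_of_nonneg_left hZκ (by norm_num)) (by positivity)
          _ = 6 * (N / α) * ((κ : ℝ) ^ d.card / m) := by ring
      linarith
    · rw [if_neg hbad, add_zero]
      have hco : α.Coprime m := by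
        rw [hm]
        refine Nat.Coprime.prod_right fun p hp => ?_
        refine ((hdp p hp).coprime_iff_not_dvd.mpr fun h => hxP p (hd' hp) ?_).symm
        rw [hα] at h
        exact Int.natCast_dvd.mpr h
      have hnb : ∀ f ∈ Bf N A, ¬ f ∣ α * m := by
        intro f hf hfm
        exact hbad ⟨f, hf, ((hxB f hf).symm.dvd_of_dvd_mul_left hfm)⟩
      have hτm : (α * m).divisors.card = α.divisors.card * 2 ^ d.card := by
        rw [Nat.Coprime.card_divisors_mul hco, hm, card_div_prod d hdp]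
      have h1 : ∀ c : ℕ, |∑ n ∈ I.filter (fun n => n ≡ c [MOD m]), F n| ≤ 2 * (N / α) * K ^ 2 / K ^ A * (4 ^ d.card / m) := by
        intro c
        have h2 := hfrm m c A0 L hx0 hm1 (by rw [← hα]; exact hαm) (by rw [← hα]; exact hnb) hxev
        rw [← hα] at h2
        refine h2.trans ?_
        have hφ : 0 < ((α * m).totient : ℝ) := by exact_mod_cast Nat.totient_pos.mpr (Nat.mul_pos (by omega) (by omega))
        have hle : ((α * m : ℕ) : ℝ) ≤ (α * m).divisors.card * (α * m).totient := by exact_mod_cast le_card_mul_totient (α * m)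
        have hτ : ((α * m).divisors.card : ℝ) ≤ K * 2 ^ d.card := by
          rw [hτm]
          push_cast
          exact mul_le_mul_of_nonneg_right hxτ (by positivity)
        have h3 : ((α * m).divisors.card : ℝ) / (α * m).totient ≤ K ^ 2 * 4 ^ d.card / (α * m) := by
          rw [div_le_div_iff₀ hφ (by positivity)]
          push_cast at hle
          have h4 : (0 : ℝ) ≤ (α * m).divisors.card := Nat.cast_nonneg _
          calc ((α * m).divisors.card : ℝ) * (α * m) ≤ (α * m).divisors.card * ((α * m).divisors.card * (α * m).totient) :=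
                mul_le_mul_of_nonneg_left hle h4
            _ = (α * m).divisors.card * (α * m).divisors.card * (α * m).totient := by ring
            _ ≤ (K * 2 ^ d.card) * (K * 2 ^ d.card) * (α * m).totient :=
                mul_le_mul_of_nonneg_right (mul_le_mul hτ hτ h4 (by positivity)) hφ.le
            _ = K ^ 2 * 4 ^ d.card * (α * m).totient := by
                rw [show (4 : ℝ) = 2 * 2 by norm_num, mul_pow]
                ring
        calc 2 * ((α * m).divisors.card : ℝ) * N / ((α * m).totient * K ^ A)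
            = 2 * N / K ^ A * (((α * m).divisors.card : ℝ) / (α * m).totient) := by field_simp
          _ ≤ 2 * N / K ^ A * (K ^ 2 * 4 ^ d.card / (α * m)) := mul_le_mul_of_nonneg_left h3 (by positivity)
          _ = 2 * (N / α) * K ^ 2 / K ^ A * (4 ^ d.card / m) := by field_simp
      have h2 := hcls _ (by positivity) h1
      refine h2.trans ?_
      rw [hprod]
      push_cast
      calc 2 * (∏ p ∈ d, ((Z p).card : ℝ)) * (2 * (N / α) * K ^ 2 / K ^ A * (4 ^ d.card / m))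
          ≤ 2 * (κ : ℝ) ^ d.card * (2 * (N / α) * K ^ 2 / K ^ A * (4 ^ d.card / m)) :=
            mul_le_mul_of_nonneg_right (mul_le_mul_of_nonneg_left hZκ (by norm_num)) (by positivity)
        _ = 4 * (N / α) * K ^ 2 / K ^ A * ((4 * (κ : ℝ)) ^ d.card / m) := by rw [mul_pow]; ring
  rw [hswap]
  refine (abs_sum_le_sum_abs _ _).trans ((sum_le_sum hterm).trans ?_)
  rw [sum_add_distrib, ← mul_sum, ← sum_filter, ← mul_sum]
  have h1 : P.powerset.filter (fun d => (∅ : Finset ℕ) ⊆ d) = P.powerset := filter_true_of_mem fun d _ => empty_subset d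
  rw [h1, prod_empty, mul_one] at hws
  have h2 : 4 * (N / α) * K ^ 2 / K ^ A * ∑ d ∈ P.powerset, ∏ p ∈ d, (((4 * κ : ℕ) : ℝ) / p) ≤ 4 * (N / α) * K ^ 2 / K ^ A * K ^ C1 :=
    mul_le_mul_of_nonneg_left hws (by positivity)
  have h3 : 6 * (N / (α : ℝ)) * ∑ d ∈ P.powerset.filter (fun d => ∃ f ∈ Bf N A, f ∣ ∏ p ∈ d, p), ∏ p ∈ d, ((κ : ℝ) / p) ≤ 6 * (N / α) * (1 / K ^ (E + 1)) :=
    mul_le_mul_of_nonneg_left hwb (by positivity)
  have h4 : 4 * (N / (α : ℝ)) * K ^ 2 / K ^ A * K ^ C1 = 4 * (N / α) * (1 / K ^ (E + 1)) := by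
    rw [hA, show C1 + E + 3 = (2 + C1) + (E + 1) by ring, pow_add K (2 + C1), pow_add K 2 C1]
    field_simp
  have h5 : (N : ℝ) / (α * K ^ E) = (N / α) * (1 / K ^ (E + 1)) * K := by
    rw [pow_succ]
    field_simp
  rw [h5]
  have h6 : 0 ≤ (N / (α : ℝ)) * (1 / K ^ (E + 1)) := by positivity
  nlinarith [mul_nonneg h6 (show 0 ≤ K - 10 by linarith)]

end Pool.Agent.Lib.EX.AX
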