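import Pool.Agent.Lib.MP_61161c_nt.EX.AP1
import Pool.Agent.Lib.MP_61161c_nt.EX.PMarg

/-!
# EX, module AP2: (P2) from the marginal sums and the missing pattern
-/

set_option autoImplicit false

open Finset
open Pool.Agent.Lib.GT (Rough pr)
open Pool.Agent.Lib.MP_45349e_nt.LS (lam)

namespace Pool.Agent.Lib.EX.AX

open Classical in
/-- the numbers `a < N` with `a`, `N - a` free of primes `≤ z` and the signs `s`, `t` -/
noncomputable def Mis (N z : ℕ) (s t : ℝ) : Finset ℕ :=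
  (Icc 1 (N - 1)).filter fun a : ℕ => Rough z a ∧ Rough z (N - a) ∧ lam a = s ∧ lam (N - a) = t

/-- hypotheses for (P2) -/
structure P2H (e : Env) (k0 A E b K Np : ℕ) (s t M0 : ℝ) : Prop where
  b1 : 1 ≤ b
  eta0 : 0 < e.eta
  eta1 : e.eta ≤ 1
  Kb : (K : ℝ) * (1 / 2) ^ b ≤ e.eta / 16
  w2 : 2 ≤ e.w
  wk : 2 * k0 ≤ e.w
  wz : e.w ≤ e.z
  N0e : 2 ∣ e.N0
  X1 : 1 ≤ e.X
  lg : 4 * (k0 : ℝ) ^ 3 * (Real.log 2 + 80 * Real.log e.X) ≤ e.eta / 8 * (e.w * Real.log e.w)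
  z26 : ∀ k ≤ k0, (e.z : ℝ) ^ (26 * b) + 1 ≤ e.eta / 16 * (e.Y * e.MM k)
  prm : Np.Prime
  XNp : 2 * e.X < Np
  NpX : Np ≤ 8 * e.X
  zX : e.z ≤ e.X
  D : (e.Y ^ 100 * e.z ^ (12 * b)) ^ 1000 ≤ e.X
  YX : 10 ^ 9 * e.Y ^ 101 ≤ e.X
  Y1 : 1 ≤ e.Y
  bf : ∀ f ∈ Bf Np A, ∀ p : ℕ, p.Prime → p ∣ f → e.z < p → p ∈ e.Bad
  tau : ∀ m : ℕ, m ≠ 0 → m ≤ e.Y ^ 100 → Rough e.z m → (m.divisors.card : ℝ) ≤ Real.log Np
  big : ∀ k ≤ k0, 64 * 10 ^ 9 ≤ e.eta * e.MM k * Real.log Np ^ E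
  kap : e.kap = -(s * t)
  s1 : s = 1 ∨ s = -1
  t1 : t = 1 ∨ t = -1
  E2X : ∀ N ∈ e.E, N ≤ 2 * e.X
  miss : ∀ N ∈ e.E, ((Mis N e.z s t).card : ℝ) ≤ M0
  mis0 : ∀ k ≤ k0, 8 * 10 ^ 9 * e.Y ^ 100 * M0 ≤ e.eta * e.X * e.MM k

/-- rough in the two senses -/
theorem rough_of_sf {z : ℕ} {x : ℤ} (h : Sf z x) : Rough z x.natAbs := by
  intro p hp hd
  by_contra h1
  exact h p hp (by omega) (Int.natCast_dvd.mpr hd)

/-- signs -/
theorem sign_id {s t u v : ℝ} (hs : s = 1 ∨ s = -1) (ht : t = 1 ∨ t = -1) (hu : u = 1 ∨ u = -1) (hv : v = 1 ∨ v = -1) :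
    2 * (if u * v ≠ -(s * t) then (1 : ℝ) else 0) = 4 * (if u = s ∧ v = t then (1 : ℝ) else 0) - s * u - t * v := by
  rcases hs with rfl | rfl <;> rcases ht with rfl | rfl <;> rcases hu with rfl | rfl <;> rcases hv with rfl | rfl <;> norm_num

theorem lz_pm (x : ℤ) : lz x = 1 ∨ lz x = -1 := by
  have h := abs_lz x
  rcases abs_eq (by norm_num : (0 : ℝ) ≤ 1) |>.mp h with h1 | h1
  · exact Or.inl h1
  · exact Or.inr h1

/-- **(P2)** -/
theorem p2_of (k0 E : ℕ) : ∃ A K N1 : ℕ, ∀ (e : Env) (b Np : ℕ) (s t M0 : ℝ), N1 ≤ Np → P2H e k0 A E b K Np s t M0 → e.P2 k0 := by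
  classical
  obtain ⟨A, N1, hmarg⟩ := marg (k0 + 2) E
  obtain ⟨K1, hK1, hcnt⟩ := cnt (k0 + 2)
  obtain ⟨K2, hK2, hup⟩ := cnt_up (k0 + 2)
  refine ⟨A, K1 + K2, N1, fun e b Np s t M0 hN1 H T Fs A0 L hS hlen x N hN hgd hxY hXL hAL hpos hsf => ?_⟩
  have hz : 2 ≤ e.z := H.w2.trans H.wz
  have hZ := Zs_ok hS k0 hlen H.wk H.N0e
  have hM0 : 0 ≤ e.MM Fs.length := MM_nonneg e H.N0e (by have := H.wk; omega)
  -- the modulus
  have hx0 : x.a ≠ 0 := by
    intro h0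
    exact hgd.1 2 Nat.prime_two hz (by rw [h0]; exact dvd_zero _)
  obtain ⟨α, hα⟩ : ∃ α : ℕ, α = x.a.natAbs := ⟨_, rfl⟩
  have hα1 : 1 ≤ α := by rw [hα]; exact Int.natAbs_pos.mpr hx0
  have hαY : α ≤ e.Y ^ 100 := by
    have h1 : (α : ℤ) ≤ (e.Y : ℤ) ^ 100 := by rw [hα, Int.natCast_natAbs]; exact hxY
    exact_mod_cast h1
  have hαr : Rough e.z α := by rw [hα]; exact rough_of_sf hgd.1
  have hτ := H.tau α (by omega) hαY hαr
  have hXL' : (e.X : ℝ) ≤ 10 ^ 9 * (α * L) := by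
    have h1 : (e.X : ℤ) ≤ 10 ^ 9 * ((α : ℤ) * L) := by rw [hα, Int.natCast_natAbs]; exact hXL
    exact_mod_cast h1
  have hαR : (1 : ℝ) ≤ α := by exact_mod_cast hα1
  have hαYR : (α : ℝ) ≤ (e.Y : ℝ) ^ 100 := by exact_mod_cast hαY
  have hYR : (1 : ℝ) ≤ e.Y := by exact_mod_cast H.Y1
  have hL0 : (0 : ℝ) ≤ L := Nat.cast_nonneg L
  have hYL : (e.Y : ℝ) ≤ L := by
    have h1 : (10 : ℝ) ^ 9 * (e.Y : ℝ) ^ 101 ≤ e.X := by exact_mod_cast H.YX
    have h2 : (10 : ℝ) ^ 9 * (e.Y : ℝ) ^ 101 ≤ 10 ^ 9 * ((e.Y : ℝ) ^ 100 * L) :=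
      h1.trans (hXL'.trans (mul_le_mul_of_nonneg_left (mul_le_mul_of_nonneg_right hαYR hL0) (by norm_num)))
    have h3 : (e.Y : ℝ) ^ 100 * e.Y ≤ (e.Y : ℝ) ^ 100 * L := by
      have : (e.Y : ℝ) ^ 101 = (e.Y : ℝ) ^ 100 * e.Y := pow_succ _ _
      rw [this] at h2
      exact le_of_mul_le_mul_left h2 (by norm_num)
    exact le_of_mul_le_mul_left h3 (by positivity)
  -- the sieve
  obtain ⟨hsing1, hsing2⟩ := sing e k0 (e.eta / 8) (by linarith [H.eta0]) (by linarith [H.eta1]) H.wk H.w2 H.wz H.N0e H.X1 H.lg hS hlen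
  obtain ⟨V, hV⟩ : ∃ V : ℝ, V = ∏ p ∈ pr e.z, (1 - ((Zs e T Fs p).card : ℝ) / p) := ⟨_, rfl⟩
  rw [← hV] at hsing1 hsing2
  have h1 := hcnt b H.b1 e.z hz (pr e.z) (fun r hr => mem_pr.mp hr) (Zs e T Fs) hZ A0 (A0 + L) 1 0 (by omega) le_rfl
    (fun r hr hd => by
      have h2 := (mem_pr.mp hr).1.two_le
      have h3 := Nat.le_of_dvd one_pos hd
      omega)
  obtain ⟨up, hu1, hu2, hu3, hu4⟩ := hup b H.b1 e.z hz (pr e.z) (fun r hr => mem_pr.mp hr) (Zs e T Fs) hZ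
  have hu4 := hu4 A0 L
  rw [← hV] at h1 hu4
  have hSS : e.SS T Fs A0 L = (Ico A0 (A0 + L)).filter fun n => ∀ r ∈ pr e.z, n % r ∉ Zs e T Fs r := by
    ext n
    rw [mem_SS_iff hS H.wz, mem_filter]
  have h5 := card_ico_ioc A0 L (fun n => ∀ r ∈ pr e.z, n % r ∉ Zs e T Fs r)
  rw [← hSS] at h5
  have h6 : ((Ioc A0 (A0 + L)).filter fun n => n ≡ 0 [MOD 1] ∧ ∀ r ∈ pr e.z, n % r ∉ Zs e T Fs r) =
      (Ioc A0 (A0 + L)).filter fun n => ∀ r ∈ pr e.z, n % r ∉ Zs e T Fs r := by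
    refine filter_congr fun n _ => ?_
    simp [Nat.modEq_one]
  rw [h6] at h1
  have h7 : (((A0 + L : ℕ) : ℝ) - A0) / (1 : ℕ) = L := by
    push_cast
    rw [div_one]
    ring
  rw [h7] at h1
  obtain ⟨LM, hLM⟩ : ∃ LM : ℝ, LM = L * e.MM Fs.length := ⟨_, rfl⟩
  have hLM0 : 0 ≤ LM := by rw [hLM]; exact mul_nonneg hL0 hM0
  have hLV : (L : ℝ) * V ≤ (1 + e.eta / 8) * LM := by
    rw [hLM]
    nlinarith
  have hLV0 : 0 ≤ (L : ℝ) * V := mul_nonneg hL0 (hM0.trans hsing1)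
  have hb0 : (0 : ℝ) ≤ (1 / 2) ^ b := by positivity
  have hKs : ((K1 : ℝ) * (1 / 2) ^ b) + (K2 : ℝ) * (1 / 2) ^ b ≤ e.eta / 16 := by
    have := H.Kb
    push_cast at this
    linarith
  have hz26 : (e.z : ℝ) ^ (26 * b) + 1 ≤ e.eta / 16 * LM := by
    refine (H.z26 Fs.length hlen).trans (mul_le_mul_of_nonneg_left ?_ (by linarith [H.eta0]))
    rw [hLM]
    exact mul_le_mul_of_nonneg_right hYL hM0
  -- the difference of the weights and the indicator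
  obtain ⟨wt, hwt⟩ : ∃ wt : ℕ → ℝ, wt = fun n => ∑ d ∈ ((pr e.z).filter fun p => n % p ∈ Zs e T Fs p).powerset, up d := ⟨_, rfl⟩
  have hwge : ∀ n ∈ Ico A0 (A0 + L), (if n ∈ e.SS T Fs A0 L then (1 : ℝ) else 0) ≤ wt n := by
    intro n hn
    have h8 := hu3 ((pr e.z).filter fun p => n % p ∈ Zs e T Fs p) (filter_subset _ _)
    rw [hwt]
    refine le_trans (le_of_eq ?_) h8
    congr 1
    rw [mem_SS_iff hS H.wz, Finset.filter_eq_empty_iff]
    exact propext ⟨fun h => h.2, fun h => ⟨hn, h⟩⟩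
  have hwsum : ∑ n ∈ Ico A0 (A0 + L), (wt n - if n ∈ e.SS T Fs A0 L then (1 : ℝ) else 0) ≤ e.eta / 4 * LM := by
    rw [sum_sub_distrib, ← sum_filter, sum_const, nsmul_eq_mul, mul_one]
    have h8 : (Ico A0 (A0 + L)).filter (fun n => n ∈ e.SS T Fs A0 L) = e.SS T Fs A0 L := by
      ext n
      rw [mem_filter]
      exact ⟨fun h => h.2, fun h => ⟨((mem_SS_iff hS H.wz).mp h).1, h⟩⟩
    rw [h8]
    have h9 : ∑ n ∈ Ico A0 (A0 + L), wt n ≤ (1 + K2 * (1 / 2) ^ b) * (L * V) + (e.z : ℝ) ^ (26 * b) := by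
      rw [hwt]
      exact hu4
    obtain ⟨h15, h16⟩ := abs_le.mp h1
    obtain ⟨h17, h18⟩ := abs_le.mp h5
    have h19 : (K1 * (1 / 2) ^ b + K2 * (1 / 2) ^ b) * (L * V) ≤ e.eta / 16 * ((1 + e.eta / 8) * LM) :=
      mul_le_mul hKs hLV hLV0 (by linarith [H.eta0])
    have h20 : e.eta / 16 * ((1 + e.eta / 8) * LM) ≤ e.eta / 8 * LM := by
      have h21 : 0 ≤ e.eta * LM := mul_nonneg H.eta0.le hLM0
      nlinarith [H.eta1]
    linarith
  -- marginals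
  have hNX : (N : ℤ) < Np := by
    have h8 := H.E2X N hN
    have h9 := H.XNp
    exact_mod_cast (by omega : N < Np)
  have hD : ((α * e.z ^ (12 * b) : ℕ) : ℝ) ≤ (Np : ℝ) ^ ((1 : ℝ) / 1000) := by
    have h8 : (α * e.z ^ (12 * b)) ^ 1000 ≤ Np := by
      refine le_trans (Nat.pow_le_pow_left (Nat.mul_le_mul_right _ hαY) 1000) (H.D.trans ?_)
      have := H.XNp
      omega
    have h9 : (((α * e.z ^ (12 * b) : ℕ) : ℝ) ^ (1000 : ℕ)) ≤ Np := by exact_mod_cast h8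
    calc ((α * e.z ^ (12 * b) : ℕ) : ℝ) = ((((α * e.z ^ (12 * b) : ℕ) : ℝ) ^ (1000 : ℕ))) ^ ((1 : ℝ) / 1000) := by
          rw [← Real.rpow_natCast, ← Real.rpow_mul (Nat.cast_nonneg _)]
          norm_num
      _ ≤ (Np : ℝ) ^ ((1 : ℝ) / 1000) := Real.rpow_le_rpow (by positivity) h9 (by norm_num)
  have hmg : ∀ y : Frm, y.a.natAbs = α → (∀ n : ℕ, A0 ≤ n → n < A0 + L → 0 < y.ev n ∧ y.ev n < N) →
      |∑ n ∈ e.SS T Fs A0 L, lz (y.ev n)| ≤ e.eta / 2 * LM := by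
    intro y hy hyr
    have hy0 : y.a ≠ 0 := by
      intro h0
      rw [h0] at hy
      simp at hy
      omega
    have h8 := hmarg Np hN1 H.prm (e.z ^ (12 * b)) (pr e.z) (fun p hp => ⟨(mem_pr.mp hp).1, by
        have := (mem_pr.mp hp).2
        have h9 := H.zX
        have h10 := H.XNp
        omega⟩) (Zs e T Fs) (fun p hp => ⟨(hZ p hp).1, (hZ p hp).2.2⟩) up hu1 hu2 y A0 L hy0
      (fun p hp hd => by
        have h9 : p ∣ α := by
          rw [← hy]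
          exact Int.natCast_dvd.mp hd
        have h10 := hαr p (mem_pr.mp hp).1 h9
        have := (mem_pr.mp hp).2
        omega)
      (fun f hf => by
        rw [hy]
        refine Nat.Coprime.symm (Nat.coprime_of_dvd fun p hp hpf hpα => ?_)
        have h10 := hαr p hp hpα
        have h11 := H.bf f hf p hp hpf h10
        refine hgd.2 p h11 ?_
        rw [hα] at hpα
        exact Int.natCast_dvd.mpr hpα)
      (by rw [hy]; exact hτ) (by rw [hy]; exact hD)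
      (fun n h9 h10 => ⟨(hyr n h9 h10).1, (hyr n h9 h10).2.trans hNX⟩)
    rw [hy] at h8
    have h9 : (Np : ℝ) / (α * Real.log Np ^ E) ≤ e.eta / 8 * LM := by
      have h10 := H.big Fs.length hlen
      have hlog : 0 ≤ Real.log Np := Real.log_natCast_nonneg _
      have hlogE : 0 < Real.log Np ^ E := by
        rcases eq_or_lt_of_le (pow_nonneg hlog E) with h | h
        · rw [← h] at h10
          norm_num at h10
        · exact h
      rw [div_le_iff₀ (by positivity)]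
      have h11 : (Np : ℝ) ≤ 8 * e.X := by exact_mod_cast H.NpX
      have h12 : (Np : ℝ) ≤ 8 * (10 ^ 9 * (α * L)) := h11.trans (by linarith)
      have h13 : (8 : ℝ) * (10 ^ 9 * (α * L)) = (64 * 10 ^ 9) * (α * L / 8) := by ring
      have h14 : (64 * 10 ^ 9 : ℝ) * (α * L / 8) ≤ e.eta * e.MM Fs.length * Real.log Np ^ E * (α * L / 8) :=
        mul_le_mul_of_nonneg_right h10 (by positivity)
      calc (Np : ℝ) ≤ (64 * 10 ^ 9) * (α * L / 8) := by linarith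
        _ ≤ e.eta * e.MM Fs.length * Real.log Np ^ E * (α * L / 8) := h14
        _ = e.eta / 8 * LM * (α * Real.log Np ^ E) := by rw [hLM]; ring
    have h10 : ∑ n ∈ e.SS T Fs A0 L, lz (y.ev n) = ∑ n ∈ Ico A0 (A0 + L), wt n * lz (y.ev n) -
        ∑ n ∈ Ico A0 (A0 + L), (wt n - if n ∈ e.SS T Fs A0 L then (1 : ℝ) else 0) * lz (y.ev n) := by
      rw [← sum_sub_distrib]
      have h11 : e.SS T Fs A0 L = (Ico A0 (A0 + L)).filter (fun n => n ∈ e.SS T Fs A0 L) := by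
        ext n
        rw [mem_filter]
        exact ⟨fun h => ⟨((mem_SS_iff hS H.wz).mp h).1, h⟩, fun h => h.2⟩
      conv_lhs => rw [h11]
      rw [sum_filter]
      refine sum_congr rfl fun n _ => ?_
      split_ifs <;> ring
    have h12 : |∑ n ∈ Ico A0 (A0 + L), (wt n - if n ∈ e.SS T Fs A0 L then (1 : ℝ) else 0) * lz (y.ev n)| ≤ e.eta / 4 * LM := by
      refine (abs_sum_le_sum_abs _ _).trans (le_trans (sum_le_sum fun n hn => ?_) hwsum)
      rw [abs_mul, abs_lz, mul_one, abs_of_nonneg (by linarith [hwge n hn])]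
    rw [hwt] at h10 h12
    rw [h10]
    refine (abs_sub _ _).trans ?_
    have h13 : 0 ≤ e.eta * LM := mul_nonneg H.eta0.le hLM0
    linarith
  have hm1 := hmg x hα.symm hpos
  have hm2 := hmg ⟨-x.a, N - x.b⟩ (by rw [hα]; exact Int.natAbs_neg _) (fun n h8 h9 => by
    have h10 := hpos n h8 h9
    have h11 : (⟨-x.a, N - x.b⟩ : Frm).ev n = N - x.ev n := by unfold Frm.ev; ring
    rw [h11]
    constructor <;> linarith [h10.1, h10.2])
  have hev2 : ∀ n : ℤ, (⟨-x.a, N - x.b⟩ : Frm).ev n = N - x.ev n := fun n => by unfold Frm.ev; ring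
  simp only [hev2] at hm2
  -- the missing pattern
  have hmiss : (((e.SS T Fs A0 L).filter fun n : ℕ => lz (x.ev n) = s ∧ lz (N - x.ev n) = t).card : ℝ) ≤ e.eta / 8 * LM := by
    have h8 : ((e.SS T Fs A0 L).filter fun n : ℕ => lz (x.ev n) = s ∧ lz (N - x.ev n) = t).card ≤ (Mis N e.z s t).card := by
      refine card_le_card_of_injOn (fun n : ℕ => (x.ev n).toNat) ?_ ?_
      · intro n hn
        rw [mem_coe, mem_filter] at hn
        obtain ⟨hn1, hn2, hn3⟩ := hn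
        have hn4 := mem_Ico.mp ((mem_SS_iff hS H.wz).mp hn1).1
        obtain ⟨hn5, hn6⟩ := hpos n hn4.1 hn4.2
        obtain ⟨hn7, hn8⟩ := hsf n hn1
        obtain ⟨a, ha⟩ : ∃ a : ℕ, x.ev n = a := Int.eq_ofNat_of_zero_le hn5.le
        rw [ha] at hn5 hn6 hn7 hn8 hn2 hn3
        have ha1 : 1 ≤ a := by exact_mod_cast hn5
        have haN : a < N := by exact_mod_cast hn6
        have hsub : (N : ℤ) - a = ((N - a : ℕ) : ℤ) := by
          rw [Nat.cast_sub haN.le]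
        rw [hsub] at hn8 hn3
        show (x.ev n).toNat ∈ Mis N e.z s t
        unfold Mis
        rw [ha, Int.toNat_natCast, mem_filter, mem_Icc]
        have e1 := rough_of_sf hn7
        have e2 := rough_of_sf hn8
        rw [Int.natAbs_natCast] at e1 e2
        refine ⟨⟨ha1, by omega⟩, e1, e2, ?_, ?_⟩
        · have := hn2
          unfold lz at this
          rwa [Int.natAbs_natCast] at this
        · have := hn3
          unfold lz at this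
          rwa [Int.natAbs_natCast] at this
      · intro n hn m hm hnm
        rw [mem_coe, mem_filter] at hn hm
        have hn4 := mem_Ico.mp ((mem_SS_iff hS H.wz).mp hn.1).1
        have hm4 := mem_Ico.mp ((mem_SS_iff hS H.wz).mp hm.1).1
        have h9 := (hpos n hn4.1 hn4.2).1
        have h10 := (hpos m hm4.1 hm4.2).1
        have h11 : x.ev n = x.ev m := by
          have h12 : ((x.ev n).toNat : ℤ) = ((x.ev m).toNat : ℤ) := by exact_mod_cast hnm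
          rwa [Int.toNat_of_nonneg h9.le, Int.toNat_of_nonneg h10.le] at h12
        unfold Frm.ev at h11
        have h12 : x.a * ((n : ℤ) - m) = 0 := by linarith
        rcases mul_eq_zero.mp h12 with h13 | h13
        · exact absurd h13 hx0
        · exact_mod_cast (sub_eq_zero.mp h13)
    have h9 : ((Mis N e.z s t).card : ℝ) ≤ M0 := H.miss N hN
    have h10 : (((e.SS T Fs A0 L).filter fun n : ℕ => lz (x.ev n) = s ∧ lz (N - x.ev n) = t).card : ℝ) ≤ ((Mis N e.z s t).card : ℝ) := by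
      exact_mod_cast h8
    have h11 := H.mis0 Fs.length hlen
    have h12 : e.eta * e.X * e.MM Fs.length ≤ 8 * 10 ^ 9 * (e.Y : ℝ) ^ 100 * (e.eta / 8 * LM) := by
      have h13 : (e.X : ℝ) ≤ 10 ^ 9 * ((e.Y : ℝ) ^ 100 * L) :=
        hXL'.trans (mul_le_mul_of_nonneg_left (mul_le_mul_of_nonneg_right hαYR hL0) (by norm_num))
      calc e.eta * e.X * e.MM Fs.length ≤ e.eta * (10 ^ 9 * ((e.Y : ℝ) ^ 100 * L)) * e.MM Fs.length :=
            mul_le_mul_of_nonneg_right (mul_le_mul_of_nonneg_left h13 H.eta0.le) hM0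
        _ = 8 * 10 ^ 9 * (e.Y : ℝ) ^ 100 * (e.eta / 8 * LM) := by rw [hLM]; ring
    have h14 : M0 ≤ e.eta / 8 * LM := le_of_mul_le_mul_left (h11.trans h12) (by positivity)
    linarith
  -- conclusion
  have hsum : 2 * (((e.SS T Fs A0 L).filter fun n : ℕ => lz (x.ev n) * lz (N - x.ev n) ≠ e.kap).card : ℝ) =
      4 * (((e.SS T Fs A0 L).filter fun n : ℕ => lz (x.ev n) = s ∧ lz (N - x.ev n) = t).card : ℝ) -
        s * ∑ n ∈ e.SS T Fs A0 L, lz (x.ev n) - t * ∑ n ∈ e.SS T Fs A0 L, lz (N - x.ev n) := by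
    have e1 : (((e.SS T Fs A0 L).filter fun n : ℕ => lz (x.ev n) * lz (N - x.ev n) ≠ e.kap).card : ℝ) =
        ∑ n ∈ e.SS T Fs A0 L, (if lz (x.ev n) * lz (N - x.ev n) ≠ -(s * t) then (1 : ℝ) else 0) := by
      rw [← sum_filter, sum_const, nsmul_eq_mul, mul_one, H.kap]
    have e2 : (((e.SS T Fs A0 L).filter fun n : ℕ => lz (x.ev n) = s ∧ lz (N - x.ev n) = t).card : ℝ) =
        ∑ n ∈ e.SS T Fs A0 L, (if lz (x.ev n) = s ∧ lz (N - x.ev n) = t then (1 : ℝ) else 0) := by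
      rw [← sum_filter, sum_const, nsmul_eq_mul, mul_one]
    rw [e1, e2, mul_sum, mul_sum, mul_sum, mul_sum, ← sum_sub_distrib, ← sum_sub_distrib]
    exact sum_congr rfl fun n _ => sign_id H.s1 H.t1 (lz_pm _) (lz_pm _)
  have hs' : |s| = 1 := by rcases H.s1 with h | h <;> rw [h] <;> norm_num
  have ht' : |t| = 1 := by rcases H.t1 with h | h <;> rw [h] <;> norm_num
  have hb1 : -(s * ∑ n ∈ e.SS T Fs A0 L, lz (x.ev n)) ≤ e.eta / 2 * LM := by
    refine (neg_le_abs _).trans ?_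
    rw [abs_mul, hs', one_mul]
    exact hm1
  have hb2 : -(t * ∑ n ∈ e.SS T Fs A0 L, lz (N - x.ev n)) ≤ e.eta / 2 * LM := by
    refine (neg_le_abs _).trans ?_
    rw [abs_mul, ht', one_mul]
    exact hm2
  have hfin : 2 * (((e.SS T Fs A0 L).filter fun n : ℕ => lz (x.ev n) * lz (N - x.ev n) ≠ e.kap).card : ℝ) ≤ 2 * (e.eta * LM) := by
    rw [hsum]
    linarith
  rw [← hLM]
  linarith

end Pool.Agent.Lib.EX.AX
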