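import Pool.Agent.Lib.MP_61161c_nt.EX.Defs

/-!
# EX: hypotheses of the double half move, the family of paths, the sets of the second moment
-/

set_option autoImplicit false

open Finset
open Pool.Agent.Lib.GT (Rough pr)

namespace Pool.Agent.Lib.EX

namespace Env

variable (e : Env)

open Classical in
/-- (P3) the number of `n ∈ [A, A + L)` with `r + W n` and `r + W n - k` free of primes `≤ z` is at least `L / U` -/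
def P3 : Prop := ∀ (r : ℕ) (k : ℤ) (A L : ℕ), r.Coprime e.W → (e.W : ℤ) ∣ k → e.Y ≤ L →
  (L : ℝ) ≤ e.U * ((Finset.Ico A (A + L)).filter fun n : ℕ =>
    Sf e.z ((r + e.W * n : ℕ) : ℤ) ∧ Sf e.z ((r + e.W * n : ℕ) - k)).card

end Env

/-- the hypotheses of the double half move -/
structure DH (e : Env) (k0 B cr : ℕ) (eps g : ℤ) (Ns qs : ℕ) (k : ℤ) (qlo qhi : ℕ) (s dl : ℝ) (a0 lo hi : ℤ) : Prop where
  hk0 : k0 ≤ 13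
  hB : 2 ≤ B ∧ B ≤ 20
  hcr : cr ≤ 10 ^ 7
  heps : eps = 1 ∨ eps = -1
  hs : s = 1 ∨ s = -1
  hg : 0 < g ∧ g ≤ 2 * e.X
  hNs : Ns ∈ e.E
  hqs : e.Gd qs
  hk : k ≠ 0
  kW : (e.W : ℤ) ∣ k
  /-- residues mod `W` -/
  md : (eps = 1 ∧ (e.W : ℤ) ∣ g) ∨ (eps = -1 ∧ (e.W : ℤ) ∣ qs * g - e.N0 ∧ (qs : ℤ) * g ≠ Ns)
  /-- the window -/
  hq0 : e.Y ^ 18 ≤ qlo
  hq1 : qhi ≤ e.Y ^ 21
  hq2 : (qlo : ℤ) + |k| ≤ qhi ∧ (qhi : ℤ) ≤ 2 * qlo ∧ (qlo : ℤ) ≤ 1000 * (qhi - qlo - |k|)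
  hqs1 : qs ≤ 2 * qlo ∧ qhi ≤ 2 * qs
  ha0 : 0 ≤ a0 ∧ a0 * qhi ^ 2 ≤ (e.Y : ℤ) ^ 98
  /-- ranges -/
  r1 : 3 * (e.H : ℤ) ≤ lo ∧ hi ≤ e.Xs - 3 * e.H
  r2 : ∀ y : ℤ, lo ≤ y → y ≤ hi → lo ≤ y + eps * k * g → y + eps * k * g ≤ hi → ∀ q : ℤ, qlo ≤ q → q ≤ qhi →
    3 * (e.H : ℤ) ≤ eps * y + q * g ∧ eps * y + q * g ≤ e.Xs - 3 * e.H
  /-- the lower move -/
  hdl : 0 ≤ dl
  lw : ∀ q : ℤ, qlo ≤ q → q ≤ qhi → e.Gd q → q ≡ qs [ZMOD e.W] →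
    e.Low (k0 + 11) (B + 10) (2 * cr) eps g Ns qs q s dl (a0 * qhi ^ 2) (lo - e.H) (hi + e.H)

/-- the base data of one application: base form `t`, context forms, interval, base form `G` of the shift -/
structure BD (e : Env) (k0 B cr : ℕ) (v : ℤ) (a0 lo hi : ℤ) (t : Frm) (Fs : List Frm) (A L : ℕ) (G : Frm) : Prop where
  ok : e.SOk B t Fs
  len : Fs.length ≤ k0
  AL : A + L ≤ e.X ^ B
  ext : e.Ext t G
  gd : e.Gd G.a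
  ga : |G.a| ≤ a0
  gb : |G.b| ≤ (e.X : ℤ) ^ B
  cr : (e.X : ℤ) ≤ cr * (|G.a| * L)
  rg : ∀ n : ℕ, A ≤ n → n < A + L → lo ≤ G.ev n ∧ G.ev n ≤ hi ∧ lo ≤ G.ev n + v ∧ G.ev n + v ≤ hi
  sf : ∀ n ∈ e.SS t Fs A L, Sf e.z (G.ev n) ∧ Sf e.z (G.ev n + v)

namespace Env

variable (e : Env)

/-- the family of all paths -/
noncomputable def TT (qs qlo qhi : ℕ) (k a : ℤ) : Finset Th :=
  (e.Qs qs qlo qhi k a ×ˢ (e.E ×ˢ e.E) ×ˢ (e.E ×ˢ e.E)).image fun x => ⟨x.1, x.2.1.1, x.2.1.2, x.2.2.1, x.2.2.2⟩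

end Env

namespace Th

variable (eps g : ℤ) (Ns qs : ℕ) (k : ℤ) (G : Frm) (θ : Th)

/-- the modulus `q q'` -/
def mo : ℕ := θ.q * ((θ.q : ℤ) - k).natAbs

/-- the congruences of the path -/
def Dv (n : ℤ) : Prop := (θ.q : ℤ) ∣ (θ.F2 G).ev n ∧ ((θ.q : ℤ) - k) ∣ (θ.F8 eps g G).ev n

/-- the path is generic: its forms and the context forms are pairwise non proportional -/
def Gn (Fs : List Frm) : Prop := (Fs ++ θ.Fs eps g Ns qs k G).Pairwise Frm.NP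

end Th

namespace Env

variable (e : Env) (eps g : ℤ) (Ns qs : ℕ) (k : ℤ) (G t : Frm) (Fs : List Frm) (A L : ℕ)

open Classical in
/-- the `n` to which the path `θ` applies -/
noncomputable def SP (θ : Th) : Finset ℕ := (e.SS t Fs A L).filter fun n : ℕ =>
  θ.Dv eps g k G n ∧ ∀ F ∈ θ.Fs eps g Ns qs k G, Sf e.z (F.ev n)

open Classical in
/-- the `n` where one of the steps of the path `θ` fails -/
noncomputable def VP (s : ℝ) (θ : Th) : Finset ℕ := (e.SP eps g Ns qs k G t Fs A L θ).filter fun n : ℕ =>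
  lz (G.ev n) * lz ((θ.F1 G).ev n) ≠ e.kap ∨ lz ((θ.F1 G).ev n) * lz ((θ.F2 G).ev n) ≠ e.kap ∨
  lz ((θ.F4 eps g G).ev n) ≠ s * lz ((θ.F2 G).ev n) ∨
  lz ((θ.F4 eps g G).ev n) * lz ((θ.F5 eps g G).ev n) ≠ e.kap ∨
  lz ((θ.F5 eps g G).ev n) * lz ((θ.F6 eps g G).ev n) ≠ e.kap ∨
  lz ((θ.F6 eps g G).ev n) * lz ((θ.F7 eps g G).ev n) ≠ e.kap ∨
  lz ((θ.F7 eps g G).ev n) * lz ((θ.F8 eps g G).ev n) ≠ e.kap ∨
  lz ((θ.F8 eps g G).ev n) ≠ s * lz ((θ.F10 eps g k G).ev n) ∨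
  lz ((θ.F10 eps g k G).ev n) * lz ((θ.F11 eps g k G).ev n) ≠ e.kap ∨
  lz ((θ.F11 eps g k G).ev n) * lz (G.ev n + eps * k * g) ≠ e.kap

end Env

end Pool.Agent.Lib.EX
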