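import Pool.Agent.Lib.MP_61161c_nt.EX.AP1
import Pool.Agent.Lib.MP_61161c_nt.EX.Dd

/-!
# EX, module AP3: (P3), the number of `n` with `r + W n` and `r + W n - k` free of small primes
-/

set_option autoImplicit false

open Finset
open Pool.Agent.Lib.GT (Rough pr)

namespace Pool.Agent.Lib.EX.AX

theorem not_dvd_W {e : Env} {p : ℕ} (hp : p.Prime) (hpw : e.w < p) : ¬ p ∣ e.W := by
  unfold Env.W
  rw [hp.dvd_primorial_iff]
  omega

/-- the small primes contribute at most `1 / 2` -/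
theorem MM_two_le (e : Env) (hw2 : 2 ≤ e.w) (hN0 : 2 ∣ e.N0) :
    2 * e.MM 2 ≤ ∏ p ∈ (pr e.z).filter (fun p => e.w < p), (1 - (2 : ℝ) / p) := by
  classical
  have hV0 : 0 ≤ ∏ p ∈ (pr e.z).filter (fun p => e.w < p), (1 - (2 : ℝ) / p) := by
    refine prod_nonneg fun p hp => ?_
    obtain ⟨h1, h3⟩ := mem_filter.mp hp
    have h4 : (0 : ℝ) < p := by exact_mod_cast (mem_pr.mp h1).1.pos
    have h5 : (2 : ℝ) ≤ p := by exact_mod_cast (by omega : 2 ≤ p)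
    have h6 : (2 : ℝ) / p ≤ 1 := (div_le_one h4).mpr h5
    linarith
  have h2m : 2 ∈ pr e.w := mem_pr.mpr ⟨Nat.prime_two, hw2⟩
  have hone : ∀ p ∈ pr e.w, 0 ≤ 1 - (e.nu p : ℝ) / p ∧ 1 - (e.nu p : ℝ) / p ≤ 1 := by
    intro p hp
    have hp' := (mem_pr.mp hp).1
    have h1 : (2 : ℝ) ≤ p := by exact_mod_cast hp'.two_le
    have h3 : (e.nu p : ℝ) / p ≤ 1 := by
      rw [div_le_one (by linarith)]
      unfold Env.nu
      split_ifs
      · push_cast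
        linarith
      · push_cast
        linarith
    have h4 : 0 ≤ (e.nu p : ℝ) / p := by positivity
    exact ⟨by linarith, by linarith⟩
  have hVW : ∏ p ∈ pr e.w, (1 - (e.nu p : ℝ) / p) ≤ 1 / 2 := by
    rw [← Finset.mul_prod_erase _ _ h2m]
    have h3 : (1 : ℝ) - (e.nu 2 : ℝ) / (2 : ℕ) = 1 / 2 := by
      unfold Env.nu
      rw [if_pos hN0]
      norm_num
    rw [h3]
    have h4 : ∏ p ∈ (pr e.w).erase 2, (1 - (e.nu p : ℝ) / p) ≤ 1 :=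
      Finset.prod_le_one (fun p hp => (hone p (mem_of_mem_erase hp)).1) fun p hp => (hone p (mem_of_mem_erase hp)).2
    linarith
  unfold Env.MM
  push_cast
  nlinarith

/-- **(P3)** -/
theorem p3_of' : ∃ K : ℕ, 1 ≤ K ∧ ∀ b : ℕ, 1 ≤ b → ∀ e : Env, (K : ℝ) * (1 / 2) ^ b ≤ 1 / 4 → 2 ≤ e.w → e.w ≤ e.z → 2 ∣ e.N0 →
    1 ≤ e.U → (e.U : ℝ)⁻¹ ≤ e.MM 2 → (e.z : ℝ) ^ (26 * b) + 1 ≤ 1 / 4 * (e.Y * e.MM 2) → e.P3 := by
  classical
  obtain ⟨K, hK, hcnt⟩ := cnt 2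
  refine ⟨K, hK, fun b hb e hKb hw hwz hN0 hU hUM hz26 r k A L hr hk hYL => ?_⟩
  have hz : 2 ≤ e.z := by omega
  set P := (pr e.z).filter (fun p => e.w < p) with hP
  have hPm : ∀ p ∈ P, p.Prime ∧ p ≤ e.z ∧ e.w < p := fun p hp => by
    obtain ⟨h1, h2⟩ := mem_filter.mp hp
    exact ⟨(mem_pr.mp h1).1, (mem_pr.mp h1).2, h2⟩
  set F1 : Frm := ⟨e.W, r⟩ with hF1
  set F2 : Frm := ⟨e.W, r - k⟩ with hF2
  set Z : ℕ → Finset ℕ := fun p => rt F1 p ∪ rt F2 p with hZ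
  have hWp : ∀ p ∈ P, ¬ (p : ℤ) ∣ (e.W : ℤ) := fun p hp h =>
    not_dvd_W (hPm p hp).1 (hPm p hp).2.2 (Int.natCast_dvd_natCast.mp h)
  have hZc : ∀ p ∈ P, (Z p).card ≤ 2 := by
    intro p hp
    refine (card_union_le _ _).trans ?_
    rw [rt_card (hPm p hp).1 (hWp p hp), rt_card (hPm p hp).1 (hWp p hp)]
  have hZok : ∀ p ∈ P, (Z p).card ≤ 2 ∧ 3 * (Z p).card ≤ 2 * p ∧ ∀ x ∈ Z p, x < p := by
    intro p hp
    have h1 := hZc p hp
    have h2 := (hPm p hp).2.2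
    refine ⟨h1, by omega, fun x hx => ?_⟩
    rcases mem_union.mp hx with h | h
    · exact (mem_rt.mp h).1
    · exact (mem_rt.mp h).1
  have h1 := hcnt b hb e.z hz P (fun p hp => ⟨(hPm p hp).1, (hPm p hp).2.1⟩) Z hZok A (A + L) 1 0 (by omega) le_rfl
    (fun p hp hd => by
      have h2 := (hPm p hp).1.two_le
      have h3 := Nat.le_of_dvd one_pos hd
      omega)
  have h6 : ((Ioc A (A + L)).filter fun n => n ≡ 0 [MOD 1] ∧ ∀ p ∈ P, n % p ∉ Z p) =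
      (Ioc A (A + L)).filter fun n => ∀ p ∈ P, n % p ∉ Z p := by
    refine filter_congr fun n _ => ?_
    simp [Nat.modEq_one]
  rw [h6] at h1
  have h7 : (((A + L : ℕ) : ℝ) - A) / (1 : ℕ) = L := by
    push_cast
    rw [div_one]
    ring
  rw [h7] at h1
  have h5 := card_ico_ioc A L (fun n => ∀ p ∈ P, n % p ∉ Z p)
  set V := ∏ p ∈ P, (1 - ((Z p).card : ℝ) / p) with hV
  have hV2 : 2 * e.MM 2 ≤ V := by
    refine (MM_two_le e hw hN0).trans ?_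
    refine Finset.prod_le_prod (fun p hp => ?_) fun p hp => ?_
    · have h4 : (0 : ℝ) < p := by exact_mod_cast (hPm p hp).1.pos
      have h5 : (2 : ℝ) ≤ p := by exact_mod_cast (hPm p hp).1.two_le
      have h6 : (2 : ℝ) / p ≤ 1 := (div_le_one h4).mpr h5
      linarith
    · have h4 : (0 : ℝ) < p := by exact_mod_cast (hPm p hp).1.pos
      have h5 : ((Z p).card : ℝ) ≤ 2 := by exact_mod_cast hZc p hp
      have h6 : ((Z p).card : ℝ) / p ≤ 2 / p := div_le_div_of_nonneg_right h5 h4.le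
      linarith
  have hsub : ((Ico A (A + L)).filter fun n => ∀ p ∈ P, n % p ∉ Z p) ⊆ (Finset.Ico A (A + L)).filter fun n : ℕ =>
      Sf e.z ((r + e.W * n : ℕ) : ℤ) ∧ Sf e.z ((r + e.W * n : ℕ) - k) := by
    intro n hn
    obtain ⟨hn1, hn2⟩ := mem_filter.mp hn
    rw [mem_filter]
    have hev1 : F1.ev (n : ℤ) = ((r + e.W * n : ℕ) : ℤ) := by
      rw [hF1]
      unfold Frm.ev
      push_cast
      ring
    have hev2 : F2.ev (n : ℤ) = ((r + e.W * n : ℕ) : ℤ) - k := by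
      rw [hF2]
      unfold Frm.ev
      push_cast
      ring
    have hsm : ∀ p : ℕ, p.Prime → p ≤ e.w → ¬ (p : ℤ) ∣ ((r + e.W * n : ℕ) : ℤ) := by
      intro p hp hpw hd
      have h2 : p ∣ e.W := Int.natCast_dvd_natCast.mp (dvd_W hp hpw)
      have h3 : p ∣ r + e.W * n := Int.natCast_dvd_natCast.mp hd
      have h4 : p ∣ r := (Nat.dvd_add_left (h2.mul_right n)).mp h3
      exact hp.one_lt.ne' (Nat.dvd_one.mp (hr.gcd_eq_one ▸ Nat.dvd_gcd h4 h2))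
    refine ⟨hn1, fun p hp hpz hd => ?_, fun p hp hpz hd => ?_⟩
    · by_cases hpw : p ≤ e.w
      · exact hsm p hp hpw hd
      · have hpP : p ∈ P := mem_filter.mpr ⟨mem_pr.mpr ⟨hp, hpz⟩, by omega⟩
        refine hn2 p hpP (mem_union.mpr (Or.inl ?_))
        rw [mod_mem_rt hp.pos, hev1]
        exact hd
    · by_cases hpw : p ≤ e.w
      · refine hsm p hp hpw ?_
        have h2 : (p : ℤ) ∣ k := (dvd_W hp hpw).trans hk
        have h3 := dvd_add hd h2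
        rwa [sub_add_cancel] at h3
      · have hpP : p ∈ P := mem_filter.mpr ⟨mem_pr.mpr ⟨hp, hpz⟩, by omega⟩
        refine hn2 p hpP (mem_union.mpr (Or.inr ?_))
        rw [mod_mem_rt hp.pos, hev2]
        exact hd
  have hc := card_le_card hsub
  have hcR : (((Ico A (A + L)).filter fun n => ∀ p ∈ P, n % p ∉ Z p).card : ℝ) ≤
      (((Finset.Ico A (A + L)).filter fun n : ℕ =>
        Sf e.z ((r + e.W * n : ℕ) : ℤ) ∧ Sf e.z ((r + e.W * n : ℕ) - k)).card : ℝ) := by exact_mod_cast hc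
  have hUR : (0 : ℝ) < e.U := by exact_mod_cast (by omega : 0 < e.U)
  have hM0 : 0 ≤ e.MM 2 := (inv_nonneg.mpr hUR.le).trans hUM
  have hL0 : (0 : ℝ) ≤ L := Nat.cast_nonneg L
  have hYL' : (e.Y : ℝ) ≤ L := by exact_mod_cast hYL
  have h8 : (e.Y : ℝ) * e.MM 2 ≤ L * e.MM 2 := mul_le_mul_of_nonneg_right hYL' hM0
  have h9 : (L : ℝ) * (2 * e.MM 2) ≤ L * V := mul_le_mul_of_nonneg_left hV2 hL0
  have hLV : 0 ≤ (L : ℝ) * V := mul_nonneg hL0 (by linarith)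
  have h10 : (K : ℝ) * (1 / 2) ^ b * (L * V) ≤ 1 / 4 * (L * V) := mul_le_mul_of_nonneg_right hKb hLV
  obtain ⟨h15, h16⟩ := abs_le.mp h1
  obtain ⟨h17, h18⟩ := abs_le.mp h5
  have h19 : (L : ℝ) * e.MM 2 ≤ (((Finset.Ico A (A + L)).filter fun n : ℕ =>
        Sf e.z ((r + e.W * n : ℕ) : ℤ) ∧ Sf e.z ((r + e.W * n : ℕ) - k)).card : ℝ) := by
    linarith
  have h20 : (L : ℝ) * (e.U : ℝ)⁻¹ ≤ L * e.MM 2 := mul_le_mul_of_nonneg_left hUM hL0
  have h21 : (L : ℝ) = e.U * (L * (e.U : ℝ)⁻¹) := by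
    field_simp
  calc (L : ℝ) = e.U * (L * (e.U : ℝ)⁻¹) := h21
    _ ≤ e.U * _ := mul_le_mul_of_nonneg_left (h20.trans h19) hUR.le

/-- **(P3)**, in the form of the interface -/
theorem p3_of : ∃ K : ℕ, 1 ≤ K ∧ ∀ b : ℕ, 1 ≤ b → ∀ e : Env, (K : ℝ) * (1 / 2) ^ b ≤ 1 / 4 → 6 ≤ e.w → e.w ≤ e.z → 2 ∣ e.N0 →
    (e.z : ℝ) ^ (26 * b) + 1 ≤ 1 / 4 * (e.Y * e.MM 2) → 2 ≤ e.U * e.MM 2 → e.P3 := by
  obtain ⟨K, hK, H⟩ := p3_of'
  refine ⟨K, hK, fun b hb e hKb hw hwz hN0 hz26 hU => ?_⟩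
  have hU1 : 1 ≤ e.U := by
    by_contra h
    have h1 : e.U = 0 := by omega
    rw [h1] at hU
    push_cast at hU
    linarith
  have hUR : (0 : ℝ) < e.U := by exact_mod_cast (by omega : 0 < e.U)
  refine H b hb e hKb (by omega) hwz hN0 hU1 ?_ hz26
  rw [inv_le_iff_one_le_mul₀ hUR]
  linarith [mul_comm (e.U : ℝ) (e.MM 2)]

end Pool.Agent.Lib.EX.AX
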