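import Pool.Agent.Lib.MP_61161c_nt.EX.Defs

/-!
# EX, module ARoots: roots of forms modulo primes, the forbidden classes of a scheme
-/

set_option autoImplicit false

open Finset
open Pool.Agent.Lib.GT (pr)

namespace Pool.Agent.Lib.EX.AX

theorem mem_pr {z p : ℕ} : p ∈ pr z ↔ p.Prime ∧ p ≤ z := by
  unfold pr
  rw [mem_filter, mem_range]
  constructor
  · rintro ⟨h1, h2⟩; exact ⟨h2, by omega⟩
  · rintro ⟨h1, h2⟩; exact ⟨by omega, h1⟩

theorem ev_mod (F : Frm) (p y : ℕ) : (p : ℤ) ∣ F.ev ((y % p : ℕ) : ℤ) ↔ (p : ℤ) ∣ F.ev y := by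
  unfold Frm.ev
  have h1 : (y : ℤ) = ((y % p : ℕ) : ℤ) + p * ((y / p : ℕ) : ℤ) := by
    have := Nat.mod_add_div y p
    exact_mod_cast this.symm
  have h : F.a * (y : ℤ) + F.b = (F.a * ((y % p : ℕ) : ℤ) + F.b) + p * (F.a * ((y / p : ℕ) : ℤ)) := by
    conv_lhs => rw [h1]
    ring
  rw [h]
  exact (Int.dvd_add_left (Dvd.intro _ rfl)).symm

open Classical in
/-- the roots of a form modulo `p` -/
noncomputable def rt (F : Frm) (p : ℕ) : Finset ℕ := (range p).filter fun x => (p : ℤ) ∣ F.ev (x : ℤ)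

theorem mem_rt {F : Frm} {p x : ℕ} : x ∈ rt F p ↔ x < p ∧ (p : ℤ) ∣ F.ev (x : ℤ) := by
  unfold rt
  rw [mem_filter, mem_range]

theorem mod_mem_rt {F : Frm} {p y : ℕ} (hp : 0 < p) : y % p ∈ rt F p ↔ (p : ℤ) ∣ F.ev (y : ℤ) := by
  rw [mem_rt, ev_mod]
  exact ⟨fun h => h.2, fun h => ⟨Nat.mod_lt _ hp, h⟩⟩

theorem ev_det (F F' : Frm) (x : ℤ) : F.a * F'.ev x - F'.a * F.ev x = F.a * F'.b - F'.a * F.b := by
  unfold Frm.ev
  ring

theorem rt_det {F F' : Frm} {p x : ℕ} (h : x ∈ rt F p) (h' : x ∈ rt F' p) : (p : ℤ) ∣ F.a * F'.b - F'.a * F.b := by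
  rw [← ev_det F F' x]
  exact dvd_sub ((mem_rt.mp h').2.mul_left _) ((mem_rt.mp h).2.mul_left _)

theorem det_rt {F F' : Frm} {p : ℕ} (hp : p.Prime) (hl : ¬ (p : ℤ) ∣ F.a) (hd : (p : ℤ) ∣ F.a * F'.b - F'.a * F.b) {x : ℕ}
    (h : x ∈ rt F p) : x ∈ rt F' p := by
  rw [mem_rt] at h ⊢
  refine ⟨h.1, ?_⟩
  have h1 : (p : ℤ) ∣ F.a * F'.ev x := by
    have h2 : F.a * F'.ev x = (F.a * F'.b - F'.a * F.b) + F'.a * F.ev x := by rw [← ev_det F F' x]; ring
    rw [h2]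
    exact dvd_add hd (h.2.mul_left _)
  exact ((Nat.prime_iff_prime_int.mp hp).dvd_or_dvd h1).resolve_left hl

theorem rt_card {F : Frm} {p : ℕ} (hp : p.Prime) (hl : ¬ (p : ℤ) ∣ F.a) : (rt F p).card = 1 := by
  classical
  have : Fact p.Prime := ⟨hp⟩
  have hne : ((F.a : ℤ) : ZMod p) ≠ 0 := by
    rwa [Ne, ZMod.intCast_zmod_eq_zero_iff_dvd]
  have key : ∀ x : ℕ, (p : ℤ) ∣ F.ev x ↔ (x : ZMod p) = -(F.b : ZMod p) * (F.a : ZMod p)⁻¹ := by
    intro x
    rw [← ZMod.intCast_zmod_eq_zero_iff_dvd]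
    unfold Frm.ev
    push_cast
    constructor
    · intro h
      field_simp
      linear_combination h
    · intro h
      rw [h]
      field_simp
      ring
  rw [card_eq_one]
  refine ⟨(-(F.b : ZMod p) * (F.a : ZMod p)⁻¹).val, ?_⟩
  ext x
  rw [mem_rt, mem_singleton, key x]
  constructor
  · rintro ⟨h1, h2⟩
    rw [← h2, ZMod.val_cast_of_lt h1]
  · intro h
    refine ⟨?_, ?_⟩
    · rw [h]; exact ZMod.val_lt _
    · rw [h, ZMod.natCast_val, ZMod.cast_id', id]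

/-- `N0 - t` as a form -/
def co (N0 : ℕ) (t : Frm) : Frm := ⟨-t.a, N0 - t.b⟩

theorem co_ev (N0 : ℕ) (t : Frm) (n : ℤ) : (co N0 t).ev n = N0 - t.ev n := by
  unfold co Frm.ev
  ring

open Classical in
/-- the forbidden classes -/
noncomputable def Zs (e : Env) (t : Frm) (Fs : List Frm) (p : ℕ) : Finset ℕ :=
  if p ≤ e.w then rt t p ∪ rt (co e.N0 t) p else Fs.toFinset.biUnion fun F => rt F p

theorem Zs_lt {e : Env} {t : Frm} {Fs : List Frm} {p x : ℕ} (h : x ∈ Zs e t Fs p) : x < p := by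
  classical
  unfold Zs at h
  split_ifs at h with h1
  · rcases mem_union.mp h with h | h
    · exact (mem_rt.mp h).1
    · exact (mem_rt.mp h).1
  · obtain ⟨F, -, h2⟩ := mem_biUnion.mp h
    exact (mem_rt.mp h2).1

theorem mod_mem_Zs {e : Env} {t : Frm} {Fs : List Frm} {p y : ℕ} (hp : p.Prime) :
    y % p ∈ Zs e t Fs p ↔ if p ≤ e.w then (p : ℤ) ∣ t.ev (y : ℤ) ∨ (p : ℤ) ∣ e.N0 - t.ev (y : ℤ) else ∃ F ∈ Fs, (p : ℤ) ∣ F.ev (y : ℤ) := by
  classical
  unfold Zs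
  split_ifs with h1
  · rw [mem_union, mod_mem_rt hp.pos, mod_mem_rt hp.pos, co_ev]
  · rw [mem_biUnion]
    exact ⟨fun ⟨F, h2, h3⟩ => ⟨F, List.mem_toFinset.mp h2, (mod_mem_rt hp.pos).mp h3⟩,
      fun ⟨F, h2, h3⟩ => ⟨F, List.mem_toFinset.mpr h2, (mod_mem_rt hp.pos).mpr h3⟩⟩

theorem dvd_W {e : Env} {p : ℕ} (hp : p.Prime) (hpw : p ≤ e.w) : (p : ℤ) ∣ (e.W : ℤ) := by
  have : p ∣ primorial e.w := (hp.dvd_primorial_iff).mpr hpw
  exact_mod_cast this

theorem coprime_W {e : Env} {x : ℤ} : IsCoprime x (e.W : ℤ) ↔ ∀ p : ℕ, p.Prime → p ≤ e.w → ¬ (p : ℤ) ∣ x := by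
  constructor
  · intro h p hp hpw hd
    have h1 := h.of_isCoprime_of_dvd_left hd |>.of_isCoprime_of_dvd_right (dvd_W hp hpw)
    exact (Nat.prime_iff_prime_int.mp hp).not_isUnit (isCoprime_self.mp h1)
  · intro h
    have h2 : ((e.W : ℕ) : ℤ) = ∏ p ∈ (range (e.w + 1)).filter Nat.Prime, (p : ℤ) := by
      unfold Env.W primorial
      push_cast
      rfl
    rw [h2]
    refine IsCoprime.prod_right fun p hp => ?_
    obtain ⟨h3, h4⟩ := mem_filter.mp hp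
    have h5 := h p h4 (by have := mem_range.mp h3; omega)
    rw [Int.isCoprime_iff_gcd_eq_one, Int.gcd_comm, ← Int.isCoprime_iff_gcd_eq_one]
    exact ((Nat.prime_iff_prime_int.mp h4).coprime_iff_not_dvd).mpr h5

theorem typ_dvd {e : Env} {t F : Frm} (h : e.Typ t F) {p : ℕ} (hp : p.Prime) (hpw : p ≤ e.w) {n : ℤ} (hd : (p : ℤ) ∣ F.ev n) :
    (p : ℤ) ∣ t.ev n ∨ (p : ℤ) ∣ e.N0 - t.ev n := by
  obtain ⟨c, hc, h1⟩ := h
  have hpc : ¬ (p : ℤ) ∣ c := coprime_W.mp hc p hp hpw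
  have hpp := Nat.prime_iff_prime_int.mp hp
  rcases h1 with ⟨h2, h3⟩ | ⟨h2, h3⟩
  · left
    have h4 : (p : ℤ) ∣ c * t.ev n := by
      have h5 : c * t.ev n = F.ev n - ((F.a - c * t.a) * n + (F.b - c * t.b)) := by unfold Frm.ev; ring
      rw [h5]
      exact dvd_sub hd (dvd_add (((dvd_W hp hpw).trans h2).mul_right _) ((dvd_W hp hpw).trans h3))
    exact (hpp.dvd_or_dvd h4).resolve_left hpc
  · right
    have h4 : (p : ℤ) ∣ c * (e.N0 - t.ev n) := by
      have h5 : c * (e.N0 - t.ev n) = F.ev n - ((F.a + c * t.a) * n + (F.b - c * (e.N0 - t.b))) := by unfold Frm.ev; ring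
      rw [h5]
      exact dvd_sub hd (dvd_add (((dvd_W hp hpw).trans h2).mul_right _) ((dvd_W hp hpw).trans h3))
    exact (hpp.dvd_or_dvd h4).resolve_left hpc

/-- the sifted set avoids the forbidden classes -/
theorem mem_SS_iff {e : Env} {B : ℕ} {t : Frm} {Fs : List Frm} (h : e.SOk B t Fs) (hwz : e.w ≤ e.z) {A L n : ℕ} :
    n ∈ e.SS t Fs A L ↔ n ∈ Ico A (A + L) ∧ ∀ p ∈ pr e.z, n % p ∉ Zs e t Fs p := by
  classical
  unfold Env.SS
  rw [mem_filter]
  refine and_congr_right fun _ => ?_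
  constructor
  · rintro ⟨h1, h2⟩ p hp hmem
    obtain ⟨h3, h4⟩ := mem_pr.mp hp
    rw [mod_mem_Zs h3] at hmem
    split_ifs at hmem with h5
    · refine coprime_W.mp h1 p h3 h5 ?_
      rcases hmem with h6 | h6
      · exact h6.mul_right _
      · exact h6.mul_left _
    · obtain ⟨F, hF, h6⟩ := hmem
      exact h2 F hF p h3 h4 h6
  · intro hno
    have hno' : ∀ p : ℕ, p.Prime → p ≤ e.z →
        ¬ (if p ≤ e.w then (p : ℤ) ∣ t.ev (n : ℤ) ∨ (p : ℤ) ∣ e.N0 - t.ev (n : ℤ) else ∃ F ∈ Fs, (p : ℤ) ∣ F.ev (n : ℤ)) := by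
      intro p hp hpz
      have h1 := hno p (mem_pr.mpr ⟨hp, hpz⟩)
      rwa [mod_mem_Zs hp] at h1
    refine ⟨coprime_W.mpr fun p hp hpw hd => ?_, fun F hF p hp hpz hd => ?_⟩
    · have h1 := hno' p hp (hpw.trans hwz)
      rw [if_pos hpw] at h1
      exact h1 ((Nat.prime_iff_prime_int.mp hp).dvd_or_dvd hd)
    · have h1 := hno' p hp hpz
      by_cases hpw : p ≤ e.w
      · rw [if_pos hpw] at h1
        exact h1 (typ_dvd (h.ty F hF) hp hpw hd)
      · rw [if_neg hpw] at h1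
        exact h1 ⟨F, hF, hd⟩

/-- the number of forbidden classes at a small prime -/
theorem card_Zs_small {e : Env} {B : ℕ} {t : Frm} {Fs : List Frm} (h : e.SOk B t Fs) {p : ℕ} (hp : p.Prime) (hpw : p ≤ e.w) :
    (Zs e t Fs p).card = e.nu p := by
  classical
  have hta : ¬ (p : ℤ) ∣ t.a := coprime_W.mp h.ta p hp hpw
  have hta' : ¬ (p : ℤ) ∣ (co e.N0 t).a := by
    unfold co
    rwa [dvd_neg]
  have e1 : (rt t p).card = 1 := rt_card hp hta
  have e2 : (rt (co e.N0 t) p).card = 1 := rt_card hp hta'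
  unfold Zs Env.nu
  rw [if_pos hpw]
  obtain ⟨x1, h1⟩ := card_eq_one.mp e1
  obtain ⟨x2, h2⟩ := card_eq_one.mp e2
  have hdet : t.a * (co e.N0 t).b - (co e.N0 t).a * t.b = t.a * e.N0 := by
    unfold co
    ring
  split_ifs with h3
  · have h4 : (p : ℤ) ∣ t.a * (co e.N0 t).b - (co e.N0 t).a * t.b := by
      rw [hdet]
      exact (Int.natCast_dvd_natCast.mpr h3).mul_left _
    have h5 : x1 ∈ rt (co e.N0 t) p := det_rt hp hta h4 (by rw [h1]; exact mem_singleton_self _)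
    rw [h2, mem_singleton] at h5
    rw [h1, h2, h5, union_self, card_singleton]
  · rw [h1, h2]
    have h4 : x1 ≠ x2 := by
      intro h5
      have h6 : (p : ℤ) ∣ t.a * (co e.N0 t).b - (co e.N0 t).a * t.b :=
        rt_det (x := x1) (by rw [h1]; exact mem_singleton_self _) (by rw [h2, h5]; exact mem_singleton_self _)
      rw [hdet] at h6
      rcases (Nat.prime_iff_prime_int.mp hp).dvd_or_dvd h6 with h7 | h7
      · exact hta h7
      · exact h3 (Int.natCast_dvd_natCast.mp h7)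
    rw [card_union_of_disjoint (disjoint_singleton.mpr h4)]
    simp

theorem nodup_of_np {Fs : List Frm} (h : Fs.Pairwise Frm.NP) : Fs.Nodup := by
  refine h.imp fun {a b} hab heq => ?_
  subst heq
  exact hab rfl

/-- at the primes `> w` there are at most `|Fs|` forbidden classes -/
theorem card_Zs_le {e : Env} {B : ℕ} {t : Frm} {Fs : List Frm} (h : e.SOk B t Fs) {p : ℕ} (hp : p.Prime) (hpw : ¬ p ≤ e.w)
    (hpz : p ≤ e.z) : (Zs e t Fs p).card ≤ Fs.length := by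
  classical
  unfold Zs
  rw [if_neg hpw]
  refine card_biUnion_le.trans ?_
  rw [sum_congr rfl fun F hF => rt_card hp (h.sa F (List.mem_toFinset.mp hF) p hp hpz), sum_const, smul_eq_mul, mul_one]
  exact List.toFinset_card_le _

/-- with equality if `p` divides no determinant -/
theorem card_Zs_eq {e : Env} {B : ℕ} {t : Frm} {Fs : List Frm} (h : e.SOk B t Fs) {p : ℕ} (hp : p.Prime) (hpw : ¬ p ≤ e.w)
    (hpz : p ≤ e.z) (hd : ∀ F ∈ Fs, ∀ F' ∈ Fs, F ≠ F' → ¬ (p : ℤ) ∣ F.a * F'.b - F'.a * F.b) : (Zs e t Fs p).card = Fs.length := by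
  classical
  unfold Zs
  rw [if_neg hpw, card_biUnion]
  · rw [sum_congr rfl fun F hF => rt_card hp (h.sa F (List.mem_toFinset.mp hF) p hp hpz), sum_const, smul_eq_mul, mul_one]
    exact List.toFinset_card_of_nodup (nodup_of_np h.np)
  · intro F hF F' hF' hne
    show Disjoint (rt F p) (rt F' p)
    rw [disjoint_left]
    intro x h1 h2
    exact hd F (List.mem_toFinset.mp hF) F' (List.mem_toFinset.mp hF') hne (rt_det h1 h2)

theorem np_of_ne {Fs : List Frm} (h : Fs.Pairwise Frm.NP) {F F' : Frm} (hF : F ∈ Fs) (hF' : F' ∈ Fs) (hne : F ≠ F') :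
    F.a * F'.b - F'.a * F.b ≠ 0 := by
  have hsymm : Std.Symm Frm.NP := ⟨fun x y hxy heq => hxy (by
    show x.a * y.b = y.a * x.b
    have : y.a * x.b = x.a * y.b := heq
    exact this.symm)⟩
  have h1 : Frm.NP F F' := h.forall hF hF' hne
  exact sub_ne_zero.mpr h1

end Pool.Agent.Lib.EX.AX
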