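import Mathlib

set_option autoImplicit false

/-!
Abstract second moment step: a point `t` all of whose good paths are bad is rare.
-/

open Finset

namespace Pool.Agent.Lib.EX

open Classical in
/-- second moment: if the number `P t` of admissible paths at `t` has mean `mu` and small variance, and few pairs
`(path, point)` are bad, then few points have only bad paths -/
theorem abs2 {ι τ : Type*} (T : Finset ι) (Th : Finset τ) (ok bad : τ → ι → Prop) (a f M mu : ℝ)
    (_ha : 0 ≤ a) (_hf : 0 ≤ f) (_hM : 0 ≤ M) (hmu : 0 < mu)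
    (h1 : (1 - a) * M * mu ≤ ∑ t ∈ T, ((Th.filter fun θ => ok θ t).card : ℝ))
    (h2 : ∑ t ∈ T, ((Th.filter fun θ => ok θ t).card : ℝ) ^ 2 ≤ (1 + a) * M * mu ^ 2)
    (h3 : (T.card : ℝ) ≤ (1 + a) * M)
    (h4 : ∑ t ∈ T, ((Th.filter fun θ => ok θ t ∧ bad θ t).card : ℝ) ≤ f * M * mu) :
    ((T.filter fun t => ∀ θ ∈ Th, ok θ t → bad θ t).card : ℝ) ≤ (16 * a + 2 * f) * M := by
  set P : ι → ℝ := fun t => ((Th.filter fun θ => ok θ t).card : ℝ) with hP
  set Q : ι → ℝ := fun t => ((Th.filter fun θ => ok θ t ∧ bad θ t).card : ℝ) with hQ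
  set B := T.filter fun t => ∀ θ ∈ Th, ok θ t → bad θ t with hB
  have hvar : ∑ t ∈ T, (P t - mu) ^ 2 ≤ 4 * a * M * mu ^ 2 := by
    have e : ∑ t ∈ T, (P t - mu) ^ 2 = ∑ t ∈ T, P t ^ 2 - 2 * mu * ∑ t ∈ T, P t + mu ^ 2 * T.card := by
      rw [Finset.mul_sum, ← Finset.sum_sub_distrib]
      have : mu ^ 2 * (T.card : ℝ) = ∑ _t ∈ T, mu ^ 2 := by
        rw [Finset.sum_const, nsmul_eq_mul, mul_comm]
      rw [this, ← Finset.sum_add_distrib]
      exact Finset.sum_congr rfl fun t _ => by ring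
    rw [e]
    have g1 : 2 * mu * ((1 - a) * M * mu) ≤ 2 * mu * ∑ t ∈ T, P t :=
      mul_le_mul_of_nonneg_left h1 (by positivity)
    have g2 : mu ^ 2 * (T.card : ℝ) ≤ mu ^ 2 * ((1 + a) * M) :=
      mul_le_mul_of_nonneg_left h3 (by positivity)
    have g3 : ∑ t ∈ T, P t ^ 2 ≤ (1 + a) * M * mu ^ 2 := h2
    nlinarith [g1, g2, g3]
  have hBsub : B ⊆ T := Finset.filter_subset _ _
  -- the two parts of `B`
  have hsplit : B.card = (B.filter fun t => P t < mu / 2).card + (B.filter fun t => ¬ P t < mu / 2).card :=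
    (Finset.card_filter_add_card_filter_not (fun t => P t < mu / 2)).symm
  have c1 : ((B.filter fun t => P t < mu / 2).card : ℝ) * (mu ^ 2 / 4) ≤ 4 * a * M * mu ^ 2 := by
    calc ((B.filter fun t => P t < mu / 2).card : ℝ) * (mu ^ 2 / 4)
        = ∑ _t ∈ B.filter (fun t => P t < mu / 2), mu ^ 2 / 4 := by
          rw [Finset.sum_const, nsmul_eq_mul]
      _ ≤ ∑ t ∈ B.filter (fun t => P t < mu / 2), (P t - mu) ^ 2 := by
          apply Finset.sum_le_sum
          intro t ht
          have h5 : P t < mu / 2 := (Finset.mem_filter.mp ht).2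
          nlinarith
      _ ≤ ∑ t ∈ T, (P t - mu) ^ 2 :=
          Finset.sum_le_sum_of_subset_of_nonneg ((Finset.filter_subset _ _).trans hBsub)
            fun t _ _ => sq_nonneg _
      _ ≤ _ := hvar
  have c2 : ((B.filter fun t => ¬ P t < mu / 2).card : ℝ) * (mu / 2) ≤ f * M * mu := by
    calc ((B.filter fun t => ¬ P t < mu / 2).card : ℝ) * (mu / 2)
        = ∑ _t ∈ B.filter (fun t => ¬ P t < mu / 2), mu / 2 := by
          rw [Finset.sum_const, nsmul_eq_mul]
      _ ≤ ∑ t ∈ B.filter (fun t => ¬ P t < mu / 2), Q t := by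
          apply Finset.sum_le_sum
          intro t ht
          have h5 := Finset.mem_filter.mp ht
          have h6 : ∀ θ ∈ Th, ok θ t → bad θ t := (Finset.mem_filter.mp h5.1).2
          have h7 : Q t = P t := by
            simp only [hQ, hP]
            congr 2
            apply Finset.filter_congr
            intro θ hθ
            exact ⟨fun h => h.1, fun h => ⟨h, h6 θ hθ h⟩⟩
          rw [h7]
          exact not_lt.mp h5.2
      _ ≤ ∑ t ∈ T, Q t :=
          Finset.sum_le_sum_of_subset_of_nonneg ((Finset.filter_subset _ _).trans hBsub)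
            fun t _ _ => Nat.cast_nonneg _
      _ ≤ _ := h4
  have d1 : ((B.filter fun t => P t < mu / 2).card : ℝ) ≤ 16 * a * M := by
    have hmu2 : 0 < mu ^ 2 / 4 := by positivity
    have : ((B.filter fun t => P t < mu / 2).card : ℝ) * (mu ^ 2 / 4) ≤ (16 * a * M) * (mu ^ 2 / 4) := by
      linarith
    exact le_of_mul_le_mul_right this hmu2
  have d2 : ((B.filter fun t => ¬ P t < mu / 2).card : ℝ) ≤ 2 * f * M := by
    have hmu2 : 0 < mu / 2 := by positivity
    have : ((B.filter fun t => ¬ P t < mu / 2).card : ℝ) * (mu / 2) ≤ (2 * f * M) * (mu / 2) := by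
      linarith
    exact le_of_mul_le_mul_right this hmu2
  have e1 : (B.card : ℝ) = ((B.filter fun t => P t < mu / 2).card : ℝ) +
      ((B.filter fun t => ¬ P t < mu / 2).card : ℝ) := by
    exact_mod_cast hsplit
  rw [e1]
  linarith

open Classical in
/-- double counting -/
theorem sum_card_swap {ι τ : Type*} (T : Finset ι) (Th : Finset τ) (R : τ → ι → Prop) :
    ∑ t ∈ T, ((Th.filter fun θ => R θ t).card : ℝ) = ∑ θ ∈ Th, ((T.filter fun t => R θ t).card : ℝ) := by
  simp only [Finset.card_filter, Nat.cast_sum]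
  exact Finset.sum_comm

open Classical in
/-- double counting of pairs -/
theorem sum_card_sq_swap {ι τ : Type*} (T : Finset ι) (Th : Finset τ) (ok : τ → ι → Prop) :
    ∑ t ∈ T, ((Th.filter fun θ => ok θ t).card : ℝ) ^ 2 =
      ∑ θ ∈ Th, ∑ θ' ∈ Th, ((T.filter fun t => ok θ t ∧ ok θ' t).card : ℝ) := by
  have e1 : ∀ t, ((Th.filter fun θ => ok θ t).card : ℝ) ^ 2 =
      ∑ θ ∈ Th, ∑ θ' ∈ Th, (if ok θ t ∧ ok θ' t then (1 : ℝ) else 0) := by
    intro t
    have e2 : ((Th.filter fun θ => ok θ t).card : ℝ) = ∑ θ ∈ Th, (if ok θ t then (1 : ℝ) else 0) := by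
      simp only [Finset.card_filter, Nat.cast_sum, Nat.cast_ite, Nat.cast_one, Nat.cast_zero]
    rw [e2, sq, Finset.sum_mul_sum]
    refine Finset.sum_congr rfl fun θ _ => Finset.sum_congr rfl fun θ' _ => ?_
    by_cases h : ok θ t <;> by_cases h' : ok θ' t <;> simp [h, h']
  rw [Finset.sum_congr rfl fun t _ => e1 t, Finset.sum_comm]
  refine Finset.sum_congr rfl fun θ _ => ?_
  rw [Finset.sum_comm]
  refine Finset.sum_congr rfl fun θ' _ => ?_
  simp only [Finset.card_filter, Nat.cast_sum, Nat.cast_ite, Nat.cast_one, Nat.cast_zero]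

open Classical in
/-- `abs2` with the sums over the paths outside -/
theorem abs2' {ι τ : Type*} (T : Finset ι) (Th : Finset τ) (ok bad : τ → ι → Prop) (a f M mu : ℝ)
    (ha : 0 ≤ a) (hf : 0 ≤ f) (hM : 0 ≤ M) (hmu : 0 < mu)
    (h1 : (1 - a) * M * mu ≤ ∑ θ ∈ Th, ((T.filter fun t => ok θ t).card : ℝ))
    (h2 : ∑ θ ∈ Th, ∑ θ' ∈ Th, ((T.filter fun t => ok θ t ∧ ok θ' t).card : ℝ) ≤ (1 + a) * M * mu ^ 2)
    (h3 : (T.card : ℝ) ≤ (1 + a) * M)
    (h4 : ∑ θ ∈ Th, ((T.filter fun t => ok θ t ∧ bad θ t).card : ℝ) ≤ f * M * mu) :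
    ((T.filter fun t => ∀ θ ∈ Th, ok θ t → bad θ t).card : ℝ) ≤ (16 * a + 2 * f) * M := by
  apply abs2 T Th ok bad a f M mu ha hf hM hmu
  · rwa [sum_card_swap T Th ok]
  · rwa [sum_card_sq_swap T Th ok]
  · exact h3
  · refine le_trans (le_of_eq ?_) h4
    simp only [Finset.card_filter, Nat.cast_sum]
    exact Finset.sum_comm

end Pool.Agent.Lib.EX
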