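import Pool.Agent.Lib.MP_61161c_nt.EX.Cp

/-!
# EX, module Tf: types, leading coefficients and sizes of the eleven interior forms
-/

set_option autoImplicit false

open Finset

namespace Pool.Agent.Lib.EX

variable {e : Env} {k0 B cr : ℕ} {eps g : ℤ} {Ns qs : ℕ} {k : ℤ} {qlo qhi : ℕ} {s dl : ℝ} {a0 lo hi : ℤ}
  {t : Frm} {Fs : List Frm} {A L : ℕ} {G : Frm}

/-- the members of the family: unfolding of `TT` and `Qs` -/
theorem tt_mem {θ : Th} (h : θ ∈ e.TT qs qlo qhi k G.a) :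
    (qlo ≤ θ.q ∧ θ.q ≤ qhi ∧ (qlo : ℤ) ≤ θ.q - k ∧ θ.q - k ≤ qhi ∧ θ.q ≡ qs [MOD e.W] ∧ e.Gd θ.q ∧ e.Gd (θ.q - k) ∧
      IsCoprime (θ.q : ℤ) (θ.q - k) ∧ IsCoprime (θ.q : ℤ) G.a ∧ IsCoprime (θ.q - k) G.a) ∧
    θ.n1 ∈ e.E ∧ θ.n1' ∈ e.E ∧ θ.n2 ∈ e.E ∧ θ.n2' ∈ e.E := by
  classical
  unfold Env.TT at h
  rw [mem_image] at h
  obtain ⟨x, hx, rfl⟩ := h
  rw [mem_product, mem_product, mem_product, mem_product] at hx
  obtain ⟨hq, ⟨h1, h2⟩, h3, h4⟩ := hx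
  unfold Env.Qs at hq
  rw [mem_filter, mem_Icc] at hq
  obtain ⟨⟨a1, a2⟩, a3, a4, a5, a6, a7, a8, a9, a10, -, -⟩ := hq
  exact ⟨⟨a1, a2, a3, a4, a5, a6, a7, a8, a9, a10⟩, h1, h2, h3, h4⟩

theorem tt_card : (e.TT qs qlo qhi k G.a).card = (e.Qs qs qlo qhi k G.a).card * e.E.card ^ 4 := by
  classical
  unfold Env.TT
  rw [card_image_of_injective, card_product, card_product, card_product]
  · ring
  · intro x y hxy
    rw [Th.mk.injEq] at hxy
    obtain ⟨h1, h2, h3, h4, h5⟩ := hxy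
    exact Prod.ext h1 (Prod.ext (Prod.ext h2 h3) (Prod.ext h4 h5))

private theorem Tf_same {F F' : Frm} (h : e.Ext t F) (h1 : (e.W : ℤ) ∣ F'.a - F.a) (h2 : (e.W : ℤ) ∣ F'.b - F.b) :
    e.Ext t F' := by
  rcases h with ⟨h3, h4⟩ | ⟨h3, h4⟩
  · left
    refine ⟨?_, ?_⟩
    · have : F'.a - t.a = (F'.a - F.a) + (F.a - t.a) := by ring
      rw [this]; exact dvd_add h1 h3
    · have : F'.b - t.b = (F'.b - F.b) + (F.b - t.b) := by ring
      rw [this]; exact dvd_add h2 h4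
  · right
    refine ⟨?_, ?_⟩
    · have : F'.a + t.a = (F'.a - F.a) + (F.a + t.a) := by ring
      rw [this]; exact dvd_add h1 h3
    · have : F'.b - (e.N0 - t.b) = (F'.b - F.b) + (F.b - (e.N0 - t.b)) := by ring
      rw [this]; exact dvd_add h2 h4

private theorem Tf_refl {F F' : Frm} (h : e.Ext t F) (h1 : (e.W : ℤ) ∣ F'.a + F.a)
    (h2 : (e.W : ℤ) ∣ F'.b + F.b - e.N0) : e.Ext t F' := by
  rcases h with ⟨h3, h4⟩ | ⟨h3, h4⟩
  · right
    refine ⟨?_, ?_⟩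
    · have : F'.a + t.a = (F'.a + F.a) - (F.a - t.a) := by ring
      rw [this]; exact dvd_sub h1 h3
    · have : F'.b - (e.N0 - t.b) = (F'.b + F.b - e.N0) - (F.b - t.b) := by ring
      rw [this]; exact dvd_sub h2 h4
  · left
    refine ⟨?_, ?_⟩
    · have : F'.a - t.a = (F'.a + F.a) - (F.a + t.a) := by ring
      rw [this]; exact dvd_sub h1 h3
    · have : F'.b - t.b = (F'.b + F.b - e.N0) - (F.b - (e.N0 - t.b)) := by ring
      rw [this]; exact dvd_sub h2 h4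

private theorem Tf_typ {F : Frm} (h : e.Ext t F) : e.Typ t F := by
  refine ⟨1, isCoprime_one_left, ?_⟩
  rcases h with ⟨h3, h4⟩ | ⟨h3, h4⟩
  · left
    rw [one_mul, one_mul]
    exact ⟨h3, h4⟩
  · right
    rw [one_mul, one_mul]
    exact ⟨h3, h4⟩

private theorem Tf_low {F : Frm} (h : e.Ext t F) {q N : ℤ} {c : ℤ} (hq : (e.W : ℤ) ∣ q - c)
    (hN : (e.W : ℤ) ∣ N - e.N0) (hc : IsCoprime c (e.W : ℤ)) : e.Typ t (F.af (-c) (q * N)) := by
  refine ⟨c, hc, ?_⟩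
  have hz : (e.W : ℤ) ∣ (q - c) * N + c * (N - e.N0) := dvd_add (hq.mul_right _) (hN.mul_left _)
  rcases h with ⟨h3, h4⟩ | ⟨h3, h4⟩
  · right
    refine ⟨?_, ?_⟩
    · show (e.W : ℤ) ∣ -c * F.a + c * t.a
      have : -c * F.a + c * t.a = -c * (F.a - t.a) := by ring
      rw [this]; exact h3.mul_left _
    · show (e.W : ℤ) ∣ -c * F.b + q * N - c * (e.N0 - t.b)
      have : -c * F.b + q * N - c * (e.N0 - t.b) = -c * (F.b - t.b) + ((q - c) * N + c * (N - e.N0)) := by ring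
      rw [this]; exact dvd_add (h4.mul_left _) hz
  · left
    refine ⟨?_, ?_⟩
    · show (e.W : ℤ) ∣ -c * F.a - c * t.a
      have : -c * F.a - c * t.a = -c * (F.a + t.a) := by ring
      rw [this]; exact h3.mul_left _
    · show (e.W : ℤ) ∣ -c * F.b + q * N - c * t.b
      have : -c * F.b + q * N - c * t.b = -c * (F.b - (e.N0 - t.b)) + ((q - c) * N + c * (N - e.N0)) := by ring
      rw [this]; exact dvd_add (h4.mul_left _) hz

/-- numbers free of primes `≤ z` are coprime to `W` -/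
private theorem Tf_cop (he : e.Ok) {m : ℕ} (hm : Sf e.z m) : IsCoprime (m : ℤ) (e.W : ℤ) := by
  rw [Nat.isCoprime_iff_coprime]
  refine Nat.Coprime.symm ?_
  unfold Env.W
  rw [primorial]
  refine Nat.Coprime.prod_left fun p hp => ?_
  rw [mem_filter, mem_range] at hp
  rw [Nat.Prime.coprime_iff_not_dvd hp.2]
  intro hd
  exact hm p hp.2 (by have := he.wz; omega) (by exact_mod_cast hd)

private theorem Tf_E (he : e.Ok) {n : ℕ} (hn : n ∈ e.E) : (e.W : ℤ) ∣ (n : ℤ) - e.N0 :=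
  (Nat.modEq_iff_dvd.1 (he.EW n hn).symm)

/-- the positions are `t` or `N0 - t` modulo `W`, `F3` and `F9` are units times these -/
theorem ext_F (he : e.Ok) (h : DH e k0 B cr eps g Ns qs k qlo qhi s dl a0 lo hi) (hG : e.Ext t G) {θ : Th}
    (hθ : θ ∈ e.TT qs qlo qhi k G.a) :
    (∀ F ∈ [θ.F1 G, θ.F2 G, θ.F4 eps g G, θ.F5 eps g G, θ.F6 eps g G, θ.F7 eps g G, θ.F8 eps g G,
      θ.F10 eps g k G, θ.F11 eps g k G], e.Ext t F) ∧ ∀ F ∈ θ.Fs eps g Ns qs k G, e.Typ t F := by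
  obtain ⟨⟨a1, a2, a3, a4, a5, a6, a7, a8, a9, a10⟩, b1, b2, b3, b4⟩ := tt_mem hθ
  have c1 := Tf_E he b1
  have c2 := Tf_E he b2
  have c3 := Tf_E he b3
  have c4 := Tf_E he b4
  have cN := Tf_E he h.hNs
  have cA : (e.W : ℤ) ∣ ((θ.nA eps : ℕ) : ℤ) - e.N0 := by
    unfold Th.nA; split_ifs
    · exact c2
    · exact c1
  have cC : (e.W : ℤ) ∣ ((θ.nC eps : ℕ) : ℤ) - e.N0 := by
    unfold Th.nC; split_ifs
    · exact c4
    · exact c3
  have cq : (e.W : ℤ) ∣ (θ.q : ℤ) - qs := Nat.modEq_iff_dvd.1 a5.symm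
  have cq' : (e.W : ℤ) ∣ (θ.q : ℤ) - k - qs := by
    have : (θ.q : ℤ) - k - qs = ((θ.q : ℤ) - qs) - k := by ring
    rw [this]; exact dvd_sub cq h.kW
  have hqs := Tf_cop he h.hqs.1
  have d1 : (e.W : ℤ) ∣ (θ.n1' : ℤ) - θ.n1 := by
    have : (θ.n1' : ℤ) - θ.n1 = ((θ.n1' : ℤ) - e.N0) - ((θ.n1 : ℤ) - e.N0) := by ring
    rw [this]; exact dvd_sub c2 c1
  have d2 : (e.W : ℤ) ∣ (θ.n2' : ℤ) - θ.n2 := by
    have : (θ.n2' : ℤ) - θ.n2 = ((θ.n2' : ℤ) - e.N0) - ((θ.n2 : ℤ) - e.N0) := by ring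
    rw [this]; exact dvd_sub c4 c3
  have refl1 : ∀ F : Frm, ∀ n : ℤ, e.Ext t F → (e.W : ℤ) ∣ n - e.N0 → e.Ext t (F.af (-1) n) := by
    intro F n hF hn
    refine Tf_refl hF ?_ ?_
    · show (e.W : ℤ) ∣ -1 * F.a + F.a
      have : -1 * F.a + F.a = 0 := by ring
      rw [this]; exact dvd_zero _
    · show (e.W : ℤ) ∣ -1 * F.b + n + F.b - e.N0
      have : -1 * F.b + n + F.b - e.N0 = n - e.N0 := by ring
      rw [this]; exact hn
  have same1 : ∀ F : Frm, ∀ n : ℤ, e.Ext t F → (e.W : ℤ) ∣ n → e.Ext t (F.af 1 n) := by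
    intro F n hF hn
    refine Tf_same hF ?_ ?_
    · show (e.W : ℤ) ∣ 1 * F.a - F.a
      have : 1 * F.a - F.a = 0 := by ring
      rw [this]; exact dvd_zero _
    · show (e.W : ℤ) ∣ 1 * F.b + n - F.b
      have : 1 * F.b + n - F.b = n := by ring
      rw [this]; exact hn
  have low1 : ∀ F : Frm, e.Ext t F → e.Ext t (F.af eps (θ.q * g)) := by
    intro F hF
    rcases h.md with ⟨h1, h2⟩ | ⟨h1, h2, -⟩
    · rw [h1]
      exact same1 _ _ hF (h2.mul_left _)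
    · rw [h1]
      refine refl1 _ _ hF ?_
      have : (θ.q : ℤ) * g - e.N0 = ((θ.q : ℤ) - qs) * g + (qs * g - e.N0) := by ring
      rw [this]; exact dvd_add (cq.mul_right _) h2
  have e1 : e.Ext t (θ.F1 G) := refl1 _ _ hG c1
  have e2 : e.Ext t (θ.F2 G) := same1 _ _ hG d1
  have e4 : e.Ext t (θ.F4 eps g G) := low1 _ e2
  have e5 : e.Ext t (θ.F5 eps g G) := refl1 _ _ e4 cA
  have e6 : e.Ext t (θ.F6 eps g G) := low1 _ hG
  have e7 : e.Ext t (θ.F7 eps g G) := refl1 _ _ e6 c3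
  have e8 : e.Ext t (θ.F8 eps g G) := same1 _ _ e6 d2
  have e10 : e.Ext t (θ.F10 eps g k G) := by
    have hee : eps * eps = 1 := by
      rcases h.heps with h1 | h1 <;> rw [h1] <;> norm_num
    refine Tf_same hG ?_ ?_
    · show (e.W : ℤ) ∣ eps * (1 * (eps * G.a)) - G.a
      have : eps * (1 * (eps * G.a)) - G.a = (eps * eps) * G.a - G.a := by ring
      rw [this, hee, one_mul, sub_self]; exact dvd_zero _
    · show (e.W : ℤ) ∣ eps * (1 * (eps * G.b + θ.q * g) + (θ.n2' - θ.n2)) + -eps * ((θ.q - k) * g) - G.b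
      have : eps * (1 * (eps * G.b + θ.q * g) + (θ.n2' - θ.n2)) + -eps * ((θ.q - k) * g) - G.b =
          (eps * eps) * G.b - G.b + (eps * ((θ.n2' : ℤ) - θ.n2) + eps * g * k) := by ring
      rw [this, hee, one_mul, sub_self, zero_add]
      exact dvd_add (d2.mul_left _) (h.kW.mul_left _)
  have e11 : e.Ext t (θ.F11 eps g k G) := refl1 _ _ e10 cC
  have t3 : e.Typ t (θ.F3 Ns qs G) := Tf_low e2 cq cN hqs
  have t9 : e.Typ t (θ.F9 eps g Ns qs k G) := Tf_low e10 cq' cN hqs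
  constructor
  · intro F hF
    simp only [List.mem_cons, List.not_mem_nil, or_false] at hF
    rcases hF with rfl | rfl | rfl | rfl | rfl | rfl | rfl | rfl | rfl
    · exact e1
    · exact e2
    · exact e4
    · exact e5
    · exact e6
    · exact e7
    · exact e8
    · exact e10
    · exact e11
  · intro F hF
    unfold Th.Fs at hF
    simp only [List.mem_cons, List.not_mem_nil, or_false] at hF
    rcases hF with rfl | rfl | rfl | rfl | rfl | rfl | rfl | rfl | rfl | rfl | rfl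
    · exact Tf_typ e1
    · exact Tf_typ e2
    · exact t3
    · exact Tf_typ e4
    · exact Tf_typ e5
    · exact Tf_typ e6
    · exact Tf_typ e7
    · exact Tf_typ e8
    · exact t9
    · exact Tf_typ e10
    · exact Tf_typ e11

/-- leading coefficients and bounds -/
theorem bd_F (he : e.Ok) (h : DH e k0 B cr eps g Ns qs k qlo qhi s dl a0 lo hi)
    (hG : BD e k0 B cr (eps * k * g) a0 lo hi t Fs A L G) {θ : Th} (hθ : θ ∈ e.TT qs qlo qhi k G.a) :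
    (∀ F ∈ θ.Fs eps g Ns qs k G, Sf e.z F.a ∧ |F.a| ≤ (e.X : ℤ) ^ (B + 2) ∧ |F.b| ≤ (e.X : ℤ) ^ (B + 4)) ∧
    (∀ F ∈ [θ.F1 G, θ.F2 G, θ.F4 eps g G, θ.F5 eps g G, θ.F6 eps g G, θ.F7 eps g G, θ.F8 eps g G,
      θ.F10 eps g k G, θ.F11 eps g k G], F.a = G.a ∨ F.a = -G.a) := by
  obtain ⟨⟨a1, a2, a3, a4, a5, a6, a7, a8, a9, a10⟩, b1, b2, b3, b4⟩ := tt_mem hθ
  -- sizes
  have hE : ∀ n ∈ e.E, (0 : ℤ) ≤ (n : ℤ) ∧ (n : ℤ) ≤ 2 * e.X := by
    intro n hn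
    refine ⟨by positivity, ?_⟩
    have := (he.EH n hn).2
    have h2 := he.Xs1
    exact_mod_cast this.trans h2
  have hY1 : 1 ≤ e.Y := by
    have h1 := he.zY
    have h2 := he.wz
    have h3 : 1 ≤ e.z ^ 2 := Nat.one_le_pow _ _ (by omega)
    omega
  have hY4 : 200 ≤ e.Y := by
    have h1 := he.zY
    have h2 := he.wz
    have h3 := he.w
    nlinarith [h1, h2, h3]
  have hYX : e.Y ^ 22 ≤ e.X := (Nat.pow_le_pow_right hY1 (by norm_num)).trans he.YX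
  have hY22 : e.Y ^ 22 = e.Y ^ 21 * e.Y := by ring
  have hY21 : 1 ≤ e.Y ^ 21 := Nat.one_le_pow _ _ hY1
  have hqX : (θ.q : ℤ) ≤ e.X := by
    have h1 := h.hq1
    have : θ.q ≤ e.X := by nlinarith
    exact_mod_cast this
  have hq'X : |(θ.q : ℤ) - k| ≤ e.X := by
    have h1 := h.hq1
    have h2 : (qhi : ℤ) ≤ e.X := by
      have : qhi ≤ e.X := by nlinarith
      exact_mod_cast this
    rw [abs_le]
    constructor
    · have : (0 : ℤ) ≤ qlo := by positivity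
      have : (0 : ℤ) ≤ e.X := by positivity
      linarith
    · linarith
  have hqsX : (qs : ℤ) ≤ e.X := by
    have h1 := h.hq1
    have h2 := h.hqs1.1
    have h3 : qlo ≤ qhi := by omega
    have : qs ≤ e.X := by nlinarith
    exact_mod_cast this
  have hX200 : (200 : ℤ) ≤ e.X := by
    have : 200 ≤ e.X := by nlinarith
    exact_mod_cast this
  have hg := h.hg
  have hee : eps * eps = 1 := by
    rcases h.heps with h1 | h1 <;> rw [h1] <;> norm_num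
  have hea : |eps| = 1 := by
    rcases h.heps with h1 | h1 <;> rw [h1] <;> norm_num
  -- leading coefficient of G
  have hY98 : (e.Y : ℤ) ^ 98 ≤ e.X := by
    have : e.Y ^ 98 ≤ e.X := (Nat.pow_le_pow_right hY1 (by norm_num)).trans he.YX
    exact_mod_cast this
  have hqhi1 : (1 : ℤ) ≤ (qhi : ℤ) ^ 2 := by
    have h0 := h.hq0
    have h1 : 1 ≤ e.Y ^ 18 := Nat.one_le_pow _ _ hY1
    have h3 : 1 ≤ qhi := by omega
    have : 1 ≤ qhi ^ 2 := Nat.one_le_pow _ _ h3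
    exact_mod_cast this
  have hGa : |G.a| ≤ e.X := by
    have h1 := h.ha0
    have h2 : a0 * 1 ≤ a0 * (qhi : ℤ) ^ 2 := mul_le_mul_of_nonneg_left hqhi1 h1.1
    have h3 := hG.ga
    linarith [h1.2]
  have hGb : |G.b| ≤ (e.X : ℤ) ^ B := hG.gb
  set x : ℤ := (e.X : ℤ) with hx
  have hx0 : (0 : ℤ) ≤ x := by linarith
  have hpB : x ^ 2 ≤ x ^ B := pow_le_pow_right₀ (by linarith) h.hB.1
  have hp1 : x ≤ x ^ B := by
    have : x ≤ x ^ 2 := by nlinarith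
    linarith
  have hpB0 : (0 : ℤ) ≤ x ^ B := by positivity
  have hB2 : x ^ (B + 2) = x ^ B * x ^ 2 := by ring
  have hB1 : x ^ (B + 1) = x ^ B * x := by ring
  have hB4 : x ^ (B + 4) = x ^ B * x ^ 4 := by ring
  have hx2 : 200 * x ≤ x ^ 2 := by nlinarith
  have hx3 : 200 * x ^ 2 ≤ x ^ 3 := by nlinarith [sq_nonneg x]
  have hx4 : 200 * x ^ 3 ≤ x ^ 4 := by
    have : (0 : ℤ) ≤ x ^ 3 := by positivity
    nlinarith
  have hx12 : x ≤ x ^ (B + 2) := by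
    rw [hB2]
    have : x ^ B * 1 ≤ x ^ B * x ^ 2 := mul_le_mul_of_nonneg_left (by nlinarith) hpB0
    linarith
  -- the coefficients of the positions
  have nA : ∀ n ∈ e.E, |(n : ℤ)| ≤ 2 * x := by
    intro n hn
    obtain ⟨h1, h2⟩ := hE n hn
    rw [abs_of_nonneg h1]; exact h2
  have nD : ∀ n ∈ e.E, ∀ n' ∈ e.E, |(n : ℤ) - n'| ≤ 2 * x := by
    intro n hn n' hn'
    obtain ⟨h1, h2⟩ := hE n hn
    obtain ⟨h3, h4⟩ := hE n' hn'
    rw [abs_le]; constructor <;> linarith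
  have hmA : (θ.nA eps) ∈ e.E := by unfold Th.nA; split_ifs <;> assumption
  have hmC : (θ.nC eps) ∈ e.E := by unfold Th.nC; split_ifs <;> assumption
  have hqg : |(θ.q : ℤ) * g| ≤ 2 * x ^ 2 := by
    rw [abs_mul, abs_of_nonneg (by positivity : (0 : ℤ) ≤ (θ.q : ℤ)), abs_of_pos hg.1]
    have : (θ.q : ℤ) * g ≤ x * (2 * x) := mul_le_mul hqX hg.2 hg.1.le hx0
    nlinarith
  have hqg' : |((θ.q : ℤ) - k) * g| ≤ 2 * x ^ 2 := by
    rw [abs_mul, abs_of_pos hg.1]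
    have : |(θ.q : ℤ) - k| * g ≤ x * (2 * x) := mul_le_mul hq'X hg.2 hg.1.le hx0
    nlinarith
  have hstep : ∀ F : Frm, ∀ c v : ℤ, |c| = 1 → |(F.af c v).b| ≤ |F.b| + |v| := by
    intro F c v hc
    show |c * F.b + v| ≤ |F.b| + |v|
    have := abs_add_le (c * F.b) v
    rw [abs_mul, hc, one_mul] at this
    exact this
  have h11 : |(-1 : ℤ)| = 1 := by norm_num
  have h1p : |(1 : ℤ)| = 1 := by norm_num
  have B1 : |(θ.F1 G).b| ≤ x ^ B + 2 * x := by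
    have h1 := hstep G (-1) θ.n1 h11
    have h2 := nA _ b1
    have h3 : |(θ.F1 G).b| ≤ |G.b| + |(θ.n1 : ℤ)| := h1
    linarith
  have B2 : |(θ.F2 G).b| ≤ x ^ B + 2 * x := by
    have h1 := hstep G 1 (θ.n1' - θ.n1) h1p
    have h2 := nD _ b2 _ b1
    have h3 : |(θ.F2 G).b| ≤ |G.b| + |(θ.n1' : ℤ) - θ.n1| := h1
    linarith
  have B4 : |(θ.F4 eps g G).b| ≤ x ^ B + 2 * x + 2 * x ^ 2 := by
    have h1 := hstep (θ.F2 G) eps (θ.q * g) hea
    have h3 : |(θ.F4 eps g G).b| ≤ |(θ.F2 G).b| + |(θ.q : ℤ) * g| := h1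
    linarith
  have B5 : |(θ.F5 eps g G).b| ≤ x ^ B + 4 * x + 2 * x ^ 2 := by
    have h1 := hstep (θ.F4 eps g G) (-1) (θ.nA eps) h11
    have h2 := nA _ hmA
    have h3 : |(θ.F5 eps g G).b| ≤ |(θ.F4 eps g G).b| + |((θ.nA eps : ℕ) : ℤ)| := h1
    linarith
  have B6 : |(θ.F6 eps g G).b| ≤ x ^ B + 2 * x ^ 2 := by
    have h1 := hstep G eps (θ.q * g) hea
    have h3 : |(θ.F6 eps g G).b| ≤ |G.b| + |(θ.q : ℤ) * g| := h1
    linarith
  have B7 : |(θ.F7 eps g G).b| ≤ x ^ B + 2 * x + 2 * x ^ 2 := by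
    have h1 := hstep (θ.F6 eps g G) (-1) θ.n2 h11
    have h2 := nA _ b3
    have h3 : |(θ.F7 eps g G).b| ≤ |(θ.F6 eps g G).b| + |(θ.n2 : ℤ)| := h1
    linarith
  have B8 : |(θ.F8 eps g G).b| ≤ x ^ B + 2 * x + 2 * x ^ 2 := by
    have h1 := hstep (θ.F6 eps g G) 1 (θ.n2' - θ.n2) h1p
    have h2 := nD _ b4 _ b3
    have h3 : |(θ.F8 eps g G).b| ≤ |(θ.F6 eps g G).b| + |(θ.n2' : ℤ) - θ.n2| := h1
    linarith
  have B10 : |(θ.F10 eps g k G).b| ≤ x ^ B + 2 * x + 4 * x ^ 2 := by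
    have h1 := hstep (θ.F8 eps g G) eps (-eps * ((θ.q - k) * g)) hea
    have h3 : |(θ.F10 eps g k G).b| ≤ |(θ.F8 eps g G).b| + |-eps * (((θ.q : ℤ) - k) * g)| := h1
    rw [abs_mul, abs_neg, hea, one_mul] at h3
    linarith
  have B11 : |(θ.F11 eps g k G).b| ≤ x ^ B + 4 * x + 4 * x ^ 2 := by
    have h1 := hstep (θ.F10 eps g k G) (-1) (θ.nC eps) h11
    have h2 := nA _ hmC
    have h3 : |(θ.F11 eps g k G).b| ≤ |(θ.F10 eps g k G).b| + |((θ.nC eps : ℕ) : ℤ)| := h1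
    linarith
  have bigB : x ^ B + 4 * x + 4 * x ^ 2 ≤ 6 * x ^ B := by linarith
  have hx41 : (6 : ℤ) ≤ x ^ 4 := by nlinarith [sq_nonneg x]
  have last : ∀ y : ℤ, y ≤ x ^ B + 4 * x + 4 * x ^ 2 → y ≤ x ^ (B + 4) := by
    intro y hy
    rw [hB4]
    have : x ^ B * 6 ≤ x ^ B * x ^ 4 := mul_le_mul_of_nonneg_left hx41 hpB0
    linarith
  have hqs0 : (0 : ℤ) ≤ qs := by positivity
  have low : ∀ F : Frm, ∀ q : ℤ, |q| ≤ x → |F.b| ≤ x ^ B + 4 * x + 4 * x ^ 2 →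
      |(F.af (-qs) (q * Ns)).b| ≤ x ^ (B + 4) := by
    intro F q hq hF
    show |-(qs : ℤ) * F.b + q * Ns| ≤ x ^ (B + 4)
    have h1 := abs_add_le (-(qs : ℤ) * F.b) (q * Ns)
    rw [abs_mul, abs_mul, abs_neg, abs_of_nonneg hqs0] at h1
    have h2 : (qs : ℤ) * |F.b| ≤ x * (6 * x ^ B) := mul_le_mul hqsX (hF.trans bigB) (abs_nonneg _) hx0
    have h3 : |q| * |(Ns : ℤ)| ≤ x * (2 * x) := mul_le_mul hq (nA _ h.hNs) (abs_nonneg _) hx0
    have h4 : x * (2 * x) = 2 * x ^ 2 := by ring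
    have h5 : x ^ B * (6 * x + 2) ≤ x ^ B * x ^ 4 := by
      refine mul_le_mul_of_nonneg_left ?_ hpB0
      nlinarith
    have h6 : x * (6 * x ^ B) + 2 * x ^ B = x ^ B * (6 * x + 2) := by ring
    rw [hB4]
    linarith
  -- leading coefficients
  have heps := h.heps
  have L1 : (θ.F1 G).a = -G.a := by show -1 * G.a = -G.a; ring
  have L2 : (θ.F2 G).a = G.a := by show 1 * G.a = G.a; ring
  have L4 : (θ.F4 eps g G).a = eps * G.a := by show eps * (1 * G.a) = eps * G.a; ring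
  have L5 : (θ.F5 eps g G).a = -(eps * G.a) := by show -1 * (eps * (1 * G.a)) = -(eps * G.a); ring
  have L6 : (θ.F6 eps g G).a = eps * G.a := rfl
  have L7 : (θ.F7 eps g G).a = -(eps * G.a) := by show -1 * (eps * G.a) = -(eps * G.a); ring
  have L8 : (θ.F8 eps g G).a = eps * G.a := by show 1 * (eps * G.a) = eps * G.a; ring
  have L10 : (θ.F10 eps g k G).a = G.a := by
    show eps * (1 * (eps * G.a)) = G.a
    have : eps * (1 * (eps * G.a)) = (eps * eps) * G.a := by ring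
    rw [this, hee, one_mul]
  have L11 : (θ.F11 eps g k G).a = -G.a := by
    show -1 * (θ.F10 eps g k G).a = -G.a
    rw [L10]; ring
  have L3 : (θ.F3 Ns qs G).a = -(qs : ℤ) * G.a := by
    show -(qs : ℤ) * (θ.F2 G).a = -(qs : ℤ) * G.a
    rw [L2]
  have L9 : (θ.F9 eps g Ns qs k G).a = -(qs : ℤ) * G.a := by
    show -(qs : ℤ) * (θ.F10 eps g k G).a = -(qs : ℤ) * G.a
    rw [L10]
  have hlead : ∀ F ∈ [θ.F1 G, θ.F2 G, θ.F4 eps g G, θ.F5 eps g G, θ.F6 eps g G, θ.F7 eps g G, θ.F8 eps g G,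
      θ.F10 eps g k G, θ.F11 eps g k G], F.a = G.a ∨ F.a = -G.a := by
    have hee1 : eps * G.a = G.a ∨ eps * G.a = -G.a := by
      rcases heps with h1 | h1
      · left; rw [h1]; ring
      · right; rw [h1]; ring
    have hee2 : -(eps * G.a) = G.a ∨ -(eps * G.a) = -G.a := by
      rcases heps with h1 | h1
      · right; rw [h1]; ring
      · left; rw [h1]; ring
    intro F hF
    simp only [List.mem_cons, List.not_mem_nil, or_false] at hF
    rcases hF with rfl | rfl | rfl | rfl | rfl | rfl | rfl | rfl | rfl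
    · right; exact L1
    · left; exact L2
    · rw [L4]; exact hee1
    · rw [L5]; exact hee2
    · rw [L6]; exact hee1
    · rw [L7]; exact hee2
    · rw [L8]; exact hee1
    · left; exact L10
    · right; exact L11
  refine ⟨?_, hlead⟩
  have hSf : Sf e.z G.a := hG.gd.1
  have hSfq : Sf e.z (-(qs : ℤ) * G.a) := by
    intro p hp hpz hd
    have hp' : Prime (p : ℤ) := Nat.prime_iff_prime_int.1 hp
    rcases hp'.dvd_or_dvd hd with h1 | h1
    · exact h.hqs.1 p hp hpz ((dvd_neg).1 h1)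
    · exact hSf p hp hpz h1
  have hlead2 : ∀ F : Frm, (F.a = G.a ∨ F.a = -G.a) → Sf e.z F.a ∧ |F.a| ≤ x ^ (B + 2) := by
    intro F hF
    rcases hF with h1 | h1
    · rw [h1]; exact ⟨hSf, hGa.trans hx12⟩
    · rw [h1]
      refine ⟨fun p hp hpz hd => hSf p hp hpz ((dvd_neg).1 hd), ?_⟩
      rw [abs_neg]; exact hGa.trans hx12
  have hqa : |-(qs : ℤ) * G.a| ≤ x ^ (B + 2) := by
    rw [abs_mul, abs_neg, abs_of_nonneg hqs0, hB2]
    have h1 : (qs : ℤ) * |G.a| ≤ x * x := mul_le_mul hqsX hGa (abs_nonneg _) hx0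
    have h2 : 1 * x ^ 2 ≤ x ^ B * x ^ 2 := by
      refine mul_le_mul_of_nonneg_right ?_ (by positivity)
      linarith
    nlinarith
  intro F hF
  unfold Th.Fs at hF
  simp only [List.mem_cons, List.not_mem_nil, or_false] at hF
  rcases hF with rfl | rfl | rfl | rfl | rfl | rfl | rfl | rfl | rfl | rfl | rfl
  · obtain ⟨h1, h2⟩ := hlead2 (θ.F1 G) (hlead _ (by simp))
    exact ⟨h1, h2, last _ (by linarith)⟩
  · obtain ⟨h1, h2⟩ := hlead2 (θ.F2 G) (hlead _ (by simp))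
    exact ⟨h1, h2, last _ (by linarith)⟩
  · rw [L3]
    refine ⟨hSfq, hqa, ?_⟩
    refine low _ _ ?_ (by linarith)
    rw [abs_of_nonneg (by positivity : (0 : ℤ) ≤ (θ.q : ℤ))]
    exact hqX
  · obtain ⟨h1, h2⟩ := hlead2 (θ.F4 eps g G) (hlead _ (by simp))
    exact ⟨h1, h2, last _ (by linarith)⟩
  · obtain ⟨h1, h2⟩ := hlead2 (θ.F5 eps g G) (hlead _ (by simp))
    exact ⟨h1, h2, last _ (by linarith)⟩
  · obtain ⟨h1, h2⟩ := hlead2 (θ.F6 eps g G) (hlead _ (by simp))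
    exact ⟨h1, h2, last _ (by linarith)⟩
  · obtain ⟨h1, h2⟩ := hlead2 (θ.F7 eps g G) (hlead _ (by simp))
    exact ⟨h1, h2, last _ (by linarith)⟩
  · obtain ⟨h1, h2⟩ := hlead2 (θ.F8 eps g G) (hlead _ (by simp))
    exact ⟨h1, h2, last _ (by linarith)⟩
  · rw [L9]
    exact ⟨hSfq, hqa, low _ _ hq'X (by linarith)⟩
  · obtain ⟨h1, h2⟩ := hlead2 (θ.F10 eps g k G) (hlead _ (by simp))
    exact ⟨h1, h2, last _ (by linarith)⟩
  · obtain ⟨h1, h2⟩ := hlead2 (θ.F11 eps g k G) (hlead _ (by simp))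
    exact ⟨h1, h2, last _ (by linarith)⟩

/-- the generic paths give admissible schemes -/
theorem sok_F (he : e.Ok) (h : DH e k0 B cr eps g Ns qs k qlo qhi s dl a0 lo hi)
    (hG : BD e k0 B cr (eps * k * g) a0 lo hi t Fs A L G) {θ : Th} (hθ : θ ∈ e.TT qs qlo qhi k G.a)
    (hg : θ.Gn eps g Ns qs k G Fs) : e.SOk (B + 4) t (Fs ++ θ.Fs eps g Ns qs k G) := by
  have hb := (bd_F he h hG hθ).1
  have ht := (ext_F he h hG.ext hθ).2
  have hX1 : (1 : ℤ) ≤ e.X := by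
    have h1 := he.Xs0
    have h2 := he.Xs1
    have h3 := he.H1
    have : 1 ≤ e.X := by omega
    exact_mod_cast this
  have hX4 : (e.X : ℤ) ^ B ≤ (e.X : ℤ) ^ (B + 4) := pow_le_pow_right₀ hX1 (by omega)
  have hX2 : (e.X : ℤ) ^ (B + 2) ≤ (e.X : ℤ) ^ (B + 4) := pow_le_pow_right₀ hX1 (by omega)
  refine ⟨hG.ok.ta, ?_, ?_, ?_, hg⟩
  · intro F hF
    rcases List.mem_append.1 hF with h1 | h1
    · exact hG.ok.sa F h1
    · exact (hb F h1).1
  · intro F hF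
    rcases List.mem_append.1 hF with h1 | h1
    · obtain ⟨h2, h3⟩ := hG.ok.bd F h1
      exact ⟨h2.trans hX4, h3.trans hX4⟩
    · obtain ⟨-, h2, h3⟩ := hb F h1
      exact ⟨h2.trans hX2, h3⟩
  · intro F hF
    rcases List.mem_append.1 hF with h1 | h1
    · exact hG.ok.ty F h1
    · exact ht F h1

end Pool.Agent.Lib.EX
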