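import Pool.Agent.Lib.MP_61161c_nt.EX.Ch
import Pool.Agent.Lib.MP_61161c_nt.EX.Tf

/-!
# EX, module Rg: ranges of the positions

All differences `n1' - n1`, `n2' - n2` are at most `H` in absolute value, all elements of `E` are in `[Xs, Xs + H]`.
-/

set_option autoImplicit false

open Finset

namespace Pool.Agent.Lib.EX

variable {e : Env} {k0 B cr : ℕ} {eps g : ℤ} {Ns qs : ℕ} {k : ℤ} {qlo qhi : ℕ} {s dl : ℝ} {a0 lo hi : ℤ}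
  {t : Frm} {Fs : List Frm} {A L : ℕ} {G : Frm}

theorem rg_F (he : e.Ok) (h : DH e k0 B cr eps g Ns qs k qlo qhi s dl a0 lo hi)
    (hG : BD e k0 B cr (eps * k * g) a0 lo hi t Fs A L G) {θ : Th} (hθ : θ ∈ e.TT qs qlo qhi k G.a) (n : ℕ)
    (hn : A ≤ n) (hn' : n < A + L) :
    (0 < G.ev n ∧ G.ev n < θ.n1) ∧ (0 < (θ.F1 G).ev n ∧ (θ.F1 G).ev n < θ.n1') ∧
    (lo - e.H ≤ (θ.F2 G).ev n ∧ (θ.F2 G).ev n ≤ hi + e.H) ∧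
    (0 < (θ.F4 eps g G).ev n ∧ (θ.F4 eps g G).ev n < θ.nA eps) ∧
    (0 < (θ.F5 eps g G).ev n ∧ (θ.F5 eps g G).ev n < θ.nB eps) ∧
    (0 < (θ.F6 eps g G).ev n ∧ (θ.F6 eps g G).ev n < θ.n2) ∧
    (0 < (θ.F7 eps g G).ev n ∧ (θ.F7 eps g G).ev n < θ.n2') ∧
    (0 < (θ.F8 eps g G).ev n) ∧
    (lo - e.H ≤ (θ.F10 eps g k G).ev n ∧ (θ.F10 eps g k G).ev n ≤ hi + e.H ∧
      0 < (θ.F10 eps g k G).ev n ∧ (θ.F10 eps g k G).ev n < θ.nC eps) ∧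
    (0 < (θ.F11 eps g k G).ev n ∧ (θ.F11 eps g k G).ev n < θ.nD eps) := by
  obtain ⟨⟨hq1, hq2, hq3, hq4, -⟩, m1, m1', m2, m2'⟩ := tt_mem hθ
  obtain ⟨s1, s2, s4, -, s5, s6, s7, s8, s10, -, s11, -⟩ := sums eps g h.heps Ns qs k G θ n
  obtain ⟨g1, g2, g3, g4⟩ := hG.rg n hn hn'
  obtain ⟨r1, r2⟩ := h.r1
  obtain ⟨r3, r4⟩ := h.r2 (G.ev n) g1 g2 g3 g4 θ.q (by exact_mod_cast hq1) (by exact_mod_cast hq2)
  have hH := he.H1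
  obtain ⟨a1, b1⟩ := he.EH _ m1
  obtain ⟨a1', b1'⟩ := he.EH _ m1'
  obtain ⟨a2, b2⟩ := he.EH _ m2
  obtain ⟨a2', b2'⟩ := he.EH _ m2'
  generalize hGn : G.ev n = y at *
  generalize (θ.F1 G).ev n = f1 at *
  generalize (θ.F2 G).ev n = f2 at *
  generalize (θ.F4 eps g G).ev n = f4 at *
  generalize (θ.F5 eps g G).ev n = f5 at *
  generalize (θ.F6 eps g G).ev n = f6 at *
  generalize (θ.F7 eps g G).ev n = f7 at *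
  generalize (θ.F8 eps g G).ev n = f8 at *
  generalize (θ.F10 eps g k G).ev n = f10 at *
  generalize (θ.F11 eps g k G).ev n = f11 at *
  rcases h.heps with h1 | h1
  · subst h1
    simp only [Th.nA, Th.nB, Th.nC, Th.nD, if_true] at *
    have e1 : (1 : ℤ) * k * g = k * g := by ring
    have e2 : ((θ.q : ℤ) - k) * g = θ.q * g - k * g := by ring
    rw [e1] at g3 g4
    rw [e2] at s10
    generalize (θ.q : ℤ) * g = Q at *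
    generalize k * g = K at *
    refine ⟨⟨?_, ?_⟩, ⟨?_, ?_⟩, ⟨?_, ?_⟩, ⟨?_, ?_⟩, ⟨?_, ?_⟩, ⟨?_, ?_⟩, ⟨?_, ?_⟩, ?_, ⟨?_, ?_, ?_, ?_⟩, ?_, ?_⟩ <;> omega
  · subst h1
    have h11 : ¬ ((-1 : ℤ) = 1) := by norm_num
    simp only [Th.nA, Th.nB, Th.nC, Th.nD, if_neg h11] at *
    have e1 : (-1 : ℤ) * k * g = -(k * g) := by ring
    have e2 : ((θ.q : ℤ) - k) * g = θ.q * g - k * g := by ring
    rw [e1] at g3 g4
    rw [e2] at s10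
    generalize (θ.q : ℤ) * g = Q at *
    generalize k * g = K at *
    refine ⟨⟨?_, ?_⟩, ⟨?_, ?_⟩, ⟨?_, ?_⟩, ⟨?_, ?_⟩, ⟨?_, ?_⟩, ⟨?_, ?_⟩, ⟨?_, ?_⟩, ?_, ⟨?_, ?_, ?_, ?_⟩, ?_, ?_⟩ <;> omega

end Pool.Agent.Lib.EX
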