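import Pool.Agent.Lib.MP_61161c_nt.EX.Fm
import Pool.Agent.Lib.MP_61161c_nt.EX.Rg

/-!
# EX, module Bd: the steps of a path fail rarely

Each of the eight reflections by (P2), the two lower moves by `Low` (`q ∣ F2`, `q' ∣ F10` on the progression), on the scheme `Fs ++ θ.Fs` restricted
to the progression `n = c + m n'`. Leading coefficients `± G.a m` (good, `≤ a0 qhi^2`), `|G.a m| L' ≥ |G.a| (L - m) ≥ |G.a| L / 2`.
-/

set_option autoImplicit false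

open Finset

namespace Pool.Agent.Lib.EX

variable {e : Env} {k0 B cr : ℕ} {eps g : ℤ} {Ns qs : ℕ} {k : ℤ} {qlo qhi : ℕ} {s dl : ℝ} {a0 lo hi : ℤ}
  {t : Frm} {Fs : List Frm} {A L : ℕ} {G : Frm}

private theorem Bd_Y (he : e.Ok) : 1000 ≤ e.Y ∧ 1000 ≤ e.X := by
  have h1 := he.w
  have h2 := he.wz
  have h3 := he.zY
  have h4 := he.YX
  have h5 : 1000 ≤ e.Y := by nlinarith
  refine ⟨h5, h5.trans (le_trans ?_ h4)⟩
  exact Nat.le_self_pow (by norm_num) _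

private theorem Bd_gd {x y : ℤ} (he : e.Ok) (hx : e.Gd x) (hy : e.Gd y) : e.Gd (x * y) := by
  refine ⟨fun p hp hpz hd => ?_, fun p hp hd => ?_⟩
  · rcases (Nat.prime_iff_prime_int.1 hp).dvd_or_dvd hd with h1 | h1
    · exact hx.1 p hp hpz h1
    · exact hy.1 p hp hpz h1
  · have hpp := (he.bad.2 p hp).1
    rcases (Nat.prime_iff_prime_int.1 hpp).dvd_or_dvd hd with h1 | h1
    · exact hx.2 p hp h1
    · exact hy.2 p hp h1

private theorem Bd_mono (he : e.Ok) {B' B'' : ℕ} (hB : B' ≤ B'') {t' : Frm} {Fs' : List Frm}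
    (h : e.SOk B' t' Fs') : e.SOk B'' t' Fs' := by
  have hX : (1 : ℤ) ≤ (e.X : ℤ) := by
    have := (Bd_Y he).2
    exact_mod_cast (by omega : 1 ≤ e.X)
  have h2 : (e.X : ℤ) ^ B' ≤ (e.X : ℤ) ^ B'' := pow_le_pow_right₀ hX hB
  exact ⟨h.ta, h.sa, fun F hF => ⟨(h.bd F hF).1.trans h2, (h.bd F hF).2.trans h2⟩, h.ty, h.np⟩

open Classical in
private theorem Bd_tr (he : e.Ok) (h : DH e k0 B cr eps g Ns qs k qlo qhi s dl a0 lo hi)
    (hG : BD e k0 B cr (eps * k * g) a0 lo hi t Fs A L G) {θ : Th} (hθ : θ ∈ e.TT qs qlo qhi k G.a)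
    (hg : θ.Gn eps g Ns qs k G Fs) : ∃ c A' L' : ℕ,
    e.SOk (B + 5) (t.cp c (θ.mo k)) ((Fs ++ θ.Fs eps g Ns qs k G).map fun F => F.cp c (θ.mo k)) ∧
    ((Fs ++ θ.Fs eps g Ns qs k G).map fun F => F.cp c (θ.mo k)).length = Fs.length + 11 ∧
    A' + L' ≤ e.X ^ (B + 1) ∧ θ.Dv eps g k G c ∧ c < θ.mo k ∧
    (L : ℤ) ≤ 2 * (θ.mo k * L') ∧ 100 * ((θ.mo k : ℤ) * L') ≤ 101 * L ∧
    (∀ n : ℕ, A' ≤ n → n < A' + L' → A ≤ c + θ.mo k * n ∧ c + θ.mo k * n < A + L) ∧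
    (∀ n ∈ e.SS (t.cp c (θ.mo k)) ((Fs ++ θ.Fs eps g Ns qs k G).map fun F => F.cp c (θ.mo k)) A' L',
      c + θ.mo k * n ∈ e.SP eps g Ns qs k G t Fs A L θ) ∧
    ∀ (P : ℕ → Prop) [DecidablePred P] [DecidablePred fun n => P (c + θ.mo k * n)],
      ((e.SP eps g Ns qs k G t Fs A L θ).filter P).card =
      ((e.SS (t.cp c (θ.mo k)) ((Fs ++ θ.Fs eps g Ns qs k G).map fun F => F.cp c (θ.mo k)) A' L').filter
        fun n => P (c + θ.mo k * n)).card := by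
  obtain ⟨c, hc, hcD⟩ := rs h hθ
  obtain ⟨m1, m2, m3, m4, m5⟩ := mo_F he h hθ
  obtain ⟨A', L', i1, i2, i3, i4⟩ := itv A L (θ.mo k) c m3 hc
  obtain ⟨hY, hX⟩ := Bd_Y he
  have hL := L_big he h hG
  have hmY : θ.mo k ≤ e.Y ^ 100 := (m4.trans m5).trans (Nat.pow_le_pow_right (by omega) (by norm_num))
  have hm100 : 100 * θ.mo k ≤ L := by
    calc 100 * θ.mo k ≤ e.Y * e.Y ^ 42 := Nat.mul_le_mul (by omega) (m4.trans m5)
      _ = e.Y ^ 43 := by ring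
      _ ≤ e.Y ^ 200 := Nat.pow_le_pow_right (by omega) (by norm_num)
      _ ≤ L := hL
  have hok := sok_cp e he (B + 4) t _ (sok_F he h hG hθ hg) (θ.mo k) c m1 hmY hc
  have hSP : e.SP eps g Ns qs k G t Fs A L θ =
      (e.SS t (Fs ++ θ.Fs eps g Ns qs k G) A L).filter (fun n : ℕ => n % θ.mo k = c) := by
    ext n
    unfold Env.SP Env.SS
    simp only [mem_filter, List.mem_append]
    rw [hcD n]
    constructor
    · rintro ⟨⟨a1, a2, a3⟩, a4, a5⟩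
      exact ⟨⟨a1, a2, fun F hF => hF.elim (a3 F) (a5 F)⟩, a4⟩
    · rintro ⟨⟨a1, a2, a3⟩, a4⟩
      exact ⟨⟨a1, a2, fun F hF => a3 F (Or.inl hF)⟩, a4, fun F hF => a3 F (Or.inr hF)⟩
  have hss := ss_cp e t (Fs ++ θ.Fs eps g Ns qs k G) A L A' L' (θ.mo k) c hc i4
  have hinj : Function.Injective (fun n : ℕ => c + θ.mo k * n) := by
    intro x y hxy
    have h1 : c + θ.mo k * x = c + θ.mo k * y := hxy
    exact Nat.eq_of_mul_eq_mul_left m3 (by omega)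
  refine ⟨c, A', L', hok, ?_, ?_, ?_, hc, ?_, ?_, fun n h1 h2 => (i4 n).1 ⟨h1, h2⟩, ?_, ?_⟩
  · rw [List.length_map, List.length_append]
    rfl
  · have h1 := hG.AL
    have h2 : 1 ≤ e.X ^ B := Nat.one_le_pow _ _ (by omega)
    calc A' + L' ≤ A + L + 1 := i3
      _ ≤ e.X ^ B * 2 := by omega
      _ ≤ e.X ^ B * e.X := Nat.mul_le_mul_left _ (by omega)
      _ = e.X ^ (B + 1) := by ring
  · rw [hcD c]
    exact Nat.mod_eq_of_lt hc
  · have h1 : (100 * θ.mo k : ℤ) ≤ L := by exact_mod_cast hm100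
    have h2 : (0 : ℤ) ≤ θ.mo k := by positivity
    linarith
  · have h1 : (100 * θ.mo k : ℤ) ≤ L := by exact_mod_cast hm100
    linarith
  · intro n hn
    rw [hSP, hss]
    exact mem_image_of_mem _ hn
  · intro P i1 i2
    rw [hSP, hss, filter_image, card_image_of_injective _ hinj]
    congr

private theorem Bd_fin {m L L' : ℕ} {c C M η : ℝ} (hM : 0 ≤ M) (hη : 0 ≤ η)
    (h2 : 100 * ((m : ℤ) * L') ≤ 101 * L) (hC : C ≤ η * (L' * M)) :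
    (m : ℝ) * C ≤ 101 / 100 * η * (L * M) := by
  have h3 : 100 * ((m : ℝ) * L') ≤ 101 * L := by exact_mod_cast h2
  have h4 : (m : ℝ) * C ≤ m * (η * (L' * M)) := mul_le_mul_of_nonneg_left hC (Nat.cast_nonneg _)
  have h5 : 0 ≤ η * M := mul_nonneg hη hM
  nlinarith

open Classical in
/-- one reflection: `x` and `N - x` are rough on `SP θ` -/
theorem bd_ref (he : e.Ok) (hP2 : e.P2 24) (h : DH e k0 B cr eps g Ns qs k qlo qhi s dl a0 lo hi)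
    (hG : BD e k0 B cr (eps * k * g) a0 lo hi t Fs A L G) {θ : Th} (hθ : θ ∈ e.TT qs qlo qhi k G.a)
    (hg : θ.Gn eps g Ns qs k G Fs) (x : Frm) (hx : x.a = G.a ∨ x.a = -G.a) (N : ℕ) (hN : N ∈ e.E)
    (hx1 : ∀ n : ℕ, A ≤ n → n < A + L → 0 < x.ev n ∧ x.ev n < N)
    (hx2 : ∀ n ∈ e.SP eps g Ns qs k G t Fs A L θ, Sf e.z (x.ev n) ∧ Sf e.z (N - x.ev n)) :
    (θ.mo k : ℝ) * ((e.SP eps g Ns qs k G t Fs A L θ).filter fun n : ℕ => lz (x.ev n) * lz (N - x.ev n) ≠ e.kap).card ≤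
      101 / 100 * e.eta * (L * e.MM (Fs.length + 11)) := by
  obtain ⟨c, A', L', q1, q2, q3, q4, q5, q6, q7, q8, q9, q10⟩ := Bd_tr he h hG hθ hg
  obtain ⟨m1, m2, m3, m4, m5⟩ := mo_F he h hθ
  obtain ⟨hY, hX⟩ := Bd_Y he
  have hlen : Fs.length + 11 ≤ 24 := by
    have h1 := hG.len
    have h2 := h.hk0
    omega
  have hM : 0 ≤ e.MM (Fs.length + 11) := le_trans (by positivity) (he.MM0 (Fs.length + 11) (by omega))
  have hB := h.hB
  have hxa : |x.a| = |G.a| := by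
    rcases hx with h1 | h1 <;> rw [h1]
    rw [abs_neg]
  have hxgd : e.Gd x.a := by
    rcases hx with h1 | h1 <;> rw [h1]
    · exact hG.gd
    · refine ⟨fun p hp hpz hd => hG.gd.1 p hp hpz ((dvd_neg).1 hd), fun p hp hd => hG.gd.2 p hp ((dvd_neg).1 hd)⟩
  have hm0 : (0 : ℤ) ≤ (θ.mo k : ℤ) := by positivity
  have hcast : ∀ n : ℕ, (x.cp c (θ.mo k)).ev (n : ℤ) = x.ev ((c + θ.mo k * n : ℕ) : ℤ) := by
    intro n
    rw [Frm.ev_cp]
    push_cast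
    rfl
  have key := hP2 (t.cp c (θ.mo k)) ((Fs ++ θ.Fs eps g Ns qs k G).map fun F => F.cp c (θ.mo k)) A' L'
    (Bd_mono he (by omega) q1) (by rw [q2]; exact hlen) (x.cp c (θ.mo k)) N hN
    (Bd_gd he hxgd m2) (by
      show |x.a * (θ.mo k : ℤ)| ≤ (e.Y : ℤ) ^ 100
      rw [abs_mul, hxa, abs_of_nonneg hm0]
      have h1 : (θ.mo k : ℤ) ≤ (qhi : ℤ) ^ 2 := by exact_mod_cast m4
      have h2 := h.ha0.2
      calc |G.a| * (θ.mo k : ℤ) ≤ a0 * (qhi : ℤ) ^ 2 :=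
            mul_le_mul hG.ga h1 hm0 h.ha0.1
        _ ≤ (e.Y : ℤ) ^ 98 := h2
        _ ≤ (e.Y : ℤ) ^ 100 := pow_le_pow_right₀ (by exact_mod_cast (by omega : 1 ≤ e.Y)) (by norm_num))
    (by
      show (e.X : ℤ) ≤ 10 ^ 9 * (|x.a * (θ.mo k : ℤ)| * L')
      rw [abs_mul, hxa, abs_of_nonneg hm0]
      have h1 := hG.cr
      have h2 : (cr : ℤ) ≤ 10 ^ 7 := by exact_mod_cast h.hcr
      have h3 : |G.a| * (L : ℤ) ≤ |G.a| * (2 * (θ.mo k * L')) := mul_le_mul_of_nonneg_left q6 (abs_nonneg _)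
      have h4 : (0 : ℤ) ≤ |G.a| * L := by positivity
      have h5 : (0 : ℤ) ≤ |G.a| * (θ.mo k * L') := by positivity
      calc (e.X : ℤ) ≤ cr * (|G.a| * L) := h1
        _ ≤ 10 ^ 7 * (|G.a| * L) := mul_le_mul_of_nonneg_right h2 h4
        _ ≤ 10 ^ 7 * (|G.a| * (2 * (θ.mo k * L'))) := mul_le_mul_of_nonneg_left h3 (by norm_num)
        _ ≤ 10 ^ 9 * (|G.a| * θ.mo k * L') := by nlinarith)
    (q3.trans (Nat.pow_le_pow_right (by omega) (by omega)))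
    (fun n h1 h2 => by
      rw [hcast n]
      obtain ⟨h3, h4⟩ := q8 n h1 h2
      exact hx1 _ h3 h4)
    (fun n hn => by
      rw [hcast n]
      exact hx2 _ (q9 n hn))
  rw [q10 (fun n : ℕ => lz (x.ev n) * lz (N - x.ev n) ≠ e.kap), ← q2]
  refine Bd_fin (c := 0) (by rw [q2]; exact hM) he.eta0.le q7 (le_trans (le_of_eq ?_) key)
  congr 2
  refine filter_congr fun n _ => ?_
  rw [hcast n]

open Classical in
/-- a lower move at the position `P` -/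
private theorem Bd_lw (he : e.Ok) (h : DH e k0 B cr eps g Ns qs k qlo qhi s dl a0 lo hi)
    (hG : BD e k0 B cr (eps * k * g) a0 lo hi t Fs A L G) {θ : Th} (hθ : θ ∈ e.TT qs qlo qhi k G.a)
    (hg : θ.Gn eps g Ns qs k G Fs) (P : Frm) (hP : P.a = G.a ∨ P.a = -G.a) (hPF : P ∈ θ.Fs eps g Ns qs k G)
    (hPe : e.Ext t P) (q : ℤ) (hq1 : (qlo : ℤ) ≤ q) (hq2 : q ≤ qhi) (hq3 : e.Gd q) (hq4 : q ≡ qs [ZMOD e.W])
    (hqm : q ∣ θ.mo k) (hqP : ∀ c : ℤ, θ.Dv eps g k G c → q ∣ P.ev c)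
    (hx1 : ∀ n : ℕ, A ≤ n → n < A + L → lo - e.H ≤ P.ev n ∧ P.ev n ≤ hi + e.H ∧ 0 < eps * P.ev n + q * g)
    (hx2 : ∀ n ∈ e.SP eps g Ns qs k G t Fs A L θ, Sf e.z (P.ev n) ∧ Sf e.z (eps * P.ev n + q * g) ∧
      Sf e.z (q * Ns - qs * P.ev n)) :
    (θ.mo k : ℝ) * ((e.SP eps g Ns qs k G t Fs A L θ).filter fun n : ℕ =>
        lz (eps * P.ev n + q * g) ≠ s * lz (P.ev n)).card ≤ 101 / 100 * dl * (L * e.MM (Fs.length + 11)) := by
  obtain ⟨c, A', L', q1, q2, q3, q4, q5, q6, q7, q8, q9, q10⟩ := Bd_tr he h hG hθ hg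
  obtain ⟨m1, m2, m3, m4, m5⟩ := mo_F he h hθ
  obtain ⟨hY, hX⟩ := Bd_Y he
  have hlen : Fs.length + 11 ≤ k0 + 11 := by
    have h1 := hG.len
    omega
  have hM : 0 ≤ e.MM (Fs.length + 11) := le_trans (by positivity) (he.MM0 (Fs.length + 11) (by
    have h1 := hG.len
    have h2 := h.hk0
    omega))
  have hB := h.hB
  have hxa : |P.a| = |G.a| := by
    rcases hP with h1 | h1 <;> rw [h1]
    rw [abs_neg]
  have hxgd : e.Gd P.a := by
    rcases hP with h1 | h1 <;> rw [h1]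
    · exact hG.gd
    · refine ⟨fun p hp hpz hd => hG.gd.1 p hp hpz ((dvd_neg).1 hd), fun p hp hd => hG.gd.2 p hp ((dvd_neg).1 hd)⟩
  have hm0 : (0 : ℤ) ≤ (θ.mo k : ℤ) := by positivity
  have hcast : ∀ n : ℕ, (P.cp c (θ.mo k)).ev (n : ℤ) = P.ev ((c + θ.mo k * n : ℕ) : ℤ) := by
    intro n
    rw [Frm.ev_cp]
    push_cast
    rfl
  have hmem : P.cp c (θ.mo k) ∈ (Fs ++ θ.Fs eps g Ns qs k G).map fun F => F.cp c (θ.mo k) :=
    List.mem_map.2 ⟨P, List.mem_append.2 (Or.inr hPF), rfl⟩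
  have hX1 : (1 : ℤ) ≤ (e.X : ℤ) := by exact_mod_cast (by omega : 1 ≤ e.X)
  have key := h.lw q hq1 hq2 hq3 hq4 (t.cp c (θ.mo k))
    ((Fs ++ θ.Fs eps g Ns qs k G).map fun F => F.cp c (θ.mo k)) A' L'
    (Bd_mono he (by omega) q1) (by rw [q2]; exact hlen)
    (q3.trans (Nat.pow_le_pow_right (by omega) (by omega))) (P.cp c (θ.mo k)) (ext_cp e t P c (θ.mo k) hPe)
    (Bd_gd he hxgd m2) (by
      show |P.a * (θ.mo k : ℤ)| ≤ a0 * qhi ^ 2
      rw [abs_mul, hxa, abs_of_nonneg hm0]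
      have h1 : (θ.mo k : ℤ) ≤ (qhi : ℤ) ^ 2 := by exact_mod_cast m4
      exact mul_le_mul hG.ga h1 hm0 h.ha0.1)
    ((q1.bd _ hmem).2.trans (pow_le_pow_right₀ hX1 (by omega)))
    (Dvd.dvd.mul_left hqm _) (hqP c q4)
    (by
      show (e.X : ℤ) ≤ ((2 * cr : ℕ) : ℤ) * (|P.a * (θ.mo k : ℤ)| * L')
      rw [abs_mul, hxa, abs_of_nonneg hm0]
      have h1 := hG.cr
      have h3 : |G.a| * (L : ℤ) ≤ |G.a| * (2 * (θ.mo k * L')) := mul_le_mul_of_nonneg_left q6 (abs_nonneg _)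
      calc (e.X : ℤ) ≤ cr * (|G.a| * L) := h1
        _ ≤ cr * (|G.a| * (2 * (θ.mo k * L'))) := mul_le_mul_of_nonneg_left h3 (by positivity)
        _ = ((2 * cr : ℕ) : ℤ) * (|G.a| * θ.mo k * L') := by push_cast; ring)
    (fun n h1 h2 => by
      rw [hcast n]
      obtain ⟨h3, h4⟩ := q8 n h1 h2
      exact hx1 _ h3 h4)
    (fun n hn => by
      rw [hcast n]
      exact hx2 _ (q9 n hn))
  rw [q10 (fun n : ℕ => lz (eps * P.ev n + q * g) ≠ s * lz (P.ev n)), ← q2]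
  refine Bd_fin (c := 0) (by rw [q2]; exact hM) h.hdl q7 (le_trans (le_of_eq ?_) key)
  congr 2
  refine filter_congr fun n _ => ?_
  rw [hcast n]

open Classical in
/-- the two lower moves -/
theorem bd_low (he : e.Ok) (h : DH e k0 B cr eps g Ns qs k qlo qhi s dl a0 lo hi)
    (hG : BD e k0 B cr (eps * k * g) a0 lo hi t Fs A L G) {θ : Th} (hθ : θ ∈ e.TT qs qlo qhi k G.a)
    (hg : θ.Gn eps g Ns qs k G Fs) :
    (θ.mo k : ℝ) * ((e.SP eps g Ns qs k G t Fs A L θ).filter fun n : ℕ =>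
        lz ((θ.F4 eps g G).ev n) ≠ s * lz ((θ.F2 G).ev n)).card ≤ 101 / 100 * dl * (L * e.MM (Fs.length + 11)) ∧
    (θ.mo k : ℝ) * ((e.SP eps g Ns qs k G t Fs A L θ).filter fun n : ℕ =>
        lz ((θ.F8 eps g G).ev n) ≠ s * lz ((θ.F10 eps g k G).ev n)).card ≤
      101 / 100 * dl * (L * e.MM (Fs.length + 11)) := by
  obtain ⟨⟨t1, t2, t3, t4, t5, t6, t7, t8, t9, t10⟩, u1, u2, u3, u4⟩ := tt_mem hθ
  obtain ⟨x1, x2⟩ := ext_F he h hG.ext hθ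
  obtain ⟨y1, y2⟩ := bd_F he h hG hθ
  have hsp : ∀ n ∈ e.SP eps g Ns qs k G t Fs A L θ, ∀ F ∈ θ.Fs eps g Ns qs k G, Sf e.z (F.ev (n : ℤ)) := by
    intro n hn
    unfold Env.SP at hn
    exact (mem_filter.1 hn).2.2
  have hq : ((θ.q : ℕ) : ℤ) ≡ qs [ZMOD e.W] := (Int.natCast_modEq_iff).2 t5
  have hmo : (θ.mo k : ℤ) = θ.q * |(θ.q : ℤ) - k| := by
    unfold Th.mo
    rw [Nat.cast_mul, Int.natCast_natAbs]
  constructor
  · have := Bd_lw he h hG hθ hg (θ.F2 G) (y2 _ (by simp)) (by simp [Th.Fs]) (x1 _ (by simp)) (θ.q : ℤ)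
      (by exact_mod_cast t1) (by exact_mod_cast t2) t6 hq (by rw [hmo]; exact dvd_mul_right _ _)
      (fun c hc => hc.1)
      (fun n h1 h2 => by
        obtain ⟨-, -, v3, v4, -⟩ := rg_F he h hG hθ n h1 h2
        obtain ⟨-, -, w4, -⟩ := sums eps g h.heps Ns qs k G θ (n : ℤ)
        rw [← w4]
        exact ⟨v3.1, v3.2, v4.1⟩)
      (fun n hn => by
        obtain ⟨-, -, w4, w3, -⟩ := sums eps g h.heps Ns qs k G θ (n : ℤ)
        rw [← w4, ← w3]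
        exact ⟨hsp n hn _ (by simp [Th.Fs]), hsp n hn _ (by simp [Th.Fs]), hsp n hn _ (by simp [Th.Fs])⟩)
    refine le_trans (le_of_eq ?_) this
    congr 3
    refine filter_congr fun n _ => ?_
    obtain ⟨-, -, w4, -⟩ := sums eps g h.heps Ns qs k G θ (n : ℤ)
    rw [w4]
  · have hq' : (θ.q : ℤ) - k ≡ qs [ZMOD e.W] := by
      have h1 : (θ.q : ℤ) - k ≡ θ.q [ZMOD e.W] := by
        refine Int.ModEq.symm ((Int.modEq_iff_dvd).2 ?_)
        rw [show (θ.q : ℤ) - k - θ.q = -k by ring]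
        exact (dvd_neg).2 h.kW
      exact h1.trans hq
    have := Bd_lw he h hG hθ hg (θ.F10 eps g k G) (y2 _ (by simp)) (by simp [Th.Fs]) (x1 _ (by simp))
      ((θ.q : ℤ) - k) t3 t4 t7 hq' (by rw [hmo]; exact Dvd.dvd.mul_left ((dvd_abs _ _).2 dvd_rfl) _)
      (fun c hc => by
        unfold Th.F10
        rw [Frm.ev_af]
        refine dvd_add (Dvd.dvd.mul_left hc.2 _) ⟨-eps * g, by ring⟩)
      (fun n h1 h2 => by
        obtain ⟨-, -, -, -, -, -, -, v8, v10, -⟩ := rg_F he h hG hθ n h1 h2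
        obtain ⟨-, -, -, -, -, -, -, -, w8, -⟩ := sums eps g h.heps Ns qs k G θ (n : ℤ)
        rw [← w8]
        exact ⟨v10.1, v10.2.1, v8⟩)
      (fun n hn => by
        obtain ⟨-, -, -, -, -, -, -, -, w8, w9, -⟩ := sums eps g h.heps Ns qs k G θ (n : ℤ)
        rw [← w8, ← w9]
        exact ⟨hsp n hn _ (by simp [Th.Fs]), hsp n hn _ (by simp [Th.Fs]), hsp n hn _ (by simp [Th.Fs])⟩)
    refine le_trans (le_of_eq ?_) this
    congr 3
    refine filter_congr fun n _ => ?_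
    obtain ⟨-, -, -, -, -, -, -, -, w8, -⟩ := sums eps g h.heps Ns qs k G θ (n : ℤ)
    rw [← w8]

private theorem Bd_or (S : Finset ℕ) (p q : ℕ → Prop) [DecidablePred p] [DecidablePred q]
    [DecidablePred fun n => p n ∨ q n] {a b m : ℝ} (hm : 0 ≤ m) (h1 : m * ((S.filter p).card : ℝ) ≤ a)
    (h2 : m * ((S.filter q).card : ℝ) ≤ b) : m * ((S.filter fun n => p n ∨ q n).card : ℝ) ≤ a + b := by
  have h3 : (S.filter fun n => p n ∨ q n).card ≤ (S.filter p).card + (S.filter q).card := by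
    refine (card_le_card fun x hx => ?_).trans (card_union_le _ _)
    rw [mem_filter] at hx
    rw [mem_union, mem_filter, mem_filter]
    rcases hx.2 with h4 | h4
    · exact Or.inl ⟨hx.1, h4⟩
    · exact Or.inr ⟨hx.1, h4⟩
  have h4 : ((S.filter fun n => p n ∨ q n).card : ℝ) ≤ (S.filter p).card + (S.filter q).card := by
    exact_mod_cast h3
  nlinarith [mul_le_mul_of_nonneg_left h4 hm]

theorem bd (he : e.Ok) (hP2 : e.P2 24) (h : DH e k0 B cr eps g Ns qs k qlo qhi s dl a0 lo hi)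
    (hG : BD e k0 B cr (eps * k * g) a0 lo hi t Fs A L G) {θ : Th} (hθ : θ ∈ e.TT qs qlo qhi k G.a)
    (hg : θ.Gn eps g Ns qs k G Fs) :
    (θ.mo k : ℝ) * (e.VP eps g Ns qs k G t Fs A L s θ).card ≤ (9 * e.eta + 3 * dl) * (L * e.MM (Fs.length + 11)) := by
  classical
  obtain ⟨⟨t1, t2, t3, t4, t5, t6, t7, t8, t9, t10⟩, u1, u2, u3, u4⟩ := tt_mem hθ
  obtain ⟨y1, y2⟩ := bd_F he h hG hθ
  have hM : 0 ≤ e.MM (Fs.length + 11) := le_trans (by positivity) (he.MM0 (Fs.length + 11) (by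
    have h1 := hG.len
    have h2 := h.hk0
    omega))
  have hsp : ∀ n ∈ e.SP eps g Ns qs k G t Fs A L θ, ∀ F ∈ θ.Fs eps g Ns qs k G, Sf e.z (F.ev (n : ℤ)) := by
    intro n hn
    unfold Env.SP at hn
    exact (mem_filter.1 hn).2.2
  have hss : ∀ n ∈ e.SP eps g Ns qs k G t Fs A L θ, Sf e.z (G.ev (n : ℤ)) ∧ Sf e.z (G.ev (n : ℤ) + eps * k * g) := by
    intro n hn
    unfold Env.SP at hn
    exact hG.sf n (mem_filter.1 hn).1
  have hA : θ.nA eps ∈ e.E := by unfold Th.nA; split_ifs <;> assumption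
  have hB' : θ.nB eps ∈ e.E := by unfold Th.nB; split_ifs <;> assumption
  have hC : θ.nC eps ∈ e.E := by unfold Th.nC; split_ifs <;> assumption
  have hD : θ.nD eps ∈ e.E := by unfold Th.nD; split_ifs <;> assumption
  -- one reflection
  have ref : ∀ (x y : Frm) (N : ℕ), (x.a = G.a ∨ x.a = -G.a) → N ∈ e.E →
      (∀ n : ℤ, y.ev n = N - x.ev n) →
      (∀ n : ℕ, A ≤ n → n < A + L → 0 < x.ev n ∧ x.ev n < N) →
      (∀ n ∈ e.SP eps g Ns qs k G t Fs A L θ, Sf e.z (x.ev (n : ℤ)) ∧ Sf e.z (y.ev (n : ℤ))) →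
      (θ.mo k : ℝ) * ((e.SP eps g Ns qs k G t Fs A L θ).filter fun n : ℕ =>
        lz (x.ev n) * lz (y.ev n) ≠ e.kap).card ≤ 101 / 100 * e.eta * (L * e.MM (Fs.length + 11)) := by
    intro x y N h1 h2 h3 h4 h5
    have := bd_ref he hP2 h hG hθ hg x h1 N h2 h4 (fun n hn => by rw [← h3]; exact h5 n hn)
    refine le_trans (le_of_eq ?_) this
    congr 3
    refine filter_congr fun n _ => ?_
    rw [h3]
  have sm := fun n : ℤ => sums eps g h.heps Ns qs k G θ n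
  have rg := fun n : ℕ => rg_F he h hG hθ n
  have r1 := ref G (θ.F1 G) θ.n1 (Or.inl rfl) u1 (fun n => (sm n).1) (fun n h1 h2 => (rg n h1 h2).1)
    (fun n hn => ⟨(hss n hn).1, hsp n hn _ (by simp [Th.Fs])⟩)
  have r2 := ref (θ.F1 G) (θ.F2 G) θ.n1' (y2 _ (by simp)) u2 (fun n => (sm n).2.1)
    (fun n h1 h2 => (rg n h1 h2).2.1)
    (fun n hn => ⟨hsp n hn _ (by simp [Th.Fs]), hsp n hn _ (by simp [Th.Fs])⟩)
  have r4 := ref (θ.F4 eps g G) (θ.F5 eps g G) (θ.nA eps) (y2 _ (by simp)) hA (fun n => (sm n).2.2.2.2.1)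
    (fun n h1 h2 => (rg n h1 h2).2.2.2.1)
    (fun n hn => ⟨hsp n hn _ (by simp [Th.Fs]), hsp n hn _ (by simp [Th.Fs])⟩)
  have r5 := ref (θ.F5 eps g G) (θ.F6 eps g G) (θ.nB eps) (y2 _ (by simp)) hB' (fun n => (sm n).2.2.2.2.2.1)
    (fun n h1 h2 => (rg n h1 h2).2.2.2.2.1)
    (fun n hn => ⟨hsp n hn _ (by simp [Th.Fs]), hsp n hn _ (by simp [Th.Fs])⟩)
  have r6 := ref (θ.F6 eps g G) (θ.F7 eps g G) θ.n2 (y2 _ (by simp)) u3 (fun n => (sm n).2.2.2.2.2.2.1)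
    (fun n h1 h2 => (rg n h1 h2).2.2.2.2.2.1)
    (fun n hn => ⟨hsp n hn _ (by simp [Th.Fs]), hsp n hn _ (by simp [Th.Fs])⟩)
  have r7 := ref (θ.F7 eps g G) (θ.F8 eps g G) θ.n2' (y2 _ (by simp)) u4 (fun n => (sm n).2.2.2.2.2.2.2.1)
    (fun n h1 h2 => (rg n h1 h2).2.2.2.2.2.2.1)
    (fun n hn => ⟨hsp n hn _ (by simp [Th.Fs]), hsp n hn _ (by simp [Th.Fs])⟩)
  have r9 := ref (θ.F10 eps g k G) (θ.F11 eps g k G) (θ.nC eps) (y2 _ (by simp)) hC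
    (fun n => (sm n).2.2.2.2.2.2.2.2.2.2.1)
    (fun n h1 h2 => (rg n h1 h2).2.2.2.2.2.2.2.2.1.2.2)
    (fun n hn => ⟨hsp n hn _ (by simp [Th.Fs]), hsp n hn _ (by simp [Th.Fs])⟩)
  have hev : ∀ n : ℤ, (G.af 1 (eps * k * g)).ev n = G.ev n + eps * k * g := by
    intro n
    rw [Frm.ev_af, one_mul]
  have r10 := ref (θ.F11 eps g k G) (G.af 1 (eps * k * g)) (θ.nD eps) (y2 _ (by simp)) hD
    (fun n => by rw [hev]; exact (sm n).2.2.2.2.2.2.2.2.2.2.2)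
    (fun n h1 h2 => (rg n h1 h2).2.2.2.2.2.2.2.2.2)
    (fun n hn => ⟨hsp n hn _ (by simp [Th.Fs]), by rw [hev]; exact (hss n hn).2⟩)
  simp only [hev] at r10
  obtain ⟨r3, r8⟩ := bd_low he h hG hθ hg
  have hm0 : (0 : ℝ) ≤ θ.mo k := Nat.cast_nonneg _
  have all := Bd_or _ _ _ hm0 r1 (Bd_or _ _ _ hm0 r2 (Bd_or _ _ _ hm0 r3 (Bd_or _ _ _ hm0 r4
    (Bd_or _ _ _ hm0 r5 (Bd_or _ _ _ hm0 r6 (Bd_or _ _ _ hm0 r7 (Bd_or _ _ _ hm0 r8
    (Bd_or _ _ _ hm0 r9 r10))))))))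
  unfold Env.VP
  refine le_trans (le_of_eq ?_) (all.trans ?_)
  · congr 3
  · have h1 : 0 ≤ e.eta * (L * e.MM (Fs.length + 11)) := by have := he.eta0; positivity
    have h2 : 0 ≤ dl * (L * e.MM (Fs.length + 11)) := by have := h.hdl; positivity
    nlinarith

end Pool.Agent.Lib.EX
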