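import Pool.Agent.Lib.MP_61161c_nt.EX.Fcnt

/-!
# EX, block D, module Bes: Bessel's inequality with a majorant

`J` finite set of characters, `ν ≥ 0` on `S`, `ν ≥ 1` on `R ⊆ S`, `‖f‖ ≤ 1`. Then
`∑_{χ ∈ J} ‖∑_{m ∈ R} f m * χ m‖² ≤ |R| (∑_S ν + |J| E)` if `E` bounds the sums `∑_S ν m χ m ψ⁻¹ m`, `χ ≠ ψ` in `J`.

PROOF. `c χ = ∑_R f χ`. `∑ ‖c‖² = ∑_{m ∈ R} f m * ∑_χ conj (c χ) χ m ≤ (|R|)^(1/2) (∑_S ν |∑ conj c χ|²)^(1/2)` and the last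
sum is `≤ ∑ ‖c‖² (∑_S ν) + ∑_{χ ≠ ψ} ‖c χ‖ ‖c ψ‖ E ≤ ∑ ‖c‖² (T + |J| E)`.
-/

set_option autoImplicit false

open Finset

namespace Pool.Agent.Lib.EX

open Pool.Agent.Lib.RG (bch chNorm chInv chPars chParsF phi_pos phi_ne chOrth chStar chNormsq chExpand)

theorem bes {N : ℕ} (J : Finset (DirichletCharacter ℂ N)) (S R : Finset ℕ) (hR : R ⊆ S)
    (ν : ℕ → ℝ) (hν : ∀ m ∈ S, 0 ≤ ν m) (hν1 : ∀ m ∈ R, 1 ≤ ν m) (f : ℕ → ℂ) (hf : ∀ m ∈ R, ‖f m‖ ≤ 1)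
    (E : ℝ) (hE : 0 ≤ E) (hJ : ∀ χ ∈ J, ∀ ψ ∈ J, χ ≠ ψ →
      ‖∑ m ∈ S, (ν m : ℂ) * (χ (m : ZMod N) * (starRingEnd ℂ) (ψ (m : ZMod N)))‖ ≤ E) :
    ∑ χ ∈ J, ‖∑ m ∈ R, f m * χ (m : ZMod N)‖ ^ 2 ≤ R.card * (∑ m ∈ S, ν m + J.card * E) := by
  classical
  set c : DirichletCharacter ℂ N → ℂ := fun χ => ∑ m ∈ R, f m * χ (m : ZMod N) with hc
  set A : ℝ := ∑ χ ∈ J, ‖c χ‖ ^ 2 with hA
  set T : ℝ := ∑ m ∈ S, ν m with hT
  have hA0 : 0 ≤ A := sum_nonneg fun χ _ => sq_nonneg _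
  have hT0 : 0 ≤ T := sum_nonneg hν
  have hc1 : ∀ (χ : DirichletCharacter ℂ N) (m : ℕ), ‖χ (m : ZMod N)‖ ≤ 1 := fun χ m => χ.norm_le_one _
  set g : ℕ → ℂ := fun m => ∑ χ ∈ J, (starRingEnd ℂ) (c χ) * χ (m : ZMod N) with hg
  -- A = ∑ f g
  have h1 : (A : ℂ) = ∑ m ∈ R, f m * g m := by
    rw [hA]
    push_cast
    have h2 : ∀ χ ∈ J, ((‖c χ‖ : ℂ)) ^ 2 = ∑ m ∈ R, f m * ((starRingEnd ℂ) (c χ) * χ (m : ZMod N)) := by
      intro χ _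
      rw [← Complex.conj_mul']
      nth_rewrite 2 [hc]
      simp only
      rw [mul_sum]
      refine sum_congr rfl fun m _ => ?_
      ring
    rw [sum_congr rfl h2, sum_comm]
    refine sum_congr rfl fun m _ => ?_
    rw [hg]
    simp only
    rw [mul_sum]
  have h2 : A ≤ ∑ m ∈ R, ‖g m‖ := by
    have h3 : A = ‖(A : ℂ)‖ := by rw [Complex.norm_real, Real.norm_eq_abs, abs_of_nonneg hA0]
    rw [h3, h1]
    refine (norm_sum_le _ _).trans (sum_le_sum fun m hm => ?_)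
    rw [norm_mul]
    calc ‖f m‖ * ‖g m‖ ≤ 1 * ‖g m‖ := mul_le_mul_of_nonneg_right (hf m hm) (norm_nonneg _)
      _ = _ := one_mul _
  have h3 : A ^ 2 ≤ R.card * ∑ m ∈ S, ν m * ‖g m‖ ^ 2 := by
    calc A ^ 2 ≤ (∑ m ∈ R, ‖g m‖) ^ 2 := pow_le_pow_left₀ hA0 h2 2
      _ ≤ R.card * ∑ m ∈ R, ‖g m‖ ^ 2 := sq_sum_le_card_mul_sum_sq
      _ ≤ R.card * ∑ m ∈ S, ν m * ‖g m‖ ^ 2 := by
          refine mul_le_mul_of_nonneg_left ?_ (Nat.cast_nonneg _)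
          calc ∑ m ∈ R, ‖g m‖ ^ 2 ≤ ∑ m ∈ R, ν m * ‖g m‖ ^ 2 := by
                refine sum_le_sum fun m hm => ?_
                nlinarith [hν1 m hm, sq_nonneg ‖g m‖]
            _ ≤ _ := sum_le_sum_of_subset_of_nonneg hR fun m hm _ => mul_nonneg (hν m hm) (sq_nonneg _)
  -- expansion of the weighted square
  have h4 : ((∑ m ∈ S, ν m * ‖g m‖ ^ 2 : ℝ) : ℂ) = ∑ χ ∈ J, ∑ ψ ∈ J,
      ((starRingEnd ℂ) (c χ) * c ψ) *
        ∑ m ∈ S, (ν m : ℂ) * (χ (m : ZMod N) * (starRingEnd ℂ) (ψ (m : ZMod N))) := by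
    rw [Complex.ofReal_sum]
    have h5 : ∀ m ∈ S, ((ν m * ‖g m‖ ^ 2 : ℝ) : ℂ) = ∑ χ ∈ J, ∑ ψ ∈ J,
        ((starRingEnd ℂ) (c χ) * c ψ) * ((ν m : ℂ) * (χ (m : ZMod N) * (starRingEnd ℂ) (ψ (m : ZMod N)))) := by
      intro m _
      rw [Complex.ofReal_mul]
      have h6 := chExpand J (fun χ => (starRingEnd ℂ) (c χ)) (fun χ => χ (m : ZMod N))
      simp only [Complex.conj_conj] at h6
      rw [show ‖g m‖ ^ 2 = ‖∑ χ ∈ J, (starRingEnd ℂ) (c χ) * χ (m : ZMod N)‖ ^ 2 from rfl, h6, mul_sum]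
      refine sum_congr rfl fun χ _ => ?_
      rw [mul_sum]
      refine sum_congr rfl fun ψ _ => ?_
      ring
    rw [sum_congr rfl h5, sum_comm]
    refine sum_congr rfl fun χ _ => ?_
    rw [sum_comm]
    refine sum_congr rfl fun ψ _ => ?_
    exact (mul_sum S _ _).symm
  have h5 : ∑ m ∈ S, ν m * ‖g m‖ ^ 2 ≤ A * (T + J.card * E) := by
    have h6 : ∑ m ∈ S, ν m * ‖g m‖ ^ 2 = ‖((∑ m ∈ S, ν m * ‖g m‖ ^ 2 : ℝ) : ℂ)‖ := by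
      rw [Complex.norm_real, Real.norm_eq_abs, abs_of_nonneg]
      exact sum_nonneg fun m hm => mul_nonneg (hν m hm) (sq_nonneg _)
    rw [h6, h4]
    have h7 : ∀ χ ∈ J, ∀ ψ ∈ J, ‖((starRingEnd ℂ) (c χ) * c ψ) *
        ∑ m ∈ S, (ν m : ℂ) * (χ (m : ZMod N) * (starRingEnd ℂ) (ψ (m : ZMod N)))‖ ≤
        (if χ = ψ then ‖c χ‖ ^ 2 * T else 0) + ‖c χ‖ * ‖c ψ‖ * E := by
      intro χ hχ ψ hψ
      rw [norm_mul, norm_mul, RCLike.norm_conj]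
      by_cases h8 : χ = ψ
      · subst h8
        rw [if_pos rfl]
        have h9 : ‖∑ m ∈ S, (ν m : ℂ) * (χ (m : ZMod N) * (starRingEnd ℂ) (χ (m : ZMod N)))‖ ≤ T := by
          refine (norm_sum_le _ _).trans (sum_le_sum fun m hm => ?_)
          rw [norm_mul, norm_mul, RCLike.norm_conj, Complex.norm_real, Real.norm_eq_abs,
            abs_of_nonneg (hν m hm)]
          have h10 := hc1 χ m
          have h11 := norm_nonneg (χ (m : ZMod N))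
          calc ν m * (‖χ (m : ZMod N)‖ * ‖χ (m : ZMod N)‖) ≤ ν m * 1 := by
                refine mul_le_mul_of_nonneg_left ?_ (hν m hm)
                nlinarith
            _ = ν m := mul_one _
        calc ‖c χ‖ * ‖c χ‖ * ‖∑ m ∈ S, (ν m : ℂ) * (χ (m : ZMod N) * (starRingEnd ℂ) (χ (m : ZMod N)))‖ ≤
              ‖c χ‖ * ‖c χ‖ * T := mul_le_mul_of_nonneg_left h9 (by positivity)
          _ ≤ ‖c χ‖ ^ 2 * T + ‖c χ‖ * ‖c χ‖ * E := by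
              have : 0 ≤ ‖c χ‖ * ‖c χ‖ * E := by positivity
              nlinarith
      · rw [if_neg h8, zero_add]
        exact mul_le_mul_of_nonneg_left (hJ χ hχ ψ hψ h8) (by positivity)
    calc ‖∑ χ ∈ J, ∑ ψ ∈ J, ((starRingEnd ℂ) (c χ) * c ψ) *
          ∑ m ∈ S, (ν m : ℂ) * (χ (m : ZMod N) * (starRingEnd ℂ) (ψ (m : ZMod N)))‖ ≤
          ∑ χ ∈ J, ∑ ψ ∈ J, ‖((starRingEnd ℂ) (c χ) * c ψ) *
          ∑ m ∈ S, (ν m : ℂ) * (χ (m : ZMod N) * (starRingEnd ℂ) (ψ (m : ZMod N)))‖ :=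
          (norm_sum_le _ _).trans (sum_le_sum fun χ _ => norm_sum_le _ _)
      _ ≤ ∑ χ ∈ J, ∑ ψ ∈ J, ((if χ = ψ then ‖c χ‖ ^ 2 * T else 0) + ‖c χ‖ * ‖c ψ‖ * E) :=
          sum_le_sum fun χ hχ => sum_le_sum fun ψ hψ => h7 χ hχ ψ hψ
      _ = A * T + (∑ χ ∈ J, ‖c χ‖) ^ 2 * E := by
          simp_rw [sum_add_distrib]
          congr 1
          · rw [hA, sum_mul]
            refine sum_congr rfl fun χ hχ => ?_
            rw [sum_ite_eq, if_pos hχ]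
          · rw [pow_two, sum_mul_sum, sum_mul]
            refine sum_congr rfl fun χ _ => ?_
            rw [sum_mul]
      _ ≤ A * T + (J.card * A) * E := by
          have h8 : (∑ χ ∈ J, ‖c χ‖) ^ 2 ≤ J.card * A := sq_sum_le_card_mul_sum_sq
          nlinarith
      _ = _ := by ring
  have h6 : A ^ 2 ≤ A * (R.card * (T + J.card * E)) := by
    calc A ^ 2 ≤ R.card * ∑ m ∈ S, ν m * ‖g m‖ ^ 2 := h3
      _ ≤ R.card * (A * (T + J.card * E)) := mul_le_mul_of_nonneg_left h5 (Nat.cast_nonneg _)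
      _ = _ := by ring
  rcases eq_or_lt_of_le hA0 with h7 | h7
  · rw [← h7]
    positivity
  · rw [pow_two] at h6
    exact le_of_mul_le_mul_left h6 h7

end Pool.Agent.Lib.EX
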