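import Pool.Agent.Lib.MP_61161c_nt.EX.Dd
import Pool.Agent.Lib.MP_45349e_nt.LS.LamB

/-!
# EX, block C: the reflections about the exceptional numbers give a period

`low_a`: the lower move `m ↦ m + d` where `N_a - N_b = q0 d`; `low_b`: the lower move `m ↦ g - m` where `p0 g = N_k + j0 d`.
-/

set_option autoImplicit false

open Finset
open Pool.Agent.Lib.MP_45349e_nt.LS (lam lam_mul)
open Pool.Agent.Lib.GT (Rough pr)

namespace Pool.Agent.Lib.EX

theorem Sf.dvd {z : ℕ} {a b : ℤ} (h : Sf z b) (hd : a ∣ b) : Sf z a :=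
  fun p hp hz h1 => h p hp hz (h1.trans hd)

theorem Sf.mul {z : ℕ} {a b : ℤ} (ha : Sf z a) (hb : Sf z b) : Sf z (a * b) := by
  intro p hp hz h1
  rcases (Nat.prime_iff_prime_int.1 hp).dvd_or_dvd h1 with h | h
  · exact ha p hp hz h
  · exact hb p hp hz h

theorem Sf.ne0 {z : ℕ} {a : ℤ} (hz : 2 ≤ z) (ha : Sf z a) : a ≠ 0 := by
  rintro rfl
  exact ha 2 Nat.prime_two hz (dvd_zero _)

theorem Env.Gd.mul {e : Env} {a b : ℤ} (ha : e.Gd a) (hb : e.Gd b) (hB : ∀ p ∈ e.Bad, p.Prime) : e.Gd (a * b) := by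
  refine ⟨ha.1.mul hb.1, fun p hp h1 => ?_⟩
  rcases (Nat.prime_iff_prime_int.1 (hB p hp)).dvd_or_dvd h1 with h | h
  · exact ha.2 p hp h
  · exact hb.2 p hp h

theorem Env.Gd.dvd {e : Env} {a b : ℤ} (h : e.Gd b) (hd : a ∣ b) : e.Gd a :=
  ⟨h.1.dvd hd, fun p hp h1 => h.2 p hp (h1.trans hd)⟩

theorem lam_pm' (n : ℕ) : lam n = 1 ∨ lam n = -1 := by
  unfold lam
  exact neg_one_pow_eq_or ℝ _

theorem lz_pm (x : ℤ) : lz x = 1 ∨ lz x = -1 := lam_pm' _

theorem lz_mul {a b : ℤ} (ha : a ≠ 0) (hb : b ≠ 0) : lz (a * b) = lz a * lz b := by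
  unfold lz
  rw [Int.natAbs_mul, lam_mul _ _ (Int.natAbs_ne_zero.2 ha) (Int.natAbs_ne_zero.2 hb)]

theorem lz_neg (a : ℤ) : lz (-a) = lz a := by
  unfold lz
  rw [Int.natAbs_neg]

theorem Frm.ev_mk (a b n : ℤ) : (⟨a, b⟩ : Frm).ev n = a * n + b := rfl

namespace Env

variable {e : Env}

theorem Ok.z2 (he : e.Ok) : 2 ≤ e.z := by
  have := he.w
  have := he.wz
  omega

theorem Ok.Y4 (he : e.Ok) : 40000 ≤ e.Y := by
  have h2 := he.zY
  have h3 := he.w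
  have h4 := he.wz
  nlinarith

theorem Ok.YpX (he : e.Ok) {n : ℕ} (hn : n ≤ 10000) : e.Y ^ n ≤ e.X :=
  (Nat.pow_le_pow_right (by have := he.Y4; omega) hn).trans he.YX

theorem Ok.Xbig (he : e.Ok) : 40000 ≤ e.X := by
  have h1 := he.YpX (n := 1) (by norm_num)
  have h4 := he.Y4
  rw [pow_one] at h1
  omega

theorem Ok.Xpos (he : e.Ok) : 0 < e.X := by
  have := he.Xbig
  omega

theorem Ok.BadP (he : e.Ok) : ∀ p ∈ e.Bad, p.Prime := fun p hp => (he.bad.2 p hp).1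

theorem SOk.mono {B B' : ℕ} {t : Frm} {Fs : List Frm} (h : e.SOk B t Fs) (hX : 0 < e.X) (hB : B ≤ B') :
    e.SOk B' t Fs := by
  have h1 : (e.X : ℤ) ^ B ≤ (e.X : ℤ) ^ B' := pow_le_pow_right₀ (by exact_mod_cast hX) hB
  exact ⟨h.ta, h.sa, fun F hF => ⟨(h.bd F hF).1.trans h1, (h.bd F hF).2.trans h1⟩, h.ty, h.np⟩

/-- the lower move of the first type: `m ↦ m + d`, `N_a = N_b + q0 d` -/
theorem low_a (he : e.Ok) (hP2 : e.P2 24) {Na Nb q0 : ℕ} {d : ℤ} (hNa : Na ∈ e.E) (hNb : Nb ∈ e.E) (hd : 0 < d)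
    (hq0d : (Na : ℤ) = Nb + q0 * d) (hq0 : e.Gd q0) {q : ℤ} (hq1 : q0 ≤ q) (hq2 : q ≤ 2 * q0)
    {k0 B cr : ℕ} (hk : k0 ≤ 24) (hB : B ≤ 40) (hcr : cr ≤ 10 ^ 8) {a0 lo hi : ℤ} (ha0 : a0 ≤ (e.Y : ℤ) ^ 100)
    (hlo : 0 < lo) (hhi : hi < e.Xs) : e.Low k0 B cr 1 d Nb q0 q 1 (2 * e.eta) a0 lo hi := by
  classical
  intro t Fs A L hS hk0 hAL G hExt hGd hGa hGb hqa hqb hX hrange hSf
  obtain ⟨a', ha'⟩ := hqa
  obtain ⟨b', hb'⟩ := hqb
  have hXp := he.Xpos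
  have hz := he.z2
  have hq0p : (0 : ℤ) < q0 := by
    have := hq0.1.ne0 hz
    omega
  have hqp : 0 < q := lt_of_lt_of_le hq0p hq1
  have hqGd : e.Gd q := hGd.dvd ⟨a', ha'⟩
  have ha'Gd : e.Gd a' := hGd.dvd ⟨q, by rw [ha']; ring⟩
  have hSOk : e.SOk 40 t Fs := hS.mono hXp hB
  have hGev : ∀ n : ℤ, G.ev n = q * (a' * n + b') := fun n => by
    unfold Frm.ev
    rw [ha', hb']
    ring
  have haq : |G.a| = q * |a'| := by rw [ha', abs_mul, abs_of_pos hqp]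
  have hxa : |(q0 : ℤ) * a'| = q0 * |a'| := by rw [abs_mul, abs_of_pos hq0p]
  have ha'0 : 0 ≤ |a'| := abs_nonneg _
  have hxle : |(q0 : ℤ) * a'| ≤ (e.Y : ℤ) ^ 100 := by
    rw [hxa]
    calc (q0 : ℤ) * |a'| ≤ q * |a'| := mul_le_mul_of_nonneg_right hq1 ha'0
      _ = |G.a| := haq.symm
      _ ≤ _ := hGa.trans ha0
  have hL0 : (0 : ℤ) ≤ L := by positivity
  have hxX : (e.X : ℤ) ≤ 10 ^ 9 * (|(q0 : ℤ) * a'| * L) := by
    rw [hxa]
    have h1 : |G.a| * L ≤ 2 * (q0 * |a'| * L) := by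
      rw [haq]
      have : q * |a'| * L ≤ 2 * q0 * |a'| * L := by gcongr
      linarith
    have h2 : (0 : ℤ) ≤ |G.a| * L := by positivity
    have h3 : (cr : ℤ) ≤ 10 ^ 8 := by exact_mod_cast hcr
    calc (e.X : ℤ) ≤ cr * (|G.a| * L) := hX
      _ ≤ 10 ^ 8 * (|G.a| * L) := by gcongr
      _ ≤ 10 ^ 8 * (2 * (q0 * |a'| * L)) := by gcongr
      _ = (2 * 10 ^ 8) * (q0 * |a'| * L) := by ring
      _ ≤ _ := mul_le_mul_of_nonneg_right (by norm_num) (mul_nonneg (mul_nonneg hq0p.le ha'0) hL0)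
  have hAL' : A + L ≤ e.X ^ 40 := hAL.trans (Nat.pow_le_pow_right hXp hB)
  have hm : ∀ n : ℕ, A ≤ n → n < A + L → 0 < a' * n + b' ∧ (q0 : ℤ) * (a' * n + b') < Nb := by
    intro n h1 h2
    obtain ⟨h3, h4, -⟩ := hrange n h1 h2
    have h5 : 0 < q * (a' * n + b') := by rw [← hGev]; omega
    have h6 : 0 < a' * (n : ℤ) + b' := pos_of_mul_pos_right h5 hqp.le
    refine ⟨h6, ?_⟩
    have h7 : (q0 : ℤ) * (a' * n + b') ≤ q * (a' * n + b') := mul_le_mul_of_nonneg_right hq1 h6.le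
    have h8 : (e.Xs : ℤ) ≤ Nb := by exact_mod_cast (he.EH Nb hNb).1
    rw [hGev] at h4
    linarith
  have hm' : ∀ n ∈ e.SS t Fs A L, (A ≤ n ∧ n < A + L) := by
    intro n hn
    unfold Env.SS at hn
    rw [mem_filter, mem_Ico] at hn
    exact hn.1
  have key : ∀ n ∈ e.SS t Fs A L, Sf e.z (a' * n + b') ∧ Sf e.z (a' * n + b' + d) ∧ Sf e.z (Nb - q0 * (a' * n + b')) := by
    intro n hn
    obtain ⟨h1, h2, h3⟩ := hSf n hn
    rw [hGev] at h1 h2 h3
    exact ⟨h1.dvd (Dvd.intro_left _ rfl), h2.dvd ⟨q, by ring⟩, h3.dvd ⟨q, by ring⟩⟩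
  have p1 := hP2 t Fs A L hSOk (hk0.trans hk) ⟨q0 * a', q0 * b'⟩ Nb hNb (hq0.mul ha'Gd he.BadP) hxle hxX hAL'
    (by
      intro n h1 h2
      obtain ⟨h3, h4⟩ := hm n h1 h2
      have h5 : (⟨q0 * a', q0 * b'⟩ : Frm).ev n = q0 * (a' * n + b') := by rw [Frm.ev_mk]; ring
      rw [h5]
      exact ⟨mul_pos hq0p h3, h4⟩)
    (by
      intro n hn
      obtain ⟨h1, h2, h3⟩ := key n hn
      have h5 : (⟨q0 * a', q0 * b'⟩ : Frm).ev n = q0 * (a' * n + b') := by rw [Frm.ev_mk]; ring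
      rw [h5]
      exact ⟨hq0.1.mul h1, h3⟩)
  have p2 := hP2 t Fs A L hSOk (hk0.trans hk) ⟨q0 * a', q0 * (b' + d)⟩ Na hNa (hq0.mul ha'Gd he.BadP) hxle hxX hAL'
    (by
      intro n h1 h2
      obtain ⟨h3, h4⟩ := hm n h1 h2
      have h5 : (⟨q0 * a', q0 * (b' + d)⟩ : Frm).ev n = q0 * (a' * n + b' + d) := by rw [Frm.ev_mk]; ring
      rw [h5, hq0d]
      exact ⟨mul_pos hq0p (by linarith), by rw [mul_add]; linarith⟩)
    (by
      intro n hn
      obtain ⟨h1, h2, h3⟩ := key n hn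
      have h5 : (⟨q0 * a', q0 * (b' + d)⟩ : Frm).ev n = q0 * (a' * n + b' + d) := by rw [Frm.ev_mk]; ring
      rw [h5, hq0d]
      refine ⟨hq0.1.mul h2, ?_⟩
      have h6 : (Nb : ℤ) + q0 * d - q0 * (a' * n + b' + d) = Nb - q0 * (a' * n + b') := by ring
      rw [h6]
      exact h3)
  have hsub : ((e.SS t Fs A L).filter fun n : ℕ => lz (1 * G.ev n + q * d) ≠ 1 * lz (G.ev n)) ⊆
      ((e.SS t Fs A L).filter fun n : ℕ => lz ((⟨q0 * a', q0 * b'⟩ : Frm).ev n) *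
        lz (Nb - (⟨q0 * a', q0 * b'⟩ : Frm).ev n) ≠ e.kap) ∪
      ((e.SS t Fs A L).filter fun n : ℕ => lz ((⟨q0 * a', q0 * (b' + d)⟩ : Frm).ev n) *
        lz (Na - (⟨q0 * a', q0 * (b' + d)⟩ : Frm).ev n) ≠ e.kap) := by
    intro n hn
    rw [mem_filter] at hn
    obtain ⟨hn1, hn2⟩ := hn
    rw [mem_union, mem_filter, mem_filter]
    by_contra hcon
    push Not at hcon
    obtain ⟨h1, h2⟩ := hcon
    have h1 := h1 hn1
    have h2 := h2 hn1
    obtain ⟨k1, k2, k3⟩ := key n hn1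
    have h5 : (⟨q0 * a', q0 * b'⟩ : Frm).ev n = q0 * (a' * n + b') := by rw [Frm.ev_mk]; ring
    have h6 : (⟨q0 * a', q0 * (b' + d)⟩ : Frm).ev n = q0 * (a' * n + b' + d) := by rw [Frm.ev_mk]; ring
    have h7 : (Nb : ℤ) + q0 * d - q0 * (a' * n + b' + d) = Nb - q0 * (a' * n + b') := by ring
    rw [h5] at h1
    rw [h6, hq0d, h7] at h2
    have c0 : (q0 : ℤ) ≠ 0 := hq0p.ne'
    rw [lz_mul c0 (k1.ne0 hz)] at h1
    rw [lz_mul c0 (k2.ne0 hz)] at h2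
    apply hn2
    have h8 : 1 * G.ev n + q * d = q * (a' * n + b' + d) := by rw [hGev]; ring
    rw [h8, hGev, lz_mul hqp.ne' (k1.ne0 hz), lz_mul hqp.ne' (k2.ne0 hz), one_mul]
    congr 1
    have h9 : lz (Nb - q0 * (a' * n + b')) ≠ 0 := by
      rcases lz_pm (Nb - q0 * (a' * n + b')) with h | h <;> rw [h] <;> norm_num
    have h10 : lz (q0 : ℤ) ≠ 0 := by
      rcases lz_pm (q0 : ℤ) with h | h <;> rw [h] <;> norm_num
    have h11 := h1.trans h2.symm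
    have h12 := mul_right_cancel₀ h9 h11
    exact (mul_left_cancel₀ h10 h12).symm
  calc _ ≤ ((((e.SS t Fs A L).filter fun n : ℕ => lz ((⟨q0 * a', q0 * b'⟩ : Frm).ev n) *
        lz (Nb - (⟨q0 * a', q0 * b'⟩ : Frm).ev n) ≠ e.kap) ∪
      ((e.SS t Fs A L).filter fun n : ℕ => lz ((⟨q0 * a', q0 * (b' + d)⟩ : Frm).ev n) *
        lz (Na - (⟨q0 * a', q0 * (b' + d)⟩ : Frm).ev n) ≠ e.kap)).card : ℝ) := by
        exact_mod_cast card_le_card hsub
    _ ≤ _ := by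
        have := card_union_le ((e.SS t Fs A L).filter fun n : ℕ => lz ((⟨q0 * a', q0 * b'⟩ : Frm).ev n) *
          lz (Nb - (⟨q0 * a', q0 * b'⟩ : Frm).ev n) ≠ e.kap) ((e.SS t Fs A L).filter fun n : ℕ =>
          lz ((⟨q0 * a', q0 * (b' + d)⟩ : Frm).ev n) * lz (Na - (⟨q0 * a', q0 * (b' + d)⟩ : Frm).ev n) ≠ e.kap)
        have h : ((_ : ℕ) : ℝ) ≤ ((_ + _ : ℕ) : ℝ) := Nat.cast_le.2 this
        push_cast at h
        linarith

/-- the lower move of the second type: `m ↦ g - m`, `p0 g = N_k + v`, the shift by `v` is valid -/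
theorem low_b (he : e.Ok) (hP2 : e.P2 24) {Nk p0 : ℕ} {g v : ℤ} (hNk : Nk ∈ e.E) (hg : (p0 : ℤ) * g = Nk + v)
    (hp0 : e.Gd p0) {q : ℤ} (hq1 : q ≤ p0) (hq2 : p0 ≤ 2 * q) (hqW : q ≡ p0 [ZMOD e.W])
    {k0 B cr : ℕ} (hk : k0 ≤ 24) (hB : B ≤ 39) (hcr : cr ≤ 10 ^ 9) {a0 lo hi : ℤ} (ha0 : 2 * a0 ≤ (e.Y : ℤ) ^ 100)
    (hlo : 0 < lo) (hhi : 2 * hi < e.Xs) {dl : ℝ} {a1 lo1 hi1 : ℤ} (hB1 : 1 ≤ B) (ha1 : 2 * a0 ≤ a1)
    (hv : ∀ y : ℤ, lo ≤ y → y ≤ 2 * hi → lo1 ≤ Nk - y ∧ Nk - y ≤ hi1 ∧ lo1 ≤ Nk - y + v ∧ Nk - y + v ≤ hi1)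
    (hV : e.Val k0 (B + 1) cr v dl a1 lo1 hi1) :
    e.Low k0 B cr (-1) g Nk p0 q e.kap (e.eta + dl) a0 lo hi := by
  classical
  intro t Fs A L hS hk0 hAL G hExt hGd hGa hGb hqa hqb hX hrange hSf
  obtain ⟨a', ha'⟩ := hqa
  obtain ⟨b', hb'⟩ := hqb
  have hXp := he.Xpos
  have hz := he.z2
  have hp0p : (0 : ℤ) < p0 := by
    have := hp0.1.ne0 hz
    omega
  have hqp : 0 < q := by omega
  have ha'Gd : e.Gd a' := hGd.dvd ⟨q, by rw [ha']; ring⟩
  have hSOk : e.SOk 40 t Fs := hS.mono hXp (hB.trans (by norm_num))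
  have hGev : ∀ n : ℤ, G.ev n = q * (a' * n + b') := fun n => by
    unfold Frm.ev
    rw [ha', hb']
    ring
  have haq : |G.a| = q * |a'| := by rw [ha', abs_mul, abs_of_pos hqp]
  have hbq : |G.b| = q * |b'| := by rw [hb', abs_mul, abs_of_pos hqp]
  have hxa : |(p0 : ℤ) * a'| = p0 * |a'| := by rw [abs_mul, abs_of_pos hp0p]
  have ha'0 : 0 ≤ |a'| := abs_nonneg _
  have hb'0 : 0 ≤ |b'| := abs_nonneg _
  have hxa2 : |(p0 : ℤ) * a'| ≤ 2 * a0 := by
    rw [hxa]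
    calc (p0 : ℤ) * |a'| ≤ 2 * q * |a'| := mul_le_mul_of_nonneg_right hq2 ha'0
      _ = 2 * |G.a| := by rw [haq]; ring
      _ ≤ _ := by linarith
  have hL0 : (0 : ℤ) ≤ L := by positivity
  have hXL : (e.X : ℤ) ≤ cr * (|(p0 : ℤ) * a'| * L) := by
    rw [hxa]
    calc (e.X : ℤ) ≤ cr * (|G.a| * L) := hX
      _ = cr * (q * |a'| * L) := by rw [haq]
      _ ≤ _ := by gcongr
  have hxX : (e.X : ℤ) ≤ 10 ^ 9 * (|(p0 : ℤ) * a'| * L) := by
    have h3 : (cr : ℤ) ≤ 10 ^ 9 := by exact_mod_cast hcr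
    exact hXL.trans (mul_le_mul_of_nonneg_right h3 (mul_nonneg (abs_nonneg _) hL0))
  have hAL' : A + L ≤ e.X ^ 40 := hAL.trans (Nat.pow_le_pow_right hXp (hB.trans (by norm_num)))
  have hm : ∀ n : ℕ, A ≤ n → n < A + L → lo ≤ (p0 : ℤ) * (a' * n + b') ∧ (p0 : ℤ) * (a' * n + b') ≤ 2 * hi := by
    intro n h1 h2
    obtain ⟨h3, h4, -⟩ := hrange n h1 h2
    have h5 : 0 < q * (a' * n + b') := by rw [← hGev]; omega
    have h6 : 0 < a' * (n : ℤ) + b' := pos_of_mul_pos_right h5 hqp.le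
    rw [hGev] at h3 h4
    have h7 : q * (a' * n + b') ≤ (p0 : ℤ) * (a' * n + b') := mul_le_mul_of_nonneg_right hq1 h6.le
    have h8 : (p0 : ℤ) * (a' * n + b') ≤ 2 * q * (a' * n + b') := mul_le_mul_of_nonneg_right hq2 h6.le
    constructor
    · linarith
    · rw [mul_assoc] at h8
      linarith
  have key : ∀ n ∈ e.SS t Fs A L, Sf e.z (a' * n + b') ∧ Sf e.z (g - (a' * n + b')) ∧ Sf e.z (Nk - p0 * (a' * n + b')) := by
    intro n hn
    obtain ⟨h1, h2, h3⟩ := hSf n hn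
    rw [hGev] at h1 h2 h3
    exact ⟨h1.dvd (Dvd.intro_left _ rfl), h2.dvd ⟨q, by ring⟩, h3.dvd ⟨q, by ring⟩⟩
  have hev : ∀ n : ℤ, (⟨p0 * a', p0 * b'⟩ : Frm).ev n = p0 * (a' * n + b') := fun n => by rw [Frm.ev_mk]; ring
  have hev2 : ∀ n : ℤ, (⟨-(p0 * a'), Nk - p0 * b'⟩ : Frm).ev n = Nk - p0 * (a' * n + b') := fun n => by
    rw [Frm.ev_mk]; ring
  have p1 := hP2 t Fs A L hSOk (hk0.trans hk) ⟨p0 * a', p0 * b'⟩ Nk hNk (hp0.mul ha'Gd he.BadP) (hxa2.trans ha0) hxX hAL'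
    (by
      intro n h1 h2
      obtain ⟨h3, h4⟩ := hm n h1 h2
      have h8 : (e.Xs : ℤ) ≤ Nk := by exact_mod_cast (he.EH Nk hNk).1
      rw [hev]
      constructor
      · linarith
      · linarith)
    (by
      intro n hn
      obtain ⟨h1, h2, h3⟩ := key n hn
      rw [hev]
      exact ⟨hp0.1.mul h1, h3⟩)
  have hExt' : e.Ext t ⟨-(p0 * a'), Nk - p0 * b'⟩ := by
    have hqd : (e.W : ℤ) ∣ p0 - q := hqW.dvd
    have hNW : (e.W : ℤ) ∣ Nk - e.N0 := ((Int.natCast_modEq_iff.2 (he.EW Nk hNk)).symm).dvd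
    obtain ⟨u, hu⟩ := hqd
    obtain ⟨r, hr⟩ := hNW
    have hu' : (p0 : ℤ) = q + e.W * u := by linarith
    have hr' : (Nk : ℤ) = e.N0 + e.W * r := by linarith
    rcases hExt with ⟨⟨c1, h1⟩, ⟨c2, h2⟩⟩ | ⟨⟨c1, h1⟩, ⟨c2, h2⟩⟩
    · right
      refine ⟨⟨-c1 - u * a', ?_⟩, ⟨r - c2 - u * b', ?_⟩⟩
      · show -(p0 * a') + t.a = _
        rw [hu']
        rw [ha'] at h1
        linear_combination -h1
      · show Nk - p0 * b' - (e.N0 - t.b) = _
        rw [hu', hr']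
        rw [hb'] at h2
        linear_combination -h2
    · left
      refine ⟨⟨-c1 - u * a', ?_⟩, ⟨r - c2 - u * b', ?_⟩⟩
      · show -(p0 * a') - t.a = _
        rw [hu']
        rw [ha'] at h1
        linear_combination -h1
      · show Nk - p0 * b' - t.b = _
        rw [hu', hr']
        rw [hb'] at h2
        linear_combination -h2
  have hb1 : |(Nk : ℤ) - p0 * b'| ≤ (e.X : ℤ) ^ (B + 1) := by
    have h1 : |(Nk : ℤ) - p0 * b'| ≤ |(Nk : ℤ)| + |(p0 : ℤ) * b'| := abs_sub _ _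
    have h2 : |(p0 : ℤ) * b'| ≤ 2 * (e.X : ℤ) ^ B := by
      rw [abs_mul, abs_of_pos hp0p]
      calc (p0 : ℤ) * |b'| ≤ 2 * q * |b'| := mul_le_mul_of_nonneg_right hq2 hb'0
        _ = 2 * |G.b| := by rw [hbq]; ring
        _ ≤ _ := by linarith
    have h3 : |(Nk : ℤ)| ≤ 2 * e.X := by
      rw [abs_of_nonneg (by positivity)]
      exact_mod_cast (he.EH Nk hNk).2.trans he.Xs1
    have h4 : (e.X : ℤ) ≤ (e.X : ℤ) ^ B := by
      have h5 : (e.X : ℤ) ^ 1 ≤ (e.X : ℤ) ^ B := pow_le_pow_right₀ (by exact_mod_cast hXp) hB1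
      rwa [pow_one] at h5
    have h6 : (4 : ℤ) ≤ e.X := by
      have := he.Xbig
      omega
    have h7 : 4 * (e.X : ℤ) ^ B ≤ (e.X : ℤ) ^ (B + 1) := by
      rw [pow_succ, mul_comm]
      exact mul_le_mul_of_nonneg_left h6 (by positivity)
    linarith
  have p2 := hV t Fs A L (hS.mono hXp (by omega)) hk0 (hAL.trans (Nat.pow_le_pow_right hXp (by omega)))
    ⟨-(p0 * a'), Nk - p0 * b'⟩ hExt' ((hp0.mul ha'Gd he.BadP).dvd ⟨-1, by ring⟩) (by
      show |-(p0 * a')| ≤ a1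
      rw [abs_neg]
      exact hxa2.trans ha1) hb1 (by
      show (e.X : ℤ) ≤ cr * (|-(p0 * a')| * L)
      rw [abs_neg]
      exact hXL)
    (by
      intro n h1 h2
      obtain ⟨h3, h4⟩ := hm n h1 h2
      rw [hev2]
      exact hv _ h3 h4)
    (by
      intro n hn
      obtain ⟨h1, h2, h3⟩ := key n hn
      rw [hev2]
      refine ⟨h3, ?_⟩
      have h6 : (Nk : ℤ) - p0 * (a' * n + b') + v = p0 * (g - (a' * n + b')) := by
        rw [mul_sub, hg]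
        ring
      rw [h6]
      exact hp0.1.mul h2)
  have hsub : ((e.SS t Fs A L).filter fun n : ℕ => lz (-1 * G.ev n + q * g) ≠ e.kap * lz (G.ev n)) ⊆
      ((e.SS t Fs A L).filter fun n : ℕ => lz ((⟨p0 * a', p0 * b'⟩ : Frm).ev n) *
        lz (Nk - (⟨p0 * a', p0 * b'⟩ : Frm).ev n) ≠ e.kap) ∪
      ((e.SS t Fs A L).filter fun n : ℕ => lz ((⟨-(p0 * a'), Nk - p0 * b'⟩ : Frm).ev n) ≠
        lz ((⟨-(p0 * a'), Nk - p0 * b'⟩ : Frm).ev n + v)) := by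
    intro n hn
    rw [mem_filter] at hn
    obtain ⟨hn1, hn2⟩ := hn
    rw [mem_union, mem_filter, mem_filter]
    by_contra hcon
    push Not at hcon
    obtain ⟨h1, h2⟩ := hcon
    have h1 := h1 hn1
    have h2 := h2 hn1
    obtain ⟨k1, k2, k3⟩ := key n hn1
    have h6 : (Nk : ℤ) - p0 * (a' * n + b') + v = p0 * (g - (a' * n + b')) := by
      rw [mul_sub, hg]
      ring
    rw [hev] at h1
    rw [hev2, h6] at h2
    rw [h2] at h1
    have c0 : (p0 : ℤ) ≠ 0 := hp0p.ne'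
    rw [lz_mul c0 (k1.ne0 hz), lz_mul c0 (k2.ne0 hz)] at h1
    apply hn2
    have h8 : -1 * G.ev n + q * g = q * (g - (a' * n + b')) := by rw [hGev]; ring
    rw [h8, hGev, lz_mul hqp.ne' (k1.ne0 hz), lz_mul hqp.ne' (k2.ne0 hz)]
    have e1 : lz (p0 : ℤ) * lz (p0 : ℤ) = 1 := by
      rcases lz_pm (p0 : ℤ) with h | h <;> rw [h] <;> norm_num
    have e2 : lz (a' * (n : ℤ) + b') * lz (a' * (n : ℤ) + b') = 1 := by
      rcases lz_pm (a' * (n : ℤ) + b') with h | h <;> rw [h] <;> norm_num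
    rw [← h1]
    linear_combination (-lz q * lz (g - (a' * n + b')) * (lz (a' * (n : ℤ) + b') * lz (a' * (n : ℤ) + b'))) * e1 -
      (lz q * lz (g - (a' * n + b'))) * e2
  calc _ ≤ ((((e.SS t Fs A L).filter fun n : ℕ => lz ((⟨p0 * a', p0 * b'⟩ : Frm).ev n) *
        lz (Nk - (⟨p0 * a', p0 * b'⟩ : Frm).ev n) ≠ e.kap) ∪
      ((e.SS t Fs A L).filter fun n : ℕ => lz ((⟨-(p0 * a'), Nk - p0 * b'⟩ : Frm).ev n) ≠
        lz ((⟨-(p0 * a'), Nk - p0 * b'⟩ : Frm).ev n + v))).card : ℝ) := by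
        exact_mod_cast card_le_card hsub
    _ ≤ _ := by
        have := card_union_le ((e.SS t Fs A L).filter fun n : ℕ => lz ((⟨p0 * a', p0 * b'⟩ : Frm).ev n) *
          lz (Nk - (⟨p0 * a', p0 * b'⟩ : Frm).ev n) ≠ e.kap) ((e.SS t Fs A L).filter fun n : ℕ =>
          lz ((⟨-(p0 * a'), Nk - p0 * b'⟩ : Frm).ev n) ≠ lz ((⟨-(p0 * a'), Nk - p0 * b'⟩ : Frm).ev n + v))
        have h : ((_ : ℕ) : ℝ) ≤ ((_ + _ : ℕ) : ℝ) := Nat.cast_le.2 this
        push_cast at h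
        linarith

theorem card_dvd_le (A L p : ℕ) (hp : 0 < p) : (((Ico A (A + L)).filter fun n => p ∣ n).card : ℝ) ≤ L / p + 1 := by
  have h1 := Nat.Ico_filter_modEq_card A (A + L) hp 0
  have h2 : ((Ico A (A + L)).filter fun n => p ∣ n) = ((Ico A (A + L)).filter fun n => n ≡ 0 [MOD p]) := by
    apply filter_congr
    intro x _
    exact (Nat.modEq_zero_iff_dvd).symm
  rw [h2]
  have hpq : (0 : ℚ) < p := by exact_mod_cast hp
  have h3 : ((((Ico A (A + L)).filter fun n => n ≡ 0 [MOD p]).card : ℤ) : ℚ) ≤ L / p + 1 := by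
    rw [h1]
    push_cast
    apply max_le
    · have a1 := Int.ceil_lt_add_one (((A : ℚ) + L - 0) / p)
      have a2 := Int.le_ceil (((A : ℚ) - 0) / p)
      have a3 : ((A : ℚ) + L - 0) / p = ((A : ℚ) - 0) / p + L / p := by ring
      linarith
    · positivity
  have h4 : (((((Ico A (A + L)).filter fun n => n ≡ 0 [MOD p]).card : ℚ)) : ℝ) ≤ ((L / p + 1 : ℚ) : ℝ) := by
    exact_mod_cast h3
  push_cast at h4
  exact h4

/-- there is a good number coprime to `D` in every interval of length `≥ Y` -/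
theorem exists_good (he : e.Ok) (hP1 : e.P1 36) {A L D : ℕ} (hL : e.Y ≤ L) (hD : D ≠ 0) (hDX : D ≤ e.X ^ 100) :
    ∃ q : ℕ, A ≤ q ∧ q < A + L ∧ e.Gd q ∧ q.Coprime D := by
  classical
  have hXp := he.Xpos
  have hS : e.SOk 40 ⟨1, 0⟩ [⟨1, 0⟩] := by
    have hX1 : (1 : ℤ) ≤ (e.X : ℤ) ^ 40 := one_le_pow₀ (by exact_mod_cast hXp)
    refine ⟨isCoprime_one_left, ?_, ?_, ?_, List.pairwise_singleton _ _⟩
    · intro F hF
      rw [List.mem_singleton] at hF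
      subst hF
      intro p hp _ h
      have h1 := Int.natAbs_dvd_natAbs.2 h
      simp only [Int.natAbs_natCast, Int.natAbs_one, Nat.dvd_one] at h1
      exact hp.one_lt.ne' h1
    · intro F hF
      rw [List.mem_singleton] at hF
      subst hF
      simp only [abs_one, abs_zero]
      exact ⟨hX1, by positivity⟩
    · intro F hF
      rw [List.mem_singleton] at hF
      subst hF
      exact ⟨1, isCoprime_one_left, Or.inl ⟨by simp, by simp⟩⟩
  have h1 := hP1 ⟨1, 0⟩ [⟨1, 0⟩] A L hS (by simp) hL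
  rw [List.length_singleton] at h1
  have hM := he.MM0 1 (by norm_num)
  have heta := he.eta1
  have hetaU := he.etaU
  have heta0 := he.eta0
  have hU : (100 : ℝ) ≤ e.U := by
    have hU0 : (0 : ℝ) ≤ e.U := by positivity
    nlinarith
  have hY0 : 0 < e.Y := by have := he.Y4; omega
  have hLp : (0 : ℝ) < L := by exact_mod_cast lt_of_lt_of_le hY0 hL
  have h2 : 99 / 100 * (L / e.U) ≤ ((e.SS ⟨1, 0⟩ [⟨1, 0⟩] A L).card : ℝ) := by
    have h3 := (abs_le.1 h1).1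
    have h4 : (L : ℝ) / e.U ≤ L * e.MM 1 := by
      rw [div_eq_mul_inv]
      exact mul_le_mul_of_nonneg_left hM hLp.le
    have h5 : 0 ≤ (L : ℝ) * e.MM 1 := le_trans (by positivity) h4
    nlinarith
  by_contra hcon
  push Not at hcon
  set Ps : Finset ℕ := e.Bad ∪ ((D.divisors.filter (fun d => Rough e.z d)).filter fun p => e.z < p) with hPs
  have hsub : e.SS ⟨1, 0⟩ [⟨1, 0⟩] A L ⊆ Ps.biUnion fun p => (Ico A (A + L)).filter fun n => p ∣ n := by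
    intro n hn
    have hn0 := hn
    unfold Env.SS at hn
    rw [mem_filter, mem_Ico] at hn
    obtain ⟨⟨hn1, hn2⟩, hn3, hn4⟩ := hn
    have hsf : Sf e.z n := by
      have := hn4 ⟨1, 0⟩ (by simp)
      rw [Frm.ev_mk] at this
      simpa using this
    rw [mem_biUnion]
    by_cases hG : e.Gd n
    · have h3 := hcon n hn1 hn2 hG
      obtain ⟨p, hp, hpd⟩ := Nat.exists_prime_and_dvd h3
      have hp1 : p ∣ n := hpd.trans (Nat.gcd_dvd_left _ _)
      have hp2 : p ∣ D := hpd.trans (Nat.gcd_dvd_right _ _)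
      have hpz : e.z < p := by
        by_contra h
        push Not at h
        exact hsf p hp h (by exact_mod_cast hp1)
      refine ⟨p, ?_, ?_⟩
      · rw [hPs, mem_union, mem_filter, mem_filter, Nat.mem_divisors]
        right
        refine ⟨⟨⟨hp2, hD⟩, ?_⟩, hpz⟩
        intro r hr hrp
        rwa [(Nat.prime_dvd_prime_iff_eq hr hp).1 hrp]
      · rw [mem_filter, mem_Ico]
        exact ⟨⟨hn1, hn2⟩, hp1⟩
    · unfold Env.Gd at hG
      push Not at hG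
      obtain ⟨p, hp1, hp2⟩ := hG hsf
      refine ⟨p, ?_, ?_⟩
      · rw [hPs, mem_union]
        exact Or.inl hp1
      · rw [mem_filter, mem_Ico]
        exact ⟨⟨hn1, hn2⟩, by exact_mod_cast hp2⟩
  have hPsc : (Ps.card : ℝ) ≤ 2 * e.U := by
    have h3 : Ps.card ≤ e.Bad.card + ((D.divisors.filter (fun d => Rough e.z d)).filter fun p => e.z < p).card :=
      card_union_le _ _
    have h4 := he.bad.1
    have h5 := (card_filter_le (D.divisors.filter (fun d => Rough e.z d)) (fun p => e.z < p)).trans (he.dvs D hD hDX)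
    have h6 : Ps.card ≤ 2 * e.U := by omega
    exact_mod_cast h6
  have hPz : ∀ p ∈ Ps, e.z < p := by
    intro p hp
    rw [hPs, mem_union, mem_filter] at hp
    rcases hp with h | h
    · exact (he.bad.2 p h).2
    · exact h.2
  have hz0 : 0 < e.z := by have := he.z2; omega
  have hzR : (0 : ℝ) < e.z := by exact_mod_cast hz0
  have h3 : ((e.SS ⟨1, 0⟩ [⟨1, 0⟩] A L).card : ℝ) ≤ Ps.card * (L / e.z + 1) := by
    calc ((e.SS ⟨1, 0⟩ [⟨1, 0⟩] A L).card : ℝ) ≤ ((Ps.biUnion fun p => (Ico A (A + L)).filter fun n => p ∣ n).card : ℝ) := by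
          exact_mod_cast card_le_card hsub
      _ ≤ ∑ p ∈ Ps, (((Ico A (A + L)).filter fun n => p ∣ n).card : ℝ) := by exact_mod_cast card_biUnion_le
      _ ≤ ∑ p ∈ Ps, ((L : ℝ) / e.z + 1) := by
          apply sum_le_sum
          intro p hp
          have hpz := hPz p hp
          have : (e.z : ℝ) ≤ p := by exact_mod_cast hpz.le
          refine (card_dvd_le A L p (by omega)).trans ?_
          gcongr
      _ = _ := by rw [sum_const, nsmul_eq_mul]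
  have hUz : ((e.U : ℝ)) ^ 3 ≤ e.z := by
    have h4 : (e.U : ℝ) ^ 60 ≤ e.z := by exact_mod_cast he.Uz
    exact (pow_le_pow_right₀ (by linarith) (by norm_num)).trans h4
  have hzL : (e.z : ℝ) ≤ L := by
    have h4 : e.z ≤ L := by
      have := he.zY
      nlinarith
    exact_mod_cast h4
  have h4 : (Ps.card : ℝ) * (L / e.z + 1) ≤ 4 * e.U * (L / e.z) := by
    have h5 : (1 : ℝ) ≤ L / e.z := by rw [le_div_iff₀ hzR]; linarith
    calc (Ps.card : ℝ) * (L / e.z + 1) ≤ 2 * e.U * (L / e.z + L / e.z) := by gcongr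
      _ = _ := by ring
  have h5 : 4 * (e.U : ℝ) * (L / e.z) ≤ 4 * (e.U : ℝ) * (L / (e.U : ℝ) ^ 3) := by gcongr
  have hU0 : (0 : ℝ) < e.U := by linarith
  have h6 : 4 * (e.U : ℝ) * (L / (e.U : ℝ) ^ 3) = 4 / e.U * (L / e.U) := by
    field_simp
  have h7 : 4 / (e.U : ℝ) ≤ 4 / 100 := by gcongr
  have h8 : 0 < (L : ℝ) / e.U := by positivity
  have h9 : 4 / (e.U : ℝ) * (L / e.U) ≤ 4 / 100 * (L / e.U) := by gcongr
  linarith

theorem cop_W (he : e.Ok) {a : ℤ} (ha : Sf e.z a) : IsCoprime a (e.W : ℤ) := by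
  rw [Int.isCoprime_iff_gcd_eq_one]
  by_contra h
  obtain ⟨p, hp, hpd⟩ := Nat.exists_prime_and_dvd h
  have h1 : (p : ℤ) ∣ a := (Int.natCast_dvd_natCast.2 hpd).trans (Int.gcd_dvd_left ..)
  have h2 : (p : ℤ) ∣ e.W := (Int.natCast_dvd_natCast.2 hpd).trans (Int.gcd_dvd_right ..)
  have h3 : p ∣ e.W := by exact_mod_cast h2
  have h4 : p ≤ e.w := by
    unfold Env.W at h3
    exact (hp.dvd_primorial_iff).1 h3
  exact ha p hp (h4.trans he.wz.le) h1

/-- the conclusion of the double half move -/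
def DHM (e : Env) : Prop := ∀ (k0 B cr : ℕ) (eps g : ℤ) (Ns qs : ℕ) (k : ℤ) (qlo qhi : ℕ) (s dl : ℝ) (a0 lo hi : ℤ),
  DH e k0 B cr eps g Ns qs k qlo qhi s dl a0 lo hi → e.Val k0 B cr (eps * k * g) (200 * (e.eta + dl)) a0 lo hi

theorem val_a (he : e.Ok) (hP2 : e.P2 24) (hD : DHM e) {Na Nb q0 : ℕ} {d : ℤ} (hNa : Na ∈ e.E) (hNb : Nb ∈ e.E)
    (hd : 0 < d) (hq0d : (Na : ℤ) = Nb + q0 * d) (hq0 : e.Gd q0) (hq0a : e.Y ^ 18 ≤ q0) (hq0b : 2 * q0 ≤ e.Y ^ 21)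
    {k : ℤ} (hk0 : k ≠ 0) (hkW : (e.W : ℤ) ∣ k) (hk : 10 * |k| ≤ 9 * q0) :
    e.Val 13 13 (2 * 10 ^ 5) (k * d) (600 * e.eta) ((e.Y : ℤ) ^ 53) (3 * e.H) (e.Xs - 5 * e.H) := by
  have hz := he.z2
  have hq0p : (0 : ℤ) < q0 := by
    have := hq0.1.ne0 hz
    omega
  have hqd : (q0 : ℤ) * d ≤ e.H := by
    have h1 := (he.EH Na hNa).2
    have h2 := (he.EH Nb hNb).1
    omega
  have hdq : d ≤ q0 * d := le_mul_of_one_le_left hd.le (by omega)
  have hHX : (e.H : ℤ) ≤ e.X := by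
    have := he.HX
    omega
  have hdW : (e.W : ℤ) ∣ d := by
    have h1 : Na ≡ Nb [MOD e.W] := (he.EW Na hNa).trans (he.EW Nb hNb).symm
    have h2 : (e.W : ℤ) ∣ Na - Nb := ((Int.natCast_modEq_iff.2 h1).symm).dvd
    have h3 : (Na : ℤ) - Nb = q0 * d := by rw [hq0d]; ring
    rw [h3] at h2
    exact (cop_W he hq0.1).symm.dvd_of_dvd_mul_left h2
  have hq0b' : 2 * (q0 : ℤ) ≤ (e.Y : ℤ) ^ 21 := by exact_mod_cast hq0b
  have hY1 : (1 : ℤ) ≤ e.Y := by
    have := he.Y4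
    omega
  have ha : (e.Y : ℤ) ^ 53 * ((2 * q0 : ℕ) : ℤ) ^ 2 ≤ (e.Y : ℤ) ^ 95 := by
    have h1 : ((2 * q0 : ℕ) : ℤ) ≤ (e.Y : ℤ) ^ 21 := by exact_mod_cast hq0b
    calc (e.Y : ℤ) ^ 53 * ((2 * q0 : ℕ) : ℤ) ^ 2 ≤ (e.Y : ℤ) ^ 53 * ((e.Y : ℤ) ^ 21) ^ 2 := by gcongr
      _ = _ := by ring
  have h1 := hD 13 13 (2 * 10 ^ 5) 1 d Nb q0 k q0 (2 * q0) 1 (2 * e.eta) ((e.Y : ℤ) ^ 53) (3 * e.H) (e.Xs - 5 * e.H)
    { hk0 := le_rfl
      hB := ⟨by norm_num, by norm_num⟩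
      hcr := by norm_num
      heps := Or.inl rfl
      hs := Or.inl rfl
      hg := ⟨hd, by omega⟩
      hNs := hNb
      hqs := hq0
      hk := hk0
      kW := hkW
      md := Or.inl ⟨rfl, hdW⟩
      hq0 := hq0a
      hq1 := hq0b
      hq2 := ⟨by push_cast; omega, by push_cast; omega, by push_cast; omega⟩
      hqs1 := ⟨by omega, by omega⟩
      ha0 := ⟨by positivity, ha.trans (pow_le_pow_right₀ hY1 (by norm_num))⟩
      r1 := ⟨le_rfl, by omega⟩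
      r2 := by
        intro y h1 h2 _ _ q h3 h4
        have h5 : q * d ≤ 2 * (q0 * d) := by
          have : q * d ≤ ((2 * q0 : ℕ) : ℤ) * d := mul_le_mul_of_nonneg_right h4 hd.le
          push_cast at this
          linarith
        have h6 : 0 < q * d := mul_pos (by omega) hd
        constructor
        · linarith
        · linarith
      hdl := by have := he.eta0; linarith
      lw := by
        intro q h1 h2 h3 _
        have hH : (0 : ℤ) < e.H := by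
          have := mul_pos hq0p hd
          omega
        exact low_a he hP2 hNa hNb hd hq0d hq0 h1 (by push_cast at h2; exact h2) (by norm_num) (by norm_num)
          (by norm_num) (ha.trans (pow_le_pow_right₀ hY1 (by norm_num))) (by omega) (by omega) }
  have e1 : (1 : ℤ) * k * d = k * d := by ring
  have e2 : 200 * (e.eta + 2 * e.eta) = 600 * e.eta := by ring
  rw [e1, e2] at h1
  exact h1

theorem val_b (he : e.Ok) (hP2 : e.P2 24) (hD : DHM e) {Nk p0 : ℕ} {g v : ℤ} (hNk : Nk ∈ e.E)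
    (hg : (p0 : ℤ) * g = Nk + v) (hv0 : 0 < v) (hvH : v ≤ e.H) (hvW : (e.W : ℤ) ∣ v) (hp0 : e.Gd p0)
    (hp0a : 2 * e.Y ^ 18 ≤ p0) (hp0b : p0 ≤ e.Y ^ 20)
    (hV : e.Val 13 13 (2 * 10 ^ 5) v (600 * e.eta) ((e.Y : ℤ) ^ 53) (3 * e.H) (e.Xs - 5 * e.H))
    {k : ℤ} (hk0 : k ≠ 0) (hkW : (e.W : ℤ) ∣ k) (hk : 10 * |k| ≤ p0) :
    e.Val 2 2 (10 ^ 5) (-1 * k * g) (120400 * e.eta) ((e.Y : ℤ) ^ 12) ((e.X + 9999) / 10 ^ 4) (e.X / 50) := by
  have hz := he.z2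
  have hY4 := he.Y4
  have hX4 := he.Xbig
  have hHX := he.HX
  have hXs0 := he.Xs0
  have hXs1 := he.Xs1
  have hEH := he.EH Nk hNk
  have hY18 : 1 ≤ e.Y ^ 18 := Nat.one_le_pow _ _ (by omega)
  have hY18' : e.Y ≤ e.Y ^ 18 := by
    calc e.Y = e.Y ^ 1 := (pow_one _).symm
      _ ≤ e.Y ^ 18 := Nat.pow_le_pow_right (by omega) (by norm_num)
  have hp0p : (0 : ℤ) < p0 := by omega
  have hY1 : (1 : ℤ) ≤ e.Y := by omega
  have hg1 : 0 < g := by
    have h1 : 0 < (p0 : ℤ) * g := by rw [hg]; omega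
    exact pos_of_mul_pos_right h1 hp0p.le
  have hg2 : g ≤ e.X := by
    have h1 : 4 * g ≤ (p0 : ℤ) * g := mul_le_mul_of_nonneg_right (by omega) hg1.le
    rw [hg] at h1
    omega
  have ha : (e.Y : ℤ) ^ 12 * (p0 : ℤ) ^ 2 ≤ (e.Y : ℤ) ^ 52 := by
    have h1 : (p0 : ℤ) ≤ (e.Y : ℤ) ^ 20 := by exact_mod_cast hp0b
    calc (e.Y : ℤ) ^ 12 * (p0 : ℤ) ^ 2 ≤ (e.Y : ℤ) ^ 12 * ((e.Y : ℤ) ^ 20) ^ 2 := by gcongr
      _ = _ := by ring
  have ha2 : 2 * ((e.Y : ℤ) ^ 12 * (p0 : ℤ) ^ 2) ≤ (e.Y : ℤ) ^ 53 := by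
    calc 2 * ((e.Y : ℤ) ^ 12 * (p0 : ℤ) ^ 2) ≤ e.Y * (e.Y : ℤ) ^ 52 := by
          apply mul_le_mul (by omega) ha (by positivity) (by omega)
      _ = _ := by ring
  have hq1 : e.Y ^ 20 ≤ e.Y ^ 21 := Nat.pow_le_pow_right (by omega) (by norm_num)
  have h1 := hD 2 2 (10 ^ 5) (-1) g Nk p0 k ((p0 + 1) / 2) p0 e.kap (e.eta + 600 * e.eta) ((e.Y : ℤ) ^ 12)
    ((e.X + 9999) / 10 ^ 4) (e.X / 50)
    { hk0 := by norm_num
      hB := ⟨by norm_num, by norm_num⟩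
      hcr := by norm_num
      heps := Or.inr rfl
      hs := he.kap
      hg := ⟨hg1, by omega⟩
      hNs := hNk
      hqs := hp0
      hk := hk0
      kW := hkW
      md := by
        refine Or.inr ⟨rfl, ?_, ?_⟩
        · rw [hg]
          have h2 : (e.W : ℤ) ∣ Nk - e.N0 := ((Int.natCast_modEq_iff.2 (he.EW Nk hNk)).symm).dvd
          have h3 : (Nk : ℤ) + v - e.N0 = (Nk - e.N0) + v := by ring
          rw [h3]
          exact dvd_add h2 hvW
        · rw [hg]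
          omega
      hq0 := by omega
      hq1 := by omega
      hq2 := ⟨by push_cast; omega, by push_cast; omega, by push_cast; omega⟩
      hqs1 := ⟨by omega, by omega⟩
      ha0 := ⟨by positivity, ha.trans (pow_le_pow_right₀ hY1 (by norm_num))⟩
      r1 := ⟨by omega, by omega⟩
      r2 := by
        intro y h1 h2 _ _ q h3 h4
        have h5 : q * g ≤ p0 * g := mul_le_mul_of_nonneg_right h4 hg1.le
        have h6 : (p0 : ℤ) * g ≤ 2 * q * g := mul_le_mul_of_nonneg_right (by push_cast at h3; omega) hg1.le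
        rw [hg] at h5 h6
        rw [mul_assoc] at h6
        generalize q * g = qg at h5 h6 ⊢
        constructor
        · omega
        · omega
      hdl := by have := he.eta0; linarith
      lw := by
        intro q h1 h2 h3 h4
        exact low_b he hP2 hNk hg hp0 h2 (by push_cast at h1; omega) h4 (by norm_num) (by norm_num) (by norm_num)
          (ha2.trans (pow_le_pow_right₀ hY1 (by norm_num))) (by omega) (by omega) (by norm_num) ha2
          (by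
            intro y h5 h6
            refine ⟨by omega, by omega, by omega, by omega⟩)
          hV }
  have e2 : 200 * (e.eta + (e.eta + 600 * e.eta)) = 120400 * e.eta := by ring
  rw [e2] at h1
  exact h1

/-- **Block C**: the double half move gives a period -/
theorem per_ex (he : e.Ok) (hP1 : e.P1 36) (hP2 : e.P2 24) (hD : DHM e) : ∃ G : ℕ, e.Per G (120400 * e.eta) := by
  classical
  have hz := he.z2
  have hY4 := he.Y4
  have hX4 := he.Xbig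
  have hXp := he.Xpos
  have hHX := he.HX
  have hXs0 := he.Xs0
  have hXs1 := he.Xs1
  have hY18 : 1 ≤ e.Y ^ 18 := Nat.one_le_pow _ _ (by omega)
  have hYY : e.Y ≤ e.Y ^ 18 := by
    calc e.Y = e.Y ^ 1 := (pow_one _).symm
      _ ≤ e.Y ^ 18 := Nat.pow_le_pow_right (by omega) (by norm_num)
  have h1819 : 40000 * e.Y ^ 18 ≤ e.Y ^ 19 := by
    rw [pow_succ (e.Y) 18, mul_comm]
    exact Nat.mul_le_mul_left _ hY4
  have h1920 : 40000 * e.Y ^ 19 ≤ e.Y ^ 20 := by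
    rw [pow_succ (e.Y) 19, mul_comm]
    exact Nat.mul_le_mul_left _ hY4
  have h2021 : 40000 * e.Y ^ 20 ≤ e.Y ^ 21 := by
    rw [pow_succ (e.Y) 20, mul_comm]
    exact Nat.mul_le_mul_left _ hY4
  -- the modulus `q0` and the two exceptional numbers
  obtain ⟨q0, hq1, hq2, hq0, -⟩ := exists_good he hP1 (A := e.Y ^ 20) (L := e.Y) (D := 1) le_rfl one_ne_zero
    (Nat.one_le_pow _ _ hXp)
  have hq0p : 0 < q0 := by omega
  have hcard : (range q0).card < e.E.card := by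
    rw [card_range]
    have h1 := he.E0
    have h2 : e.Y ^ 21 ≤ e.Y ^ 60 := Nat.pow_le_pow_right (by omega) (by norm_num)
    omega
  obtain ⟨N1, hN1, N2, hN2, hne, hmod⟩ := exists_ne_map_eq_of_card_lt_of_maps_to hcard
    (f := fun N => N % q0) (fun N _ => mem_coe.2 (mem_range.2 (Nat.mod_lt N hq0p)))
  obtain ⟨Na, hNa, Nb, hNb, hab, hmod'⟩ : ∃ Na ∈ e.E, ∃ Nb ∈ e.E, Nb < Na ∧ Na ≡ Nb [MOD q0] := by
    rcases lt_or_gt_of_ne hne with h | h
    · exact ⟨N2, hN2, N1, hN1, h, hmod.symm⟩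
    · exact ⟨N1, hN1, N2, hN2, h, hmod⟩
  obtain ⟨d, hd⟩ : (q0 : ℤ) ∣ Na - Nb := ((Int.natCast_modEq_iff.2 hmod').symm).dvd
  have hq0d : (Na : ℤ) = Nb + q0 * d := by linarith
  have hq0Z : (0 : ℤ) < q0 := by exact_mod_cast hq0p
  have hdp : 0 < d := by
    have h1 : 0 < (q0 : ℤ) * d := by rw [← hd]; omega
    exact pos_of_mul_pos_right h1 hq0Z.le
  have hqd : (q0 : ℤ) * d ≤ e.H := by
    have h1 := (he.EH Na hNa).2
    have h2 := (he.EH Nb hNb).1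
    omega
  have hdq : d ≤ q0 * d := le_mul_of_one_le_left hdp.le (by omega)
  have hdW : (e.W : ℤ) ∣ d := by
    have h1 : Na ≡ Nb [MOD e.W] := (he.EW Na hNa).trans (he.EW Nb hNb).symm
    have h2 : (e.W : ℤ) ∣ Na - Nb := ((Int.natCast_modEq_iff.2 h1).symm).dvd
    rw [hd] at h2
    exact (cop_W he hq0.1).symm.dvd_of_dvd_mul_left h2
  -- the modulus `p0`
  obtain ⟨p0, hp1, hp2, hp0, hp0d⟩ := exists_good he hP1 (A := 4 * e.Y ^ 18) (L := e.Y) (D := d.natAbs) le_rfl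
    (by omega) (by
      have h1 : d.natAbs ≤ e.X := by omega
      exact h1.trans (Nat.le_self_pow (by norm_num) _))
  have hp0Z : (0 : ℤ) < p0 := by omega
  have hWp : 0 < e.W := primorial_pos _
  have hWY : (e.W : ℤ) ≤ e.Y := by exact_mod_cast he.W
  have hcop : IsCoprime ((e.W : ℤ) * d) p0 := by
    apply IsCoprime.mul_left (cop_W he hp0.1).symm
    rw [Int.isCoprime_iff_gcd_eq_one, Int.gcd_comm]
    exact hp0d
  obtain ⟨a, b, hab1⟩ := hcop
  set j1 : ℤ := (-a * Nb - 1) % p0 + 1 with hj1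
  have hj1a : 1 ≤ j1 := by
    have := Int.emod_nonneg (-a * Nb - 1) hp0Z.ne'
    omega
  have hj1b : j1 ≤ p0 := by
    have := Int.emod_lt_of_pos (-a * Nb - 1) hp0Z
    omega
  have hj1c : ∃ r : ℤ, j1 = -a * Nb + p0 * r := by
    refine ⟨-((-a * Nb - 1) / p0), ?_⟩
    have := Int.emod_add_mul_ediv (-a * Nb - 1) p0
    rw [hj1]
    linarith
  obtain ⟨r, hr⟩ := hj1c
  set v : ℤ := e.W * j1 * d with hv
  have hdv : (p0 : ℤ) ∣ Nb + v := by
    refine ⟨b * Nb + r * e.W * d, ?_⟩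
    rw [hv, hr]
    linear_combination (-(Nb : ℤ)) * hab1
  obtain ⟨g, hg⟩ := hdv
  have hWj : 0 < (e.W : ℤ) * j1 := mul_pos (by exact_mod_cast hWp) (by omega)
  have hv0 : 0 < v := mul_pos hWj hdp
  have hWjq : 10 * ((e.W : ℤ) * j1) ≤ 9 * q0 := by
    have h1 : (e.W : ℤ) * j1 ≤ e.Y * (5 * e.Y ^ 18) := by
      apply mul_le_mul hWY _ (by omega) (by omega)
      have h2 : p0 ≤ 5 * e.Y ^ 18 := by omega
      have h3 : (p0 : ℤ) ≤ 5 * (e.Y : ℤ) ^ 18 := by exact_mod_cast h2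
      omega
    have h2 : (e.Y : ℤ) * (5 * e.Y ^ 18) = ((5 * e.Y ^ 19 : ℕ) : ℤ) := by push_cast; ring
    rw [h2] at h1
    omega
  have hvH : v ≤ e.H := by
    have h1 : v ≤ q0 * d := mul_le_mul_of_nonneg_right (by omega) hdp.le
    linarith
  have hvW : (e.W : ℤ) ∣ v := ⟨j1 * d, by rw [hv]; ring⟩
  have hVA : e.Val 13 13 (2 * 10 ^ 5) v (600 * e.eta) ((e.Y : ℤ) ^ 53) (3 * e.H) (e.Xs - 5 * e.H) := by
    rw [hv]
    exact val_a he hP2 hD hNa hNb hdp hq0d hq0 (by omega) (by omega) hWj.ne' ⟨j1, rfl⟩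
      (by rw [abs_of_pos hWj]; exact hWjq)
  have hg' : (p0 : ℤ) * g = Nb + v := hg.symm
  have hEb := he.EH Nb hNb
  have hg1 : 0 < g := by
    have h1 : 0 < (p0 : ℤ) * g := by rw [hg']; omega
    exact pos_of_mul_pos_right h1 hp0Z.le
  have hYWg : e.Y ^ 17 * (e.W * g) ≤ e.X := by
    have h1 : (e.Y : ℤ) ^ 17 * (e.W * g) ≤ (e.Y : ℤ) ^ 17 * (e.Y * g) := by gcongr
    have h2 : (e.Y : ℤ) ^ 17 * (e.Y * g) = (e.Y : ℤ) ^ 18 * g := by ring
    have h3 : 4 * ((e.Y : ℤ) ^ 18 * g) ≤ p0 * g := by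
      have h4 : 4 * (e.Y : ℤ) ^ 18 ≤ p0 := by exact_mod_cast hp1
      calc 4 * ((e.Y : ℤ) ^ 18 * g) = 4 * (e.Y : ℤ) ^ 18 * g := by ring
        _ ≤ p0 * g := mul_le_mul_of_nonneg_right h4 hg1.le
    rw [h2] at h1
    rw [hg'] at h3
    omega
  refine ⟨e.W * g.toNat, ?_⟩
  have hgt : (g.toNat : ℤ) = g := Int.toNat_of_nonneg hg1.le
  constructor
  · exact Nat.mul_pos hWp (by omega)
  · have : ((e.W * g.toNat * e.Y ^ 17 : ℕ) : ℤ) ≤ e.X := by
      push_cast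
      rw [hgt]
      linarith
    exact_mod_cast this
  · exact ⟨_, rfl⟩
  · intro k hk0 hkX al A L hal halY hXL hrg
    have hkG : k * ((e.W * g.toNat : ℕ) : ℤ) = -1 * (-(k * e.W)) * g := by
      push_cast
      rw [hgt]
      ring
    have halp : 0 < al := by
      have := hal.1.ne0 hz
      omega
    have hLp : 0 < L := by
      rcases Nat.eq_zero_or_pos L with h | h
      · rw [h] at hXL
        omega
      · exact h
    have hkX' : 100 * (|k| * e.W * g) ≤ 3 * e.X := by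
      push_cast at hkX
      rw [hgt] at hkX
      linarith
    have hkp : 10 * |-(k * e.W)| ≤ p0 := by
      rw [abs_neg, abs_mul, abs_of_pos (by exact_mod_cast hWp : (0 : ℤ) < e.W)]
      by_contra hcon
      push Not at hcon
      have h1 : (p0 : ℤ) * g < 10 * (|k| * e.W) * g := mul_lt_mul_of_pos_right hcon hg1
      rw [hg'] at h1
      have h2 : 10 * (10 * (|k| * e.W) * g) ≤ 3 * e.X := by linarith
      omega
    have hVB := val_b he hP2 hD hNb hg' hv0 hvH hvW hp0 (by omega) (by omega) hVA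
      (k := -(k * e.W)) (by
        have : (e.W : ℤ) ≠ 0 := by exact_mod_cast hWp.ne'
        exact neg_ne_zero.2 (mul_ne_zero hk0 this)) ⟨-k, by ring⟩ hkp
    rw [← hkG] at hVB
    have hXpow : (e.X : ℤ) ^ 2 = e.X * e.X := by ring
    have hXsq : (e.X : ℤ) ≤ (e.X : ℤ) ^ 2 := by
      rw [hXpow]
      exact le_mul_of_one_le_left (by omega) (by omega)
    have hWG : (e.W : ℤ) ∣ k * ((e.W * g.toNat : ℕ) : ℤ) := ⟨k * g.toNat, by push_cast; ring⟩
    have hGp : 0 < e.W * g.toNat := Nat.mul_pos hWp (by omega)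
    have hGabs : |k * ((e.W * g.toNat : ℕ) : ℤ)| ≤ e.X := by
      rw [abs_mul, abs_of_pos (by exact_mod_cast hGp : (0 : ℤ) < ((e.W * g.toNat : ℕ) : ℤ))]
      omega
    have hS : e.SOk 2 ⟨al, 0⟩ [⟨al, 0⟩, ⟨al, k * ((e.W * g.toNat : ℕ) : ℤ)⟩] := by
      have hal2 : |(al : ℤ)| ≤ (e.X : ℤ) ^ 2 := by
        rw [abs_of_nonneg (by positivity)]
        have h1 : al ≤ e.X := halY.trans (he.YpX (by norm_num))
        have h2 : (al : ℤ) ≤ e.X := by exact_mod_cast h1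
        omega
      refine ⟨cop_W he hal.1, ?_, ?_, ?_, ?_⟩
      · intro F hF
        simp only [List.mem_cons, List.not_mem_nil, or_false] at hF
        rcases hF with rfl | rfl
        · exact hal.1
        · exact hal.1
      · intro F hF
        simp only [List.mem_cons, List.not_mem_nil, or_false] at hF
        rcases hF with rfl | rfl
        · exact ⟨hal2, by simp⟩
        · exact ⟨hal2, hGabs.trans hXsq⟩
      · intro F hF
        simp only [List.mem_cons, List.not_mem_nil, or_false] at hF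
        rcases hF with rfl | rfl
        · exact ⟨1, isCoprime_one_left, Or.inl ⟨by simp, by simp⟩⟩
        · exact ⟨1, isCoprime_one_left, Or.inl ⟨by simp, by simpa using hWG⟩⟩
      · rw [List.pairwise_pair]
        unfold Frm.NP
        show (al : ℤ) * (k * ((e.W * g.toNat : ℕ) : ℤ)) ≠ al * 0
        rw [mul_zero]
        exact mul_ne_zero (by omega) (mul_ne_zero hk0 (by exact_mod_cast hGp.ne'))
    have hev1 : ∀ n : ℤ, (⟨al, 0⟩ : Frm).ev n = al * n := fun n => by rw [Frm.ev_mk, add_zero]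
    have hSS : ∀ n : ℕ, n ∈ e.SS ⟨al, 0⟩ [⟨al, 0⟩, ⟨al, k * ((e.W * g.toNat : ℕ) : ℤ)⟩] A L ↔
        (A ≤ n ∧ n < A + L) ∧ IsCoprime (((al : ℤ) * n) * (e.N0 - (al : ℤ) * n)) (e.W : ℤ) ∧ Sf e.z ((al : ℤ) * n) ∧
          Sf e.z ((al : ℤ) * n + k * ((e.W * g.toNat : ℕ) : ℤ)) := by
      intro n
      unfold Env.SS
      rw [mem_filter, mem_Ico, hev1]
      simp only [List.forall_mem_cons, hev1, List.not_mem_nil, false_imp_iff, implies_true, and_true, Frm.ev_mk]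
    have hfin := hVB ⟨al, 0⟩ [⟨al, 0⟩, ⟨al, k * ((e.W * g.toNat : ℕ) : ℤ)⟩] A L hS (by simp) (by
        obtain ⟨-, h2, -, -⟩ := hrg (A + L - 1) (by omega) (by omega)
        have h3 : A + L - 1 ≤ al * (A + L - 1) := Nat.le_mul_of_pos_left _ halp
        have h4 : ((al * (A + L - 1) : ℕ) : ℤ) * 50 ≤ e.X := by
          push_cast
          linarith
        have h5 : A + L ≤ e.X := by omega
        calc A + L ≤ e.X := h5
          _ ≤ e.X ^ 2 := by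
            have := Nat.le_self_pow (n := 2) (by norm_num) e.X
            exact this) ⟨al, 0⟩ (Or.inl ⟨by simp, by simp⟩) hal (by
        show |(al : ℤ)| ≤ (e.Y : ℤ) ^ 12
        rw [abs_of_nonneg (by positivity)]
        exact_mod_cast halY) (by
        show |(0 : ℤ)| ≤ (e.X : ℤ) ^ 2
        rw [abs_zero]
        positivity) (by
        show (e.X : ℤ) ≤ ((10 ^ 5 : ℕ) : ℤ) * (|(al : ℤ)| * L)
        rw [abs_of_nonneg (by positivity : (0 : ℤ) ≤ al)]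
        exact_mod_cast hXL) (by
        intro n h1 h2
        obtain ⟨h3, h4, h5, h6⟩ := hrg n h1 h2
        rw [hev1]
        generalize (al : ℤ) * (n : ℤ) = y at h3 h4 h5 h6 ⊢
        generalize k * ((e.W * g.toNat : ℕ) : ℤ) = v' at h5 h6 ⊢
        refine ⟨by omega, by omega, by omega, by omega⟩) (by
        intro n hn
        rw [hSS] at hn
        rw [hev1]
        exact ⟨hn.2.2.1, hn.2.2.2⟩)
    refine le_trans ?_ hfin
    have hsub : (((Finset.Ico A (A + L)).filter fun n : ℕ => IsCoprime (((al * n : ℕ) : ℤ) * (e.N0 - (al * n : ℕ))) (e.W : ℤ) ∧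
      Sf e.z ((al * n : ℕ) : ℤ) ∧ Sf e.z ((al * n : ℕ) + k * ((e.W * g.toNat : ℕ) : ℤ)) ∧
      lz ((al * n : ℕ) : ℤ) ≠ lz ((al * n : ℕ) + k * ((e.W * g.toNat : ℕ) : ℤ)))) ⊆
      ((e.SS ⟨al, 0⟩ [⟨al, 0⟩, ⟨al, k * ((e.W * g.toNat : ℕ) : ℤ)⟩] A L).filter fun n : ℕ =>
        lz ((⟨al, 0⟩ : Frm).ev n) ≠ lz ((⟨al, 0⟩ : Frm).ev n + k * ((e.W * g.toNat : ℕ) : ℤ))) := by
      intro n hn
      rw [mem_filter, mem_Ico] at hn
      obtain ⟨h1, h2, h3, h4, h5⟩ := hn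
      rw [Nat.cast_mul] at h2 h3 h4 h5
      rw [mem_filter, hSS, hev1]
      exact ⟨⟨h1, h2, h3, h4⟩, h5⟩
    exact_mod_cast card_le_card hsub

end Env

end Pool.Agent.Lib.EX
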