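import Mathlib

/-!
# EX, block D, modules Chn and Mul: the chain of windows; multiplicity of rough divisors
-/

set_option autoImplicit false

open Finset

namespace Pool.Agent.Lib.EX

/-- **Chn.** `θ` is `± 1` on the good numbers of `(z, U]`, constant on pairs `v ≤ u ≤ 4 v`, multiplicative; every dyadic
window contains a good number and there is one product. Then `θ = 1`. -/
theorem chn (z U : ℕ) (Gd : ℕ → Prop) (θ : ℕ → ℝ) (hz : 1 ≤ z)
    (h1 : ∀ u, z < u → u ≤ U → Gd u → θ u = 1 ∨ θ u = -1)
    (hw : ∀ u v, z < v → v ≤ u → u ≤ U → u ≤ 4 * v → Gd u → Gd v → θ u = θ v)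
    (hm : ∀ u v, z < u → z < v → u * v ≤ U → Gd u → Gd v → Gd (u * v) → θ (u * v) = θ u * θ v)
    (hd : ∀ y, z ≤ y → 2 * y ≤ U → ∃ u, y < u ∧ u ≤ 2 * y ∧ Gd u)
    (hp : ∃ u v, z < u ∧ z < v ∧ u * v ≤ U ∧ Gd u ∧ Gd v ∧ Gd (u * v)) :
    ∀ u, z < u → u ≤ U → Gd u → θ u = 1 := by
  have key : ∀ n : ℕ, ∀ u v, z < u → u ≤ v → v ≤ U → Gd u → Gd v → v - u ≤ n → θ u = θ v := by
    intro n
    induction n with
    | zero =>
      intro u v _ h2 _ _ _ h3
      have : u = v := by omega
      rw [this]
    | succ n ih =>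
      intro u v hu h2 hv gu gv h3
      rcases Nat.lt_or_ge (4 * u) v with h4 | h4
      · obtain ⟨p, hp1, hp2, gp⟩ := hd (2 * u) (by omega) (by omega)
        have h5 : θ p = θ u := hw p u hu (by omega) (by omega) (by omega) gp gu
        have h6 := ih p v (by omega) (by omega) hv gp gv (by omega)
        rw [← h5, h6]
      · exact (hw v u hu h2 hv h4 gv gu).symm
  have key2 : ∀ u v, z < u → z < v → u ≤ U → v ≤ U → Gd u → Gd v → θ u = θ v := by
    intro u v hu hv hu' hv' gu gv
    rcases Nat.le_total u v with h | h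
    · exact key _ u v hu h hv' gu gv le_rfl
    · exact (key _ v u hv h hu' gv gu le_rfl).symm
  obtain ⟨a, b, ha, hb, hab, ga, gb, gab⟩ := hp
  have ha' : a ≤ a * b := Nat.le_mul_of_pos_right _ (by omega)
  have hb' : b ≤ a * b := Nat.le_mul_of_pos_left _ (by omega)
  have e1 := hm a b ha hb hab ga gb gab
  have e2 := key2 a (a * b) ha (by omega) (by omega) hab ga gab
  have e3 := key2 b (a * b) hb (by omega) (by omega) hab gb gab
  have hone : θ (a * b) = 1 := by
    rcases h1 (a * b) (by omega) hab gab with h | h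
    · exact h
    · rw [e2, e3, h] at e1
      norm_num at e1
  intro u hu hu' gu
  rw [key2 u (a * b) hu (by omega) hu' hab gu gab, hone]

open Classical in
/-- **Mul.** A number `< (z+1)^(R+1)` has at most `2^R` divisors free of primes `≤ z`. -/
theorem rdiv (z R n : ℕ) (hn : 1 ≤ n) (h : n < (z + 1) ^ (R + 1)) :
    (n.divisors.filter (fun m => ∀ p ≤ z, p.Prime → ¬ p ∣ m)).card ≤ 2 ^ R := by
  set L : Multiset ℕ := ((n.primeFactorsList.filter (fun p => z < p) : List ℕ) : Multiset ℕ) with hL
  have hLR : Multiset.card L ≤ R := by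
    by_contra hcon
    push Not at hcon
    have h1 : (z + 1) ^ (R + 1) ≤ L.prod := by
      have h2 : (z + 1) ^ (Multiset.card L) ≤ L.prod := by
        refine Multiset.pow_card_le_prod fun p hp => ?_
        rw [hL, Multiset.mem_coe, List.mem_filter] at hp
        have := hp.2
        simp only [decide_eq_true_eq] at this
        omega
      exact (Nat.pow_le_pow_right (by omega) hcon).trans h2
    have h3 : L.prod ≤ n := by
      rw [hL, Multiset.prod_coe]
      have h4 : (n.primeFactorsList.filter (fun p => z < p)).prod ∣ n.primeFactorsList.prod :=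
        (List.filter_sublist).prod_dvd_prod
      rw [Nat.prod_primeFactorsList (by omega)] at h4
      exact Nat.le_of_dvd hn h4
    omega
  have h1 : (n.divisors.filter (fun m => ∀ p ≤ z, p.Prime → ¬ p ∣ m)).card ≤ (L.powerset.toFinset).card := by
    refine card_le_card_of_injOn (fun m => ((m.primeFactorsList : List ℕ) : Multiset ℕ)) ?_ ?_
    · intro m hm
      rw [mem_coe, mem_filter, Nat.mem_divisors] at hm
      rw [mem_coe, Multiset.mem_toFinset, Multiset.mem_powerset]
      obtain ⟨⟨hmn, hn0⟩, hm2⟩ := hm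
      have h5 : ((m.primeFactorsList : List ℕ) : Multiset ℕ) ≤ ((n.primeFactorsList : List ℕ) : Multiset ℕ) := by
        rw [Multiset.coe_le]
        exact (Nat.primeFactorsList_sublist_of_dvd hmn hn0).subperm
      rw [hL, ← Multiset.filter_coe]
      rw [Multiset.le_filter]
      refine ⟨h5, fun p hp => ?_⟩
      rw [Multiset.mem_coe, Nat.mem_primeFactorsList'] at hp
      by_contra hcon
      exact hm2 p (by omega) hp.1 hp.2.1
    · intro m hm m' hm' hmm
      rw [mem_coe, mem_filter, Nat.mem_divisors] at hm hm'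
      have h5 : m.primeFactorsList.Perm m'.primeFactorsList := Multiset.coe_eq_coe.mp hmm
      have h6 := h5.prod_eq
      have hm0 : m ≠ 0 := fun h => by rw [h] at hm; exact hm.1.2 (Nat.eq_zero_of_zero_dvd hm.1.1)
      have hm0' : m' ≠ 0 := fun h => by rw [h] at hm'; exact hm'.1.2 (Nat.eq_zero_of_zero_dvd hm'.1.1)
      rwa [Nat.prod_primeFactorsList hm0, Nat.prod_primeFactorsList hm0'] at h6
  calc (n.divisors.filter (fun m => ∀ p ≤ z, p.Prime → ¬ p ∣ m)).card ≤ (L.powerset.toFinset).card := h1
    _ ≤ Multiset.card L.powerset := Multiset.toFinset_card_le _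
    _ = 2 ^ Multiset.card L := Multiset.card_powerset L
    _ ≤ 2 ^ R := Nat.pow_le_pow_right (by norm_num) hLR

end Pool.Agent.Lib.EX
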