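import Pool.Agent.Lib.MP_61161c_nt.EX.Pcn

/-!
# EX, block D: sums over multiples, rare primes
-/

set_option autoImplicit false
open Finset
namespace Pool.Agent.Lib.EX

theorem raresum (T k x2 : ℕ) (hT : 2 ≤ T) (hx2 : x2 < T ^ (k + 1)) (L B : Finset ℕ) (hL : ∀ l ∈ L, l.Prime ∧ T < l)
    (hB : ∀ n ∈ B, 1 ≤ n ∧ n ≤ x2) (ρ : ℝ)
    (h : ∀ l ∈ L, ρ / l ≤ (((Icc 1 x2).filter (fun m => l * m ∈ B)).card : ℝ)) :
    ρ * ∑ l ∈ L, 1 / (l : ℝ) ≤ k * (B.card : ℝ) := by
  classical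
  have h1 : ρ * ∑ l ∈ L, 1 / (l : ℝ) ≤ ∑ l ∈ L, (((Icc 1 x2).filter (fun m => l * m ∈ B)).card : ℝ) := by
    rw [mul_sum]
    refine sum_le_sum fun l hl => ?_
    rw [mul_one_div]
    exact h l hl
  refine h1.trans ?_
  have h2 : ∀ l ∈ L, ((Icc 1 x2).filter (fun m => l * m ∈ B)).card ≤ (B.filter (fun n => l ∣ n)).card := by
    intro l hl
    have hl0 : 0 < l := (hL l hl).1.pos
    refine card_le_card_of_injOn (fun m => l * m) ?_ ?_
    · intro m hm
      rw [mem_coe, mem_filter] at hm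
      rw [mem_coe, mem_filter]
      exact ⟨hm.2, dvd_mul_right _ _⟩
    · intro a _ b _ hab
      exact Nat.eq_of_mul_eq_mul_left hl0 hab
  have h3 : ∑ l ∈ L, (B.filter (fun n => l ∣ n)).card = ∑ n ∈ B, (L.filter (fun l => l ∣ n)).card := by
    simp_rw [card_filter]
    rw [sum_comm]
  have h4 : ∀ n ∈ B, (L.filter (fun l => l ∣ n)).card ≤ k := by
    intro n hn
    by_contra hcon
    push Not at hcon
    have h5 : T ^ (k + 1) ≤ ∏ l ∈ L.filter (fun l => l ∣ n), l := by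
      calc T ^ (k + 1) ≤ T ^ (L.filter (fun l => l ∣ n)).card := Nat.pow_le_pow_right (by omega) hcon
        _ ≤ _ := by
          refine Finset.pow_card_le_prod _ (fun l => l) T fun l hl => ?_
          exact (hL l (mem_filter.mp hl).1).2.le
    have h6 : ∏ l ∈ L.filter (fun l => l ∣ n), l ∣ n := by
      refine Finset.prod_primes_dvd n (fun l hl => (hL l (mem_filter.mp hl).1).1.prime) fun l hl => (mem_filter.mp hl).2
    have h7 := Nat.le_of_dvd (by have := (hB n hn).1; omega) h6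
    have := (hB n hn).2
    omega
  have h5 : ∑ l ∈ L, ((Icc 1 x2).filter (fun m => l * m ∈ B)).card ≤ k * B.card := by
    calc _ ≤ ∑ l ∈ L, (B.filter (fun n => l ∣ n)).card := sum_le_sum h2
      _ = ∑ n ∈ B, (L.filter (fun l => l ∣ n)).card := h3
      _ ≤ ∑ n ∈ B, k := sum_le_sum h4
      _ = k * B.card := by rw [sum_const, smul_eq_mul, mul_comm]
  exact_mod_cast h5

theorem badsum (z U : ℕ) (hz : 1 ≤ z) (hU : 1 ≤ U) (S : Finset ℕ) (hS : ∀ p ∈ S, z < p) :
    ∑ u ∈ (Icc 1 U).filter (fun u => ∃ p ∈ S, p ∣ u), 1 / (u : ℝ) ≤ (S.card : ℝ) / z * (1 + Real.log U) := by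
  classical
  have hz0 : (0 : ℝ) < z := by exact_mod_cast hz
  have hlog : ∀ n : ℕ, n ≤ U → ∑ v ∈ Icc 1 n, 1 / (v : ℝ) ≤ 1 + Real.log U := by
    intro n hn
    rcases Nat.eq_zero_or_pos n with h0 | h0
    · subst h0
      simp
      have : 0 ≤ Real.log U := Real.log_natCast_nonneg U
      linarith
    · have h1 := harmonic_le_one_add_log n
      have h2 : ((harmonic n : ℚ) : ℝ) = ∑ v ∈ Icc 1 n, 1 / (v : ℝ) := by
        rw [harmonic_eq_sum_Icc]
        push_cast
        refine sum_congr rfl fun _ _ => by rw [one_div]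
      rw [h2] at h1
      have h3 : Real.log n ≤ Real.log U := Real.log_le_log (by exact_mod_cast h0) (by exact_mod_cast hn)
      linarith
  have hsub : (Icc 1 U).filter (fun u => ∃ p ∈ S, p ∣ u) ⊆ S.biUnion (fun p => (Icc 1 U).filter (fun u => p ∣ u)) := by
    intro u hu
    rw [mem_filter] at hu
    obtain ⟨hu1, p, hp, hd⟩ := hu
    rw [mem_biUnion]
    exact ⟨p, hp, mem_filter.mpr ⟨hu1, hd⟩⟩
  have h1 : ∀ p ∈ S, ∑ u ∈ (Icc 1 U).filter (fun u => p ∣ u), 1 / (u : ℝ) ≤ 1 / z * (1 + Real.log U) := by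
    intro p hp
    have hpz := hS p hp
    have hp0 : 0 < p := by omega
    have h2 : (Icc 1 U).filter (fun u => p ∣ u) = (Icc 1 (U / p)).image (fun v => p * v) := by
      ext u
      rw [mem_filter, mem_Icc, mem_image]
      constructor
      · rintro ⟨⟨h3, h4⟩, v, hv⟩
        refine ⟨v, ?_, hv.symm⟩
        rw [mem_Icc]
        subst hv
        refine ⟨?_, ?_⟩
        · rcases Nat.eq_zero_or_pos v with h | h
          · subst h; omega
          · exact h
        · rw [Nat.le_div_iff_mul_le hp0]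
          linarith [mul_comm p v]
      · rintro ⟨v, hv, rfl⟩
        rw [mem_Icc] at hv
        refine ⟨⟨Nat.mul_pos hp0 hv.1, ?_⟩, dvd_mul_right _ _⟩
        calc p * v ≤ p * (U / p) := Nat.mul_le_mul_left _ hv.2
          _ ≤ U := Nat.mul_div_le _ _
    rw [h2, sum_image (fun a _ b _ hab => Nat.eq_of_mul_eq_mul_left hp0 hab)]
    have h3 : ∀ v ∈ Icc 1 (U / p), 1 / ((p * v : ℕ) : ℝ) = 1 / (p : ℝ) * (1 / (v : ℝ)) := by
      intro v _
      push_cast
      rw [one_div_mul_one_div]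
    rw [sum_congr rfl h3, ← mul_sum]
    have h4 := hlog (U / p) (Nat.div_le_self _ _)
    have h5 : 1 / (p : ℝ) ≤ 1 / z := one_div_le_one_div_of_le hz0 (by exact_mod_cast hpz.le)
    have h6 : 0 ≤ ∑ v ∈ Icc 1 (U / p), 1 / (v : ℝ) := sum_nonneg fun _ _ => by positivity
    exact mul_le_mul h5 h4 h6 (by positivity)
  have h2 : ∑ u ∈ (Icc 1 U).filter (fun u => ∃ p ∈ S, p ∣ u), 1 / (u : ℝ) ≤
      ∑ p ∈ S, ∑ u ∈ (Icc 1 U).filter (fun u => p ∣ u), 1 / (u : ℝ) := by
    simp_rw [sum_filter]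
    rw [sum_comm]
    refine sum_le_sum fun u _ => ?_
    split_ifs with h
    · obtain ⟨p, hp, hd⟩ := h
      have h3 : (if p ∣ u then 1 / (u : ℝ) else 0) ≤ ∑ p ∈ S, if p ∣ u then 1 / (u : ℝ) else 0 :=
        single_le_sum (f := fun p => if p ∣ u then 1 / (u : ℝ) else 0) (fun q _ => by
          split_ifs
          · positivity
          · exact le_rfl) hp
      rw [if_pos hd] at h3
      exact h3
    · exact sum_nonneg fun q _ => by
        split_ifs
        · positivity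
        · exact le_rfl
  calc ∑ u ∈ (Icc 1 U).filter (fun u => ∃ p ∈ S, p ∣ u), 1 / (u : ℝ)
      ≤ ∑ p ∈ S, ∑ u ∈ (Icc 1 U).filter (fun u => p ∣ u), 1 / (u : ℝ) := h2
    _ ≤ ∑ p ∈ S, 1 / (z : ℝ) * (1 + Real.log U) := sum_le_sum h1
    _ = _ := by
      rw [sum_const, nsmul_eq_mul]
      ring

end Pool.Agent.Lib.EX
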