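import Pool.Agent.Lib.MP_61161c_nt.EX.O1b

/-!
# EX, block D, module DFinA: the real character on the integers, transfer from `F`
-/

set_option autoImplicit false

open Finset
open Pool.Agent.Lib.MP_45349e_nt.LS (lam lam_mul)

namespace Pool.Agent.Lib.EX

open Pool.Agent.Lib.RG (phi_pos)

/-- the value of a real character at `n` -/
noncomputable def cr {G : ℕ} (χ : DirichletCharacter ℂ G) (n : ℕ) : ℝ := (χ (n : ZMod G)).re

variable {G : ℕ} [NeZero G] (χ : DirichletCharacter ℂ G) (hχ : χ ^ 2 = 1)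

include hχ

theorem chi_pm (x : ZMod G) (hx : IsUnit x) : χ x = 1 ∨ χ x = -1 := by
  have h2 : (χ x) ^ 2 = 1 := by
    have h3 : (χ ^ 2) x = 1 := by
      rw [hχ]
      exact MulChar.one_apply hx
    rwa [MulChar.pow_apply' χ two_ne_zero] at h3
  exact sq_eq_one_iff.mp h2

theorem chi_re (x : ZMod G) : χ x = (((χ x).re : ℝ) : ℂ) := by
  by_cases hx : IsUnit x
  · rcases chi_pm χ hχ x hx with h | h <;> rw [h] <;> simp
  · rw [MulChar.map_nonunit χ hx]
    simp

theorem cr_pm (n : ℕ) (hn : n.Coprime G) : cr χ n = 1 ∨ cr χ n = -1 := by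
  unfold cr
  rcases chi_pm χ hχ (n : ZMod G) ((ZMod.isUnit_iff_coprime n G).mpr hn) with h | h <;> rw [h] <;> simp

omit hχ in
theorem cr_non (n : ℕ) (hn : ¬ n.Coprime G) : cr χ n = 0 := by
  unfold cr
  rw [MulChar.map_nonunit χ (fun h => hn ((ZMod.isUnit_iff_coprime n G).mp h))]
  simp

theorem cr_mul (m n : ℕ) : cr χ (m * n) = cr χ m * cr χ n := by
  unfold cr
  rw [Nat.cast_mul, map_mul]
  rw [chi_re χ hχ (m : ZMod G), chi_re χ hχ (n : ZMod G)]
  simp

theorem cr_eq_one (n : ℕ) : χ (n : ZMod G) = 1 ↔ cr χ n = 1 := by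
  unfold cr
  constructor
  · intro h
    rw [h]
    simp
  · intro h
    rw [chi_re χ hχ (n : ZMod G), h]
    simp

open Classical in
/-- `lam u χ(u)` is the same for two numbers `u`, `u'` with almost the same translates -/
theorem th_eq (F : ZMod G → ℝ) (s : ℝ) (hs : s = 1 ∨ s = -1) (d4 d : ℝ) (hd : d + 2 * d4 < 1)
    (hE : ((univ.filter (fun x : ZMod G => IsUnit x ∧ ((F x : ℝ) : ℂ) ≠ (s : ℂ) * χ x)).card : ℝ) ≤ d4 * G.totient)
    (u u' : ℕ) (hu : u.Coprime G) (hu' : u'.Coprime G)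
    (h : ((univ.filter (fun r : ZMod G => IsUnit r ∧ lam u * F (u * r) ≠ lam u' * F (u' * r))).card : ℝ) ≤ d * G.totient) :
    lam u * cr χ u = lam u' * cr χ u' := by
  have hφ := phi_pos (N := G)
  by_contra hne
  set E := univ.filter (fun x : ZMod G => IsUnit x ∧ ((F x : ℝ) : ℂ) ≠ (s : ℂ) * χ x) with hEdef
  have hun : ∀ (u : ℕ), u.Coprime G → IsUnit (u : ZMod G) := fun u hu => (ZMod.isUnit_iff_coprime u G).mpr hu
  have htr : ∀ v : ℕ, v.Coprime G →
      ((univ.filter (fun r : ZMod G => IsUnit r ∧ (v : ZMod G) * r ∈ E)).card : ℝ) ≤ d4 * G.totient := by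
    intro v hv
    refine le_trans ?_ hE
    have h1 : (univ.filter (fun r : ZMod G => IsUnit r ∧ (v : ZMod G) * r ∈ E)).card ≤ E.card := by
      refine card_le_card_of_injOn (fun r => (v : ZMod G) * r) ?_ ?_
      · intro r hr
        rw [mem_coe, mem_filter] at hr
        exact hr.2.2
      · intro a _ b _ hab
        exact (hun v hv).mul_left_cancel hab
    exact_mod_cast h1
  have hcov : univ.filter (fun r : ZMod G => IsUnit r) ⊆
      (univ.filter (fun r : ZMod G => IsUnit r ∧ (u : ZMod G) * r ∈ E)) ∪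
      ((univ.filter (fun r : ZMod G => IsUnit r ∧ (u' : ZMod G) * r ∈ E)) ∪
      (univ.filter (fun r : ZMod G => IsUnit r ∧ lam u * F (u * r) ≠ lam u' * F (u' * r)))) := by
    intro r hr
    rw [mem_filter] at hr
    by_contra hcon
    have h1' : (u : ZMod G) * r ∉ E := fun h =>
      hcon (mem_union_left _ (mem_filter.mpr ⟨mem_univ _, hr.2, h⟩))
    have h2' : (u' : ZMod G) * r ∉ E := fun h =>
      hcon (mem_union_right _ (mem_union_left _ (mem_filter.mpr ⟨mem_univ _, hr.2, h⟩)))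
    have h3' : lam u * F (u * r) = lam u' * F (u' * r) := by
      by_contra h
      exact hcon (mem_union_right _ (mem_union_right _ (mem_filter.mpr ⟨mem_univ _, hr.2, h⟩)))
    rw [hEdef, mem_filter] at h1' h2'
    push Not at h1' h2'
    have g1 := h1' (mem_univ _) ((hun u hu).mul hr.2)
    have g2 := h2' (mem_univ _) ((hun u' hu').mul hr.2)
    rw [map_mul, chi_re χ hχ (u : ZMod G), chi_re χ hχ r] at g1
    rw [map_mul, chi_re χ hχ (u' : ZMod G), chi_re χ hχ r] at g2
    have g1' : F (u * r) = s * (cr χ u * (χ r).re) := by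
      have : ((F (u * r) : ℝ) : ℂ) = ((s * (cr χ u * (χ r).re) : ℝ) : ℂ) := by
        rw [g1]
        unfold cr
        push_cast
        rfl
      exact_mod_cast this
    have g2' : F (u' * r) = s * (cr χ u' * (χ r).re) := by
      have : ((F (u' * r) : ℝ) : ℂ) = ((s * (cr χ u' * (χ r).re) : ℝ) : ℂ) := by
        rw [g2]
        unfold cr
        push_cast
        rfl
      exact_mod_cast this
    rw [g1', g2'] at h3'
    apply hne
    have hr1 : (χ r).re ≠ 0 := by
      rcases chi_pm χ hχ r hr.2 with h | h <;> rw [h] <;> simp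
    have hs1 : s ≠ 0 := by rcases hs with h | h <;> rw [h] <;> norm_num
    have h5 : (s * (χ r).re) * (lam u * cr χ u) = (s * (χ r).re) * (lam u' * cr χ u') := by linarith
    exact mul_left_cancel₀ (mul_ne_zero hs1 hr1) h5
  have h1 : (G.totient : ℝ) ≤ d4 * G.totient + (d4 * G.totient + d * G.totient) := by
    have h2 := (card_le_card hcov).trans ((card_union_le _ _).trans
      (add_le_add le_rfl (card_union_le _ _)))
    have h3 : ((univ.filter (fun x : ZMod G => IsUnit x)).card : ℝ) ≤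
        ((univ.filter (fun r : ZMod G => IsUnit r ∧ (u : ZMod G) * r ∈ E)).card : ℝ) +
        (((univ.filter (fun r : ZMod G => IsUnit r ∧ (u' : ZMod G) * r ∈ E)).card : ℝ) +
        ((univ.filter (fun r : ZMod G => IsUnit r ∧ lam u * F (u * r) ≠ lam u' * F (u' * r))).card : ℝ)) := by
      exact_mod_cast h2
    rw [card_isUnit (N := G)] at h3
    have h4 := htr u hu
    have h5 := htr u' hu'
    linarith
  nlinarith

omit hχ in
open Classical in
/-- from `F` to `s χ` on the rough numbers -/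
theorem sgn (F : ZMod G → ℝ) (s d4 d : ℝ) (z x1 x2 : ℕ)
    (hE : ((univ.filter (fun x : ZMod G => IsUnit x ∧ ((F x : ℝ) : ℂ) ≠ (s : ℂ) * χ x)).card : ℝ) ≤ d4 * G.totient)
    (hrap : ∀ x : ℕ, x.Coprime G →
      (((Icc 1 x2).filter fun n : ℕ => Sf z (n : ℤ) ∧ n ≡ x [MOD G]).card : ℝ) * G.totient ≤ 2 * x2 * vz z)
    (hv : 0 ≤ vz z)
    (h : (((rg z x1 x2).filter (fun n : ℕ => n.Coprime G ∧ lam n ≠ F n)).card : ℝ) ≤ d * (x2 * vz z)) :
    (((rg z x1 x2).filter (fun n : ℕ => n.Coprime G ∧ lam n ≠ s * cr χ n)).card : ℝ) ≤ (d + 2 * d4) * (x2 * vz z) := by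
  have hφ := phi_pos (N := G)
  set E := univ.filter (fun x : ZMod G => IsUnit x ∧ ((F x : ℝ) : ℂ) ≠ (s : ℂ) * χ x) with hEdef
  have hsub : (rg z x1 x2).filter (fun n : ℕ => n.Coprime G ∧ lam n ≠ s * cr χ n) ⊆
      (rg z x1 x2).filter (fun n : ℕ => n.Coprime G ∧ lam n ≠ F n) ∪
        E.biUnion (fun x => (Icc 1 x2).filter (fun n : ℕ => Sf z (n : ℤ) ∧ n ≡ x.val [MOD G])) := by
    intro n hn
    rw [mem_filter] at hn
    obtain ⟨hn1, hn2, hn3⟩ := hn
    rw [mem_union, mem_filter, mem_biUnion]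
    by_cases hF : lam n = F n
    · right
      refine ⟨(n : ZMod G), ?_, ?_⟩
      · rw [hEdef, mem_filter]
        refine ⟨mem_univ _, (ZMod.isUnit_iff_coprime n G).mpr hn2, fun h2 => hn3 ?_⟩
        rw [hF]
        have h3 := congrArg Complex.re h2
        rw [Complex.ofReal_re, Complex.re_ofReal_mul] at h3
        exact h3
      · rw [mem_rg'] at hn1
        rw [mem_filter, mem_Icc]
        refine ⟨⟨by omega, hn1.1.2⟩, Sf_nat.mpr hn1.2, ?_⟩
        rw [← ZMod.natCast_eq_natCast_iff, ZMod.natCast_zmod_val]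
    · left
      exact ⟨hn1, hn2, hF⟩
  have hcl : ∀ x ∈ E, (((Icc 1 x2).filter (fun n : ℕ => Sf z (n : ℤ) ∧ n ≡ x.val [MOD G])).card : ℝ) ≤
      2 * x2 * vz z / G.totient := by
    intro x hx
    rw [hEdef, mem_filter] at hx
    rw [le_div_iff₀ hφ]
    refine hrap x.val ?_
    rw [← ZMod.isUnit_iff_coprime, ZMod.natCast_zmod_val]
    exact hx.2.1
  have h1 : (((rg z x1 x2).filter (fun n : ℕ => n.Coprime G ∧ lam n ≠ s * cr χ n)).card : ℝ) ≤
      (((rg z x1 x2).filter (fun n : ℕ => n.Coprime G ∧ lam n ≠ F n)).card : ℝ) +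
      ∑ x ∈ E, (((Icc 1 x2).filter (fun n : ℕ => Sf z (n : ℤ) ∧ n ≡ x.val [MOD G])).card : ℝ) := by
    exact_mod_cast (card_le_card hsub).trans ((card_union_le _ _).trans (add_le_add le_rfl card_biUnion_le))
  have h2 := sum_le_sum hcl
  rw [sum_const, nsmul_eq_mul] at h2
  have h3 : (E.card : ℝ) * (2 * x2 * vz z / G.totient) ≤ d4 * G.totient * (2 * x2 * vz z / G.totient) :=
    mul_le_mul_of_nonneg_right hE (by positivity)
  have h4 : d4 * G.totient * (2 * x2 * vz z / G.totient) = 2 * d4 * (x2 * vz z) := by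
    field_simp
  linarith

end Pool.Agent.Lib.EX
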