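import Mathlib

/-!
# EX, block D, module DFinB: the sizes of the parameters
-/

set_option autoImplicit false

open Finset

namespace Pool.Agent.Lib.EX

theorem dnum (om mu : ℝ) (hom : 0 < om) (homu : om ≤ mu / 10 ^ 6) (hmu : 0 < mu) (hmu1 : mu ≤ 1) :
    ∃ X0 : ℕ, ∀ X Y : ℕ, X0 ≤ X → Y = ⌊(X : ℝ) ^ om⌋₊ →
      (∀ G : ℕ, G * Y ^ 17 ≤ X → (G : ℝ) ≤ (X : ℝ) ^ (1 - 15 * om)) ∧
      (X : ℝ) ^ (1 - 3 * om) ≤ ((X / (50 * Y ^ 2) : ℕ) : ℝ) ∧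
      8 * (X / (9000 * Y ^ 2) + 1) ≤ X / (50 * Y ^ 2) ∧
      (X : ℝ) ^ (15 * om / 400) ≤ (⌊(X : ℝ) ^ (15 * om / 200)⌋₊ : ℕ) ∧
      ((⌊(X : ℝ) ^ (15 * om / 200)⌋₊ : ℕ) : ℝ) ≤ (X : ℝ) ^ (15 * om / 200) ∧
      2 * ⌊(X : ℝ) ^ (15 * om / 200)⌋₊ ≤ Y ^ 10 ∧
      (X : ℝ) ^ (9 * om) ≤ ((Y ^ 10 : ℕ) : ℝ) ∧
      Y ^ 10 ≤ X ∧
      (∀ N l : ℕ, N ≤ 2 * X → 1 ≤ l → (l : ℝ) ≤ (N : ℝ) ^ (1 - mu / 10) →
        (X : ℝ) ^ (mu / 20) ≤ ((X / (50 * Y ^ 2) : ℕ) : ℝ) / l) := by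
  have hom1 : om ≤ 1 / 10 ^ 6 := by
    refine homu.trans ?_
    rw [div_le_div_iff₀ (by norm_num) (by norm_num)]
    linarith
  have hpow : ∀ c : ℝ, 0 < c → Filter.Tendsto (fun X : ℕ => (X : ℝ) ^ c) Filter.atTop Filter.atTop :=
    fun c hc => (tendsto_rpow_atTop hc).comp tendsto_natCast_atTop_atTop
  have hev := ((((hpow (om / 2) (by linarith)).eventually_ge_atTop (2 ^ 17)).and
    ((hpow (15 * om / 400) (by linarith)).eventually_ge_atTop 2)).and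
    ((hpow (mu / 40) (by linarith)).eventually_ge_atTop 2)).and (Filter.eventually_ge_atTop 100)
  obtain ⟨X0, h0⟩ := Filter.eventually_atTop.mp hev
  refine ⟨X0, fun X Y hX hY => ?_⟩
  obtain ⟨⟨⟨hP1, hP2⟩, hP3⟩, hX100⟩ := h0 X hX
  have hXr : (1 : ℝ) < X := by exact_mod_cast (by omega : 1 < X)
  have hX0 : (0 : ℝ) < X := by linarith
  have pw : ∀ t : ℝ, 0 < (X : ℝ) ^ t := fun t => Real.rpow_pos_of_pos hX0 t
  have mono : ∀ {s t : ℝ}, s ≤ t → (X : ℝ) ^ s ≤ (X : ℝ) ^ t := fun h => Real.rpow_le_rpow_of_exponent_le hXr.le h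
  have hY1 : (Y : ℝ) ≤ (X : ℝ) ^ om := by rw [hY]; exact Nat.floor_le (pw _).le
  have hY2 : (X : ℝ) ^ om < Y + 1 := by rw [hY]; exact Nat.lt_floor_add_one _
  have hXom : (2 : ℝ) ^ 17 ≤ (X : ℝ) ^ om := hP1.trans (mono (by linarith))
  have hY3 : (X : ℝ) ^ om / 2 ≤ Y := by
    have : (2 : ℝ) ≤ (X : ℝ) ^ om := by linarith
    linarith
  have hY0 : (0 : ℝ) < Y := by linarith
  have hY0' : 0 < Y := by exact_mod_cast hY0
  -- (b)
  have hb : (X : ℝ) ^ (1 - 3 * om) ≤ ((X / (50 * Y ^ 2) : ℕ) : ℝ) := by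
    have h1 : (X : ℝ) < (((X / (50 * Y ^ 2) : ℕ) : ℝ) + 1) * (50 * Y ^ 2) := by
      have h2 := Nat.lt_div_mul_add (a := X) (b := 50 * Y ^ 2) (by positivity)
      have h3 : (X : ℝ) < ((X / (50 * Y ^ 2) : ℕ) : ℝ) * (50 * Y ^ 2) + 50 * Y ^ 2 := by exact_mod_cast h2
      linarith
    have h2 : (Y : ℝ) ^ 2 ≤ (X : ℝ) ^ (2 * om) := by
      calc (Y : ℝ) ^ 2 ≤ ((X : ℝ) ^ om) ^ 2 := pow_le_pow_left₀ hY0.le hY1 2
        _ = (X : ℝ) ^ (2 * om) := by rw [← Real.rpow_natCast, ← Real.rpow_mul hX0.le]; congr 1; push_cast; ring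
    have h3 : (X : ℝ) < (((X / (50 * Y ^ 2) : ℕ) : ℝ) + 1) * (50 * (X : ℝ) ^ (2 * om)) :=
      lt_of_lt_of_le h1 (by gcongr)
    have h4 : (X : ℝ) = (X : ℝ) ^ (1 - 3 * om) * (X : ℝ) ^ om * (X : ℝ) ^ (2 * om) := by
      rw [← Real.rpow_add hX0, ← Real.rpow_add hX0]
      have : 1 - 3 * om + om + 2 * om = 1 := by ring
      rw [this, Real.rpow_one]
    have h5 : (X : ℝ) ^ (1 - 3 * om) * (X : ℝ) ^ om < (((X / (50 * Y ^ 2) : ℕ) : ℝ) + 1) * 50 := by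
      rw [h4] at h3
      have h6 : (X : ℝ) ^ (1 - 3 * om) * (X : ℝ) ^ om * (X : ℝ) ^ (2 * om) <
        (((X / (50 * Y ^ 2) : ℕ) : ℝ) + 1) * 50 * (X : ℝ) ^ (2 * om) := by
        calc _ < _ := h3
          _ = _ := by
            rw [← h4]
            ring
      exact lt_of_mul_lt_mul_right h6 (pw _).le
    have h6 : (1 : ℝ) ≤ (X : ℝ) ^ (1 - 3 * om) := Real.one_le_rpow hXr.le (by linarith)
    nlinarith
  have hb2 : (100 : ℝ) ≤ ((X / (50 * Y ^ 2) : ℕ) : ℝ) := by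
    refine le_trans ?_ hb
    calc (100 : ℝ) ≤ (X : ℝ) ^ om := by linarith
      _ ≤ _ := mono (by linarith)
  have hb3 : 100 ≤ X / (50 * Y ^ 2) := by exact_mod_cast hb2
  refine ⟨?_, hb, ?_, ?_, Nat.floor_le (pw _).le, ?_, ?_, ?_, ?_⟩
  · -- (a)
    intro G hG
    have h1 : (G : ℝ) * (Y : ℝ) ^ 17 ≤ X := by exact_mod_cast hG
    have h2 : ((X : ℝ) ^ om / 2) ^ 17 ≤ (Y : ℝ) ^ 17 := pow_le_pow_left₀ (by positivity) hY3 17
    have h3 : (X : ℝ) ^ (15 * om) ≤ ((X : ℝ) ^ om / 2) ^ 17 := by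
      rw [div_pow, le_div_iff₀ (by positivity)]
      calc (X : ℝ) ^ (15 * om) * 2 ^ 17 ≤ (X : ℝ) ^ (15 * om) * (X : ℝ) ^ (2 * om) := by
            refine mul_le_mul_of_nonneg_left ?_ (pw _).le
            exact hXom.trans (mono (by linarith))
        _ = ((X : ℝ) ^ om) ^ 17 := by
            rw [← Real.rpow_add hX0, ← Real.rpow_natCast, ← Real.rpow_mul hX0.le]
            congr 1
            push_cast
            ring
    have h4 : (G : ℝ) * (X : ℝ) ^ (15 * om) ≤ X := le_trans (by gcongr; exact h3.trans h2) h1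
    rw [Real.rpow_sub hX0, Real.rpow_one, le_div_iff₀ (pw _)]
    exact h4
  · -- (c)
    have h1 : 180 * (X / (9000 * Y ^ 2)) ≤ X / (50 * Y ^ 2) := by
      rw [Nat.le_div_iff_mul_le (by positivity)]
      calc 180 * (X / (9000 * Y ^ 2)) * (50 * Y ^ 2) = 9000 * Y ^ 2 * (X / (9000 * Y ^ 2)) := by ring
        _ ≤ X := Nat.mul_div_le _ _
    omega
  · -- (d1)
    have h1 : (X : ℝ) ^ (15 * om / 200) < (⌊(X : ℝ) ^ (15 * om / 200)⌋₊ : ℕ) + 1 := Nat.lt_floor_add_one _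
    have h2 : (X : ℝ) ^ (15 * om / 200) = (X : ℝ) ^ (15 * om / 400) * (X : ℝ) ^ (15 * om / 400) := by
      rw [← Real.rpow_add hX0]
      congr 1
      ring
    rw [h2] at h1 ⊢
    nlinarith
  · -- (d3)
    have h1 : ((⌊(X : ℝ) ^ (15 * om / 200)⌋₊ : ℕ) : ℝ) ≤ (X : ℝ) ^ (15 * om / 200) := Nat.floor_le (pw _).le
    have h2 : 4 * (X : ℝ) ^ (15 * om / 200) ≤ (X : ℝ) ^ om := by
      calc 4 * (X : ℝ) ^ (15 * om / 200) ≤ (X : ℝ) ^ (om / 2) * (X : ℝ) ^ (15 * om / 200) := by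
            refine mul_le_mul_of_nonneg_right (by linarith) (pw _).le
        _ = (X : ℝ) ^ (om / 2 + 15 * om / 200) := (Real.rpow_add hX0 _ _).symm
        _ ≤ _ := mono (by linarith)
    have h3 : (2 * ⌊(X : ℝ) ^ (15 * om / 200)⌋₊ : ℕ) ≤ Y := by
      have : (((2 * ⌊(X : ℝ) ^ (15 * om / 200)⌋₊ : ℕ)) : ℝ) ≤ Y := by
        push_cast
        linarith
      exact_mod_cast this
    exact h3.trans (Nat.le_self_pow (by norm_num) Y)
  · -- (e)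
    have h1 : (X : ℝ) ^ (9 * om) ≤ ((X : ℝ) ^ om / 2) ^ 10 := by
      rw [div_pow, le_div_iff₀ (by positivity)]
      calc (X : ℝ) ^ (9 * om) * 2 ^ 10 ≤ (X : ℝ) ^ (9 * om) * (X : ℝ) ^ om := by
            refine mul_le_mul_of_nonneg_left ?_ (pw _).le
            refine le_trans ?_ hXom
            norm_num
        _ = ((X : ℝ) ^ om) ^ 10 := by
            rw [← Real.rpow_add hX0, ← Real.rpow_natCast, ← Real.rpow_mul hX0.le]
            congr 1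
            push_cast
            ring
    push_cast
    exact h1.trans (pow_le_pow_left₀ (by positivity) hY3 10)
  · -- Y^10 ≤ X
    have h1 : ((Y ^ 10 : ℕ) : ℝ) ≤ X := by
      push_cast
      calc (Y : ℝ) ^ 10 ≤ ((X : ℝ) ^ om) ^ 10 := pow_le_pow_left₀ hY0.le hY1 10
        _ = (X : ℝ) ^ (10 * om) := by rw [← Real.rpow_natCast, ← Real.rpow_mul hX0.le]; congr 1; push_cast; ring
        _ ≤ (X : ℝ) ^ (1 : ℝ) := mono (by linarith)
        _ = X := Real.rpow_one _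
    exact_mod_cast h1
  · -- (f)
    intro N l hN hl hlN
    have hl0 : (0 : ℝ) < l := by exact_mod_cast hl
    have hNr : (N : ℝ) ≤ 2 * X := by exact_mod_cast hN
    have h1 : (l : ℝ) ≤ 2 * (X : ℝ) ^ (1 - mu / 10) := by
      calc (l : ℝ) ≤ (N : ℝ) ^ (1 - mu / 10) := hlN
        _ ≤ (2 * (X : ℝ)) ^ (1 - mu / 10) := Real.rpow_le_rpow (Nat.cast_nonneg _) hNr (by linarith)
        _ = (2 : ℝ) ^ (1 - mu / 10) * (X : ℝ) ^ (1 - mu / 10) := Real.mul_rpow (by norm_num) hX0.le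
        _ ≤ 2 * (X : ℝ) ^ (1 - mu / 10) := by
            refine mul_le_mul_of_nonneg_right ?_ (pw _).le
            calc (2 : ℝ) ^ (1 - mu / 10) ≤ (2 : ℝ) ^ (1 : ℝ) :=
                  Real.rpow_le_rpow_of_exponent_le (by norm_num) (by linarith)
              _ = 2 := Real.rpow_one _
    rw [le_div_iff₀ hl0]
    refine le_trans ?_ hb
    calc (X : ℝ) ^ (mu / 20) * l ≤ (X : ℝ) ^ (mu / 20) * (2 * (X : ℝ) ^ (1 - mu / 10)) := by gcongr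
      _ ≤ (X : ℝ) ^ (mu / 20) * ((X : ℝ) ^ (mu / 40) * (X : ℝ) ^ (1 - mu / 10)) := by gcongr
      _ = (X : ℝ) ^ (mu / 20 + (mu / 40 + (1 - mu / 10))) := by rw [Real.rpow_add hX0, Real.rpow_add hX0]
      _ ≤ _ := mono (by linarith)

end Pool.Agent.Lib.EX
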