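import Pool.Agent.Lib.MP_61161c_nt.EX.DDefs

/-!
# EX, block D, module DFinC: good numbers
-/

set_option autoImplicit false

open Finset

namespace Pool.Agent.Lib.EX

namespace Env

variable (e : Env)

theorem gd_prime (hb : ∀ q ∈ e.Bad, q.Prime) (p : ℕ) (hp : p.Prime) (hz : e.z < p) (hB : p ∉ e.Bad) : e.Gd (p : ℤ) := by
  constructor
  · rw [Sf_nat]
    intro q hq hqp hd
    have : q = p := (Nat.prime_dvd_prime_iff_eq hqp hp).mp hd
    omega
  · intro q hq hd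
    have hd' : q ∣ p := by exact_mod_cast hd
    have : q = p := (Nat.prime_dvd_prime_iff_eq (hb q hq) hp).mp hd'
    exact hB (this ▸ hq)

theorem gd_mul (hb : ∀ q ∈ e.Bad, q.Prime) (a b : ℕ) (ha : e.Gd (a : ℤ)) (hb' : e.Gd (b : ℤ)) :
    e.Gd ((a * b : ℕ) : ℤ) := by
  constructor
  · rw [Sf_nat]
    intro q hq hqp hd
    have h1 := Sf_nat.mp ha.1 q hq hqp
    have h2 := Sf_nat.mp hb'.1 q hq hqp
    exact (hqp.dvd_mul.mp hd).elim h1 h2
  · intro q hq hd
    have hd' : q ∣ a * b := by exact_mod_cast hd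
    rcases ((hb q hq).dvd_mul.mp hd') with h | h
    · exact ha.2 q hq (by exact_mod_cast h)
    · exact hb'.2 q hq (by exact_mod_cast h)

/-- the primes to be avoided -/
noncomputable def AV (G : ℕ) : Finset ℕ := e.Bad ∪ G.primeFactors.filter (fun p => e.z < p)

theorem gd_of (hb : ∀ q ∈ e.Bad, q.Prime ∧ e.z < q) (G : ℕ) (hG : G ≠ 0) (u : ℕ) (hu : 1 < u) (hs : Sf e.z (u : ℤ))
    (hA : ∀ p ∈ e.AV G, ¬ p ∣ u) : e.Gd (u : ℤ) ∧ u.Coprime G ∧ e.z < u := by
  refine ⟨⟨hs, fun p hp hd => hA p (mem_union_left _ hp) (by exact_mod_cast hd)⟩, ?_, ?_⟩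
  · by_contra hcon
    obtain ⟨p, hp, hpu, hpG⟩ := Nat.Prime.not_coprime_iff_dvd.mp hcon
    refine hA p (mem_union_right _ ?_) hpu
    rw [mem_filter, Nat.mem_primeFactors]
    refine ⟨⟨hp, hpG, hG⟩, ?_⟩
    by_contra hz
    exact Sf_nat.mp hs p (by omega) hp hpu
  · have h1 := Nat.minFac_prime (show u ≠ 1 by omega)
    have h2 := Nat.minFac_dvd u
    have h3 : e.z < u.minFac := by
      by_contra hz
      exact Sf_nat.mp hs u.minFac (by omega) h1 h2
    exact lt_of_lt_of_le h3 (Nat.minFac_le (by omega))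

end Env

/-- number of prime factors -/
theorem pfc (G : ℕ) (hG : 1 ≤ G) : (G.primeFactors.card : ℝ) ≤ Real.log G / Real.log 2 := by
  have hl2 : 0 < Real.log 2 := Real.log_pos (by norm_num)
  rw [le_div_iff₀ hl2]
  have h1 : (2 : ℕ) ^ G.primeFactors.card ≤ G := by
    calc (2 : ℕ) ^ G.primeFactors.card ≤ ∏ p ∈ G.primeFactors, p := by
          refine Finset.pow_card_le_prod G.primeFactors (fun p => p) 2 fun p hp => ?_
          exact (Nat.mem_primeFactors.mp hp).1.two_le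
      _ ≤ G := Nat.le_of_dvd (by omega) (Nat.prod_primeFactors_dvd G)
  have h2 : ((2 : ℝ)) ^ G.primeFactors.card ≤ G := by exact_mod_cast h1
  have h3 := Real.log_le_log (by positivity) h2
  rw [Real.log_pow] at h3
  exact h3

/-- sizes from `Ok` -/
theorem Env.sz (e : Env) (he : e.Ok) (hL : 4 ≤ Real.log e.X) : Real.log e.X ≤ e.U ∧ (100 : ℝ) ≤ e.U ∧ (e.U : ℝ) ^ 60 ≤ e.z ∧
    (Real.log e.X) ^ 50 ≤ e.U ∧ (e.z : ℝ) ^ 2 ≤ e.Y ∧ (1 : ℝ) ≤ e.U := by
  have h1 := he.logU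
  have h2 : Real.log e.X ≤ (Real.log e.X) ^ 50 := le_self_pow₀ (by linarith) (by norm_num)
  have h3 : (100 : ℝ) ≤ e.U := by
    have h4 := he.etaU
    have h5 := he.eta1
    have h6 : (0 : ℝ) ≤ e.U := Nat.cast_nonneg _
    nlinarith
  refine ⟨h2.trans h1, h3, by exact_mod_cast he.Uz, h1, by exact_mod_cast he.zY, by linarith⟩

theorem Env.AVcard (e : Env) (he : e.Ok) (hL : 4 ≤ Real.log e.X) (G : ℕ) (hG : 1 ≤ G) (hGX : G ≤ e.X) :
    ((e.AV G).card : ℝ) ≤ 3 * e.U := by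
  obtain ⟨h1, h2, -, -, -, -⟩ := e.sz he hL
  have h3 : (e.Bad.card : ℝ) ≤ e.U := by exact_mod_cast he.bad.1
  have h4 := pfc G hG
  have h5 : ((G.primeFactors.filter (fun p => e.z < p)).card : ℝ) ≤ G.primeFactors.card := by
    exact_mod_cast card_le_card (filter_subset _ _)
  have h6 : ((e.AV G).card : ℝ) ≤ (e.Bad.card : ℝ) + ((G.primeFactors.filter (fun p => e.z < p)).card : ℝ) := by
    exact_mod_cast card_union_le _ _
  have h7 : Real.log G / Real.log 2 ≤ 2 * Real.log e.X := by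
    have hl2 : 1 / 2 < Real.log 2 := by
      have := Real.log_two_gt_d9
      linarith
    rw [div_le_iff₀ (by linarith)]
    have h8 : Real.log G ≤ Real.log e.X := Real.log_le_log (by exact_mod_cast hG) (by exact_mod_cast hGX)
    nlinarith
  linarith

open Classical in
/-- good primes in dyadic intervals -/
theorem gpr (hpc : ∃ y0 : ℕ, ∀ y : ℕ, y0 ≤ y → (y : ℝ) / (2 * Real.log y) ≤ (((Ioc y (2 * y)).filter Nat.Prime).card : ℝ)) :
    ∃ X0 : ℕ, ∀ e : Env, X0 ≤ e.X → e.Ok → ∀ G : ℕ, 1 ≤ G → G ≤ e.X → ∀ y : ℕ, e.z ≤ y → y ≤ e.X →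
    (y : ℝ) / (Real.log e.X) ^ 2 ≤ (((Ioc y (2 * y)).filter (fun p => p.Prime ∧ p ∉ e.AV G)).card : ℝ) := by
  obtain ⟨y0, hy0⟩ := hpc
  have hlog : Filter.Tendsto (fun X : ℕ => Real.log X) Filter.atTop Filter.atTop :=
    Real.tendsto_log_atTop.comp tendsto_natCast_atTop_atTop
  obtain ⟨X0, hX0⟩ := Filter.eventually_atTop.mp (hlog.eventually_ge_atTop (max 4 y0))
  refine ⟨X0, fun e hX he G hG hGX y hzy hyX => ?_⟩
  have hL4 : 4 ≤ Real.log e.X := (le_max_left _ _).trans (hX0 _ hX)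
  have hLy : (y0 : ℝ) ≤ Real.log e.X := (le_max_right _ _).trans (hX0 _ hX)
  obtain ⟨h1, h2, h3, -, -, h5⟩ := e.sz he hL4
  have hUz : (e.U : ℝ) ^ 3 ≤ e.z := le_trans (pow_le_pow_right₀ h5 (by norm_num)) h3
  have hUz1 : (e.U : ℝ) ≤ e.z := le_trans (le_self_pow₀ h5 (by norm_num)) hUz
  have hzyr : (e.z : ℝ) ≤ y := by exact_mod_cast hzy
  have hyXr : (y : ℝ) ≤ e.X := by exact_mod_cast hyX
  have hy1 : (1 : ℝ) < y := by linarith
  have hyy0 : y0 ≤ y := by
    have : (y0 : ℝ) ≤ y := by linarith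
    exact_mod_cast this
  have hc := hy0 y hyy0
  have hly : Real.log y ≤ Real.log e.X := Real.log_le_log (by linarith) hyXr
  have hly0 : 0 < Real.log y := Real.log_pos hy1
  have hsub : (Ioc y (2 * y)).filter Nat.Prime ⊆
      (Ioc y (2 * y)).filter (fun p => p.Prime ∧ p ∉ e.AV G) ∪ e.AV G := by
    intro p hp
    rw [mem_filter] at hp
    rw [mem_union, mem_filter]
    by_cases h : p ∈ e.AV G
    · exact Or.inr h
    · exact Or.inl ⟨hp.1, hp.2, h⟩
  have hcard : (((Ioc y (2 * y)).filter Nat.Prime).card : ℝ) ≤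
      (((Ioc y (2 * y)).filter (fun p => p.Prime ∧ p ∉ e.AV G)).card : ℝ) + ((e.AV G).card : ℝ) := by
    exact_mod_cast (card_le_card hsub).trans (card_union_le _ _)
  have hAV := e.AVcard he hL4 G hG hGX
  have h6 : (y : ℝ) / (2 * Real.log e.X) ≤ (y : ℝ) / (2 * Real.log y) := by gcongr
  have hLpos : 0 < Real.log e.X := by linarith
  have h7 : 3 * (e.U : ℝ) ≤ (y : ℝ) / (4 * Real.log e.X) := by
    rw [le_div_iff₀ (by positivity)]
    calc 3 * (e.U : ℝ) * (4 * Real.log e.X) ≤ 3 * (e.U : ℝ) * (4 * e.U) := by gcongr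
      _ = 12 * (e.U : ℝ) ^ 2 := by ring
      _ ≤ (e.U : ℝ) * (e.U : ℝ) ^ 2 := mul_le_mul_of_nonneg_right (by linarith) (by positivity)
      _ = (e.U : ℝ) ^ 3 := by ring
      _ ≤ y := hUz.trans hzyr
  have h8 : (y : ℝ) / (2 * Real.log e.X) = (y : ℝ) / (4 * Real.log e.X) + (y : ℝ) / (4 * Real.log e.X) := by
    field_simp
    norm_num
  have h9 : (y : ℝ) / (Real.log e.X) ^ 2 ≤ (y : ℝ) / (4 * Real.log e.X) := by
    refine div_le_div_of_nonneg_left (by linarith) (by positivity) ?_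
    nlinarith
  linarith

end Pool.Agent.Lib.EX
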