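import Pool.Agent.Lib.MP_61161c_nt.EX.SmoS

/-!
# EX, block D: a positive proportion of the rough numbers are products of good rough numbers `≤ U`
-/

set_option autoImplicit false

open Finset

namespace Pool.Agent.Lib.EX

open Classical in
/-- **Smo** -/
theorem smo (cu w : ℝ) (hcu : 0 < cu) (hcu1 : cu ≤ 1) (hw : 0 < w) (hw1 : w ≤ 1) : ∃ ρ : ℝ, 0 < ρ ∧ ∃ cs : ℝ, 0 < cs ∧
    ∀ c0 : ℝ, 0 < c0 → c0 ≤ cs → ∃ X0 : ℕ,
    ∀ X z U : ℕ, X0 ≤ X → 2 ≤ z → (z : ℝ) ≤ (X : ℝ) ^ c0 → U = ⌊(X : ℝ) ^ cu⌋₊ → ∀ Bad : Finset ℕ,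
    ∑ u ∈ Bad, 1 / (u : ℝ) ≤ 1 / (Real.log X) ^ 10 →
    ∀ g : ℕ → ℝ, (∀ m n : ℕ, 1 ≤ m → 1 ≤ n → g (m * n) = g m * g n) →
    (∀ u : ℕ, 1 < u → u ≤ U → Sf z (u : ℤ) → u ∉ Bad → g u = 1) →
    ∀ y1 y2 : ℝ, (X : ℝ) ^ w ≤ y2 → y2 ≤ X → 0 ≤ y1 → (1 + 1 / 10 ^ 6) * y1 ≤ y2 →
    ρ * (y2 * VV z) ≤ ((((Icc 1 ⌊y2⌋₊).filter fun n : ℕ => y1 < n ∧ Sf z (n : ℤ) ∧ g n = 1).card : ℝ)) := by
  -- constants
  set K0 : ℕ := ⌈2 / cu⌉₊ + 1 with hK0
  have hK0r : 2 / cu + 1 ≤ (K0 : ℝ) := by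
    rw [hK0]
    push_cast
    linarith [Nat.le_ceil (2 / cu)]
  have hK3 : (3 : ℝ) ≤ K0 := by
    have : 2 ≤ 2 / cu := by
      rw [le_div_iff₀ hcu]
      linarith
    linarith
  have hK00 : (0 : ℝ) < K0 := by linarith
  set η : ℝ := cu / (8 * K0) with hη
  have hη0 : 0 < η := by positivity
  have hηK : K0 * η = cu / 8 := by
    rw [hη]
    field_simp
  have hη24 : η ≤ cu / 24 := by
    rw [hη]
    apply div_le_div_of_nonneg_left hcu.le (by norm_num)
    linarith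
  set κ : ℝ := cu / 24 with hκ
  have hκ0 : 0 < κ := by positivity
  set c' : ℝ := min w (cu / 2) / 2 with hc'
  have hc'0 : 0 < c' := by
    have : 0 < min w (cu / 2) := lt_min hw (by linarith)
    positivity
  have hc'w : 2 * c' ≤ w := by rw [hc']; linarith [min_le_left w (cu / 2)]
  have hc'u : 2 * c' ≤ cu / 2 := by rw [hc']; linarith [min_le_right w (cu / 2)]
  set s0 : ℝ := η / 2 with hs0
  have hs00 : 0 < s0 := by positivity
  have hs01 : s0 ≤ 1 := by rw [hs0]; linarith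
  obtain ⟨cs, hcs, h⟩ := smo_step cu κ c' s0 hκ0 (by rw [hκ]; linarith) hc'0 hs00 hs01 K0
  obtain ⟨Cm, hCm, hmert⟩ := mert_int
  refine ⟨(κ * s0) ^ K0 / (4 * 10 ^ 7), by positivity, min cs κ, lt_min hcs hκ0, fun c0 hc0 hc0s => ?_⟩
  obtain ⟨X1, hX1⟩ := h c0 hc0 (hc0s.trans (min_le_left _ _))
  have hlim : Filter.Tendsto (fun X : ℕ => Real.log (X : ℝ)) Filter.atTop Filter.atTop :=
    Real.tendsto_log_atTop.comp tendsto_natCast_atTop_atTop
  obtain ⟨X2, hX2⟩ := Filter.eventually_atTop.mp (hlim.eventually_ge_atTop (1 + 2 * Cm / η + 1 / η))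
  refine ⟨max X1 (max X2 3), fun X z U hX hz2 hz hU Bad hBad g hg hg1 y1 y2 hwy hy2X hy1 h12 => ?_⟩
  have hXa : 3 ≤ X := (le_max_right X2 3).trans ((le_max_right X1 _).trans hX)
  have hX1r : (1 : ℝ) < X := by exact_mod_cast (by omega : 1 < X)
  have hX0r : (0 : ℝ) < X := by linarith
  have hlogX : 0 < Real.log X := Real.log_pos hX1r
  have hbig : 1 + 2 * Cm / η + 1 / η ≤ Real.log X := hX2 X ((le_max_left X2 3).trans ((le_max_right X1 _).trans hX))
  have hXX1 : X1 ≤ X := (le_max_left X1 _).trans hX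
  have hy20 : 0 < y2 := lt_of_lt_of_le (by positivity) hwy
  have hg1' : ∀ u : ℕ, 1 < u → (u : ℝ) ≤ (X : ℝ) ^ cu → Sf z (u : ℤ) → u ∉ Bad → g u = 1 := by
    intro u h1 h2 h3 h4
    refine hg1 u h1 ?_ h3 h4
    rw [hU]
    exact Nat.le_floor h2
  set α : ℝ := Real.log y2 / Real.log X with hα
  have hy2α : y2 = (X : ℝ) ^ α := by
    rw [Real.rpow_def_of_pos hX0r, hα, mul_div_cancel₀ _ hlogX.ne', Real.exp_log hy20]
  have hαw : w ≤ α := by
    rw [hy2α] at hwy
    exact (Real.rpow_le_rpow_left_iff hX1r).mp hwy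
  have hα1 : α ≤ 1 := by
    rw [hy2α] at hy2X
    have h1 : (X : ℝ) ^ α ≤ (X : ℝ) ^ (1 : ℝ) := by rw [Real.rpow_one]; exact hy2X
    exact (Real.rpow_le_rpow_left_iff hX1r).mp h1
  rcases le_or_gt α cu with hcase | hcase
  · -- no prime is needed
    refine hX1 X z hXX1 hz2 hz Bad hBad g hg hg1' y1 y2 hy20 hy2X hy1 h12 0 (Nat.zero_le _) ∅ (by simp) (by simp) ?_
    intro u _
    simp only [univ_eq_empty, prod_empty, Nat.cast_one, div_one]
    constructor
    · exact (Real.rpow_le_rpow_of_exponent_le hX1r.le hc'w).trans hwy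
    · rw [hy2α]
      exact Real.rpow_le_rpow_of_exponent_le hX1r.le hcase
  · set t : ℝ := α / cu - 3 / 4 with ht
    have hαcu : α = cu * (t + 3 / 4) := by rw [ht]; field_simp; ring
    have ht4 : 1 / 4 < t := by
      have : 1 < α / cu := by rw [lt_div_iff₀ hcu]; linarith
      rw [ht]; linarith
    set k : ℕ := ⌈2 * t⌉₊ with hk
    have hk1 : 2 * t ≤ (k : ℝ) := Nat.le_ceil _
    have hk2 : (k : ℝ) < 2 * t + 1 := Nat.ceil_lt_add_one (by linarith)
    have hkpos : 0 < (k : ℝ) := by linarith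
    have hαd : α / cu ≤ 1 / cu := by gcongr
    have hkK : k ≤ K0 := by
      have h1 : (k : ℝ) ≤ K0 := by
        have h2 : 2 / cu = 2 * (1 / cu) := by ring
        rw [h2] at hK0r
        rw [ht] at hk2
        linarith
      exact_mod_cast h1
    have hkKr : (k : ℝ) ≤ K0 := by exact_mod_cast hkK
    set β : ℝ := cu * t / k with hβ
    have hkβ : k * β = cu * t := by rw [hβ]; field_simp
    have hβ2 : β ≤ cu / 2 := by
      rw [hβ, div_le_div_iff₀ hkpos (by norm_num)]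
      calc cu * t * 2 = cu * (2 * t) := by ring
        _ ≤ cu * k := mul_le_mul_of_nonneg_left hk1 hcu.le
    have hβ6 : cu / 6 ≤ β := by
      rw [hβ, div_le_div_iff₀ (by norm_num) hkpos]
      calc cu * k ≤ cu * (t * 6) := mul_le_mul_of_nonneg_left (by linarith) hcu.le
        _ = cu * t * 6 := by ring
    -- the primes
    set A : ℝ := (X : ℝ) ^ (β - η) with hA
    set B : ℝ := (X : ℝ) ^ (β + η) with hB
    set Q0 := (Icc 1 ⌊B⌋₊).filter (fun p : ℕ => p.Prime ∧ A < p) with hQ0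
    set Q := Q0 \ Bad with hQ
    have hβη : κ ≤ β - η := by rw [hκ]; linarith
    have hβη2 : β + η ≤ cu := by linarith
    have hA1 : 1 ≤ A := Real.one_le_rpow hX1r.le (by linarith)
    have hAB : A ≤ B := Real.rpow_le_rpow_of_exponent_le hX1r.le (by linarith)
    have hB1 : 1 < B := Real.one_lt_rpow hX1r (by linarith)
    have hBX : B ≤ (X : ℝ) ^ cu := Real.rpow_le_rpow_of_exponent_le hX1r.le hβη2
    have hκA : (X : ℝ) ^ κ ≤ A := Real.rpow_le_rpow_of_exponent_le hX1r.le hβη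
    have hzκ : (z : ℝ) ≤ (X : ℝ) ^ κ :=
      hz.trans (Real.rpow_le_rpow_of_exponent_le hX1r.le (hc0s.trans (min_le_right _ _)))
    have hQmem : ∀ p ∈ Q, p.Prime ∧ A < (p : ℝ) ∧ (p : ℝ) ≤ B ∧ p ∉ Bad := by
      intro p hp
      rw [hQ, mem_sdiff, hQ0, mem_filter, mem_Icc] at hp
      exact ⟨hp.1.2.1, hp.1.2.2, (Nat.le_floor_iff (by linarith)).mp hp.1.1.2, hp.2⟩
    have hSQ : s0 ≤ ∑ p ∈ Q, 1 / (p : ℝ) := by
      have h1 := hmert A B hA1 hAB hB1
      have hlA : Real.log A = (β - η) * Real.log X := by rw [hA, Real.log_rpow hX0r]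
      have hlB : Real.log B = (β + η) * Real.log X := by rw [hB, Real.log_rpow hX0r]
      have h2 : 3 / 2 * η ≤ (Real.log B - Real.log A - Cm) / Real.log B := by
        rw [hlA, hlB, le_div_iff₀ (mul_pos (by linarith) hlogX)]
        have h3 : 2 * Cm / η ≤ Real.log X := by
          have : 0 < 1 / η := by positivity
          linarith
        rw [div_le_iff₀ hη0] at h3
        have h4 : 3 / 2 * η * ((β + η) * Real.log X) ≤ 3 / 2 * η * (1 * Real.log X) := by
          have : β + η ≤ 1 := by linarith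
          gcongr
        linarith
      have h3 : ∑ p ∈ Q0, 1 / (p : ℝ) ≤ ∑ p ∈ Q, 1 / (p : ℝ) + ∑ p ∈ Bad, 1 / (p : ℝ) := by
        have h4 : Q0 ⊆ Q ∪ Bad := by
          intro p hp
          rw [mem_union, hQ, mem_sdiff]
          by_cases hb : p ∈ Bad
          · exact Or.inr hb
          · exact Or.inl ⟨hp, hb⟩
        calc ∑ p ∈ Q0, 1 / (p : ℝ) ≤ ∑ p ∈ Q ∪ Bad, 1 / (p : ℝ) :=
              sum_le_sum_of_subset_of_nonneg h4 fun _ _ _ => by positivity
          _ ≤ _ := by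
            rw [← sum_union_inter]
            have : 0 ≤ ∑ p ∈ Q ∩ Bad, 1 / (p : ℝ) := sum_nonneg fun _ _ => by positivity
            linarith
      have h5 : 1 / (Real.log X) ^ 10 ≤ η := by
        have h6 : 1 / η ≤ Real.log X := by
          have : 0 < 2 * Cm / η := by positivity
          linarith
        have h7 : 1 ≤ Real.log X := by
          have : 0 < 2 * Cm / η := by positivity
          have : 0 < 1 / η := by positivity
          linarith
        have h8 : Real.log X ≤ Real.log X ^ 10 := le_self_pow₀ h7 (by norm_num)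
        rw [div_le_iff₀ (by positivity)]
        rw [div_le_iff₀ hη0] at h6
        calc (1 : ℝ) ≤ Real.log X * η := h6
          _ ≤ Real.log X ^ 10 * η := by gcongr
          _ = η * Real.log X ^ 10 := by ring
      rw [hs0]
      linarith
    refine hX1 X z hXX1 hz2 hz Bad hBad g hg hg1' y1 y2 hy20 hy2X hy1 h12 k hkK Q ?_ ?_ ?_
    · intro p hp
      obtain ⟨h1, h2, h3, h4⟩ := hQmem p hp
      refine ⟨h1, lt_of_le_of_lt hκA h2, h3.trans hBX, ?_, h4⟩
      have h5 : (z : ℝ) < p := lt_of_le_of_lt (hzκ.trans hκA) h2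
      exact_mod_cast h5
    · exact pow_le_pow_left₀ hs00.le hSQ k
    · intro u hu
      have hmem : ∀ i, u i ∈ Q := fun i => Fintype.mem_piFinset.mp hu i
      have hPr : ((∏ i, u i : ℕ) : ℝ) = ∏ i, (u i : ℝ) := by push_cast; rfl
      have hPlow : (X : ℝ) ^ (k * (β - η)) ≤ ((∏ i, u i : ℕ) : ℝ) := by
        rw [hPr]
        have h1 : ∏ _i : Fin k, A = (X : ℝ) ^ (k * (β - η)) := by
          rw [prod_const, card_univ, Fintype.card_fin, hA, ← Real.rpow_natCast, ← Real.rpow_mul hX0r.le, mul_comm]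
        rw [← h1]
        exact prod_le_prod (fun _ _ => by linarith) fun i _ => (hQmem _ (hmem i)).2.1.le
      have hPup : ((∏ i, u i : ℕ) : ℝ) ≤ (X : ℝ) ^ (k * (β + η)) := by
        rw [hPr]
        have h1 : ∏ _i : Fin k, B = (X : ℝ) ^ (k * (β + η)) := by
          rw [prod_const, card_univ, Fintype.card_fin, hB, ← Real.rpow_natCast, ← Real.rpow_mul hX0r.le, mul_comm]
        rw [← h1]
        exact prod_le_prod (fun _ _ => Nat.cast_nonneg _) fun i _ => (hQmem _ (hmem i)).2.2.1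
      have hP0 : (0 : ℝ) < ((∏ i, u i : ℕ) : ℝ) := lt_of_lt_of_le (by positivity) hPlow
      have hkη : k * η ≤ cu / 8 := by
        calc k * η ≤ K0 * η := by gcongr
          _ = cu / 8 := hηK
      constructor
      · rw [le_div_iff₀ hP0, hy2α]
        calc (X : ℝ) ^ (2 * c') * ((∏ i, u i : ℕ) : ℝ) ≤ (X : ℝ) ^ (2 * c') * (X : ℝ) ^ (k * (β + η)) := by gcongr
          _ = (X : ℝ) ^ (2 * c' + k * (β + η)) := by rw [← Real.rpow_add hX0r]
          _ ≤ (X : ℝ) ^ α := by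
            apply Real.rpow_le_rpow_of_exponent_le hX1r.le
            rw [mul_add, hkβ, hαcu]
            linarith
      · rw [div_le_iff₀ hP0, hy2α]
        calc (X : ℝ) ^ α ≤ (X : ℝ) ^ (cu + k * (β - η)) := by
              apply Real.rpow_le_rpow_of_exponent_le hX1r.le
              rw [mul_sub, hkβ, hαcu]
              linarith
          _ = (X : ℝ) ^ cu * (X : ℝ) ^ (k * (β - η)) := by rw [← Real.rpow_add hX0r]
          _ ≤ (X : ℝ) ^ cu * ((∏ i, u i : ℕ) : ℝ) := by gcongr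

end Pool.Agent.Lib.EX
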