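import Pool.Agent.Lib.MP_61161c_nt.EX.O1
import Pool.Agent.Lib.MP_61161c_nt.EX.Chn
import Pool.Agent.Lib.MP_61161c_nt.EX.Smo
import Pool.Agent.Lib.MP_61161c_nt.EX.DFin0
import Pool.Agent.Lib.MP_61161c_nt.EX.DFinA
import Pool.Agent.Lib.MP_61161c_nt.EX.DFinB
import Pool.Agent.Lib.MP_61161c_nt.EX.DFinC
import Pool.Agent.Lib.MP_7b7e48_nt.PQ.Defs

/-!
# EX, block D: the real character

From a function `F = ± 1` on the units modulo `G` which is equal to `lam` on most rough numbers and almost invariant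
(with `lam`) under the good numbers `≤ Y^10`: a real character `χ ≠ 1` modulo `G` with `χ(l) = 1` only for rare primes `l`.
-/

set_option autoImplicit false

open Finset
open Pool.Agent.Lib.MP_45349e_nt.LS (lam lam_mul)
open Pool.Agent.Lib.PQ (pw)

namespace Pool.Agent.Lib.EX

open Pool.Agent.Lib.RG (phi_pos)

theorem lam_prime' (p : ℕ) (hp : p.Prime) : lam p = -1 := by
  unfold lam
  rw [ArithmeticFunction.cardFactors_apply_prime hp]
  norm_num

open Classical in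
theorem blockD (om mu del' : ℝ) (hom : 0 < om) (homu : om ≤ mu / 10 ^ 6) (hmu : 0 < mu) (hmu1 : mu ≤ 1) (hdel : 0 < del') :
    ∃ d : ℝ, 0 < d ∧ ∃ cs : ℝ, 0 < cs ∧ ∀ c0 : ℝ, 0 < c0 → c0 ≤ cs → ∃ X0 : ℕ, ∀ e : Env, X0 ≤ e.X → e.Ok →
    e.Y = ⌊(e.X : ℝ) ^ om⌋₊ → (e.z : ℝ) ≤ (e.X : ℝ) ^ c0 →
    ∀ (G : ℕ) [NeZero G], G * e.Y ^ 17 ≤ e.X →
    ∀ F : ZMod G → ℝ, (∀ x, ¬ IsUnit x → F x = 0) → (∀ x, IsUnit x → F x = 1 ∨ F x = -1) →
    (((rg e.z (e.X / (9000 * e.Y ^ 2) + 1) (e.X / (50 * e.Y ^ 2))).filter (fun n : ℕ => n.Coprime G ∧ lam n ≠ F n)).card : ℝ) ≤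
      d * ((e.X / (50 * e.Y ^ 2) : ℕ) * vz e.z) →
    (∀ u u' : ℕ, e.Gd u → e.Gd u' → u.Coprime G → u'.Coprime G → u' ≤ u → u ≤ 4 * u' → u ≤ e.Y ^ 10 →
      ((univ.filter (fun r : ZMod G => IsUnit r ∧ lam u * F (u * r) ≠ lam u' * F (u' * r))).card : ℝ) ≤ d * G.totient) →
    ∃ χ : DirichletCharacter ℂ G, χ ^ 2 = 1 ∧ χ ≠ 1 ∧ ∀ N : ℕ, e.X ≤ N → N ≤ 2 * e.X →
      ∑ l ∈ (range (pw N (1 - mu / 10) + 1)).filter (fun l => l.Prime ∧ e.z < l ∧ χ (l : ZMod G) = 1), 1 / (l : ℝ) ≤ del' := by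
  have hom1 : om ≤ 1 / 10 ^ 6 := by
    refine homu.trans ?_
    rw [div_le_div_iff₀ (by norm_num) (by norm_num)]
    linarith
  -- constants
  obtain ⟨ρ, hρ, css, hcss, hsmo⟩ := smo om (mu / 20) hom (by linarith) (by linarith) (by linarith)
  set k : ℕ := ⌈1 / (9 * om)⌉₊ with hk
  have hk1 : 1 ≤ 9 * om * (k + 1) := by
    have h1 : 1 / (9 * om) ≤ k := Nat.le_ceil _
    rw [div_le_iff₀ (by linarith)] at h1
    linarith
  set d4 : ℝ := min (1 / 8) (ρ * min 1 del' / (16 * (k + 1))) with hd4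
  have hm1 : 0 < min 1 del' := lt_min one_pos hdel
  have hk0 : (0 : ℝ) ≤ k := Nat.cast_nonneg _
  have hd40 : 0 < d4 := lt_min (by norm_num) (by positivity)
  obtain ⟨do1, hdo1, cso, hcso, ho1⟩ := o1 (15 * om) (15 * om / 400) d4 (by linarith) (by linarith) (by linarith) hd40
    ((min_le_left _ _).trans (by norm_num))
  set d : ℝ := min do1 d4 with hd
  have hd0 : 0 < d := lt_min hdo1 hd40
  obtain ⟨csr, hcsr, hrap⟩ := rap (10 * om) (by linarith)
  set d5 : ℝ := d + 2 * d4 with hd5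
  have hd5a : d5 ≤ 3 * (ρ * min 1 del' / (16 * (k + 1))) := by
    have h1 : d4 ≤ ρ * min 1 del' / (16 * (k + 1)) := min_le_right _ _
    have h2 : d ≤ d4 := min_le_right _ _
    linarith
  have hd5b : d5 < ρ := by
    refine lt_of_le_of_lt hd5a ?_
    rw [← mul_div_assoc, div_lt_iff₀ (by positivity)]
    have h1 : ρ * min 1 del' ≤ ρ * 1 := mul_le_mul_of_nonneg_left (min_le_left _ _) hρ.le
    have h2 : 0 ≤ ρ * k := mul_nonneg hρ.le hk0
    linarith
  have hd5c : d5 < 1 := by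
    have h1 : d4 ≤ 1 / 8 := min_le_left _ _
    have h2 : d ≤ d4 := min_le_right _ _
    linarith
  have hd5d : k * d5 ≤ del' / 2 * ρ := by
    have h1 : ρ * min 1 del' ≤ ρ * del' := mul_le_mul_of_nonneg_left (min_le_right _ _) hρ.le
    calc (k : ℝ) * d5 ≤ k * (3 * (ρ * min 1 del' / (16 * (k + 1)))) := mul_le_mul_of_nonneg_left hd5a hk0
      _ ≤ k * (3 * (ρ * del' / (16 * (k + 1)))) := by gcongr
      _ = (k / (k + 1)) * (3 / 16 * (ρ * del')) := by
          field_simp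
      _ ≤ 1 * (3 / 16 * (ρ * del')) := by
          refine mul_le_mul_of_nonneg_right ?_ (by positivity)
          rw [div_le_one (by linarith)]
          linarith
      _ ≤ _ := by
          have h3 := mul_pos hρ hdel
          linarith
  refine ⟨d, hd0, min (min css cso) (min csr (15 * om / 400)), lt_min (lt_min hcss hcso) (lt_min hcsr (by linarith)),
    fun c0 hc0 hc0s => ?_⟩
  obtain ⟨Xs, hXs⟩ := hsmo c0 hc0 (hc0s.trans ((min_le_left _ _).trans (min_le_left _ _)))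
  obtain ⟨Xo, hXo⟩ := ho1 c0 hc0 (hc0s.trans ((min_le_left _ _).trans (min_le_right _ _)))
  obtain ⟨Xr, hXr⟩ := hrap c0 hc0 (hc0s.trans ((min_le_right _ _).trans (min_le_left _ _)))
  have hc0cv : c0 ≤ 15 * om / 400 := hc0s.trans ((min_le_right _ _).trans (min_le_right _ _))
  obtain ⟨Xn, hXn⟩ := dnum om mu hom homu hmu hmu1
  obtain ⟨Xg, hXg⟩ := gpr pcnt
  have hlog : Filter.Tendsto (fun X : ℕ => Real.log X) Filter.atTop Filter.atTop :=
    Real.tendsto_log_atTop.comp tendsto_natCast_atTop_atTop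
  obtain ⟨Xl, hXl⟩ := Filter.eventually_atTop.mp ((hlog.eventually_ge_atTop (max 4 (2 / del'))).and
    (Filter.eventually_ge_atTop 100))
  refine ⟨max (max Xs Xo) (max (max Xr Xn) (max Xg Xl)), fun e hX he hY hz G _ hG F hF0 hF1 hD1 hD2 => ?_⟩
  have hXs' : Xs ≤ e.X := ((le_max_left _ _).trans (le_max_left _ _)).trans hX
  have hXo' : Xo ≤ e.X := ((le_max_right _ _).trans (le_max_left _ _)).trans hX
  have hXr' : Xr ≤ e.X := (((le_max_left _ _).trans (le_max_left _ _)).trans (le_max_right _ _)).trans hX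
  have hXn' : Xn ≤ e.X := (((le_max_right _ _).trans (le_max_left _ _)).trans (le_max_right _ _)).trans hX
  have hXg' : Xg ≤ e.X := (((le_max_left _ _).trans (le_max_right _ _)).trans (le_max_right _ _)).trans hX
  have hXl' : Xl ≤ e.X := (((le_max_right _ _).trans (le_max_right _ _)).trans (le_max_right _ _)).trans hX
  obtain ⟨hLm, hX100⟩ := hXl e.X hXl'
  have hL4 : 4 ≤ Real.log e.X := (le_max_left _ _).trans hLm
  have hLd : 2 / del' ≤ Real.log e.X := (le_max_right _ _).trans hLm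
  obtain ⟨hn1, hn2, hn3, hn4, hn5, hn6, hn7, hn8, hn9⟩ := hXn e.X e.Y hXn' hY
  obtain ⟨hs1, hs2, hs3, hs4, hs5, hs6⟩ := e.sz he hL4
  have hXr1 : (1 : ℝ) < e.X := by exact_mod_cast (by omega : 1 < e.X)
  have hXr0 : (0 : ℝ) < e.X := by linarith
  have hG0 : G ≠ 0 := NeZero.ne G
  have hG1 : 1 ≤ G := by omega
  have hφ := phi_pos (N := G)
  set x1 : ℕ := e.X / (9000 * e.Y ^ 2) + 1 with hx1
  set x2 : ℕ := e.X / (50 * e.Y ^ 2) with hx2
  have hx2X : x2 ≤ e.X := Nat.div_le_self _ _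
  have hGr : (G : ℝ) ≤ (e.X : ℝ) ^ (1 - 15 * om) := hn1 G hG
  have hGX' : (G : ℝ) ≤ e.X := hGr.trans (by
    calc (e.X : ℝ) ^ (1 - 15 * om) ≤ (e.X : ℝ) ^ (1 : ℝ) := Real.rpow_le_rpow_of_exponent_le hXr1.le (by linarith)
      _ = e.X := Real.rpow_one _)
  have hGX : G ≤ e.X := by exact_mod_cast hGX'
  have hx20 : (0 : ℝ) < x2 := lt_of_lt_of_le (Real.rpow_pos_of_pos hXr0 _) hn2
  have hUz : (e.U : ℝ) ≤ e.z := (le_self_pow₀ hs6 (by norm_num)).trans hs3
  have hz1r : (1 : ℝ) ≤ e.z := by linarith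
  have hz2 : 2 ≤ e.z := by
    have : (2 : ℝ) ≤ e.z := by linarith
    exact_mod_cast this
  have hVz : 0 < vz e.z := vz_pos e.z (by omega)
  have hlog3 : (Real.log e.X) ^ 3 ≤ e.z := by
    refine le_trans ?_ (hs4.trans hUz)
    exact pow_le_pow_right₀ (by linarith) (by norm_num)
  have hbadp : ∀ q ∈ e.Bad, q.Prime := fun q hq => (he.bad.2 q hq).1
  -- the primes P
  set V : ℕ := ⌊(e.X : ℝ) ^ (15 * om / 200)⌋₊ with hV
  have hzV : e.z ≤ V := by
    have h1 : (e.z : ℝ) ≤ V := by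
      refine (hz.trans ?_).trans hn4
      exact Real.rpow_le_rpow_of_exponent_le hXr1.le hc0cv
    exact_mod_cast h1
  have hVX : V ≤ e.X := by
    have : 2 * V ≤ e.X := hn6.trans hn8
    omega
  set P : Finset ℕ := (Ioc V (2 * V)).filter (fun p => p.Prime ∧ p ∉ e.AV G) with hP
  have hgood : ∀ p : ℕ, p.Prime → e.z < p → p ∉ e.AV G → e.Gd (p : ℤ) ∧ p.Coprime G ∧ ¬ p ∣ G := by
    intro p hp hzp hA
    have h1 : p ∉ e.Bad := fun h => hA (mem_union_left _ h)
    have h2 : ¬ p ∣ G := by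
      intro h
      refine hA (mem_union_right _ ?_)
      rw [mem_filter, Nat.mem_primeFactors]
      exact ⟨⟨hp, h, hG0⟩, hzp⟩
    exact ⟨e.gd_prime hbadp p hp hzp h1, hp.coprime_iff_not_dvd.mpr h2, h2⟩
  have hPmem : ∀ p ∈ P, p.Prime ∧ (V < p ∧ p ≤ 2 * V) ∧ e.Gd (p : ℤ) ∧ p.Coprime G ∧ ¬ p ∣ G := by
    intro p hp
    rw [hP, mem_filter, mem_Ioc] at hp
    exact ⟨hp.2.1, hp.1, hgood p hp.2.1 (by omega) hp.2.2⟩
  -- the character
  obtain ⟨χ, hχ, s, hs, hE⟩ := hXo e.X e.z hXo' hlog3 hz G V hGr hn4 (by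
      refine hn5.trans (le_of_eq ?_)
      congr 1) x1 x2 (by
      refine le_trans (le_of_eq ?_) hn2
      congr 1
      ring) hx2X hn3 P
    (fun p hp => ⟨(hPmem p hp).1, (hPmem p hp).2.1.2, (hPmem p hp).2.2.2.2⟩)
    (hXg e hXg' he G hG1 hGX V hzV hVX) F hF0 hF1
    (hD1.trans (mul_le_mul_of_nonneg_right (min_le_left _ _) (by positivity)))
    (by
      intro u hu u' hu'
      have hu1 := hPmem u hu
      have hu1' := hPmem u' hu'
      have key : ∀ a b : ℕ, a ∈ P → b ∈ P → b ≤ a →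
          ((univ.filter (fun r : ZMod G => IsUnit r ∧ F (a * r) ≠ F (b * r))).card : ℝ) ≤ d * G.totient := by
        intro a b ha hb hba
        have ha1 := hPmem a ha
        have hb1 := hPmem b hb
        have h1 := hD2 a b ha1.2.2.1 hb1.2.2.1 ha1.2.2.2.1 hb1.2.2.2.1 hba (by omega) (by omega)
        refine le_trans (le_of_eq ?_) h1
        congr 2
        refine filter_congr fun r _ => ?_
        rw [lam_prime' a ha1.1, lam_prime' b hb1.1]
        refine and_congr_right fun _ => ?_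
        rw [ne_eq, ne_eq, neg_one_mul, neg_one_mul, neg_inj]
      have hdd : d * G.totient ≤ do1 * G.totient := mul_le_mul_of_nonneg_right (min_le_left _ _) hφ.le
      rcases Nat.le_total u' u with h | h
      · exact (key u u' hu hu' h).trans hdd
      · refine le_trans (le_of_eq ?_) ((key u' u hu' hu h).trans hdd)
        congr 2
        refine filter_congr fun r _ => ?_
        refine and_congr_right fun _ => ?_
        exact ne_comm)
  -- the chain
  set θ : ℕ → ℝ := fun u => lam u * cr χ u with hθ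
  have hθmul : ∀ m n : ℕ, 1 ≤ m → 1 ≤ n → θ (m * n) = θ m * θ n := by
    intro m n hm hn
    rw [hθ]
    simp only
    rw [lam_mul m n (by omega) (by omega), cr_mul χ hχ]
    ring
  have hYX : e.Y ^ 10 ≤ e.X := hn8
  have hzY : e.z ^ 2 ≤ e.Y := he.zY
  have hzz : 2 * e.z ≤ e.z ^ 2 := by
    rw [sq]
    exact Nat.mul_le_mul_right _ hz2
  have h4Y : 4 * e.z ^ 2 ≤ e.Y ^ 10 := by
    have h1 : 4 ≤ e.Y := by omega
    calc 4 * e.z ^ 2 ≤ e.Y * e.Y := Nat.mul_le_mul h1 hzY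
      _ = e.Y ^ 2 := by ring
      _ ≤ e.Y ^ 10 := Nat.pow_le_pow_right (by omega) (by norm_num)
  have hgp : ∀ y, e.z ≤ y → 2 * y ≤ e.Y ^ 10 → ∃ u, y < u ∧ u ≤ 2 * y ∧ u.Prime ∧ e.Gd (u : ℤ) ∧ u.Coprime G := by
    intro y hy1 hy2
    have h1 := hXg e hXg' he G hG1 hGX y hy1 (by omega)
    have h2 : (0 : ℝ) < (y : ℝ) / (Real.log e.X) ^ 2 := by
      have : (0 : ℝ) < y := by
        have : (e.z : ℝ) ≤ y := by exact_mod_cast hy1
        linarith
      positivity
    have h3 : 0 < ((Ioc y (2 * y)).filter (fun p => p.Prime ∧ p ∉ e.AV G)).card := by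
      exact_mod_cast lt_of_lt_of_le h2 h1
    obtain ⟨p, hp⟩ := card_pos.mp h3
    rw [mem_filter, mem_Ioc] at hp
    have h4 := hgood p hp.2.1 (by omega) hp.2.2
    exact ⟨p, hp.1.1, hp.1.2, hp.2.1, h4.1, h4.2.1⟩
  obtain ⟨p0, hp0a, hp0b, hp0p, hp0g, hp0c⟩ := hgp e.z le_rfl (by omega)
  have hp00 : p0 * p0 ≤ e.Y ^ 10 := by
    calc p0 * p0 ≤ (2 * e.z) * (2 * e.z) := Nat.mul_le_mul hp0b hp0b
      _ = 4 * e.z ^ 2 := by ring
      _ ≤ e.Y ^ 10 := h4Y
  have hchain := chn e.z (e.Y ^ 10) (fun u => e.Gd (u : ℤ) ∧ u.Coprime G) θ (by omega)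
    (by
      intro u _ _ hu
      rw [hθ]
      simp only
      rcases cr_pm χ hχ u hu.2 with h | h <;> rcases lam_pm' u with h' | h' <;> rw [h, h'] <;> norm_num)
    (by
      intro u v _ hvu huY hu4 hu hv
      refine th_eq χ hχ F s hs d4 d ?_ hE u v hu.2 hv.2 (hD2 u v hu.1 hv.1 hu.2 hv.2 hvu hu4 huY)
      exact hd5c)
    (fun u v hu hv _ _ _ _ => hθmul u v (by omega) (by omega))
    (by
      intro y hy1 hy2
      obtain ⟨u, h1, h2, -, h4, h5⟩ := hgp y hy1 hy2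
      exact ⟨u, h1, h2, h4, h5⟩)
    ⟨p0, p0, hp0a, hp0a, hp00, ⟨hp0g, hp0c⟩, ⟨hp0g, hp0c⟩, e.gd_mul hbadp p0 p0 hp0g hp0g, hp0c.mul_left hp0c⟩
  -- the character is not trivial
  have hp01 : cr χ p0 = -1 := by
    have h1 := hchain p0 hp0a (by omega) ⟨hp0g, hp0c⟩
    rw [hθ] at h1
    simp only at h1
    rw [lam_prime' p0 hp0p] at h1
    linarith
  have hχ1 : χ ≠ 1 := by
    intro h
    have h1 : cr χ p0 = 1 := by
      rw [← cr_eq_one χ hχ, h]
      exact MulChar.one_apply ((ZMod.isUnit_iff_coprime p0 G).mpr hp0c)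
    linarith
  -- the bad numbers
  set BS : Finset ℕ := (Icc 1 e.Y).filter (fun u => ∃ p ∈ e.AV G, p ∣ u) with hBS
  have hAVz : ∀ p ∈ e.AV G, e.z < p := by
    intro p hp
    rcases mem_union.mp hp with h | h
    · exact (he.bad.2 p h).2
    · exact (mem_filter.mp h).2
  have hY1 : 1 ≤ e.Y := by omega
  have hYX1 : e.Y ≤ e.X := (Nat.le_self_pow (by norm_num) e.Y).trans hYX
  have hBSs : ∑ u ∈ BS, 1 / (u : ℝ) ≤ 1 / (Real.log e.X) ^ 10 := by
    have h1 := badsum e.z e.Y (by omega) hY1 (e.AV G) hAVz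
    refine h1.trans ?_
    have h2 := e.AVcard he hL4 G hG1 hGX
    have h3 : Real.log e.Y ≤ Real.log e.X := Real.log_le_log (by exact_mod_cast hY1) (by exact_mod_cast hYX1)
    have hU0 : (0 : ℝ) < e.U := by linarith
    have hL0 : 0 < Real.log e.X := by linarith
    rw [div_mul_eq_mul_div, div_le_div_iff₀ (by linarith) (by positivity), one_mul]
    have h4 : (Real.log e.X) ^ 10 ≤ e.U := le_trans (pow_le_pow_right₀ (by linarith) (by norm_num)) hs4
    have h5 : 0 ≤ Real.log e.Y := Real.log_natCast_nonneg _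
    calc ((e.AV G).card : ℝ) * (1 + Real.log e.Y) * (Real.log e.X) ^ 10 ≤ (3 * e.U) * (2 * e.U) * e.U := by
          gcongr
          linarith
      _ = 6 * (e.U : ℝ) ^ 3 := by ring
      _ ≤ e.U * (e.U : ℝ) ^ 3 := mul_le_mul_of_nonneg_right (by linarith) (by positivity)
      _ = (e.U : ℝ) ^ 4 := by ring
      _ ≤ (e.U : ℝ) ^ 60 := pow_le_pow_right₀ hs6 (by norm_num)
      _ ≤ e.z := hs3
  have hθone : ∀ u : ℕ, 1 < u → u ≤ e.Y → Sf e.z (u : ℤ) → u ∉ BS → θ u = 1 := by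
    intro u hu1 hu2 hu3 hu4
    have h1 : ∀ p ∈ e.AV G, ¬ p ∣ u := by
      intro p hp hd
      refine hu4 ?_
      rw [hBS, mem_filter, mem_Icc]
      exact ⟨⟨by omega, hu2⟩, p, hp, hd⟩
    obtain ⟨h2, h3, h4⟩ := e.gd_of he.bad.2 G hG0 u hu1 hu3 h1
    exact hchain u h4 (hu2.trans (Nat.le_self_pow (by norm_num) e.Y)) ⟨h2, h3⟩
  have hsm := hXs e.X e.z e.Y hXs' hz2 hz hY BS hBSs θ hθmul hθone
  have h8r : 8 * (x1 : ℝ) ≤ x2 := by exact_mod_cast hn3
  have hx10 : (0 : ℝ) ≤ x1 := Nat.cast_nonneg _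
  -- the exceptional set
  have hsgn := sgn χ F s d4 d e.z x1 x2 hE (by
    intro x hx
    have h1 := hXr e.X e.z hXr' hz2 hz G x x2 hG1 hx (by
      calc (G : ℝ) * (e.X : ℝ) ^ (10 * om) ≤ (e.X : ℝ) ^ (1 - 15 * om) * (e.X : ℝ) ^ (10 * om) := by gcongr
        _ = (e.X : ℝ) ^ (1 - 5 * om) := by
            rw [← Real.rpow_add hXr0]
            congr 1
            ring
        _ ≤ (e.X : ℝ) ^ (1 - 3 * om) := Real.rpow_le_rpow_of_exponent_le hXr1.le (by linarith)
        _ ≤ x2 := hn2) hx2X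
    rw [VV_eq] at h1
    exact h1) hVz.le hD1
  -- the sign
  have hs1' : s = 1 := by
    rcases hs with h | h
    · exact h
    · exfalso
      have h1 := hsm x1 x2 (by
        refine le_trans ?_ hn2
        exact Real.rpow_le_rpow_of_exponent_le hXr1.le (by linarith)) (by exact_mod_cast hx2X) hx10 (by linarith)
      rw [Nat.floor_natCast, VV_eq] at h1
      have h2 : (((Icc 1 x2).filter fun n : ℕ => (x1 : ℝ) < n ∧ Sf e.z (n : ℤ) ∧ θ n = 1).card : ℝ) ≤
          (((rg e.z x1 x2).filter (fun n : ℕ => n.Coprime G ∧ lam n ≠ s * cr χ n)).card : ℝ) := by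
        have h3 : ((Icc 1 x2).filter fun n : ℕ => (x1 : ℝ) < n ∧ Sf e.z (n : ℤ) ∧ θ n = 1) ⊆
            ((rg e.z x1 x2).filter (fun n : ℕ => n.Coprime G ∧ lam n ≠ s * cr χ n)) := by
          intro n hn
          rw [mem_filter, mem_Icc] at hn
          obtain ⟨⟨hn1, hn2⟩, hn3, hn4, hn5⟩ := hn
          have hcop : n.Coprime G := by
            by_contra hcon
            rw [hθ] at hn5
            simp only at hn5
            rw [cr_non χ n hcon] at hn5
            norm_num at hn5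
          rw [mem_filter, mem_rg']
          refine ⟨⟨⟨by exact_mod_cast hn3, hn2⟩, Sf_nat.mp hn4⟩, hcop, ?_⟩
          rw [hθ] at hn5
          simp only at hn5
          rw [h]
          rcases cr_pm χ hχ n hcop with h6 | h6 <;> rcases lam_pm' n with h7 | h7 <;> rw [h6, h7] at hn5 ⊢ <;>
            norm_num at hn5 <;> norm_num
        exact_mod_cast card_le_card h3
      have h3 : ρ * (x2 * vz e.z) ≤ d5 * (x2 * vz e.z) := h1.trans (h2.trans hsgn)
      have h4 : 0 < (x2 : ℝ) * vz e.z := by positivity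
      have h5 := le_of_mul_le_mul_right h3 h4
      linarith
  rw [hs1'] at hsgn
  set B : Finset ℕ := (rg e.z x1 x2).filter (fun n : ℕ => n.Coprime G ∧ lam n ≠ 1 * cr χ n) with hB
  refine ⟨χ, hχ, hχ1, fun N hN1 hN2 => ?_⟩
  -- split of the primes
  set S := (range (pw N (1 - mu / 10) + 1)).filter (fun l => l.Prime ∧ e.z < l ∧ χ (l : ZMod G) = 1) with hS
  have hSsub : S ⊆ (e.Bad ∩ S) ∪ S.filter (fun l => e.Y ^ 10 < l) := by
    intro l hl
    by_cases h : e.Y ^ 10 < l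
    · exact mem_union_right _ (mem_filter.mpr ⟨hl, h⟩)
    · refine mem_union_left _ (mem_inter.mpr ⟨?_, hl⟩)
      by_contra hB'
      rw [hS, mem_filter] at hl
      obtain ⟨-, hl1, hl2, hl3⟩ := hl
      have hcr : cr χ l = 1 := (cr_eq_one χ hχ l).mp hl3
      have hcop : l.Coprime G := by
        by_contra hcon
        rw [cr_non χ l hcon] at hcr
        norm_num at hcr
      have h2 := hchain l hl2 (by omega) ⟨e.gd_prime hbadp l hl1 hl2 hB', hcop⟩
      rw [hθ] at h2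
      simp only at h2
      rw [lam_prime' l hl1, hcr] at h2
      norm_num at h2
  have hsum1 : ∑ l ∈ e.Bad ∩ S, 1 / (l : ℝ) ≤ del' / 2 := by
    have h1 : ∀ l ∈ e.Bad ∩ S, 1 / (l : ℝ) ≤ 1 / e.z := by
      intro l hl
      have h2 := (he.bad.2 l (mem_inter.mp hl).1).2
      have h3 : (e.z : ℝ) ≤ l := by exact_mod_cast h2.le
      exact one_div_le_one_div_of_le (by linarith) h3
    have h2 := sum_le_sum h1
    rw [sum_const, nsmul_eq_mul] at h2
    refine h2.trans ?_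
    have h3 : ((e.Bad ∩ S).card : ℝ) ≤ e.U := by
      exact_mod_cast (card_le_card inter_subset_left).trans he.bad.1
    have hU0 : (0 : ℝ) < e.U := by linarith
    have h4 : (e.U : ℝ) ^ 2 ≤ e.z := le_trans (pow_le_pow_right₀ hs6 (by norm_num)) hs3
    have hLd' : 2 / del' ≤ e.U := hLd.trans hs1
    calc ((e.Bad ∩ S).card : ℝ) * (1 / e.z) ≤ e.U * (1 / (e.U : ℝ) ^ 2) := by gcongr
      _ = 1 / e.U := by field_simp
      _ ≤ 1 / (2 / del') := one_div_le_one_div_of_le (by positivity) hLd'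
      _ = del' / 2 := by rw [one_div_div]
  have hsum2 : ∑ l ∈ S.filter (fun l => e.Y ^ 10 < l), 1 / (l : ℝ) ≤ del' / 2 := by
    have hT2 : 2 ≤ e.Y ^ 10 := by omega
    have hTk : x2 < (e.Y ^ 10) ^ (k + 1) := by
      have h1 : (e.X : ℝ) ≤ ((e.Y ^ 10 : ℕ) : ℝ) ^ (k + 1) := by
        calc (e.X : ℝ) = (e.X : ℝ) ^ (1 : ℝ) := (Real.rpow_one _).symm
          _ ≤ (e.X : ℝ) ^ (9 * om * ((k + 1 : ℕ) : ℝ)) := by
              refine Real.rpow_le_rpow_of_exponent_le hXr1.le ?_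
              push_cast
              exact hk1
          _ = ((e.X : ℝ) ^ (9 * om)) ^ (k + 1) := by rw [Real.rpow_mul hXr0.le, Real.rpow_natCast]
          _ ≤ ((e.Y ^ 10 : ℕ) : ℝ) ^ (k + 1) := pow_le_pow_left₀ (Real.rpow_nonneg hXr0.le _) hn7 _
      have h2 : e.X ≤ (e.Y ^ 10) ^ (k + 1) := by exact_mod_cast h1
      have h3 : x2 < e.X := by
        rw [hx2]
        refine Nat.div_lt_self (by omega) ?_
        have : 1 ≤ e.Y ^ 2 := Nat.one_le_pow _ _ hY1
        omega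
      omega
    have h1 := raresum (e.Y ^ 10) k x2 hT2 hTk (S.filter (fun l => e.Y ^ 10 < l)) B
      (by
        intro l hl
        rw [mem_filter, hS, mem_filter] at hl
        exact ⟨hl.1.2.1, hl.2⟩)
      (by
        intro n hn
        rw [hB, mem_filter, mem_rg'] at hn
        omega) (ρ * (x2 * vz e.z))
      (by
        intro l hl
        rw [mem_filter, hS, mem_filter, mem_range] at hl
        obtain ⟨⟨hl0, hl1, hl2, hl3⟩, hl4⟩ := hl
        have hcr : cr χ l = 1 := (cr_eq_one χ hχ l).mp hl3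
        have hcop : l.Coprime G := by
          by_contra hcon
          rw [cr_non χ l hcon] at hcr
          norm_num at hcr
        have hlpos : (0 : ℝ) < l := by exact_mod_cast hl1.pos
        have hlN : (l : ℝ) ≤ (N : ℝ) ^ (1 - mu / 10) := by
          have h2 : l ≤ pw N (1 - mu / 10) := by omega
          unfold pw at h2
          exact (Nat.le_floor_iff (Real.rpow_nonneg (Nat.cast_nonneg _) _)).mp h2
        have hy2 : (e.X : ℝ) ^ (mu / 20) ≤ (x2 : ℝ) / l := hn9 N l hN2 hl1.one_lt.le hlN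
        have hl1r : (1 : ℝ) ≤ l := by exact_mod_cast hl1.one_lt.le
        have hx2l : (x2 : ℝ) / l ≤ x2 := div_le_self hx20.le hl1r
        have h2 := hsm (x1 / l) (x2 / l) hy2 (hx2l.trans (by exact_mod_cast hx2X)) (by positivity) (by
          rw [← mul_div_assoc]
          refine div_le_div_of_nonneg_right ?_ hlpos.le
          linarith)
        rw [VV_eq] at h2
        have h3 : ρ * (x2 * vz e.z) / l = ρ * ((x2 : ℝ) / l * vz e.z) := by
          field_simp
        rw [h3]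
        refine h2.trans ?_
        have h4 : ((Icc 1 ⌊(x2 : ℝ) / l⌋₊).filter fun n : ℕ => (x1 : ℝ) / l < n ∧ Sf e.z (n : ℤ) ∧ θ n = 1) ⊆
            (Icc 1 x2).filter (fun m => l * m ∈ B) := by
          intro m hm
          rw [mem_filter, mem_Icc] at hm
          obtain ⟨⟨hm1, hm2⟩, hm3, hm4, hm5⟩ := hm
          have hm2r : (m : ℝ) ≤ (x2 : ℝ) / l := (Nat.le_floor_iff (by positivity)).mp hm2
          have hmx2 : m ≤ x2 := by exact_mod_cast hm2r.trans hx2l
          have hmcop : m.Coprime G := by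
            by_contra hcon
            rw [hθ] at hm5
            simp only at hm5
            rw [cr_non χ m hcon] at hm5
            norm_num at hm5
          rw [mem_filter, mem_Icc]
          refine ⟨⟨hm1, hmx2⟩, ?_⟩
          rw [hB, mem_filter, mem_rg']
          refine ⟨⟨⟨?_, ?_⟩, ?_⟩, hcop.mul_left hmcop, ?_⟩
          · rw [div_lt_iff₀ hlpos] at hm3
            have : (x1 : ℝ) < ((l * m : ℕ) : ℝ) := by
              push_cast
              linarith
            exact_mod_cast this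
          · rw [le_div_iff₀ hlpos] at hm2r
            have : ((l * m : ℕ) : ℝ) ≤ x2 := by
              push_cast
              linarith
            exact_mod_cast this
          · refine rg_mul ?_ (Sf_nat.mp hm4)
            intro q hq hqp hd
            have : q = l := (Nat.prime_dvd_prime_iff_eq hqp hl1).mp hd
            omega
          · rw [lam_mul l m hl1.ne_zero (by omega), cr_mul χ hχ, hcr, lam_prime' l hl1]
            rw [hθ] at hm5
            simp only at hm5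
            rcases cr_pm χ hχ m hmcop with h6 | h6 <;> rcases lam_pm' m with h7 | h7 <;> rw [h6, h7] at hm5 ⊢ <;>
              norm_num at hm5 <;> norm_num
        exact_mod_cast card_le_card h4)
    have h2 : ρ * (x2 * vz e.z) * ∑ l ∈ S.filter (fun l => e.Y ^ 10 < l), 1 / (l : ℝ) ≤
        (ρ * (x2 * vz e.z)) * (del' / 2) := by
      calc _ ≤ (k : ℝ) * (B.card : ℝ) := h1
        _ ≤ k * (d5 * (x2 * vz e.z)) := mul_le_mul_of_nonneg_left hsgn hk0
        _ = (k * d5) * (x2 * vz e.z) := by ring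
        _ ≤ (del' / 2 * ρ) * (x2 * vz e.z) := mul_le_mul_of_nonneg_right hd5d (by positivity)
        _ = _ := by ring
    exact le_of_mul_le_mul_left h2 (by positivity)
  have h3 : ∑ l ∈ S, 1 / (l : ℝ) ≤ ∑ l ∈ (e.Bad ∩ S) ∪ S.filter (fun l => e.Y ^ 10 < l), 1 / (l : ℝ) :=
    sum_le_sum_of_subset_of_nonneg hSsub fun _ _ _ => by positivity
  have h4 : ∑ l ∈ (e.Bad ∩ S) ∪ S.filter (fun l => e.Y ^ 10 < l), 1 / (l : ℝ) ≤
      ∑ l ∈ e.Bad ∩ S, 1 / (l : ℝ) + ∑ l ∈ S.filter (fun l => e.Y ^ 10 < l), 1 / (l : ℝ) := by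
    have h5 := sum_union_inter (s₁ := e.Bad ∩ S) (s₂ := S.filter (fun l => e.Y ^ 10 < l)) (f := fun l : ℕ => 1 / (l : ℝ))
    have h6 : 0 ≤ ∑ l ∈ (e.Bad ∩ S) ∩ S.filter (fun l => e.Y ^ 10 < l), 1 / (l : ℝ) :=
      sum_nonneg fun _ _ => by positivity
    linarith
  linarith

end Pool.Agent.Lib.EX
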