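import Pool.Agent.Lib.MP_61161c_nt.EX.Fib

/-!
# EX, block D, module Box: the boxes `(2^k a, 2^(k+1) a] × (x1/(2^k a), x2/(2^(k+1) a)]`
-/

set_option autoImplicit false

open Finset

namespace Pool.Agent.Lib.EX

/-- first scale -/
noncomputable def ba (e1 : ℝ) (X : ℕ) : ℕ := ⌈(X : ℝ) ^ (1 / 2 - e1 / 4)⌉₊

/-- number of boxes -/
noncomputable def bk (e1 : ℝ) (X : ℕ) : ℕ := ⌊e1 / 8 * Real.log X / Real.log 2⌋₊

theorem box_len (e1 : ℝ) (he : 0 < e1) (he1 : e1 ≤ 1) : ∃ X0 : ℕ, 2 ≤ X0 ∧ ∀ X : ℕ, X0 ≤ X → ∀ G x1 x2 : ℕ, 1 ≤ G →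
    (G : ℝ) ≤ (X : ℝ) ^ (1 - e1) → (X : ℝ) ^ (1 - e1 / 5) ≤ x2 → x2 ≤ X → 8 * x1 ≤ x2 →
    1 ≤ ba e1 X ∧ e1 / 16 * Real.log X ≤ bk e1 X ∧ ∀ k < bk e1 X,
      Real.sqrt G * (X : ℝ) ^ (e1 / 10) ≤ ((2 ^ (k + 1) * ba e1 X : ℕ) : ℝ) - (2 ^ k * ba e1 X : ℕ) ∧
      (x2 : ℝ) / (4 * (2 ^ k * ba e1 X : ℕ)) ≤ ((x2 / (2 ^ (k + 1) * ba e1 X) : ℕ) : ℝ) - (x1 / (2 ^ k * ba e1 X) : ℕ) ∧
      Real.sqrt G * (X : ℝ) ^ (e1 / 10) ≤ (x2 : ℝ) / (4 * (2 ^ k * ba e1 X : ℕ)) := by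
  have hl2 : 0 < Real.log 2 := Real.log_pos (by norm_num)
  have hlog : Filter.Tendsto (fun X : ℕ => Real.log X) Filter.atTop Filter.atTop :=
    Real.tendsto_log_atTop.comp tendsto_natCast_atTop_atTop
  have hpow : ∀ c : ℝ, 0 < c → Filter.Tendsto (fun X : ℕ => (X : ℝ) ^ c) Filter.atTop Filter.atTop :=
    fun c hc => (tendsto_rpow_atTop hc).comp tendsto_natCast_atTop_atTop
  have hev := ((hlog.eventually_ge_atTop (32 * Real.log 2 / e1)).and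
    ((hpow (e1 / 40) (by linarith)).eventually_ge_atTop 16)).and (Filter.eventually_ge_atTop 2)
  obtain ⟨X0, h0⟩ := Filter.eventually_atTop.mp hev
  refine ⟨max X0 2, le_max_right _ _, fun X hX G x1 x2 hG hGX hx2 hx2X h8 => ?_⟩
  obtain ⟨⟨hL, hP⟩, hX2⟩ := h0 X ((le_max_left _ _).trans hX)
  have hXr : (1 : ℝ) < X := by exact_mod_cast (by omega : 1 < X)
  have hX0 : (0 : ℝ) < X := by linarith
  have pw : ∀ t : ℝ, 0 < (X : ℝ) ^ t := fun t => Real.rpow_pos_of_pos hX0 t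
  set a := ba e1 X with ha
  set K := bk e1 X with hK
  have ha1 : (X : ℝ) ^ (1 / 2 - e1 / 4) ≤ a := Nat.le_ceil _
  have ha2 : (a : ℝ) < (X : ℝ) ^ (1 / 2 - e1 / 4) + 1 := Nat.ceil_lt_add_one (pw _).le
  have hone : (1 : ℝ) ≤ (X : ℝ) ^ (1 / 2 - e1 / 4) := Real.one_le_rpow hXr.le (by linarith)
  have ha3 : (a : ℝ) ≤ 2 * (X : ℝ) ^ (1 / 2 - e1 / 4) := by linarith
  have ha0 : (1 : ℝ) ≤ a := hone.trans ha1
  have ha0' : 1 ≤ a := by exact_mod_cast ha0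
  have hsqrt : Real.sqrt G ≤ (X : ℝ) ^ ((1 - e1) / 2) := by
    rw [Real.sqrt_eq_rpow]
    calc (G : ℝ) ^ (1 / 2 : ℝ) ≤ ((X : ℝ) ^ (1 - e1)) ^ (1 / 2 : ℝ) :=
          Real.rpow_le_rpow (Nat.cast_nonneg _) hGX (by norm_num)
      _ = (X : ℝ) ^ ((1 - e1) / 2) := by
          rw [← Real.rpow_mul hX0.le]
          congr 1
          ring
  have hsq : Real.sqrt G * (X : ℝ) ^ (e1 / 10) ≤ (X : ℝ) ^ ((1 - e1) / 2 + e1 / 10) := by
    rw [Real.rpow_add hX0]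
    exact mul_le_mul_of_nonneg_right hsqrt (pw _).le
  have hKf : (K : ℝ) ≤ e1 / 8 * Real.log X / Real.log 2 := Nat.floor_le (by
    have : 0 ≤ Real.log X := Real.log_nonneg hXr.le
    positivity)
  refine ⟨ha0', ?_, fun k hk => ?_⟩
  · have h1 : e1 / 8 * Real.log X / Real.log 2 < K + 1 := Nat.lt_floor_add_one _
    have h2 : e1 / 8 * Real.log X ≤ e1 / 8 * Real.log X / Real.log 2 := by
      rw [le_div_iff₀ hl2]
      have h3 : Real.log 2 ≤ 1 := by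
        have := Real.log_two_lt_d9
        linarith
      have h4 : 0 ≤ e1 / 8 * Real.log X := by
        have : 0 ≤ Real.log X := Real.log_nonneg hXr.le
        positivity
      nlinarith
    have h3 : 1 ≤ e1 / 16 * Real.log X := by
      have h4 := hL
      rw [div_le_iff₀ he] at h4
      have h5 : (1 : ℝ) / 2 < Real.log 2 := by
        have := Real.log_two_gt_d9
        linarith
      linarith
    linarith
  · have hAk : ((2 ^ k * a : ℕ) : ℝ) = 2 ^ k * a := by push_cast; ring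
    have hAk1 : ((2 ^ (k + 1) * a : ℕ) : ℝ) = 2 * (2 ^ k * a) := by push_cast; ring
    set A : ℝ := 2 ^ k * a with hA
    have h2k : (1 : ℝ) ≤ 2 ^ k := one_le_pow₀ (by norm_num)
    have hA1 : (X : ℝ) ^ (1 / 2 - e1 / 4) ≤ A := by
      rw [hA]
      calc (X : ℝ) ^ (1 / 2 - e1 / 4) ≤ a := ha1
        _ = 1 * a := (one_mul _).symm
        _ ≤ 2 ^ k * a := mul_le_mul_of_nonneg_right h2k (by linarith)
    have hA0 : 0 < A := lt_of_lt_of_le (pw _) hA1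
    have h2K : (2 : ℝ) ^ k ≤ (X : ℝ) ^ (e1 / 8) := by
      rw [← Real.log_le_log_iff (by positivity) (pw _), Real.log_pow, Real.log_rpow hX0]
      have hkK : (k : ℝ) ≤ K := by exact_mod_cast hk.le
      have h3 : (k : ℝ) ≤ e1 / 8 * Real.log X / Real.log 2 := hkK.trans hKf
      rwa [le_div_iff₀ hl2] at h3
    have hA2 : A ≤ 2 * (X : ℝ) ^ (1 / 2 - e1 / 8) := by
      rw [hA]
      calc (2 : ℝ) ^ k * a ≤ (X : ℝ) ^ (e1 / 8) * (2 * (X : ℝ) ^ (1 / 2 - e1 / 4)) :=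
            mul_le_mul h2K ha3 (by linarith) (pw _).le
        _ = 2 * ((X : ℝ) ^ (e1 / 8) * (X : ℝ) ^ (1 / 2 - e1 / 4)) := by ring
        _ = _ := by rw [← Real.rpow_add hX0]; congr 2; ring
    have hx2A : (X : ℝ) ^ (1 / 2 - 3 * e1 / 40) ≤ 2 * ((x2 : ℝ) / A) := by
      rw [← mul_div_assoc, le_div_iff₀ hA0]
      calc (X : ℝ) ^ (1 / 2 - 3 * e1 / 40) * A ≤ (X : ℝ) ^ (1 / 2 - 3 * e1 / 40) * (2 * (X : ℝ) ^ (1 / 2 - e1 / 8)) :=
            mul_le_mul_of_nonneg_left hA2 (pw _).le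
        _ = 2 * ((X : ℝ) ^ (1 / 2 - 3 * e1 / 40) * (X : ℝ) ^ (1 / 2 - e1 / 8)) := by ring
        _ = 2 * (X : ℝ) ^ (1 - e1 / 5) := by rw [← Real.rpow_add hX0]; congr 2; ring
        _ ≤ 2 * x2 := by linarith
    have hbig : 16 * (X : ℝ) ^ ((1 - e1) / 2 + e1 / 10) ≤ (X : ℝ) ^ (1 / 2 - 3 * e1 / 40) := by
      calc 16 * (X : ℝ) ^ ((1 - e1) / 2 + e1 / 10) ≤ (X : ℝ) ^ (e1 / 40) * (X : ℝ) ^ ((1 - e1) / 2 + e1 / 10) :=
            mul_le_mul_of_nonneg_right hP (pw _).le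
        _ = (X : ℝ) ^ (e1 / 40 + ((1 - e1) / 2 + e1 / 10)) := (Real.rpow_add hX0 _ _).symm
        _ ≤ _ := Real.rpow_le_rpow_of_exponent_le hXr.le (by linarith)
    have hsmall : (1 : ℝ) ≤ (X : ℝ) ^ ((1 - e1) / 2 + e1 / 10) := Real.one_le_rpow hXr.le (by linarith)
    rw [hAk, hAk1]
    refine ⟨?_, ?_, ?_⟩
    · have h3 : (X : ℝ) ^ ((1 - e1) / 2 + e1 / 10) ≤ (X : ℝ) ^ (1 / 2 - e1 / 4) :=
        Real.rpow_le_rpow_of_exponent_le hXr.le (by linarith)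
      linarith
    · have hd1 : ((x1 / (2 ^ k * a) : ℕ) : ℝ) ≤ (x1 : ℝ) / A := by
        have := @Nat.cast_div_le ℝ _ _ _ x1 (2 ^ k * a)
        rwa [hAk] at this
      have hd2 : (x2 : ℝ) / (2 * A) - 1 ≤ ((x2 / (2 ^ (k + 1) * a) : ℕ) : ℝ) := by
        have h4 := Nat.lt_div_mul_add (a := x2) (b := 2 ^ (k + 1) * a) (by positivity)
        have h5 : (x2 : ℝ) < ((x2 / (2 ^ (k + 1) * a) : ℕ) : ℝ) * (2 * A) + 2 * A := by
          rw [← hAk1]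
          exact_mod_cast h4
        rw [sub_le_iff_le_add, div_le_iff₀ (by linarith)]
        linarith
      have h8r : 8 * (x1 : ℝ) ≤ x2 := by exact_mod_cast h8
      have h5 : (x1 : ℝ) / A ≤ (x2 : ℝ) / A / 8 := by
        rw [div_div, div_le_div_iff₀ hA0 (by linarith)]
        nlinarith
      have h6 : (x2 : ℝ) / (2 * A) = (x2 : ℝ) / A / 2 := by rw [div_div]; congr 1; ring
      have h7 : (x2 : ℝ) / (4 * A) = (x2 : ℝ) / A / 4 := by rw [div_div]; congr 1; ring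
      rw [h6] at hd2
      rw [h7]
      linarith
    · have h7 : (x2 : ℝ) / (4 * A) = (x2 : ℝ) / A / 4 := by rw [div_div]; congr 1; ring
      rw [h7]
      linarith

end Pool.Agent.Lib.EX
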