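import Pool.Agent.Lib.MP_61161c_nt.EX.Cp

/-!
# EX, module Ch: sums of consecutive positions, the chain
-/

set_option autoImplicit false

open Finset

namespace Pool.Agent.Lib.EX

/-- the eight sums and the two lower moves (all by `ring` after unfolding; two cases `eps = ± 1`) -/
theorem sums (eps g : ℤ) (heps : eps = 1 ∨ eps = -1) (Ns qs : ℕ) (k : ℤ) (G : Frm) (θ : Th) (n : ℤ) :
    (θ.F1 G).ev n = θ.n1 - G.ev n ∧ (θ.F2 G).ev n = θ.n1' - (θ.F1 G).ev n ∧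
    (θ.F4 eps g G).ev n = eps * (θ.F2 G).ev n + θ.q * g ∧
    (θ.F3 Ns qs G).ev n = θ.q * Ns - qs * (θ.F2 G).ev n ∧
    (θ.F5 eps g G).ev n = (θ.nA eps) - (θ.F4 eps g G).ev n ∧
    (θ.F6 eps g G).ev n = (θ.nB eps) - (θ.F5 eps g G).ev n ∧
    (θ.F7 eps g G).ev n = θ.n2 - (θ.F6 eps g G).ev n ∧ (θ.F8 eps g G).ev n = θ.n2' - (θ.F7 eps g G).ev n ∧
    (θ.F8 eps g G).ev n = eps * (θ.F10 eps g k G).ev n + (θ.q - k) * g ∧
    (θ.F9 eps g Ns qs k G).ev n = (θ.q - k) * Ns - qs * (θ.F10 eps g k G).ev n ∧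
    (θ.F11 eps g k G).ev n = (θ.nC eps) - (θ.F10 eps g k G).ev n ∧
    G.ev n + eps * k * g = (θ.nD eps) - (θ.F11 eps g k G).ev n := by
  have h11 : ¬ ((-1 : ℤ) = 1) := by norm_num
  rcases heps with h | h
  · subst h
    refine ⟨?_, ?_, ?_, ?_, ?_, ?_, ?_, ?_, ?_, ?_, ?_, ?_⟩ <;>
      simp only [Th.F1, Th.F2, Th.F3, Th.F4, Th.F5, Th.F6, Th.F7, Th.F8, Th.F9, Th.F10, Th.F11, Th.nA, Th.nB,
        Th.nC, Th.nD, Frm.af, Frm.ev, if_true] <;> ring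
  · subst h
    refine ⟨?_, ?_, ?_, ?_, ?_, ?_, ?_, ?_, ?_, ?_, ?_, ?_⟩ <;>
      simp only [Th.F1, Th.F2, Th.F3, Th.F4, Th.F5, Th.F6, Th.F7, Th.F8, Th.F9, Th.F10, Th.F11, Th.nA, Th.nB,
        Th.nC, Th.nD, Frm.af, Frm.ev, if_neg h11] <;> ring

private theorem Ch_two {a b c κ : ℝ} (hκ : κ ≠ 0) (h1 : a * b = κ) (h2 : b * c = κ) : a = c := by
  have hb : b ≠ 0 := by
    rintro rfl
    rw [mul_zero] at h1
    exact hκ h1.symm
  have h3 : b * a = b * c := by rw [h2, mul_comm b a, h1]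
  exact mul_left_cancel₀ hb h3

/-- a path all of whose steps are valid shows that the shift is valid -/
theorem chain (e : Env) (he : e.Ok) (eps g : ℤ) (Ns qs : ℕ) (k : ℤ) (G t : Frm) (Fs : List Frm) (A L : ℕ) (s : ℝ)
    (hs : s = 1 ∨ s = -1) (θ : Th) (n : ℕ) (h1 : n ∈ e.SP eps g Ns qs k G t Fs A L θ)
    (h2 : n ∉ e.VP eps g Ns qs k G t Fs A L s θ) : lz (G.ev n) = lz (G.ev n + eps * k * g) := by
  classical
  have hκ : e.kap ≠ 0 := by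
    rcases he.kap with h | h <;> rw [h] <;> norm_num
  have hs0 : s ≠ 0 := by
    rcases hs with h | h <;> rw [h] <;> norm_num
  unfold Env.VP at h2
  rw [mem_filter, not_and] at h2
  have h3 := h2 h1
  simp only [ne_eq, not_or, not_not] at h3
  obtain ⟨p1, p2, p3, p4, p5, p6, p7, p8, p9, p10⟩ := h3
  have e1 := Ch_two hκ p1 p2
  have e2 := Ch_two hκ p4 p5
  have e3 := Ch_two hκ p6 p7
  have e4 := Ch_two hκ p9 p10
  rw [e1, ← e4]
  refine mul_left_cancel₀ hs0 ?_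
  rw [← p3, ← p8, e2, e3]

end Pool.Agent.Lib.EX
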