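import Pool.Agent.Lib.MP_61161c_nt.EX.Col0

/-!
# EX, module Col1 (lemma col_sum; the text is that of module Col): pairs of paths whose moduli are not coprime

PROOF. `m = q q'`, `m' = r r'` (`r' = r - k`), `u = (q, r r')`, `u' = (q', r r')`: `(m, m') = u u'` (`q`, `q'` coprime). A common `n` gives `G n = γ` modulo `r r'`
with `γ` determined by the second path, so `u ∣ n1' - n1 + γ` and `u' ∣ n2' - n2 + eps γ + q g`: given the second path and `q` at most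
`|E|^4 eE u * eE u'` choices of the four E-parameters (`eE_cls`); and `m m' #{n} ≤ m m' (L/lcm + 1) ≤ 2 u u' L`. So the sum is
`≤ 2 L |E|^8 ∑_{q, r} u u' eE u eE u' [u u' > 1]`. Given `q` and `v ∣ q`, `v' ∣ q'` the number of `r` in the window with `v v' ∣ r r'` and `r ≡ qs` mod `W`
is `≤ U (qhi/(W v v') + 1)` (for `v v' = v1 v2`, `v1 = (v v', r)`, `v2 = (v v', r')`: one class modulo `W v v'`; `≤ U` factorisations). Hence
`∑_{q,r} ≤ U (qhi/W) ∑_q (∑_{v ∣ q} eE v ∑_{v' ∣ q'} eE v' - 1) + U ∑_q sE q sE q'`, the first by `eE_sum`, `eE_sum_div`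
(`∑_q ∑_{1 < v ∣ q} eE v ≤ (qhi/W) ((1 + log)/|E| + U/z) + qhi/|E| + U`), the second `≤ U |Qs| W^4 U^4`. Compare with `|Qs| ≥ qlo/(10^5 W U)`, `z ≥ U^60`.
-/

set_option autoImplicit false

open Finset
open Pool.Agent.Lib.GT (Rough pr)

namespace Pool.Agent.Lib.EX

variable {e : Env} {k0 B cr : ℕ} {eps g : ℤ} {Ns qs : ℕ} {k : ℤ} {qlo qhi : ℕ} {s dl : ℝ} {a0 lo hi : ℤ}
  {t : Frm} {Fs : List Frm} {A L : ℕ} {G : Frm}

/-- a set of numbers of an interval with differences divisible by `p` -/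
private theorem c1_cls (p M : ℕ) (hp : 0 < p) (T : Finset ℕ) (hT : ∀ n ∈ T, 1 ≤ n ∧ n ≤ M)
    (hd : ∀ n ∈ T, ∀ n' ∈ T, (p : ℤ) ∣ (n : ℤ) - n') : (T.card : ℝ) ≤ M / p + 1 := by
  have h1 : T.card ≤ (Finset.range (M / p + 1)).card := by
    refine Finset.card_le_card_of_injOn (fun n => n / p) ?_ ?_
    · intro n hn
      obtain ⟨h1, h2⟩ := hT n hn
      rw [mem_coe, mem_range]
      have : n / p ≤ M / p := Nat.div_le_div_right h2
      exact Nat.lt_succ_of_le this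
    · intro n hn n' hn' h
      have h5 := hd n hn n' hn'
      have h6 : n / p = n' / p := h
      have e1 := Nat.div_add_mod n p
      have e2 := Nat.div_add_mod n' p
      have l1 := Nat.mod_lt n hp
      have l2 := Nat.mod_lt n' hp
      rw [← h6] at e2
      have h7 : |(n : ℤ) - n'| < p := by
        rw [abs_lt]
        constructor <;> omega
      have h8 := Int.eq_zero_of_abs_lt_dvd h5 h7
      omega
  rw [Finset.card_range] at h1
  have h2 : (T.card : ℝ) ≤ ((M / p : ℕ) : ℝ) + 1 := by exact_mod_cast h1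
  have h3 : ((M / p : ℕ) : ℝ) ≤ (M : ℝ) / p := Nat.cast_div_le
  linarith

private theorem c1_cop (e : Env) (he : e.Ok) (v : ℕ) (hv : Rough e.z v) : v.Coprime e.W := by
  by_contra hc
  obtain ⟨p, hp, h1, h2⟩ := Nat.Prime.not_coprime_iff_dvd.mp hc
  have h3 := hv p hp h1
  unfold Env.W primorial at h2
  obtain ⟨q, hq, hpq⟩ := (hp.prime.dvd_finsetProd_iff _).mp h2
  obtain ⟨h4, h5⟩ := mem_filter.mp hq
  have h6 : p = q := (Nat.prime_dvd_prime_iff_eq hp h5).mp hpq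
  have h7 := mem_range.mp h4
  have h8 := he.wz
  omega

private theorem c1_rough (z n : ℕ) (h : Sf z (n : ℤ)) : Rough z n := by
  intro p hp hd
  by_contra h1
  exact h p hp (by omega) (by exact_mod_cast hd)

/-- `∑ eE v` over the divisors `v > 1` -/
private noncomputable def dE (e : Env) (q : ℕ) : ℝ := ∑ v ∈ q.divisors.erase 1, e.eE v

private theorem dE_nonneg (e : Env) (q : ℕ) : 0 ≤ dE e q :=
  Finset.sum_nonneg fun v _ => (eE_nonneg e v).1

private theorem c1_U (e : Env) (he : e.Ok) : 100 ≤ e.U := by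
  have h1 := he.etaU
  have h2 := he.eta1
  have h3 := he.eta0
  have h4 : (0 : ℝ) ≤ e.U := Nat.cast_nonneg _
  have h5 : (100 : ℝ) ≤ e.U := by
    by_contra h
    push Not at h
    nlinarith
  exact_mod_cast h5

private theorem dE_one (e : Env) (he : e.Ok) (q : ℕ) (hq : q ≠ 0) : ∑ v ∈ q.divisors, e.eE v = 1 + dE e q := by
  unfold dE
  rw [← Finset.add_sum_erase _ _ (Nat.one_mem_divisors.mpr hq), eE_one e he]

private theorem dE_le (e : Env) (he : e.Ok) (q : ℕ) (hq : q ≠ 0) (hq' : q ≤ e.X ^ 100) (hr : Rough e.z q) :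
    1 + dE e q ≤ e.U := by
  rw [← dE_one e he q hq]
  have h1 : ∑ v ∈ q.divisors, e.eE v ≤ ∑ v ∈ q.divisors, (1 : ℝ) := sum_le_sum fun v _ => (eE_nonneg e v).2
  have h2 : (q.divisors.card : ℝ) ≤ e.U := by
    have h3 := he.dvs q hq hq'
    have h4 : q.divisors.filter (fun d => Rough e.z d) = q.divisors := by
      refine filter_true_of_mem fun d hd => ?_
      intro p hp hpd
      exact hr p hp (hpd.trans (Nat.dvd_of_mem_divisors hd))
    rw [h4] at h3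
    exact_mod_cast h3
  rw [sum_const, nsmul_eq_mul, mul_one] at h1
  exact h1.trans h2

/-- the average of `dE` over a class -/
private theorem dE_sum (e : Env) (he : e.Ok) (qhi c : ℕ) (hq1 : 1 ≤ qhi) (R : Finset ℕ)
    (hR : ∀ m ∈ R, 1 ≤ m ∧ m ≤ qhi ∧ m ≡ c [MOD e.W] ∧ Rough e.z m) :
    ∑ m ∈ R, dE e m ≤ (qhi : ℝ) / e.W * ((1 + Real.log qhi) / e.E.card + e.U / e.z) + (qhi / e.E.card + e.U) := by
  classical
  have hW0 : 0 < e.W := by unfold Env.W; exact primorial_pos _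
  have hWR : (0 : ℝ) < e.W := by exact_mod_cast hW0
  set V := (Finset.Icc 2 qhi).filter (fun u => Rough e.z u) with hV
  have h1 : ∀ m ∈ R, dE e m ≤ ∑ v ∈ V, if v ∣ m then e.eE v else 0 := by
    intro m hm
    obtain ⟨h2, h3, h4, h5⟩ := hR m hm
    rw [← Finset.sum_filter]
    unfold dE
    refine Finset.sum_le_sum_of_subset_of_nonneg ?_ fun u _ _ => (eE_nonneg e u).1
    intro u hu
    obtain ⟨h6, h7⟩ := mem_erase.mp hu
    have h8 := Nat.dvd_of_mem_divisors h7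
    have h9 : 0 < u := Nat.pos_of_mem_divisors h7
    rw [mem_filter, hV, mem_filter, mem_Icc]
    refine ⟨⟨⟨by omega, (Nat.le_of_dvd (by omega) h8).trans h3⟩, fun p hp hpu => h5 p hp (hpu.trans h8)⟩, h8⟩
  have h2 : ∀ v ∈ V, ((R.filter fun m => v ∣ m).card : ℝ) ≤ (qhi : ℝ) / e.W / v + 1 := by
    intro v hv
    rw [hV, mem_filter, mem_Icc] at hv
    have h3 := c1_cls (e.W * v) qhi (Nat.mul_pos hW0 (by omega)) (R.filter fun m => v ∣ m) (by
      intro m hm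
      obtain ⟨h4, h5⟩ := mem_filter.mp hm
      exact ⟨(hR m h4).1, (hR m h4).2.1⟩) (by
      intro m hm m' hm'
      obtain ⟨h4, h5⟩ := mem_filter.mp hm
      obtain ⟨h4', h5'⟩ := mem_filter.mp hm'
      have h6 : (e.W : ℤ) ∣ (m : ℤ) - m' := by
        have h7 := (hR m h4).2.2.1.trans (hR m' h4').2.2.1.symm
        exact Nat.modEq_iff_dvd.mp h7.symm
      have h7 : (v : ℤ) ∣ (m : ℤ) - m' :=
        dvd_sub (Int.natCast_dvd_natCast.mpr h5) (Int.natCast_dvd_natCast.mpr h5')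
      have h8 : IsCoprime (e.W : ℤ) (v : ℤ) := Nat.isCoprime_iff_coprime.mpr (c1_cop e he v hv.2).symm
      push_cast
      exact h8.mul_dvd h6 h7)
    push_cast at h3
    rw [div_div]
    exact h3
  calc ∑ m ∈ R, dE e m ≤ ∑ m ∈ R, ∑ v ∈ V, (if v ∣ m then e.eE v else 0) := Finset.sum_le_sum h1
    _ = ∑ v ∈ V, ∑ m ∈ R, (if v ∣ m then e.eE v else 0) := Finset.sum_comm
    _ ≤ ∑ v ∈ V, ((qhi : ℝ) / e.W * (e.eE v / v) + e.eE v) := by
        refine Finset.sum_le_sum fun v hv => ?_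
        rw [← Finset.sum_filter, Finset.sum_const, nsmul_eq_mul]
        have h3 := mul_le_mul_of_nonneg_right (h2 v hv) (eE_nonneg e v).1
        refine h3.trans (le_of_eq ?_)
        ring
    _ = (qhi : ℝ) / e.W * (∑ v ∈ V, e.eE v / v) + ∑ v ∈ V, e.eE v := by
        rw [Finset.sum_add_distrib, Finset.mul_sum]
    _ ≤ _ := by
        have h3 := eE_sum_div e he qhi hq1
        have h4 := eE_sum e he qhi
        have h5 : (0 : ℝ) ≤ (qhi : ℝ) / e.W := by positivity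
        exact add_le_add (mul_le_mul_of_nonneg_left h3 h5) h4

open Classical in
/-- data of a modulus -/
private theorem c1_q (he : e.Ok) (h : DH e k0 B cr eps g Ns qs k qlo qhi s dl a0 lo hi) {a : ℤ} {q : ℕ}
    (hq : q ∈ e.Qs qs qlo qhi k a) :
    (((q : ℤ) - k).natAbs : ℤ) = (q : ℤ) - k ∧ 1 ≤ q ∧ q ≤ qhi ∧ 1 ≤ ((q : ℤ) - k).natAbs ∧ ((q : ℤ) - k).natAbs ≤ qhi ∧
    q ≡ qs [MOD e.W] ∧ ((q : ℤ) - k).natAbs ≡ qs [MOD e.W] ∧ Rough e.z q ∧ Rough e.z ((q : ℤ) - k).natAbs ∧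
    q.Coprime ((q : ℤ) - k).natAbs ∧ e.sE q ≤ (e.W : ℝ) ^ 2 * e.U ^ 2 ∧
    e.sE ((q : ℤ) - k).natAbs ≤ (e.W : ℝ) ^ 2 * e.U ^ 2 := by
  have hz : 1 ≤ e.z := by have := he.wz; omega
  have hY1 : 1 ≤ e.Y := le_trans (Nat.one_le_pow _ _ hz) he.zY
  have h18 : 1 ≤ e.Y ^ 18 := Nat.one_le_pow _ _ hY1
  have hq0 := h.hq0
  unfold Env.Qs at hq
  obtain ⟨h1, h2, h3, h4, h5, h6, h7, h8, h9, h10, h11⟩ := mem_filter.mp hq
  obtain ⟨h12, h13⟩ := mem_Icc.mp h1
  have e1 : (((q : ℤ) - k).natAbs : ℤ) = (q : ℤ) - k := by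
    rw [Int.natCast_natAbs, abs_of_nonneg (by omega)]
  refine ⟨e1, by omega, h13, by omega, by omega, h4, ?_, c1_rough _ _ h5.1, c1_rough _ _ (by rw [e1]; exact h6.1), ?_,
    h10, h11⟩
  · rw [← Int.natCast_modEq_iff, e1]
    have h14 : (q : ℤ) ≡ (qs : ℤ) [ZMOD e.W] := Int.natCast_modEq_iff.mpr h4
    refine Int.ModEq.trans ?_ h14
    rw [Int.modEq_iff_dvd]
    have h15 : (q : ℤ) - (q - k) = k := by ring
    rw [h15]
    exact h.kW
  · rw [← Nat.isCoprime_iff_coprime, e1]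
    exact h7

open Classical in
/-- the sum over the second modulus -/
private theorem c1_row (he : e.Ok) (h : DH e k0 B cr eps g Ns qs k qlo qhi s dl a0 lo hi) (a : ℤ) (q : ℕ)
    (hq : q ∈ e.Qs qs qlo qhi k a) :
    ∑ r ∈ (e.Qs qs qlo qhi k a).filter (fun r : ℕ =>
        ¬ (q * ((q : ℤ) - k).natAbs).Coprime (r * ((r : ℤ) - k).natAbs)),
      (((q.gcd (r * ((r : ℤ) - k).natAbs) : ℕ) : ℝ) * (((q : ℤ) - k).natAbs.gcd (r * ((r : ℤ) - k).natAbs) : ℕ) *
        e.eE (q.gcd (r * ((r : ℤ) - k).natAbs)) * e.eE (((q : ℤ) - k).natAbs.gcd (r * ((r : ℤ) - k).natAbs))) ≤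
      e.U * (qhi / e.W) * (e.U * dE e q + dE e ((q : ℤ) - k).natAbs) + e.U * (e.sE q * e.sE ((q : ℤ) - k).natAbs) := by
  obtain ⟨e1, q1, q2, q3, q4, q5, q6, q7, q8, q9, q10, q11⟩ := c1_q he h hq
  set q' := ((q : ℤ) - k).natAbs with hq'
  set S := e.Qs qs qlo qhi k a with hS
  have hW0 : 0 < e.W := by unfold Env.W; exact primorial_pos _
  have hWR : (0 : ℝ) < e.W := by exact_mod_cast hW0
  set P := (q.divisors ×ˢ q'.divisors).erase (1, 1) with hP
  set Gf : ℕ × ℕ → ℝ := fun x => (x.1 : ℝ) * x.2 * e.eE x.1 * e.eE x.2 with hG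
  have G0 : ∀ x, 0 ≤ Gf x := fun x =>
    mul_nonneg (mul_nonneg (by positivity) (eE_nonneg e x.1).1) (eE_nonneg e x.2).1
  have hU0 : (0 : ℝ) ≤ e.U := Nat.cast_nonneg _
  have st1 : ∀ r ∈ S.filter (fun r : ℕ => ¬ (q * q').Coprime (r * ((r : ℤ) - k).natAbs)),
      (((q.gcd (r * ((r : ℤ) - k).natAbs) : ℕ) : ℝ) * (q'.gcd (r * ((r : ℤ) - k).natAbs) : ℕ) *
        e.eE (q.gcd (r * ((r : ℤ) - k).natAbs)) * e.eE (q'.gcd (r * ((r : ℤ) - k).natAbs))) ≤
      ∑ x ∈ P, if ((x.1 * x.2 : ℕ) : ℤ) ∣ (r : ℤ) * (r - k) then Gf x else 0 := by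
    intro r hr
    obtain ⟨hr1, hr2⟩ := mem_filter.mp hr
    obtain ⟨f1, -⟩ := c1_q he h hr1
    set m := r * ((r : ℤ) - k).natAbs with hm
    have hmZ : (m : ℤ) = (r : ℤ) * (r - k) := by rw [hm, Nat.cast_mul, f1]
    have hx : (q.gcd m, q'.gcd m) ∈ P := by
      rw [hP, mem_erase, mem_product, Nat.mem_divisors, Nat.mem_divisors]
      refine ⟨?_, ⟨Nat.gcd_dvd_left _ _, by omega⟩, ⟨Nat.gcd_dvd_left _ _, by omega⟩⟩
      intro hc
      rw [Prod.mk.injEq] at hc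
      apply hr2
      exact Nat.Coprime.mul_left hc.1 hc.2
    have hdv : (((q.gcd m) * (q'.gcd m) : ℕ) : ℤ) ∣ (r : ℤ) * (r - k) := by
      rw [← hmZ, Int.natCast_dvd_natCast]
      refine Nat.Coprime.mul_dvd_of_dvd_of_dvd ?_ (Nat.gcd_dvd_right _ _) (Nat.gcd_dvd_right _ _)
      exact Nat.Coprime.coprime_dvd_left (Nat.gcd_dvd_left _ _) (Nat.Coprime.coprime_dvd_right (Nat.gcd_dvd_left _ _) q9)
    have hs := Finset.single_le_sum (f := fun x : ℕ × ℕ => if ((x.1 * x.2 : ℕ) : ℤ) ∣ (r : ℤ) * (r - k) then Gf x else 0)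
      (fun x _ => by
        show 0 ≤ (if ((x.1 * x.2 : ℕ) : ℤ) ∣ (r : ℤ) * (r - k) then Gf x else 0)
        split_ifs
        · exact G0 x
        · exact le_rfl) hx
    refine le_trans (le_of_eq ?_) hs
    show _ = (if (((q.gcd m) * (q'.gcd m) : ℕ) : ℤ) ∣ (r : ℤ) * (r - k) then Gf (q.gcd m, q'.gcd m) else 0)
    rw [if_pos hdv]
  have st2 : ∀ x ∈ P, (((S.filter fun r : ℕ => ((x.1 * x.2 : ℕ) : ℤ) ∣ (r : ℤ) * (r - k)).card : ℕ) : ℝ) ≤
      e.U * (qhi / (e.W * (x.1 * x.2 : ℕ)) + 1) := by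
    intro x hx
    obtain ⟨-, hx2⟩ := mem_erase.mp hx
    rw [mem_product, Nat.mem_divisors, Nat.mem_divisors] at hx2
    obtain ⟨⟨x1, x2⟩, x3, x4⟩ := hx2
    have y1 : 0 < x.1 := Nat.pos_of_dvd_of_pos x1 (by omega)
    have y2 : 0 < x.2 := Nat.pos_of_dvd_of_pos x3 (by omega)
    refine col_cnt he h a (x.1 * x.2) (Nat.mul_pos y1 y2) ?_ ?_
    · intro p hp hpz hd
      have hd' : p ∣ x.1 * x.2 := by exact_mod_cast hd
      rcases (hp.dvd_mul).mp hd' with h1 | h1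
      · have := q7 p hp (h1.trans x1)
        omega
      · have := q8 p hp (h1.trans x3)
        omega
    · have z1 : x.1 ≤ qhi := (Nat.le_of_dvd (by omega) x1).trans q2
      have z2 : x.2 ≤ qhi := (Nat.le_of_dvd (by omega) x3).trans q4
      have z3 := h.hq1
      calc x.1 * x.2 ≤ qhi * qhi := Nat.mul_le_mul z1 z2
        _ ≤ e.Y ^ 21 * e.Y ^ 21 := Nat.mul_le_mul z3 z3
        _ = e.Y ^ 42 := by ring
  have st3 : ∑ x ∈ P, e.eE x.1 * e.eE x.2 ≤ e.U * dE e q + dE e q' := by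
    have h1 : (1, 1) ∈ q.divisors ×ˢ q'.divisors :=
      mem_product.mpr ⟨Nat.one_mem_divisors.mpr (by omega), Nat.one_mem_divisors.mpr (by omega)⟩
    have h2 := Finset.add_sum_erase (q.divisors ×ˢ q'.divisors) (fun x : ℕ × ℕ => e.eE x.1 * e.eE x.2) h1
    have h3 : ∑ x ∈ q.divisors ×ˢ q'.divisors, e.eE x.1 * e.eE x.2 = (1 + dE e q) * (1 + dE e q') := by
      rw [Finset.sum_product, ← dE_one e he q (by omega), ← dE_one e he q' (by omega), Finset.sum_mul_sum]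
    rw [h3] at h2
    have h4 : e.eE ((1, 1) : ℕ × ℕ).1 * e.eE ((1, 1) : ℕ × ℕ).2 = 1 := by
      show e.eE 1 * e.eE 1 = 1
      rw [eE_one e he, mul_one]
    have h2' : e.eE ((1, 1) : ℕ × ℕ).1 * e.eE ((1, 1) : ℕ × ℕ).2 + ∑ x ∈ P, e.eE x.1 * e.eE x.2 =
      (1 + dE e q) * (1 + dE e q') := h2
    rw [h4] at h2'
    have hX : q' ≤ e.X ^ 100 := by
      have hz : 1 ≤ e.z := by have := he.wz; omega
      have hY1 : 1 ≤ e.Y := le_trans (Nat.one_le_pow _ _ hz) he.zY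
      have h5 : e.Y ^ 21 ≤ e.Y ^ 10000 := Nat.pow_le_pow_right hY1 (by norm_num)
      have h6 := he.YX
      have h7 : 1 ≤ e.X := le_trans (Nat.one_le_pow _ _ hY1) h6
      have h8 : e.X ≤ e.X ^ 100 := Nat.le_self_pow (by norm_num) _
      have h9 := h.hq1
      omega
    have h5 := dE_le e he q' (by omega) hX q8
    have h6 := dE_nonneg e q
    nlinarith [mul_le_mul_of_nonneg_left h5 h6]
  have st4 : ∑ x ∈ P, Gf x ≤ e.sE q * e.sE q' := by
    have h1 : e.sE q * e.sE q' = ∑ x ∈ q.divisors ×ˢ q'.divisors, Gf x := by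
      unfold Env.sE
      rw [Finset.sum_mul_sum, Finset.sum_product]
      refine sum_congr rfl fun u _ => sum_congr rfl fun v _ => ?_
      rw [hG]
      ring
    rw [h1]
    exact Finset.sum_le_sum_of_subset_of_nonneg (erase_subset _ _) fun x _ _ => G0 x
  calc ∑ r ∈ S.filter (fun r : ℕ => ¬ (q * q').Coprime (r * ((r : ℤ) - k).natAbs)),
      (((q.gcd (r * ((r : ℤ) - k).natAbs) : ℕ) : ℝ) * (q'.gcd (r * ((r : ℤ) - k).natAbs) : ℕ) *
        e.eE (q.gcd (r * ((r : ℤ) - k).natAbs)) * e.eE (q'.gcd (r * ((r : ℤ) - k).natAbs)))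
      ≤ ∑ r ∈ S.filter (fun r : ℕ => ¬ (q * q').Coprime (r * ((r : ℤ) - k).natAbs)),
        ∑ x ∈ P, (if ((x.1 * x.2 : ℕ) : ℤ) ∣ (r : ℤ) * (r - k) then Gf x else 0) := Finset.sum_le_sum st1
    _ ≤ ∑ r ∈ S, ∑ x ∈ P, (if ((x.1 * x.2 : ℕ) : ℤ) ∣ (r : ℤ) * (r - k) then Gf x else 0) :=
        Finset.sum_le_sum_of_subset_of_nonneg (filter_subset _ _) fun r _ _ => Finset.sum_nonneg fun x _ => by
          split_ifs
          · exact G0 x
          · exact le_rfl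
    _ = ∑ x ∈ P, ∑ r ∈ S, (if ((x.1 * x.2 : ℕ) : ℤ) ∣ (r : ℤ) * (r - k) then Gf x else 0) := Finset.sum_comm
    _ ≤ ∑ x ∈ P, (e.U * (qhi / e.W) * (e.eE x.1 * e.eE x.2) + e.U * Gf x) := by
        refine Finset.sum_le_sum fun x hx => ?_
        rw [← Finset.sum_filter, Finset.sum_const, nsmul_eq_mul]
        refine (mul_le_mul_of_nonneg_right (st2 x hx) (G0 x)).trans (le_of_eq ?_)
        obtain ⟨-, hx2⟩ := mem_erase.mp hx
        rw [mem_product, Nat.mem_divisors, Nat.mem_divisors] at hx2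
        obtain ⟨⟨x1, x2⟩, x3, x4⟩ := hx2
        have y1 : (0 : ℝ) < x.1 := by exact_mod_cast Nat.pos_of_dvd_of_pos x1 (by omega)
        have y2 : (0 : ℝ) < x.2 := by exact_mod_cast Nat.pos_of_dvd_of_pos x3 (by omega)
        show _ = e.U * ((qhi : ℝ) / e.W) * (e.eE x.1 * e.eE x.2) + e.U * Gf x
        have e2 : Gf x = (x.1 : ℝ) * x.2 * e.eE x.1 * e.eE x.2 := rfl
        rw [e2]
        push_cast
        field_simp
    _ = e.U * (qhi / e.W) * (∑ x ∈ P, e.eE x.1 * e.eE x.2) + e.U * ∑ x ∈ P, Gf x := by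
        rw [Finset.sum_add_distrib, Finset.mul_sum, Finset.mul_sum]
    _ ≤ _ := by
        have h5 : (0 : ℝ) ≤ e.U * ((qhi : ℝ) / e.W) := by positivity
        exact add_le_add (mul_le_mul_of_nonneg_left st3 h5) (mul_le_mul_of_nonneg_left st4 hU0)

/-- the numbers -/
private theorem c1_num (U W Y z N n Q lq T lX : ℝ) (hU : 100 ≤ U) (hW : 0 < W) (hY : 1 ≤ Y) (hz : 1 ≤ z) (hUz : U ^ 60 ≤ z)
    (hzY : z ^ 2 ≤ Y) (hWY : W ≤ Y) (hN : Y ^ 60 ≤ N) (hn0 : 0 ≤ n) (hQ0 : 0 ≤ Q) (hQn : Q ≤ 2 * (10 ^ 5 * W * U * n))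
    (hQY : Y ^ 18 ≤ Q) (hQ21 : Q ≤ Y ^ 21) (hlq : 0 ≤ lq) (hlX : lq ≤ lX) (hlU : lX ^ 50 ≤ U)
    (hT : T = Q / W * ((1 + lq) / N + U / z) + (Q / N + U)) :
    U * (Q / W) * (U * T + T) + U * (n * (W ^ 2 * U ^ 2) ^ 2) ≤ n ^ 2 / U ^ 8 := by
  have hU3 : (2 * 10 ^ 5 : ℝ) ≤ U ^ 3 := by
    have : (100 : ℝ) ^ 3 ≤ U ^ 3 := pow_le_pow_left₀ (by norm_num) hU 3
    norm_num at this ⊢
    linarith
  have hU0 : (0 : ℝ) < U := by linarith
  have hU1 : (1 : ℝ) ≤ U := by linarith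
  have hA : Q / W ≤ U ^ 4 * n := by
    rw [div_le_iff₀ hW]
    have h3 : (2 * 10 ^ 5 : ℝ) * (W * U * n) ≤ U ^ 3 * (W * U * n) :=
      mul_le_mul_of_nonneg_right hU3 (by positivity)
    calc Q ≤ 2 * (10 ^ 5 * W * U * n) := hQn
      _ = (2 * 10 ^ 5 : ℝ) * (W * U * n) := by ring
      _ ≤ U ^ 3 * (W * U * n) := h3
      _ = U ^ 4 * n * W := by ring
  have hzY1 : z ≤ Y := by nlinarith
  have hUY : U ^ 60 ≤ Y := hUz.trans hzY1
  have hN0 : 0 < N := lt_of_lt_of_le (by positivity) hN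
  have hnY : Y ^ 16 ≤ n := by
    have h2 : Q ≤ U ^ 4 * n * W := by
      rwa [div_le_iff₀ hW] at hA
    have h3 : U ^ 4 ≤ Y := le_trans (pow_le_pow_right₀ hU1 (by norm_num)) hUY
    have h4 : U ^ 4 * n * W ≤ Y * n * Y := by gcongr
    have h5 : Y ^ 2 * Y ^ 16 ≤ Y ^ 2 * n := by
      calc Y ^ 2 * Y ^ 16 = Y ^ 18 := by ring
        _ ≤ Y * n * Y := hQY.trans (h2.trans h4)
        _ = Y ^ 2 * n := by ring
    exact le_of_mul_le_mul_left h5 (by positivity)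
  have hlog : 1 + lq ≤ 2 * U := by
    have h2 : lX ≤ U := by
      by_contra hcon
      push Not at hcon
      have h3 : (1 : ℝ) ≤ lX := by linarith
      have h4 : lX ≤ lX ^ 50 := le_self_pow₀ h3 (by norm_num)
      linarith
    linarith
  have hzN : z ≤ N := by
    refine hzY1.trans (le_trans ?_ hN)
    exact le_self_pow₀ hY (by norm_num)
  have hqE : Q / N ≤ 1 := by
    rw [div_le_one hN0]
    exact hQ21.trans ((pow_le_pow_right₀ hY (by norm_num)).trans hN)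
  have hz0 : (0 : ℝ) < z := by linarith
  have hTb : T ≤ n / U ^ 50 + 2 * U := by
    have h1 : (1 + lq) / N ≤ 2 * U / z := by
      refine div_le_div₀ (by positivity) hlog hz0 hzN
    have h2 : (1 + lq) / N + U / z ≤ 3 * U / U ^ 60 := by
      have h3 : 2 * U / z + U / z = 3 * U / z := by ring
      have h4 : 3 * U / z ≤ 3 * U / U ^ 60 :=
        div_le_div_of_nonneg_left (by positivity) (by positivity) hUz
      linarith
    have h3 : Q / W * ((1 + lq) / N + U / z) ≤ U ^ 4 * n * (3 * U / U ^ 60) :=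
      mul_le_mul hA h2 (by positivity) (by positivity)
    have h4 : U ^ 4 * n * (3 * U / U ^ 60) ≤ n / U ^ 50 := by
      rw [mul_div_assoc', div_le_div_iff₀ (by positivity) (by positivity)]
      have h5 : (3 : ℝ) ≤ U ^ 5 := le_trans (by linarith) (le_self_pow₀ hU1 (by norm_num))
      calc U ^ 4 * n * (3 * U) * U ^ 50 = 3 * (n * U ^ 55) := by ring
        _ ≤ U ^ 5 * (n * U ^ 55) := mul_le_mul_of_nonneg_right h5 (by positivity)
        _ = n * U ^ 60 := by ring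
    rw [hT]
    linarith
  have hT0 : 0 ≤ T := by
    rw [hT]
    positivity
  have hF1 : U * (Q / W) * (U * T + T) ≤ U ^ 7 * n * T := by
    have h1 : U * T + T ≤ U ^ 2 * T := by
      have : U + 1 ≤ U ^ 2 := by nlinarith
      calc U * T + T = (U + 1) * T := by ring
        _ ≤ U ^ 2 * T := mul_le_mul_of_nonneg_right this hT0
    calc U * (Q / W) * (U * T + T) ≤ U * (U ^ 4 * n) * (U ^ 2 * T) :=
          mul_le_mul (mul_le_mul_of_nonneg_left hA hU0.le) h1 (by positivity) (by positivity)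
      _ = U ^ 7 * n * T := by ring
  have hF2 : U ^ 7 * n * T ≤ n ^ 2 / U ^ 43 + U ^ 9 * n := by
    have h1 : U ^ 7 * n * T ≤ U ^ 7 * n * (n / U ^ 50 + 2 * U) :=
      mul_le_mul_of_nonneg_left hTb (by positivity)
    have h2 : U ^ 7 * n * (n / U ^ 50) = n ^ 2 / U ^ 43 := by
      rw [mul_div_assoc', div_eq_div_iff (by positivity) (by positivity)]
      ring
    have h3 : U ^ 7 * n * (2 * U) ≤ U ^ 9 * n := by
      have : (2 : ℝ) ≤ U := by linarith
      calc U ^ 7 * n * (2 * U) = 2 * (U ^ 8 * n) := by ring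
        _ ≤ U * (U ^ 8 * n) := mul_le_mul_of_nonneg_right this (by positivity)
        _ = U ^ 9 * n := by ring
    rw [mul_add, h2] at h1
    linarith
  have hF3 : n ^ 2 / U ^ 43 ≤ n ^ 2 / U ^ 8 / 3 := by
    rw [div_div, div_le_div_iff₀ (by positivity) (by positivity)]
    have h5 : (3 : ℝ) ≤ U ^ 35 := le_trans (by linarith) (le_self_pow₀ hU1 (by norm_num))
    calc n ^ 2 * (U ^ 8 * 3) = 3 * (n ^ 2 * U ^ 8) := by ring
      _ ≤ U ^ 35 * (n ^ 2 * U ^ 8) := mul_le_mul_of_nonneg_right h5 (by positivity)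
      _ = n ^ 2 * U ^ 43 := by ring
  have hF4 : U ^ 9 * n ≤ n ^ 2 / U ^ 8 / 3 := by
    rw [div_div, le_div_iff₀ (by positivity)]
    have h5 : 3 * U ^ 17 ≤ n := by
      have h6 : 3 * U ^ 17 ≤ U ^ 60 := by
        calc 3 * U ^ 17 ≤ U ^ 43 * U ^ 17 := by
              refine mul_le_mul_of_nonneg_right ?_ (by positivity)
              exact le_trans (by linarith) (le_self_pow₀ hU1 (by norm_num))
          _ = U ^ 60 := by ring
      exact h6.trans (hUY.trans ((le_self_pow₀ hY (by norm_num)).trans hnY))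
    calc U ^ 9 * n * (U ^ 8 * 3) = (3 * U ^ 17) * n := by ring
      _ ≤ n * n := mul_le_mul_of_nonneg_right h5 hn0
      _ = n ^ 2 := by ring
  have hF5 : U * (n * (W ^ 2 * U ^ 2) ^ 2) ≤ n ^ 2 / U ^ 8 / 3 := by
    rw [div_div, le_div_iff₀ (by positivity)]
    have h5 : 3 * U ^ 13 * W ^ 4 ≤ n := by
      have h6 : 3 * U ^ 13 ≤ U ^ 60 := by
        calc 3 * U ^ 13 ≤ U ^ 47 * U ^ 13 := by
              refine mul_le_mul_of_nonneg_right ?_ (by positivity)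
              exact le_trans (by linarith) (le_self_pow₀ hU1 (by norm_num))
          _ = U ^ 60 := by ring
      calc 3 * U ^ 13 * W ^ 4 ≤ Y * Y ^ 4 := by
            refine mul_le_mul (h6.trans hUY) (pow_le_pow_left₀ hW.le hWY 4) (by positivity) (by positivity)
        _ = Y ^ 5 := by ring
        _ ≤ Y ^ 16 := pow_le_pow_right₀ hY (by norm_num)
        _ ≤ n := hnY
    calc U * (n * (W ^ 2 * U ^ 2) ^ 2) * (U ^ 8 * 3) = (3 * U ^ 13 * W ^ 4) * n := by ring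
      _ ≤ n * n := mul_le_mul_of_nonneg_right h5 hn0
      _ = n ^ 2 := by ring
  linarith

open Classical in
/-- the pure sum -/
theorem col_sum (he : e.Ok) (hP3 : e.P3) (h : DH e k0 B cr eps g Ns qs k qlo qhi s dl a0 lo hi) (a : ℤ) (ha : a ≠ 0)
    (ha' : |a| ≤ (e.X : ℤ) ^ 2) :
    ∑ q ∈ e.Qs qs qlo qhi k a, ∑ r ∈ (e.Qs qs qlo qhi k a).filter (fun r : ℕ =>
        ¬ (q * ((q : ℤ) - k).natAbs).Coprime (r * ((r : ℤ) - k).natAbs)),
      (((q.gcd (r * ((r : ℤ) - k).natAbs) : ℕ) : ℝ) * (((q : ℤ) - k).natAbs.gcd (r * ((r : ℤ) - k).natAbs) : ℕ) *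
        e.eE (q.gcd (r * ((r : ℤ) - k).natAbs)) * e.eE (((q : ℤ) - k).natAbs.gcd (r * ((r : ℤ) - k).natAbs))) ≤
      ((e.Qs qs qlo qhi k a).card : ℝ) ^ 2 / e.U ^ 8 := by
  have hqn := qn he hP3 h ha ha'
  have hU := c1_U e he
  have hW0 : 0 < e.W := by unfold Env.W; exact primorial_pos _
  have hz : 1 ≤ e.z := by have := he.wz; omega
  have hY1 : 1 ≤ e.Y := le_trans (Nat.one_le_pow _ _ hz) he.zY
  have hq0 := h.hq0
  have hq1 := h.hq1
  obtain ⟨q2a, q2b, q2c⟩ := h.hq2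
  have hqhi2 : qhi ≤ 2 * qlo := by exact_mod_cast q2b
  have hqlo1 : 1 ≤ qlo := le_trans (Nat.one_le_pow _ _ hY1) hq0
  have hqq : qlo ≤ qhi := by
    have := abs_nonneg k
    omega
  have hqhi1 : 1 ≤ qhi := hqlo1.trans hqq
  set S := e.Qs qs qlo qhi k a with hS
  set n : ℝ := (S.card : ℝ) with hn
  have hn0 : 0 ≤ n := Nat.cast_nonneg _
  -- the two sums of `dE`
  have hinj : Set.InjOn (fun q : ℕ => ((q : ℤ) - k).natAbs) S := by
    intro x hx y hy hxy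
    obtain ⟨f1, -⟩ := c1_q he h hx
    obtain ⟨f2, -⟩ := c1_q he h hy
    have h3 : ((x : ℤ) - k).natAbs = ((y : ℤ) - k).natAbs := hxy
    rw [h3] at f1
    omega
  have hD1 := dE_sum e he qhi qs hqhi1 S (by
    intro m hm
    obtain ⟨e1, q1, q2, q3, q4, q5, q6, q7, q8, q9, q10, q11⟩ := c1_q he h hm
    exact ⟨q1, q2, q5, q7⟩)
  have hD2 := dE_sum e he qhi qs hqhi1 (S.image fun q : ℕ => ((q : ℤ) - k).natAbs) (by
    intro m hm
    obtain ⟨q, hq, rfl⟩ := mem_image.mp hm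
    obtain ⟨e1, q1, q2, q3, q4, q5, q6, q7, q8, q9, q10, q11⟩ := c1_q he h hq
    exact ⟨q3, q4, q6, q8⟩)
  rw [Finset.sum_image hinj] at hD2
  set T : ℝ := (qhi : ℝ) / e.W * ((1 + Real.log qhi) / e.E.card + e.U / e.z) + (qhi / e.E.card + e.U) with hT
  have hUR : (100 : ℝ) ≤ e.U := by exact_mod_cast hU
  have hWR : (0 : ℝ) < e.W := by exact_mod_cast hW0
  have hmain : ∑ q ∈ S, ∑ r ∈ S.filter (fun r : ℕ =>
        ¬ (q * ((q : ℤ) - k).natAbs).Coprime (r * ((r : ℤ) - k).natAbs)),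
      (((q.gcd (r * ((r : ℤ) - k).natAbs) : ℕ) : ℝ) * (((q : ℤ) - k).natAbs.gcd (r * ((r : ℤ) - k).natAbs) : ℕ) *
        e.eE (q.gcd (r * ((r : ℤ) - k).natAbs)) * e.eE (((q : ℤ) - k).natAbs.gcd (r * ((r : ℤ) - k).natAbs))) ≤
      e.U * (qhi / e.W) * (e.U * T + T) + e.U * (n * ((e.W : ℝ) ^ 2 * e.U ^ 2) ^ 2) := by
    calc _ ≤ ∑ q ∈ S, (e.U * ((qhi : ℝ) / e.W) * (e.U * dE e q + dE e ((q : ℤ) - k).natAbs) +
          e.U * (e.sE q * e.sE ((q : ℤ) - k).natAbs)) := Finset.sum_le_sum fun q hq => c1_row he h a q hq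
      _ ≤ ∑ q ∈ S, (e.U * ((qhi : ℝ) / e.W) * (e.U * dE e q + dE e ((q : ℤ) - k).natAbs) +
          e.U * ((e.W : ℝ) ^ 2 * e.U ^ 2) ^ 2) := by
          refine Finset.sum_le_sum fun q hq => ?_
          obtain ⟨e1, q1, q2, q3, q4, q5, q6, q7, q8, q9, q10, q11⟩ := c1_q he h hq
          have s0 : 0 ≤ e.sE q := by
            unfold Env.sE
            exact Finset.sum_nonneg fun u _ => mul_nonneg (Nat.cast_nonneg _) (eE_nonneg e u).1
          have s1 : 0 ≤ e.sE ((q : ℤ) - k).natAbs := by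
            unfold Env.sE
            exact Finset.sum_nonneg fun u _ => mul_nonneg (Nat.cast_nonneg _) (eE_nonneg e u).1
          have s2 : e.sE q * e.sE ((q : ℤ) - k).natAbs ≤ ((e.W : ℝ) ^ 2 * e.U ^ 2) ^ 2 := by
            rw [sq ((e.W : ℝ) ^ 2 * e.U ^ 2)]
            exact mul_le_mul q10 q11 s1 (by positivity)
          have s3 := mul_le_mul_of_nonneg_left s2 (show (0 : ℝ) ≤ e.U by positivity)
          linarith
      _ = e.U * ((qhi : ℝ) / e.W) * (e.U * (∑ q ∈ S, dE e q) + ∑ q ∈ S, dE e ((q : ℤ) - k).natAbs) +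
          e.U * (n * ((e.W : ℝ) ^ 2 * e.U ^ 2) ^ 2) := by
          rw [Finset.sum_add_distrib, ← Finset.mul_sum, Finset.sum_add_distrib, ← Finset.mul_sum, Finset.sum_const,
            nsmul_eq_mul]
          ring
      _ ≤ _ := by
          have h5 : (0 : ℝ) ≤ e.U * ((qhi : ℝ) / e.W) := by positivity
          have h6 : (0 : ℝ) ≤ e.U := by positivity
          have h7 : e.U * (∑ q ∈ S, dE e q) + ∑ q ∈ S, dE e ((q : ℤ) - k).natAbs ≤ e.U * T + T :=
            add_le_add (mul_le_mul_of_nonneg_left hD1 h6) hD2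
          have h8 := mul_le_mul_of_nonneg_left h7 h5
          linarith
  refine hmain.trans ?_
  have h21 : e.Y ^ 21 ≤ e.X := (Nat.pow_le_pow_right hY1 (by norm_num)).trans he.YX
  refine c1_num e.U e.W e.Y e.z e.E.card n qhi (Real.log qhi) T (Real.log e.X) hUR hWR (by exact_mod_cast hY1)
    (by exact_mod_cast hz) (by exact_mod_cast he.Uz) (by exact_mod_cast he.zY) (by exact_mod_cast he.W)
    (by exact_mod_cast he.E0) hn0 (Nat.cast_nonneg _) ?_ (by exact_mod_cast hq0.trans hqq) (by exact_mod_cast hq1)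
    (Real.log_nonneg (by exact_mod_cast hqhi1)) ?_ he.logU hT
  · have h1 : (qhi : ℝ) ≤ 2 * qlo := by exact_mod_cast hqhi2
    linarith
  · exact Real.log_le_log (by exact_mod_cast hqhi1) (by exact_mod_cast hq1.trans h21)

end Pool.Agent.Lib.EX
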