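import Pool.Agent.Lib.MP_61161c_nt.EX.Rs
import Pool.Agent.Lib.MP_61161c_nt.EX.Col1

/-!
# EX, module Col: pairs of paths whose moduli are not coprime

PROOF. `m = q q'`, `m' = r r'` (`r' = r - k`), `u = (q, r r')`, `u' = (q', r r')`: `(m, m') = u u'` (`q`, `q'` coprime). A common `n` gives `G n = γ` modulo `r r'`
with `γ` determined by the second path, so `u ∣ n1' - n1 + γ` and `u' ∣ n2' - n2 + eps γ + q g`: given the second path and `q` at most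
`|E|^4 eE u * eE u'` choices of the four E-parameters (`eE_cls`); and `m m' #{n} ≤ m m' (L/lcm + 1) ≤ 2 u u' L`. So the sum is
`≤ 2 L |E|^8 ∑_{q, r} u u' eE u eE u' [u u' > 1]`. Given `q` and `v ∣ q`, `v' ∣ q'` the number of `r` in the window with `v v' ∣ r r'` and `r ≡ qs` mod `W`
is `≤ U (qhi/(W v v') + 1)` (for `v v' = v1 v2`, `v1 = (v v', r)`, `v2 = (v v', r')`: one class modulo `W v v'`; `≤ U` factorisations). Hence
`∑_{q,r} ≤ U (qhi/W) ∑_q (∑_{v ∣ q} eE v ∑_{v' ∣ q'} eE v' - 1) + U ∑_q sE q sE q'`, the first by `eE_sum`, `eE_sum_div`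
(`∑_q ∑_{1 < v ∣ q} eE v ≤ (qhi/W) ((1 + log)/|E| + U/z) + qhi/|E| + U`), the second `≤ U |Qs| W^4 U^4`. Compare with `|Qs| ≥ qlo/(10^5 W U)`, `z ≥ U^60`.
-/

set_option autoImplicit false

open Finset

namespace Pool.Agent.Lib.EX

variable {e : Env} {k0 B cr : ℕ} {eps g : ℤ} {Ns qs : ℕ} {k : ℤ} {qlo qhi : ℕ} {s dl : ℝ} {a0 lo hi : ℤ}
  {t : Frm} {Fs : List Frm} {A L : ℕ} {G : Frm}

/-- `(q, r r')` -/
private def cu (k : ℤ) (q r : ℕ) : ℕ := q.gcd (r * ((r : ℤ) - k).natAbs)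

/-- `(q', r r')` -/
private def cv (k : ℤ) (q r : ℕ) : ℕ := ((q : ℤ) - k).natAbs.gcd (r * ((r : ℤ) - k).natAbs)

/-- sum over the family of paths -/
private theorem tt_sum (e : Env) (qs qlo qhi : ℕ) (k a : ℤ) (f : Th → ℝ) :
    ∑ θ ∈ e.TT qs qlo qhi k a, f θ = ∑ q ∈ e.Qs qs qlo qhi k a, ∑ x ∈ e.E ×ˢ e.E, ∑ y ∈ e.E ×ˢ e.E,
      f ⟨q, x.1, x.2, y.1, y.2⟩ := by
  unfold Env.TT
  rw [sum_image]
  · rw [sum_product]
    refine sum_congr rfl fun q _ => ?_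
    rw [sum_product]
  · rintro ⟨q, ⟨a1, a2⟩, a3, a4⟩ _ ⟨q', ⟨b1, b2⟩, b3, b4⟩ _ h
    simp only [Th.mk.injEq] at h
    obtain ⟨rfl, rfl, rfl, rfl, rfl⟩ := h
    rfl

/-- two residue classes -/
private theorem cnt2 (m m' c c' A L : ℕ) (hm : 0 < m) (hm' : 0 < m') (hL : m * m' ≤ L) :
    (m : ℝ) * m' * ((Ico A (A + L)).filter fun n : ℕ => n % m = c ∧ n % m' = c').card ≤ 2 * L * (m.gcd m' : ℕ) := by
  rcases ((Ico A (A + L)).filter fun n : ℕ => n % m = c ∧ n % m' = c').eq_empty_or_nonempty with h0 | ⟨n0, hn0⟩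
  · rw [h0, card_empty, Nat.cast_zero, mul_zero]; positivity
  rw [mem_filter] at hn0
  have hl : 0 < m.lcm m' := Nat.lcm_pos hm hm'
  have hsub : ((Ico A (A + L)).filter fun n : ℕ => n % m = c ∧ n % m' = c') ⊆
      (Ico A (A + L)).filter fun n : ℕ => n ≡ n0 [MOD m.lcm m'] := by
    intro n hn
    rw [mem_filter] at hn ⊢
    refine ⟨hn.1, ?_⟩
    have h1 : n ≡ n0 [MOD m] := by rw [Nat.ModEq, hn.2.1, hn0.2.1]
    have h2 : n ≡ n0 [MOD m'] := by rw [Nat.ModEq, hn.2.2, hn0.2.2]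
    rw [Nat.modEq_iff_dvd] at h1 h2 ⊢
    rw [← Int.natAbs_dvd_natAbs, Int.natAbs_natCast] at h1 h2 ⊢
    exact Nat.lcm_dvd h1 h2
  have hc := card_le_card hsub
  have hcr : ((((Ico A (A + L)).filter fun n : ℕ => n % m = c ∧ n % m' = c').card : ℕ) : ℝ) ≤ L / (m.lcm m' : ℕ) + 1 := by
    have h1 := Nat.Ico_filter_modEq_card A (A + L) hl n0
    have hlQ : (0 : ℚ) < ((m.lcm m' : ℕ) : ℚ) := by exact_mod_cast hl
    have h2 : ((((Ico A (A + L)).filter fun n : ℕ => n ≡ n0 [MOD m.lcm m']).card : ℤ) : ℚ) ≤ L / (m.lcm m' : ℕ) + 1 := by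
      rw [h1]
      push_cast
      refine max_le ?_ (by positivity)
      have h3 := Int.ceil_lt_add_one (((A : ℚ) + L - n0) / ((m.lcm m' : ℕ) : ℚ))
      have h4 := Int.le_ceil (((A : ℚ) - n0) / ((m.lcm m' : ℕ) : ℚ))
      have h5 : ((A : ℚ) + L - n0) / ((m.lcm m' : ℕ) : ℚ) = L / ((m.lcm m' : ℕ) : ℚ) + ((A : ℚ) - n0) / ((m.lcm m' : ℕ) : ℚ) := by
        ring
      linarith
    have h6 : ((((Ico A (A + L)).filter fun n : ℕ => n ≡ n0 [MOD m.lcm m']).card : ℕ) : ℝ) ≤ L / (m.lcm m' : ℕ) + 1 := by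
      have h7 : ((((Ico A (A + L)).filter fun n : ℕ => n ≡ n0 [MOD m.lcm m']).card : ℕ) : ℚ) ≤
        L / (m.lcm m' : ℕ) + 1 := by exact_mod_cast h2
      have h8 := (Rat.cast_le (K := ℝ)).2 h7
      push_cast at h8
      exact h8
    refine le_trans ?_ h6
    exact_mod_cast hc
  have hlr : (0 : ℝ) < ((m.lcm m' : ℕ) : ℝ) := by exact_mod_cast hl
  have hgl : ((m : ℝ) * m') = ((m.gcd m' : ℕ) : ℝ) * ((m.lcm m' : ℕ) : ℝ) := by
    exact_mod_cast (Nat.gcd_mul_lcm m m').symm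
  have hll : ((m.lcm m' : ℕ) : ℝ) ≤ L := by
    have : m.lcm m' ≤ m * m' := Nat.le_of_dvd (Nat.mul_pos hm hm') (Nat.lcm_dvd_mul m m')
    exact_mod_cast this.trans hL
  have hg0 : (0 : ℝ) ≤ ((m.gcd m' : ℕ) : ℝ) := Nat.cast_nonneg _
  calc (m : ℝ) * m' * ((((Ico A (A + L)).filter fun n : ℕ => n % m = c ∧ n % m' = c').card : ℕ) : ℝ)
      ≤ (m : ℝ) * m' * (L / (m.lcm m' : ℕ) + 1) := mul_le_mul_of_nonneg_left hcr (by positivity)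
    _ = ((m.gcd m' : ℕ) : ℝ) * (L + (m.lcm m' : ℕ)) := by
      rw [hgl]; field_simp
    _ ≤ ((m.gcd m' : ℕ) : ℝ) * (L + L) := by gcongr
    _ = 2 * L * ((m.gcd m' : ℕ) : ℝ) := by ring

/-- `10^7 ≤ Y^2` -/
private theorem Y2 (he : e.Ok) : 10 ^ 7 ≤ e.Y ^ 2 := by
  have h1 := he.w
  have h2 := he.wz
  have h3 := he.zY
  have h4 : 201 ≤ e.z := by omega
  have h5 : 201 ^ 2 ≤ e.Y := (Nat.pow_le_pow_left h4 2).trans h3
  calc 10 ^ 7 ≤ (201 ^ 2) ^ 2 := by norm_num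
    _ ≤ e.Y ^ 2 := Nat.pow_le_pow_left h5 2

private theorem Y1 (he : e.Ok) : 1 ≤ e.Y := by
  by_contra h
  have h0 : e.Y = 0 := by omega
  have := Y2 he
  rw [h0] at this
  norm_num at this

private theorem qhi1 (he : e.Ok) (h : DH e k0 B cr eps g Ns qs k qlo qhi s dl a0 lo hi) : 1 ≤ qhi := by
  have h1 := h.hq0
  have h2 := h.hq2.1
  have h3 : 1 ≤ e.Y ^ 18 := Nat.one_le_pow _ _ (Y1 he)
  have h4 : 1 ≤ qlo := h3.trans h1
  have h5 : (0 : ℤ) ≤ |k| := abs_nonneg k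
  omega

private theorem ga98 (he : e.Ok) (h : DH e k0 B cr eps g Ns qs k qlo qhi s dl a0 lo hi)
    (hG : BD e k0 B cr (eps * k * g) a0 lo hi t Fs A L G) : |G.a| ≤ (e.Y : ℤ) ^ 98 := by
  have h1 := h.ha0
  have h2 : (1 : ℤ) ≤ (qhi : ℤ) ^ 2 := by
    have : (1 : ℤ) ≤ qhi := by exact_mod_cast qhi1 he h
    nlinarith
  have h3 : a0 ≤ a0 * (qhi : ℤ) ^ 2 := le_mul_of_one_le_right h1.1 h2
  exact (hG.ga.trans h3).trans h1.2

private theorem Lbig (he : e.Ok) (h : DH e k0 B cr eps g Ns qs k qlo qhi s dl a0 lo hi)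
    (hG : BD e k0 B cr (eps * k * g) a0 lo hi t Fs A L G) : e.Y ^ 84 ≤ L := by
  by_contra hcon
  rw [not_le] at hcon
  have hcon' : (L : ℤ) ≤ (e.Y : ℤ) ^ 84 := by exact_mod_cast hcon.le
  have h1 := hG.cr
  have h2 := ga98 he h hG
  have h3 : (cr : ℤ) ≤ (e.Y : ℤ) ^ 2 := by
    have : cr ≤ e.Y ^ 2 := h.hcr.trans (Y2 he)
    exact_mod_cast this
  have hY0 : (0 : ℤ) ≤ (e.Y : ℤ) := Int.natCast_nonneg _
  have h4 : (cr : ℤ) * (|G.a| * L) ≤ (e.Y : ℤ) ^ 2 * ((e.Y : ℤ) ^ 98 * (e.Y : ℤ) ^ 84) := by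
    refine mul_le_mul h3 (mul_le_mul h2 hcon' (Int.natCast_nonneg _) (by positivity)) (by positivity) (by positivity)
  have h5 : (e.X : ℤ) ≤ (e.Y : ℤ) ^ 184 := by
    calc (e.X : ℤ) ≤ _ := h1.trans h4
      _ = (e.Y : ℤ) ^ 184 := by ring
  have h6 : e.X ≤ e.Y ^ 184 := by exact_mod_cast h5
  have h7 := he.YX
  have h8 : e.Y ^ 10000 ≤ e.Y ^ 184 := h7.trans h6
  have hY2 : 2 ≤ e.Y := by
    by_contra hc
    have h9 : e.Y = 1 := by have := Y1 he; omega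
    have := Y2 he
    rw [h9] at this
    norm_num at this
  have h10 := (Nat.pow_le_pow_iff_right (by omega : 1 < e.Y)).1 h8
  omega

private theorem ga_ne (he : e.Ok) (hG : BD e k0 B cr (eps * k * g) a0 lo hi t Fs A L G) : G.a ≠ 0 := by
  intro h0
  have h1 := hG.gd.1 2 Nat.prime_two (by have := he.w; have := he.wz; omega)
  rw [h0] at h1
  exact h1 (dvd_zero _)

open Classical in
/-- one pair of paths -/
private theorem pair (he : e.Ok) (h : DH e k0 B cr eps g Ns qs k qlo qhi s dl a0 lo hi)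
    (hG : BD e k0 B cr (eps * k * g) a0 lo hi t Fs A L G) {θ θ' : Th} (hθ : θ ∈ e.TT qs qlo qhi k G.a)
    (hθ' : θ' ∈ e.TT qs qlo qhi k G.a) (c' : ℕ) (hc' : ∀ n : ℕ, θ'.Dv eps g k G n ↔ n % θ'.mo k = c') :
    (θ.mo k : ℝ) * θ'.mo k * ((Finset.Ico A (A + L)).filter fun n : ℕ =>
        θ.Dv eps g k G n ∧ θ'.Dv eps g k G n).card ≤
      2 * L * ((cu k θ.q θ'.q : ℝ) * cv k θ.q θ'.q) *
        (if ((cu k θ.q θ'.q : ℕ) : ℤ) ∣ (θ.n1' : ℤ) - θ.n1 - (-G.ev c') then 1 else 0) *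
        (if ((cv k θ.q θ'.q : ℕ) : ℤ) ∣ (θ.n2' : ℤ) - θ.n2 - (-(eps * G.ev c' + θ.q * g)) then 1 else 0) := by
  obtain ⟨c, -, hc⟩ := rs (G := G) h hθ
  rcases ((Finset.Ico A (A + L)).filter fun n : ℕ =>
    θ.Dv eps g k G n ∧ θ'.Dv eps g k G n).eq_empty_or_nonempty with h0 | ⟨n0, hn0⟩
  · rw [h0, card_empty, Nat.cast_zero, mul_zero]
    refine mul_nonneg (mul_nonneg (by positivity) ?_) ?_
    · split_ifs <;> norm_num
    · split_ifs <;> norm_num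
  rw [mem_filter] at hn0
  obtain ⟨-, hn1, hn2⟩ := hn0
  have hm' : (θ'.mo k : ℤ) ∣ (n0 : ℤ) - c' := by
    have h1 := (hc' n0).1 hn2
    have h2 : (n0 : ℤ) % (θ'.mo k : ℤ) = c' := by exact_mod_cast h1
    rw [← h2]
    exact Int.dvd_self_sub_emod
  have hev : (θ'.mo k : ℤ) ∣ G.ev n0 - G.ev c' := by
    have h1 : G.ev n0 - G.ev c' = G.a * ((n0 : ℤ) - c') := by unfold Frm.ev; ring
    rw [h1]
    exact hm'.mul_left _
  have hu1 : ((cu k θ.q θ'.q : ℕ) : ℤ) ∣ (θ'.mo k : ℤ) := by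
    exact_mod_cast Nat.gcd_dvd_right _ _
  have hu2 : ((cu k θ.q θ'.q : ℕ) : ℤ) ∣ (θ.q : ℤ) := by
    exact_mod_cast Nat.gcd_dvd_left _ _
  have hv1 : ((cv k θ.q θ'.q : ℕ) : ℤ) ∣ (θ'.mo k : ℤ) := by
    exact_mod_cast Nat.gcd_dvd_right _ _
  have hv2 : ((cv k θ.q θ'.q : ℕ) : ℤ) ∣ (θ.q : ℤ) - k := by
    rw [← Int.dvd_natAbs]
    exact_mod_cast Nat.gcd_dvd_left _ _
  have hd1 : ((cu k θ.q θ'.q : ℕ) : ℤ) ∣ (θ.n1' : ℤ) - θ.n1 - (-G.ev c') := by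
    have h1 := hu2.trans hn1.1
    have h2 := hu1.trans hev
    have h3 : (θ.n1' : ℤ) - θ.n1 - (-G.ev c') = (θ.F2 G).ev n0 - (G.ev n0 - G.ev c') := by
      unfold Th.F2 Frm.af Frm.ev; ring
    rw [h3]
    exact dvd_sub h1 h2
  have hd2 : ((cv k θ.q θ'.q : ℕ) : ℤ) ∣ (θ.n2' : ℤ) - θ.n2 - (-(eps * G.ev c' + θ.q * g)) := by
    have h1 := hv2.trans hn1.2
    have h2 := hv1.trans hev
    have h3 : (θ.n2' : ℤ) - θ.n2 - (-(eps * G.ev c' + θ.q * g)) =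
        (θ.F8 eps g G).ev n0 - (G.ev n0 - G.ev c') * eps := by
      unfold Th.F8 Th.F6 Frm.af Frm.ev; ring
    rw [h3]
    exact dvd_sub h1 (h2.mul_right _)
  rw [if_pos hd1, if_pos hd2, mul_one, mul_one]
  have hf : ((Finset.Ico A (A + L)).filter fun n : ℕ => θ.Dv eps g k G n ∧ θ'.Dv eps g k G n) =
      (Finset.Ico A (A + L)).filter fun n : ℕ => n % θ.mo k = c ∧ n % θ'.mo k = c' := by
    refine filter_congr fun n _ => ?_
    rw [hc n, hc' n]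
  obtain ⟨-, -, hp1, hq1, hy⟩ := mo_F he h hθ
  obtain ⟨-, -, hp2, hq2, -⟩ := mo_F he h hθ'
  have hL : θ.mo k * θ'.mo k ≤ L := by
    calc θ.mo k * θ'.mo k ≤ e.Y ^ 42 * e.Y ^ 42 := Nat.mul_le_mul (hq1.trans hy) (hq2.trans hy)
      _ = e.Y ^ 84 := by ring
      _ ≤ L := Lbig he h hG
  have hcp : θ.q.Coprime ((θ.q : ℤ) - k).natAbs := by
    have h1 := (tt_mem hθ).1.2.2.2.2.2.2.2.1
    rw [Int.isCoprime_iff_gcd_eq_one] at h1
    exact h1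
  have hgcd : (θ.mo k).gcd (θ'.mo k) = cu k θ.q θ'.q * cv k θ.q θ'.q := by
    unfold Th.mo cu cv
    exact Nat.Coprime.mul_gcd hcp _
  rw [hf]
  refine (cnt2 _ _ c c' A L hp1 hp2 hL).trans (le_of_eq ?_)
  rw [hgcd]
  push_cast
  ring

open Classical in
/-- the sum over one path, the other fixed -/
private theorem one_sum (he : e.Ok) (h : DH e k0 B cr eps g Ns qs k qlo qhi s dl a0 lo hi)
    (hG : BD e k0 B cr (eps * k * g) a0 lo hi t Fs A L G) {θ' : Th} (hθ' : θ' ∈ e.TT qs qlo qhi k G.a) :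
    ∑ θ ∈ e.TT qs qlo qhi k G.a, (if ¬ (θ.mo k).Coprime (θ'.mo k) then
      ((θ.mo k : ℝ) * θ'.mo k * ((Finset.Ico A (A + L)).filter fun n : ℕ =>
        θ.Dv eps g k G n ∧ θ'.Dv eps g k G n).card) else 0) ≤
    ∑ q ∈ e.Qs qs qlo qhi k G.a, (if ¬ (q * ((q : ℤ) - k).natAbs).Coprime (θ'.q * ((θ'.q : ℤ) - k).natAbs) then
      2 * L * (e.E.card : ℝ) ^ 4 * ((cu k q θ'.q : ℝ) * cv k q θ'.q * e.eE (cu k q θ'.q) * e.eE (cv k q θ'.q)) else 0) := by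
  obtain ⟨c', -, hc'⟩ := rs (G := G) h hθ'
  have hθ'q : 0 < θ'.q * ((θ'.q : ℤ) - k).natAbs := (mo_F he h hθ').2.2.1
  have h1 : ∑ θ ∈ e.TT qs qlo qhi k G.a, (if ¬ (θ.mo k).Coprime (θ'.mo k) then
      ((θ.mo k : ℝ) * θ'.mo k * ((Finset.Ico A (A + L)).filter fun n : ℕ =>
        θ.Dv eps g k G n ∧ θ'.Dv eps g k G n).card) else 0) ≤
      ∑ θ ∈ e.TT qs qlo qhi k G.a, (if ¬ (θ.mo k).Coprime (θ'.mo k) then
      (2 * L * ((cu k θ.q θ'.q : ℝ) * cv k θ.q θ'.q) *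
        (if ((cu k θ.q θ'.q : ℕ) : ℤ) ∣ (θ.n1' : ℤ) - θ.n1 - (-G.ev c') then 1 else 0) *
        (if ((cv k θ.q θ'.q : ℕ) : ℤ) ∣ (θ.n2' : ℤ) - θ.n2 - (-(eps * G.ev c' + θ.q * g)) then 1 else 0)) else 0) := by
    refine sum_le_sum fun θ hθ => ?_
    by_cases hcp : (θ.mo k).Coprime (θ'.mo k)
    · rw [if_neg (not_not.2 hcp), if_neg (not_not.2 hcp)]
    · rw [if_pos hcp, if_pos hcp]
      exact pair he h hG hθ hθ' c' hc'
  refine h1.trans ?_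
  rw [tt_sum]
  refine sum_le_sum fun q _ => ?_
  unfold Th.mo
  by_cases hcp : (q * ((q : ℤ) - k).natAbs).Coprime (θ'.q * ((θ'.q : ℤ) - k).natAbs)
  · rw [if_neg (not_not.2 hcp)]
    refine sum_nonpos fun x _ => sum_nonpos fun y _ => ?_
    rw [if_neg (not_not.2 hcp)]
  simp_rw [if_pos hcp]
  have hu0 : 0 < cu k q θ'.q := Nat.gcd_pos_of_pos_right _ hθ'q
  have hv0 : 0 < cv k q θ'.q := Nat.gcd_pos_of_pos_right _ hθ'q
  have hx := eE_cls e _ hu0 (-G.ev c')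
  have hy := eE_cls e _ hv0 (-(eps * G.ev c' + q * g))
  have h2 : ∑ x ∈ e.E ×ˢ e.E, ∑ y ∈ e.E ×ˢ e.E, 2 * (L : ℝ) * ((cu k q θ'.q : ℝ) * cv k q θ'.q) *
        (if ((cu k q θ'.q : ℕ) : ℤ) ∣ (x.2 : ℤ) - x.1 - (-G.ev c') then 1 else 0) *
        (if ((cv k q θ'.q : ℕ) : ℤ) ∣ (y.2 : ℤ) - y.1 - (-(eps * G.ev c' + q * g)) then 1 else 0) =
      2 * (L : ℝ) * ((cu k q θ'.q : ℝ) * cv k q θ'.q) *
        (((e.E ×ˢ e.E).filter fun x => ((cu k q θ'.q : ℕ) : ℤ) ∣ (x.2 : ℤ) - x.1 - (-G.ev c')).card : ℝ) *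
        (((e.E ×ˢ e.E).filter fun x => ((cv k q θ'.q : ℕ) : ℤ) ∣ (x.2 : ℤ) - x.1 - (-(eps * G.ev c' + q * g))).card : ℝ) := by
    rw [card_filter, card_filter]
    push_cast
    rw [mul_assoc (2 * (L : ℝ) * ((cu k q θ'.q : ℝ) * cv k q θ'.q)) (∑ x ∈ _, _) (∑ x ∈ _, _), sum_mul_sum, mul_sum]
    refine sum_congr rfl fun x _ => ?_
    rw [mul_sum]
    refine sum_congr rfl fun y _ => ?_
    rw [mul_assoc]
  rw [h2]
  have hE1 := eE_nonneg e (cu k q θ'.q)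
  calc 2 * (L : ℝ) * ((cu k q θ'.q : ℝ) * cv k q θ'.q) *
        (((e.E ×ˢ e.E).filter fun x => ((cu k q θ'.q : ℕ) : ℤ) ∣ (x.2 : ℤ) - x.1 - (-G.ev c')).card : ℝ) *
        (((e.E ×ˢ e.E).filter fun x => ((cv k q θ'.q : ℕ) : ℤ) ∣ (x.2 : ℤ) - x.1 - (-(eps * G.ev c' + q * g))).card : ℝ)
      ≤ 2 * (L : ℝ) * ((cu k q θ'.q : ℝ) * cv k q θ'.q) * ((e.E.card : ℝ) ^ 2 * e.eE (cu k q θ'.q)) *
        ((e.E.card : ℝ) ^ 2 * e.eE (cv k q θ'.q)) := by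
        have := hE1.1
        gcongr
    _ = _ := by ring

open Classical in
theorem col (he : e.Ok) (hP3 : e.P3) (h : DH e k0 B cr eps g Ns qs k qlo qhi s dl a0 lo hi)
    (hG : BD e k0 B cr (eps * k * g) a0 lo hi t Fs A L G) :
    ∑ x ∈ (e.TT qs qlo qhi k G.a ×ˢ e.TT qs qlo qhi k G.a).filter (fun x => ¬ (x.1.mo k).Coprime (x.2.mo k)),
      ((x.1.mo k : ℝ) * x.2.mo k * ((Finset.Ico A (A + L)).filter fun n : ℕ =>
        x.1.Dv eps g k G n ∧ x.2.Dv eps g k G n).card) ≤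
      ((e.TT qs qlo qhi k G.a).card : ℝ) ^ 2 * L / e.U ^ 7 := by
  have hga : |G.a| ≤ (e.X : ℤ) ^ 2 := by
    have h1 := ga98 he h hG
    have h2 : (e.Y : ℤ) ^ 98 ≤ (e.X : ℤ) ^ 2 := by
      have hX : 1 ≤ e.X := (Nat.one_le_pow _ _ (Y1 he)).trans he.YX
      have h3 : e.Y ^ 98 ≤ e.X ^ 2 :=
        ((Nat.pow_le_pow_right (Y1 he) (by norm_num)).trans he.YX).trans (Nat.le_self_pow (by norm_num) _)
      exact_mod_cast h3
    exact h1.trans h2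
  have hcs := col_sum he hP3 h G.a (ga_ne he hG) hga
  have hU : (2 : ℝ) ≤ e.U := by
    have h1 := he.etaU
    have h2 := he.eta1
    have h3 : (0 : ℝ) ≤ e.U := Nat.cast_nonneg _
    nlinarith
  rw [sum_filter, sum_product, sum_comm]
  have h1 : ∀ θ' ∈ e.TT qs qlo qhi k G.a, ∑ θ ∈ e.TT qs qlo qhi k G.a, (if ¬ (θ.mo k).Coprime (θ'.mo k) then
      ((θ.mo k : ℝ) * θ'.mo k * ((Finset.Ico A (A + L)).filter fun n : ℕ =>
        θ.Dv eps g k G n ∧ θ'.Dv eps g k G n).card) else 0) ≤ _ := fun θ' hθ' => one_sum he h hG hθ'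
  refine (sum_le_sum h1).trans ?_
  rw [tt_sum]
  simp only [sum_const, nsmul_eq_mul, card_product]
  rw [tt_card]
  push_cast
  have h2 : ∑ r ∈ e.Qs qs qlo qhi k G.a, ((e.E.card : ℝ) * e.E.card) * (((e.E.card : ℝ) * e.E.card) *
      ∑ q ∈ e.Qs qs qlo qhi k G.a, (if ¬ (q * ((q : ℤ) - k).natAbs).Coprime (r * ((r : ℤ) - k).natAbs) then
      2 * (L : ℝ) * (e.E.card : ℝ) ^ 4 * ((cu k q r : ℝ) * cv k q r * e.eE (cu k q r) * e.eE (cv k q r)) else 0)) =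
      2 * L * (e.E.card : ℝ) ^ 8 * ∑ q ∈ e.Qs qs qlo qhi k G.a, ∑ r ∈ (e.Qs qs qlo qhi k G.a).filter (fun r : ℕ =>
        ¬ (q * ((q : ℤ) - k).natAbs).Coprime (r * ((r : ℤ) - k).natAbs)),
        ((cu k q r : ℝ) * cv k q r * e.eE (cu k q r) * e.eE (cv k q r)) := by
    rw [← mul_sum, ← mul_sum, sum_comm, mul_sum, mul_sum, mul_sum]
    refine sum_congr rfl fun q _ => ?_
    rw [sum_filter, mul_sum, mul_sum, mul_sum]
    refine sum_congr rfl fun r _ => ?_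
    split_ifs <;> ring
  rw [h2]
  have h3 : (0 : ℝ) ≤ 2 * L * (e.E.card : ℝ) ^ 8 := by positivity
  refine (mul_le_mul_of_nonneg_left hcs h3).trans ?_
  have hU0 : (0 : ℝ) < e.U := by linarith
  rw [mul_div_assoc', div_le_div_iff₀ (by positivity) (by positivity)]
  have h4 : (0 : ℝ) ≤ (L : ℝ) * (e.E.card : ℝ) ^ 8 * ((e.Qs qs qlo qhi k G.a).card : ℝ) ^ 2 * (e.U : ℝ) ^ 7 := by positivity
  calc 2 * (L : ℝ) * (e.E.card : ℝ) ^ 8 * ((e.Qs qs qlo qhi k G.a).card : ℝ) ^ 2 * (e.U : ℝ) ^ 7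
      = ((L : ℝ) * (e.E.card : ℝ) ^ 8 * ((e.Qs qs qlo qhi k G.a).card : ℝ) ^ 2 * (e.U : ℝ) ^ 7) * 2 := by ring
    _ ≤ ((L : ℝ) * (e.E.card : ℝ) ^ 8 * ((e.Qs qs qlo qhi k G.a).card : ℝ) ^ 2 * (e.U : ℝ) ^ 7) * e.U :=
      mul_le_mul_of_nonneg_left hU h4
    _ = _ := by ring

end Pool.Agent.Lib.EX
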