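import Pool.Agent.Lib.MP_61161c_nt.EX.Qn

/-!
# EX, module Col0 (lemma col_cnt; the text is that of module Col): pairs of paths whose moduli are not coprime

PROOF. `m = q q'`, `m' = r r'` (`r' = r - k`), `u = (q, r r')`, `u' = (q', r r')`: `(m, m') = u u'` (`q`, `q'` coprime). A common `n` gives `G n = γ` modulo `r r'`
with `γ` determined by the second path, so `u ∣ n1' - n1 + γ` and `u' ∣ n2' - n2 + eps γ + q g`: given the second path and `q` at most
`|E|^4 eE u * eE u'` choices of the four E-parameters (`eE_cls`); and `m m' #{n} ≤ m m' (L/lcm + 1) ≤ 2 u u' L`. So the sum is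
`≤ 2 L |E|^8 ∑_{q, r} u u' eE u eE u' [u u' > 1]`. Given `q` and `v ∣ q`, `v' ∣ q'` the number of `r` in the window with `v v' ∣ r r'` and `r ≡ qs` mod `W`
is `≤ U (qhi/(W v v') + 1)` (for `v v' = v1 v2`, `v1 = (v v', r)`, `v2 = (v v', r')`: one class modulo `W v v'`; `≤ U` factorisations). Hence
`∑_{q,r} ≤ U (qhi/W) ∑_q (∑_{v ∣ q} eE v ∑_{v' ∣ q'} eE v' - 1) + U ∑_q sE q sE q'`, the first by `eE_sum`, `eE_sum_div`
(`∑_q ∑_{1 < v ∣ q} eE v ≤ (qhi/W) ((1 + log)/|E| + U/z) + qhi/|E| + U`), the second `≤ U |Qs| W^4 U^4`. Compare with `|Qs| ≥ qlo/(10^5 W U)`, `z ≥ U^60`.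
-/

set_option autoImplicit false

open Finset
open Pool.Agent.Lib.GT (Rough)

namespace Pool.Agent.Lib.EX

variable {e : Env} {k0 B cr : ℕ} {eps g : ℤ} {Ns qs : ℕ} {k : ℤ} {qlo qhi : ℕ} {s dl : ℝ} {a0 lo hi : ℤ}
  {t : Frm} {Fs : List Frm} {A L : ℕ} {G : Frm}

private theorem col0_cls (p A B : ℕ) (hp : 0 < p) (hA : 1 ≤ A) (T : Finset ℕ) (hT : ∀ n ∈ T, A ≤ n ∧ n ≤ B)
    (hd : ∀ n ∈ T, ∀ n' ∈ T, (p : ℤ) ∣ (n : ℤ) - n') : (T.card : ℝ) ≤ (B : ℝ) / p + 1 := by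
  have h1 : T.card ≤ (Finset.range (B / p + 1)).card := by
    refine Finset.card_le_card_of_injOn (fun n => (n - A) / p) ?_ ?_
    · intro n hn
      obtain ⟨h1, h2⟩ := hT n hn
      rw [mem_coe, mem_range]
      have : (n - A) / p ≤ B / p := Nat.div_le_div_right (by omega)
      exact Nat.lt_succ_of_le this
    · intro n hn n' hn' h
      obtain ⟨h1, h2⟩ := hT n hn
      obtain ⟨h3, h4⟩ := hT n' hn'
      have h5 := hd n hn n' hn'
      have h6 : (n - A) / p = (n' - A) / p := h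
      have e1 := Nat.div_add_mod (n - A) p
      have e2 := Nat.div_add_mod (n' - A) p
      have l1 := Nat.mod_lt (n - A) hp
      have l2 := Nat.mod_lt (n' - A) hp
      rw [← h6] at e2
      have h7 : |(n : ℤ) - n'| < p := by
        rw [abs_lt]
        constructor <;> omega
      have h8 := Int.eq_zero_of_abs_lt_dvd h5 h7
      omega
  rw [Finset.card_range] at h1
  have h2 : (T.card : ℝ) ≤ ((B / p : ℕ) : ℝ) + 1 := by exact_mod_cast h1
  have h3 : ((B / p : ℕ) : ℝ) ≤ (B : ℝ) / p := Nat.cast_div_le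
  linarith

/-- a number without prime factors `≤ z` is coprime to `W` -/
private theorem col0_W (e : Env) (he : e.Ok) (v : ℕ) (hv : Sf e.z v) : Nat.Coprime v e.W := by
  rw [Nat.coprime_iff_gcd_eq_one]
  by_contra h
  obtain ⟨p, hp, hpd⟩ := Nat.exists_prime_and_dvd h
  have h1 : p ∣ v := hpd.trans (Nat.gcd_dvd_left _ _)
  have h2 : p ∣ e.W := hpd.trans (Nat.gcd_dvd_right _ _)
  have h3 : ¬ p ≤ e.z := fun hz => hv p hp hz (by exact_mod_cast h1)
  unfold Env.W primorial at h2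
  obtain ⟨q, hq, hpq⟩ := (hp.prime.dvd_finsetProd_iff _).mp h2
  obtain ⟨h4, h5⟩ := mem_filter.mp hq
  have h6 : p = q := (Nat.prime_dvd_prime_iff_eq hp h5).mp hpq
  have h7 := mem_range.mp h4
  have h8 := he.wz
  omega

/-- the number of `r` with `v v' ∣ r (r - k)` -/
theorem col_cnt (he : e.Ok) (h : DH e k0 B cr eps g Ns qs k qlo qhi s dl a0 lo hi) (a : ℤ) (v : ℕ) (hv : 0 < v)
    (hv1 : Sf e.z v) (hv2 : v ≤ e.Y ^ 42) :
    (((e.Qs qs qlo qhi k a).filter fun r : ℕ => (v : ℤ) ∣ r * (r - k)).card : ℝ) ≤ e.U * (qhi / (e.W * v) + 1) := by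
  classical
  have hW0 : 0 < e.W := by unfold Env.W; exact primorial_pos _
  have hz : 1 ≤ e.z := by have := he.wz; omega
  have hY1 : 1 ≤ e.Y := le_trans (Nat.one_le_pow _ _ hz) he.zY
  have hqlo : 1 ≤ qlo := le_trans (Nat.one_le_pow _ _ hY1) h.hq0
  have hX1 : 1 ≤ e.X := le_trans (Nat.one_le_pow _ _ hY1) he.YX
  have hvX : v ≤ e.X ^ 100 := by
    have h2 : e.X ≤ e.X ^ 100 := Nat.le_self_pow (by norm_num) _
    exact hv2.trans ((Nat.pow_le_pow_right hY1 (show 42 ≤ 10000 by norm_num)).trans (he.YX.trans h2))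
  have hvW := col0_W e he v hv1
  have hD := he.dvs v hv.ne' hvX
  set D := v.divisors.filter (fun d => Rough e.z d) with hDd
  set Q := (e.Qs qs qlo qhi k a).filter fun r : ℕ => (v : ℤ) ∣ r * (r - k) with hQd
  -- the pieces
  have hsub : Q ⊆ D.biUnion (fun d => Q.filter (fun r : ℕ => (d : ℤ) ∣ r ∧ ((v / d : ℕ) : ℤ) ∣ (r : ℤ) - k)) := by
    intro r hr
    have hr' := hr
    rw [hQd, mem_filter] at hr'
    obtain ⟨hr1, hr2⟩ := hr'
    unfold Env.Qs at hr1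
    rw [mem_filter] at hr1
    obtain ⟨hr3, hr4, hr5, hr6, hr7, hr8, hr9, hr10, hr11⟩ := hr1
    rw [mem_biUnion]
    refine ⟨Nat.gcd v r, ?_, ?_⟩
    · rw [hDd, mem_filter, Nat.mem_divisors]
      refine ⟨⟨Nat.gcd_dvd_left _ _, hv.ne'⟩, fun p hp hpd => ?_⟩
      by_contra hpz
      exact hv1 p hp (by omega) (by exact_mod_cast hpd.trans (Nat.gcd_dvd_left _ _))
    · rw [mem_filter]
      refine ⟨hr, by exact_mod_cast Nat.gcd_dvd_right v r, ?_⟩
      have hg0 : 0 < Nat.gcd v r := Nat.gcd_pos_of_pos_left _ hv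
      have h1 : v ∣ r * ((r : ℤ) - k).natAbs := by
        have h2 := Int.natAbs_dvd_natAbs.mpr hr2
        rw [Int.natAbs_mul] at h2
        simpa using h2
      have h2 : v ∣ Nat.gcd v r * ((r : ℤ) - k).natAbs := by
        rw [← Nat.gcd_mul_right]
        exact Nat.dvd_gcd (Dvd.intro _ rfl) h1
      have h3 : v / Nat.gcd v r ∣ ((r : ℤ) - k).natAbs := by
        have h4 : Nat.gcd v r * (v / Nat.gcd v r) = v := Nat.mul_div_cancel' (Nat.gcd_dvd_left _ _)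
        rw [← h4] at h2
        have h5 : Nat.gcd v r * (v / Nat.gcd v r) ∣ Nat.gcd v r * ((r : ℤ) - k).natAbs := by
          rwa [h4] at h2 ⊢
        exact Nat.dvd_of_mul_dvd_mul_left hg0 h5
      exact Int.natCast_dvd.mpr h3
  have hp : 0 < e.W * v := Nat.mul_pos hW0 hv
  have hpc : ∀ d ∈ D, ((Q.filter (fun r : ℕ => (d : ℤ) ∣ r ∧ ((v / d : ℕ) : ℤ) ∣ (r : ℤ) - k)).card : ℝ) ≤
      (qhi : ℝ) / ((e.W * v : ℕ) : ℝ) + 1 := by
    intro d hd
    rw [hDd, mem_filter, Nat.mem_divisors] at hd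
    obtain ⟨⟨hdv, -⟩, -⟩ := hd
    refine col0_cls (e.W * v) qlo qhi hp hqlo _ ?_ ?_
    · intro n hn
      rw [mem_filter, hQd, mem_filter] at hn
      have h1 := hn.1.1
      unfold Env.Qs at h1
      exact mem_Icc.mp (mem_filter.mp h1).1
    · intro n hn n' hn'
      rw [mem_filter, hQd, mem_filter] at hn hn'
      obtain ⟨⟨h1, -⟩, h2, h3⟩ := hn
      obtain ⟨⟨h1', -⟩, h2', h3'⟩ := hn'
      unfold Env.Qs at h1 h1'
      obtain ⟨-, -, -, hmod, -, -, hcop, -⟩ := mem_filter.mp h1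
      obtain ⟨-, -, -, hmod', -⟩ := mem_filter.mp h1'
      have h4 : (d : ℤ) ∣ (n : ℤ) - n' := dvd_sub h2 h2'
      have h5 : ((v / d : ℕ) : ℤ) ∣ (n : ℤ) - n' := by
        have h6 := dvd_sub h3 h3'
        have h7 : (n : ℤ) - k - ((n' : ℤ) - k) = n - n' := by ring
        rwa [h7] at h6
      have h6 : IsCoprime (d : ℤ) ((v / d : ℕ) : ℤ) :=
        IsCoprime.of_isCoprime_of_dvd_left (IsCoprime.of_isCoprime_of_dvd_right hcop h3) h2
      have h7 : (v : ℤ) ∣ (n : ℤ) - n' := by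
        have h8 := h6.mul_dvd h4 h5
        have h9 : (d : ℤ) * ((v / d : ℕ) : ℤ) = v := by exact_mod_cast Nat.mul_div_cancel' hdv
        rwa [h9] at h8
      have h8 : (e.W : ℤ) ∣ (n : ℤ) - n' := by
        have h9 : n' ≡ n [MOD e.W] := hmod'.trans hmod.symm
        exact (Nat.modEq_iff_dvd.mp h9)
      have h9 : IsCoprime (e.W : ℤ) (v : ℤ) := (Nat.isCoprime_iff_coprime.mpr hvW).symm
      have h10 := h9.mul_dvd h8 h7
      exact_mod_cast h10
  have h1 : (Q.card : ℝ) ≤ ∑ d ∈ D, ((Q.filter (fun r : ℕ => (d : ℤ) ∣ r ∧ ((v / d : ℕ) : ℤ) ∣ (r : ℤ) - k)).card : ℝ) := by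
    exact_mod_cast (Finset.card_le_card hsub).trans Finset.card_biUnion_le
  calc (Q.card : ℝ) ≤ _ := h1
    _ ≤ ∑ d ∈ D, ((qhi : ℝ) / ((e.W * v : ℕ) : ℝ) + 1) := Finset.sum_le_sum hpc
    _ = (D.card : ℝ) * ((qhi : ℝ) / ((e.W * v : ℕ) : ℝ) + 1) := by rw [Finset.sum_const, nsmul_eq_mul]
    _ ≤ e.U * ((qhi : ℝ) / ((e.W * v : ℕ) : ℝ) + 1) := by
        refine mul_le_mul_of_nonneg_right (by exact_mod_cast hD) (by positivity)
    _ = _ := by push_cast; ring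

end Pool.Agent.Lib.EX
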