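import Pool.Agent.Lib.MP_61161c_nt.EX.Dd

/-!
# EX, module Cp: schemes on a progression `n = c + m n'`
-/

set_option autoImplicit false

open Finset

namespace Pool.Agent.Lib.EX

theorem Frm.ev_cp (F : Frm) (c m n : ℤ) : (F.cp c m).ev n = F.ev (c + m * n) := by
  unfold Frm.cp Frm.ev; ring

theorem Frm.ev_af (F : Frm) (k v n : ℤ) : (F.af k v).ev n = k * F.ev n + v := by
  unfold Frm.af Frm.ev; ring

/-- the integers of `[A, A + L)` in a class modulo `m`. PROOF: `A' = ⌈(A - c)/m⌉`, etc. -/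
theorem itv (A L m c : ℕ) (hm : 0 < m) (hc : c < m) : ∃ A' L' : ℕ, (m * L' : ℤ) ≤ L + m ∧ (L : ℤ) ≤ m * L' + m ∧
    A' + L' ≤ A + L + 1 ∧ ∀ n : ℕ, (A' ≤ n ∧ n < A' + L') ↔ (A ≤ c + m * n ∧ c + m * n < A + L) := by
  have key : ∀ x : ℕ, ∃ u : ℕ, x ≤ m * u ∧ m * u ≤ x + (m - 1) := by
    intro x
    refine ⟨(x + (m - 1)) / m, ?_, ?_⟩
    · have h1 := Nat.lt_mul_div_succ (x + (m - 1)) hm
      rw [Nat.mul_add, Nat.mul_one] at h1
      omega
    · exact Nat.mul_div_le (x + (m - 1)) m
  obtain ⟨a, ha1, ha2⟩ := key (A - c)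
  obtain ⟨b, hb1, hb2⟩ := key (A + L - c)
  have hab : a ≤ b := by
    by_contra h
    have h1 : m * (b + 1) ≤ m * a := Nat.mul_le_mul_left m (by omega)
    rw [Nat.mul_add, Nat.mul_one] at h1
    omega
  obtain ⟨d, rfl⟩ := Nat.exists_eq_add_of_le hab
  have hd : m * (a + d) = m * a + m * d := Nat.mul_add m a d
  have ha0 : A < c → m * a = 0 := by
    intro h
    rcases Nat.eq_zero_or_pos a with h0 | h0
    · rw [h0, Nat.mul_zero]
    · have h1 : m * 1 ≤ m * a := Nat.mul_le_mul_left m h0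
      omega
  refine ⟨a, d, ?_, ?_, ?_, ?_⟩
  · have h1 : m * d ≤ L + m := by omega
    exact_mod_cast h1
  · have h1 : L ≤ m * d + m := by
      by_cases h : A < c
      · have := ha0 h
        omega
      · omega
    exact_mod_cast h1
  · by_contra h
    have h1 : m * (A + L - c + 1) ≤ m * (a + d) := Nat.mul_le_mul_left m (by omega)
    have h2 : 1 * (A + L - c) ≤ m * (A + L - c) := Nat.mul_le_mul_right _ hm
    rw [Nat.mul_add, Nat.mul_one] at h1
    omega
  · intro n
    have h1 : a ≤ n ↔ A ≤ c + m * n := by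
      constructor
      · intro h
        have := Nat.mul_le_mul_left m h
        omega
      · intro h
        by_contra h'
        have h2 : m * (n + 1) ≤ m * a := Nat.mul_le_mul_left m (by omega)
        rw [Nat.mul_add, Nat.mul_one] at h2
        omega
    have h2 : n < a + d ↔ c + m * n < A + L := by
      constructor
      · intro h
        have h2 : m * (n + 1) ≤ m * (a + d) := Nat.mul_le_mul_left m (by omega)
        rw [Nat.mul_add, Nat.mul_one] at h2
        omega
      · intro h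
        by_contra h'
        have h2 : m * (a + d) ≤ m * n := Nat.mul_le_mul_left m (by omega)
        omega
    rw [h1, h2]

theorem typ_cp (e : Env) (t F : Frm) (c m : ℤ) (h : e.Typ t F) : e.Typ (t.cp c m) (F.cp c m) := by
  obtain ⟨k, hk, h⟩ := h
  refine ⟨k, hk, ?_⟩
  rcases h with ⟨h1, h2⟩ | ⟨h1, h2⟩
  · left
    constructor
    · have : F.a * m - k * (t.a * m) = (F.a - k * t.a) * m := by ring
      show (e.W : ℤ) ∣ F.a * m - k * (t.a * m)
      rw [this]
      exact h1.mul_right m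
    · have : F.a * c + F.b - k * (t.a * c + t.b) = (F.a - k * t.a) * c + (F.b - k * t.b) := by ring
      show (e.W : ℤ) ∣ F.a * c + F.b - k * (t.a * c + t.b)
      rw [this]
      exact dvd_add (h1.mul_right c) h2
  · right
    constructor
    · have : F.a * m + k * (t.a * m) = (F.a + k * t.a) * m := by ring
      show (e.W : ℤ) ∣ F.a * m + k * (t.a * m)
      rw [this]
      exact h1.mul_right m
    · have : F.a * c + F.b - k * (e.N0 - (t.a * c + t.b)) =
          (F.a + k * t.a) * c + (F.b - k * (e.N0 - t.b)) := by ring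
      show (e.W : ℤ) ∣ F.a * c + F.b - k * (e.N0 - (t.a * c + t.b))
      rw [this]
      exact dvd_add (h1.mul_right c) h2

theorem ext_cp (e : Env) (t F : Frm) (c m : ℤ) (h : e.Ext t F) : e.Ext (t.cp c m) (F.cp c m) := by
  rcases h with ⟨h1, h2⟩ | ⟨h1, h2⟩
  · left
    constructor
    · have : F.a * m - t.a * m = (F.a - t.a) * m := by ring
      show (e.W : ℤ) ∣ F.a * m - t.a * m
      rw [this]
      exact h1.mul_right m
    · have : F.a * c + F.b - (t.a * c + t.b) = (F.a - t.a) * c + (F.b - t.b) := by ring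
      show (e.W : ℤ) ∣ F.a * c + F.b - (t.a * c + t.b)
      rw [this]
      exact dvd_add (h1.mul_right c) h2
  · right
    constructor
    · have : F.a * m + t.a * m = (F.a + t.a) * m := by ring
      show (e.W : ℤ) ∣ F.a * m + t.a * m
      rw [this]
      exact h1.mul_right m
    · have : F.a * c + F.b - (e.N0 - (t.a * c + t.b)) =
          (F.a + t.a) * c + (F.b - (e.N0 - t.b)) := by ring
      show (e.W : ℤ) ∣ F.a * c + F.b - (e.N0 - (t.a * c + t.b))
      rw [this]
      exact dvd_add (h1.mul_right c) h2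

theorem np_cp (F F' : Frm) (c m : ℤ) (hm : m ≠ 0) (h : F.NP F') : (F.cp c m).NP (F'.cp c m) := by
  intro h1
  apply h
  have h2 : F.a * m * (F'.a * c + F'.b) = F'.a * m * (F.a * c + F.b) := h1
  have h3 : m * (F.a * F'.b) = m * (F'.a * F.b) := by linarith
  exact mul_left_cancel₀ hm h3

/-- the scheme on the progression is admissible -/
theorem sok_cp (e : Env) (he : e.Ok) (B : ℕ) (t : Frm) (Fs : List Frm) (h : e.SOk B t Fs) (m c : ℕ) (hm : Sf e.z m)
    (hm1 : m ≤ e.Y ^ 100) (hc : c < m) : e.SOk (B + 1) (t.cp c m) (Fs.map fun F => F.cp c m) := by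
  have hm0 : 0 < m := by omega
  have hY : 0 < e.Y := by
    by_contra hY
    have : e.Y = 0 := by omega
    rw [this, zero_pow (by norm_num)] at hm1
    omega
  have hmX : (m : ℤ) ≤ e.X := by
    have h1 : e.Y ^ 100 ≤ e.Y ^ 10000 := Nat.pow_le_pow_right hY (by norm_num)
    exact_mod_cast hm1.trans (h1.trans he.YX)
  have hX0 : (0 : ℤ) ≤ (e.X : ℤ) ^ B := by positivity
  refine ⟨?_, ?_, ?_, ?_, ?_⟩
  · show IsCoprime (t.a * m) (e.W : ℤ)
    refine IsCoprime.mul_left h.ta ?_
    rw [Nat.isCoprime_iff_coprime]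
    refine Nat.Coprime.symm ?_
    unfold Env.W
    rw [primorial]
    refine Nat.Coprime.prod_left fun p hp => ?_
    rw [mem_filter, mem_range] at hp
    rw [Nat.Prime.coprime_iff_not_dvd hp.2]
    intro hd
    exact hm p hp.2 (by have := he.wz; omega) (by exact_mod_cast hd)
  · intro F hF
    rw [List.mem_map] at hF
    obtain ⟨F0, hF0, rfl⟩ := hF
    intro p hp hpz hd
    have hp' : Prime (p : ℤ) := Nat.prime_iff_prime_int.1 hp
    rcases hp'.dvd_or_dvd (show (p : ℤ) ∣ F0.a * m from hd) with h1 | h1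
    · exact h.sa F0 hF0 p hp hpz h1
    · exact hm p hp hpz h1
  · intro F hF
    rw [List.mem_map] at hF
    obtain ⟨F0, hF0, rfl⟩ := hF
    obtain ⟨h1, h2⟩ := h.bd F0 hF0
    constructor
    · show |F0.a * m| ≤ (e.X : ℤ) ^ (B + 1)
      rw [abs_mul, pow_succ, abs_of_nonneg (by positivity : (0 : ℤ) ≤ (m : ℤ))]
      exact mul_le_mul h1 hmX (by positivity) hX0
    · show |F0.a * c + F0.b| ≤ (e.X : ℤ) ^ (B + 1)
      have h3 : |F0.a * c + F0.b| ≤ |F0.a| * c + |F0.b| := by
        refine (abs_add_le _ _).trans ?_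
        rw [abs_mul, abs_of_nonneg (by positivity : (0 : ℤ) ≤ (c : ℤ))]
      have h4 : |F0.a| * c ≤ (e.X : ℤ) ^ B * c := mul_le_mul_of_nonneg_right h1 (by positivity)
      have h5 : ((c : ℤ) + 1) ≤ e.X := by
        have : ((c + 1 : ℕ) : ℤ) ≤ m := by exact_mod_cast hc
        push_cast at this
        linarith
      have h6 : (e.X : ℤ) ^ B * (c + 1) ≤ (e.X : ℤ) ^ B * e.X := mul_le_mul_of_nonneg_left h5 hX0
      rw [pow_succ]
      linarith
  · intro F hF
    rw [List.mem_map] at hF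
    obtain ⟨F0, hF0, rfl⟩ := hF
    exact typ_cp e t F0 c m (h.ty F0 hF0)
  · rw [List.pairwise_map]
    exact h.np.imp fun hab => np_cp _ _ _ _ (by exact_mod_cast hm0.ne') hab

/-- the sifted set of the scheme on the progression -/
theorem ss_cp (e : Env) (t : Frm) (Fs : List Frm) (A L A' L' m c : ℕ) (hc : c < m)
    (h : ∀ n : ℕ, (A' ≤ n ∧ n < A' + L') ↔ (A ≤ c + m * n ∧ c + m * n < A + L)) :
    (e.SS t Fs A L).filter (fun n : ℕ => n % m = c) =
      (e.SS (t.cp c m) (Fs.map fun F => F.cp c m) A' L').image (fun n => c + m * n) := by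
  classical
  have hcast : ∀ n : ℕ, (((c + m * n : ℕ) : ℤ)) = (c : ℤ) + m * n := fun n => by push_cast; rfl
  ext x
  rw [mem_filter, mem_image]
  unfold Env.SS
  constructor
  · rintro ⟨hx, hxc⟩
    rw [mem_filter, mem_Ico] at hx
    obtain ⟨hx1, hx2, hx3⟩ := hx
    have hxe : c + m * (x / m) = x := by rw [← hxc]; exact Nat.mod_add_div x m
    refine ⟨x / m, ?_, hxe⟩
    rw [mem_filter, mem_Ico]
    refine ⟨(h _).2 (by rw [hxe]; exact hx1), ?_, ?_⟩
    · rw [Frm.ev_cp, ← hcast, hxe]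
      exact hx2
    · intro F hF
      rw [List.mem_map] at hF
      obtain ⟨F0, hF0, rfl⟩ := hF
      rw [Frm.ev_cp, ← hcast, hxe]
      exact hx3 F0 hF0
  · rintro ⟨n, hn, rfl⟩
    rw [mem_filter, mem_Ico] at hn
    obtain ⟨hn1, hn2, hn3⟩ := hn
    refine ⟨?_, ?_⟩
    · rw [mem_filter, mem_Ico]
      refine ⟨(h _).1 hn1, ?_, ?_⟩
      · rw [Frm.ev_cp, ← hcast] at hn2
        exact hn2
      · intro F hF
        have h1 := hn3 (F.cp c m) (List.mem_map.2 ⟨F, hF, rfl⟩)
        rw [Frm.ev_cp, ← hcast] at h1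
        exact h1
    · rw [Nat.add_mul_mod_self_left]
      exact Nat.mod_eq_of_lt hc

end Pool.Agent.Lib.EX
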