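import Mathlib

/-!
# EX, block D: a weighted Bessel inequality

`S` finite set, `ν ≥ 0` on `S`, `ν ≥ 1` on `R ⊆ S`, `x i` functions bounded by one, almost orthogonal for `ν`, `|f| ≤ 1` on `R`:
`∑_i |∑_{m ∈ R} f m x_i m|² ≤ |R| (∑_S ν + |J| E)`.
-/

set_option autoImplicit false

open Finset

namespace Pool.Agent.Lib.EX

theorem db_bes {ι : Type*} [DecidableEq ι] (J : Finset ι) (S R : Finset ℕ) (hRS : R ⊆ S) (ν : ℕ → ℝ)
    (hν0 : ∀ m ∈ S, 0 ≤ ν m) (hν1 : ∀ m ∈ R, 1 ≤ ν m) (f : ℕ → ℂ) (hf : ∀ m ∈ R, ‖f m‖ ≤ 1)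
    (x : ι → ℕ → ℂ) (hx : ∀ i m, ‖x i m‖ ≤ 1) (E : ℝ) (hE0 : 0 ≤ E)
    (hE : ∀ i ∈ J, ∀ j ∈ J, i ≠ j → ‖∑ m ∈ S, (ν m : ℂ) * (x i m * (starRingEnd ℂ) (x j m))‖ ≤ E) :
    ∑ i ∈ J, ‖∑ m ∈ R, f m * x i m‖ ^ 2 ≤ R.card * (∑ m ∈ S, ν m + J.card * E) := by
  classical
  set a : ι → ℂ := fun i => ∑ m ∈ R, f m * x i m with ha
  set Q : ℝ := ∑ i ∈ J, ‖a i‖ ^ 2 with hQ
  have hQ0 : 0 ≤ Q := Finset.sum_nonneg fun i _ => by positivity
  set y : ℕ → ℂ := fun m => ∑ i ∈ J, (starRingEnd ℂ) (a i) * x i m with hy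
  -- step 1
  have h1 : Q ≤ ∑ m ∈ R, ‖y m‖ := by
    have h2 : (Q : ℂ) = ∑ m ∈ R, f m * y m := by
      rw [hQ]
      push_cast
      have h3 : ∀ i ∈ J, ((‖a i‖ : ℂ)) ^ 2 = ∑ m ∈ R, f m * ((starRingEnd ℂ) (a i) * x i m) := by
        intro i _
        rw [← Complex.mul_conj']
        conv_lhs => rw [ha]
        simp only
        rw [Finset.sum_mul]
        refine Finset.sum_congr rfl fun m _ => ?_
        ring
      rw [Finset.sum_congr rfl h3, Finset.sum_comm]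
      refine Finset.sum_congr rfl fun m _ => ?_
      rw [hy, Finset.mul_sum]
    have h4 : ‖(Q : ℂ)‖ = Q := by rw [Complex.norm_real, Real.norm_eq_abs, abs_of_nonneg hQ0]
    rw [← h4, h2]
    refine (norm_sum_le _ _).trans (Finset.sum_le_sum fun m hm => ?_)
    rw [norm_mul]
    exact mul_le_of_le_one_left (norm_nonneg _) (hf m hm)
  -- step 2
  have h5 : (∑ m ∈ R, ‖y m‖) ^ 2 ≤ R.card * ∑ m ∈ R, ‖y m‖ ^ 2 := sq_sum_le_card_mul_sum_sq
  have h6 : ∑ m ∈ R, ‖y m‖ ^ 2 ≤ ∑ m ∈ S, ν m * ‖y m‖ ^ 2 := by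
    calc ∑ m ∈ R, ‖y m‖ ^ 2 ≤ ∑ m ∈ R, ν m * ‖y m‖ ^ 2 := by
          refine Finset.sum_le_sum fun m hm => ?_
          exact le_mul_of_one_le_left (by positivity) (hν1 m hm)
      _ ≤ ∑ m ∈ S, ν m * ‖y m‖ ^ 2 := by
          refine Finset.sum_le_sum_of_subset_of_nonneg hRS fun m hm _ => ?_
          exact mul_nonneg (hν0 m hm) (by positivity)
  have h7 : ∑ m ∈ S, ν m * ‖y m‖ ^ 2 ≤ (∑ m ∈ S, ν m + J.card * E) * Q := by
    have h8 : ((∑ m ∈ S, ν m * ‖y m‖ ^ 2 : ℝ) : ℂ) =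
        ∑ i ∈ J, ∑ j ∈ J, (starRingEnd ℂ) (a i) * a j * ∑ m ∈ S, (ν m : ℂ) * (x i m * (starRingEnd ℂ) (x j m)) := by
      push_cast
      have h9 : ∀ m ∈ S, (ν m : ℂ) * (‖y m‖ : ℂ) ^ 2 =
          ∑ i ∈ J, ∑ j ∈ J, (starRingEnd ℂ) (a i) * a j * ((ν m : ℂ) * (x i m * (starRingEnd ℂ) (x j m))) := by
        intro m _
        rw [← Complex.mul_conj', hy]
        simp only
        rw [map_sum, Finset.sum_mul_sum, Finset.mul_sum]
        refine Finset.sum_congr rfl fun i _ => ?_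
        rw [Finset.mul_sum]
        refine Finset.sum_congr rfl fun j _ => ?_
        rw [map_mul, Complex.conj_conj]
        ring
      rw [Finset.sum_congr rfl h9, Finset.sum_comm]
      refine Finset.sum_congr rfl fun i _ => ?_
      rw [Finset.sum_comm]
      refine Finset.sum_congr rfl fun j _ => ?_
      exact (Finset.mul_sum _ _ _).symm
    have h10 : ∑ m ∈ S, ν m * ‖y m‖ ^ 2 = ‖((∑ m ∈ S, ν m * ‖y m‖ ^ 2 : ℝ) : ℂ)‖ := by
      rw [Complex.norm_real, Real.norm_eq_abs, abs_of_nonneg]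
      exact Finset.sum_nonneg fun m hm => mul_nonneg (hν0 m hm) (by positivity)
    rw [h10, h8]
    have hSn : 0 ≤ ∑ m ∈ S, ν m := Finset.sum_nonneg hν0
    calc ‖∑ i ∈ J, ∑ j ∈ J, (starRingEnd ℂ) (a i) * a j * ∑ m ∈ S, (ν m : ℂ) * (x i m * (starRingEnd ℂ) (x j m))‖
        ≤ ∑ i ∈ J, ∑ j ∈ J, ‖a i‖ * ‖a j‖ * ((if i = j then ∑ m ∈ S, ν m else 0) + E) := by
          refine (norm_sum_le _ _).trans (Finset.sum_le_sum fun i hi => ?_)
          refine (norm_sum_le _ _).trans (Finset.sum_le_sum fun j hj => ?_)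
          rw [norm_mul, norm_mul, RCLike.norm_conj]
          refine mul_le_mul_of_nonneg_left ?_ (by positivity)
          by_cases hij : i = j
          · rw [if_pos hij]
            refine (norm_sum_le _ _).trans ?_
            have : ∑ m ∈ S, ‖(ν m : ℂ) * (x i m * (starRingEnd ℂ) (x j m))‖ ≤ ∑ m ∈ S, ν m := by
              refine Finset.sum_le_sum fun m hm => ?_
              rw [norm_mul, norm_mul, RCLike.norm_conj, Complex.norm_real, Real.norm_eq_abs, abs_of_nonneg (hν0 m hm)]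
              refine mul_le_of_le_one_right (hν0 m hm) ?_
              exact mul_le_one₀ (hx i m) (norm_nonneg _) (hx j m)
            linarith
          · rw [if_neg hij, zero_add]
            exact hE i hi j hj hij
      _ = (∑ m ∈ S, ν m) * Q + E * (∑ i ∈ J, ‖a i‖) ^ 2 := by
          simp_rw [mul_add, Finset.sum_add_distrib]
          congr 1
          · rw [hQ, Finset.mul_sum]
            refine Finset.sum_congr rfl fun i hi => ?_
            rw [Finset.sum_eq_single i]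
            · rw [if_pos rfl]; ring
            · intro j _ hji
              rw [if_neg (Ne.symm hji)]; ring
            · intro h; exact absurd hi h
          · rw [sq, Finset.sum_mul_sum, Finset.mul_sum]
            refine Finset.sum_congr rfl fun i _ => ?_
            rw [Finset.mul_sum]
            refine Finset.sum_congr rfl fun j _ => ?_
            ring
      _ ≤ (∑ m ∈ S, ν m) * Q + E * (J.card * Q) := by
          have := sq_sum_le_card_mul_sum_sq (s := J) (f := fun i => ‖a i‖)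
          have h11 : E * (∑ i ∈ J, ‖a i‖) ^ 2 ≤ E * (J.card * Q) := mul_le_mul_of_nonneg_left this hE0
          linarith
      _ = (∑ m ∈ S, ν m + J.card * E) * Q := by ring
  -- conclusion
  set T : ℝ := ∑ m ∈ S, ν m + J.card * E with hT
  have hT0 : 0 ≤ T := add_nonneg (Finset.sum_nonneg hν0) (by positivity)
  have h12 : Q ^ 2 ≤ R.card * (T * Q) := by
    calc Q ^ 2 ≤ (∑ m ∈ R, ‖y m‖) ^ 2 := pow_le_pow_left₀ hQ0 h1 2
      _ ≤ R.card * ∑ m ∈ R, ‖y m‖ ^ 2 := h5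
      _ ≤ R.card * (T * Q) := mul_le_mul_of_nonneg_left (h6.trans h7) (by positivity)
  rcases hQ0.eq_or_lt with h13 | h13
  · rw [← h13]; positivity
  · have h14 : Q * Q ≤ (R.card * T) * Q := by nlinarith
    exact le_of_mul_le_mul_right h14 h13

end Pool.Agent.Lib.EX
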