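import Pool.Agent.Lib.MP_61161c_nt.EX.DbMaj
import Pool.Agent.Lib.MP_61161c_nt.EX.DbBes

/-!
# EX, block D: Bessel for the rough numbers in an interval of length `≥ √N X^c`

`db`: for `c, e > 0` there are `b`, `X0` such that for `X ≥ X0`, `z^(12 b + 2) ≤ X^(c/10)`, `N ≤ X^2`, `B - A ≥ √N X^c`,
`|J| ≤ X^(c/4)` and `|f| ≤ 1`: `∑_{χ ∈ J} |∑_{m ∈ rg z A B} f m χ m|² ≤ (1 + e) |rg z A B|²`.
-/

set_option autoImplicit false

open Finset

namespace Pool.Agent.Lib.EX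

open Pool.Agent.Lib.RG (PB pv_all PB_le)

theorem PB_one_le : PB 1 ≤ 1 := by
  unfold PB
  simp

theorem half_pow_small (K d : ℝ) (hd : 0 < d) : ∃ b : ℕ, 1 ≤ b ∧ K * (1 / 2 : ℝ) ^ b ≤ d := by
  have h1 : Filter.Tendsto (fun b : ℕ => K * (1 / 2 : ℝ) ^ b) Filter.atTop (nhds 0) := by
    have h2 := (tendsto_pow_atTop_nhds_zero_of_lt_one (r := (1 / 2 : ℝ)) (by norm_num) (by norm_num)).const_mul K
    rwa [mul_zero] at h2
  obtain ⟨b, hb1, hb2⟩ := ((h1.eventually (gt_mem_nhds hd)).and (Filter.eventually_ge_atTop 1)).exists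
  exact ⟨b, hb2, hb1.le⟩

theorem db (c e : ℝ) (hc : 0 < c) (he : 0 < e) : ∃ b : ℕ, 1 ≤ b ∧ ∃ X0 : ℝ, 1 ≤ X0 ∧ ∀ X : ℝ, X0 ≤ X →
    ∀ z : ℕ, 2 ≤ z → (z : ℝ) ^ (12 * b + 3) ≤ X ^ (c / 10) →
    ∀ (N : ℕ) [NeZero N], (N : ℝ) ≤ X ^ 2 → ∀ A B : ℕ, A ≤ B → Real.sqrt N * X ^ c ≤ (B : ℝ) - A →
      (((B : ℝ) - A) * vz z * (1 - e) ≤ ((rg z A B).card : ℝ)) ∧
      (((rg z A B).card : ℝ) ≤ ((B : ℝ) - A) * vz z * (1 + e)) ∧
      ∀ J : Finset (DirichletCharacter ℂ N), (J.card : ℝ) ≤ X ^ (c / 4) →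
        ∀ f : ℕ → ℂ, (∀ m, ‖f m‖ ≤ 1) →
          ∑ χ ∈ J, ‖∑ m ∈ rg z A B, f m * χ (m : ZMod N)‖ ^ 2 ≤ (1 + e) * ((rg z A B).card : ℝ) ^ 2 := by
  classical
  obtain ⟨K, hK, hmaj⟩ := maj
  -- small constants
  set d : ℝ := min e 1 / 16 with hd
  have hm0 : 0 < min e 1 := lt_min he one_pos
  have hd0 : 0 < d := by positivity
  have hde : 16 * d ≤ e := by rw [hd]; linarith [min_le_left e 1]
  have hd1 : 16 * d ≤ 1 := by rw [hd]; linarith [min_le_right e 1]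
  obtain ⟨b, hb, hKb⟩ := half_pow_small K d hd0
  obtain ⟨C, hC, hPBl⟩ := PB_le (c / 20) (by linarith)
  refine ⟨b, hb, ?_⟩
  -- the threshold
  have hlim : Filter.Tendsto (fun X : ℝ => X ^ (c / 2)) Filter.atTop Filter.atTop := tendsto_rpow_atTop (by linarith)
  obtain ⟨X1, hX1⟩ := Filter.eventually_atTop.mp (hlim.eventually_ge_atTop ((3 + 4 * (C + 1)) / d))
  refine ⟨max X1 1, le_max_right _ _, fun X hX z hz hzX N _ hNX A B hAB hW => ?_⟩
  have hX1' := hX1 X ((le_max_left _ _).trans hX)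
  have hX1r : 1 ≤ X := (le_max_right _ _).trans hX
  have hX0 : 0 < X := by linarith
  obtain ⟨ν, hν0, hν1, hall⟩ := hmaj b hb z hz
  obtain ⟨hA, hL, hR, hχ⟩ := hall A B hAB
  -- notation
  set W : ℝ := (B : ℝ) - A with hWdef
  set V : ℝ := vz z with hVdef
  have hzr : (2 : ℝ) ≤ z := by exact_mod_cast hz
  have hV0 : 0 < V := vz_pos z (by omega)
  have hVz : 1 / (z : ℝ) ≤ V := vz_ge z (by omega)
  have hN1 : (1 : ℝ) ≤ N := by exact_mod_cast Nat.one_le_iff_ne_zero.mpr (NeZero.ne N)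
  have hsN : 1 ≤ Real.sqrt N := Real.one_le_sqrt.mpr hN1
  have hXc : ∀ t : ℝ, 0 ≤ t → 1 ≤ X ^ t := fun t ht => Real.one_le_rpow hX1r ht
  have hW0 : 0 < W := lt_of_lt_of_le (by positivity) hW
  have hPB0 : 0 ≤ PB N := by
    unfold PB
    have : 0 ≤ Real.log N := Real.log_nonneg hN1
    positivity
  -- PB bound
  have hPB : PB N ≤ (C + 1) * Real.sqrt N * X ^ (c / 10) := by
    rcases Nat.lt_or_ge N 2 with h2 | h2
    · have h3 : N = 1 := by
        have := Nat.one_le_iff_ne_zero.mpr (NeZero.ne N)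
        omega
      have h4 : PB N ≤ 1 := by rw [h3]; exact PB_one_le
      have h5 : 1 ≤ (C + 1) * Real.sqrt N * X ^ (c / 10) :=
        one_le_mul_of_one_le_of_one_le (one_le_mul_of_one_le_of_one_le (by linarith) hsN) (hXc (c / 10) (by linarith))
      linarith
    · have h3 := (hPBl N h2).1
      have h4 : (N : ℝ) ^ (1 / 2 + c / 20) = Real.sqrt N * (N : ℝ) ^ (c / 20) := by
        rw [Real.sqrt_eq_rpow, ← Real.rpow_add (by linarith)]
      have h5 : (N : ℝ) ^ (c / 20) ≤ X ^ (c / 10) := by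
        calc (N : ℝ) ^ (c / 20) ≤ (X ^ 2) ^ (c / 20) := Real.rpow_le_rpow (by linarith) hNX (by linarith)
          _ = X ^ (c / 10) := by
            rw [← Real.rpow_natCast, ← Real.rpow_mul hX0.le]
            congr 1
            push_cast
            ring
      rw [h4] at h3
      refine h3.trans ?_
      calc C * (Real.sqrt N * (N : ℝ) ^ (c / 20)) ≤ C * (Real.sqrt N * X ^ (c / 10)) := by gcongr
        _ ≤ (C + 1) * (Real.sqrt N * X ^ (c / 10)) := by gcongr; linarith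
        _ = _ := by ring
  -- the small term: `T = z^(12b+2) (1 + 4 |J| PB) ≤ d W V`
  have hkey : (z : ℝ) ^ (12 * b + 3) * (3 + 4 * (C + 1)) * (X ^ (c / 4) * X ^ (c / 10) * Real.sqrt N) ≤ d * W := by
    have h1 : (z : ℝ) ^ (12 * b + 3) * (3 + 4 * (C + 1)) * (X ^ (c / 4) * X ^ (c / 10) * Real.sqrt N) ≤
        X ^ (c / 10) * (3 + 4 * (C + 1)) * (X ^ (c / 4) * X ^ (c / 10) * Real.sqrt N) := by gcongr
    have h2 : X ^ (c / 4) * X ^ (c / 10) * X ^ (c / 10) ≤ X ^ (c / 2) := by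
      rw [← Real.rpow_add hX0, ← Real.rpow_add hX0]
      exact Real.rpow_le_rpow_of_exponent_le hX1r (by linarith)
    have h3 : (3 + 4 * (C + 1)) ≤ d * X ^ (c / 2) := by
      rw [div_le_iff₀ hd0] at hX1'
      linarith
    have h4 : X ^ (c / 2) * X ^ (c / 2) = X ^ c := by
      rw [← Real.rpow_add hX0]
      congr 1
      ring
    calc _ ≤ _ := h1
      _ = (3 + 4 * (C + 1)) * (X ^ (c / 4) * X ^ (c / 10) * X ^ (c / 10)) * Real.sqrt N := by ring
      _ ≤ (d * X ^ (c / 2)) * (X ^ (c / 2)) * Real.sqrt N := by gcongr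
      _ = d * (Real.sqrt N * (X ^ (c / 2) * X ^ (c / 2))) := by ring
      _ = d * (Real.sqrt N * X ^ c) := by rw [h4]
      _ ≤ d * W := mul_le_mul_of_nonneg_left hW hd0.le
  have hkey2 : (z : ℝ) ^ (12 * b + 2) * (3 + 4 * (C + 1)) * (X ^ (c / 4) * X ^ (c / 10) * Real.sqrt N) ≤ d * (W * V) := by
    have h1 : (z : ℝ) ^ (12 * b + 2) * (3 + 4 * (C + 1)) * (X ^ (c / 4) * X ^ (c / 10) * Real.sqrt N) ≤ d * W * (1 / z) := by
      rw [mul_one_div, le_div_iff₀ (by linarith)]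
      calc _ = (z : ℝ) ^ (12 * b + 3) * (3 + 4 * (C + 1)) * (X ^ (c / 4) * X ^ (c / 10) * Real.sqrt N) := by ring
        _ ≤ _ := hkey
    calc _ ≤ d * W * (1 / z) := h1
      _ ≤ d * W * V := by gcongr
      _ = _ := by ring
  have hXc10 := hXc (c / 10) (by linarith)
  have hXc4 := hXc (c / 4) (by linarith)
  -- consequences
  have hz2 : (z : ℝ) ^ (12 * b + 2) ≤ d * (W * V) := by
    refine le_trans ?_ hkey2
    have h1 : 1 ≤ (3 + 4 * (C + 1)) * (X ^ (c / 4) * X ^ (c / 10) * Real.sqrt N) :=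
      one_le_mul_of_one_le_of_one_le (by linarith)
        (one_le_mul_of_one_le_of_one_le (one_le_mul_of_one_le_of_one_le hXc4 hXc10) hsN)
    rw [mul_assoc]
    exact le_mul_of_one_le_right (by positivity) h1
  have hz1 : (z : ℝ) ^ (12 * b) ≤ d * (W * V) := by
    refine le_trans ?_ hz2
    exact pow_le_pow_right₀ (by linarith) (by omega)
  have hWV : 0 < W * V := by positivity
  have hRlow : W * V * (1 - 2 * d) ≤ ((rg z A B).card : ℝ) := by
    have h1 : W * V * (K * (1 / 2) ^ b) ≤ W * V * d := mul_le_mul_of_nonneg_left hKb hWV.le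
    linarith
  have hRup : ((rg z A B).card : ℝ) ≤ W * V * (1 + 2 * d) := by
    have h1 : W * V * (K * (1 / 2) ^ b) ≤ W * V * d := mul_le_mul_of_nonneg_left hKb hWV.le
    linarith
  have hSν : ∑ m ∈ Ioc A B, ν m ≤ W * V * (1 + 2 * d) := by
    have h1 : W * V * (K * (1 / 2) ^ b) ≤ W * V * d := mul_le_mul_of_nonneg_left hKb hWV.le
    linarith
  refine ⟨?_, ?_, ?_⟩
  · refine le_trans ?_ hRlow
    refine mul_le_mul_of_nonneg_left (by linarith) hWV.le
  · refine hRup.trans ?_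
    refine mul_le_mul_of_nonneg_left (by linarith) hWV.le
  intro J hJ f hf
  have hsub : rg z A B ⊆ Ioc A B := filter_subset _ _
  have hbes := db_bes J (Ioc A B) (rg z A B) hsub ν (fun m _ => hν0 m)
    (fun m hm => hν1 m (mem_filter.mp hm).2) f (fun m _ => hf m) (fun χ m => χ (m : ZMod N))
    (fun χ m => χ.norm_le_one _) (2 * (z : ℝ) ^ (12 * b) * PB N) (by positivity) (by
      intro χ _ ψ _ hne
      have h1 : χ * ψ⁻¹ ≠ 1 := by
        intro h
        exact hne (mul_inv_eq_one.mp h)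
      have h2 := hχ N (χ * ψ⁻¹) h1
      refine le_trans (le_of_eq ?_) h2
      congr 1
      refine sum_congr rfl fun m _ => ?_
      rw [MulChar.mul_apply, ← MulChar.star_apply']
      rfl)
  refine hbes.trans ?_
  have hRc0 : (0 : ℝ) ≤ ((rg z A B).card : ℝ) := Nat.cast_nonneg _
  have hE : (J.card : ℝ) * (2 * (z : ℝ) ^ (12 * b) * PB N) ≤ d * (W * V) := by
    calc (J.card : ℝ) * (2 * (z : ℝ) ^ (12 * b) * PB N)
        ≤ X ^ (c / 4) * (2 * (z : ℝ) ^ (12 * b + 2) * ((C + 1) * Real.sqrt N * X ^ (c / 10))) := by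
          have h1 : (z : ℝ) ^ (12 * b) ≤ (z : ℝ) ^ (12 * b + 2) := pow_le_pow_right₀ (by linarith) (by omega)
          gcongr
      _ = (z : ℝ) ^ (12 * b + 2) * (2 * (C + 1)) * (X ^ (c / 4) * X ^ (c / 10) * Real.sqrt N) := by ring
      _ ≤ (z : ℝ) ^ (12 * b + 2) * (3 + 4 * (C + 1)) * (X ^ (c / 4) * X ^ (c / 10) * Real.sqrt N) := by
          gcongr
          linarith
      _ ≤ _ := hkey2
  have hT : ∑ m ∈ Ioc A B, ν m + J.card * (2 * (z : ℝ) ^ (12 * b) * PB N) ≤ (1 + e) * ((rg z A B).card : ℝ) := by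
    have h1 : (1 + 16 * d) * (W * V * (1 - 2 * d)) ≤ (1 + e) * ((rg z A B).card : ℝ) := by
      refine mul_le_mul (by linarith) hRlow ?_ (by linarith)
      exact mul_nonneg hWV.le (by linarith)
    have h2 : W * V * (1 + 3 * d) ≤ (1 + 16 * d) * (W * V * (1 - 2 * d)) := by
      have h3 : (1 + 3 * d) ≤ (1 + 16 * d) * (1 - 2 * d) := by
        have h4 : d * (16 * d) ≤ d * 1 := mul_le_mul_of_nonneg_left hd1 hd0.le
        linarith
      calc W * V * (1 + 3 * d) ≤ W * V * ((1 + 16 * d) * (1 - 2 * d)) := mul_le_mul_of_nonneg_left h3 hWV.le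
        _ = _ := by ring
    linarith
  calc _ ≤ ((rg z A B).card : ℝ) * ((1 + e) * ((rg z A B).card : ℝ)) := mul_le_mul_of_nonneg_left hT hRc0
    _ = _ := by ring

end Pool.Agent.Lib.EX
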