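import Pool.Agent.Lib.MP_61161c_nt.EX.Defs
import Pool.Agent.Lib.MP_61161c_nt.EX.Db

/-!
# EX, block D: counts of rough numbers and Bessel on rough numbers, for any `z`, `2 ≤ z ≤ X^c0`
-/

set_option autoImplicit false

open Finset

namespace Pool.Agent.Lib.EX

/-- `∏_{p ≤ z} (1 - 1/p)` -/
noncomputable def VV (z : ℕ) : ℝ := ∏ p ∈ (Icc 1 z).filter Nat.Prime, (1 - 1 / (p : ℝ))

open Classical in
/-- the `z`-rough numbers of `(a, b]` -/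
noncomputable def RI (z a b : ℕ) : Finset ℕ := (Ioc a b).filter fun n => Sf z (n : ℤ)

theorem VV_eq (z : ℕ) : VV z = vz z := by
  unfold VV vz
  refine prod_congr ?_ fun _ _ => rfl
  ext p
  rw [mem_filter, mem_Icc, mem_pz]
  constructor
  · rintro ⟨⟨_, h1⟩, h2⟩; exact ⟨h2, h1⟩
  · rintro ⟨h1, h2⟩; exact ⟨⟨h1.one_lt.le, h2⟩, h1⟩

theorem Sf_nat {z n : ℕ} : Sf z (n : ℤ) ↔ ∀ p ≤ z, p.Prime → ¬ p ∣ n := by
  unfold Sf
  constructor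
  · intro h p hp hpp hd
    exact h p hpp hp (by exact_mod_cast hd)
  · intro h p hpp hp hd
    exact h p hp hpp (by exact_mod_cast hd)

theorem RI_eq (z a b : ℕ) : RI z a b = rg z a b := by
  classical
  unfold RI rg
  refine filter_congr fun n _ => ?_
  exact Sf_nat

theorem VV_pos (z : ℕ) (hz : 1 ≤ z) : 0 < VV z := by rw [VV_eq]; exact vz_pos z hz

/-- the level `z ≤ X^c0` -/
theorem zlev (c : ℝ) (k : ℕ) (hk : 1 ≤ k) (c0 : ℝ) (hcs : c0 ≤ c / k) (X z : ℕ) (hX : 1 ≤ X) (hz : (z : ℝ) ≤ (X : ℝ) ^ c0) :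
    (z : ℝ) ^ k ≤ (X : ℝ) ^ c := by
  have hX1' : (1 : ℝ) ≤ X := by exact_mod_cast hX
  calc (z : ℝ) ^ k ≤ ((X : ℝ) ^ c0) ^ k := pow_le_pow_left₀ (Nat.cast_nonneg _) hz k
    _ = (X : ℝ) ^ (c0 * k) := by rw [← Real.rpow_natCast, ← Real.rpow_mul (by linarith)]
    _ ≤ (X : ℝ) ^ c := by
      refine Real.rpow_le_rpow_of_exponent_le hX1' ?_
      have hk0 : (0 : ℝ) < k := by exact_mod_cast hk
      rw [le_div_iff₀ hk0] at hcs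
      exact hcs

/-- **Rcnt** rough numbers in an interval of length `≥ X^c` -/
theorem rcnt (e c : ℝ) (he : 0 < e) (hc : 0 < c) : ∃ cs : ℝ, 0 < cs ∧ ∀ c0 : ℝ, 0 < c0 → c0 ≤ cs → ∃ X0 : ℕ,
    ∀ X z : ℕ, X0 ≤ X → 2 ≤ z → (z : ℝ) ≤ (X : ℝ) ^ c0 → ∀ a L : ℕ, (X : ℝ) ^ c ≤ L → a + L ≤ X →
    |((RI z a (a + L)).card : ℝ) - L * VV z| ≤ e * (L * VV z) := by
  obtain ⟨b, hb, X1, hX1, h⟩ := db c e hc he
  refine ⟨(c / 10) / ((12 * b + 3 : ℕ) : ℝ), by positivity, fun c0 hc0 hcs => ?_⟩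
  refine ⟨max ⌈X1⌉₊ 1, fun X z hX hz2 hz a L hL haL => ?_⟩
  have hz4 := zlev (c / 10) (12 * b + 3) (by omega) c0 hcs X z ((le_max_right _ _).trans hX) hz
  have hXX1 : X1 ≤ (X : ℝ) := (Nat.le_ceil X1).trans (by exact_mod_cast (le_max_left _ _).trans hX)
  have hX1r : (1 : ℝ) ≤ X := hX1.trans hXX1
  have h1 := h X hXX1 z hz2 hz4 1 (by
    rw [Nat.cast_one]
    exact one_le_pow₀ hX1r) a (a + L) (by omega) (by
    rw [Nat.cast_one, Real.sqrt_one, one_mul]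
    push_cast
    linarith)
  obtain ⟨h2, h3, -⟩ := h1
  rw [RI_eq, VV_eq]
  push_cast at h2 h3
  rw [add_sub_cancel_left] at h2 h3
  rw [abs_le]
  constructor <;> linarith

open Classical in
/-- **Bro** Bessel for few characters modulo `G` on rough numbers -/
theorem bro (e c : ℝ) (he : 0 < e) (hc : 0 < c) : ∃ cs : ℝ, 0 < cs ∧ ∀ c0 : ℝ, 0 < c0 → c0 ≤ cs → ∃ X0 : ℕ,
    ∀ X z : ℕ, X0 ≤ X → 2 ≤ z → (z : ℝ) ≤ (X : ℝ) ^ c0 → ∀ G : ℕ, 1 ≤ G → G ≤ X → ∀ J : Finset (DirichletCharacter ℂ G),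
    (J.card : ℝ) ≤ (X : ℝ) ^ (c / 4) → ∀ a L : ℕ, (G : ℝ) ^ (1 / 2 : ℝ) * (X : ℝ) ^ c ≤ L → a + L ≤ X →
    ∀ f : ℕ → ℂ, (∀ m, ‖f m‖ ≤ 1) →
    ∑ χ ∈ J, ‖∑ m ∈ RI z a (a + L), f m * χ (m : ZMod G)‖ ^ 2 ≤ (1 + e) * ((RI z a (a + L)).card : ℝ) ^ 2 := by
  obtain ⟨b, hb, X1, hX1, h⟩ := db c e hc he
  refine ⟨(c / 10) / ((12 * b + 3 : ℕ) : ℝ), by positivity, fun c0 hc0 hcs => ?_⟩
  refine ⟨max ⌈X1⌉₊ 1, fun X z hX hz2 hz G hG1 hGX J hJ a L hL haL f hf => ?_⟩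
  have hz4 := zlev (c / 10) (12 * b + 3) (by omega) c0 hcs X z ((le_max_right _ _).trans hX) hz
  have hXX1 : X1 ≤ (X : ℝ) := (Nat.le_ceil X1).trans (by exact_mod_cast (le_max_left _ _).trans hX)
  have hX1r : (1 : ℝ) ≤ X := hX1.trans hXX1
  haveI : NeZero G := ⟨by omega⟩
  have hGr : (G : ℝ) ≤ X := by exact_mod_cast hGX
  have h1 := h X hXX1 z hz2 hz4 G (by nlinarith) a (a + L) (by omega) (by
    rw [Real.sqrt_eq_rpow]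
    push_cast
    linarith)
  obtain ⟨-, -, h4⟩ := h1
  rw [RI_eq]
  exact h4 J hJ f hf

end Pool.Agent.Lib.EX
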