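import Pool.Agent.Lib.MP_61161c_nt.EX.Dcm

/-!
# EX, block D, module Dabc: a sign on the classes modulo `G`
-/

set_option autoImplicit false

open Finset
open Pool.Agent.Lib.MP_45349e_nt.LS (lam lam_mul lam_one)
open Pool.Agent.Lib.GT (Rough pr)

namespace Pool.Agent.Lib.EX

namespace Env

variable {e : Env}

theorem Gd_one (he : e.Ok) : e.Gd 1 := by
  refine ⟨?_, ?_⟩
  · intro p hp _ h
    have h1 := Int.natAbs_dvd_natAbs.2 h
    simp only [Int.natAbs_natCast, Int.natAbs_one, Nat.dvd_one] at h1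
    exact hp.one_lt.ne' h1
  · intro p hp h
    have h1 := Int.natAbs_dvd_natAbs.2 h
    simp only [Int.natAbs_natCast, Int.natAbs_one, Nat.dvd_one] at h1
    exact (he.BadP p hp).one_lt.ne' h1

/-- sizes for the interval of the second part -/
theorem j_sz (he : e.Ok) {G : ℕ} (hGX : G * e.Y ^ 17 ≤ e.X) {u u' : ℕ} (hu : 0 < u) (hu' : 0 < u') (_huu : u' ≤ u) (huu' : u ≤ 4 * u')
    (huY : u ≤ e.Y ^ 10) : e.x1 / u' ≤ e.x2 / u ∧ G * e.Y ≤ e.x2 / u - e.x1 / u' ∧
      9 / 10 * ((e.x2 : ℝ) / u) ≤ ((e.x2 / u - e.x1 / u' : ℕ) : ℝ) := by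
  obtain ⟨s1, s2, s3, s4, s5⟩ := x_sz he
  have hY := he.Y4
  have hY2 : 0 < e.Y ^ 2 := by positivity
  -- `x1` against `x2`
  have h1 : 9000 * e.x1 ≤ 50 * e.x2 + 9050 := by
    have h2 : e.Y ^ 2 * (9000 * e.x1) ≤ e.Y ^ 2 * (50 * e.x2 + 9050) := by
      have h3 : e.Y ^ 2 * (9000 * e.x1) = 9000 * e.Y ^ 2 * e.x1 := by ring
      have h4 : e.Y ^ 2 * (50 * e.x2 + 9050) = 50 * e.Y ^ 2 * (e.x2 + 1) + 9000 * e.Y ^ 2 := by ring
      rw [h3, h4]
      omega
    exact Nat.le_of_mul_le_mul_left h2 hY2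
  -- `x2` against `Y^14`
  have h2 : 10 ^ 6 * e.Y ^ 10 ≤ e.x2 := by
    have h3 : 50 * e.Y ^ 2 * (10 ^ 6 * e.Y ^ 10 + 1) ≤ e.X := by
      have h4 : e.Y ^ 16 ≤ e.X := he.YpX (by norm_num)
      have h5 : 50 * e.Y ^ 2 * (10 ^ 6 * e.Y ^ 10 + 1) ≤ e.Y ^ 16 := by
        have h6 : 10 ^ 9 ≤ e.Y ^ 4 := by
          calc 10 ^ 9 ≤ 40000 ^ 4 := by norm_num
            _ ≤ e.Y ^ 4 := Nat.pow_le_pow_left hY 4
        have h7 : e.Y ^ 16 = e.Y ^ 4 * e.Y ^ 12 := by ring
        have h8 : 50 * e.Y ^ 2 * (10 ^ 6 * e.Y ^ 10 + 1) = 50 * 10 ^ 6 * e.Y ^ 12 + 50 * e.Y ^ 2 := by ring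
        have h9 : e.Y ^ 2 ≤ e.Y ^ 12 := Nat.pow_le_pow_right (by omega) (by norm_num)
        rw [h7, h8]
        calc 50 * 10 ^ 6 * e.Y ^ 12 + 50 * e.Y ^ 2 ≤ 10 ^ 9 * e.Y ^ 12 := by omega
          _ ≤ e.Y ^ 4 * e.Y ^ 12 := Nat.mul_le_mul_right _ h6
      exact h5.trans h4
    by_contra hcon
    push Not at hcon
    have h4 : 50 * e.Y ^ 2 * (e.x2 + 1) ≤ 50 * e.Y ^ 2 * (10 ^ 6 * e.Y ^ 10 + 1) := Nat.mul_le_mul_left _ (by omega)
    omega
  have huR : (0 : ℝ) < u := by exact_mod_cast hu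
  have huR' : (0 : ℝ) < u' := by exact_mod_cast hu'
  have h3 : (10 : ℝ) ^ 6 ≤ e.x2 / u := by
    rw [le_div_iff₀ huR]
    have h4 : 10 ^ 6 * u ≤ e.x2 := (Nat.mul_le_mul_left _ huY).trans h2
    have h5 : ((10 ^ 6 * u : ℕ) : ℝ) ≤ (e.x2 : ℝ) := Nat.cast_le.2 h4
    rw [Nat.cast_mul] at h5
    norm_num at h5 ⊢
    exact h5
  have h4 : ((e.x1 / u' : ℕ) : ℝ) ≤ 4 * (e.x1 / u) := by
    refine (Nat.cast_div_le).trans ?_
    rw [div_le_iff₀ huR']
    have h5 : (u : ℝ) ≤ 4 * u' := by exact_mod_cast huu'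
    have h6 : 4 * ((e.x1 : ℝ) / u) * u' = e.x1 * (4 * u') / u := by ring
    rw [h6, le_div_iff₀ huR]
    exact mul_le_mul_of_nonneg_left h5 (Nat.cast_nonneg _)
  have h5 : ((e.x2 : ℝ) / u) - 1 ≤ ((e.x2 / u : ℕ) : ℝ) := by
    have := Nat.lt_div_mul_add (a := e.x2) hu
    have h6 : (e.x2 : ℝ) < (e.x2 / u : ℕ) * u + u := by exact_mod_cast this
    rw [sub_le_iff_le_add, div_le_iff₀ huR, add_mul, one_mul]
    exact h6.le
  have h6 : 4 * ((e.x1 : ℝ) / u) ≤ 5 / 100 * (e.x2 / u) := by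
    have h7 : (9000 : ℝ) * e.x1 ≤ 50 * e.x2 + 9050 := by exact_mod_cast h1
    have h8 : (10 : ℝ) ^ 6 ≤ e.x2 := by
      have h9 : 10 ^ 6 ≤ e.x2 := by
        have : 1 ≤ e.Y ^ 10 := Nat.one_le_pow _ _ (by omega)
        omega
      exact_mod_cast h9
    have h9 : 4 * (e.x1 : ℝ) ≤ 5 / 100 * e.x2 := by linarith
    calc 4 * ((e.x1 : ℝ) / u) = (4 * e.x1) / u := by ring
      _ ≤ (5 / 100 * e.x2) / u := by gcongr
      _ = _ := by ring
  have h7 : ((e.x1 / u' : ℕ) : ℝ) ≤ ((e.x2 / u : ℕ) : ℝ) := by linarith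
  have h7' : e.x1 / u' ≤ e.x2 / u := by exact_mod_cast h7
  have h8 : 9 / 10 * ((e.x2 : ℝ) / u) ≤ ((e.x2 / u - e.x1 / u' : ℕ) : ℝ) := by
    rw [Nat.cast_sub h7']
    linarith
  refine ⟨h7', ?_, h8⟩
  have h9 : ((G * e.Y : ℕ) : ℝ) ≤ 9 / 10 * ((e.x2 : ℝ) / u) := by
    have hYR : (0 : ℝ) < e.Y := by
      have : 0 < e.Y := by omega
      exact_mod_cast this
    rw [← mul_div_assoc, le_div_iff₀ huR]
    have h10 : ((G * e.Y : ℕ) : ℝ) * u ≤ (G * e.Y) * (e.Y : ℝ) ^ 10 := by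
      push_cast
      have : (u : ℝ) ≤ (e.Y : ℝ) ^ 10 := by exact_mod_cast huY
      gcongr
    have h11 : (G : ℝ) * (e.Y : ℝ) ^ 17 ≤ e.X := by exact_mod_cast hGX
    have h12 : (e.X : ℝ) ≤ 50 * (e.Y : ℝ) ^ 2 * (e.x2 + 1) := by exact_mod_cast s3.le
    have h13 : (40000 : ℝ) ≤ e.Y := by exact_mod_cast hY
    have h14 : (1 : ℝ) ≤ e.x2 := by
      have h15 : 1 ≤ e.x2 := by
        have : 1 ≤ e.Y ^ 10 := Nat.one_le_pow _ _ (by omega)
        omega
      exact_mod_cast h15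
    have h15 : (e.Y : ℝ) ^ 2 * ((G * e.Y) * (e.Y : ℝ) ^ 10) ≤ (e.Y : ℝ) ^ 2 * (9 / 10 * e.x2) := by
      have h16 : (e.Y : ℝ) ^ 4 * ((e.Y : ℝ) ^ 2 * ((G * e.Y) * (e.Y : ℝ) ^ 10)) ≤ (e.Y : ℝ) ^ 4 * ((e.Y : ℝ) ^ 2 * (9 / 10 * e.x2)) := by
        calc (e.Y : ℝ) ^ 4 * ((e.Y : ℝ) ^ 2 * ((G * e.Y) * (e.Y : ℝ) ^ 10)) = G * (e.Y : ℝ) ^ 17 := by ring
          _ ≤ (e.X : ℝ) := h11
          _ ≤ 50 * (e.Y : ℝ) ^ 2 * (e.x2 + 1) := h12
          _ ≤ 50 * (e.Y : ℝ) ^ 2 * (2 * e.x2) := by gcongr; linarith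
          _ = 100 * ((e.Y : ℝ) ^ 2 * e.x2) := by ring
          _ ≤ (9 / 10 * (e.Y : ℝ) ^ 4) * ((e.Y : ℝ) ^ 2 * e.x2) := by
              have h17 : (100 : ℝ) ≤ 9 / 10 * (e.Y : ℝ) ^ 4 := by
                have h18 : (40000 : ℝ) ^ 4 ≤ (e.Y : ℝ) ^ 4 := pow_le_pow_left₀ (by norm_num) h13 4
                norm_num at h18
                linarith
              have h18 : (0 : ℝ) ≤ (e.Y : ℝ) ^ 2 * e.x2 := by positivity
              exact mul_le_mul_of_nonneg_right h17 h18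
          _ = (e.Y : ℝ) ^ 4 * ((e.Y : ℝ) ^ 2 * (9 / 10 * e.x2)) := by ring
      exact le_of_mul_le_mul_left h16 (by positivity)
    have h16 := le_of_mul_le_mul_left h15 (by positivity : (0 : ℝ) < (e.Y : ℝ) ^ 2)
    linarith
  have h10 : ((G * e.Y : ℕ) : ℝ) ≤ ((e.x2 / u - e.x1 / u' : ℕ) : ℝ) := h9.trans h8
  exact_mod_cast h10

open Classical in
/-- **DABC** -/
theorem dabc (he : e.Ok) (hP1 : e.P1 36) (hR : e.RC) {G : ℕ} [NeZero G] {dl : ℝ} (hdl : 0 ≤ dl) (hAP : e.AP G) (hPer : e.Per G dl) :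
    ∃ F : ZMod G → ℝ, (∀ x, ¬ IsUnit x → F x = 0) ∧ (∀ x, IsUnit x → F x = 1 ∨ F x = -1) ∧
    (((rg e.z (e.X / (9000 * e.Y ^ 2) + 1) (e.X / (50 * e.Y ^ 2))).filter
      (fun n : ℕ => n.Coprime G ∧ lam n ≠ F n)).card : ℝ) ≤ 200 * dl * ((e.X / (50 * e.Y ^ 2) : ℕ) * vz e.z) ∧
    ∀ u u' : ℕ, e.Gd u → e.Gd u' → u.Coprime G → u'.Coprime G → u' ≤ u → u ≤ 4 * u' → u ≤ e.Y ^ 10 →
      ((univ.filter (fun r : ZMod G => IsUnit r ∧ lam u * F (u * r) ≠ lam u' * F (u' * r))).card : ℝ) ≤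
        200 * dl * G.totient := by
  have hz := he.z2
  have hG0 := hPer.G0
  have hY := he.Y4
  have hvz := vz_pos' he
  have hphi : (0 : ℝ) < G.totient := by exact_mod_cast Nat.totient_pos.2 hG0
  refine ⟨e.Fm G, ?_, ?_, ?_, ?_⟩
  · intro x hx
    unfold Fm
    rw [if_neg hx]
  · intro x hx
    unfold Fm
    rw [if_pos hx]
    split_ifs
    · exact Or.inl rfl
    · exact Or.inr rfl
  · have h1 := du_card he hP1 hR hdl hPer hAP (u := 1) (by
      push_cast
      exact Gd_one he) (Nat.one_le_pow _ _ (by omega)) (Nat.coprime_one_left G)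
    have h2 : (rg e.z (e.X / (9000 * e.Y ^ 2) + 1) (e.X / (50 * e.Y ^ 2))).filter
        (fun n : ℕ => n.Coprime G ∧ lam n ≠ e.Fm G n) ⊆ e.Du G 1 := by
      intro n hn
      rw [mem_filter, mem_rg] at hn
      obtain ⟨⟨⟨h3, h4⟩, h5⟩, h6, h7⟩ := hn
      unfold Du TT1
      rw [mem_filter, mem_filter, mem_rg, one_mul, lam_one, one_mul]
      exact ⟨⟨⟨⟨lt_of_le_of_lt (Nat.zero_le _) h3, h4⟩, h5⟩, h3, h4, h6⟩, h7⟩
    have h3 : (((rg e.z (e.X / (9000 * e.Y ^ 2) + 1) (e.X / (50 * e.Y ^ 2))).filter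
        (fun n : ℕ => n.Coprime G ∧ lam n ≠ e.Fm G n)).card : ℝ) ≤ (e.Du G 1).card := by
      exact_mod_cast card_le_card h2
    refine h3.trans (h1.trans ?_)
    have h4 : ((e.X / (50 * e.Y ^ 2) : ℕ) : ℝ) = e.x2 := rfl
    rw [h4, Nat.cast_one, div_one]
    have h5 : 0 ≤ dl * ((e.x2 : ℝ) * vz e.z) := by positivity
    nlinarith
  · intro u u' hu hu' huG hu'G huu huu' huY
    have hup : 0 < u := by
      have := hu.1.ne0 hz
      omega
    have hup' : 0 < u' := by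
      have := hu'.1.ne0 hz
      omega
    have huR : (0 : ℝ) < u := by exact_mod_cast hup
    have huR' : (0 : ℝ) < u' := by exact_mod_cast hup'
    obtain ⟨j1, j2, j3⟩ := j_sz he hPer.GX hup hup' huu huu' huY
    have d1 := du_card he hP1 hR hdl hPer hAP hu huY huG
    have d2 := du_card he hP1 hR hdl hPer hAP hu' (huu.trans huY) hu'G
    set L : ℕ := e.x2 / u - e.x1 / u' with hL
    have hadd : e.x1 / u' + L = e.x2 / u := by omega
    have hx2X : e.x2 ≤ e.X := by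
      have h1 : e.x2 ≤ 50 * e.Y ^ 2 * e.x2 := Nat.le_mul_of_pos_left _ (by positivity)
      have := (x_sz he).2.1
      omega
    have hx2u : e.x2 / u ≤ e.x2 := Nat.div_le_self _ _
    set B : Finset (ZMod G) := univ.filter (fun r : ZMod G => IsUnit r ∧ lam u * e.Fm G (u * r) ≠ lam u' * e.Fm G (u' * r)) with hB
    have hvote : ∀ r ∈ B, 99 / 100 * (L * vz e.z / G.totient) ≤
        (((e.Du G u ∪ e.Du G u').filter fun t : ℕ => (t : ZMod G) = r).card : ℝ) := by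
      intro r hr
      rw [hB, mem_filter] at hr
      obtain ⟨-, hr1, hr2⟩ := hr
      have hrval : ((r.val : ℕ) : ZMod G) = r := ZMod.natCast_zmod_val r
      have hco : r.val.Coprime G := by
        rw [← hrval] at hr1
        exact (ZMod.isUnit_iff_coprime _ _).1 hr1
      have h1 := hAP r.val (e.x1 / u') L hco (by omega) j2
      rw [hadd] at h1
      have h2 := (abs_le.1 h1).1
      have h3 := he.eta1
      have h4 : 0 ≤ (L : ℝ) * vz e.z / G.totient := by positivity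
      have h5 : (rg e.z (e.x1 / u') (e.x2 / u)).filter (fun n : ℕ => n ≡ r.val [MOD G]) ⊆
          (e.Du G u ∪ e.Du G u').filter fun t : ℕ => (t : ZMod G) = r := by
        intro t ht
        rw [mem_filter, mem_rg] at ht
        obtain ⟨⟨⟨t1, t2⟩, t3⟩, t4⟩ := ht
        have t5 : (t : ZMod G) = r := by
          rw [← hrval]
          exact (ZMod.natCast_eq_natCast_iff _ _ _).2 t4
        have t6 : t.Coprime G := by
          rw [← t5] at hr1
          exact (ZMod.isUnit_iff_coprime _ _).1 hr1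
        have t7 : e.x1 < t * u' := (Nat.div_lt_iff_lt_mul hup').1 t1
        have t8 : t * u ≤ e.x2 := (Nat.le_div_iff_mul_le hup).1 t2
        have t9 : t * u' ≤ t * u := Nat.mul_le_mul_left _ huu
        have t10 : t ≤ t * u := Nat.le_mul_of_pos_right _ hup
        have t11 : 0 < t := lt_of_le_of_lt (Nat.zero_le _) t1
        clear t1 hadd
        rw [mem_filter]
        refine ⟨?_, t5⟩
        rw [mem_union]
        by_contra hcon
        push Not at hcon
        obtain ⟨c1, c2⟩ := hcon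
        unfold Du at c1 c2
        rw [mem_filter] at c1 c2
        have m1 : t ∈ e.TT1 G u := by
          unfold TT1
          rw [mem_filter, mem_rg, mul_comm u t]
          exact ⟨⟨⟨by omega, by omega⟩, t3⟩, by omega, t8, t6⟩
        have m2 : t ∈ e.TT1 G u' := by
          unfold TT1
          rw [mem_filter, mem_rg, mul_comm u' t]
          exact ⟨⟨⟨by omega, by omega⟩, t3⟩, t7, by omega, t6⟩
        have c3 : lam u * lam t = e.Fm G ((u * t : ℕ) : ZMod G) := by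
          by_contra h
          exact c1 ⟨m1, h⟩
        have c4 : lam u' * lam t = e.Fm G ((u' * t : ℕ) : ZMod G) := by
          by_contra h
          exact c2 ⟨m2, h⟩
        apply hr2
        rw [← t5]
        have c5 : (u : ZMod G) * (t : ZMod G) = ((u * t : ℕ) : ZMod G) := by push_cast; ring
        have c6 : (u' : ZMod G) * (t : ZMod G) = ((u' * t : ℕ) : ZMod G) := by push_cast; ring
        rw [c5, c6, ← c3, ← c4]
        rcases lam_pm' u with h | h <;> rcases lam_pm' u' with h' | h' <;> rw [h, h'] <;> ring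
      have h6 : (((rg e.z (e.x1 / u') (e.x2 / u)).filter (fun n : ℕ => n ≡ r.val [MOD G])).card : ℝ) ≤
          (((e.Du G u ∪ e.Du G u').filter fun t : ℕ => (t : ZMod G) = r).card : ℝ) := by
        exact_mod_cast card_le_card h5
      nlinarith
    have h1 : (B.card : ℝ) * (99 / 100 * (L * vz e.z / G.totient)) ≤ ((e.Du G u).card : ℝ) + (e.Du G u').card := by
      have h2 : ∑ r ∈ B, ((e.Du G u ∪ e.Du G u').filter fun t : ℕ => (t : ZMod G) = r).card ≤ (e.Du G u ∪ e.Du G u').card := by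
        rw [← card_biUnion]
        · apply card_le_card
          intro x hx
          rw [mem_biUnion] at hx
          obtain ⟨t, -, ht⟩ := hx
          exact (mem_filter.1 ht).1
        · intro a _ b _ hab
          simp only [Function.onFun]
          rw [disjoint_left]
          intro x h1 h2
          rw [mem_filter] at h1 h2
          exact hab (h1.2.symm.trans h2.2)
      have h3 : (e.Du G u ∪ e.Du G u').card ≤ (e.Du G u).card + (e.Du G u').card := card_union_le _ _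
      calc (B.card : ℝ) * (99 / 100 * (L * vz e.z / G.totient)) = ∑ r ∈ B, 99 / 100 * (L * vz e.z / G.totient) := by
            rw [sum_const, nsmul_eq_mul]
        _ ≤ ∑ r ∈ B, (((e.Du G u ∪ e.Du G u').filter fun t : ℕ => (t : ZMod G) = r).card : ℝ) := sum_le_sum hvote
        _ ≤ _ := by exact_mod_cast h2.trans h3
    have h2 : (e.x2 : ℝ) / u' ≤ 4 * (e.x2 / u) := by
      rw [div_le_iff₀ huR']
      have h5 : (u : ℝ) ≤ 4 * u' := by exact_mod_cast huu'
      have h6 : 4 * ((e.x2 : ℝ) / u) * u' = e.x2 * (4 * u') / u := by ring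
      rw [h6, le_div_iff₀ huR]
      exact mul_le_mul_of_nonneg_left h5 (Nat.cast_nonneg _)
    set w : ℝ := e.x2 / u * vz e.z with hw
    have hx2p : (0 : ℝ) < e.x2 := by
      have h3 : 0 < L := by
        have : 0 < G * e.Y := Nat.mul_pos hG0 (by omega)
        omega
      have h4 : 0 < e.x2 / u := lt_of_lt_of_le h3 (Nat.sub_le _ _)
      have h5 : 0 < e.x2 := lt_of_lt_of_le h4 (Nat.div_le_self _ _)
      exact_mod_cast h5
    have hwp : 0 < w := by positivity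
    have h3 : ((e.Du G u).card : ℝ) + (e.Du G u').card ≤ 100 * dl * w := by
      have h4 : ((e.Du G u').card : ℝ) ≤ 20 * dl * (4 * w) := by
        refine d2.trans ?_
        have : (e.x2 : ℝ) / u' * vz e.z ≤ 4 * w := by
          rw [hw, ← mul_assoc]
          exact mul_le_mul_of_nonneg_right h2 hvz.le
        exact mul_le_mul_of_nonneg_left this (by positivity)
      linarith
    have h4 : (B.card : ℝ) * (99 / 100 * (9 / 10 * w / G.totient)) ≤ 100 * dl * w := by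
      refine le_trans ?_ (h1.trans h3)
      apply mul_le_mul_of_nonneg_left _ (Nat.cast_nonneg _)
      have h5 : 9 / 10 * w ≤ L * vz e.z := by
        rw [hw, ← mul_assoc]
        exact mul_le_mul_of_nonneg_right j3 hvz.le
      gcongr
    have h5 : w * (B.card : ℝ) ≤ w * (100 * 1000 / (99 * 9) * dl * G.totient) := by
      have h6 : (B.card : ℝ) * (99 / 100 * (9 / 10 * w / G.totient)) * G.totient = 891 / 1000 * (w * B.card) := by
        field_simp
        ring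
      have h7 := mul_le_mul_of_nonneg_right h4 hphi.le
      rw [h6] at h7
      linarith
    have h6 := le_of_mul_le_mul_left h5 hwp
    have h7 : 0 ≤ dl * (G.totient : ℝ) := by positivity
    linarith

end Env

end Pool.Agent.Lib.EX
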