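import Pool.Agent.Lib.MP_61161c_nt.EX.Rap

/-!
# EX, block D: rough numbers of an interval in a reduced class modulo `G`, two sided
-/

set_option autoImplicit false

open Finset

namespace Pool.Agent.Lib.EX

open Pool.Agent.Lib.TC (flm)
open Pool.Agent.Lib.GT (NJ NJ_le)

/-- numbers of `(a, b]` in one class modulo `r` -/
theorem count_modI (r t a b : ℕ) (hr : 0 < r) (hab : a ≤ b) :
    |∑ m ∈ Ioc a b, (if m ≡ t [MOD r] then (1 : ℝ) else 0) - ((b : ℝ) - a) / r| ≤ 1 := by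
  have h0 : ∑ m ∈ Ioc a b, (if m ≡ t [MOD r] then (1 : ℝ) else 0) =
      (((Ioc a b).filter (fun m => m ≡ t [MOD r])).card : ℝ) := by
    rw [← sum_filter, sum_const, nsmul_eq_mul, mul_one]
  have h1 := Nat.Ioc_filter_modEq_card a b hr t
  rw [h0]
  have h2 : (((Ioc a b).filter (fun m => m ≡ t [MOD r])).card : ℝ) =
      ((((Ioc a b).filter (fun m => m ≡ t [MOD r])).card : ℤ) : ℝ) := by push_cast; rfl
  rw [h2, h1]
  have hrr : (0 : ℝ) < r := by exact_mod_cast hr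
  have hmono : ⌊((a : ℚ) - t) / r⌋ ≤ ⌊((b : ℚ) - t) / r⌋ := by
    apply Int.floor_le_floor
    have : (0 : ℚ) < r := by exact_mod_cast hr
    have hy : (a : ℚ) ≤ b := by exact_mod_cast hab
    gcongr
  rw [max_eq_left (by linarith)]
  have f1 := Int.floor_le (((b : ℚ) - t) / r)
  have f2 := Int.lt_floor_add_one (((b : ℚ) - t) / r)
  have f3 := Int.floor_le (((a : ℚ) - t) / r)
  have f4 := Int.lt_floor_add_one (((a : ℚ) - t) / r)
  set A : ℤ := ⌊((b : ℚ) - t) / r⌋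
  set B : ℤ := ⌊((a : ℚ) - t) / r⌋
  have e1 : ((b : ℚ) - t) / r - ((a : ℚ) - t) / r = ((b : ℚ) - a) / r := by ring
  have g1 : ((A - B : ℤ) : ℚ) ≤ ((b : ℚ) - a) / r + 1 := by push_cast; linarith
  have g2 : ((b : ℚ) - a) / r - 1 ≤ ((A - B : ℤ) : ℚ) := by push_cast; linarith
  have g1' : ((A - B : ℤ) : ℝ) ≤ ((b : ℝ) - a) / r + 1 := by
    have h := (Rat.cast_le (K := ℝ)).mpr g1
    push_cast at h ⊢
    exact h
  have g2' : ((b : ℝ) - a) / r - 1 ≤ ((A - B : ℤ) : ℝ) := by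
    have h := (Rat.cast_le (K := ℝ)).mpr g2
    push_cast at h ⊢
    exact h
  rw [abs_le]
  constructor <;> linarith

theorem count_modI_dvd (G D x a b : ℕ) (hG : 0 < G) (hD : 0 < D) (hGD : D.Coprime G) (hab : a ≤ b) :
    |∑ m ∈ Ioc a b, (if m ≡ x [MOD G] ∧ D ∣ m then (1 : ℝ) else 0) - ((b : ℝ) - a) / (G * D)| ≤ 1 := by
  have hco : G.Coprime D := hGD.symm
  set t := (Nat.chineseRemainder hco x 0 : ℕ) with ht
  have h1 : t ≡ x [MOD G] := (Nat.chineseRemainder hco x 0).2.1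
  have h2 : t ≡ 0 [MOD D] := (Nat.chineseRemainder hco x 0).2.2
  have h3 : ∀ m, (m ≡ x [MOD G] ∧ D ∣ m) ↔ m ≡ t [MOD G * D] := by
    intro m
    rw [← Nat.modEq_and_modEq_iff_modEq_mul hco]
    constructor
    · rintro ⟨h4, h5⟩
      exact ⟨h4.trans h1.symm, ((Nat.modEq_zero_iff_dvd).mpr h5).trans h2.symm⟩
    · rintro ⟨h4, h5⟩
      exact ⟨h4.trans h1, (Nat.modEq_zero_iff_dvd).mp (h5.trans h2)⟩
  have h4 := count_modI (G * D) t a b (Nat.mul_pos hG hD) hab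
  push_cast at h4
  simp_rw [h3]
  exact h4

theorem prod_one_sub_ge {ι : Type*} (s : Finset ι) (f : ι → ℝ) (h0 : ∀ i ∈ s, 0 ≤ f i) (h1 : ∀ i ∈ s, f i ≤ 1) :
    1 - ∑ i ∈ s, f i ≤ ∏ i ∈ s, (1 - f i) := by
  classical
  induction s using Finset.induction_on with
  | empty => simp
  | insert i s hi ih =>
    rw [sum_insert hi, prod_insert hi]
    have h2 := ih (fun j hj => h0 j (mem_insert_of_mem hj)) (fun j hj => h1 j (mem_insert_of_mem hj))
    have h3 := h0 i (mem_insert_self _ _)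
    have h4 := h1 i (mem_insert_self _ _)
    have h5 : 0 ≤ ∑ j ∈ s, f j := sum_nonneg fun j hj => h0 j (mem_insert_of_mem hj)
    calc 1 - (f i + ∑ j ∈ s, f j) ≤ (1 - f i) * (1 - ∑ j ∈ s, f j) := by nlinarith
      _ ≤ _ := mul_le_mul_of_nonneg_left h2 (by linarith)

/-- the large primes of `G` cost a factor `1 - log G / z` -/
theorem big_part (z G : ℕ) (hz : 2 ≤ z) (hG : 1 ≤ G) :
    1 - 2 * Real.log G / z ≤ ∏ p ∈ G.primeFactors.filter (fun p => z < p), (1 - 1 / (p : ℝ)) := by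
  set S := G.primeFactors.filter (fun p => z < p) with hS
  have hzr : (2 : ℝ) ≤ z := by exact_mod_cast hz
  have hzp : (0 : ℝ) < z := by linarith
  have h1 : (S.card : ℝ) * Real.log 2 ≤ Real.log G := by
    have h2 : ∏ p ∈ S, p ∣ G :=
      Nat.dvd_trans (prod_dvd_prod_of_subset _ _ _ (filter_subset _ _)) (Nat.prod_primeFactors_dvd G)
    have h3 : 2 ^ S.card ≤ ∏ p ∈ S, p := by
      rw [← prod_const]
      exact prod_le_prod' fun p hp => (Nat.prime_of_mem_primeFactors (mem_filter.mp hp).1).two_le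
    have h4 : 2 ^ S.card ≤ G := h3.trans (Nat.le_of_dvd (by omega) h2)
    have h5 : ((2 : ℝ)) ^ S.card ≤ G := by exact_mod_cast h4
    have h6 := Real.log_le_log (by positivity) h5
    rwa [Real.log_pow] at h6
  have h2 : 1 - ∑ p ∈ S, 1 / (p : ℝ) ≤ ∏ p ∈ S, (1 - 1 / (p : ℝ)) := by
    exact prod_one_sub_ge S (fun p : ℕ => 1 / (p : ℝ)) (fun p _ => by positivity) (fun p hp => by
        have h3 : (1 : ℝ) ≤ p := by
          exact_mod_cast (Nat.prime_of_mem_primeFactors (mem_filter.mp hp).1).one_lt.le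
        rw [div_le_one (by linarith)]
        exact h3)
  have h3 : ∑ p ∈ S, 1 / (p : ℝ) ≤ S.card * (1 / (z : ℝ)) := by
    rw [← nsmul_eq_mul, ← sum_const]
    refine sum_le_sum fun p hp => ?_
    have h4 : (z : ℝ) ≤ p := by exact_mod_cast (mem_filter.mp hp).2.le
    exact one_div_le_one_div_of_le hzp h4
  have h4 : (S.card : ℝ) ≤ 2 * Real.log G := by
    have h5 := Real.log_two_gt_d9
    have h6 : (0 : ℝ) ≤ S.card := Nat.cast_nonneg _
    nlinarith
  have h5 : (S.card : ℝ) * (1 / (z : ℝ)) ≤ 2 * Real.log G * (1 / (z : ℝ)) := by gcongr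
  have h6 : 2 * Real.log G * (1 / (z : ℝ)) = 2 * Real.log G / z := by ring
  linarith

/-- `V_G(z) / G` against `V(z) / φ(G)` -/
theorem VG_two (z G : ℕ) (hz : 2 ≤ z) (hG : 1 ≤ G) :
    (1 - 2 * Real.log G / z) * (vz z / G.totient) ≤
      (∏ p ∈ (pz z).filter (fun p => ¬ p ∣ G), (1 - 1 / (p : ℝ))) / G ∧
    (∏ p ∈ (pz z).filter (fun p => ¬ p ∣ G), (1 - 1 / (p : ℝ))) / G ≤ vz z / G.totient := by
  have hGr : (0 : ℝ) < G := by exact_mod_cast hG
  have hφ : (0 : ℝ) < G.totient := by exact_mod_cast Nat.totient_pos.mpr (by omega)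
  have h1 := VG_le z G hG
  constructor
  · have hpos : ∀ p : ℕ, p.Prime → 0 < 1 - 1 / (p : ℝ) ∧ 1 - 1 / (p : ℝ) ≤ 1 := by
      intro p hp
      have : (2 : ℝ) ≤ p := by exact_mod_cast hp.two_le
      constructor
      · rw [sub_pos, div_lt_one (by linarith)]; linarith
      · have : 0 ≤ 1 / (p : ℝ) := by positivity
        linarith
    have h2 : (G.totient : ℝ) = G * ∏ p ∈ G.primeFactors, (1 - 1 / (p : ℝ)) := by
      have h := Nat.totient_eq_mul_prod_factors G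
      have h' : ((G.totient : ℚ) : ℝ) = ((G * ∏ p ∈ G.primeFactors, (1 - (p : ℚ)⁻¹) : ℚ) : ℝ) := by rw [h]
      push_cast at h'
      rw [h']
      simp [one_div]
    have h3 : vz z = (∏ p ∈ (pz z).filter (fun p => p ∣ G), (1 - 1 / (p : ℝ))) *
        ∏ p ∈ (pz z).filter (fun p => ¬ p ∣ G), (1 - 1 / (p : ℝ)) := by
      unfold vz
      rw [prod_filter_mul_prod_filter_not]
    have h4 : ∏ p ∈ G.primeFactors, (1 - 1 / (p : ℝ)) =
        (∏ p ∈ (pz z).filter (fun p => p ∣ G), (1 - 1 / (p : ℝ))) *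
          ∏ p ∈ G.primeFactors.filter (fun p => z < p), (1 - 1 / (p : ℝ)) := by
      rw [← prod_filter_not_mul_prod_filter (s := G.primeFactors) (p := fun p => z < p)]
      congr 1
      refine prod_congr ?_ fun _ _ => rfl
      ext p
      rw [mem_filter, mem_filter, mem_pz, Nat.mem_primeFactors]
      constructor
      · rintro ⟨⟨h5, h6, h7⟩, h8⟩; exact ⟨⟨h5, by omega⟩, h6⟩
      · rintro ⟨⟨h5, h6⟩, h7⟩; exact ⟨⟨h5, h7, by omega⟩, by omega⟩
    have h5 := big_part z G hz hG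
    set a := ∏ p ∈ (pz z).filter (fun p => p ∣ G), (1 - 1 / (p : ℝ)) with ha
    set V' := ∏ p ∈ (pz z).filter (fun p => ¬ p ∣ G), (1 - 1 / (p : ℝ)) with hV'
    set b := ∏ p ∈ G.primeFactors.filter (fun p => z < p), (1 - 1 / (p : ℝ)) with hb
    have ha0 : 0 < a := prod_pos fun p hp => (hpos p (mem_pz.mp (mem_filter.mp hp).1).1).1
    have hV0 : 0 < V' := prod_pos fun p hp => (hpos p (mem_pz.mp (mem_filter.mp hp).1).1).1
    have hb0 : 0 < b := prod_pos fun p hp => (hpos p (Nat.prime_of_mem_primeFactors (mem_filter.mp hp).1)).1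
    rw [h2, h4, h3]
    have h6 : a * V' / (G * (a * b)) = (V' / G) / b := by field_simp
    rw [h6]
    calc (1 - 2 * Real.log G / z) * (V' / G / b) ≤ b * (V' / G / b) := by gcongr
      _ = V' / G := by field_simp
  · rw [div_le_div_iff₀ hGr hφ]
    calc _ = (G.totient : ℝ) * ∏ p ∈ (pz z).filter (fun p => ¬ p ∣ G), (1 - 1 / (p : ℝ)) := mul_comm _ _
      _ ≤ _ := h1
      _ = _ := mul_comm _ _

/-- the sieve in a reduced class, both sides -/
theorem rap2_cnt : ∃ K : ℝ, 1 ≤ K ∧ ∀ b : ℕ, 1 ≤ b → ∀ z : ℕ, 2 ≤ z → ∀ G r a L : ℕ, 1 ≤ G → r.Coprime G →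
    (L / G * ((1 - K * (1 / 2) ^ b) * ∏ p ∈ (pz z).filter (fun p => ¬ p ∣ G), (1 - 1 / (p : ℝ))) - (z : ℝ) ^ (12 * b + 2) ≤
      (((rg z a (a + L)).filter (fun n : ℕ => n ≡ r [MOD G])).card : ℝ)) ∧
    ((((rg z a (a + L)).filter (fun n : ℕ => n ≡ r [MOD G])).card : ℝ) ≤
      L / G * ((1 + K * (1 / 2) ^ b) * ∏ p ∈ (pz z).filter (fun p => ¬ p ∣ G), (1 - 1 / (p : ℝ))) + (z : ℝ) ^ (12 * b)) := by
  classical
  obtain ⟨K, hK, hflm⟩ := flm 1 (by norm_num)
  refine ⟨K, hK, fun b hb z hz2 G r a L hG hr => ?_⟩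
  set P : Finset ℕ := (pz z).filter (fun p => ¬ p ∣ G) with hP
  have hPpz : P ⊆ pz z := filter_subset _ _
  obtain ⟨up, lo, hbd, hsup, hpt, hdens⟩ := hflm b hb z hz2 P (fun r hr => mem_pz.mp (hPpz hr))
  set D : Finset (Finset ℕ) := P.powerset.filter (fun d => up d ≠ 0 ∨ lo d ≠ 0) with hD
  have hDP : ∀ d ∈ D, d ⊆ P := fun d hd => mem_powerset.mp (mem_filter.mp hd).1
  have hDsub : ∀ d ∈ D, d ⊆ pz z := fun d hd => (hDP d hd).trans hPpz
  have hDT : ∀ d ∈ D, ∏ r ∈ d, r ≤ z ^ (12 * b) := by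
    intro d hd
    have h1 := hsup d (hDP d hd) (mem_filter.mp hd).2
    exact_mod_cast h1
  have hDcard : (D.card : ℝ) ≤ (z : ℝ) ^ (12 * b) := by
    have := card_small z (z ^ (12 * b)) D hDsub hDT
    exact_mod_cast this
  have hDpos : ∀ d ∈ D, 0 < ∏ r ∈ d, r := fun d hd =>
    Nat.pos_of_ne_zero (prod_ne_zero_iff.mpr fun r hr => (mem_pz.mp (hDsub d hd hr)).1.ne_zero)
  have hDco : ∀ d ∈ D, (∏ r ∈ d, r).Coprime G := by
    intro d hd
    refine Nat.Coprime.prod_left fun r hr => ?_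
    have h1 := mem_filter.mp (hDP d hd hr)
    exact (Nat.Prime.coprime_iff_not_dvd (mem_pz.mp h1.1).1).mpr h1.2
  have hresU : ∀ (g : Finset ℕ → ℝ), ∑ d ∈ P.powerset, up d * g d = ∑ d ∈ D, up d * g d := by
    intro g
    rw [hD, sum_filter]
    refine sum_congr rfl fun d _ => ?_
    by_cases h : up d = 0
    · rw [h]; simp
    · rw [if_pos (Or.inl h)]
  have hresL : ∀ (g : Finset ℕ → ℝ), ∑ d ∈ P.powerset, lo d * g d = ∑ d ∈ D, lo d * g d := by
    intro g
    rw [hD, sum_filter]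
    refine sum_congr rfl fun d _ => ?_
    by_cases h : lo d = 0
    · rw [h]; simp
    · rw [if_pos (Or.inr h)]
  have hpow : ∀ (w : Finset ℕ → ℝ) (m : ℕ), ∑ d ∈ (P.filter (· ∣ m)).powerset, w d =
      ∑ d ∈ P.powerset, w d * (if (∏ r ∈ d, r) ∣ m then 1 else 0) := by
    intro w m
    have h1 : (P.filter (· ∣ m)).powerset = P.powerset.filter (fun d => (∏ r ∈ d, r) ∣ m) := by
      ext d
      rw [mem_powerset, mem_filter, mem_powerset]
      constructor
      · intro h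
        have h2 := h.trans (filter_subset _ _)
        refine ⟨h2, prod_primes_dvd m (fun r hr => (mem_pz.mp (hPpz (h2 hr))).1.prime) fun r hr => (mem_filter.mp (h hr)).2⟩
      · rintro ⟨h2, h3⟩ r hr
        exact mem_filter.mpr ⟨h2 hr, (dvd_prod_of_mem _ hr).trans h3⟩
    rw [h1, sum_filter]
    refine sum_congr rfl fun d _ => ?_
    split_ifs <;> simp
  -- in a reduced class, rough means: no divisor in `P`
  have hrough : ∀ m : ℕ, m ≡ r [MOD G] → ((∀ p ≤ z, p.Prime → ¬ p ∣ m) ↔ P.filter (· ∣ m) = ∅) := by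
    intro m hm
    rw [filter_eq_empty_iff]
    constructor
    · intro h p hp
      have h2 := mem_pz.mp (hPpz hp)
      exact h p h2.2 h2.1
    · intro h p hp hpp hd
      by_cases hpG : p ∣ G
      · have h3 : p ∣ r := by
          have h4 : m ≡ r [MOD p] := hm.of_dvd hpG
          exact (Nat.modEq_zero_iff_dvd).mp (h4.symm.trans ((Nat.modEq_zero_iff_dvd).mpr hd))
        have h4 : p ∣ 1 := by
          have := Nat.dvd_gcd h3 hpG
          rwa [hr] at this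
        exact hpp.one_lt.ne' (Nat.dvd_one.mp h4)
      · exact h (mem_filter.mpr ⟨mem_pz.mpr ⟨hpp, hp⟩, hpG⟩) hd
  set Cnt : ℝ := (((rg z a (a + L)).filter (fun n : ℕ => n ≡ r [MOD G])).card : ℝ) with hCnt
  have hCeq : Cnt = ∑ m ∈ Ioc a (a + L), (if m ≡ r [MOD G] then (1 : ℝ) else 0) *
      (if P.filter (· ∣ m) = ∅ then (1 : ℝ) else 0) := by
    have h1 : ∀ m ∈ Ioc a (a + L), (if m ≡ r [MOD G] then (1 : ℝ) else 0) * (if P.filter (· ∣ m) = ∅ then (1 : ℝ) else 0) =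
        if ((∀ p ≤ z, p.Prime → ¬ p ∣ m) ∧ m ≡ r [MOD G]) then (1 : ℝ) else 0 := by
      intro m _
      by_cases h2 : m ≡ r [MOD G]
      · by_cases h3 : P.filter (· ∣ m) = ∅
        · rw [if_pos h2, if_pos h3, if_pos ⟨(hrough m h2).mpr h3, h2⟩, one_mul]
        · rw [if_neg h3, mul_zero, if_neg]
          rintro ⟨h, -⟩
          exact h3 ((hrough m h2).mp h)
      · rw [if_neg h2, zero_mul, if_neg]
        rintro ⟨-, h⟩
        exact h2 h
    rw [sum_congr rfl h1, ← sum_filter, sum_const, nsmul_eq_mul, mul_one, hCnt]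
    congr 2
    unfold rg
    rw [filter_filter]
  have hDsum : ∀ (w : Finset ℕ → ℝ), ∑ m ∈ Ioc a (a + L), (if m ≡ r [MOD G] then (1 : ℝ) else 0) *
      (∑ d ∈ D, w d * (if (∏ r ∈ d, r) ∣ m then (1 : ℝ) else 0)) =
      ∑ d ∈ D, w d * ∑ m ∈ Ioc a (a + L), (if m ≡ r [MOD G] ∧ (∏ r ∈ d, r) ∣ m then (1 : ℝ) else 0) := by
    intro w
    simp_rw [mul_sum]
    rw [sum_comm]
    refine sum_congr rfl fun d _ => sum_congr rfl fun m _ => ?_
    by_cases h1 : m ≡ r [MOD G]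
    · by_cases h2 : (∏ r ∈ d, r) ∣ m
      · rw [if_pos h1, if_pos h2, if_pos ⟨h1, h2⟩]; ring
      · rw [if_pos h1, if_neg h2, if_neg (fun h => h2 h.2)]; ring
    · rw [if_neg h1, if_neg (show ¬ (m ≡ r [MOD G] ∧ (∏ r ∈ d, r) ∣ m) from fun h => h1 h.1)]; ring
  -- densities
  have hg := (hdens (fun r => 1 / (r : ℝ)) (by
    intro r hr
    have h2 : (2 : ℝ) ≤ r := by exact_mod_cast (mem_pz.mp (hPpz hr)).1.two_le
    refine ⟨by positivity, le_refl _, ?_⟩
    rw [div_le_iff₀ (by linarith)]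
    linarith))
  have hU1 : ∑ d ∈ P.powerset, up d * ∏ r ∈ d, (fun r : ℕ => 1 / (r : ℝ)) r =
      ∑ d ∈ D, up d * (1 / ((∏ r ∈ d, r : ℕ) : ℝ)) := by
    rw [hresU]
    refine sum_congr rfl fun d _ => ?_
    rw [← prod_one_div]
  have hL1 : ∑ d ∈ P.powerset, lo d * ∏ r ∈ d, (fun r : ℕ => 1 / (r : ℝ)) r =
      ∑ d ∈ D, lo d * (1 / ((∏ r ∈ d, r : ℕ) : ℝ)) := by
    rw [hresL]
    refine sum_congr rfl fun d _ => ?_
    rw [← prod_one_div]
  rw [hU1, hL1] at hg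
  obtain ⟨hgU, hgL⟩ := hg
  set V' : ℝ := ∏ r ∈ P, (1 - (fun r : ℕ => 1 / (r : ℝ)) r) with hV'
  have hV'0 : 0 ≤ V' := by
    refine prod_nonneg fun r hr => ?_
    have : (2 : ℝ) ≤ r := by exact_mod_cast (mem_pz.mp (hPpz hr)).1.two_le
    rw [sub_nonneg, div_le_one (by linarith)]
    linarith
  have hGr : (0 : ℝ) < G := by exact_mod_cast hG
  have hL0 : (0 : ℝ) ≤ L := Nat.cast_nonneg _
  have hLG0 : (0 : ℝ) ≤ L / G := by positivity
  have hup : ∑ d ∈ D, up d * (1 / ((∏ r ∈ d, r : ℕ) : ℝ)) ≤ (1 + K * (1 / 2) ^ b) * V' := by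
    have h1 := (abs_le.mp hgU).2
    linarith
  have hlo : (1 - K * (1 / 2) ^ b) * V' ≤ ∑ d ∈ D, lo d * (1 / ((∏ r ∈ d, r : ℕ) : ℝ)) := by
    have h1 := (abs_le.mp hgL).1
    linarith
  have hcast : ∀ dd ∈ D, |∑ m ∈ Ioc a (a + L), (if m ≡ r [MOD G] ∧ (∏ r ∈ dd, r) ∣ m then (1 : ℝ) else 0) -
      (L : ℝ) / G * (1 / ((∏ r ∈ dd, r : ℕ) : ℝ))| ≤ 1 := by
    intro dd hdd
    have h1 := count_modI_dvd G (∏ r ∈ dd, r) r a (a + L) hG (hDpos dd hdd) (hDco dd hdd) (by omega)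
    have h2 : (((a + L : ℕ) : ℝ) - a) / (G * ((∏ r ∈ dd, r : ℕ) : ℝ)) = (L : ℝ) / G * (1 / ((∏ r ∈ dd, r : ℕ) : ℝ)) := by
      push_cast
      rw [add_sub_cancel_left, div_mul_div_comm, mul_one]
    rwa [h2] at h1
  have hCup : Cnt ≤ L / G * ((1 + K * (1 / 2) ^ b) * V') + (z : ℝ) ^ (12 * b) := by
    rw [hCeq]
    calc _ ≤ ∑ m ∈ Ioc a (a + L), (if m ≡ r [MOD G] then (1 : ℝ) else 0) *
            (∑ d ∈ D, up d * (if (∏ r ∈ d, r) ∣ m then (1 : ℝ) else 0)) := by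
          refine sum_le_sum fun m _ => mul_le_mul_of_nonneg_left ?_ (by split_ifs <;> norm_num)
          rw [← hresU, ← hpow]
          exact (hpt _ (filter_subset _ _)).2
      _ = _ := hDsum up
      _ ≤ ∑ dd ∈ D, ((L : ℝ) / G * (up dd * (1 / ((∏ r ∈ dd, r : ℕ) : ℝ))) + 1) := by
          refine sum_le_sum fun dd hdd => ?_
          have h1 := hcast dd hdd
          set S := ∑ m ∈ Ioc a (a + L), (if m ≡ r [MOD G] ∧ (∏ r ∈ dd, r) ∣ m then (1 : ℝ) else 0)
          have h3 : |up dd * (S - (L : ℝ) / G * (1 / ((∏ r ∈ dd, r : ℕ) : ℝ)))| ≤ 1 := by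
            rw [abs_mul]
            exact mul_le_one₀ (hbd dd).1 (abs_nonneg _) h1
          have h4 := (abs_le.mp h3).2
          linarith
      _ = (L : ℝ) / G * (∑ d ∈ D, up d * (1 / ((∏ r ∈ d, r : ℕ) : ℝ))) + D.card := by
          rw [sum_add_distrib, ← mul_sum, sum_const, nsmul_eq_mul, mul_one]
      _ ≤ _ := by gcongr
  have hNJ := NJ_le z hz2
  have hClo : L / G * ((1 - K * (1 / 2) ^ b) * V') - (z : ℝ) ^ (12 * b + 2) ≤ Cnt := by
    rw [hCeq]
    calc L / G * ((1 - K * (1 / 2) ^ b) * V') - (z : ℝ) ^ (12 * b + 2)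
        ≤ (L : ℝ) / G * (∑ d ∈ D, lo d * (1 / ((∏ r ∈ d, r : ℕ) : ℝ))) - D.card * (z : ℝ) ^ 2 := by
          have h8 : (D.card : ℝ) * (z : ℝ) ^ 2 ≤ (z : ℝ) ^ (12 * b) * (z : ℝ) ^ 2 :=
            mul_le_mul_of_nonneg_right hDcard (by positivity)
          have h7 := mul_le_mul_of_nonneg_left hlo hLG0
          rw [pow_add]
          linarith
      _ = ∑ dd ∈ D, ((L : ℝ) / G * (lo dd * (1 / ((∏ r ∈ dd, r : ℕ) : ℝ))) - (z : ℝ) ^ 2) := by
          rw [sum_sub_distrib, ← mul_sum, sum_const, nsmul_eq_mul]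
      _ ≤ ∑ dd ∈ D, lo dd * ∑ m ∈ Ioc a (a + L), (if m ≡ r [MOD G] ∧ (∏ r ∈ dd, r) ∣ m then (1 : ℝ) else 0) := by
          refine sum_le_sum fun dd hdd => ?_
          have h1 := hcast dd hdd
          set S := ∑ m ∈ Ioc a (a + L), (if m ≡ r [MOD G] ∧ (∏ r ∈ dd, r) ∣ m then (1 : ℝ) else 0)
          have h3 : |lo dd * (S - (L : ℝ) / G * (1 / ((∏ r ∈ dd, r : ℕ) : ℝ)))| ≤ (NJ z + 1 : ℝ) * 1 := by
            rw [abs_mul]
            exact mul_le_mul (hbd dd).2 h1 (abs_nonneg _) (by positivity)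
          have h4 := (abs_le.mp h3).1
          linarith
      _ = _ := (hDsum lo).symm
      _ ≤ _ := by
          refine sum_le_sum fun m _ => mul_le_mul_of_nonneg_left ?_ (by split_ifs <;> norm_num)
          rw [← hresL, ← hpow]
          exact (hpt _ (filter_subset _ _)).1
  exact ⟨hClo, hCup⟩

/-- **Rap2** two sided count of the rough numbers of an interval in a reduced class -/
theorem rap2 (e c : ℝ) (he : 0 < e) (hc : 0 < c) : ∃ cs : ℝ, 0 < cs ∧ ∀ c0 : ℝ, 0 < c0 → c0 ≤ cs → ∃ X0 : ℕ,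
    ∀ X z : ℕ, X0 ≤ X → 2 ≤ z → (z : ℝ) ≤ (X : ℝ) ^ c0 → (Real.log X) ^ 2 ≤ z → ∀ G r a L : ℕ, 1 ≤ G → G ≤ X →
    r.Coprime G → (G : ℝ) * (X : ℝ) ^ c ≤ L →
    |(((rg z a (a + L)).filter (fun n : ℕ => n ≡ r [MOD G])).card : ℝ) - L * vz z / G.totient| ≤
      e * (L * vz z / G.totient) := by
  classical
  obtain ⟨K, hK, hcnt⟩ := rap2_cnt
  set d : ℝ := min e 1 / 16 with hd
  have hm0 : 0 < min e 1 := lt_min he one_pos
  have hd0 : 0 < d := by positivity
  have hde : 16 * d ≤ e := by rw [hd]; linarith [min_le_left e 1]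
  have hd1 : 16 * d ≤ 1 := by rw [hd]; linarith [min_le_right e 1]
  obtain ⟨b, hb, hKb⟩ := half_pow_small K d hd0
  refine ⟨(c / 2) / ((12 * b + 4 : ℕ) : ℝ), by positivity, fun c0 hc0 hcs => ?_⟩
  have hlim : Filter.Tendsto (fun X : ℕ => ((X : ℝ)) ^ (c / 2)) Filter.atTop Filter.atTop :=
    (tendsto_rpow_atTop (by linarith)).comp tendsto_natCast_atTop_atTop
  obtain ⟨X1, hX1⟩ := Filter.eventually_atTop.mp (hlim.eventually_ge_atTop (1 / d))
  have hlim2 : Filter.Tendsto (fun X : ℕ => Real.log (X : ℝ)) Filter.atTop Filter.atTop :=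
    Real.tendsto_log_atTop.comp tendsto_natCast_atTop_atTop
  obtain ⟨X2, hX2⟩ := Filter.eventually_atTop.mp (hlim2.eventually_ge_atTop (1 + 2 / d))
  refine ⟨max X1 (max X2 3), fun X z hX hz2 hz hzlog G r a L hG hGX hr hL => ?_⟩
  have hXa : 3 ≤ X := (le_max_right X2 3).trans ((le_max_right X1 _).trans hX)
  have hX1r : (1 : ℝ) < X := by exact_mod_cast (by omega : 1 < X)
  have hX0r : (0 : ℝ) < X := by linarith
  have hbig := hX1 X ((le_max_left X1 _).trans hX)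
  have hbig2 := hX2 X ((le_max_left X2 3).trans ((le_max_right X1 _).trans hX))
  have hz4 := zlev (c / 2) (12 * b + 4) (by omega) c0 hcs X z (by omega) hz
  obtain ⟨hClo0, hCup0⟩ := hcnt b hb z hz2 G r a L hG hr
  set Cnt : ℝ := (((rg z a (a + L)).filter (fun n : ℕ => n ≡ r [MOD G])).card : ℝ) with hCnt
  set V' : ℝ := ∏ p ∈ (pz z).filter (fun p => ¬ p ∣ G), (1 - 1 / (p : ℝ)) with hV'
  have hV'0 : 0 ≤ V' := by
    refine prod_nonneg fun r hr => ?_
    have : (2 : ℝ) ≤ r := by exact_mod_cast (mem_pz.mp (mem_filter.mp hr).1).1.two_le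
    rw [sub_nonneg, div_le_one (by linarith)]
    linarith
  have hGr : (0 : ℝ) < G := by exact_mod_cast hG
  have hL0 : (0 : ℝ) ≤ L := Nat.cast_nonneg _
  have hLG0 : (0 : ℝ) ≤ L / G := by positivity
  have hKV : L / G * (K * (1 / 2) ^ b * V') ≤ L / G * (d * V') :=
    mul_le_mul_of_nonneg_left (mul_le_mul_of_nonneg_right hKb hV'0) hLG0
  have hCup : Cnt ≤ L / G * ((1 + d) * V') + (z : ℝ) ^ (12 * b) := by linarith
  have hClo : L / G * ((1 - d) * V') - (z : ℝ) ^ (12 * b + 2) ≤ Cnt := by linarith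
  -- the density and the error term
  obtain ⟨hV1, hV2⟩ := VG_two z G hz2 hG
  have hV1' : (1 - 2 * Real.log G / z) * (vz z / G.totient) ≤ V' / G := hV1
  have hV2' : V' / G ≤ vz z / G.totient := hV2
  have hφ : (0 : ℝ) < G.totient := by exact_mod_cast Nat.totient_pos.mpr (by omega)
  have hφG : (G.totient : ℝ) ≤ G := by exact_mod_cast Nat.totient_le G
  have hvz0 := vz_pos z (by omega)
  have hzr : (2 : ℝ) ≤ z := by exact_mod_cast hz2
  set M : ℝ := L * vz z / G.totient with hM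
  have hM0 : 0 ≤ M := by positivity
  have hlogd : 2 * Real.log G / z ≤ d := by
    have h1 : Real.log G ≤ Real.log X := Real.log_le_log hGr (by exact_mod_cast hGX)
    have h2 : 0 < Real.log X := Real.log_pos hX1r
    have h3 : 2 / d ≤ Real.log X := by linarith
    rw [div_le_iff₀ hd0] at h3
    rw [div_le_iff₀ (by linarith)]
    calc 2 * Real.log G ≤ 2 * Real.log X := by linarith
      _ ≤ (Real.log X * d) * Real.log X := by gcongr
      _ = d * (Real.log X) ^ 2 := by ring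
      _ ≤ d * z := by gcongr
  have hLVup : (L : ℝ) / G * V' ≤ M := by
    calc (L : ℝ) / G * V' = L * (V' / G) := by ring
      _ ≤ L * (vz z / G.totient) := by gcongr
      _ = M := by rw [hM]; ring
  have hLVlo : (1 - d) * M ≤ (L : ℝ) / G * V' := by
    have h0 : 0 ≤ vz z / G.totient := by positivity
    calc (1 - d) * M = L * ((1 - d) * (vz z / G.totient)) := by rw [hM]; ring
      _ ≤ L * ((1 - 2 * Real.log G / z) * (vz z / G.totient)) := by gcongr
      _ ≤ L * (V' / G) := by gcongr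
      _ = _ := by ring
  have hsmall : (z : ℝ) ^ (12 * b + 2) ≤ d * M := by
    have h1 : (z : ℝ) ^ (12 * b + 3) ≤ (X : ℝ) ^ (c / 2) := by
      refine le_trans (pow_le_pow_right₀ (by linarith) (by omega)) hz4
    have h2 : 1 ≤ d * (X : ℝ) ^ (c / 2) := by
      rw [div_le_iff₀ hd0] at hbig
      linarith
    have h3 : (X : ℝ) ^ (c / 2) * (X : ℝ) ^ (c / 2) = (X : ℝ) ^ c := by
      rw [← Real.rpow_add hX0r]
      congr 1
      ring
    have h4 : (X : ℝ) ^ c ≤ L / G.totient := by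
      rw [le_div_iff₀ hφ]
      calc (X : ℝ) ^ c * G.totient ≤ (X : ℝ) ^ c * G := by gcongr
        _ = G * (X : ℝ) ^ c := mul_comm _ _
        _ ≤ L := hL
    have h5 : (z : ℝ) ^ (12 * b + 3) ≤ d * (L / G.totient) := by
      calc (z : ℝ) ^ (12 * b + 3) ≤ 1 * (X : ℝ) ^ (c / 2) := by rw [one_mul]; exact h1
        _ ≤ (d * (X : ℝ) ^ (c / 2)) * (X : ℝ) ^ (c / 2) := by gcongr
        _ = d * ((X : ℝ) ^ (c / 2) * (X : ℝ) ^ (c / 2)) := by ring
        _ = d * (X : ℝ) ^ c := by rw [h3]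
        _ ≤ _ := by gcongr
    have h6 := vz_ge z (by omega)
    calc (z : ℝ) ^ (12 * b + 2) = (z : ℝ) ^ (12 * b + 3) * (1 / z) := by
          field_simp
          ring
      _ ≤ (d * (L / G.totient)) * vz z := by gcongr
      _ = d * M := by rw [hM]; ring
  have hsmall2 : (z : ℝ) ^ (12 * b) ≤ d * M := by
    refine le_trans (pow_le_pow_right₀ (by linarith) (by omega)) hsmall
  rw [abs_le]
  constructor
  · have h1 : L / G * ((1 - d) * V') = (1 - d) * (L / G * V') := by ring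
    rw [h1] at hClo
    have h2 : (1 - d) * ((1 - d) * M) ≤ (1 - d) * (L / G * V') :=
      mul_le_mul_of_nonneg_left hLVlo (by linarith)
    have h3 : (1 - 2 * d) * M ≤ (1 - d) * ((1 - d) * M) := by
      have h4 : 0 ≤ d * d * M := by positivity
      linarith
    have h4 : 16 * d * M ≤ e * M := by gcongr
    have h5 : 0 ≤ d * M := by positivity
    linarith
  · have h1 : L / G * ((1 + d) * V') = (1 + d) * (L / G * V') := by ring
    rw [h1] at hCup
    have h2 : (1 + d) * (L / G * V') ≤ (1 + d) * M := mul_le_mul_of_nonneg_left hLVup (by linarith)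
    have h4 : 16 * d * M ≤ e * M := by gcongr
    have h5 : 0 ≤ d * M := by positivity
    linarith

end Pool.Agent.Lib.EX
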