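import Pool.Agent.Lib.MP_61161c_nt.EX.Dhm
import Pool.Agent.Lib.MP_61161c_nt.EX.BlkC
import Pool.Agent.Lib.MP_61161c_nt.EX.Dabc
import Pool.Agent.Lib.MP_61161c_nt.EX.Rap2
import Pool.Agent.Lib.MP_61161c_nt.EX.BlkD

/-!
# EX, module DOut: the character of an environment
-/

set_option autoImplicit false

open Finset
open Pool.Agent.Lib.MP_45349e_nt.LS (lam)
open Pool.Agent.Lib.GT (Rough pr)
open Pool.Agent.Lib.PQ (pw)

namespace Pool.Agent.Lib.EX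

/-- the relation `X^om / 2 ≤ Y` -/
theorem y_low (x om : ℝ) (hx : 1 ≤ x) (hom : 0 < om) : x ^ om / 2 ≤ (⌊x ^ om⌋₊ : ℝ) := by
  have h1 : (1 : ℝ) ≤ x ^ om := Real.one_le_rpow hx hom.le
  have h2 := Nat.lt_floor_add_one (x ^ om)
  have h3 : (1 : ℝ) ≤ (⌊x ^ om⌋₊ : ℝ) := by exact_mod_cast Nat.le_floor (by simpa using h1)
  linarith

open Classical in
theorem dout (om mu del' : ℝ) (hom : 0 < om) (homu : om ≤ mu / 10 ^ 6) (hmu : 0 < mu) (hmu1 : mu ≤ 1) (hdel : 0 < del') :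
    ∃ del0 : ℝ, 0 < del0 ∧ del0 ≤ 1 / 100 ∧
    ∀ del : ℝ, 0 < del → del ≤ del0 → ∃ cs : ℝ, 0 < cs ∧ ∀ c0 : ℝ, 0 < c0 → c0 ≤ cs → ∃ X1 : ℕ, ∀ e : Env, e.Ok → e.P1 36 → e.P2 24 →
      e.P3 → e.eta = del → X1 ≤ e.X → e.Y = ⌊(e.X : ℝ) ^ om⌋₊ → (e.z : ℝ) ≤ (e.X : ℝ) ^ c0 →
      ∃ G : ℕ, ∃ _ : NeZero G, G * e.Y ^ 17 ≤ e.X ∧ ∃ χ : DirichletCharacter ℂ G, χ ^ 2 = 1 ∧ χ ≠ 1 ∧ ∀ N : ℕ, e.X ≤ N → N ≤ 2 * e.X →
      ∑ l ∈ (range (pw N (1 - mu / 10) + 1)).filter (fun l => l.Prime ∧ e.z < l ∧ χ (l : ZMod G) = 1), 1 / (l : ℝ) ≤ del' := by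
  obtain ⟨d, hd, cs1, hcs1, hD⟩ := blockD om mu del' hom homu hmu hmu1 hdel
  refine ⟨min (1 / 100) (d / (10 ^ 9 * 120400)), lt_min (by norm_num) (by positivity), min_le_left _ _, fun del hdel0 hdel1 => ?_⟩
  have hdeld : 10 ^ 9 * (120400 * del) ≤ d := by
    have h1 : del ≤ d / (10 ^ 9 * 120400) := hdel1.trans (min_le_right _ _)
    rw [le_div_iff₀ (by norm_num)] at h1
    linarith
  obtain ⟨cs2, hcs2, hR⟩ := rap2 del (om / 2) hdel0 (by positivity)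
  refine ⟨min cs1 cs2, lt_min hcs1 hcs2, fun c0 hc0 hc0' => ?_⟩
  obtain ⟨X0, hD⟩ := hD c0 hc0 (hc0'.trans (min_le_left _ _))
  obtain ⟨X2, hR⟩ := hR c0 hc0 (hc0'.trans (min_le_right _ _))
  obtain ⟨T, hT⟩ := Filter.eventually_atTop.1 ((tendsto_rpow_atTop (show (0 : ℝ) < om / 2 by positivity)).eventually_ge_atTop 2)
  refine ⟨max (max X0 X2) (max ⌈T⌉₊ 1), fun e he hP1 hP2 hP3 heta hX1 hY hz => ?_⟩
  have hX0 : X0 ≤ e.X := ((le_max_left _ _).trans (le_max_left _ _)).trans hX1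
  have hX2 : X2 ≤ e.X := ((le_max_right _ _).trans (le_max_left _ _)).trans hX1
  have hXT : T ≤ (e.X : ℝ) := (Nat.le_ceil T).trans (by exact_mod_cast ((le_max_left _ _).trans (le_max_right _ _)).trans hX1)
  have hT1 := hT e.X hXT
  have hXb := he.Xbig
  have hXr : (1 : ℝ) ≤ e.X := by exact_mod_cast (by omega : 1 ≤ e.X)
  have hXpos : (0 : ℝ) < e.X := by linarith
  have hYl := y_low e.X om hXr hom
  rw [← hY] at hYl
  have hYh : (e.X : ℝ) ^ (om / 2) ≤ e.Y := by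
    have h1 : (e.X : ℝ) ^ om = (e.X : ℝ) ^ (om / 2) * (e.X : ℝ) ^ (om / 2) := by
      rw [← Real.rpow_add hXpos]
      congr 1
      ring
    nlinarith
  have hlog : (Real.log e.X) ^ 2 ≤ e.z := by
    have h1 := he.logU
    have h2 : (1 : ℝ) ≤ Real.log e.X := by
      rw [Real.le_log_iff_exp_le hXpos]
      have h3 : Real.exp 1 < 3 := Real.exp_one_lt_three
      have h4 : (40000 : ℝ) ≤ e.X := by exact_mod_cast hXb
      linarith
    have h3 : (Real.log e.X) ^ 2 ≤ (Real.log e.X) ^ 50 := pow_le_pow_right₀ h2 (by norm_num)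
    have h4 : (e.U : ℝ) ≤ e.z := by
      have h5 : 1 ≤ e.U := by
        have h6 : (1 : ℝ) ≤ e.U := (one_le_pow₀ h2).trans h1
        exact_mod_cast h6
      have h6 : e.U ≤ e.U ^ 60 := Nat.le_self_pow (by norm_num) _
      exact_mod_cast h6.trans he.Uz
    linarith
  have hz2 : 2 ≤ e.z := he.z2
  have hAP0 : ∀ G : ℕ, 1 ≤ G → G ≤ e.X → e.AP G := by
    intro G hG1 hG2 r a L hr haL hGL
    rw [heta]
    refine hR e.X e.z hX2 hz2 hz hlog G r a L hG1 hG2 hr ?_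
    have h1 : (G : ℝ) * e.Y ≤ L := by exact_mod_cast hGL
    refine le_trans ?_ h1
    gcongr
  have hR1 : e.RC := by
    intro a L hYL haL
    have h1 := hAP0 1 le_rfl (by omega) 0 a L (Nat.coprime_one_right 0) haL (by omega)
    have h2 : (rg e.z a (a + L)).filter (fun n : ℕ => n ≡ 0 [MOD 1]) = rg e.z a (a + L) :=
      filter_true_of_mem fun n _ => Nat.modEq_one
    rw [h2, Nat.totient_one, Nat.cast_one, div_one] at h1
    exact h1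
  obtain ⟨G, hPer⟩ := Env.per_ex he hP1 hP2 fun k0 B cr eps g Ns qs k qlo qhi s dl a0 lo hi h =>
    dhm e he hP1 hP2 hP3 k0 B cr eps g Ns qs k qlo qhi s dl a0 lo hi h
  have hG0 : NeZero G := ⟨hPer.G0.ne'⟩
  have hGX : G ≤ e.X := by
    have h1 := hPer.GX
    have h2 : 1 ≤ e.Y ^ 17 := Nat.one_le_pow _ _ (by have := he.Y4; omega)
    nlinarith
  have heta0 := he.eta0
  obtain ⟨F, hF0, hF1, hF2, hF3⟩ := Env.dabc he hP1 hR1 (by positivity) (hAP0 G hPer.G0 hGX) hPer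
  obtain ⟨χ, hχ2, hχ1, hχ⟩ := hD e hX0 he hY hz G hPer.GX F hF0 hF1 (by
    refine hF2.trans ?_
    rw [heta]
    have h1 : 0 ≤ vz e.z := (vz_pos e.z (by omega)).le
    have h2 : 200 * (120400 * del) ≤ d := by linarith
    gcongr) (by
    intro u u' h1 h2 h3 h4 h5 h6 h7
    refine (hF3 u u' h1 h2 h3 h4 h5 h6 h7).trans ?_
    rw [heta]
    have h8 : 200 * (120400 * del) ≤ d := by linarith
    gcongr)
  exact ⟨G, hG0, hPer.GX, χ, hχ2, hχ1, hχ⟩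

end Pool.Agent.Lib.EX
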