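import Pool.Agent.Lib.MP_61161c_nt.EX.BlkC
import Pool.Agent.Lib.MP_61161c_nt.EX.DDefs

/-!
# EX, block D, module Da: densities, the number of transporting multipliers, the failing shifts
-/

set_option autoImplicit false

open Finset
open Pool.Agent.Lib.MP_45349e_nt.LS (lam lam_mul)
open Pool.Agent.Lib.GT (Rough pr)

namespace Pool.Agent.Lib.EX

namespace Env

/-- rough numbers in reduced classes modulo `G`, two sided -/
def AP (e : Env) (G : ℕ) : Prop := ∀ r a L : ℕ, r.Coprime G → a + L ≤ e.X → G * e.Y ≤ L →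
  |(((rg e.z a (a + L)).filter (fun n : ℕ => n ≡ r [MOD G])).card : ℝ) - L * vz e.z / G.totient| ≤
    e.eta * (L * vz e.z / G.totient)

variable {e : Env}

theorem MM_posD (he : e.Ok) {k : ℕ} (hk : k ≤ 36) : 0 < e.MM k := by
  have h1 := he.MM0 k hk
  have hU : (0 : ℝ) < e.U := by
    have h2 := he.etaU
    have h3 := he.eta0
    have h4 : (0 : ℝ) ≤ e.U := Nat.cast_nonneg _
    rcases h4.eq_or_lt with h | h
    · rw [← h, mul_zero] at h2
      linarith
    · exact h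
  exact lt_of_lt_of_le (inv_pos.2 hU) h1

/-- the densities: `MM 2 φ(G) ≤ G (vz MM 1)` -/
theorem mm_key (he : e.Ok) {G : ℕ} (hG : 0 < G) (hW : e.W ∣ G) :
    e.MM 2 * G.totient ≤ G * (vz e.z * e.MM 1) := by
  classical
  set A : ℝ := ∏ p ∈ pr e.w, (1 - (e.nu p : ℝ) / p) with hA
  set Q : Finset ℕ := (pr e.z).filter (fun p => e.w < p) with hQ
  set B1 : ℝ := ∏ p ∈ Q, (1 - 1 / (p : ℝ)) with hB1
  set V0 : ℝ := ∏ p ∈ pr e.w, (1 - 1 / (p : ℝ)) with hV0
  have hpr : ∀ {z p : ℕ}, p ∈ pr z ↔ p ≤ z ∧ p.Prime := by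
    intro z p
    unfold pr
    rw [mem_filter, mem_range]
    constructor
    · rintro ⟨h1, h2⟩; exact ⟨by omega, h2⟩
    · rintro ⟨h1, h2⟩; exact ⟨by omega, h2⟩
  have hp1 : ∀ p : ℕ, p.Prime → 0 < 1 - 1 / (p : ℝ) := by
    intro p hp
    have h2 : (2 : ℝ) ≤ p := by exact_mod_cast hp.two_le
    have h3 : 1 / (p : ℝ) ≤ 1 / 2 := one_div_le_one_div_of_le (by norm_num) h2
    linarith
  have hM1 : e.MM 1 = A * B1 := by
    unfold Env.MM
    rw [hA, hB1, hQ]
    simp only [Nat.cast_one]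
  have hM2 : e.MM 2 = A * ∏ p ∈ Q, (1 - (2 : ℝ) / p) := by
    unfold Env.MM
    rw [hA, hQ]
    simp only [Nat.cast_ofNat]
  have hB1p : 0 < B1 := prod_pos fun p hp => hp1 p ((hpr.1 (mem_filter.1 hp).1).2)
  have hM1p := MM_posD he (k := 1) (by norm_num)
  have hAp : 0 < A := by
    rw [hM1] at hM1p
    exact pos_of_mul_pos_left hM1p hB1p.le
  have hB2 : ∏ p ∈ Q, (1 - (2 : ℝ) / p) ≤ B1 * B1 := by
    rw [hB1, ← prod_mul_distrib]
    apply prod_le_prod
    · intro p hp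
      have h2 : (2 : ℝ) ≤ p := by exact_mod_cast ((hpr.1 (mem_filter.1 hp).1).2).two_le
      have h3 : 2 / (p : ℝ) ≤ 1 := by rw [div_le_one (by linarith)]; exact h2
      linarith
    · intro p hp
      have h3 : (0 : ℝ) ≤ (1 / (p : ℝ)) ^ 2 := by positivity
      have h4 : (1 - 1 / (p : ℝ)) * (1 - 1 / p) = 1 - 2 / p + (1 / (p : ℝ)) ^ 2 := by ring
      rw [h4]
      linarith
  have hvz : vz e.z = V0 * B1 := by
    unfold vz
    have h1 : pz e.z = pr e.w ∪ Q := by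
      ext p
      rw [mem_pz, mem_union, hQ, mem_filter, hpr, hpr]
      have := he.wz
      constructor
      · rintro ⟨h1, h2⟩
        by_cases h3 : p ≤ e.w
        · exact Or.inl ⟨h3, h1⟩
        · exact Or.inr ⟨⟨h2, h1⟩, by omega⟩
      · rintro (⟨h1, h2⟩ | ⟨⟨h1, h2⟩, h3⟩)
        · exact ⟨h2, by omega⟩
        · exact ⟨h2, h1⟩
    have h2 : Disjoint (pr e.w) Q := by
      rw [disjoint_left]
      intro p h3 h4
      rw [hQ, mem_filter] at h4
      have := (hpr.1 h3).1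
      omega
    rw [h1, prod_union h2]
  have hphi : (G.totient : ℝ) ≤ G * V0 := by
    have h1 : ((G.totient : ℚ) : ℝ) = ((G * ∏ p ∈ G.primeFactors, (1 - (p : ℚ)⁻¹) : ℚ) : ℝ) := by
      rw [Nat.totient_eq_mul_prod_factors]
    push_cast at h1
    rw [h1]
    apply mul_le_mul_of_nonneg_left _ (Nat.cast_nonneg _)
    have hsub : pr e.w ⊆ G.primeFactors := by
      intro p hp
      rw [hpr] at hp
      rw [Nat.mem_primeFactors]
      refine ⟨hp.2, ?_, hG.ne'⟩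
      refine dvd_trans ?_ hW
      unfold Env.W
      exact hp.2.dvd_primorial_iff.2 hp.1
    rw [← prod_sdiff hsub]
    have h2 : ∏ p ∈ G.primeFactors \ pr e.w, (1 - (p : ℝ)⁻¹) ≤ 1 := by
      apply prod_le_one
      · intro p hp
        have h3 := hp1 p (Nat.prime_of_mem_primeFactors (mem_sdiff.1 hp).1)
        rw [one_div] at h3
        exact h3.le
      · intro p _
        have : (0 : ℝ) ≤ (p : ℝ)⁻¹ := by positivity
        linarith
    have h3 : ∏ p ∈ pr e.w, (1 - (p : ℝ)⁻¹) = V0 := by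
      rw [hV0]
      simp only [one_div]
    rw [h3]
    have h4 : 0 ≤ V0 := prod_nonneg fun p hp => (hp1 p (hpr.1 hp).2).le
    exact mul_le_of_le_one_left h4 h2
  have hV0p : 0 < V0 := prod_pos fun p hp => hp1 p (hpr.1 hp).2
  calc e.MM 2 * G.totient ≤ (A * (B1 * B1)) * (G * V0) := by
        rw [hM2]
        gcongr
    _ = G * (vz e.z * e.MM 1) := by rw [hvz, hM1]; ring

theorem U_big (he : e.Ok) : (100 : ℝ) ≤ e.U := by
  have hU0 : (0 : ℝ) ≤ e.U := by positivity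
  have heta := he.eta1
  have hetaU := he.etaU
  nlinarith

open Classical in
/-- many transporting multipliers -/
theorem star_cnt (he : e.Ok) (hP1 : e.P1 36) {m : ℕ} (hm : IsCoprime (m : ℤ) (e.W : ℤ)) {A L : ℕ}
    (hL : e.Y ≤ L) :
    9 / 10 * (L * e.MM 1) ≤ (((Ico A (A + L)).filter fun q : ℕ => e.Gd q ∧
      IsCoprime (((q * m : ℕ) : ℤ) * (e.N0 - (q * m : ℕ))) (e.W : ℤ)).card : ℝ) := by
  classical
  have hXp := he.Xpos
  obtain ⟨c, b, hcb⟩ := hm
  have hS : e.SOk 40 ⟨m, 0⟩ [⟨1, 0⟩] := by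
    have hX1 : (1 : ℤ) ≤ (e.X : ℤ) ^ 40 := one_le_pow₀ (by exact_mod_cast hXp)
    refine ⟨⟨c, b, hcb⟩, ?_, ?_, ?_, List.pairwise_singleton _ _⟩
    · intro F hF
      rw [List.mem_singleton] at hF
      subst hF
      intro p hp _ h
      have h1 := Int.natAbs_dvd_natAbs.2 h
      simp only [Int.natAbs_natCast, Int.natAbs_one, Nat.dvd_one] at h1
      exact hp.one_lt.ne' h1
    · intro F hF
      rw [List.mem_singleton] at hF
      subst hF
      simp only [abs_one, abs_zero]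
      exact ⟨hX1, by positivity⟩
    · intro F hF
      rw [List.mem_singleton] at hF
      subst hF
      refine ⟨c, ⟨m, b, by linarith⟩, Or.inl ⟨⟨b, ?_⟩, ?_⟩⟩
      · show (1 : ℤ) - c * m = e.W * b
        linarith
      · show (e.W : ℤ) ∣ 0 - c * 0
        simp
  have h1 := hP1 ⟨m, 0⟩ [⟨1, 0⟩] A L hS (by simp) hL
  rw [List.length_singleton] at h1
  have hM := he.MM0 1 (by norm_num)
  have hMp := MM_posD he (k := 1) (by norm_num)
  have heta := he.eta1
  have hU := U_big he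
  have hY0 : 0 < e.Y := by have := he.Y4; omega
  have hLp : (0 : ℝ) < L := by exact_mod_cast lt_of_lt_of_le hY0 hL
  have h5 : 0 < (L : ℝ) * e.MM 1 := mul_pos hLp hMp
  have h2 : 99 / 100 * (L * e.MM 1) ≤ ((e.SS ⟨m, 0⟩ [⟨1, 0⟩] A L).card : ℝ) := by
    have h3 := (abs_le.1 h1).1
    nlinarith
  set R := (Ico A (A + L)).filter fun q : ℕ => e.Gd q ∧
      IsCoprime (((q * m : ℕ) : ℤ) * (e.N0 - (q * m : ℕ))) (e.W : ℤ) with hR
  have hsub : e.SS ⟨m, 0⟩ [⟨1, 0⟩] A L ⊆ R ∪ e.Bad.biUnion fun p => (Ico A (A + L)).filter fun n => p ∣ n := by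
    intro n hn
    unfold Env.SS at hn
    rw [mem_filter, mem_Ico] at hn
    obtain ⟨⟨hn1, hn2⟩, hn3, hn4⟩ := hn
    have hsf : Sf e.z n := by
      have := hn4 ⟨1, 0⟩ (by simp)
      rw [Frm.ev_mk] at this
      simpa using this
    rw [mem_union]
    by_cases hG : e.Gd n
    · left
      rw [hR, mem_filter, mem_Ico]
      refine ⟨⟨hn1, hn2⟩, hG, ?_⟩
      rw [Frm.ev_mk, add_zero] at hn3
      push_cast
      rw [mul_comm (n : ℤ) m]
      exact hn3
    · right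
      unfold Env.Gd at hG
      push Not at hG
      obtain ⟨p, hp1, hp2⟩ := hG hsf
      rw [mem_biUnion]
      refine ⟨p, hp1, ?_⟩
      rw [mem_filter, mem_Ico]
      exact ⟨⟨hn1, hn2⟩, by exact_mod_cast hp2⟩
  have hz0 : 0 < e.z := by have := he.z2; omega
  have hzR : (0 : ℝ) < e.z := by exact_mod_cast hz0
  have h3 : ((e.Bad.biUnion fun p => (Ico A (A + L)).filter fun n => p ∣ n).card : ℝ) ≤ e.U * (L / e.z + 1) := by
    calc ((e.Bad.biUnion fun p => (Ico A (A + L)).filter fun n => p ∣ n).card : ℝ)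
        ≤ ∑ p ∈ e.Bad, (((Ico A (A + L)).filter fun n => p ∣ n).card : ℝ) := by exact_mod_cast card_biUnion_le
      _ ≤ ∑ p ∈ e.Bad, ((L : ℝ) / e.z + 1) := by
          apply sum_le_sum
          intro p hp
          have hpz := (he.bad.2 p hp).2
          have : (e.z : ℝ) ≤ p := by exact_mod_cast hpz.le
          refine (card_dvd_le A L p (by omega)).trans ?_
          gcongr
      _ = e.Bad.card * ((L : ℝ) / e.z + 1) := by rw [sum_const, nsmul_eq_mul]
      _ ≤ _ := by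
          have : (e.Bad.card : ℝ) ≤ e.U := by exact_mod_cast he.bad.1
          gcongr
  have hzL : (e.z : ℝ) ≤ L := by
    have h4 : e.z ≤ L := by
      have := he.zY
      nlinarith
    exact_mod_cast h4
  have hUz : ((e.U : ℝ)) ^ 3 ≤ e.z := by
    have h4 : (e.U : ℝ) ^ 60 ≤ e.z := by exact_mod_cast he.Uz
    exact (pow_le_pow_right₀ (by linarith) (by norm_num)).trans h4
  have hU0 : (0 : ℝ) < e.U := by linarith
  have h4 : (e.U : ℝ) * (L / e.z + 1) ≤ 2 / 100 * (L * e.MM 1) := by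
    have h6 : (1 : ℝ) ≤ L / e.z := by rw [le_div_iff₀ hzR]; linarith
    calc (e.U : ℝ) * (L / e.z + 1) ≤ e.U * (L / e.z + L / e.z) := by gcongr
      _ = 2 * (e.U * (L / e.z)) := by ring
      _ ≤ 2 * (e.U * (L / (e.U : ℝ) ^ 3)) := by gcongr
      _ = 2 / e.U * (L * (e.U : ℝ)⁻¹) := by field_simp
      _ ≤ 2 / 100 * (L * e.MM 1) := by gcongr
  have h6 : ((e.SS ⟨m, 0⟩ [⟨1, 0⟩] A L).card : ℝ) ≤ R.card + ((e.Bad.biUnion fun p => (Ico A (A + L)).filter fun n => p ∣ n).card : ℝ) := by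
    exact_mod_cast (card_le_card hsub).trans (card_union_le _ _)
  linarith

/-- the failing shifts of `Per` for `al` and `k`, over all admissible `n` -/
theorem fail_cnt (he : e.Ok) {G : ℕ} {dl : ℝ} (hdl : 0 ≤ dl) (hPer : e.Per G dl) {al : ℕ} (hal : e.Gd al) (halY : al ≤ e.Y ^ 12)
    {k : ℤ} (hk0 : k ≠ 0) (hk : 1000 * (|k| * G) ≤ 16 * e.X) (T : Finset ℕ)
    (hT : ∀ n ∈ T, (e.X : ℤ) ≤ 10 ^ 4 * (al * n) ∧ 50 * ((al : ℤ) * n) ≤ e.X ∧
      (e.X : ℤ) ≤ 10 ^ 4 * (al * n + k * G) ∧ 50 * ((al : ℤ) * n + k * G) ≤ e.X ∧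
      IsCoprime (((al * n : ℕ) : ℤ) * (e.N0 - (al * n : ℕ))) (e.W : ℤ) ∧
      Sf e.z ((al * n : ℕ) : ℤ) ∧ Sf e.z ((al * n : ℕ) + k * G) ∧
      lz ((al * n : ℕ) : ℤ) ≠ lz ((al * n : ℕ) + k * G)) :
    (T.card : ℝ) ≤ dl * (e.X / (50 * al) * e.MM 2) := by
  classical
  have hz := he.z2
  have hX4 := he.Xbig
  have halp : 0 < al := by
    have := hal.1.ne0 hz
    omega
  have halZ : (0 : ℤ) < al := by exact_mod_cast halp
  have halX : 10 ^ 6 * al ≤ e.X := by
    have hY4 := he.Y4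
    have h1 : e.Y ^ 14 ≤ e.X := he.YpX (by norm_num)
    have h2 : 40000 * 40000 * e.Y ^ 12 ≤ e.Y ^ 14 := by
      calc 40000 * 40000 * e.Y ^ 12 ≤ e.Y * e.Y * e.Y ^ 12 := by gcongr
        _ = e.Y ^ 14 := by ring
    omega
  -- the interval of the admissible `n`
  set v : ℤ := k * G with hv
  have hvabs : 1000 * |v| ≤ 16 * e.X := by
    rw [hv, abs_mul]
    simpa using hk
  have hv1 := abs_le.1 (show |v| ≤ 16 * e.X / 1000 by omega)
  obtain ⟨lo, hi, hlo, hhi, hlohi⟩ : ∃ lo hi : ℕ,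
      (∀ y : ℤ, (lo : ℤ) ≤ y ↔ (e.X : ℤ) ≤ 10 ^ 4 * y ∧ (e.X : ℤ) ≤ 10 ^ 4 * (y + v)) ∧
      (∀ y : ℤ, y ≤ (hi : ℤ) ↔ 50 * y ≤ e.X ∧ 50 * (y + v) ≤ e.X) ∧
      (1000 * lo + 3 * e.X ≤ 1000 * hi ∧ 10 ^ 4 * hi + e.X ≤ 10 ^ 4 * lo + 200 * e.X) := by
    refine ⟨(max (((e.X : ℤ) + 9999) / 10 ^ 4) (((e.X : ℤ) + 9999) / 10 ^ 4 - v)).toNat,
      (min ((e.X : ℤ) / 50) ((e.X : ℤ) / 50 - v)).toNat, ?_, ?_, ?_⟩
    · intro y
      rcases max_cases (((e.X : ℤ) + 9999) / 10 ^ 4) (((e.X : ℤ) + 9999) / 10 ^ 4 - v) with h | h <;> omega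
    · intro y
      rcases min_cases ((e.X : ℤ) / 50) ((e.X : ℤ) / 50 - v) with h | h <;> omega
    · rcases max_cases (((e.X : ℤ) + 9999) / 10 ^ 4) (((e.X : ℤ) + 9999) / 10 ^ 4 - v) with h | h <;>
      rcases min_cases ((e.X : ℤ) / 50) ((e.X : ℤ) / 50 - v) with h' | h' <;> omega
  have hA : ∀ n : ℕ, (lo + al - 1) / al ≤ n ↔ lo ≤ al * n := by
    intro n
    rw [← Nat.lt_succ_iff, Nat.div_lt_iff_lt_mul halp, Nat.succ_mul, mul_comm al n]
    omega
  have hB : ∀ n : ℕ, n ≤ hi / al ↔ al * n ≤ hi := by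
    intro n
    rw [Nat.le_div_iff_mul_le halp, mul_comm]
  set A : ℕ := (lo + al - 1) / al with hAdef
  set B : ℕ := hi / al with hBdef
  have e1 : lo ≤ al * A := (hA A).1 le_rfl
  have e2 : al * B ≤ hi := (hB B).1 le_rfl
  have e3 : al * A < lo + al := by
    have h1 : al * A ≤ lo + al - 1 := by
      rw [hAdef, mul_comm]
      exact Nat.div_mul_le_self _ _
    omega
  have e4 : hi < al * (B + 1) := by
    by_contra h
    push Not at h
    have := (hB (B + 1)).2 h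
    omega
  have e5 : al * (B + 1) = al * B + al := by ring
  have hAB : A ≤ B := by
    by_contra h
    push Not at h
    have h1 : al * (B + 1) ≤ al * A := Nat.mul_le_mul_left _ h
    omega
  have hLdef : A + (B + 1 - A) = B + 1 := by omega
  have hL2 : al * (B + 1 - A) = al * (B + 1) - al * A := Nat.mul_sub _ _ _
  have h1 := hPer.per k hk0 (by
    have : 0 ≤ |k| * (G : ℤ) := by positivity
    omega) al A (B + 1 - A) hal halY (by rw [hL2]; omega) (by
    intro n h1 h2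
    have h3 := (hA n).1 h1
    have h4 := (hB n).1 (by omega)
    have h5 := (hlo ((al : ℤ) * n)).1 (by exact_mod_cast h3)
    have h6 := (hhi ((al : ℤ) * n)).1 (by exact_mod_cast h4)
    exact ⟨h5.1, h6.1, h5.2, h6.2⟩)
  have hsub : T ⊆ (Finset.Ico A (A + (B + 1 - A))).filter fun n : ℕ =>
      IsCoprime (((al * n : ℕ) : ℤ) * (e.N0 - (al * n : ℕ))) (e.W : ℤ) ∧
      Sf e.z ((al * n : ℕ) : ℤ) ∧ Sf e.z ((al * n : ℕ) + k * G) ∧
      lz ((al * n : ℕ) : ℤ) ≠ lz ((al * n : ℕ) + k * G) := by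
    intro n hn
    obtain ⟨h1, h2, h3, h4, h5, h6, h7, h8⟩ := hT n hn
    rw [mem_filter, mem_Ico, hLdef]
    have h9 : lo ≤ al * n := by
      have := (hlo ((al : ℤ) * n)).2 ⟨h1, h3⟩
      exact_mod_cast this
    have h10 : al * n ≤ hi := by
      have := (hhi ((al : ℤ) * n)).2 ⟨h2, h4⟩
      exact_mod_cast this
    exact ⟨⟨(hA n).2 h9, Nat.lt_succ_of_le ((hB n).2 h10)⟩, h5, h6, h7, h8⟩
  have h2 : (T.card : ℝ) ≤ dl * ((B + 1 - A : ℕ) * e.MM 2) := by
    refine le_trans ?_ h1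
    exact_mod_cast card_le_card hsub
  have h3 : ((B + 1 - A : ℕ) : ℝ) ≤ e.X / (50 * al) := by
    have halR : (0 : ℝ) < al := by exact_mod_cast halp
    rw [le_div_iff₀ (by positivity)]
    have h4 : (B + 1 - A) * (50 * al) ≤ e.X := by
      have h5 : (B + 1 - A) * (50 * al) = 50 * (al * (B + 1 - A)) := by ring
      rw [h5, hL2]
      omega
    exact_mod_cast h4
  have hMp := MM_posD he (k := 2) (by norm_num)
  exact h2.trans (mul_le_mul_of_nonneg_left (mul_le_mul_of_nonneg_right h3 hMp.le) hdl)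

end Env

end Pool.Agent.Lib.EX
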