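import Pool.Agent.Lib.MP_61161c_nt.EX.DbSv

/-!
# EX, block D: the sieve majorant of the rough numbers in an interval

`maj`: for every level `b` and `z ≥ 2` there is `ν : ℕ → ℝ`, `ν ≥ 0`, `ν ≥ 1` on the `z`-rough numbers, with
`∑_{(A,B]} ν ≤ (B - A) V (1 + K/2^b) + z^(12b)`, `|∑ ν η| ≤ 2 z^(12b) PB(N)` for characters `η ≠ 1` mod `N`, and
`|rg z A B| ≥ (B - A) V (1 - K/2^b) - z^(12b+2)`.
-/

set_option autoImplicit false

open Finset

namespace Pool.Agent.Lib.EX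

open Pool.Agent.Lib.TC (flm)
open Pool.Agent.Lib.GT (NJ NJ_le)
open Pool.Agent.Lib.RG (PB pv_all PB_le)

theorem card_small (z T : ℕ) (D : Finset (Finset ℕ)) (hD : ∀ d ∈ D, d ⊆ pz z) (hT : ∀ d ∈ D, ∏ r ∈ d, r ≤ T) :
    D.card ≤ T := by
  have h1 : D.card ≤ (Icc 1 T).card := by
    refine card_le_card_of_injOn (fun d => ∏ r ∈ d, r) ?_ ?_
    · intro d hd
      rw [mem_coe, mem_Icc]
      refine ⟨?_, hT d hd⟩
      exact Nat.pos_of_ne_zero (prod_ne_zero_iff.mpr fun r hr => (mem_pz.mp (hD d hd hr)).1.ne_zero)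
    · intro d1 h1 d2 h2 h
      have h3 := Nat.primeFactors_prod (s := d1) (fun r hr => (mem_pz.mp (hD d1 h1 hr)).1)
      have h4 := Nat.primeFactors_prod (s := d2) (fun r hr => (mem_pz.mp (hD d2 h2 hr)).1)
      simp only at h
      rw [← h3, ← h4, h]
  simpa using h1

theorem prod_one_div (d : Finset ℕ) : ∏ r ∈ d, (1 / (r : ℝ)) = 1 / ((∏ r ∈ d, r : ℕ) : ℝ) := by
  rw [prod_div_distrib, prod_const_one]
  push_cast
  rfl

theorem maj : ∃ K : ℝ, 1 ≤ K ∧ ∀ b : ℕ, 1 ≤ b → ∀ z : ℕ, 2 ≤ z → ∃ ν : ℕ → ℝ,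
    (∀ m, 0 ≤ ν m) ∧ (∀ m, (∀ p ≤ z, p.Prime → ¬ p ∣ m) → 1 ≤ ν m) ∧
    ∀ A B : ℕ, A ≤ B →
      (∑ m ∈ Ioc A B, ν m ≤ ((B : ℝ) - A) * vz z * (1 + K * (1 / 2) ^ b) + (z : ℝ) ^ (12 * b)) ∧
      (((B : ℝ) - A) * vz z * (1 - K * (1 / 2) ^ b) - (z : ℝ) ^ (12 * b + 2) ≤ ((rg z A B).card : ℝ)) ∧
      (((rg z A B).card : ℝ) ≤ ((B : ℝ) - A) * vz z * (1 + K * (1 / 2) ^ b) + (z : ℝ) ^ (12 * b)) ∧
      (∀ (N : ℕ) [NeZero N] (η : DirichletCharacter ℂ N), η ≠ 1 →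
        ‖∑ m ∈ Ioc A B, (ν m : ℂ) * η (m : ZMod N)‖ ≤ 2 * (z : ℝ) ^ (12 * b) * PB N) := by
  classical
  obtain ⟨K, hK, hflm⟩ := flm 1 (by norm_num)
  refine ⟨K, hK, fun b hb z hz => ?_⟩
  obtain ⟨up, lo, hbd, hsup, hpt, hdens⟩ := hflm b hb z hz (pz z) (fun r hr => mem_pz.mp hr)
  -- the support
  set D : Finset (Finset ℕ) := (pz z).powerset.filter (fun d => up d ≠ 0 ∨ lo d ≠ 0) with hD
  have hDsub : ∀ d ∈ D, d ⊆ pz z := fun d hd => mem_powerset.mp (mem_filter.mp hd).1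
  have hDT : ∀ d ∈ D, ∏ r ∈ d, r ≤ z ^ (12 * b) := by
    intro d hd
    have h1 := hsup d (hDsub d hd) (mem_filter.mp hd).2
    exact_mod_cast h1
  have hDcard : (D.card : ℝ) ≤ (z : ℝ) ^ (12 * b) := by
    have := card_small z (z ^ (12 * b)) D hDsub hDT
    exact_mod_cast this
  have hDpos : ∀ d ∈ D, 1 ≤ ∏ r ∈ d, r := fun d hd =>
    Nat.pos_of_ne_zero (prod_ne_zero_iff.mpr fun r hr => (mem_pz.mp (hDsub d hd hr)).1.ne_zero)
  -- restriction of sums to D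
  have hresU : ∀ (g : Finset ℕ → ℝ), ∑ d ∈ (pz z).powerset, up d * g d = ∑ d ∈ D, up d * g d := by
    intro g
    rw [hD, sum_filter]
    refine sum_congr rfl fun d _ => ?_
    by_cases h : up d = 0
    · rw [h]; simp
    · rw [if_pos (Or.inl h)]
  have hresL : ∀ (g : Finset ℕ → ℝ), ∑ d ∈ (pz z).powerset, lo d * g d = ∑ d ∈ D, lo d * g d := by
    intro g
    rw [hD, sum_filter]
    refine sum_congr rfl fun d _ => ?_
    by_cases h : lo d = 0
    · rw [h]; simp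
    · rw [if_pos (Or.inr h)]
  set ν : ℕ → ℝ := fun m => ∑ d ∈ D, up d * (if (∏ r ∈ d, r) ∣ m then 1 else 0) with hν
  have hνeq : ∀ m, ν m = ∑ d ∈ (bm z m).powerset, up d := by
    intro m
    rw [sum_bm, hν, hresU]
  have hν0 : ∀ m, 0 ≤ ν m := by
    intro m
    rw [hνeq]
    refine le_trans ?_ (hpt (bm z m) (bm_sub z m)).2
    split_ifs <;> norm_num
  have hν1 : ∀ m, (∀ p ≤ z, p.Prime → ¬ p ∣ m) → 1 ≤ ν m := by
    intro m hm
    rw [hνeq]
    have h1 := (hpt (bm z m) (bm_sub z m)).2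
    rwa [if_pos ((bm_empty z m).mpr hm)] at h1
  -- densities
  have hg := hdens (fun r => 1 / (r : ℝ)) (by
    intro r hr
    have h2 : (2 : ℝ) ≤ r := by exact_mod_cast (mem_pz.mp hr).1.two_le
    refine ⟨by positivity, le_refl _, ?_⟩
    rw [div_le_iff₀ (by linarith)]
    linarith)
  have hV : ∏ r ∈ pz z, (1 - (fun r : ℕ => 1 / (r : ℝ)) r) = vz z := rfl
  rw [hV] at hg
  have hV0 := vz_pos z (by omega)
  have hU1 : ∑ d ∈ (pz z).powerset, up d * ∏ r ∈ d, (fun r : ℕ => 1 / (r : ℝ)) r =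
      ∑ d ∈ D, up d * (1 / ((∏ r ∈ d, r : ℕ) : ℝ)) := by
    rw [hresU]
    refine sum_congr rfl fun d _ => ?_
    rw [← prod_one_div]
  have hL1 : ∑ d ∈ (pz z).powerset, lo d * ∏ r ∈ d, (fun r : ℕ => 1 / (r : ℝ)) r =
      ∑ d ∈ D, lo d * (1 / ((∏ r ∈ d, r : ℕ) : ℝ)) := by
    rw [hresL]
    refine sum_congr rfl fun d _ => ?_
    rw [← prod_one_div]
  rw [hU1, hL1] at hg
  refine ⟨ν, hν0, hν1, fun A B hAB => ?_⟩
  have hW0 : (0 : ℝ) ≤ (B : ℝ) - A := by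
    have : (A : ℝ) ≤ B := by exact_mod_cast hAB
    linarith
  -- upper sum
  have hsumU : ∑ m ∈ Ioc A B, ν m = ∑ d ∈ D, up d * ∑ m ∈ Ioc A B, (if (∏ r ∈ d, r) ∣ m then (1 : ℝ) else 0) := by
    rw [hν, sum_comm]
    refine sum_congr rfl fun d _ => ?_
    rw [mul_sum]
  have hA : ∑ m ∈ Ioc A B, ν m ≤ ((B : ℝ) - A) * vz z * (1 + K * (1 / 2) ^ b) + (z : ℝ) ^ (12 * b) := by
    rw [hsumU]
    calc ∑ d ∈ D, up d * ∑ m ∈ Ioc A B, (if (∏ r ∈ d, r) ∣ m then (1 : ℝ) else 0)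
        ≤ ∑ d ∈ D, (((B : ℝ) - A) * (up d * (1 / ((∏ r ∈ d, r : ℕ) : ℝ))) + 1) := by
          refine sum_le_sum fun d hd => ?_
          have h1 := count_int (∏ r ∈ d, r) A B (hDpos d hd) hAB
          set S := ∑ m ∈ Ioc A B, (if (∏ r ∈ d, r) ∣ m then (1 : ℝ) else 0)
          have h2 : up d * S - ((B : ℝ) - A) * (up d * (1 / ((∏ r ∈ d, r : ℕ) : ℝ))) =
              up d * (S - ((B : ℝ) - A) / ((∏ r ∈ d, r : ℕ) : ℝ)) := by ring
          have h3 : |up d * (S - ((B : ℝ) - A) / ((∏ r ∈ d, r : ℕ) : ℝ))| ≤ 1 := by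
            rw [abs_mul]
            exact mul_le_one₀ (hbd d).1 (abs_nonneg _) h1
          have h4 := (abs_le.mp h3).2
          linarith
      _ = ((B : ℝ) - A) * (∑ d ∈ D, up d * (1 / ((∏ r ∈ d, r : ℕ) : ℝ))) + D.card := by
          rw [sum_add_distrib, ← mul_sum, sum_const, nsmul_eq_mul, mul_one]
      _ ≤ ((B : ℝ) - A) * (vz z * (1 + K * (1 / 2) ^ b)) + (z : ℝ) ^ (12 * b) := by
          have h5 := (abs_le.mp hg.1).2
          have h6 : ∑ d ∈ D, up d * (1 / ((∏ r ∈ d, r : ℕ) : ℝ)) ≤ vz z * (1 + K * (1 / 2) ^ b) := by linarith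
          have h7 := mul_le_mul_of_nonneg_left h6 hW0
          linarith
      _ = _ := by ring
  have hrg : ((rg z A B).card : ℝ) = ∑ m ∈ Ioc A B, (if bm z m = ∅ then (1 : ℝ) else 0) := by
    rw [← sum_filter, sum_const, nsmul_eq_mul, mul_one]
    congr 2
    unfold rg
    refine filter_congr fun m _ => ?_
    rw [bm_empty]
  refine ⟨hA, ?_, ?_, ?_⟩
  · -- lower bound for the rough numbers
    have hsumL : ∑ m ∈ Ioc A B, ∑ d ∈ (bm z m).powerset, lo d =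
        ∑ d ∈ D, lo d * ∑ m ∈ Ioc A B, (if (∏ r ∈ d, r) ∣ m then (1 : ℝ) else 0) := by
      have h1 : ∀ m ∈ Ioc A B, ∑ d ∈ (bm z m).powerset, lo d =
          ∑ d ∈ D, lo d * (if (∏ r ∈ d, r) ∣ m then (1 : ℝ) else 0) := by
        intro m _
        rw [sum_bm, hresL]
      rw [sum_congr rfl h1, sum_comm]
      refine sum_congr rfl fun d _ => ?_
      rw [mul_sum]
    have h2 : ∑ m ∈ Ioc A B, ∑ d ∈ (bm z m).powerset, lo d ≤ ((rg z A B).card : ℝ) := by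
      rw [hrg]
      exact sum_le_sum fun m _ => (hpt (bm z m) (bm_sub z m)).1
    refine le_trans ?_ h2
    rw [hsumL]
    have hNJ := NJ_le z hz
    calc ((B : ℝ) - A) * vz z * (1 - K * (1 / 2) ^ b) - (z : ℝ) ^ (12 * b + 2)
        ≤ ((B : ℝ) - A) * (∑ d ∈ D, lo d * (1 / ((∏ r ∈ d, r : ℕ) : ℝ))) - D.card * (z : ℝ) ^ 2 := by
          have h5 := (abs_le.mp hg.2).1
          have h6 : vz z * (1 - K * (1 / 2) ^ b) ≤ ∑ d ∈ D, lo d * (1 / ((∏ r ∈ d, r : ℕ) : ℝ)) := by linarith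
          have h7 := mul_le_mul_of_nonneg_left h6 hW0
          have h8 : (D.card : ℝ) * (z : ℝ) ^ 2 ≤ (z : ℝ) ^ (12 * b) * (z : ℝ) ^ 2 :=
            mul_le_mul_of_nonneg_right hDcard (by positivity)
          rw [pow_add]
          linarith
      _ = ∑ d ∈ D, (((B : ℝ) - A) * (lo d * (1 / ((∏ r ∈ d, r : ℕ) : ℝ))) - (z : ℝ) ^ 2) := by
          rw [sum_sub_distrib, ← mul_sum, sum_const, nsmul_eq_mul]
      _ ≤ _ := by
          refine sum_le_sum fun d hd => ?_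
          have h1 := count_int (∏ r ∈ d, r) A B (hDpos d hd) hAB
          set S := ∑ m ∈ Ioc A B, (if (∏ r ∈ d, r) ∣ m then (1 : ℝ) else 0)
          have h2 : lo d * S - ((B : ℝ) - A) * (lo d * (1 / ((∏ r ∈ d, r : ℕ) : ℝ))) =
              lo d * (S - ((B : ℝ) - A) / ((∏ r ∈ d, r : ℕ) : ℝ)) := by ring
          have h3 : |lo d * (S - ((B : ℝ) - A) / ((∏ r ∈ d, r : ℕ) : ℝ))| ≤ (NJ z + 1 : ℝ) * 1 := by
            rw [abs_mul]
            exact mul_le_mul (hbd d).2 h1 (abs_nonneg _) (by positivity)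
          have h4 := (abs_le.mp h3).1
          linarith
  · refine le_trans ?_ hA
    rw [hrg]
    refine sum_le_sum fun m _ => ?_
    rw [hνeq]
    exact (hpt (bm z m) (bm_sub z m)).2
  · intro N _ η hη
    have h1 : ∑ m ∈ Ioc A B, (ν m : ℂ) * η (m : ZMod N) =
        ∑ d ∈ D, (up d : ℂ) * ∑ m ∈ Ioc A B, (if (∏ r ∈ d, r) ∣ m then η (m : ZMod N) else 0) := by
      have h2 : ∀ m ∈ Ioc A B, (ν m : ℂ) * η (m : ZMod N) =
          ∑ d ∈ D, (up d : ℂ) * (if (∏ r ∈ d, r) ∣ m then η (m : ZMod N) else 0) := by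
        intro m _
        rw [hν]
        push_cast
        rw [sum_mul]
        refine sum_congr rfl fun d _ => ?_
        split_ifs <;> simp
      rw [sum_congr rfl h2, sum_comm]
      refine sum_congr rfl fun d _ => ?_
      rw [mul_sum]
    rw [h1]
    have hPB : 0 ≤ 2 * PB N := by
      have := (norm_nonneg _).trans (char_int η hη 1 A B le_rfl hAB)
      exact this
    calc _ ≤ ∑ d ∈ D, 2 * PB N := by
          refine (norm_sum_le _ _).trans (sum_le_sum fun d hd => ?_)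
          rw [norm_mul, Complex.norm_real, Real.norm_eq_abs]
          have h3 := char_int η hη (∏ r ∈ d, r) A B (hDpos d hd) hAB
          calc |up d| * _ ≤ 1 * (2 * PB N) := mul_le_mul (hbd d).1 h3 (norm_nonneg _) (by norm_num)
            _ = 2 * PB N := one_mul _
      _ = D.card * (2 * PB N) := by rw [sum_const, nsmul_eq_mul]
      _ ≤ (z : ℝ) ^ (12 * b) * (2 * PB N) := mul_le_mul_of_nonneg_right hDcard hPB
      _ = _ := by ring

end Pool.Agent.Lib.EX
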