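import Pool.Agent.Lib.MP_7b7e48_nt.TC.FLM
import Pool.Agent.Lib.MP_7b7e48_nt.RG.PV

/-!
# EX, block D: rough numbers in an interval and the sieve majorant

`rg z A B` : the integers of `(A, B]` free of primes `≤ z`; `vz z = ∏_{p ≤ z} (1 - 1/p)`.
-/

set_option autoImplicit false

open Finset

namespace Pool.Agent.Lib.EX

open Pool.Agent.Lib.TC (flm)
open Pool.Agent.Lib.GT (NJ)
open Pool.Agent.Lib.RG (PB pv_all PB_le)

/-- primes up to `z` -/
def pz (z : ℕ) : Finset ℕ := (range (z + 1)).filter Nat.Prime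

theorem mem_pz {z p : ℕ} : p ∈ pz z ↔ p.Prime ∧ p ≤ z := by
  unfold pz
  rw [mem_filter, mem_range]
  constructor
  · rintro ⟨h1, h2⟩; exact ⟨h2, by omega⟩
  · rintro ⟨h1, h2⟩; exact ⟨by omega, h1⟩

open Classical in
/-- the `z`-rough integers of `(A, B]` -/
noncomputable def rg (z A B : ℕ) : Finset ℕ := (Ioc A B).filter (fun m => ∀ p ≤ z, p.Prime → ¬ p ∣ m)

/-- the sieve product -/
noncomputable def vz (z : ℕ) : ℝ := ∏ p ∈ pz z, (1 - 1 / (p : ℝ))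

theorem vz_ge (z : ℕ) (hz : 1 ≤ z) : 1 / (z : ℝ) ≤ vz z := by
  have h1 : ∀ z : ℕ, 1 ≤ z → ∏ n ∈ Ioc 1 z, (1 - 1 / (n : ℝ)) = 1 / (z : ℝ) := by
    intro z hz
    induction z, hz using Nat.le_induction with
    | base => simp
    | succ z hz ih =>
      rw [← Finset.insert_Ioc_right_eq_Ioc_add_one hz, prod_insert (by simp), ih]
      have : (z : ℝ) ≠ 0 := by positivity
      push_cast
      field_simp
      ring
  rw [← h1 z hz]
  unfold vz
  have hsub : pz z ⊆ Ioc 1 z := by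
    intro p hp
    rw [mem_pz] at hp
    rw [mem_Ioc]
    exact ⟨hp.1.one_lt, hp.2⟩
  rw [← prod_sdiff hsub]
  refine mul_le_of_le_one_left ?_ ?_
  · refine prod_nonneg fun p hp => ?_
    have := (mem_pz.mp hp).1.one_lt
    have h2 : (1 : ℝ) ≤ p := by exact_mod_cast this.le
    rw [sub_nonneg, div_le_one (by linarith)]
    exact h2
  · refine prod_le_one (fun n hn => ?_) (fun n hn => ?_)
    · have h2 := (mem_Ioc.mp (mem_sdiff.mp hn).1).1
      have h3 : (1 : ℝ) ≤ n := by exact_mod_cast h2.le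
      rw [sub_nonneg, div_le_one (by linarith)]
      exact h3
    · have : 0 ≤ 1 / (n : ℝ) := by positivity
      linarith

theorem vz_pos (z : ℕ) (hz : 1 ≤ z) : 0 < vz z := lt_of_lt_of_le (by positivity) (vz_ge z hz)

theorem vz_le_one (z : ℕ) : vz z ≤ 1 := by
  refine prod_le_one (fun p hp => ?_) fun p hp => ?_
  · have := (mem_pz.mp hp).1.one_lt
    have h2 : (1 : ℝ) ≤ p := by exact_mod_cast this.le
    rw [sub_nonneg, div_le_one (by linarith)]
    exact h2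
  · have : 0 ≤ 1 / (p : ℝ) := by positivity
    linarith

/-- the primes of `pz z` dividing `m` -/
def bm (z m : ℕ) : Finset ℕ := (pz z).filter (· ∣ m)

theorem bm_sub (z m : ℕ) : bm z m ⊆ pz z := filter_subset _ _

theorem bm_empty (z m : ℕ) : bm z m = ∅ ↔ ∀ p ≤ z, p.Prime → ¬ p ∣ m := by
  unfold bm
  rw [filter_eq_empty_iff]
  constructor
  · intro h p hp hpp
    exact h (mem_pz.mpr ⟨hpp, hp⟩)
  · intro h p hp
    exact h p (mem_pz.mp hp).2 (mem_pz.mp hp).1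

theorem prod_dvd_iff {z m : ℕ} {d : Finset ℕ} (hd : d ⊆ pz z) : (∏ r ∈ d, r) ∣ m ↔ d ⊆ bm z m := by
  constructor
  · intro h r hr
    exact mem_filter.mpr ⟨hd hr, (dvd_prod_of_mem _ hr).trans h⟩
  · intro h
    refine prod_primes_dvd m (fun r hr => (mem_pz.mp (hd hr)).1.prime) fun r hr => (mem_filter.mp (h hr)).2

/-- expansion of a sum over the subsets of `bm z m` -/
theorem sum_bm (z m : ℕ) (w : Finset ℕ → ℝ) :
    ∑ d ∈ (bm z m).powerset, w d = ∑ d ∈ (pz z).powerset, w d * (if (∏ r ∈ d, r) ∣ m then 1 else 0) := by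
  have h1 : (bm z m).powerset = (pz z).powerset.filter (fun d => (∏ r ∈ d, r) ∣ m) := by
    ext d
    rw [mem_powerset, mem_filter, mem_powerset]
    constructor
    · intro h
      have h2 := h.trans (bm_sub z m)
      exact ⟨h2, (prod_dvd_iff h2).mpr h⟩
    · rintro ⟨h2, h3⟩
      exact (prod_dvd_iff h2).mp h3
  rw [h1, sum_filter]
  refine sum_congr rfl fun d _ => ?_
  split_ifs <;> simp

/-- multiples of `D` in `(0, B]` -/
theorem sum_mult (D B : ℕ) (hD : 1 ≤ D) (g : ℕ → ℂ) :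
    ∑ m ∈ Ioc 0 B, (if D ∣ m then g m else 0) = ∑ k ∈ Icc 1 (B / D), g (D * k) := by
  rw [← sum_filter]
  symm
  refine sum_bij (fun k _ => D * k) ?_ ?_ ?_ ?_
  · intro k hk
    rw [mem_Icc] at hk
    rw [mem_filter, mem_Ioc]
    refine ⟨⟨Nat.mul_pos hD hk.1, ?_⟩, dvd_mul_right _ _⟩
    rw [mul_comm]
    exact (Nat.le_div_iff_mul_le hD).mp hk.2
  · intro k1 _ k2 _ h
    exact Nat.eq_of_mul_eq_mul_left hD h
  · intro m hm
    rw [mem_filter, mem_Ioc] at hm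
    obtain ⟨⟨h1, h2⟩, k, rfl⟩ := hm
    refine ⟨k, ?_, rfl⟩
    rw [mem_Icc]
    refine ⟨Nat.pos_of_mul_pos_left h1, ?_⟩
    rw [Nat.le_div_iff_mul_le hD, mul_comm]
    exact h2
  · intro k _; rfl

theorem sum_Ioc_sub {E : Type*} [AddCommGroup E] (A B : ℕ) (hAB : A ≤ B) (g : ℕ → E) :
    ∑ m ∈ Ioc A B, g m = ∑ m ∈ Ioc 0 B, g m - ∑ m ∈ Ioc 0 A, g m := by
  rw [eq_sub_iff_add_eq, add_comm, ← Finset.sum_union]
  · rw [Finset.Ioc_union_Ioc_eq_Ioc (Nat.zero_le _) hAB]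
  · rw [Finset.disjoint_left]
    intro m h1 h2
    rw [mem_Ioc] at h1 h2
    omega

theorem char_mult {N : ℕ} [NeZero N] (η : DirichletCharacter ℂ N) (hη : η ≠ 1) (D B : ℕ) (hD : 1 ≤ D) :
    ‖∑ m ∈ Ioc 0 B, (if D ∣ m then η (m : ZMod N) else 0)‖ ≤ PB N := by
  rw [sum_mult D B hD]
  have h1 : ∀ k ∈ Icc 1 (B / D), η ((D * k : ℕ) : ZMod N) = η (D : ZMod N) * η (k : ZMod N) := by
    intro k _
    push_cast
    rw [map_mul]
  rw [sum_congr rfl h1, ← mul_sum, norm_mul]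
  have h2 : ‖η (D : ZMod N)‖ ≤ 1 := η.norm_le_one _
  have h3 : ‖∑ n ∈ Icc 1 (B / D), η (n : ZMod N)‖ ≤ PB N := pv_all N η hη _
  calc _ ≤ 1 * ‖∑ n ∈ Icc 1 (B / D), η (n : ZMod N)‖ := mul_le_mul_of_nonneg_right h2 (norm_nonneg _)
    _ ≤ PB N := by rw [one_mul]; exact h3

theorem char_int {N : ℕ} [NeZero N] (η : DirichletCharacter ℂ N) (hη : η ≠ 1) (D A B : ℕ) (hD : 1 ≤ D) (hAB : A ≤ B) :
    ‖∑ m ∈ Ioc A B, (if D ∣ m then η (m : ZMod N) else 0)‖ ≤ 2 * PB N := by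
  rw [sum_Ioc_sub A B hAB]
  have h1 := char_mult η hη D B hD
  have h2 := char_mult η hη D A hD
  refine (norm_sub_le _ _).trans ?_
  linarith

/-- number of multiples of `D` in `(A, B]` -/
theorem count_int (D A B : ℕ) (hD : 1 ≤ D) (hAB : A ≤ B) :
    |∑ m ∈ Ioc A B, (if D ∣ m then (1 : ℝ) else 0) - ((B : ℝ) - A) / D| ≤ 1 := by
  have h0 : ∀ B : ℕ, ∑ m ∈ Ioc 0 B, (if D ∣ m then (1 : ℝ) else 0) = ((B / D : ℕ) : ℝ) := by
    intro B
    rw [← sum_filter, sum_const, nsmul_eq_mul, mul_one]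
    congr 1
    exact Nat.Ioc_filter_dvd_card_eq_div B D
  rw [sum_Ioc_sub A B hAB, h0, h0]
  have hDr : (0 : ℝ) < D := by exact_mod_cast hD
  have h1 : ∀ B : ℕ, ((B / D : ℕ) : ℝ) ≤ (B : ℝ) / D ∧ (B : ℝ) / D < ((B / D : ℕ) : ℝ) + 1 := by
    intro B
    refine ⟨Nat.cast_div_le, ?_⟩
    rw [div_lt_iff₀ hDr]
    have h2 := Nat.lt_mul_div_succ B hD
    have h3 : (B : ℝ) < ((D * (B / D + 1) : ℕ) : ℝ) := by exact_mod_cast h2
    push_cast at h3
    linarith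
  have h2 := h1 A
  have h3 := h1 B
  rw [abs_le, sub_div]
  constructor <;> linarith

end Pool.Agent.Lib.EX
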