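import Pool.Agent.Lib.MP_61161c_nt.EX.Da

/-!
# EX, block D, module Dbp: few failing pairs

`FP G u`: the pairs `t`, `s` (`u t ∈ (x1, x2]`, `s ∈ (x2/4, x2/2]`, rough, `s ≡ u t` modulo `G`) with `lam s ≠ lam u * lam t`. The multipliers `q`
(good, in `[9 Y²/10, Y²)`, with `(N0 - q u t, W) = 1`) transport them to the top scale, where `Per` applies.
-/

set_option autoImplicit false

open Finset
open Pool.Agent.Lib.MP_45349e_nt.LS (lam lam_mul)
open Pool.Agent.Lib.GT (Rough pr)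

namespace Pool.Agent.Lib.EX

namespace Env

/-- lower end -/
def x1 (e : Env) : ℕ := e.X / (9000 * e.Y ^ 2) + 1

/-- upper end -/
def x2 (e : Env) : ℕ := e.X / (50 * e.Y ^ 2)

/-- the rough numbers which vote -/
noncomputable def S1 (e : Env) : Finset ℕ := rg e.z (e.x2 / 4) (e.x2 / 2)

open Classical in
/-- the `t` with `u t ∈ (x1, x2]` -/
noncomputable def TT1 (e : Env) (G u : ℕ) : Finset ℕ :=
  (rg e.z 0 e.x2).filter fun t => e.x1 < u * t ∧ u * t ≤ e.x2 ∧ t.Coprime G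

open Classical in
/-- the failing pairs -/
noncomputable def FP (e : Env) (G u : ℕ) : Finset (ℕ × ℕ) :=
  (e.TT1 G u ×ˢ e.S1).filter fun x => x.2 ≡ u * x.1 [MOD G] ∧ lam x.2 ≠ lam u * lam x.1

variable {e : Env}

theorem mem_rg {z A B n : ℕ} : n ∈ rg z A B ↔ (A < n ∧ n ≤ B) ∧ Sf z (n : ℤ) := by
  unfold rg
  rw [mem_filter, mem_Ioc, Sf_nat]

/-- sizes -/
theorem x_sz (he : e.Ok) : e.X < 9000 * e.Y ^ 2 * e.x1 ∧ 50 * e.Y ^ 2 * e.x2 ≤ e.X ∧ e.X < 50 * e.Y ^ 2 * (e.x2 + 1) ∧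
    9000 * e.Y ^ 2 * e.x1 ≤ e.X + 9000 * e.Y ^ 2 ∧ 10 ^ 9 * e.Y ^ 2 * 10 ^ 9 ≤ e.X := by
  have hY := he.Y4
  have hY2 : 0 < e.Y ^ 2 := by positivity
  have hX : e.Y ^ 10 ≤ e.X := he.YpX (by norm_num)
  refine ⟨?_, ?_, ?_, ?_, ?_⟩
  · unfold x1
    exact Nat.lt_mul_div_succ _ (by positivity)
  · unfold x2
    exact Nat.mul_div_le _ _
  · unfold x2
    exact Nat.lt_mul_div_succ _ (by positivity)
  · unfold x1
    have := Nat.mul_div_le e.X (9000 * e.Y ^ 2)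
    rw [mul_add]
    omega
  · have h1 : 10 ^ 18 ≤ e.Y ^ 4 := by
      calc 10 ^ 18 ≤ 40000 ^ 4 := by norm_num
        _ ≤ e.Y ^ 4 := Nat.pow_le_pow_left hY 4
    have h2 : 10 ^ 9 * e.Y ^ 2 * 10 ^ 9 = 10 ^ 18 * e.Y ^ 2 := by ring
    have h3 : e.Y ^ 4 * e.Y ^ 2 = e.Y ^ 6 := by ring
    have h4 : e.Y ^ 6 ≤ e.X := he.YpX (by norm_num)
    rw [h2]
    calc 10 ^ 18 * e.Y ^ 2 ≤ e.Y ^ 4 * e.Y ^ 2 := Nat.mul_le_mul_right _ h1
      _ ≤ e.X := by rw [h3]; exact h4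

open Classical in
/-- the failing pairs which `q` transports -/
theorem fp_q (he : e.Ok) {G : ℕ} {dl : ℝ} (hdl : 0 ≤ dl) (hPer : e.Per G dl) {q u : ℕ} (hq : e.Gd q) (hq1 : 9 * e.Y ^ 2 ≤ 10 * q)
    (hq2 : q ≤ e.Y ^ 2) (hu : e.Gd u) (huY : u ≤ e.Y ^ 10) :
    (((e.FP G u).filter fun x => IsCoprime (((q * (u * x.1) : ℕ) : ℤ) * (e.N0 - (q * (u * x.1) : ℕ))) (e.W : ℤ)).card : ℝ) ≤
      dl * ((e.X : ℝ) ^ 2 / (1250 * (e.Y : ℝ) ^ 4 * G * u) * e.MM 2) := by
  have hz := he.z2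
  have hG0 := hPer.G0
  have hY := he.Y4
  have hqp : 0 < q := by
    have := hq.1.ne0 hz
    omega
  have hup : 0 < u := by
    have := hu.1.ne0 hz
    omega
  obtain ⟨s1, s2, s3, s4, s5⟩ := x_sz he
  have hY2 : 0 < e.Y ^ 2 := by positivity
  set FPq := (e.FP G u).filter fun x => IsCoprime (((q * (u * x.1) : ℕ) : ℤ) * (e.N0 - (q * (u * x.1) : ℕ))) (e.W : ℤ) with hFPq
  -- the shift of a pair
  set kk : ℕ × ℕ → ℤ := fun x => ((x.2 : ℤ) - (u * x.1 : ℕ)) / G with hkk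
  set M : ℕ := 16 * e.X / (1000 * (q * G)) with hM
  have hqG : 0 < 1000 * (q * G) := by positivity
  have hdata : ∀ x ∈ FPq, (x.1 ∈ e.TT1 G u ∧ x.2 ∈ e.S1) ∧ ((x.2 : ℤ) = (u * x.1 : ℕ) + kk x * G) ∧ kk x ≠ 0 ∧
      1000 * (|q * kk x| * G) ≤ 16 * e.X := by
    intro x hx
    rw [hFPq, mem_filter] at hx
    obtain ⟨hx1, -⟩ := hx
    unfold FP at hx1
    rw [mem_filter, mem_product] at hx1
    obtain ⟨⟨hx1, hx2⟩, hx3, hx4⟩ := hx1
    have h1 : (x.2 : ℤ) = (u * x.1 : ℕ) + kk x * G := by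
      have h2 : (G : ℤ) ∣ (x.2 : ℤ) - (u * x.1 : ℕ) := ((Int.natCast_modEq_iff.2 hx3).symm).dvd
      rw [hkk]
      simp only
      rw [Int.ediv_mul_cancel h2]
      ring
    refine ⟨⟨hx1, hx2⟩, h1, ?_, ?_⟩
    · intro h0
      rw [h0, zero_mul, add_zero] at h1
      have h2 : x.2 = u * x.1 := by exact_mod_cast h1
      apply hx4
      have h3 : x.1 ≠ 0 := by
        unfold TT1 at hx1
        rw [mem_filter, mem_rg] at hx1
        omega
      rw [h2, lam_mul _ _ (by omega) h3]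
    · have h3 : |(q : ℤ) * kk x| * G = q * |(x.2 : ℤ) - (u * x.1 : ℕ)| := by
        have h4 : (x.2 : ℤ) - (u * x.1 : ℕ) = kk x * G := by rw [h1]; ring
        rw [h4, abs_mul, abs_mul, abs_of_nonneg (by positivity : (0 : ℤ) ≤ (q : ℤ)), abs_of_nonneg (by positivity : (0 : ℤ) ≤ (G : ℤ))]
        ring
      rw [h3]
      unfold TT1 at hx1
      rw [mem_filter, mem_rg] at hx1
      unfold S1 at hx2
      rw [mem_rg] at hx2
      have h5 : |(x.2 : ℤ) - (u * x.1 : ℕ)| ≤ (3 * e.x2 / 4 + 1 : ℕ) := by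
        rw [abs_le]
        constructor <;> push_cast <;> omega
      have h6 : (q : ℤ) * |(x.2 : ℤ) - (u * x.1 : ℕ)| ≤ (e.Y ^ 2 : ℕ) * (3 * e.x2 / 4 + 1 : ℕ) := by
        apply mul_le_mul (by exact_mod_cast hq2) h5 (abs_nonneg _) (by positivity)
      have h7 : 1000 * (e.Y ^ 2 * (3 * e.x2 / 4 + 1)) ≤ 16 * e.X := by
        have h8 : e.Y ^ 2 * (4 * (3 * e.x2 / 4)) ≤ e.Y ^ 2 * (3 * e.x2) := Nat.mul_le_mul_left _ (Nat.mul_div_le _ _)
        have h9 : e.Y ^ 2 * (4 * (3 * e.x2 / 4)) = 4 * (e.Y ^ 2 * (3 * e.x2 / 4)) := by ring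
        have h10 : e.Y ^ 2 * (3 * e.x2) = 3 * (e.Y ^ 2 * e.x2) := by ring
        have h11 : 50 * e.Y ^ 2 * e.x2 = 50 * (e.Y ^ 2 * e.x2) := by ring
        have h12 : 10 ^ 9 * e.Y ^ 2 * 10 ^ 9 = 10 ^ 18 * e.Y ^ 2 := by ring
        rw [h11] at s2
        rw [h12] at s5
        rw [mul_add, mul_one]
        omega
      have h8 : ((1000 * (e.Y ^ 2 * (3 * e.x2 / 4 + 1)) : ℕ) : ℤ) ≤ ((16 * e.X : ℕ) : ℤ) := by exact_mod_cast h7
      push_cast at h8 h6 ⊢
      linarith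
  have hmaps : ∀ x ∈ FPq, kk x ∈ (Icc (-(M : ℤ)) M).erase 0 := by
    intro x hx
    obtain ⟨-, -, h3, h4⟩ := hdata x hx
    rw [mem_erase, mem_Icc]
    refine ⟨h3, ?_⟩
    rw [← abs_le, hM]
    have h5 : |(q : ℤ) * kk x| * G = |kk x| * (q * G) := by
      rw [abs_mul, abs_of_nonneg (by positivity : (0 : ℤ) ≤ (q : ℤ))]
      ring
    rw [h5] at h4
    push_cast
    rw [Int.le_ediv_iff_mul_le (by exact_mod_cast hqG)]
    linarith
  have hfib : ∀ k ∈ (Icc (-(M : ℤ)) M).erase 0, ((FPq.filter fun x => kk x = k).card : ℝ) ≤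
      dl * (e.X / (50 * ((q * u : ℕ) : ℝ)) * e.MM 2) := by
    intro k hk
    rw [mem_erase, mem_Icc] at hk
    have hinj : Set.InjOn (fun x : ℕ × ℕ => x.1) (FPq.filter fun x => kk x = k : Finset (ℕ × ℕ)) := by
      intro x hx y hy hxy
      rw [mem_coe, mem_filter] at hx hy
      have h1 := (hdata x hx.1).2.1
      have h2 := (hdata y hy.1).2.1
      rw [hx.2] at h1
      rw [hy.2] at h2
      have h3 : x.1 = y.1 := hxy
      rw [h3] at h1
      have h4 : x.2 = y.2 := by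
        have : (x.2 : ℤ) = y.2 := by rw [h1, h2]
        exact_mod_cast this
      exact Prod.ext h3 h4
    rw [← card_image_of_injOn hinj]
    rcases ((FPq.filter fun x => kk x = k)).eq_empty_or_nonempty with hE | ⟨x0, hx0⟩
    · rw [hE, image_empty, card_empty, Nat.cast_zero]
      have := MM_posD he (k := 2) (by norm_num)
      positivity
    have hkb : 1000 * (|(q : ℤ) * k| * G) ≤ 16 * e.X := by
      rw [mem_filter] at hx0
      have := (hdata x0 hx0.1).2.2.2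
      rw [hx0.2] at this
      exact this
    apply fail_cnt he hdl hPer (al := q * u) (k := q * k) ?_ ?_ (mul_ne_zero (by exact_mod_cast hqp.ne') hk.1) hkb
    · intro n hn
      rw [mem_image] at hn
      obtain ⟨x, hx, rfl⟩ := hn
      rw [mem_filter] at hx
      obtain ⟨hx0, hxk⟩ := hx
      obtain ⟨⟨h1, h2⟩, h3, -, -⟩ := hdata x hx0
      have hx0' := hx0
      rw [hFPq, mem_filter] at hx0'
      have hst := hx0'.2
      have hfp := hx0'.1
      unfold FP at hfp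
      rw [mem_filter] at hfp
      have hlam := hfp.2.2
      unfold TT1 at h1
      rw [mem_filter, mem_rg] at h1
      obtain ⟨⟨⟨t1, t2⟩, t3⟩, t4, t5, t6⟩ := h1
      unfold S1 at h2
      rw [mem_rg] at h2
      obtain ⟨⟨v1, v2⟩, v3⟩ := h2
      rw [hxk] at h3
      -- the two positions
      have p1 : ((q * u : ℕ) : ℤ) * x.1 = (q * (u * x.1) : ℕ) := by push_cast; ring
      have p2 : ((q * u : ℕ) : ℤ) * x.1 + q * k * G = (q * x.2 : ℕ) := by
        push_cast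
        rw [h3]
        push_cast
        ring
      have hs2 : e.x1 ≤ e.x2 / 4 := by
        have a1 : 9000 * e.Y ^ 2 * e.x1 ≤ 9000 * e.Y ^ 2 * (e.x2 / 4) := by
          have a2 : e.x2 ≤ 4 * (e.x2 / 4) + 3 := by omega
          have a3 : 50 * e.Y ^ 2 * (e.x2 + 1) ≤ 50 * e.Y ^ 2 * (4 * (e.x2 / 4) + 4) := Nat.mul_le_mul_left _ (by omega)
          have a4 : 50 * e.Y ^ 2 * (4 * (e.x2 / 4) + 4) = 200 * (e.Y ^ 2 * (e.x2 / 4)) + 200 * e.Y ^ 2 := by ring
          have a5 : 9000 * e.Y ^ 2 * (e.x2 / 4) = 9000 * (e.Y ^ 2 * (e.x2 / 4)) := by ring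
          have a6 : 10 ^ 9 * e.Y ^ 2 * 10 ^ 9 = 10 ^ 18 * e.Y ^ 2 := by ring
          rw [a6] at s5
          rw [a4] at a3
          rw [a5]
          omega
        exact Nat.le_of_mul_le_mul_left a1 (by positivity)
      have lowb : ∀ m : ℕ, e.x1 ≤ m → e.X ≤ 10 ^ 4 * (q * m) := by
        intro m hm
        have b1 : 9000 * e.Y ^ 2 * e.x1 ≤ 9000 * e.Y ^ 2 * m := Nat.mul_le_mul_left _ hm
        have b2 : 9 * e.Y ^ 2 * m ≤ 10 * q * m := Nat.mul_le_mul_right _ hq1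
        have b3 : 9000 * e.Y ^ 2 * m = 1000 * (9 * e.Y ^ 2 * m) := by ring
        have b4 : 10 * q * m = 10 * (q * m) := by ring
        rw [b4] at b2
        rw [b3] at b1
        omega
      have upb : ∀ m : ℕ, m ≤ e.x2 → 50 * (q * m) ≤ e.X := by
        intro m hm
        have b1 : q * m ≤ e.Y ^ 2 * e.x2 := Nat.mul_le_mul hq2 hm
        have b2 : 50 * e.Y ^ 2 * e.x2 = 50 * (e.Y ^ 2 * e.x2) := by ring
        rw [b2] at s2
        omega
      have hx1z : x.1 ≠ 0 := by omega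
      have hx2z : x.2 ≠ 0 := by omega
      have hq0 : (q : ℤ) ≠ 0 := by exact_mod_cast hqp.ne'
      have lq : lam q ≠ 0 := by
        rcases lam_pm' q with h | h <;> rw [h] <;> norm_num
      show (e.X : ℤ) ≤ 10 ^ 4 * (((q * u : ℕ) : ℤ) * (x.1 : ℤ)) ∧ 50 * (((q * u : ℕ) : ℤ) * (x.1 : ℤ)) ≤ e.X ∧ _
      refine ⟨?_, ?_, ?_, ?_, ?_, ?_, ?_, ?_⟩
      · rw [p1]
        exact_mod_cast lowb (u * x.1) t4.le
      · rw [p1]
        exact_mod_cast upb (u * x.1) t5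
      · rw [p2]
        exact_mod_cast lowb x.2 (by omega)
      · rw [p2]
        exact_mod_cast upb x.2 (by omega)
      · have p3 : q * u * x.1 = q * (u * x.1) := by ring
        rw [p3]
        exact hst
      · push_cast
        exact (hq.1.mul hu.1).mul t3
      · have p4 : ((q * u * x.1 : ℕ) : ℤ) + q * k * G = (q * x.2 : ℕ) := by
          rw [← p2]
          push_cast
          ring
        rw [p4]
        push_cast
        exact hq.1.mul v3
      · have p4 : ((q * u * x.1 : ℕ) : ℤ) + q * k * G = (q * x.2 : ℕ) := by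
          rw [← p2]
          push_cast
          ring
        rw [p4]
        unfold lz
        rw [Int.natAbs_natCast, Int.natAbs_natCast, lam_mul _ _ (by positivity) hx1z, lam_mul _ _ (by omega) (by omega),
          lam_mul _ _ (by omega) hx2z, mul_assoc]
        intro hcon
        exact hlam (mul_left_cancel₀ lq hcon).symm
    · push_cast
      exact hq.mul hu he.BadP
    · calc q * u ≤ e.Y ^ 2 * e.Y ^ 10 := Nat.mul_le_mul hq2 huY
        _ = e.Y ^ 12 := by ring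
  have hcard : (FPq.card : ℝ) ≤ (2 * M : ℝ) * (dl * (e.X / (50 * ((q * u : ℕ) : ℝ)) * e.MM 2)) := by
    rw [card_eq_sum_card_fiberwise (f := kk) (t := (Icc (-(M : ℤ)) M).erase 0) (fun x hx => mem_coe.2 (hmaps x hx))]
    push_cast
    calc ∑ k ∈ (Icc (-(M : ℤ)) M).erase 0, ((FPq.filter fun x => kk x = k).card : ℝ)
        ≤ ∑ k ∈ (Icc (-(M : ℤ)) M).erase 0, dl * (e.X / (50 * ((q * u : ℕ) : ℝ)) * e.MM 2) := sum_le_sum hfib
      _ = _ := by
        rw [sum_const, nsmul_eq_mul]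
        congr 1
        · have h1 : ((Icc (-(M : ℤ)) M).erase 0).card = 2 * M := by
            have hM0 : (0 : ℤ) ≤ (M : ℤ) := Int.natCast_nonneg M
            clear_value M
            rw [card_erase_of_mem (by rw [mem_Icc]; omega), Int.card_Icc]
            omega
          rw [h1]
          push_cast
          ring
        · push_cast
          ring
  refine hcard.trans ?_
  have hMM := MM_posD he (k := 2) (by norm_num)
  have hqR : (0 : ℝ) < q := by exact_mod_cast hqp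
  have huR : (0 : ℝ) < u := by exact_mod_cast hup
  have hGR : (0 : ℝ) < G := by exact_mod_cast hG0
  have hYR : (0 : ℝ) < e.Y := by
    have : 0 < e.Y := by omega
    exact_mod_cast this
  have hXR : (0 : ℝ) ≤ e.X := Nat.cast_nonneg _
  have hMle : (M : ℝ) ≤ 16 * e.X / (1000 * (q * G)) := by
    rw [hM]
    refine (Nat.cast_div_le).trans ?_
    push_cast
    exact le_rfl
  have hq1R : 9 / 10 * (e.Y : ℝ) ^ 2 ≤ q := by
    have : (9 : ℝ) * (e.Y : ℝ) ^ 2 ≤ 10 * q := by exact_mod_cast hq1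
    linarith
  have hqq : 81 / 100 * (e.Y : ℝ) ^ 4 ≤ (q : ℝ) * q := by
    calc 81 / 100 * (e.Y : ℝ) ^ 4 = (9 / 10 * (e.Y : ℝ) ^ 2) * (9 / 10 * (e.Y : ℝ) ^ 2) := by ring
      _ ≤ (q : ℝ) * q := mul_le_mul hq1R hq1R (by positivity) hqR.le
  calc (2 * M : ℝ) * (dl * (e.X / (50 * ((q * u : ℕ) : ℝ)) * e.MM 2))
      ≤ (2 * (16 * e.X / (1000 * (q * G)))) * (dl * (e.X / (50 * ((q * u : ℕ) : ℝ)) * e.MM 2)) := by
        have h0 : 0 ≤ dl * (e.X / (50 * ((q * u : ℕ) : ℝ)) * e.MM 2) := by positivity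
        exact mul_le_mul_of_nonneg_right (by linarith) h0
    _ = dl * (((e.X : ℝ) ^ 2 / ((50000 / 32) * (q * q) * G * u)) * e.MM 2) := by
        push_cast
        field_simp
        ring
    _ ≤ dl * ((e.X : ℝ) ^ 2 / (1250 * (e.Y : ℝ) ^ 4 * G * u) * e.MM 2) := by
        have h1 : 1250 * (e.Y : ℝ) ^ 4 * G * u ≤ (50000 / 32) * ((q : ℝ) * q) * G * u := by
          have h2 : 1250 * (e.Y : ℝ) ^ 4 ≤ (50000 / 32) * ((q : ℝ) * q) := by
            have : (0 : ℝ) ≤ (e.Y : ℝ) ^ 4 := by positivity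
            nlinarith
          gcongr
        gcongr

end Env

end Pool.Agent.Lib.EX
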