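import Pool.Agent.Lib.MP_61161c_nt.EX.Dbp

/-!
# EX, block D, module Dcm: the majority function

`Fm r` is the majority of `lam` over the rough `s ∈ (x2/4, x2/2]` in the class `r`. For every good `u ≤ Y^10` it satisfies `Fm (u t) = lam u * lam t`
for all but `20 dl (x2/u) vz` of the rough `t`, `u t ∈ (x1, x2]`, `t` coprime to `G`.
-/

set_option autoImplicit false

open Finset
open Pool.Agent.Lib.MP_45349e_nt.LS (lam lam_mul)
open Pool.Agent.Lib.GT (Rough pr)

namespace Pool.Agent.Lib.EX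

namespace Env

/-- rough numbers in intervals -/
def RC (e : Env) : Prop := ∀ a L : ℕ, e.Y ≤ L → a + L ≤ e.X →
  |((rg e.z a (a + L)).card : ℝ) - L * vz e.z| ≤ e.eta * (L * vz e.z)

open Classical in
/-- the majority -/
noncomputable def Fm (e : Env) (G : ℕ) (r : ZMod G) : ℝ :=
  if IsUnit r then (if 0 ≤ ∑ s ∈ e.S1.filter (fun s : ℕ => (s : ZMod G) = r), lam s then 1 else -1) else 0

variable {e : Env}

theorem vz_pos' (he : e.Ok) : 0 < vz e.z := vz_pos e.z (by have := he.z2; omega)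

open Classical in
/-- few failing pairs -/
theorem fp_card (he : e.Ok) (hP1 : e.P1 36) (hR : e.RC) {G : ℕ} {dl : ℝ} (hdl : 0 ≤ dl) (hPer : e.Per G dl) {u : ℕ}
    (hu : e.Gd u) (huY : u ≤ e.Y ^ 10) :
    ((e.FP G u).card : ℝ) * G.totient ≤ dl * ((e.X : ℝ) ^ 2 * vz e.z ^ 2 / (1100 * (e.Y : ℝ) ^ 4 * u)) := by
  have hz := he.z2
  have hG0 := hPer.G0
  have hY := he.Y4
  have hup : 0 < u := by
    have := hu.1.ne0 hz
    omega
  have hYY : 10 * e.Y ≤ e.Y ^ 2 / 10 := by
    have h1 : e.Y ^ 2 = e.Y * e.Y := by ring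
    have h2 : 40000 * e.Y ≤ e.Y * e.Y := Nat.mul_le_mul_right _ hY
    rw [h1]
    omega
  set L : ℕ := e.Y ^ 2 / 10 with hL
  set A : ℕ := e.Y ^ 2 - L with hA
  have hAL : A + L = e.Y ^ 2 := by omega
  have hYL : e.Y ≤ L := by omega
  set Q : Finset ℕ := (Ico A (A + L)).filter fun q : ℕ => e.Gd q with hQ
  set st : ℕ → ℕ × ℕ → Prop := fun q x => IsCoprime (((q * (u * x.1) : ℕ) : ℤ) * (e.N0 - (q * (u * x.1) : ℕ))) (e.W : ℤ) with hst
  have hX2 : e.Y ^ 2 ≤ e.X := he.YpX (by norm_num)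
  have h1 : ∑ q ∈ Q, (((e.FP G u).filter fun x => st q x).card : ℝ) =
      ∑ x ∈ e.FP G u, ((Q.filter fun q => st q x).card : ℝ) := by
    simp only [card_filter, Nat.cast_sum]
    exact sum_comm
  have hMM1 := MM_posD he (k := 1) (by norm_num)
  have hMM2 := MM_posD he (k := 2) (by norm_num)
  have hvz := vz_pos' he
  have h2 : ((e.FP G u).card : ℝ) * (9 / 10 * (L * e.MM 1)) ≤ ∑ x ∈ e.FP G u, ((Q.filter fun q => st q x).card : ℝ) := by
    rw [← nsmul_eq_mul, ← sum_const]
    apply sum_le_sum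
    intro x hx
    have hx1 : Sf e.z (x.1 : ℤ) := by
      unfold FP at hx
      rw [mem_filter, mem_product] at hx
      have := hx.1.1
      unfold TT1 at this
      rw [mem_filter, mem_rg] at this
      exact this.1.2
    have h3 := star_cnt he hP1 (m := u * x.1) (by
      push_cast
      exact cop_W he (hu.1.mul hx1)) (A := A) hYL
    rw [hQ, filter_filter]
    exact h3
  set Bq : ℝ := dl * ((e.X : ℝ) ^ 2 / (1250 * (e.Y : ℝ) ^ 4 * G * u) * e.MM 2) with hBq
  have hBq0 : 0 ≤ Bq := by positivity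
  have h3 : ∑ q ∈ Q, (((e.FP G u).filter fun x => st q x).card : ℝ) ≤ Q.card * Bq := by
    rw [← nsmul_eq_mul, ← sum_const]
    apply sum_le_sum
    intro q hq
    rw [hQ, mem_filter, mem_Ico] at hq
    exact fp_q he hdl hPer hq.2 (by omega) (by omega) hu huY
  have hQc : (Q.card : ℝ) ≤ 101 / 100 * (L * vz e.z) := by
    have h4 : Q ⊆ rg e.z (A - 1) (A - 1 + L) := by
      intro q hq
      rw [hQ, mem_filter, mem_Ico] at hq
      rw [mem_rg]
      exact ⟨⟨by omega, by omega⟩, hq.2.1⟩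
    have h5 := hR (A - 1) L hYL (by omega)
    have h6 := (abs_le.1 h5).2
    have h7 : (Q.card : ℝ) ≤ (rg e.z (A - 1) (A - 1 + L)).card := by exact_mod_cast card_le_card h4
    have h8 := he.eta1
    have h9 : 0 ≤ (L : ℝ) * vz e.z := by positivity
    nlinarith
  have hLR : (0 : ℝ) < L := by
    have : 0 < L := by omega
    exact_mod_cast this
  have hGR : (0 : ℝ) < G := by exact_mod_cast hG0
  have huR : (0 : ℝ) < u := by exact_mod_cast hup
  have hYR : (0 : ℝ) < e.Y := by
    have : 0 < e.Y := by omega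
    exact_mod_cast this
  have h4 : ((e.FP G u).card : ℝ) * (9 / 10 * (L * e.MM 1)) ≤ 101 / 100 * (L * vz e.z) * Bq := by
    calc _ ≤ _ := h2
      _ = _ := h1.symm
      _ ≤ _ := h3
      _ ≤ _ := mul_le_mul_of_nonneg_right hQc hBq0
  have h5 : ((e.FP G u).card : ℝ) * e.MM 1 ≤ 101 / 90 * (vz e.z * Bq) := by
    have h6 : L * (((e.FP G u).card : ℝ) * e.MM 1) ≤ L * (101 / 90 * (vz e.z * Bq)) := by nlinarith
    exact le_of_mul_le_mul_left h6 hLR
  have hkey := mm_key he hG0 hPer.GW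
  have h6 : ((e.FP G u).card : ℝ) * G.totient * e.MM 1 ≤
      dl * ((e.X : ℝ) ^ 2 * vz e.z ^ 2 / (1100 * (e.Y : ℝ) ^ 4 * u)) * e.MM 1 := by
    calc ((e.FP G u).card : ℝ) * G.totient * e.MM 1 = (((e.FP G u).card : ℝ) * e.MM 1) * G.totient := by ring
      _ ≤ (101 / 90 * (vz e.z * Bq)) * G.totient := mul_le_mul_of_nonneg_right h5 (Nat.cast_nonneg _)
      _ = 101 / 90 * (vz e.z * dl * ((e.X : ℝ) ^ 2 / (1250 * (e.Y : ℝ) ^ 4 * G * u))) * (e.MM 2 * G.totient) := by
          rw [hBq]; ring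
      _ ≤ 101 / 90 * (vz e.z * dl * ((e.X : ℝ) ^ 2 / (1250 * (e.Y : ℝ) ^ 4 * G * u))) * (G * (vz e.z * e.MM 1)) := by
          apply mul_le_mul_of_nonneg_left hkey
          positivity
      _ = dl * ((e.X : ℝ) ^ 2 * vz e.z ^ 2 / ((112500 / 101) * (e.Y : ℝ) ^ 4 * u)) * e.MM 1 := by
          field_simp
          ring
      _ ≤ _ := by
          have h7 : 1100 * (e.Y : ℝ) ^ 4 * u ≤ (112500 / 101) * (e.Y : ℝ) ^ 4 * u := by
            have h8 : (0 : ℝ) ≤ (e.Y : ℝ) ^ 4 * u := by positivity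
            nlinarith
          gcongr
  exact le_of_mul_le_mul_right h6 hMM1

open Classical in
/-- the exceptional `t` for the multiplier `u` -/
noncomputable def Du (e : Env) (G u : ℕ) : Finset ℕ :=
  (e.TT1 G u).filter fun t => lam u * lam t ≠ e.Fm G ((u * t : ℕ) : ZMod G)

open Classical in
/-- a wrong majority: half of the voters differ -/
theorem maj_half' (S : Finset ℕ) (c f : ℝ) (hc : c = 1 ∨ c = -1) (hf : f = if 0 ≤ ∑ s ∈ S, lam s then 1 else -1) (hcf : c ≠ f) :
    (S.card : ℝ) ≤ 2 * ((S.filter fun s => lam s ≠ c).card : ℝ) := by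
  have h1 : ∑ s ∈ S, lam s = ((S.filter fun s => lam s = 1).card : ℝ) - ((S.filter fun s => lam s = -1).card : ℝ) := by
    rw [card_filter, card_filter]
    push_cast
    rw [← sum_sub_distrib]
    apply sum_congr rfl
    intro s _
    rcases lam_pm' s with h | h <;> rw [h] <;> norm_num
  have h2 : (S.card : ℝ) = ((S.filter fun s => lam s = 1).card : ℝ) + ((S.filter fun s => lam s = -1).card : ℝ) := by
    rw [card_filter, card_filter]
    push_cast
    rw [← sum_add_distrib, card_eq_sum_ones]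
    push_cast
    apply sum_congr rfl
    intro s _
    rcases lam_pm' s with h | h <;> rw [h] <;> norm_num
  rcases hc with hc | hc
  · have h3 : f = -1 := by
      by_contra h
      by_cases h4 : 0 ≤ ∑ s ∈ S, lam s
      · rw [if_pos h4] at hf; exact hcf (hc.trans hf.symm)
      · rw [if_neg h4] at hf; exact h hf
    have h4 : ¬ 0 ≤ ∑ s ∈ S, lam s := by
      intro h
      rw [if_pos h] at hf
      rw [hf] at h3
      norm_num at h3
    have h5 : (S.filter fun s => lam s ≠ c) = S.filter fun s => lam s = -1 := by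
      apply filter_congr
      intro s _
      rw [hc]
      rcases lam_pm' s with h | h <;> rw [h] <;> norm_num
    rw [h5]
    push Not at h4
    linarith
  · have h3 : f = 1 := by
      by_cases h4 : 0 ≤ ∑ s ∈ S, lam s
      · rw [if_pos h4] at hf; exact hf
      · rw [if_neg h4] at hf; exact absurd (hc.trans hf.symm) hcf
    have h4 : 0 ≤ ∑ s ∈ S, lam s := by
      by_contra h
      rw [if_neg h] at hf
      rw [hf] at h3
      norm_num at h3
    have h5 : (S.filter fun s => lam s ≠ c) = S.filter fun s => lam s = 1 := by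
      apply filter_congr
      intro s _
      rw [hc]
      rcases lam_pm' s with h | h <;> rw [h] <;> norm_num
    rw [h5]
    linarith

open Classical in
/-- few exceptional `t` -/
theorem du_card (he : e.Ok) (hP1 : e.P1 36) (hR : e.RC) {G : ℕ} {dl : ℝ} (hdl : 0 ≤ dl) (hPer : e.Per G dl) (hAP : e.AP G) {u : ℕ}
    (hu : e.Gd u) (huY : u ≤ e.Y ^ 10) (huG : u.Coprime G) :
    ((e.Du G u).card : ℝ) ≤ 20 * dl * (e.x2 / u * vz e.z) := by
  have hz := he.z2
  have hG0 := hPer.G0
  have hY := he.Y4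
  have hup : 0 < u := by
    have := hu.1.ne0 hz
    omega
  obtain ⟨s1, s2, s3, s4, s5⟩ := x_sz he
  have hvz := vz_pos' he
  have hGR : (0 : ℝ) < G := by exact_mod_cast hG0
  have huR : (0 : ℝ) < u := by exact_mod_cast hup
  have hYR : (0 : ℝ) < e.Y := by
    have : 0 < e.Y := by omega
    exact_mod_cast this
  have hphi : (0 : ℝ) < G.totient := by exact_mod_cast Nat.totient_pos.2 hG0
  have hXp : (0 : ℝ) < e.X := by exact_mod_cast he.Xpos
  set L : ℕ := e.x2 / 2 - e.x2 / 4 with hL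
  have hx2big : 10 ^ 9 ≤ e.x2 := by
    by_contra hcon
    push Not at hcon
    have h1 : 50 * e.Y ^ 2 * (e.x2 + 1) ≤ 50 * e.Y ^ 2 * 10 ^ 9 := Nat.mul_le_mul_left _ hcon
    have h2 : 10 ^ 9 * e.Y ^ 2 * 10 ^ 9 = 10 ^ 18 * e.Y ^ 2 := by ring
    have h3 : 50 * e.Y ^ 2 * 10 ^ 9 = 50000000000 * e.Y ^ 2 := by ring
    rw [h2] at s5
    rw [h3] at h1
    omega
  have hLx : 199 * e.x2 ≤ 800 * L := by omega
  have hXL : (e.X : ℝ) / (201 * (e.Y : ℝ) ^ 2) ≤ L := by
    rw [div_le_iff₀ (by positivity)]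
    have h1 : 50 * (e.Y : ℝ) ^ 2 * (e.x2 + 1) ≤ (201 * (e.Y : ℝ) ^ 2) * L := by
      have h2 : 50 * ((e.x2 : ℝ) + 1) ≤ 201 * L + 0 := by
        have h3 : 50 * (e.x2 + 1) ≤ 201 * L := by omega
        have h4 : (50 * (e.x2 + 1) : ℝ) ≤ 201 * L := by exact_mod_cast h3
        linarith
      have h5 : (0 : ℝ) ≤ (e.Y : ℝ) ^ 2 := by positivity
      nlinarith
    have h2 : (e.X : ℝ) ≤ 50 * (e.Y : ℝ) ^ 2 * (e.x2 + 1) := by exact_mod_cast s3.le
    linarith
  -- the number of voters in a class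
  have hvote : ∀ r : ℕ, r.Coprime G → 99 / 100 * (L * vz e.z / G.totient) ≤
      ((e.S1.filter fun s : ℕ => s ≡ r [MOD G]).card : ℝ) := by
    intro r hr
    have hadd : e.x2 / 4 + L = e.x2 / 2 := by omega
    have h1 := hAP r (e.x2 / 4) L hr (by
      have : e.x2 ≤ 50 * e.Y ^ 2 * e.x2 := Nat.le_mul_of_pos_left _ (by positivity)
      omega) (by
      -- `G Y ≤ L`
      have h2 := hPer.GX
      have h3 : G * e.Y ^ 17 = G * e.Y * e.Y ^ 16 := by ring
      have h4 : 201 * e.Y ^ 2 ≤ e.Y ^ 16 := by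
        have h5 : e.Y ^ 16 = e.Y ^ 14 * e.Y ^ 2 := by ring
        rw [h5]
        apply Nat.mul_le_mul_right
        calc 201 ≤ e.Y := by omega
          _ = e.Y ^ 1 := (pow_one _).symm
          _ ≤ e.Y ^ 14 := Nat.pow_le_pow_right (by omega) (by norm_num)
      have h5 : G * e.Y * (201 * e.Y ^ 2) ≤ e.X := by
        calc G * e.Y * (201 * e.Y ^ 2) ≤ G * e.Y * e.Y ^ 16 := Nat.mul_le_mul_left _ h4
          _ ≤ e.X := by rw [← h3]; exact h2
      have h6 : ((G * e.Y : ℕ) : ℝ) ≤ L := by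
        refine le_trans ?_ hXL
        rw [le_div_iff₀ (by positivity)]
        exact_mod_cast h5
      exact_mod_cast h6)
    rw [hadd] at h1
    have h2 := (abs_le.1 h1).1
    have h3 := he.eta1
    have h4 : 0 ≤ (L : ℝ) * vz e.z / G.totient := by positivity
    unfold S1
    nlinarith
  -- each exceptional `t` gives many failing pairs
  have hfib : ∀ t ∈ e.Du G u, 99 / 200 * (L * vz e.z / G.totient) ≤
      (((e.FP G u).filter fun x => x.1 = t).card : ℝ) := by
    intro t ht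
    unfold Du at ht
    rw [mem_filter] at ht
    obtain ⟨ht1, ht2⟩ := ht
    have ht1' := ht1
    unfold TT1 at ht1'
    rw [mem_filter] at ht1'
    have hco : (u * t).Coprime G := Nat.Coprime.mul_left huG ht1'.2.2.2
    have h1 := hvote (u * t) hco
    have hun : IsUnit (((u * t : ℕ) : ZMod G)) := (ZMod.isUnit_iff_coprime _ _).2 hco
    have hFm : e.Fm G ((u * t : ℕ) : ZMod G) =
        if 0 ≤ ∑ s ∈ e.S1.filter (fun s : ℕ => s ≡ u * t [MOD G]), lam s then 1 else -1 := by
      unfold Fm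
      rw [if_pos hun]
      have h2 : e.S1.filter (fun s : ℕ => (s : ZMod G) = ((u * t : ℕ) : ZMod G)) =
          e.S1.filter (fun s : ℕ => s ≡ u * t [MOD G]) := by
        apply filter_congr
        intro s _
        exact ZMod.natCast_eq_natCast_iff _ _ _
      rw [h2]
    have hpm : lam u * lam t = 1 ∨ lam u * lam t = -1 := by
      rcases lam_pm' u with h | h <;> rcases lam_pm' t with h' | h' <;> rw [h, h'] <;> norm_num
    have h2 := maj_half' (e.S1.filter (fun s : ℕ => s ≡ u * t [MOD G])) (lam u * lam t) _ hpm hFm ht2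
    have h3 : (((e.S1.filter (fun s : ℕ => s ≡ u * t [MOD G])).filter fun s => lam s ≠ lam u * lam t).card : ℝ) ≤
        (((e.FP G u).filter fun x => x.1 = t).card : ℝ) := by
      have h4 : ((e.S1.filter (fun s : ℕ => s ≡ u * t [MOD G])).filter fun s => lam s ≠ lam u * lam t).card ≤
          ((e.FP G u).filter fun x => x.1 = t).card := by
        apply card_le_card_of_injOn (fun s => (t, s))
        · intro s hs
          rw [mem_coe, mem_filter, mem_filter] at hs
          rw [mem_coe, mem_filter]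
          refine ⟨?_, rfl⟩
          unfold FP
          rw [mem_filter, mem_product]
          exact ⟨⟨ht1, hs.1.1⟩, hs.1.2, hs.2⟩
        · intro a _ b _ hab
          exact (Prod.ext_iff.1 hab).2
      exact_mod_cast h4
    linarith
  have h1 : ((e.Du G u).card : ℝ) * (99 / 200 * (L * vz e.z / G.totient)) ≤ ((e.FP G u).card : ℝ) := by
    have h2 : ∑ t ∈ e.Du G u, ((e.FP G u).filter fun x => x.1 = t).card ≤ (e.FP G u).card := by
      rw [← card_biUnion]
      · apply card_le_card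
        intro x hx
        rw [mem_biUnion] at hx
        obtain ⟨t, -, ht⟩ := hx
        exact (mem_filter.1 ht).1
      · intro a _ b _ hab
        simp only [Function.onFun]
        rw [disjoint_left]
        intro x h1 h2
        rw [mem_filter] at h1 h2
        exact hab (h1.2.symm.trans h2.2)
    calc ((e.Du G u).card : ℝ) * (99 / 200 * (L * vz e.z / G.totient))
        = ∑ t ∈ e.Du G u, 99 / 200 * (L * vz e.z / G.totient) := by rw [sum_const, nsmul_eq_mul]
      _ ≤ ∑ t ∈ e.Du G u, (((e.FP G u).filter fun x => x.1 = t).card : ℝ) := sum_le_sum hfib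
      _ ≤ _ := by exact_mod_cast h2
  have h2 := fp_card he hP1 hR hdl hPer hu huY
  -- combine
  have h3 : ((e.Du G u).card : ℝ) * (99 / 200 * (L * vz e.z)) ≤ dl * ((e.X : ℝ) ^ 2 * vz e.z ^ 2 / (1100 * (e.Y : ℝ) ^ 4 * u)) := by
    calc ((e.Du G u).card : ℝ) * (99 / 200 * (L * vz e.z))
        = ((e.Du G u).card : ℝ) * (99 / 200 * (L * vz e.z / G.totient)) * G.totient := by field_simp
      _ ≤ ((e.FP G u).card : ℝ) * G.totient := mul_le_mul_of_nonneg_right h1 hphi.le
      _ ≤ _ := h2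
  have h4 : ((e.Du G u).card : ℝ) * (99 / 200 * (e.X / (201 * (e.Y : ℝ) ^ 2) * vz e.z)) ≤
      dl * ((e.X : ℝ) ^ 2 * vz e.z ^ 2 / (1100 * (e.Y : ℝ) ^ 4 * u)) := by
    refine le_trans ?_ h3
    gcongr
  set c0 : ℝ := e.X * vz e.z / (e.Y : ℝ) ^ 2 with hc0
  have hc0p : 0 < c0 := by positivity
  have h5 : ((e.Du G u).card : ℝ) ≤ 201 * 200 / (99 * 1100) * dl * (c0 / u) := by
    have h6 : c0 * ((e.Du G u).card : ℝ) ≤ c0 * (201 * 200 / (99 * 1100) * dl * (c0 / u)) := by
      have e1 : ((e.Du G u).card : ℝ) * (99 / 200 * (e.X / (201 * (e.Y : ℝ) ^ 2) * vz e.z)) =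
          99 / (200 * 201) * (c0 * ((e.Du G u).card : ℝ)) := by
        rw [hc0]
        field_simp
      have e2 : dl * ((e.X : ℝ) ^ 2 * vz e.z ^ 2 / (1100 * (e.Y : ℝ) ^ 4 * u)) = dl * (c0 * c0 / (1100 * u)) := by
        rw [hc0]
        field_simp
      rw [e1, e2] at h4
      have e3 : c0 * (201 * 200 / (99 * 1100) * dl * (c0 / u)) = (200 * 201) / 99 * (dl * (c0 * c0 / (1100 * u))) := by
        field_simp
      rw [e3]
      linarith
    exact le_of_mul_le_mul_left h6 hc0p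
  have h7 : c0 ≤ 51 * (e.x2 * vz e.z) := by
    rw [hc0, div_le_iff₀ (by positivity)]
    have h8 : (e.X : ℝ) ≤ 51 * e.x2 * (e.Y : ℝ) ^ 2 := by
      have h9 : (e.X : ℝ) ≤ 50 * (e.Y : ℝ) ^ 2 * (e.x2 + 1) := by exact_mod_cast s3.le
      have h10 : 50 * ((e.x2 : ℝ) + 1) ≤ 51 * e.x2 := by
        have : ((10 ^ 9 : ℕ) : ℝ) ≤ e.x2 := by exact_mod_cast hx2big
        push_cast at this
        linarith
      have h11 : (0 : ℝ) ≤ (e.Y : ℝ) ^ 2 := by positivity
      nlinarith
    nlinarith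
  calc ((e.Du G u).card : ℝ) ≤ 201 * 200 / (99 * 1100) * dl * (c0 / u) := h5
    _ ≤ 201 * 200 / (99 * 1100) * dl * ((51 * (e.x2 * vz e.z)) / u) := by gcongr
    _ = (201 * 200 * 51 / (99 * 1100)) * (dl * (e.x2 / u * vz e.z)) := by ring
    _ ≤ 20 * (dl * (e.x2 / u * vz e.z)) := by
        apply mul_le_mul_of_nonneg_right (by norm_num)
        positivity
    _ = _ := by ring

end Env

end Pool.Agent.Lib.EX
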