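import Pool.Agent.Lib.MP_61161c_nt.EX.Ee

/-!
# EX, module Qn: there are many moduli

By (P3) with `r = qs mod W` at least `(qhi - qlo - |k| - 2W)/(W U)` numbers `q ≡ qs` in the window have `q`, `q - k` free of primes `≤ z`. Excluded:
`q` or `q - k` divisible by a prime of `Bad` (`≤ 2 U (len/(W z) + 1)`), by a prime `> z` of `k` or of `a` (`≤ U` such primes each, `Ok.dvs`), and
`sE q > W^2 U^2` or `sE (q - k) > W^2 U^2` (Markov), small against `qlo/(1000 W U)` because `W ≥ 10^6`.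
-/

set_option autoImplicit false

open Finset
open Pool.Agent.Lib.GT (Rough pr)

namespace Pool.Agent.Lib.EX

private theorem qn_U (e : Env) (he : e.Ok) : 100 ≤ e.U := by
  have h1 := he.etaU
  have h2 := he.eta1
  have h3 := he.eta0
  have h4 : (0 : ℝ) ≤ e.U := Nat.cast_nonneg _
  have h5 : (100 : ℝ) ≤ e.U := by
    by_contra h
    push Not at h
    nlinarith
  exact_mod_cast h5

private theorem sE_nonneg (e : Env) (q : ℕ) : 0 ≤ e.sE q := by
  unfold Env.sE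
  exact Finset.sum_nonneg fun u _ => mul_nonneg (Nat.cast_nonneg _) (eE_nonneg e u).1

/-- `∑ sE q` over a residue class modulo `W` -/
theorem sE_sum (e : Env) (he : e.Ok) (r : ℕ) (qlo qhi : ℕ) (hq : e.W ≤ qlo) (hq' : qlo ≤ qhi) (hE : qhi ≤ e.Y ^ 22) :
    ∑ q ∈ (Finset.Icc qlo qhi).filter (fun q : ℕ => q ≡ r [MOD e.W] ∧ Rough e.z q), e.sE q ≤ 4 * e.U * qhi := by
  classical
  have hU : 100 ≤ e.U := qn_U e he
  have hUR : (100 : ℝ) ≤ e.U := by exact_mod_cast hU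
  have hz : 1 ≤ e.z := by have := he.wz; omega
  have hY1 : 1 ≤ e.Y := le_trans (Nat.one_le_pow _ _ hz) he.zY
  have hEc : e.Y ^ 22 ≤ e.E.card := (Nat.pow_le_pow_right hY1 (by norm_num)).trans he.E0
  have hE1 : 0 < e.E.card := lt_of_lt_of_le (Nat.pow_pos hY1) hEc
  have hqE : (qhi : ℝ) / e.E.card ≤ 1 := by
    rw [div_le_one (by exact_mod_cast hE1)]
    exact_mod_cast hE.trans hEc
  set S := (Finset.Icc qlo qhi).filter (fun q : ℕ => q ≡ r [MOD e.W] ∧ Rough e.z q) with hS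
  -- swap
  have h1 : ∀ q ∈ S, e.sE q ≤ ∑ u ∈ insert 1 ((Finset.Icc 2 qhi).filter (fun u => Rough e.z u)),
      if u ∣ q then (u : ℝ) * e.eE u else 0 := by
    intro q hqS
    obtain ⟨h2, h3, h4⟩ := mem_filter.mp hqS
    obtain ⟨h5, h6⟩ := mem_Icc.mp h2
    have hW0 : 0 < e.W := by unfold Env.W; exact primorial_pos _
    rw [← Finset.sum_filter]
    unfold Env.sE
    refine Finset.sum_le_sum_of_subset_of_nonneg ?_ fun u _ _ => mul_nonneg (Nat.cast_nonneg _) (eE_nonneg e u).1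
    intro u hu
    have hu1 := Nat.dvd_of_mem_divisors hu
    have hu0 : 0 < u := Nat.pos_of_mem_divisors hu
    rw [mem_filter, mem_insert, mem_filter, mem_Icc]
    refine ⟨?_, hu1⟩
    by_cases h7 : u = 1
    · exact Or.inl h7
    · refine Or.inr ⟨⟨by omega, (Nat.le_of_dvd (by omega) hu1).trans h6⟩, fun p hp hpu => h4 p hp (hpu.trans hu1)⟩
  have hSq : ∀ u : ℕ, 0 < u → ((S.filter fun q => u ∣ q).card : ℝ) * u ≤ qhi := by
    intro u hu
    have h2 : (S.filter fun q => u ∣ q).card ≤ (Finset.Icc 1 (qhi / u)).card := by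
      refine Finset.card_le_card_of_injOn (fun q => q / u) ?_ ?_
      · intro q hqS
        rw [mem_coe, mem_filter] at hqS
        obtain ⟨h3, h4⟩ := hqS
        obtain ⟨h5, h6⟩ := mem_Icc.mp (mem_filter.mp h3).1
        have hW0 : 0 < e.W := by unfold Env.W; exact primorial_pos _
        rw [mem_coe, mem_Icc]
        exact ⟨Nat.div_pos (Nat.le_of_dvd (by omega) h4) hu, Nat.div_le_div_right h6⟩
      · intro q hqS q' hqS' h
        rw [mem_coe, mem_filter] at hqS hqS'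
        have h3 : q / u = q' / u := h
        rw [← Nat.div_mul_cancel hqS.2, ← Nat.div_mul_cancel hqS'.2, h3]
    rw [Nat.card_Icc, Nat.add_sub_cancel] at h2
    have h3 : (S.filter fun q => u ∣ q).card * u ≤ qhi := (Nat.mul_le_mul_right u h2).trans (Nat.div_mul_le_self _ _)
    exact_mod_cast h3
  calc ∑ q ∈ S, e.sE q ≤ ∑ q ∈ S, ∑ u ∈ insert 1 ((Finset.Icc 2 qhi).filter (fun u => Rough e.z u)),
      (if u ∣ q then (u : ℝ) * e.eE u else 0) := Finset.sum_le_sum h1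
    _ = ∑ u ∈ insert 1 ((Finset.Icc 2 qhi).filter (fun u => Rough e.z u)), ∑ q ∈ S,
      (if u ∣ q then (u : ℝ) * e.eE u else 0) := Finset.sum_comm
    _ ≤ ∑ u ∈ insert 1 ((Finset.Icc 2 qhi).filter (fun u => Rough e.z u)), (qhi : ℝ) * e.eE u := by
        refine Finset.sum_le_sum fun u hu => ?_
        have hu0 : 0 < u := by
          rw [mem_insert, mem_filter, mem_Icc] at hu
          omega
        rw [← Finset.sum_filter, Finset.sum_const, nsmul_eq_mul, ← mul_assoc]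
        exact mul_le_mul_of_nonneg_right (hSq u hu0) (eE_nonneg e u).1
    _ = (qhi : ℝ) * ∑ u ∈ insert 1 ((Finset.Icc 2 qhi).filter (fun u => Rough e.z u)), e.eE u := by
        rw [Finset.mul_sum]
    _ ≤ (qhi : ℝ) * (1 + (1 + e.U)) := by
        refine mul_le_mul_of_nonneg_left ?_ (Nat.cast_nonneg _)
        rw [Finset.sum_insert (by
          rw [mem_filter, mem_Icc]
          omega)]
        have h2 := eE_sum e he qhi
        have h3 := eE_one e he
        rw [h3]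
        linarith
    _ ≤ 4 * e.U * qhi := by
        have h2 : (0 : ℝ) ≤ qhi := Nat.cast_nonneg _
        nlinarith

/-- a set of numbers of an interval with differences divisible by `p` -/
private theorem qn_cls (p A L : ℕ) (hp : 0 < p) (T : Finset ℕ) (hT : ∀ n ∈ T, A ≤ n ∧ n < A + L)
    (hd : ∀ n ∈ T, ∀ n' ∈ T, (p : ℤ) ∣ (n : ℤ) - n') : (T.card : ℝ) ≤ L / p + 1 := by
  have h1 : T.card ≤ (Finset.range (L / p + 1)).card := by
    refine Finset.card_le_card_of_injOn (fun n => (n - A) / p) ?_ ?_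
    · intro n hn
      obtain ⟨h1, h2⟩ := hT n hn
      rw [mem_coe, mem_range]
      have : (n - A) / p ≤ L / p := Nat.div_le_div_right (by omega)
      exact Nat.lt_succ_of_le this
    · intro n hn n' hn' h
      obtain ⟨h1, h2⟩ := hT n hn
      obtain ⟨h3, h4⟩ := hT n' hn'
      have h5 := hd n hn n' hn'
      have h6 : (n - A) / p = (n' - A) / p := h
      have e1 := Nat.div_add_mod (n - A) p
      have e2 := Nat.div_add_mod (n' - A) p
      have l1 := Nat.mod_lt (n - A) hp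
      have l2 := Nat.mod_lt (n' - A) hp
      rw [← h6] at e2
      have h7 : |(n : ℤ) - n'| < p := by
        rw [abs_lt]
        constructor <;> omega
      have h8 := Int.eq_zero_of_abs_lt_dvd h5 h7
      omega
  rw [Finset.card_range] at h1
  have h2 : (T.card : ℝ) ≤ ((L / p : ℕ) : ℝ) + 1 := by exact_mod_cast h1
  have h3 : ((L / p : ℕ) : ℝ) ≤ (L : ℝ) / p := Nat.cast_div_le
  linarith

private theorem qn_pW (e : Env) (he : e.Ok) (p : ℕ) (hp : p.Prime) (hpz : e.z < p) : ¬ (p : ℤ) ∣ (e.W : ℤ) := by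
  intro h
  have h1 : p ∣ e.W := by exact_mod_cast h
  unfold Env.W primorial at h1
  obtain ⟨q, hq, hpq⟩ := (hp.prime.dvd_finsetProd_iff _).mp h1
  obtain ⟨h2, h3⟩ := mem_filter.mp hq
  have h4 : p = q := (Nat.prime_dvd_prime_iff_eq hp h3).mp hpq
  have h5 := mem_range.mp h2
  have h6 := he.wz
  omega

private theorem qn_dvd (e : Env) (he : e.Ok) (c : ℤ) (p : ℕ) (hp : p.Prime) (hpz : e.z < p) (A L : ℕ) :
    (((Finset.Ico A (A + L)).filter fun n : ℕ => (p : ℤ) ∣ c + e.W * n).card : ℝ) ≤ L / e.z + 1 := by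
  have hz : 1 ≤ e.z := by have := he.wz; omega
  have h1 := qn_cls p A L hp.pos ((Finset.Ico A (A + L)).filter fun n : ℕ => (p : ℤ) ∣ c + e.W * n) (by
    intro n hn
    exact mem_Ico.mp (mem_filter.mp hn).1) (by
    intro n hn n' hn'
    have h2 := (mem_filter.mp hn).2
    have h3 := (mem_filter.mp hn').2
    have h4 := dvd_sub h2 h3
    have h5 : c + e.W * n - (c + e.W * n') = (e.W : ℤ) * ((n : ℤ) - n') := by ring
    rw [h5] at h4
    exact ((Nat.prime_iff_prime_int.mp hp).dvd_or_dvd h4).resolve_left (qn_pW e he p hp hpz))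
  have h2 : (L : ℝ) / p ≤ L / e.z := by
    refine div_le_div_of_nonneg_left (Nat.cast_nonneg _) (by exact_mod_cast hz) (by exact_mod_cast hpz.le)
  linarith

private theorem qn_pf (e : Env) (he : e.Ok) (x : ℤ) (hx : x ≠ 0) (hx' : x.natAbs ≤ e.X ^ 100) :
    (x.natAbs.primeFactors.filter fun p => e.z < p).card ≤ e.U := by
  refine (Finset.card_le_card ?_).trans (he.dvs x.natAbs (by simpa using hx) hx')
  intro p hp
  obtain ⟨h1, h2⟩ := mem_filter.mp hp
  have hpp := Nat.prime_of_mem_primeFactors h1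
  refine mem_filter.mpr ⟨Nat.mem_divisors.mpr ⟨Nat.dvd_of_mem_primeFactors h1, by simpa using hx⟩, fun p' hp' hd => ?_⟩
  rw [(Nat.prime_dvd_prime_iff_eq hp' hpp).mp hd]
  exact h2

/-- Markov -/
private theorem qn_mark (e : Env) (he : e.Ok) (r : ℕ) (qlo qhi : ℕ) (hq : e.W ≤ qlo) (hq' : qlo ≤ qhi) (hE : qhi ≤ e.Y ^ 22)
    (T : Finset ℕ) (f : ℕ → ℕ) (hf : Set.InjOn f T) (hT : ∀ n ∈ T, qlo ≤ f n ∧ f n ≤ qhi ∧ f n ≡ r [MOD e.W] ∧
      Rough e.z (f n) ∧ (e.W : ℝ) ^ 2 * e.U ^ 2 ≤ e.sE (f n)) : (T.card : ℝ) * ((e.W : ℝ) ^ 2 * e.U) ≤ 4 * qhi := by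
  classical
  have hU : 100 ≤ e.U := qn_U e he
  have hUR : (0 : ℝ) < e.U := by exact_mod_cast (by omega : 0 < e.U)
  have h1 := sE_sum e he r qlo qhi hq hq' hE
  have h2 : ∑ n ∈ T, e.sE (f n) ≤
      ∑ q ∈ (Finset.Icc qlo qhi).filter (fun q : ℕ => q ≡ r [MOD e.W] ∧ Rough e.z q), e.sE q := by
    rw [← Finset.sum_image (f := fun q => e.sE q) hf]
    refine Finset.sum_le_sum_of_subset_of_nonneg ?_ fun q _ _ => sE_nonneg e q
    intro q hq
    obtain ⟨n, hn, rfl⟩ := mem_image.mp hq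
    obtain ⟨h3, h4, h5, h6, _⟩ := hT n hn
    exact mem_filter.mpr ⟨mem_Icc.mpr ⟨h3, h4⟩, h5, h6⟩
  have h3 : (T.card : ℝ) * ((e.W : ℝ) ^ 2 * e.U ^ 2) ≤ ∑ n ∈ T, e.sE (f n) := by
    rw [← nsmul_eq_mul]
    exact Finset.card_nsmul_le_sum _ _ _ fun n hn => (hT n hn).2.2.2.2
  have h4 : ((T.card : ℝ) * ((e.W : ℝ) ^ 2 * e.U)) * e.U ≤ (4 * qhi) * e.U := by
    have h5 : (T.card : ℝ) * ((e.W : ℝ) ^ 2 * (e.U : ℝ) ^ 2) ≤ 4 * (e.U : ℝ) * (qhi : ℝ) := h3.trans (h2.trans h1)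
    linarith
  exact le_of_mul_le_mul_right h4 hUR

private theorem qn_W (e : Env) (he : e.Ok) : 10 ^ 6 ≤ e.W := by
  unfold Env.W primorial
  have h : ({11, 13, 17, 19, 23, 29} : Finset ℕ) ⊆ (Finset.range (e.w + 1)).filter Nat.Prime := by
    have hw := he.w
    intro p hp
    rw [mem_filter, mem_range]
    simp only [mem_insert, mem_singleton] at hp
    rcases hp with rfl | rfl | rfl | rfl | rfl | rfl <;> exact ⟨by omega, by norm_num⟩
  calc 10 ^ 6 ≤ ∏ p ∈ ({11, 13, 17, 19, 23, 29} : Finset ℕ), p := by decide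
    _ ≤ _ := Finset.prod_le_prod_of_subset_of_one_le' h fun p hp _ => (mem_filter.mp hp).2.one_lt.le

private theorem sf_rough (z n : ℕ) (h : Sf z (n : ℤ)) : Rough z n := by
  intro p hp hd
  by_contra h1
  exact h p hp (by omega) (by exact_mod_cast hd)

private theorem qn_cop (e : Env) (x y : ℤ) (hx : Sf e.z x) (hy : y ≠ 0)
    (hP : ∀ p : ℕ, p ∈ y.natAbs.primeFactors.filter (fun p => e.z < p) → ¬ (p : ℤ) ∣ x) : IsCoprime x y := by
  rw [Int.isCoprime_iff_gcd_eq_one]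
  by_contra h
  obtain ⟨p, hp, hd⟩ := Nat.exists_prime_and_dvd h
  have h1 : (p : ℤ) ∣ x := (Int.natCast_dvd_natCast.mpr hd).trans (Int.gcd_dvd_left ..)
  have h2 : (p : ℤ) ∣ y := (Int.natCast_dvd_natCast.mpr hd).trans (Int.gcd_dvd_right ..)
  have h3 : e.z < p := by
    by_contra h4
    exact hx p hp (by omega) h1
  refine hP p (mem_filter.mpr ⟨?_, h3⟩) h1
  rw [Nat.mem_primeFactors]
  exact ⟨hp, Int.natCast_dvd.mp h2, by simpa using hy⟩

theorem qn {e : Env} {k0 B cr : ℕ} {eps g : ℤ} {Ns qs : ℕ} {k : ℤ} {qlo qhi : ℕ} {s dl : ℝ} {a0 lo hi : ℤ} {a : ℤ}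
    (he : e.Ok) (hP3 : e.P3) (h : DH e k0 B cr eps g Ns qs k qlo qhi s dl a0 lo hi) (ha : a ≠ 0) (ha' : |a| ≤ (e.X : ℤ) ^ 2) :
    (qlo : ℝ) ≤ 10 ^ 5 * e.W * e.U * (e.Qs qs qlo qhi k a).card := by
  classical
  have hqs := h.hqs
  have hk := h.hk
  have kW := h.kW
  have hq0 := h.hq0
  have hq1 := h.hq1
  obtain ⟨q2a, q2b, q2c⟩ := h.hq2
  have hU : 100 ≤ e.U := qn_U e he
  have hW6 := qn_W e he
  have hWY := he.W
  have hzY := he.zY
  have hUz := he.Uz
  have hYX := he.YX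
  have hw := he.wz
  have hW0 : 0 < e.W := by omega
  -- sizes
  have hz6 : 10 ^ 6 * e.U ^ 2 ≤ e.z := by
    calc 10 ^ 6 * e.U ^ 2 = 100 ^ 3 * e.U ^ 2 := by norm_num
      _ ≤ e.U ^ 3 * e.U ^ 2 := Nat.mul_le_mul_right _ (Nat.pow_le_pow_left hU 3)
      _ = e.U ^ 5 := by rw [← pow_add]
      _ ≤ e.U ^ 60 := Nat.pow_le_pow_right (by omega) (by norm_num)
      _ ≤ e.z := hUz
  have hz1 : 1 ≤ e.z := by omega
  have hzzY : e.z ≤ e.Y := by nlinarith
  have hY6 : 10 ^ 6 * e.U ^ 2 ≤ e.Y := hz6.trans hzzY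
  have hU2 : 1 ≤ e.U ^ 2 := Nat.one_le_pow _ _ (by omega)
  have hY1 : 10 ^ 6 ≤ e.Y := by nlinarith
  have hY2q : e.Y ^ 3 ≤ qlo := (Nat.pow_le_pow_right (by omega) (by norm_num)).trans hq0
  have hqY : qhi ≤ e.Y ^ 22 := hq1.trans (Nat.pow_le_pow_right (by omega) (by norm_num))
  have hWq : e.W ≤ qlo := hWY.trans (le_trans (by nlinarith [Nat.pow_le_pow_right (show 0 < e.Y by omega) (show 1 ≤ 3 by norm_num)]) hY2q)
  have hqX : qhi ≤ e.X ^ 100 := by
    have h1 : e.Y ^ 22 ≤ e.X := (Nat.pow_le_pow_right (by omega) (by norm_num)).trans hYX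
    have h2 : 1 ≤ e.X := le_trans (Nat.one_le_pow _ _ (by omega)) hYX
    calc qhi ≤ e.X := hqY.trans h1
      _ = e.X ^ 1 := (pow_one _).symm
      _ ≤ e.X ^ 100 := Nat.pow_le_pow_right h2 (by norm_num)
  have hqq : qlo ≤ qhi := by
    have := abs_nonneg k
    omega
  -- the window
  obtain ⟨D, hD⟩ : ∃ D : ℕ, (D : ℤ) = qhi - qlo - |k| := ⟨((qhi : ℤ) - qlo - |k|).toNat, Int.toNat_of_nonneg (by linarith)⟩
  have hD1 : qlo ≤ 1000 * D := by
    rw [← hD] at q2c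
    exact_mod_cast q2c
  have hD2 : D ≤ qlo := by
    have := abs_nonneg k
    omega
  set q0 := qlo + k.toNat with hq0d
  set r := qs % e.W with hr
  have hrW : r < e.W := Nat.mod_lt _ hW0
  set A := q0 / e.W + 1 with hA
  have hDW : e.Y + 2 ≤ D / e.W := by
    rw [Nat.le_div_iff_mul_le hW0]
    have h1 : (e.Y + 2) * e.W ≤ (e.Y + 2) * e.Y := Nat.mul_le_mul_left _ hWY
    have h2 : 1000 * ((e.Y + 2) * e.Y) ≤ e.Y ^ 3 := by
      have : 1000 * (e.Y + 2) ≤ e.Y * e.Y := by nlinarith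
      calc 1000 * ((e.Y + 2) * e.Y) = (1000 * (e.Y + 2)) * e.Y := by ring
        _ ≤ (e.Y * e.Y) * e.Y := Nat.mul_le_mul_right _ this
        _ = e.Y ^ 3 := by ring
    omega
  obtain ⟨L, hL⟩ : ∃ L : ℕ, L + 1 = D / e.W := ⟨D / e.W - 1, by omega⟩
  have hLY : e.Y ≤ L := by omega
  have hmem : ∀ n : ℕ, A ≤ n → n < A + L → q0 ≤ r + e.W * n ∧ r + e.W * n ≤ q0 + D := by
    intro n h1 h2
    have h3 := Nat.div_add_mod q0 e.W
    have h4 := Nat.mod_lt q0 hW0
    have h5 : e.W * (q0 / e.W + 1) ≤ e.W * n := Nat.mul_le_mul_left _ h1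
    have h6 : e.W * n ≤ e.W * (q0 / e.W + L) := Nat.mul_le_mul_left _ (by omega)
    have h7 : e.W * (L + 1) ≤ D := by
      rw [hL]
      exact Nat.mul_div_le D e.W
    have h8 : e.W * (q0 / e.W + 1) = e.W * (q0 / e.W) + e.W := by ring
    have h9 : e.W * (q0 / e.W + L) = e.W * (q0 / e.W) + e.W * L := by ring
    have h10 : e.W * (L + 1) = e.W * L + e.W := by ring
    omega
  have hmem2 : ∀ n : ℕ, A ≤ n → n < A + L → qlo ≤ r + e.W * n ∧ r + e.W * n ≤ qhi ∧
      (qlo : ℤ) ≤ ((r + e.W * n : ℕ) : ℤ) - k ∧ ((r + e.W * n : ℕ) : ℤ) - k ≤ qhi := by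
    intro n h1 h2
    obtain ⟨h3, h4⟩ := hmem n h1 h2
    set Q := r + e.W * n with hQ
    rcases abs_cases k with ⟨h5, h6⟩ | ⟨h5, h6⟩ <;> omega
  -- the count
  have hcop : r.Coprime e.W := by
    by_contra hc
    obtain ⟨p, hp, h1, h2⟩ := Nat.Prime.not_coprime_iff_dvd.mp hc
    have h3 : p ∣ qs := by
      rw [← Nat.div_add_mod qs e.W]
      exact dvd_add (h2.mul_right _) h1
    refine hqs.1 p hp ?_ (by exact_mod_cast h3)
    by_contra h4
    exact qn_pW e he p hp (by omega) (by exact_mod_cast h2)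
  have hcount := hP3 r k A L hcop kW hLY
  set S := (Finset.Ico A (A + L)).filter fun n : ℕ =>
    Sf e.z ((r + e.W * n : ℕ) : ℤ) ∧ Sf e.z ((r + e.W * n : ℕ) - k) with hS
  have hSm : ∀ n ∈ S, A ≤ n ∧ n < A + L ∧ Sf e.z ((r + e.W * n : ℕ) : ℤ) ∧ Sf e.z ((r + e.W * n : ℕ) - k) := by
    intro n hn
    obtain ⟨h1, h2, h3⟩ := mem_filter.mp hn
    exact ⟨(mem_Ico.mp h1).1, (mem_Ico.mp h1).2, h2, h3⟩
  set P := e.Bad ∪ ((k.natAbs.primeFactors.filter fun p => e.z < p) ∪ (a.natAbs.primeFactors.filter fun p => e.z < p)) with hP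
  have hPc : P.card ≤ 3 * e.U := by
    have h1 := qn_pf e he k hk (by
      have h1 : (k.natAbs : ℤ) ≤ qhi := by
        rw [Int.natCast_natAbs]
        have := abs_nonneg k
        omega
      have h2 : k.natAbs ≤ qhi := by exact_mod_cast h1
      exact h2.trans hqX)
    have h2 := qn_pf e he a ha (by
      have h1 : (a.natAbs : ℤ) ≤ (e.X : ℤ) ^ 2 := by
        rw [Int.natCast_natAbs]
        exact ha'
      have h2 : a.natAbs ≤ e.X ^ 2 := by exact_mod_cast h1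
      exact h2.trans (Nat.pow_le_pow_right (le_trans (Nat.one_le_pow _ _ (by omega)) hYX) (by norm_num)))
    have h3 := Finset.card_union_le e.Bad ((k.natAbs.primeFactors.filter fun p => e.z < p) ∪ (a.natAbs.primeFactors.filter fun p => e.z < p))
    have h4 := Finset.card_union_le (k.natAbs.primeFactors.filter fun p => e.z < p) (a.natAbs.primeFactors.filter fun p => e.z < p)
    have h5 := he.bad.1
    rw [hP]
    omega
  have hPp : ∀ p ∈ P, p.Prime ∧ e.z < p := by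
    intro p hp
    rcases mem_union.mp hp with h1 | h1
    · exact he.bad.2 p h1
    · rcases mem_union.mp h1 with h2 | h2
      · exact ⟨Nat.prime_of_mem_primeFactors (mem_filter.mp h2).1, (mem_filter.mp h2).2⟩
      · exact ⟨Nat.prime_of_mem_primeFactors (mem_filter.mp h2).1, (mem_filter.mp h2).2⟩
  set B1 := P.biUnion fun p => (Finset.Ico A (A + L)).filter fun n : ℕ => (p : ℤ) ∣ (r : ℤ) + e.W * n with hB1
  set B2 := P.biUnion fun p => (Finset.Ico A (A + L)).filter fun n : ℕ => (p : ℤ) ∣ ((r : ℤ) - k) + e.W * n with hB2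
  have hBc : ∀ c : ℤ, ((P.biUnion fun p => (Finset.Ico A (A + L)).filter fun n : ℕ => (p : ℤ) ∣ c + e.W * n).card : ℝ) ≤
      3 * e.U * (L / e.z + 1) := by
    intro c
    have h1 : ((P.biUnion fun p => (Finset.Ico A (A + L)).filter fun n : ℕ => (p : ℤ) ∣ c + e.W * n).card : ℝ) ≤
        ∑ p ∈ P, (((Finset.Ico A (A + L)).filter fun n : ℕ => (p : ℤ) ∣ c + e.W * n).card : ℝ) := by
      exact_mod_cast Finset.card_biUnion_le
    have h2 : ∑ p ∈ P, (((Finset.Ico A (A + L)).filter fun n : ℕ => (p : ℤ) ∣ c + e.W * n).card : ℝ) ≤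
        ∑ _p ∈ P, ((L : ℝ) / e.z + 1) := Finset.sum_le_sum fun p hp => qn_dvd e he c p (hPp p hp).1 (hPp p hp).2 A L
    rw [Finset.sum_const, nsmul_eq_mul] at h2
    have h3 : (P.card : ℝ) ≤ 3 * e.U := by exact_mod_cast hPc
    have h4 : (0 : ℝ) ≤ (L : ℝ) / e.z + 1 := by positivity
    exact h1.trans (h2.trans (mul_le_mul_of_nonneg_right h3 h4))
  set T1 := S.filter (fun n : ℕ => (e.W : ℝ) ^ 2 * e.U ^ 2 ≤ e.sE (r + e.W * n)) with hT1
  set T2 := S.filter (fun n : ℕ => (e.W : ℝ) ^ 2 * e.U ^ 2 ≤ e.sE (((r + e.W * n : ℕ) : ℤ) - k).natAbs) with hT2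
  have hM1 := qn_mark e he r qlo qhi hWq hqq hqY T1 (fun n => r + e.W * n) (by
    intro n _ n' _ hh
    have h1 : r + e.W * n = r + e.W * n' := hh
    exact Nat.eq_of_mul_eq_mul_left hW0 (by omega)) (by
    intro n hn
    obtain ⟨h1, h2⟩ := mem_filter.mp hn
    obtain ⟨h3, h4, h5, h6⟩ := hSm n h1
    obtain ⟨h7, h8, h9, h10⟩ := hmem2 n h3 h4
    refine ⟨h7, h8, ?_, sf_rough _ _ h5, h2⟩
    exact (Nat.modEq_iff_dvd' (by omega)).mpr (by simp) |>.symm)
  have hM2 := qn_mark e he r qlo qhi hWq hqq hqY T2 (fun n => (((r + e.W * n : ℕ) : ℤ) - k).natAbs) (by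
    intro n hn n' hn' hh
    have h1 : (((r + e.W * n : ℕ) : ℤ) - k).natAbs = (((r + e.W * n' : ℕ) : ℤ) - k).natAbs := hh
    obtain ⟨h3, h4, h5, h6⟩ := hSm n (mem_filter.mp hn).1
    obtain ⟨h3', h4', h5', h6'⟩ := hSm n' (mem_filter.mp hn').1
    obtain ⟨h7, h8, h9, h10⟩ := hmem2 n h3 h4
    obtain ⟨h7', h8', h9', h10'⟩ := hmem2 n' h3' h4'
    exact Nat.eq_of_mul_eq_mul_left hW0 (by omega)) (by
    intro n hn
    obtain ⟨h1, h2⟩ := mem_filter.mp hn
    obtain ⟨h3, h4, h5, h6⟩ := hSm n h1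
    obtain ⟨h7, h8, h9, h10⟩ := hmem2 n h3 h4
    have h11 : ((((r + e.W * n : ℕ) : ℤ) - k).natAbs : ℤ) = ((r + e.W * n : ℕ) : ℤ) - k := by
      rw [Int.natCast_natAbs, abs_of_nonneg (by omega)]
    refine ⟨by omega, by omega, ?_, sf_rough _ _ (by rw [h11]; exact h6), h2⟩
    rw [← Int.natCast_modEq_iff, h11]
    obtain ⟨c, hc⟩ := kW
    refine Int.modEq_iff_dvd.mpr ⟨c - n, ?_⟩
    push_cast
    rw [hc]
    ring)
  -- the inclusion
  have hQs : (S.filter fun n : ℕ => r + e.W * n ∈ e.Qs qs qlo qhi k a).card ≤ (e.Qs qs qlo qhi k a).card := by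
    refine Finset.card_le_card_of_injOn (fun n => r + e.W * n) ?_ ?_
    · intro n hn
      exact (mem_filter.mp hn).2
    · intro n _ n' _ hh
      have h1 : r + e.W * n = r + e.W * n' := hh
      exact Nat.eq_of_mul_eq_mul_left hW0 (by omega)
  have hinc : S ⊆ (S.filter fun n : ℕ => r + e.W * n ∈ e.Qs qs qlo qhi k a) ∪ ((B1 ∪ B2) ∪ (T1 ∪ T2)) := by
    intro n hn
    obtain ⟨h3, h4, h5, h6⟩ := hSm n hn
    obtain ⟨h7, h8, h9, h10⟩ := hmem2 n h3 h4
    by_cases hb1 : n ∈ B1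
    · exact mem_union_right _ (mem_union_left _ (mem_union_left _ hb1))
    by_cases hb2 : n ∈ B2
    · exact mem_union_right _ (mem_union_left _ (mem_union_right _ hb2))
    by_cases ht1 : n ∈ T1
    · exact mem_union_right _ (mem_union_right _ (mem_union_left _ ht1))
    by_cases ht2 : n ∈ T2
    · exact mem_union_right _ (mem_union_right _ (mem_union_right _ ht2))
    have hp1 : ∀ p ∈ P, ¬ (p : ℤ) ∣ ((r + e.W * n : ℕ) : ℤ) := by
      intro p hp hd
      refine hb1 (mem_biUnion.mpr ⟨p, hp, mem_filter.mpr ⟨mem_Ico.mpr ⟨h3, h4⟩, ?_⟩⟩)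
      push_cast at hd
      exact hd
    have hp2 : ∀ p ∈ P, ¬ (p : ℤ) ∣ ((r + e.W * n : ℕ) : ℤ) - k := by
      intro p hp hd
      refine hb2 (mem_biUnion.mpr ⟨p, hp, mem_filter.mpr ⟨mem_Ico.mpr ⟨h3, h4⟩, ?_⟩⟩)
      have h11 : (r : ℤ) - k + e.W * n = ((r + e.W * n : ℕ) : ℤ) - k := by
        push_cast
        ring
      rw [h11]
      exact hd
    refine mem_union_left _ (mem_filter.mpr ⟨hn, ?_⟩)
    unfold Env.Qs
    refine mem_filter.mpr ⟨mem_Icc.mpr ⟨h7, h8⟩, h9, h10, ?_, ⟨h5, fun p hp => hp1 p (mem_union_left _ hp)⟩,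
      ⟨h6, fun p hp => hp2 p (mem_union_left _ hp)⟩, ?_, ?_, ?_, ?_, ?_⟩
    · have h11 : r + e.W * n ≡ r [MOD e.W] := by
        unfold Nat.ModEq
        rw [Nat.add_mul_mod_self_left]
      exact h11.trans (Nat.mod_modEq _ _)
    · have h11 : IsCoprime ((r + e.W * n : ℕ) : ℤ) (-k) := by
        refine IsCoprime.neg_right ?_
        exact qn_cop e _ k h5 hk fun p hp => hp1 p (mem_union_right _ (mem_union_left _ hp))
      have h12 := h11.add_mul_left_right 1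
      rw [mul_one] at h12
      rw [show ((r + e.W * n : ℕ) : ℤ) - k = -k + ((r + e.W * n : ℕ) : ℤ) by ring]
      exact h12
    · exact qn_cop e _ a h5 ha fun p hp => hp1 p (mem_union_right _ (mem_union_right _ hp))
    · exact qn_cop e _ a h6 ha fun p hp => hp2 p (mem_union_right _ (mem_union_right _ hp))
    · by_contra hh
      push Not at hh
      exact ht1 (mem_filter.mpr ⟨hn, hh.le⟩)
    · by_contra hh
      push Not at hh
      exact ht2 (mem_filter.mpr ⟨hn, hh.le⟩)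
  have hc1 : (S.card : ℝ) ≤ (e.Qs qs qlo qhi k a).card + ((B1.card + B2.card) + (T1.card + T2.card)) := by
    have h1 := Finset.card_le_card hinc
    have h2 := Finset.card_union_le (S.filter fun n : ℕ => r + e.W * n ∈ e.Qs qs qlo qhi k a) ((B1 ∪ B2) ∪ (T1 ∪ T2))
    have h3 := Finset.card_union_le (B1 ∪ B2) (T1 ∪ T2)
    have h4 := Finset.card_union_le B1 B2
    have h5 := Finset.card_union_le T1 T2
    have h6 : S.card ≤ (e.Qs qs qlo qhi k a).card + ((B1.card + B2.card) + (T1.card + T2.card)) := by omega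
    exact_mod_cast h6
  have hb1 := hBc r
  have hb2 := hBc ((r : ℤ) - k)
  rw [← hB1] at hb1
  rw [← hB2] at hb2
  -- final computation
  have hD3 : D ≤ e.W * L + 2 * e.W := by
    have h1 := Nat.div_add_mod D e.W
    have h2 := Nat.mod_lt D hW0
    rw [← hL] at h1
    have h3 : e.W * (L + 1) = e.W * L + e.W := by ring
    omega
  have hUR : (100 : ℝ) ≤ e.U := by exact_mod_cast hU
  have hWR : (10 : ℝ) ^ 6 ≤ e.W := by exact_mod_cast hW6
  have hzR : (10 : ℝ) ^ 6 * (e.U : ℝ) ^ 2 ≤ e.z := by exact_mod_cast hz6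
  have hLU : (10 : ℝ) ^ 6 * (e.U : ℝ) ^ 2 ≤ L := by exact_mod_cast hY6.trans hLY
  have hL6 : (10 : ℝ) ^ 6 ≤ L := by exact_mod_cast hY1.trans hLY
  have hDR : (D : ℝ) ≤ e.W * L + 2 * e.W := by exact_mod_cast hD3
  have hD1R : (qlo : ℝ) ≤ 1000 * D := by exact_mod_cast hD1
  have hqhR : (qhi : ℝ) ≤ 2 * qlo := by exact_mod_cast q2b
  have hwl : (2 : ℝ) * e.W ≤ e.W * L * (1 / 1000) := by nlinarith
  have hqw : (qlo : ℝ) ≤ 1001 * (e.W * L) := by linarith
  have key : ∀ T : ℝ, 0 ≤ T → T * ((e.W : ℝ) ^ 2 * e.U) ≤ 4 * qhi → T * e.U ≤ L / 100 := by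
    intro T hT hh
    have h1 : (T * e.U) * e.W * e.W ≤ 8008 * L * e.W := by
      calc (T * e.U) * e.W * e.W = T * ((e.W : ℝ) ^ 2 * e.U) := by ring
        _ ≤ 8008 * L * e.W := by linarith
    have h2 : (T * e.U) * e.W ≤ 8008 * L := le_of_mul_le_mul_right h1 (by linarith)
    have h3 : 0 ≤ T * e.U := by positivity
    nlinarith
  have k1 := key T1.card (Nat.cast_nonneg _) hM1
  have k2 := key T2.card (Nat.cast_nonneg _) hM2
  have keyB : ∀ T : ℝ, T ≤ 3 * e.U * (L / e.z + 1) → T * e.U ≤ L / 100 := by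
    intro T hT
    have hz0 : (0 : ℝ) < e.z := by exact_mod_cast hz1
    have h1 : (e.U : ℝ) ^ 2 * (L / e.z) ≤ L / 10 ^ 6 := by
      rw [← mul_div_assoc, div_le_div_iff₀ hz0 (by positivity)]
      nlinarith
    have h2 : T * e.U ≤ (3 * e.U * (L / e.z + 1)) * e.U := mul_le_mul_of_nonneg_right hT (by positivity)
    have h3 : (3 * (e.U : ℝ) * (L / e.z + 1)) * e.U = 3 * ((e.U : ℝ) ^ 2 * (L / e.z)) + 3 * (e.U : ℝ) ^ 2 := by ring
    rw [h3] at h2
    linarith
  have k3 := keyB B1.card hb1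
  have k4 := keyB B2.card hb2
  have k5 : (L : ℝ) * (1 / 2) ≤ (e.Qs qs qlo qhi k a).card * e.U := by
    have h1 := mul_le_mul_of_nonneg_right hc1 (show (0 : ℝ) ≤ e.U by positivity)
    have h2 : (((e.Qs qs qlo qhi k a).card : ℝ) + ((B1.card + B2.card) + (T1.card + T2.card))) * e.U =
      (e.Qs qs qlo qhi k a).card * e.U + ((B1.card * e.U + B2.card * e.U) + (T1.card * e.U + T2.card * e.U)) := by ring
    rw [h2] at h1
    have h3 : (L : ℝ) ≤ S.card * e.U := by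
      rw [mul_comm]
      exact hcount
    linarith
  calc (qlo : ℝ) ≤ 1001 * (e.W * L) := hqw
    _ = (2002 * e.W) * (L * (1 / 2)) := by ring
    _ ≤ (2002 * e.W) * ((e.Qs qs qlo qhi k a).card * e.U) := mul_le_mul_of_nonneg_left k5 (by positivity)
    _ ≤ (10 ^ 5 * e.W) * ((e.Qs qs qlo qhi k a).card * e.U) := by
        refine mul_le_mul_of_nonneg_right ?_ (by positivity)
        linarith
    _ = 10 ^ 5 * e.W * e.U * (e.Qs qs qlo qhi k a).card := by ring

end Pool.Agent.Lib.EX
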