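import Pool.Agent.Lib.MP_61161c_nt.EX.Gn2
import Pool.Agent.Lib.MP_61161c_nt.EX.Qn

/-!
# EX, module Gn3: almost all paths and pairs of paths are generic

`|Qs| ≥ Y^16`, `|E| ≥ Y^60`.
-/

set_option autoImplicit false

open Finset

namespace Pool.Agent.Lib.EX

variable {e : Env} {k0 B cr : ℕ} {eps g : ℤ} {Ns qs : ℕ} {k : ℤ} {qlo qhi : ℕ} {s dl : ℝ} {a0 lo hi : ℤ}
  {t : Frm} {Fs : List Frm} {A L : ℕ} {G : Frm}

private lemma gn3_ne (he : e.Ok) {x : ℤ} (hx : Sf e.z x) : x ≠ 0 := by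
  rintro rfl
  refine hx 2 Nat.prime_two ?_ (dvd_zero _)
  have h1 := he.w
  have h2 := he.wz
  omega

private lemma gn3_card (qs qlo qhi : ℕ) (k a : ℤ) : ((e.TT qs qlo qhi k a).card : ℝ) =
    (e.Qs qs qlo qhi k a).card * (e.E.card : ℝ) ^ 4 := by
  unfold Env.TT
  rw [Finset.card_image_of_injective]
  · rw [Finset.card_product, Finset.card_product, Finset.card_product]
    push_cast
    ring
  · rintro ⟨q, ⟨a, b⟩, c, d⟩ ⟨q', ⟨a', b'⟩, c', d'⟩ hxy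
    simp only [Th.mk.injEq] at hxy
    obtain ⟨h1, h2, h3, h4, h5⟩ := hxy
    subst h1 h2 h3 h4 h5
    rfl

private lemma gn3_forms (he : e.Ok) (h : DH e k0 B cr eps g Ns qs k qlo qhi s dl a0 lo hi)
    (ha : G.a ≠ 0) (θ : Th) {F : Frm} (hF : F ∈ θ.Fs eps g Ns qs k G) : F.a ≠ 0 := by
  have hqs : (qs : ℤ) ≠ 0 := gn3_ne he h.hqs.1
  have heps : eps ≠ 0 := by
    rcases h.heps with h1 | h1 <;> rw [h1] <;> norm_num
  simp only [Th.Fs, List.mem_cons, List.not_mem_nil, or_false] at hF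
  rcases hF with rfl | rfl | rfl | rfl | rfl | rfl | rfl | rfl | rfl | rfl | rfl <;>
    simp only [Th.F1, Th.F2, Th.F3, Th.F4, Th.F5, Th.F6, Th.F7, Th.F8, Th.F9, Th.F10, Th.F11, Frm.af] <;>
    simp only [ne_eq, mul_eq_zero, neg_eq_zero, not_or] <;>
    simp [ha, heps, hqs] <;> exact_mod_cast hqs

private lemma gn3_len (θ : Th) : (θ.Fs eps g Ns qs k G).length = 11 := by
  simp [Th.Fs]

private lemma gn3_Y (he : e.Ok) : (40000 : ℝ) ≤ e.Y := by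
  have h1 := he.w
  have h2 := he.wz
  have h3 : 200 ≤ e.z := by omega
  have h4 : 200 ^ 2 ≤ e.z ^ 2 := Nat.pow_le_pow_left h3 2
  have h5 := he.zY
  have h6 : 40000 ≤ e.Y := by omega
  exact_mod_cast h6

private lemma gn3_UY (he : e.Ok) : (10 : ℝ) ^ 5 * e.U ≤ e.Y := by
  have h1 : (1 : ℝ) ≤ e.eta * e.U := he.etaU
  have h2 : e.eta ≤ 1 / 100 := he.eta1
  have h3 : (0 : ℝ) ≤ e.U := Nat.cast_nonneg _
  have h4 : (100 : ℝ) ≤ e.U := by nlinarith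
  have h5 : 100 ≤ e.U := by exact_mod_cast h4
  have h6 : 10 ^ 5 * e.U ≤ e.U ^ 60 := by
    calc 10 ^ 5 * e.U ≤ 100 ^ 3 * e.U := Nat.mul_le_mul_right _ (by norm_num)
      _ ≤ e.U ^ 3 * e.U := Nat.mul_le_mul_right _ (Nat.pow_le_pow_left h5 3)
      _ = e.U ^ 4 := by ring
      _ ≤ e.U ^ 60 := Nat.pow_le_pow_right (by omega) (by norm_num)
  have h7 := he.Uz
  have h8 := he.zY
  have h9 : e.z ≤ e.z ^ 2 := Nat.le_self_pow (by norm_num) _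
  have h10 : 10 ^ 5 * e.U ≤ e.Y := by omega
  exact_mod_cast h10

private lemma gn3_Q (he : e.Ok) (hP3 : e.P3) (h : DH e k0 B cr eps g Ns qs k qlo qhi s dl a0 lo hi)
    (hG : BD e k0 B cr (eps * k * g) a0 lo hi t Fs A L G) :
    (e.Y : ℝ) ^ 16 ≤ (e.Qs qs qlo qhi k G.a).card := by
  have ha : G.a ≠ 0 := gn3_ne he hG.gd.1
  have hY := gn3_Y he
  have hY1 : 1 ≤ e.Y := by
    have : (1 : ℝ) ≤ e.Y := by linarith
    exact_mod_cast this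
  have hqhi : 1 ≤ qhi := by
    have h1 := h.hq2.1
    have h2 := h.hq0
    have h3 : 1 ≤ e.Y ^ 18 := Nat.one_le_pow _ _ hY1
    have h4 := abs_nonneg k
    omega
  have ha' : |G.a| ≤ (e.X : ℤ) ^ 2 := by
    have h1 := hG.ga
    have h2 := h.ha0.2
    have h3 := h.ha0.1
    have h4 : (1 : ℤ) ≤ (qhi : ℤ) ^ 2 := by
      have : (1 : ℤ) ≤ qhi := by exact_mod_cast hqhi
      nlinarith
    have h5 : a0 ≤ a0 * (qhi : ℤ) ^ 2 := by nlinarith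
    have h6 : (e.Y : ℤ) ^ 98 ≤ (e.X : ℤ) := by
      have h7 : e.Y ^ 98 ≤ e.Y ^ 10000 := Nat.pow_le_pow_right hY1 (by norm_num)
      exact_mod_cast h7.trans he.YX
    have h8 : (0 : ℤ) ≤ e.X := Int.natCast_nonneg _
    have h9 : (e.X : ℤ) ≤ (e.X : ℤ) ^ 2 := by
      have : e.X ≤ e.X ^ 2 := Nat.le_self_pow (by norm_num) _
      exact_mod_cast this
    linarith
  have h1 := qn he hP3 h ha ha'
  have h2 : (e.W : ℝ) ≤ e.Y := by exact_mod_cast he.W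
  have h3 := gn3_UY he
  have h4 : (e.Y : ℝ) ^ 18 ≤ qlo := by exact_mod_cast h.hq0
  set Q : ℝ := ((e.Qs qs qlo qhi k G.a).card : ℝ) with hQ
  have hQ0 : 0 ≤ Q := Nat.cast_nonneg _
  have hY0 : (0 : ℝ) < e.Y := by linarith
  have h5 : (10 : ℝ) ^ 5 * e.W * e.U * Q ≤ e.Y * e.Y * Q := by
    apply mul_le_mul_of_nonneg_right _ hQ0
    calc (10 : ℝ) ^ 5 * (e.W : ℝ) * (e.U : ℝ) = (e.W : ℝ) * (10 ^ 5 * (e.U : ℝ)) := by ring
      _ ≤ (e.Y : ℝ) * (e.Y : ℝ) := mul_le_mul h2 h3 (by positivity) hY0.le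
  have h6 : (e.Y : ℝ) ^ 16 * (e.Y * e.Y) ≤ Q * (e.Y * e.Y) := by
    calc (e.Y : ℝ) ^ 16 * ((e.Y : ℝ) * (e.Y : ℝ)) = (e.Y : ℝ) ^ 18 := by ring
      _ ≤ (qlo : ℝ) := h4
      _ ≤ (10 : ℝ) ^ 5 * (e.W : ℝ) * (e.U : ℝ) * Q := h1
      _ ≤ (e.Y : ℝ) * (e.Y : ℝ) * Q := h5
      _ = Q * ((e.Y : ℝ) * (e.Y : ℝ)) := by ring
  exact le_of_mul_le_mul_right h6 (by positivity)

private lemma gn3_num {y Q E c d : ℝ} (hy : 40000 ≤ y) (hQ : y ^ 16 ≤ Q) (hE : y ^ 60 ≤ E)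
    (hc : c ≤ 1000) (hd : d ≤ 1000) :
    y ^ 14 * (c * (Q * E ^ 3) + d * E ^ 4) ≤ Q * E ^ 4 := by
  have hy0 : 0 < y := by linarith
  have hQ0 : 0 < Q := lt_of_lt_of_le (by positivity) hQ
  have hE0 : 0 < E := lt_of_lt_of_le (by positivity) hE
  have h1 : 2000 * y ^ 14 ≤ Q := by
    calc 2000 * y ^ 14 ≤ y ^ 2 * y ^ 14 := by
          apply mul_le_mul_of_nonneg_right _ (by positivity)
          nlinarith
      _ = y ^ 16 := by ring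
      _ ≤ Q := hQ
  have h2 : 2000 * y ^ 14 ≤ E := by
    calc 2000 * y ^ 14 ≤ y ^ 2 * y ^ 14 := by
          apply mul_le_mul_of_nonneg_right _ (by positivity)
          nlinarith
      _ = y ^ 16 := by ring
      _ ≤ y ^ 60 := pow_le_pow_right₀ (by linarith) (by norm_num)
      _ ≤ E := hE
  have h3 : y ^ 14 * (c * (Q * E ^ 3)) ≤ (E / 2) * (Q * E ^ 3) := by
    have h4 : y ^ 14 * c ≤ E / 2 := by
      have h5 : y ^ 14 * c ≤ y ^ 14 * 1000 := mul_le_mul_of_nonneg_left hc (by positivity)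
      linarith
    calc y ^ 14 * (c * (Q * E ^ 3)) = (y ^ 14 * c) * (Q * E ^ 3) := by ring
      _ ≤ (E / 2) * (Q * E ^ 3) := mul_le_mul_of_nonneg_right h4 (by positivity)
  have h6 : y ^ 14 * (d * E ^ 4) ≤ (Q / 2) * E ^ 4 := by
    have h4 : y ^ 14 * d ≤ Q / 2 := by
      have h5 : y ^ 14 * d ≤ y ^ 14 * 1000 := mul_le_mul_of_nonneg_left hd (by positivity)
      linarith
    calc y ^ 14 * (d * E ^ 4) = (y ^ 14 * d) * E ^ 4 := by ring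
      _ ≤ (Q / 2) * E ^ 4 := mul_le_mul_of_nonneg_right h4 (by positivity)
  calc y ^ 14 * (c * (Q * E ^ 3) + d * E ^ 4)
      = y ^ 14 * (c * (Q * E ^ 3)) + y ^ 14 * (d * E ^ 4) := by ring
    _ ≤ (E / 2) * (Q * E ^ 3) + (Q / 2) * E ^ 4 := add_le_add h3 h6
    _ = Q * E ^ 4 := by ring

open Classical in
/-- union bound over a list of forms -/
private lemma gn3_union (h : DH e k0 B cr eps g Ns qs k qlo qhi s dl a0 lo hi) (ha : G.a ≠ 0)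
    (Cs : List Frm) (hCs : ∀ C ∈ Cs, C.a ≠ 0) :
    (((e.TT qs qlo qhi k G.a).filter fun θ =>
      ∃ C ∈ Cs, ∃ F ∈ θ.Fs eps g Ns qs k G, ¬ C.NP F).card : ℝ) ≤
      Cs.length * (11 * ((e.Qs qs qlo qhi k G.a).card * e.E.card ^ 3 + e.E.card ^ 4)) := by
  have h1 : ((e.TT qs qlo qhi k G.a).filter fun θ =>
      ∃ C ∈ Cs, ∃ F ∈ θ.Fs eps g Ns qs k G, ¬ C.NP F) ⊆
      Cs.toFinset.biUnion (fun C => (e.TT qs qlo qhi k G.a).filter fun θ =>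
        ∃ F ∈ θ.Fs eps g Ns qs k G, ¬ C.NP F ∨ ¬ F.NP C) := by
    intro θ hθ
    rw [Finset.mem_filter] at hθ
    obtain ⟨hT, C, hC, F, hF, hn⟩ := hθ
    rw [Finset.mem_biUnion]
    exact ⟨C, List.mem_toFinset.2 hC, Finset.mem_filter.2 ⟨hT, F, hF, Or.inl hn⟩⟩
  have h2 : (((e.TT qs qlo qhi k G.a).filter fun θ =>
      ∃ C ∈ Cs, ∃ F ∈ θ.Fs eps g Ns qs k G, ¬ C.NP F).card : ℝ) ≤
      ∑ C ∈ Cs.toFinset, (((e.TT qs qlo qhi k G.a).filter fun θ =>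
        ∃ F ∈ θ.Fs eps g Ns qs k G, ¬ C.NP F ∨ ¬ F.NP C).card : ℝ) := by
    have h3 := (Finset.card_le_card h1).trans Finset.card_biUnion_le
    exact_mod_cast h3
  have h4 : ∑ C ∈ Cs.toFinset, (((e.TT qs qlo qhi k G.a).filter fun θ =>
        ∃ F ∈ θ.Fs eps g Ns qs k G, ¬ C.NP F ∨ ¬ F.NP C).card : ℝ) ≤
      ∑ C ∈ Cs.toFinset, (11 * ((e.Qs qs qlo qhi k G.a).card * (e.E.card : ℝ) ^ 3 + (e.E.card : ℝ) ^ 4)) := by
    refine Finset.sum_le_sum fun C hC => ?_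
    exact anti h ha C (hCs C (List.mem_toFinset.1 hC))
  have h5 : ((Cs.toFinset).card : ℝ) ≤ Cs.length := by exact_mod_cast List.toFinset_card_le Cs
  rw [Finset.sum_const, nsmul_eq_mul] at h4
  refine h2.trans (h4.trans ?_)
  exact mul_le_mul_of_nonneg_right h5 (by positivity)

open Classical in
theorem gn (he : e.Ok) (hP3 : e.P3) (h : DH e k0 B cr eps g Ns qs k qlo qhi s dl a0 lo hi)
    (hG : BD e k0 B cr (eps * k * g) a0 lo hi t Fs A L G) :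
    (e.Y : ℝ) ^ 14 * ((e.TT qs qlo qhi k G.a).filter fun θ => ¬ θ.Gn eps g Ns qs k G Fs).card ≤
      (e.TT qs qlo qhi k G.a).card := by
  have ha : G.a ≠ 0 := gn3_ne he hG.gd.1
  have hCs : ∀ C ∈ Fs, C.a ≠ 0 := fun C hC => gn3_ne he (hG.ok.sa C hC)
  have h1 : ((e.TT qs qlo qhi k G.a).filter fun θ => ¬ θ.Gn eps g Ns qs k G Fs) ⊆
      ((e.TT qs qlo qhi k G.a).filter fun θ => ¬ (θ.Fs eps g Ns qs k G).Pairwise Frm.NP) ∪
      ((e.TT qs qlo qhi k G.a).filter fun θ =>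
        ∃ C ∈ Fs, ∃ F ∈ θ.Fs eps g Ns qs k G, ¬ C.NP F) := by
    intro θ hθ
    rw [Finset.mem_filter] at hθ
    obtain ⟨hT, hn⟩ := hθ
    rw [Finset.mem_union, Finset.mem_filter, Finset.mem_filter]
    unfold Th.Gn at hn
    rw [List.pairwise_append] at hn
    by_cases h2 : (θ.Fs eps g Ns qs k G).Pairwise Frm.NP
    · right
      refine ⟨hT, ?_⟩
      by_contra h3
      push Not at h3
      exact hn ⟨hG.ok.np, h2, fun a ha' b hb => h3 a ha' b hb⟩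
    · exact Or.inl ⟨hT, h2⟩
  have h2 := (Finset.card_le_card h1).trans (Finset.card_union_le _ _)
  have h3 : (((e.TT qs qlo qhi k G.a).filter fun θ => ¬ θ.Gn eps g Ns qs k G Fs).card : ℝ) ≤
      (((e.TT qs qlo qhi k G.a).filter fun θ => ¬ (θ.Fs eps g Ns qs k G).Pairwise Frm.NP).card : ℝ) +
      (((e.TT qs qlo qhi k G.a).filter fun θ =>
        ∃ C ∈ Fs, ∃ F ∈ θ.Fs eps g Ns qs k G, ¬ C.NP F).card : ℝ) := by exact_mod_cast h2
  have h4 := intr he h ha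
  have h5 := gn3_union h ha Fs hCs
  have hlen : (Fs.length : ℝ) ≤ 13 := by exact_mod_cast hG.len.trans h.hk0
  have hY := gn3_Y he
  have hQ := gn3_Q he hP3 h hG
  have hE : (e.Y : ℝ) ^ 60 ≤ e.E.card := by exact_mod_cast he.E0
  rw [gn3_card]
  set Q : ℝ := ((e.Qs qs qlo qhi k G.a).card : ℝ) with hQd
  set E : ℝ := (e.E.card : ℝ) with hEd
  have hQ0 : 0 ≤ Q := Nat.cast_nonneg _
  have hE0 : 0 ≤ E := Nat.cast_nonneg _
  have h6 : (Fs.length : ℝ) * (11 * (Q * E ^ 3 + E ^ 4)) ≤ 13 * (11 * (Q * E ^ 3 + E ^ 4)) :=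
    mul_le_mul_of_nonneg_right hlen (by positivity)
  have h7 : (((e.TT qs qlo qhi k G.a).filter fun θ => ¬ θ.Gn eps g Ns qs k G Fs).card : ℝ) ≤
      198 * (Q * E ^ 3) + 143 * E ^ 4 := by linarith
  calc (e.Y : ℝ) ^ 14 * ((e.TT qs qlo qhi k G.a).filter fun θ => ¬ θ.Gn eps g Ns qs k G Fs).card
      ≤ (e.Y : ℝ) ^ 14 * (198 * (Q * E ^ 3) + 143 * E ^ 4) :=
        mul_le_mul_of_nonneg_left h7 (by positivity)
    _ ≤ Q * E ^ 4 := gn3_num hY hQ hE (by norm_num) (by norm_num)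

open Classical in
theorem gn2 (he : e.Ok) (hP3 : e.P3) (h : DH e k0 B cr eps g Ns qs k qlo qhi s dl a0 lo hi)
    (hG : BD e k0 B cr (eps * k * g) a0 lo hi t Fs A L G) :
    (e.Y : ℝ) ^ 14 * ((e.TT qs qlo qhi k G.a ×ˢ e.TT qs qlo qhi k G.a).filter fun x =>
      ∃ F ∈ x.1.Fs eps g Ns qs k G, ∃ F' ∈ x.2.Fs eps g Ns qs k G, ¬ F.NP F').card ≤
      ((e.TT qs qlo qhi k G.a).card : ℝ) ^ 2 := by
  have ha : G.a ≠ 0 := gn3_ne he hG.gd.1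
  set T := e.TT qs qlo qhi k G.a with hT
  have h1 : ((T ×ˢ T).filter fun x =>
      ∃ F ∈ x.1.Fs eps g Ns qs k G, ∃ F' ∈ x.2.Fs eps g Ns qs k G, ¬ F.NP F') ⊆
      T.biUnion (fun θ => (T.filter fun θ' =>
        ∃ C ∈ θ.Fs eps g Ns qs k G, ∃ F ∈ θ'.Fs eps g Ns qs k G, ¬ C.NP F).image
          (fun θ' => (θ, θ'))) := by
    rintro ⟨θ, θ'⟩ hx
    rw [Finset.mem_filter, Finset.mem_product] at hx
    obtain ⟨⟨hx1, hx2⟩, hx3⟩ := hx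
    rw [Finset.mem_biUnion]
    exact ⟨θ, hx1, Finset.mem_image.2 ⟨θ', Finset.mem_filter.2 ⟨hx2, hx3⟩, rfl⟩⟩
  have h2 : ((((T ×ˢ T).filter fun x =>
      ∃ F ∈ x.1.Fs eps g Ns qs k G, ∃ F' ∈ x.2.Fs eps g Ns qs k G, ¬ F.NP F')).card : ℝ) ≤
      ∑ θ ∈ T, ((T.filter fun θ' =>
        ∃ C ∈ θ.Fs eps g Ns qs k G, ∃ F ∈ θ'.Fs eps g Ns qs k G, ¬ C.NP F).card : ℝ) := by
    have h3 := (Finset.card_le_card h1).trans (Finset.card_biUnion_le.trans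
      (Finset.sum_le_sum fun θ _ => Finset.card_image_le))
    exact_mod_cast h3
  have hY := gn3_Y he
  have hQ := gn3_Q he hP3 h hG
  have hE : (e.Y : ℝ) ^ 60 ≤ e.E.card := by exact_mod_cast he.E0
  have hcard := gn3_card (e := e) qs qlo qhi k G.a
  rw [← hT] at hcard
  set Q : ℝ := ((e.Qs qs qlo qhi k G.a).card : ℝ) with hQd
  set E : ℝ := (e.E.card : ℝ) with hEd
  have hQ0 : 0 ≤ Q := Nat.cast_nonneg _
  have hE0 : 0 ≤ E := Nat.cast_nonneg _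
  have h4 : ∑ θ ∈ T, ((T.filter fun θ' =>
        ∃ C ∈ θ.Fs eps g Ns qs k G, ∃ F ∈ θ'.Fs eps g Ns qs k G, ¬ C.NP F).card : ℝ) ≤
      ∑ θ ∈ T, (121 * (Q * E ^ 3) + 121 * E ^ 4) := by
    refine Finset.sum_le_sum fun θ _ => ?_
    have h5 := gn3_union h ha (θ.Fs eps g Ns qs k G) (fun C hC => gn3_forms he h ha θ hC)
    rw [gn3_len] at h5
    push_cast at h5
    linarith
  rw [Finset.sum_const, nsmul_eq_mul] at h4
  have h6 : (e.Y : ℝ) ^ 14 * (121 * (Q * E ^ 3) + 121 * E ^ 4) ≤ T.card := by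
    rw [hcard]
    exact gn3_num hY hQ hE (by norm_num) (by norm_num)
  calc (e.Y : ℝ) ^ 14 * ((T ×ˢ T).filter fun x =>
      ∃ F ∈ x.1.Fs eps g Ns qs k G, ∃ F' ∈ x.2.Fs eps g Ns qs k G, ¬ F.NP F').card
      ≤ (e.Y : ℝ) ^ 14 * (T.card * (121 * (Q * E ^ 3) + 121 * E ^ 4)) :=
        mul_le_mul_of_nonneg_left (h2.trans h4) (by positivity)
    _ = (T.card : ℝ) * ((e.Y : ℝ) ^ 14 * (121 * (Q * E ^ 3) + 121 * E ^ 4)) := by ring
    _ ≤ (T.card : ℝ) * (T.card : ℝ) := mul_le_mul_of_nonneg_left h6 (Nat.cast_nonneg _)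
    _ = (T.card : ℝ) ^ 2 := by ring

end Pool.Agent.Lib.EX
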