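import Pool.Agent.Lib.MP_61161c_nt.EX.Pp
import Pool.Agent.Lib.MP_61161c_nt.EX.Gn3
import Pool.Agent.Lib.MP_61161c_nt.EX.Col
import Pool.Agent.Lib.MP_61161c_nt.EX.Bd

/-!
# EX, module Dhm: the double half move

PROOF. `pp` with `S0 = SS`, `Θ` = the generic paths of `TT`, `S = SP`, `V = VP`, `B = L MM k`, `rho = MM (k+11)/MM k`: (h1) `fm`; (h2) pairs with coprime moduli
and without common roots: `sm` and `MM (k+22) MM k ≤ (1+eta) MM (k+11)^2`; coprime with a common root: trivially `≤ 2 L` each, few by `gn2`; not coprime: `col`;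
`MM ≥ 1/U` and `eta ≥ 1/U`; (h3) `bd`; (hbad) `chain`.
-/

set_option autoImplicit false

open Finset

namespace Pool.Agent.Lib.EX

private theorem Dhm_num {N T L M0 M1 M2 U Y14 η P Q R : ℝ} (hN : 9 / 10 * T ≤ N) (hT : 0 ≤ T) (hL : 0 ≤ L)
    (hM0 : 0 < M0) (hM0' : M0 ≤ 1) (hM1 : U⁻¹ ≤ M1) (hM2 : M2 * M0 ≤ (1 + η) * M1 ^ 2) (hU : 100 ≤ U)
    (hη : 1 ≤ η * U) (hη0 : 0 < η) (hη1 : η ≤ 1 / 100) (hYU : U ^ 7 ≤ Y14) (hQ : Y14 * Q ≤ T ^ 2)
    (hR : R ≤ T ^ 2 * L / U ^ 7) (hP : P ≤ N ^ 2 * ((1 + 2 * η) * (L * M2)) + 2 * L * Q + R) :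
    P ≤ (1 + 8 * η) * (N ^ 2 * (M1 / M0) ^ 2 * (L * M0)) := by
  have hU0 : 0 < U := by linarith
  have hM1p : 0 < M1 := lt_of_lt_of_le (inv_pos.2 hU0) hM1
  set K : ℝ := N ^ 2 * (M1 / M0) ^ 2 * (L * M0) with hK
  have hK1 : K = N ^ 2 * L * (M1 ^ 2 / M0) := by
    rw [hK]
    field_simp
  have e0 : M2 ≤ (1 + η) * (M1 ^ 2 / M0) := by
    rw [← mul_div_assoc, le_div_iff₀ hM0]
    exact hM2
  have e1 : N ^ 2 * ((1 + 2 * η) * (L * M2)) ≤ (1 + 2 * η) * (1 + η) * K := by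
    have h1 : 0 ≤ N ^ 2 * (1 + 2 * η) * L := by positivity
    have h2 := mul_le_mul_of_nonneg_left e0 h1
    rw [hK1]
    nlinarith
  have hU7 : (0 : ℝ) < U ^ 7 := by positivity
  have hY0 : 0 < Y14 := lt_of_lt_of_le hU7 hYU
  have e2 : Q ≤ T ^ 2 / U ^ 7 := by
    rw [le_div_iff₀ hU7]
    by_cases hQ0 : 0 ≤ Q
    · calc Q * U ^ 7 ≤ Q * Y14 := mul_le_mul_of_nonneg_left hYU hQ0
        _ = Y14 * Q := mul_comm _ _
        _ ≤ T ^ 2 := hQ
    · push Not at hQ0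
      have : Q * U ^ 7 ≤ 0 := mul_nonpos_of_nonpos_of_nonneg hQ0.le hU7.le
      exact this.trans (sq_nonneg T)
  have e3 : 2 * L * Q ≤ 2 * (T ^ 2 * L / U ^ 7) := by
    have h1 := mul_le_mul_of_nonneg_left e2 (show 0 ≤ 2 * L by linarith)
    calc 2 * L * Q ≤ 2 * L * (T ^ 2 / U ^ 7) := h1
      _ = 2 * (T ^ 2 * L / U ^ 7) := by ring
  have hN2 : (9 / 10 * T) ^ 2 ≤ N ^ 2 := pow_le_pow_left₀ (by linarith) hN 2
  have hKlow : 81 / 100 * (T ^ 2 * L) * (U⁻¹) ^ 2 ≤ K := by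
    rw [hK1]
    have h1 : (U⁻¹) ^ 2 ≤ M1 ^ 2 / M0 := by
      have h2 : (U⁻¹) ^ 2 ≤ M1 ^ 2 := pow_le_pow_left₀ (inv_pos.2 hU0).le hM1 2
      rw [le_div_iff₀ hM0]
      have h3 : 0 ≤ (U⁻¹) ^ 2 := by positivity
      nlinarith
    have h4 : 81 / 100 * (T ^ 2 * L) ≤ N ^ 2 * L := by nlinarith
    exact mul_le_mul h4 h1 (by positivity) (by positivity)
  have e4 : 3 * (T ^ 2 * L / U ^ 7) ≤ 4 * η * K := by
    have h1 : U⁻¹ ≤ η := by
      rw [inv_le_iff_one_le_mul₀ hU0]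
      exact hη
    have h2 : 0 ≤ 81 / 100 * (T ^ 2 * L) * (U⁻¹) ^ 2 := by positivity
    have h3 : U⁻¹ * (81 / 100 * (T ^ 2 * L) * (U⁻¹) ^ 2) ≤ η * K :=
      mul_le_mul h1 hKlow h2 hη0.le
    have h4 : T ^ 2 * L / U ^ 7 ≤ T ^ 2 * L * (U⁻¹) ^ 3 := by
      rw [div_eq_mul_inv, ← inv_pow]
      refine mul_le_mul_of_nonneg_left ?_ (by positivity)
      refine pow_le_pow_of_le_one (inv_pos.2 hU0).le ?_ (by norm_num)
      exact inv_le_one_of_one_le₀ (by linarith)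
    have h5 : 0 ≤ T ^ 2 * L * (U⁻¹) ^ 3 := by positivity
    nlinarith
  have hK0 : 0 ≤ K := by rw [hK]; positivity
  have e5 : (1 + 2 * η) * (1 + η) * K + 4 * η * K ≤ (1 + 8 * η) * K := by
    have : ((1 + 2 * η) * (1 + η) + 4 * η) ≤ 1 + 8 * η := by nlinarith
    have h1 := mul_le_mul_of_nonneg_right this hK0
    linarith
  linarith

private theorem Dhm_MM (e : Env) (he : e.Ok) (j : ℕ) (hj : j ≤ 36) : e.MM j ≤ 1 := by
  unfold Env.MM
  refine mul_le_one₀ ?_ ?_ ?_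
  · refine prod_le_one (fun p hp => ?_) (fun p hp => ?_)
    · have hp2 : (2 : ℝ) ≤ p := by
        unfold Pool.Agent.Lib.GT.pr at hp
        exact_mod_cast (mem_filter.1 hp).2.two_le
      have h1 : (e.nu p : ℝ) ≤ 2 := by
        unfold Env.nu
        split_ifs <;> norm_num
      rw [sub_nonneg, div_le_one (by linarith)]
      linarith
    · have : 0 ≤ (e.nu p : ℝ) / p := by positivity
      linarith
  · refine prod_nonneg fun p hp => ?_
    have hpw : (200 : ℝ) ≤ p := by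
      have h1 := (mem_filter.1 hp).2
      have h2 := he.w
      exact_mod_cast (by omega : 200 ≤ p)
    have h1 : (j : ℝ) ≤ 36 := by exact_mod_cast hj
    rw [sub_nonneg, div_le_one (by linarith)]
    linarith
  · refine prod_le_one (fun p hp => ?_) (fun p hp => ?_)
    · have hpw : (200 : ℝ) ≤ p := by
        have h1 := (mem_filter.1 hp).2
        have h2 := he.w
        exact_mod_cast (by omega : 200 ≤ p)
      have h1 : (j : ℝ) ≤ 36 := by exact_mod_cast hj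
      rw [sub_nonneg, div_le_one (by linarith)]
      linarith
    · have : 0 ≤ (j : ℝ) / p := by positivity
      linarith

open Classical in
private theorem Dhm_cnt (A L M c : ℕ) (hM : 0 < M) (hc : c < M) (hML : M ≤ L) :
    (M : ℝ) * ((Finset.Ico A (A + L)).filter fun n : ℕ => n % M = c).card ≤ 2 * L := by
  obtain ⟨A', L', h1, h2, h3, h4⟩ := itv A L M c hM hc
  have h5 : ((Finset.Ico A (A + L)).filter fun n : ℕ => n % M = c).card ≤ L' := by
    have h6 : ((Finset.Ico A (A + L)).filter fun n : ℕ => n % M = c) ⊆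
        (Finset.Ico A' (A' + L')).image (fun n => c + M * n) := by
      intro n hn
      rw [mem_filter, mem_Ico] at hn
      obtain ⟨⟨a1, a2⟩, a3⟩ := hn
      have a4 : c + M * (n / M) = n := by rw [← a3]; exact Nat.mod_add_div n M
      rw [mem_image]
      refine ⟨n / M, ?_, a4⟩
      rw [mem_Ico]
      exact (h4 _).2 (by rw [a4]; exact ⟨a1, a2⟩)
    refine (card_le_card h6).trans (card_image_le.trans ?_)
    rw [Nat.card_Ico]
    omega
  have h7 : (M : ℝ) * L' ≤ L + M := by exact_mod_cast h1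
  have h8 : (M : ℝ) ≤ L := by exact_mod_cast hML
  have h9 : (M : ℝ) * ((Finset.Ico A (A + L)).filter fun n : ℕ => n % M = c).card ≤ M * L' :=
    mul_le_mul_of_nonneg_left (by exact_mod_cast h5) (Nat.cast_nonneg _)
  linarith

/-- MAIN LEMMA (double half move) -/
theorem dhm (e : Env) (he : e.Ok) (hP1 : e.P1 36) (hP2 : e.P2 24) (hP3 : e.P3) (k0 B cr : ℕ) (eps g : ℤ) (Ns qs : ℕ) (k : ℤ)
    (qlo qhi : ℕ) (s dl : ℝ) (a0 lo hi : ℤ) (h : DH e k0 B cr eps g Ns qs k qlo qhi s dl a0 lo hi) :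
    e.Val k0 B cr (eps * k * g) (200 * (e.eta + dl)) a0 lo hi := by
  classical
  intro t Fs A L hok hlen hAL G hext hgd hga hgb hcr hrg hsf
  have hG : BD e k0 B cr (eps * k * g) a0 lo hi t Fs A L G := ⟨hok, hlen, hAL, hext, hgd, hga, hgb, hcr, hrg, hsf⟩
  have hk0 := h.hk0
  have hB := h.hB
  have hL := L_big he h hG
  have hη0 := he.eta0
  have hη1 := he.eta1
  have hηU := he.etaU
  have hU100 : (100 : ℝ) ≤ e.U := by
    have h1 : (0 : ℝ) ≤ e.U := Nat.cast_nonneg _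
    nlinarith
  have hU100n : 100 ≤ e.U := by exact_mod_cast hU100
  have hYU : e.U ^ 7 ≤ e.Y ^ 14 := by
    have h1 : e.U ≤ e.z := (Nat.le_self_pow (by norm_num) _).trans he.Uz
    have h2 : e.z ≤ e.Y := (Nat.le_self_pow (by norm_num) _).trans he.zY
    have h3 : 1 ≤ e.Y := by omega
    exact (Nat.pow_le_pow_left (h1.trans h2) 7).trans (Nat.pow_le_pow_right h3 (by norm_num))
  have hY10 : 10 ≤ e.Y ^ 14 := by
    have h1 : 10 ≤ e.U ^ 7 := le_trans (by omega) (Nat.le_self_pow (by norm_num) e.U)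
    omega
  have hY1 : 1 ≤ e.Y := by
    by_contra hcon
    have : e.Y = 0 := by omega
    rw [this] at hY10
    norm_num at hY10
  have hX1 : 1 ≤ e.X := by
    have := he.YX
    exact (Nat.one_le_pow _ _ hY1).trans this
  -- the coefficient of the base form
  have hGa0 : G.a ≠ 0 := by
    intro h0
    have h2 := hgd.1 2 Nat.prime_two (by have := he.w; have := he.wz; omega)
    rw [h0] at h2
    exact h2 (dvd_zero _)
  have hqlo1 : 1 ≤ qlo := (Nat.one_le_pow _ _ hY1).trans h.hq0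
  have hqhi1 : 1 ≤ qhi := by
    have h1 := h.hq2.1
    have h2 : (0 : ℤ) ≤ |k| := abs_nonneg _
    have h3 : (qlo : ℤ) ≤ qhi := by linarith
    have h4 : qlo ≤ qhi := by exact_mod_cast h3
    omega
  have hGaX : |G.a| ≤ (e.X : ℤ) ^ 2 := by
    have h1 : |G.a| ≤ a0 * (qhi : ℤ) ^ 2 := by
      have h2 : (1 : ℤ) ≤ (qhi : ℤ) ^ 2 := one_le_pow₀ (by exact_mod_cast hqhi1)
      have h3 := h.ha0.1
      nlinarith
    have h4 : (e.Y : ℤ) ^ 98 ≤ (e.X : ℤ) := by
      have h5 : e.Y ^ 98 ≤ e.X := (Nat.pow_le_pow_right hY1 (by norm_num)).trans he.YX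
      exact_mod_cast h5
    have h6 : (e.X : ℤ) ≤ (e.X : ℤ) ^ 2 := by
      have : (1 : ℤ) ≤ e.X := by exact_mod_cast hX1
      nlinarith
    exact ((h1.trans h.ha0.2).trans h4).trans h6
  -- the family
  set T := e.TT qs qlo qhi k G.a with hT
  set Θ := T.filter (fun θ => θ.Gn eps g Ns qs k G Fs) with hΘ
  have hTpos : (0 : ℝ) < T.card := by
    have h1 := qn he hP3 h hGa0 hGaX
    have h2 : (0 : ℝ) < (e.Qs qs qlo qhi k G.a).card := by
      rcases (Nat.cast_nonneg (α := ℝ) (e.Qs qs qlo qhi k G.a).card).lt_or_eq with h3 | h3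
      · exact h3
      · rw [← h3, mul_zero] at h1
        have : (1 : ℝ) ≤ qlo := by exact_mod_cast hqlo1
        linarith
    have h3 : (0 : ℝ) < e.E.card := by
      have h4 : 1 ≤ e.E.card := (Nat.one_le_pow _ _ hY1).trans he.E0
      exact_mod_cast h4
    rw [hT, tt_card]
    push_cast
    positivity
  have hgn := gn he hP3 h hG
  have hsplit : (T.card : ℝ) = Θ.card + (T.filter fun θ => ¬ θ.Gn eps g Ns qs k G Fs).card := by
    exact_mod_cast (Finset.card_filter_add_card_filter_not (s := T) (fun θ => θ.Gn eps g Ns qs k G Fs)).symm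
  have hΘT : 9 / 10 * (T.card : ℝ) ≤ Θ.card := by
    have h1 : (10 : ℝ) ≤ (e.Y : ℝ) ^ 14 := by exact_mod_cast hY10
    have h2 : (0 : ℝ) ≤ ((T.filter fun θ => ¬ θ.Gn eps g Ns qs k G Fs).card : ℝ) := Nat.cast_nonneg _
    rw [← hT] at hgn
    nlinarith
  have hΘne : Θ.Nonempty := by
    rw [← Finset.card_pos]
    have : (0 : ℝ) < Θ.card := by linarith
    exact_mod_cast this
  have hΘmem : ∀ θ ∈ Θ, θ ∈ T ∧ θ.Gn eps g Ns qs k G Fs := fun θ hθ => mem_filter.1 hθ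
  -- densities
  have hM0 := he.MM0 Fs.length (by omega)
  have hM1 := he.MM0 (Fs.length + 11) (by omega)
  have hM0' := Dhm_MM e he Fs.length (by omega)
  have hMMr := he.MMr Fs.length 11 (by omega)
  have hUi : (0 : ℝ) < (e.U : ℝ)⁻¹ := inv_pos.2 (by linarith)
  have hM0p : 0 < e.MM Fs.length := lt_of_lt_of_le hUi hM0
  have hM1p : 0 < e.MM (Fs.length + 11) := lt_of_lt_of_le hUi hM1
  have hLr : (0 : ℝ) ≤ L := Nat.cast_nonneg _
  have hrho : e.MM (Fs.length + 11) / e.MM Fs.length * (L * e.MM Fs.length) = L * e.MM (Fs.length + 11) := by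
    field_simp
  -- bounds for pairs
  have hM2 : 0 ≤ e.MM (Fs.length + 22) := hUi.le.trans (he.MM0 (Fs.length + 22) (by omega))
  set NN := (T ×ˢ T).filter fun x => ∃ F ∈ x.1.Fs eps g Ns qs k G, ∃ F' ∈ x.2.Fs eps g Ns qs k G, ¬ F.NP F'
    with hNN
  set NC := (T ×ˢ T).filter fun x => ¬ (x.1.mo k).Coprime (x.2.mo k) with hNC
  set gc : Th × Th → ℝ := fun x => (x.1.mo k : ℝ) * x.2.mo k * ((Finset.Ico A (A + L)).filter fun n : ℕ =>
        x.1.Dv eps g k G n ∧ x.2.Dv eps g k G n).card with hgc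
  have hgc0 : ∀ x, 0 ≤ gc x := fun x => by rw [hgc]; positivity
  have hsub : ∀ θ θ' : Th, ((e.SP eps g Ns qs k G t Fs A L θ ∩ e.SP eps g Ns qs k G t Fs A L θ').card : ℝ) ≤
      ((Finset.Ico A (A + L)).filter fun n : ℕ => θ.Dv eps g k G n ∧ θ'.Dv eps g k G n).card := by
    intro θ θ'
    have : (e.SP eps g Ns qs k G t Fs A L θ ∩ e.SP eps g Ns qs k G t Fs A L θ') ⊆
        ((Finset.Ico A (A + L)).filter fun n : ℕ => θ.Dv eps g k G n ∧ θ'.Dv eps g k G n) := by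
      intro n hn
      rw [mem_inter] at hn
      unfold Env.SP Env.SS at hn
      simp only [mem_filter] at hn
      rw [mem_filter]
      exact ⟨hn.1.1.1, hn.1.2.1, hn.2.2.1⟩
    exact_mod_cast card_le_card this
  have hpair : ∀ x ∈ Θ ×ˢ Θ, (x.1.mo k : ℝ) * x.2.mo k *
      (e.SP eps g Ns qs k G t Fs A L x.1 ∩ e.SP eps g Ns qs k G t Fs A L x.2).card ≤
      (1 + 2 * e.eta) * (L * e.MM (Fs.length + 22)) +
      (if (∃ F ∈ x.1.Fs eps g Ns qs k G, ∃ F' ∈ x.2.Fs eps g Ns qs k G, ¬ F.NP F') then 2 * (L : ℝ) else 0) +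
      (if ¬ (x.1.mo k).Coprime (x.2.mo k) then gc x else 0) := by
    intro x hx
    obtain ⟨hx1, hx2⟩ := mem_product.1 hx
    obtain ⟨hx3, hx4⟩ := hΘmem _ hx1
    obtain ⟨hx5, hx6⟩ := hΘmem _ hx2
    have hmain : 0 ≤ (1 + 2 * e.eta) * (L * e.MM (Fs.length + 22)) := by positivity
    by_cases hc : (x.1.mo k).Coprime (x.2.mo k)
    · rw [if_neg (not_not.2 hc), add_zero]
      by_cases hn : ∃ F ∈ x.1.Fs eps g Ns qs k G, ∃ F' ∈ x.2.Fs eps g Ns qs k G, ¬ F.NP F'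
      · rw [if_pos hn]
        obtain ⟨c, hc1, hc2⟩ := rs2 h hx3 hx5 hc
        obtain ⟨-, -, m3, m4, m5⟩ := mo_F he h hx3
        obtain ⟨-, -, m3', m4', m5'⟩ := mo_F he h hx5
        have hML : x.1.mo k * x.2.mo k ≤ L := by
          calc x.1.mo k * x.2.mo k ≤ e.Y ^ 42 * e.Y ^ 42 := Nat.mul_le_mul (m4.trans m5) (m4'.trans m5')
            _ = e.Y ^ 84 := by ring
            _ ≤ e.Y ^ 200 := Nat.pow_le_pow_right hY1 (by norm_num)
            _ ≤ L := hL
        have h1 := Dhm_cnt A L (x.1.mo k * x.2.mo k) c (Nat.mul_pos m3 m3') hc1 hML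
        have h2 := hsub x.1 x.2
        have h3 : ((Finset.Ico A (A + L)).filter fun n : ℕ => x.1.Dv eps g k G n ∧ x.2.Dv eps g k G n) =
            (Finset.Ico A (A + L)).filter fun n : ℕ => n % (x.1.mo k * x.2.mo k) = c :=
          filter_congr fun n _ => hc2 n
        rw [h3] at h2
        have h4 : (0 : ℝ) ≤ (x.1.mo k : ℝ) * x.2.mo k := by positivity
        have h5 := mul_le_mul_of_nonneg_left h2 h4
        push_cast at h1
        linarith
      · rw [if_neg hn, add_zero]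
        refine sm he hP1 h hG hx3 hx5 hx4 hx6 (fun F hF F' hF' => ?_) hc
        by_contra hcon
        exact hn ⟨F, hF, F', hF', hcon⟩
    · rw [if_pos hc]
      have h2 := hsub x.1 x.2
      have h4 : (0 : ℝ) ≤ (x.1.mo k : ℝ) * x.2.mo k := by positivity
      have h5 := mul_le_mul_of_nonneg_left h2 h4
      have h6 : (0 : ℝ) ≤ (if (∃ F ∈ x.1.Fs eps g Ns qs k G, ∃ F' ∈ x.2.Fs eps g Ns qs k G, ¬ F.NP F') then
          2 * (L : ℝ) else 0) := by
        split_ifs <;> positivity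
      rw [hgc]
      simp only
      linarith
  have hΘsub : Θ ×ˢ Θ ⊆ T ×ˢ T := product_subset_product (filter_subset _ _) (filter_subset _ _)
  have hsum : ∑ θ ∈ Θ, ∑ θ' ∈ Θ, (θ.mo k : ℝ) * θ'.mo k *
      (e.SP eps g Ns qs k G t Fs A L θ ∩ e.SP eps g Ns qs k G t Fs A L θ').card ≤
      (Θ.card : ℝ) ^ 2 * ((1 + 2 * e.eta) * (L * e.MM (Fs.length + 22))) + 2 * L * (NN.card : ℝ) +
      ∑ x ∈ NC, gc x := by
    rw [← sum_product' Θ Θ (fun θ θ' => (θ.mo k : ℝ) * θ'.mo k *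
      (e.SP eps g Ns qs k G t Fs A L θ ∩ e.SP eps g Ns qs k G t Fs A L θ').card)]
    refine (sum_le_sum hpair).trans ?_
    rw [sum_add_distrib, sum_add_distrib, sum_const, card_product, nsmul_eq_mul]
    have h1 : ∑ x ∈ Θ ×ˢ Θ, (if (∃ F ∈ x.1.Fs eps g Ns qs k G, ∃ F' ∈ x.2.Fs eps g Ns qs k G, ¬ F.NP F') then
        2 * (L : ℝ) else 0) ≤ 2 * L * (NN.card : ℝ) := by
      refine (sum_le_sum_of_subset_of_nonneg hΘsub fun x _ _ => ?_).trans (le_of_eq ?_)
      · split_ifs <;> positivity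
      · rw [← sum_filter, sum_const, nsmul_eq_mul, mul_comm]
    have h2 : ∑ x ∈ Θ ×ˢ Θ, (if ¬ (x.1.mo k).Coprime (x.2.mo k) then gc x else 0) ≤ ∑ x ∈ NC, gc x := by
      refine (sum_le_sum_of_subset_of_nonneg hΘsub fun x _ _ => ?_).trans (le_of_eq ?_)
      · split_ifs
        · exact le_rfl
        · exact hgc0 x
      · rw [← sum_filter]
    push_cast
    linarith
  have hfin := Dhm_num (U := (e.U : ℝ)) (Y14 := (e.Y : ℝ) ^ 14) hΘT hTpos.le hLr hM0p hM0' hM1 hMMr hU100 hηU hη0 hη1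
    (by exact_mod_cast hYU) (gn2 he hP3 h hG) (col he hP3 h hG) hsum
  -- the second moment lemma
  have hδ : 0 ≤ dl := h.hdl
  have hpp := pp (e.SS t Fs A L) Θ (fun θ => (θ.mo k : ℝ)) (fun θ => e.SP eps g Ns qs k G t Fs A L θ)
    (fun θ => e.VP eps g Ns qs k G t Fs A L s θ) (L * e.MM Fs.length)
    (e.MM (Fs.length + 11) / e.MM Fs.length) e.eta (9 * e.eta + 3 * dl) hΘne (fun θ _ => Nat.cast_nonneg _)
    (by positivity) (by positivity) hη0.le (fun θ _ => by unfold Env.SP; exact filter_subset _ _)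
    (fun θ _ => by unfold Env.VP; exact filter_subset _ _)
    (by
      have hmono : e.SOk 40 t Fs := by
        have h2 : (e.X : ℤ) ^ B ≤ (e.X : ℤ) ^ 40 := pow_le_pow_right₀ (by exact_mod_cast hX1) (by omega)
        exact ⟨hok.ta, hok.sa, fun F hF => ⟨(hok.bd F hF).1.trans h2, (hok.bd F hF).2.trans h2⟩, hok.ty, hok.np⟩
      have hYL : e.Y ≤ L := (Nat.le_self_pow (by norm_num) _).trans hL
      have h1 := (abs_le.1 (hP1 t Fs A L hmono (by omega) hYL)).2
      linarith)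
    (fun θ hθ => by
      obtain ⟨h1, h2⟩ := hΘmem θ hθ
      rw [hrho]
      have h3 := (abs_le.1 (fm he hP1 h hG h1 h2)).1
      have h4 : 0 ≤ e.eta * (L * e.MM (Fs.length + 11)) := by positivity
      linarith)
    (by
      refine hfin.trans (le_of_eq ?_)
      ring)
    (by
      have h1 : ∀ θ ∈ Θ, (θ.mo k : ℝ) * (e.VP eps g Ns qs k G t Fs A L s θ).card ≤
          (9 * e.eta + 3 * dl) * (L * e.MM (Fs.length + 11)) := fun θ hθ =>
        bd he hP2 h hG (hΘmem θ hθ).1 (hΘmem θ hθ).2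
      refine (sum_le_sum h1).trans (le_of_eq ?_)
      rw [sum_const, nsmul_eq_mul]
      have h2 := hrho
      calc (Θ.card : ℝ) * ((9 * e.eta + 3 * dl) * (L * e.MM (Fs.length + 11))) =
            (9 * e.eta + 3 * dl) * (Θ.card * (L * e.MM (Fs.length + 11))) := by ring
        _ = (9 * e.eta + 3 * dl) * (Θ.card * (e.MM (Fs.length + 11) / e.MM Fs.length) *
            (L * e.MM Fs.length)) := by rw [← hrho]; ring)
    ((e.SS t Fs A L).filter fun n : ℕ => lz (G.ev n) ≠ lz (G.ev n + eps * k * g)) (filter_subset _ _)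
    (fun n hn θ hθ hS => by
      by_contra hcon
      exact (mem_filter.1 hn).2 (chain e he eps g Ns qs k G t Fs A L s h.hs θ n hS hcon))
  refine hpp.trans ?_
  have h1 : 0 ≤ L * e.MM Fs.length := by positivity
  refine mul_le_mul_of_nonneg_right ?_ h1
  linarith

end Pool.Agent.Lib.EX
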