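import Pool.Agent.Lib.MP_61161c_nt.EX.Dd

/-!
# EX, module Ee: the collision probabilities `eE u` of `E`

`eE u |E|^2 = |E| + #{N ≠ N' : u ∣ N - N'}`; a number `0 < |N - N'| ≤ X` has at most `U` divisors which are `z`-rough (`Ok.dvs`).
-/

set_option autoImplicit false

open Finset
open Pool.Agent.Lib.GT (Rough pr)

namespace Pool.Agent.Lib.EX

private theorem cE (e : Env) (he : e.Ok) : 0 < e.E.card := by
  have h := he.E0
  have hW := he.W
  have h0 : 0 < e.W := primorial_pos e.w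
  have h1 : 0 < e.Y ^ 60 := pow_pos (by omega) 60
  omega

private theorem gen (e : Env) (he : e.Ok) (S : Finset ℕ) (w : ℕ → ℝ) (hw : ∀ u ∈ S, 0 ≤ w u) (C : ℝ) (hC : 0 ≤ C)
    (h : ∀ D : ℕ, D ≠ 0 → D ≤ e.X ^ 100 → ∑ u ∈ S, (if u ∣ D then w u else 0) ≤ C) :
    ∑ u ∈ S, w u * e.eE u ≤ (∑ u ∈ S, w u) / e.E.card + C := by
  have hn : (0 : ℝ) < e.E.card := by exact_mod_cast cE e he
  have e1 : ∀ u : ℕ, w u * e.eE u =
      (∑ x ∈ e.E ×ˢ e.E, (if (x.1 : ℤ) ≡ x.2 [ZMOD u] then w u else 0)) / (e.E.card : ℝ) ^ 2 := by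
    intro u
    unfold Env.eE
    rw [card_filter, mul_div_assoc']
    congr 1
    push_cast
    rw [mul_sum]
    refine sum_congr rfl fun x _ => ?_
    split_ifs <;> simp
  have e2 : ∑ u ∈ S, w u * e.eE u =
      (∑ x ∈ e.E ×ˢ e.E, ∑ u ∈ S, (if (x.1 : ℤ) ≡ x.2 [ZMOD u] then w u else 0)) / (e.E.card : ℝ) ^ 2 := by
    rw [sum_comm, sum_div]
    exact sum_congr rfl fun u _ => e1 u
  have e3 : ∀ x ∈ e.E ×ˢ e.E, ∑ u ∈ S, (if (x.1 : ℤ) ≡ x.2 [ZMOD u] then w u else 0) ≤
      (if x.1 = x.2 then ∑ u ∈ S, w u else 0) + C := by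
    intro x hx
    rw [mem_product] at hx
    by_cases hd : x.1 = x.2
    · rw [if_pos hd]
      have : ∑ u ∈ S, (if (x.1 : ℤ) ≡ x.2 [ZMOD u] then w u else 0) ≤ ∑ u ∈ S, w u := by
        refine sum_le_sum fun u hu => ?_
        split_ifs
        · exact le_rfl
        · exact hw u hu
      linarith
    · rw [if_neg hd, zero_add]
      have b1 := he.EH _ hx.1
      have b2 := he.EH _ hx.2
      have hHX := he.HX
      have hH1 := he.H1
      have hX0 : 1 ≤ e.X := by omega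
      have hXX : e.X ≤ e.X ^ 100 := Nat.le_self_pow (by norm_num) _
      have hD := h ((x.1 : ℤ) - x.2).natAbs (by omega) (by omega)
      refine le_trans (le_of_eq (sum_congr rfl fun u _ => ?_)) hD
      have hiff : ((x.1 : ℤ) ≡ x.2 [ZMOD u]) ↔ u ∣ ((x.1 : ℤ) - x.2).natAbs := by
        rw [Int.modEq_iff_dvd, ← Int.natCast_dvd, ← dvd_neg, neg_sub]
      simp only [hiff]
  rw [e2, div_le_iff₀ (by positivity)]
  refine (sum_le_sum e3).trans ?_
  rw [sum_add_distrib, sum_const, card_product, sum_product]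
  have e4 : ∀ a ∈ e.E, (∑ b ∈ e.E, (if a = b then ∑ u ∈ S, w u else 0)) = ∑ u ∈ S, w u := by
    intro a ha
    rw [sum_ite_eq, if_pos ha]
  rw [sum_congr rfl e4, sum_const, nsmul_eq_mul, nsmul_eq_mul]
  push_cast
  refine le_of_eq ?_
  field_simp

open Classical in
/-- `∑_{1 < u ≤ M, u z-rough} eE u ≤ M/|E| + U` -/
theorem eE_sum (e : Env) (he : e.Ok) (M : ℕ) :
    ∑ u ∈ (Finset.Icc 2 M).filter (fun u => Rough e.z u), e.eE u ≤ M / e.E.card + e.U := by
  have hn : (0 : ℝ) < e.E.card := by exact_mod_cast cE e he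
  have h := gen e he ((Finset.Icc 2 M).filter (fun u => Rough e.z u)) (fun _ => 1) (fun _ _ => zero_le_one) e.U
    (Nat.cast_nonneg _) (by
      intro D hD hDX
      rw [← sum_filter, sum_const, nsmul_eq_mul, mul_one]
      have h1 := he.dvs D hD hDX
      refine le_trans (Nat.cast_le.2 (card_le_card ?_)) (Nat.cast_le.2 h1)
      intro u hu
      rw [mem_filter, mem_filter] at hu
      rw [mem_filter, Nat.mem_divisors]
      exact ⟨⟨hu.2, hD⟩, hu.1.2⟩)
  simp only [one_mul, sum_const, nsmul_eq_mul, mul_one] at h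
  refine h.trans ?_
  have h2 : (((Finset.Icc 2 M).filter (fun u => Rough e.z u)).card : ℝ) ≤ M := by
    have : ((Finset.Icc 2 M).filter (fun u => Rough e.z u)).card ≤ M := by
      refine (card_filter_le _ _).trans ?_
      rw [Nat.card_Icc]
      omega
    exact_mod_cast this
  gcongr

open Classical in
/-- `∑_{1 < u ≤ M, u z-rough} eE u / u ≤ (1 + log M)/|E| + U/z` -/
theorem eE_sum_div (e : Env) (he : e.Ok) (M : ℕ) (hM : 1 ≤ M) :
    ∑ u ∈ (Finset.Icc 2 M).filter (fun u => Rough e.z u), e.eE u / u ≤ (1 + Real.log M) / e.E.card + e.U / e.z := by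
  have hn : (0 : ℝ) < e.E.card := by exact_mod_cast cE e he
  have hz0 : 0 < e.z := by
    have h1 := he.w
    have h2 := he.wz
    omega
  have hzr : (0 : ℝ) < e.z := by exact_mod_cast hz0
  have hbig : ∀ u ∈ (Finset.Icc 2 M).filter (fun u => Rough e.z u), e.z < u := by
    intro u hu
    rw [mem_filter, mem_Icc] at hu
    have h1 : u ≠ 1 := by omega
    have h2 := hu.2 u.minFac (Nat.minFac_prime h1) (Nat.minFac_dvd u)
    exact lt_of_lt_of_le h2 (Nat.minFac_le (by omega))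
  have h := gen e he ((Finset.Icc 2 M).filter (fun u => Rough e.z u)) (fun u => 1 / (u : ℝ))
    (fun u _ => by positivity) (e.U / e.z) (by positivity) (by
      intro D hD hDX
      rw [← sum_filter]
      have h1 := he.dvs D hD hDX
      have h2 : ∀ u ∈ ((Finset.Icc 2 M).filter (fun u => Rough e.z u)).filter (fun u => u ∣ D),
          1 / (u : ℝ) ≤ 1 / e.z := by
        intro u hu
        rw [mem_filter] at hu
        have := hbig u hu.1
        have h3 : (e.z : ℝ) ≤ u := by exact_mod_cast this.le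
        exact one_div_le_one_div_of_le hzr h3
      refine (sum_le_sum h2).trans ?_
      rw [sum_const, nsmul_eq_mul, mul_one_div]
      refine div_le_div_of_nonneg_right ?_ hzr.le
      refine le_trans (Nat.cast_le.2 (card_le_card ?_)) (Nat.cast_le.2 h1)
      intro u hu
      rw [mem_filter, mem_filter] at hu
      rw [mem_filter, Nat.mem_divisors]
      exact ⟨⟨hu.2, hD⟩, hu.1.2⟩)
  have e1 : ∑ u ∈ (Finset.Icc 2 M).filter (fun u => Rough e.z u), e.eE u / u =
      ∑ u ∈ (Finset.Icc 2 M).filter (fun u => Rough e.z u), 1 / (u : ℝ) * e.eE u := by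
    refine sum_congr rfl fun u _ => ?_
    rw [one_div, div_eq_inv_mul]
  rw [e1]
  refine h.trans ?_
  have h2 : ∑ u ∈ (Finset.Icc 2 M).filter (fun u => Rough e.z u), 1 / (u : ℝ) ≤ 1 + Real.log M := by
    have h3 : ∑ u ∈ (Finset.Icc 2 M).filter (fun u => Rough e.z u), 1 / (u : ℝ) ≤ ∑ u ∈ Finset.Icc 1 M, 1 / (u : ℝ) := by
      refine sum_le_sum_of_subset_of_nonneg ?_ (fun u _ _ => by positivity)
      intro u hu
      rw [mem_filter, mem_Icc] at hu
      rw [mem_Icc]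
      omega
    have h4 := harmonic_le_one_add_log M
    rw [harmonic_eq_sum_Icc] at h4
    push_cast at h4
    simp only [one_div] at h3 ⊢
    exact h3.trans h4
  gcongr

private theorem cnt (e : Env) (u : ℕ) [NeZero u] (c : ℤ) :
    ((e.E ×ˢ e.E).filter fun x => (u : ℤ) ∣ x.2 - x.1 - c).card =
      ∑ r : ZMod u, (e.E.filter fun N : ℕ => (N : ZMod u) = r).card *
        (e.E.filter fun N : ℕ => (N : ZMod u) = r + (c : ZMod u)).card := by
  rw [card_eq_sum_card_fiberwise (f := fun x : ℕ × ℕ => (x.1 : ZMod u)) (t := (univ : Finset (ZMod u)))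
    (fun x _ => by simp)]
  refine sum_congr rfl fun r _ => ?_
  rw [← card_product]
  congr 1
  ext x
  rw [mem_filter, mem_filter, mem_product, mem_product, mem_filter, mem_filter]
  have hiff : ((u : ℤ) ∣ (x.2 : ℤ) - x.1 - c) ↔ (x.2 : ZMod u) = (x.1 : ZMod u) + (c : ZMod u) := by
    rw [← ZMod.intCast_zmod_eq_zero_iff_dvd]
    push_cast
    constructor
    · intro h; linear_combination h
    · intro h; rw [h]; ring
  rw [hiff]
  constructor
  · rintro ⟨⟨⟨h1, h2⟩, h3⟩, h4⟩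
    exact ⟨⟨h1, h4⟩, h2, by rw [h3, h4]⟩
  · rintro ⟨⟨h1, h2⟩, h3, h4⟩
    exact ⟨⟨⟨h1, h3⟩, by rw [h4, h2]⟩, h2⟩

open Classical in
/-- the number of pairs `(n, n') ∈ E²` with `n' - n` in a given class modulo `u` is at most `|E|^2 eE u` -/
theorem eE_cls (e : Env) (u : ℕ) (hu : 0 < u) (c : ℤ) :
    (((e.E ×ˢ e.E).filter fun x => (u : ℤ) ∣ x.2 - x.1 - c).card : ℝ) ≤ (e.E.card : ℝ) ^ 2 * e.eE u := by
  haveI : NeZero u := ⟨hu.ne'⟩
  by_cases hE : e.E.card = 0
  · rw [card_eq_zero] at hE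
    simp [hE]
  have hn : (e.E.card : ℝ) ≠ 0 := by exact_mod_cast hE
  have e0 : (e.E.card : ℝ) ^ 2 * e.eE u = (((e.E ×ˢ e.E).filter fun x => (u : ℤ) ∣ x.2 - x.1 - (0 : ℤ)).card : ℝ) := by
    unfold Env.eE
    rw [mul_div_cancel₀ _ (pow_ne_zero 2 hn)]
    congr 2
    refine filter_congr fun x _ => ?_
    rw [Int.modEq_iff_dvd, sub_zero]
  rw [e0]
  have h1 := cnt e u c
  have h2 := cnt e u 0
  set a : ZMod u → ℝ := fun r => ((e.E.filter fun N : ℕ => (N : ZMod u) = r).card : ℝ) with ha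
  have h1' : (((e.E ×ˢ e.E).filter fun x => (u : ℤ) ∣ x.2 - x.1 - c).card : ℝ) = ∑ r : ZMod u, a r * a (r + (c : ZMod u)) := by
    rw [h1]
    push_cast
    rfl
  have h2' : (((e.E ×ˢ e.E).filter fun x => (u : ℤ) ∣ x.2 - x.1 - (0 : ℤ)).card : ℝ) = ∑ r : ZMod u, a r * a r := by
    rw [h2]
    push_cast
    refine sum_congr rfl fun r _ => ?_
    rw [ha]
    simp
  rw [h1', h2']
  have h3 : ∑ r : ZMod u, a (r + (c : ZMod u)) * a (r + (c : ZMod u)) = ∑ r : ZMod u, a r * a r :=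
    Equiv.sum_comp (Equiv.addRight (c : ZMod u)) (fun r => a r * a r)
  have h4 : ∑ r : ZMod u, a r * a (r + (c : ZMod u)) ≤
      ∑ r : ZMod u, (a r * a r / 2 + a (r + (c : ZMod u)) * a (r + (c : ZMod u)) / 2) := by
    refine sum_le_sum fun r _ => ?_
    nlinarith [sq_nonneg (a r - a (r + (c : ZMod u)))]
  refine h4.trans (le_of_eq ?_)
  rw [sum_add_distrib, ← sum_div, ← sum_div, h3]
  ring

theorem eE_one (e : Env) (he : e.Ok) : e.eE 1 = 1 := by
  have hn : (e.E.card : ℝ) ≠ 0 := by exact_mod_cast (cE e he).ne'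
  unfold Env.eE
  rw [filter_true_of_mem (fun x _ => by
    rw [Int.modEq_iff_dvd]
    exact one_dvd _)]
  rw [card_product]
  push_cast
  field_simp

theorem eE_nonneg (e : Env) (u : ℕ) : 0 ≤ e.eE u ∧ e.eE u ≤ 1 := by
  unfold Env.eE
  refine ⟨by positivity, div_le_one_of_le₀ ?_ (by positivity)⟩
  have h := card_filter_le (e.E ×ˢ e.E) (fun x => (x.1 : ℤ) ≡ x.2 [ZMOD u])
  rw [card_product] at h
  rw [sq]
  exact_mod_cast h

end Pool.Agent.Lib.EX
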