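import Pool.Agent.Lib.MP_61161c_nt.EX.Dd

/-!
# EX: definitions of the environment theorem
-/

set_option autoImplicit false

open Finset
open Pool.Agent.Lib.MP_45349e_nt.LS (lam)
open Pool.Agent.Lib.GT (Rough pr)

namespace Pool.Agent.Lib.EX

open Classical in
/-- the representations `N = a + (N - a)`, `a ≠ N - a`, all prime factors of both `> N^(1/C)`, with the parities `i`, `j` of the numbers of prime factors -/
noncomputable def Rp (C N i j : ℕ) : Finset ℕ := (range N).filter fun a =>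
  0 < a ∧ a ≠ N - a ∧ (∀ p : ℕ, p.Prime → (p ∣ a ∨ p ∣ N - a) → (N : ℝ) ^ (1 / (C : ℝ)) < p) ∧
  ArithmeticFunction.cardFactors a % 2 = i ∧ ArithmeticFunction.cardFactors (N - a) % 2 = j

open Classical in
/-- the numbers `a < N` with `a`, `N - a` rough and the signs `s`, `t` -/
noncomputable def Ms (N z : ℕ) (s t : ℝ) : Finset ℕ :=
  (range N).filter fun a => Rough z a ∧ Rough z (N - a) ∧ lam a = s ∧ lam (N - a) = t

/-- the environment theorem at one dyadic scale -/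
def Core (ε om del c0 : ℝ) : Prop := ∃ X0 : ℕ, ∀ X : ℕ, X0 ≤ X → ∀ s t : ℝ, (s = 1 ∨ s = -1) → (t = 1 ∨ t = -1) →
  ∀ S : Finset ℕ, (∀ N ∈ S, X < N ∧ N ≤ 2 * X ∧ Even N) → (X : ℝ) ^ (ε / 2) ≤ S.card →
  (∀ N ∈ S, ((Ms N ⌊(X : ℝ) ^ c0⌋₊ s t).card : ℝ) < 2 * (N : ℝ) ^ (1 - ε)) →
  ∃ e : Env, e.Ok ∧ e.P1 36 ∧ e.P2 24 ∧ e.P3 ∧ e.eta = del ∧ e.X = X ∧ e.Y = ⌊(X : ℝ) ^ om⌋₊ ∧ e.z = ⌊(X : ℝ) ^ c0⌋₊ ∧
    e.kap = -(s * t) ∧ e.E ⊆ S

end Pool.Agent.Lib.EX
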