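import Pool.Agent.Lib.MP_61161c_nt.EX.EnvDefs

/-!
# EX, module EnvDy: the dyadic reduction

Scales `2^k`, `(2^k, 2^(k+1)]`, `k ≤ log₂ X`; the scales `2^k < X^(ε/2)` contain at most `2 X^(ε/2) ≤ X^ε/8` numbers, so some `k` with `2^k ≥ X^(ε/2)` has at least
`X^ε/(8 (log₂ X + 1)) ≥ X^(ε/2)·(..) ≥ (2^k)^(ε/2)` exceptional numbers. `z = ⌊X'^c0⌋`, `X' = 2^k`, `N ≤ 2 X'`: `N^(1/C) ≤ z` with `C = ⌈2/c0⌉ + 1`, so
`Ms N z s t ⊆ Rp C N i j ∪ {N/2}` (`a = 0` is not rough), `s = (-1)^i`, `t = (-1)^j`.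
-/

set_option autoImplicit false

open Finset
open Pool.Agent.Lib.MP_45349e_nt.LS (lam)
open Pool.Agent.Lib.GT (Rough pr)

namespace Pool.Agent.Lib.EX

theorem lam_parity (n i : ℕ) (hi : i < 2) (h : lam n = (-1) ^ i) : ArithmeticFunction.cardFactors n % 2 = i := by
  unfold Pool.Agent.Lib.MP_45349e_nt.LS.lam at h
  rcases Nat.even_or_odd (ArithmeticFunction.cardFactors n) with he | he
  · rw [he.neg_one_pow] at h
    have h2 := Nat.even_iff.mp he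
    interval_cases i
    · exact h2
    · norm_num at h
  · rw [he.neg_one_pow] at h
    have h2 := Nat.odd_iff.mp he
    interval_cases i
    · norm_num at h
    · exact h2

theorem sign_pow (i : ℕ) : ((-1 : ℝ)) ^ i = 1 ∨ ((-1 : ℝ)) ^ i = -1 := neg_one_pow_eq_or ℝ i

/-- comparison of the sets at one scale -/
theorem Ms_sub (c0 : ℝ) (hc : 0 < c0) (X N i j : ℕ) (hi : i < 2) (hj : j < 2) (hX : 2 ≤ X) (hN : N ≤ 2 * X)
    (hz2 : 2 ≤ ⌊(X : ℝ) ^ c0⌋₊) :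
    Ms N ⌊(X : ℝ) ^ c0⌋₊ ((-1) ^ i) ((-1) ^ j) ⊆ insert (N / 2) (Rp (⌈2 / c0⌉₊ + 1) N i j) := by
  classical
  intro a ha
  unfold Ms at ha
  rw [mem_filter, mem_range] at ha
  obtain ⟨haN, h1, h2, h3, h4⟩ := ha
  rw [mem_insert]
  by_cases hh : a = N - a
  · left; omega
  · right
    unfold Rp
    rw [mem_filter, mem_range]
    have ha0 : 0 < a := by
      rcases Nat.eq_zero_or_pos a with h | h
      · exfalso
        rw [h] at h1
        have := h1 2 Nat.prime_two (dvd_zero _)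
        omega
      · exact h
    refine ⟨haN, ha0, hh, ?_, lam_parity a i hi h3, lam_parity (N - a) j hj h4⟩
    intro p hp hd
    have h5 : ⌊(X : ℝ) ^ c0⌋₊ < p := by
      rcases hd with h | h
      · exact h1 p hp h
      · exact h2 p hp h
    have h6 : (X : ℝ) ^ c0 < p := Nat.lt_of_floor_lt h5
    refine lt_of_le_of_lt ?_ h6
    have hXr : (2 : ℝ) ≤ X := by exact_mod_cast hX
    have hNr : (N : ℝ) ≤ (X : ℝ) ^ (2 : ℝ) := by
      have h7 : (N : ℝ) ≤ 2 * X := by exact_mod_cast hN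
      have h8 : (X : ℝ) ^ (2 : ℝ) = X * X := by
        rw [show (2 : ℝ) = ((2 : ℕ) : ℝ) by norm_num, Real.rpow_natCast]
        ring
      rw [h8]
      nlinarith
    set C : ℕ := ⌈2 / c0⌉₊ + 1 with hC
    have hCr : 2 / c0 ≤ (C : ℝ) := by
      rw [hC]
      push_cast
      linarith [Nat.le_ceil (2 / c0)]
    have hC0 : (0 : ℝ) < C := lt_of_lt_of_le (by positivity) hCr
    calc (N : ℝ) ^ (1 / (C : ℝ)) ≤ ((X : ℝ) ^ (2 : ℝ)) ^ (1 / (C : ℝ)) :=
          Real.rpow_le_rpow (Nat.cast_nonneg _) hNr (by positivity)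
      _ = (X : ℝ) ^ (2 * (1 / (C : ℝ))) := by rw [← Real.rpow_mul (by linarith)]
      _ ≤ (X : ℝ) ^ c0 := by
        refine Real.rpow_le_rpow_of_exponent_le (by linarith) ?_
        rw [mul_one_div, div_le_iff₀ hC0]
        rw [div_le_iff₀ hc] at hCr
        linarith

/-- the choice of the scale -/
theorem dy_scale (ε : ℝ) (hε : 0 < ε) : ∃ X0 : ℕ, ∀ X : ℕ, X0 ≤ X → ∀ E : Finset ℕ, (∀ N ∈ E, 2 ≤ N ∧ N ≤ X) →
    (X : ℝ) ^ ε / 4 ≤ (E.card : ℝ) → ∃ k : ℕ, (X : ℝ) ^ (ε / 2) < ((2 ^ k : ℕ) : ℝ) ∧ 2 ^ k ≤ X ∧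
      (((2 ^ k : ℕ) : ℝ)) ^ (ε / 2) ≤ ((E.filter (fun N => 2 ^ k < N ∧ N ≤ 2 * 2 ^ k)).card : ℝ) := by
  classical
  -- growth conditions
  have hlim1 : Filter.Tendsto (fun X : ℕ => ((X : ℝ)) ^ (ε / 2)) Filter.atTop Filter.atTop :=
    (tendsto_rpow_atTop (by linarith)).comp tendsto_natCast_atTop_atTop
  have hlim2 : Filter.Tendsto (fun X : ℝ => Real.log X / X ^ (ε / 2)) Filter.atTop (nhds 0) :=
    (isLittleO_log_rpow_atTop (by linarith : 0 < ε / 2)).tendsto_div_nhds_zero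
  have hlim3 : Filter.Tendsto (fun X : ℕ => Real.log (X : ℝ) / (X : ℝ) ^ (ε / 2)) Filter.atTop (nhds 0) :=
    hlim2.comp tendsto_natCast_atTop_atTop
  obtain ⟨A1, hA1⟩ := Filter.eventually_atTop.mp (hlim1.eventually_ge_atTop 32)
  obtain ⟨A2, hA2⟩ := Filter.eventually_atTop.mp (hlim3.eventually (gt_mem_nhds (show (0 : ℝ) < 1 / 32 by norm_num)))
  refine ⟨max A1 (max A2 3), fun X hX E hE hcard => ?_⟩
  have hX3 : 3 ≤ X := (le_max_right A2 3).trans ((le_max_right A1 _).trans hX)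
  have hg1 := hA1 X ((le_max_left _ _).trans hX)
  have hg2 := hA2 X ((le_max_left A2 3).trans ((le_max_right A1 _).trans hX))
  have hXr : (3 : ℝ) ≤ X := by exact_mod_cast hX3
  have hX0 : (0 : ℝ) < X := by linarith
  set y : ℝ := (X : ℝ) ^ (ε / 2) with hy
  have hy0 : 0 < y := by positivity
  have hyy : (X : ℝ) ^ ε = y * y := by
    rw [hy, ← Real.rpow_add hX0]
    congr 1
    ring
  set T : ℕ := ⌊y⌋₊ with hT
  have hTy : (T : ℝ) ≤ y := Nat.floor_le hy0.le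
  set E' := E.filter (fun N => 2 * T < N) with hE'
  have hEE : (E.card : ℝ) ≤ E'.card + 2 * T := by
    have h1 : E ⊆ E' ∪ Icc 1 (2 * T) := by
      intro N hN
      rw [mem_union, hE', mem_filter, mem_Icc]
      have := (hE N hN).1
      by_cases h : 2 * T < N
      · exact Or.inl ⟨hN, h⟩
      · exact Or.inr ⟨by omega, by omega⟩
    have h2 := (card_le_card h1).trans (card_union_le _ _)
    rw [Nat.card_Icc, Nat.add_sub_cancel] at h2
    exact_mod_cast h2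
  have hE'c : y * y / 8 ≤ (E'.card : ℝ) := by
    rw [hyy] at hcard
    nlinarith
  -- scales
  set K := Nat.log 2 X + 1 with hK
  set sc : ℕ → ℕ := fun N => Nat.log 2 (N - 1) with hsc
  have hscm : ∀ N ∈ E', sc N ∈ range K := by
    intro N hN
    rw [mem_range, hK, hsc]
    have h1 := (hE N (mem_filter.mp hN).1).2
    have : Nat.log 2 (N - 1) ≤ Nat.log 2 X := Nat.log_mono_right (by omega)
    simp only
    omega
  have hsum : ∑ k ∈ range K, (E'.filter (fun N => sc N = k)).card = E'.card :=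
    (card_eq_sum_card_fiberwise hscm).symm
  have hKy : (K : ℝ) * y ≤ y * y / 8 := by
    have h1 : (K : ℝ) ≤ 2 * Real.log X + 1 := by
      rw [hK]
      push_cast
      have h2 : ((Nat.log 2 X : ℕ) : ℝ) * Real.log 2 ≤ Real.log X := by
        rw [← Real.log_pow]
        refine Real.log_le_log (by positivity) ?_
        have := Nat.pow_log_le_self 2 (show X ≠ 0 by omega)
        exact_mod_cast this
      have h3 := Real.log_two_gt_d9
      have h4 : (0 : ℝ) ≤ ((Nat.log 2 X : ℕ) : ℝ) := Nat.cast_nonneg _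
      nlinarith
    have h2 : Real.log X ≤ y / 32 := by
      rw [div_lt_iff₀ hy0] at hg2
      linarith
    have h3 : (K : ℝ) ≤ y / 8 := by linarith
    calc (K : ℝ) * y ≤ y / 8 * y := by gcongr
      _ = y * y / 8 := by ring
  have hex : ∃ k ∈ range K, y ≤ ((E'.filter (fun N => sc N = k)).card : ℝ) := by
    by_contra hcon
    push Not at hcon
    have h1 : (E'.card : ℝ) < K * y := by
      rw [← hsum]
      push_cast
      calc ∑ k ∈ range K, ((E'.filter (fun N => sc N = k)).card : ℝ) < ∑ _k ∈ range K, y :=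
            sum_lt_sum_of_nonempty ⟨0, mem_range.mpr (by omega)⟩ hcon
        _ = K * y := by rw [sum_const, card_range, nsmul_eq_mul]
    linarith
  obtain ⟨k, hk, hky⟩ := hex
  have hne : (E'.filter (fun N => sc N = k)).Nonempty := by
    rw [← card_pos]
    have : (0 : ℝ) < ((E'.filter (fun N => sc N = k)).card : ℝ) := lt_of_lt_of_le hy0 hky
    exact_mod_cast this
  have hrange : ∀ N ∈ E', sc N = k → 2 ^ k < N ∧ N ≤ 2 * 2 ^ k := by
    intro N hN hs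
    have h1 := hE N (mem_filter.mp hN).1
    rw [hsc] at hs
    simp only at hs
    have h2 := Nat.pow_log_le_self 2 (show N - 1 ≠ 0 by omega)
    have h3 := Nat.lt_pow_succ_log_self (b := 2) (by norm_num) (N - 1)
    rw [hs] at h2 h3
    rw [pow_succ] at h3
    omega
  obtain ⟨N0, hN0⟩ := hne
  have hN0' := mem_filter.mp hN0
  have hr0 := hrange N0 hN0'.1 hN0'.2
  have hT0 : 2 * T < N0 := (mem_filter.mp hN0'.1).2
  have hTk : T < 2 ^ k := by omega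
  have hkX : 2 ^ k ≤ X := by
    have := (hE N0 (mem_filter.mp hN0'.1).1).2
    omega
  refine ⟨k, ?_, hkX, ?_⟩
  · have h1 : y < (T : ℝ) + 1 := Nat.lt_floor_add_one y
    have h2 : ((T + 1 : ℕ) : ℝ) ≤ ((2 ^ k : ℕ) : ℝ) := by exact_mod_cast hTk
    push_cast at h2 ⊢
    linarith
  · have h1 : (((2 ^ k : ℕ) : ℝ)) ^ (ε / 2) ≤ y := by
      rw [hy]
      refine Real.rpow_le_rpow (Nat.cast_nonneg _) ?_ (by linarith)
      exact_mod_cast hkX
    refine h1.trans (hky.trans ?_)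
    have h2 : E'.filter (fun N => sc N = k) ⊆ E.filter (fun N => 2 ^ k < N ∧ N ≤ 2 * 2 ^ k) := by
      intro N hN
      have h3 := mem_filter.mp hN
      exact mem_filter.mpr ⟨(mem_filter.mp h3.1).1, hrange N h3.1 h3.2⟩
    exact_mod_cast card_le_card h2

theorem env_dy (ε om del c0 : ℝ) (hε : 0 < ε) (hε1 : ε ≤ 1) (hc : 0 < c0) (hc1 : c0 ≤ 1) (h : Core ε om del c0) :
    ∃ C : ℕ, 0 < C ∧ ∀ X1 : ℕ, ∃ X0 : ℕ, ∀ X : ℕ, X0 ≤ X → ∀ i j : ℕ, i < 2 → j < 2 →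
      (X : ℝ) ^ ε / 4 ≤ (((Icc 1 X).filter fun N => Even N ∧ ((Rp C N i j).card : ℝ) < (N : ℝ) ^ (1 - ε)).card : ℝ) →
      ∃ e : Env, e.Ok ∧ e.P1 36 ∧ e.P2 24 ∧ e.P3 ∧ e.eta = del ∧ X1 ≤ e.X ∧ e.Y = ⌊(e.X : ℝ) ^ om⌋₊ ∧
        ((2 * e.X : ℕ) : ℝ) ^ (c0 / 2) ≤ e.z ∧ (e.z : ℝ) ≤ (e.X : ℝ) ^ c0 ∧ e.kap = -((-1) ^ i * (-1) ^ j) ∧
        (∀ N ∈ e.E, Even N) ∧
        ∀ N ∈ e.E, (((range N).filter fun a => Rough e.z a ∧ Rough e.z (N - a) ∧ lam a = (-1) ^ i ∧ lam (N - a) = (-1) ^ j).card : ℝ) <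
          2 * (N : ℝ) ^ (1 - ε) := by
  classical
  obtain ⟨Xc, hXc⟩ := h
  obtain ⟨Xs, hXs⟩ := dy_scale ε hε
  refine ⟨⌈2 / c0⌉₊ + 1, Nat.succ_pos _, fun X1 => ?_⟩
  have hlim1 : Filter.Tendsto (fun X : ℕ => ((X : ℝ)) ^ (c0 / 2)) Filter.atTop Filter.atTop :=
    (tendsto_rpow_atTop (by linarith)).comp tendsto_natCast_atTop_atTop
  obtain ⟨A1, hA1⟩ := Filter.eventually_atTop.mp (hlim1.eventually_ge_atTop 3)
  have hlim2 : Filter.Tendsto (fun X : ℕ => ((X : ℝ)) ^ (ε / 2)) Filter.atTop Filter.atTop :=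
    (tendsto_rpow_atTop (by linarith)).comp tendsto_natCast_atTop_atTop
  obtain ⟨A2, hA2⟩ := Filter.eventually_atTop.mp (hlim2.eventually_ge_atTop ((max (max A1 X1) (max Xc 3) : ℕ) : ℝ))
  refine ⟨max Xs A2, fun X hX i j hi hj hcard => ?_⟩
  set E := (Icc 1 X).filter fun N => Even N ∧ ((Rp (⌈2 / c0⌉₊ + 1) N i j).card : ℝ) < (N : ℝ) ^ (1 - ε) with hE
  have hEm : ∀ N ∈ E, 2 ≤ N ∧ N ≤ X := by
    intro N hN
    rw [hE, mem_filter, mem_Icc] at hN
    obtain ⟨⟨h1, h2⟩, ⟨r, hr⟩, _⟩ := hN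
    exact ⟨by omega, h2⟩
  obtain ⟨k, hk1, hk2, hk3⟩ := hXs X ((le_max_left _ _).trans hX) E hEm hcard
  set X' : ℕ := 2 ^ k with hX'
  have hbig : max (max A1 X1) (max Xc 3) ≤ X' := by
    have h1 := (hA2 X ((le_max_right _ _).trans hX)).trans hk1.le
    exact_mod_cast h1
  have hb1 : A1 ≤ X' := (le_max_left _ _).trans ((le_max_left _ _).trans hbig)
  have hb2 : X1 ≤ X' := (le_max_right _ _).trans ((le_max_left _ _).trans hbig)
  have hb3 : Xc ≤ X' := (le_max_left _ _).trans ((le_max_right _ _).trans hbig)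
  have hb4 : 3 ≤ X' := (le_max_right _ _).trans ((le_max_right _ _).trans hbig)
  have hy := hA1 X' hb1
  have hX'r : (3 : ℝ) ≤ X' := by exact_mod_cast hb4
  have hX'0 : (0 : ℝ) < X' := by linarith
  set y : ℝ := (X' : ℝ) ^ (c0 / 2) with hydef
  have hyy : (X' : ℝ) ^ c0 = y * y := by
    rw [hydef, ← Real.rpow_add hX'0]
    congr 1
    ring
  have hz2 : 2 ≤ ⌊(X' : ℝ) ^ c0⌋₊ := by
    apply Nat.le_floor
    rw [hyy]
    push_cast
    nlinarith
  set S := E.filter (fun N => X' < N ∧ N ≤ 2 * X') with hS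
  have hSm : ∀ N ∈ S, X' < N ∧ N ≤ 2 * X' ∧ Even N := by
    intro N hN
    rw [hS, mem_filter, hE, mem_filter] at hN
    exact ⟨hN.2.1, hN.2.2, hN.1.2.1⟩
  have hSMs : ∀ N ∈ S, ((Ms N ⌊(X' : ℝ) ^ c0⌋₊ ((-1) ^ i) ((-1) ^ j)).card : ℝ) < 2 * (N : ℝ) ^ (1 - ε) := by
    intro N hN
    have h0 := hSm N hN
    have h1 := card_le_card (Ms_sub c0 hc X' N i j hi hj (by omega) h0.2.1 hz2)
    have h2 := h1.trans (card_insert_le _ _)
    have h3 : ((Rp (⌈2 / c0⌉₊ + 1) N i j).card : ℝ) < (N : ℝ) ^ (1 - ε) := by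
      rw [hS, mem_filter, hE, mem_filter] at hN
      exact hN.1.2.2
    have h4 : (1 : ℝ) ≤ (N : ℝ) ^ (1 - ε) := by
      refine Real.one_le_rpow ?_ (by linarith)
      exact_mod_cast (by omega : 1 ≤ N)
    have h5 : ((Ms N ⌊(X' : ℝ) ^ c0⌋₊ ((-1) ^ i) ((-1) ^ j)).card : ℝ) ≤ ((Rp (⌈2 / c0⌉₊ + 1) N i j).card : ℝ) + 1 := by
      exact_mod_cast h2
    linarith
  obtain ⟨e, he1, he2, he3, he4, he5, he6, he7, he8, he9, he10⟩ := hXc X' hb3 ((-1) ^ i) ((-1) ^ j) (sign_pow i) (sign_pow j)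
    S hSm hk3 hSMs
  refine ⟨e, he1, he2, he3, he4, he5, by rw [he6]; exact hb2, by rw [he6]; exact he7, ?_, ?_, he9, ?_, ?_⟩
  · rw [he6, he8]
    have h1 : ((2 * X' : ℕ) : ℝ) ^ (c0 / 2) ≤ 2 * y := by
      push_cast
      rw [Real.mul_rpow (by norm_num) hX'0.le]
      have h2 : (2 : ℝ) ^ (c0 / 2) ≤ 2 := by
        calc (2 : ℝ) ^ (c0 / 2) ≤ (2 : ℝ) ^ (1 : ℝ) := Real.rpow_le_rpow_of_exponent_le (by norm_num) (by linarith)
          _ = 2 := Real.rpow_one _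
      gcongr
    refine h1.trans ?_
    have h2 := Nat.lt_floor_add_one ((X' : ℝ) ^ c0)
    rw [hyy] at h2 ⊢
    nlinarith
  · rw [he6, he8]
    exact Nat.floor_le (by positivity)
  · intro N hN
    exact (hSm N (he10 hN)).2.2
  · intro N hN
    have h1 := hSMs N (he10 hN)
    rw [he8]
    unfold Ms at h1
    convert h1 using 3

end Pool.Agent.Lib.EX
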