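import Pool.Agent.Lib.MP_61161c_nt.EX.Defs
import Pool.Agent.Lib.Sieve.Mertens

/-!
# EX: facts about the densities `Env.MM` and about rough divisors

`Env.MM_pair`, `Env.MM_anti`, `Env.MM_le_one`, `Env.MM_nonneg`, `Env.MM_low`, `Env.MM_low'`, `Env.MM_pos`,
`MMf.rough_divisors`.
-/

set_option autoImplicit false

open Finset
open Pool.Agent.Lib.GT (Rough pr V)

namespace Pool.Agent.Lib.EX.MMf

/-- density of a scheme with `k` forms, with free parameters -/
noncomputable def MMg (nu : ℕ → ℕ) (w z k : ℕ) : ℝ :=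
  (∏ p ∈ pr w, (1 - (nu p : ℝ) / p)) * ∏ p ∈ (pr z).filter (fun p => w < p), (1 - (k : ℝ) / p)

theorem mem_pr {z p : ℕ} : p ∈ pr z ↔ p ≤ z ∧ p.Prime := by
  unfold pr
  rw [Finset.mem_filter, Finset.mem_range, Nat.lt_succ_iff]

theorem fac_nonneg {nu : ℕ → ℕ} (hnu : ∀ p, nu p ≤ 2) (w : ℕ) :
    0 ≤ ∏ p ∈ pr w, (1 - (nu p : ℝ) / p) := by
  apply Finset.prod_nonneg
  intro p hp
  have hp2 := (mem_pr.1 hp).2.two_le
  have h1 : (nu p : ℝ) ≤ 2 := by exact_mod_cast hnu p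
  have h2 : (2 : ℝ) ≤ p := by exact_mod_cast hp2
  rw [sub_nonneg, div_le_one (by linarith)]
  linarith

theorem fac_le_one {nu : ℕ → ℕ} (hnu : ∀ p, nu p ≤ 2) (w : ℕ) :
    ∏ p ∈ pr w, (1 - (nu p : ℝ) / p) ≤ 1 := by
  apply Finset.prod_le_one
  · intro p hp
    have hp2 := (mem_pr.1 hp).2.two_le
    have h1 : (nu p : ℝ) ≤ 2 := by exact_mod_cast hnu p
    have h2 : (2 : ℝ) ≤ p := by exact_mod_cast hp2
    rw [sub_nonneg, div_le_one (by linarith)]
    linarith
  · intro p _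
    have : (0 : ℝ) ≤ (nu p : ℝ) / p := by positivity
    linarith

theorem hi_pos {w z k p : ℕ} (hk : k ≤ 36) (hw : 36 < w)
    (hp : p ∈ (pr z).filter (fun p => w < p)) : 0 < 1 - (k : ℝ) / p := by
  rw [Finset.mem_filter] at hp
  have h1 : (k : ℝ) ≤ 36 := by exact_mod_cast hk
  have h2 : (36 : ℝ) < p := by exact_mod_cast hw.trans hp.2
  rw [sub_pos, div_lt_one (by linarith)]
  linarith

theorem MMg_pair (nu : ℕ → ℕ) {w z k r : ℕ} (hw : 36 < w)
    (hk : k + 2 * r ≤ 36) : MMg nu w z (k + 2 * r) * MMg nu w z k ≤ MMg nu w z (k + r) ^ 2 := by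
  have key : (∏ p ∈ (pr z).filter (fun p => w < p), (1 - ((k + 2 * r : ℕ) : ℝ) / p)) *
      ∏ p ∈ (pr z).filter (fun p => w < p), (1 - (k : ℝ) / p) ≤
      (∏ p ∈ (pr z).filter (fun p => w < p), (1 - ((k + r : ℕ) : ℝ) / p)) ^ 2 := by
    rw [← Finset.prod_mul_distrib, ← Finset.prod_pow]
    apply Finset.prod_le_prod
    · intro p hp
      exact mul_nonneg (hi_pos hk hw hp).le (hi_pos (by omega) hw hp).le
    · intro p hp
      rw [Finset.mem_filter] at hp
      have hp0 : (0 : ℝ) < p := by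
        exact_mod_cast (mem_pr.1 hp.1).2.pos
      have h1 : (1 - ((k + 2 * r : ℕ) : ℝ) / p) * (1 - (k : ℝ) / p) =
          (1 - ((k + r : ℕ) : ℝ) / p) ^ 2 - ((r : ℝ) / p) ^ 2 := by
        push_cast
        field_simp
        ring
      rw [h1]
      have := sq_nonneg ((r : ℝ) / p)
      linarith
  have h2 := mul_le_mul_of_nonneg_left key (sq_nonneg (∏ p ∈ pr w, (1 - (nu p : ℝ) / p)))
  unfold MMg
  calc _ = (∏ p ∈ pr w, (1 - (nu p : ℝ) / p)) ^ 2 *
      ((∏ p ∈ (pr z).filter (fun p => w < p), (1 - ((k + 2 * r : ℕ) : ℝ) / p)) *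
      ∏ p ∈ (pr z).filter (fun p => w < p), (1 - (k : ℝ) / p)) := by ring
    _ ≤ _ := h2
    _ = _ := by ring

theorem MMg_anti {nu : ℕ → ℕ} (hnu : ∀ p, nu p ≤ 2) {w z k : ℕ} (hw : 36 < w) (hk : k + 1 ≤ 36) :
    MMg nu w z (k + 1) ≤ MMg nu w z k := by
  unfold MMg
  refine mul_le_mul_of_nonneg_left ?_ (fac_nonneg hnu w)
  apply Finset.prod_le_prod
  · intro p hp
    exact (hi_pos hk hw hp).le
  · intro p hp
    rw [Finset.mem_filter] at hp
    have hp0 : (0 : ℝ) < p := by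
      exact_mod_cast (mem_pr.1 hp.1).2.pos
    have : (k : ℝ) / p ≤ ((k + 1 : ℕ) : ℝ) / p := by
      apply div_le_div_of_nonneg_right _ hp0.le
      push_cast
      linarith
    linarith

theorem MMg_nonneg {nu : ℕ → ℕ} (hnu : ∀ p, nu p ≤ 2) {w z k : ℕ} (hw : 36 < w) (hk : k ≤ 36) :
    0 ≤ MMg nu w z k :=
  mul_nonneg (fac_nonneg hnu w) (Finset.prod_nonneg fun _ hp => (hi_pos hk hw hp).le)

theorem MMg_le_one {nu : ℕ → ℕ} (hnu : ∀ p, nu p ≤ 2) {w z k : ℕ} (hw : 36 < w) (hk : k ≤ 36) :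
    MMg nu w z k ≤ 1 := by
  unfold MMg
  refine mul_le_one₀ (fac_le_one hnu w) (Finset.prod_nonneg fun _ hp => (hi_pos hk hw hp).le) ?_
  apply Finset.prod_le_one (fun _ hp => (hi_pos hk hw hp).le)
  intro p _
  have : (0 : ℝ) ≤ (k : ℝ) / p := by positivity
  linarith

/-- `(1 - x)^(2k) ≤ 1 - k x` for small `x` -/
theorem pow_le_lin {x : ℝ} (hx0 : 0 ≤ x) (k : ℕ) (hx : (2 * (k : ℝ) + 1) * x ≤ 1) :
    (1 - x) ^ (2 * k) ≤ 1 - k * x := by
  induction k with
  | zero => simp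
  | succ k ih =>
    push_cast at hx
    have hk0 : (0 : ℝ) ≤ k := Nat.cast_nonneg k
    have hx1 : x ≤ 1 := by nlinarith
    have h1 := ih (by nlinarith)
    have h2 : (1 - x) ^ (2 * (k + 1)) = (1 - x) ^ (2 * k) * (1 - x) ^ 2 := by ring
    rw [h2]
    have h3 : (1 - x) ^ (2 * k) * (1 - x) ^ 2 ≤ (1 - k * x) * (1 - x) ^ 2 :=
      mul_le_mul_of_nonneg_right h1 (sq_nonneg _)
    refine h3.trans ?_
    push_cast
    have h4 : (1 - (k : ℝ) * x) * (1 - x) ^ 2 - (1 - ((k : ℝ) + 1) * x) =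
        -x * (1 - (2 * k + 1) * x + k * x ^ 2) := by ring
    have h5 : 0 ≤ 1 - (2 * (k : ℝ) + 1) * x + k * x ^ 2 := by nlinarith [mul_nonneg hk0 (sq_nonneg x)]
    nlinarith

theorem MMg_ge_V {nu : ℕ → ℕ} (hnu : ∀ p, nu p ≤ 2) (hnu2 : nu 2 ≤ 1) {w z k : ℕ} (hw : 200 ≤ w)
    (hwz : w < z) (hk : k ≤ 36) : (V z) ^ 72 ≤ MMg nu w z k := by
  unfold MMg V
  have h1 : pr z = pr w ∪ (pr z).filter (fun p => w < p) := by
    ext p
    rw [Finset.mem_union, Finset.mem_filter, mem_pr, mem_pr]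
    constructor
    · rintro ⟨a, b⟩
      by_cases h : p ≤ w
      · exact Or.inl ⟨h, b⟩
      · exact Or.inr ⟨⟨a, b⟩, by omega⟩
    · rintro (⟨a, b⟩ | ⟨a, _⟩)
      · exact ⟨by omega, b⟩
      · exact a
  have h2 : Disjoint (pr w) ((pr z).filter (fun p => w < p)) := by
    rw [Finset.disjoint_left]
    intro p hp hp'
    have := (mem_pr.1 hp).1
    have := (Finset.mem_filter.1 hp').2
    omega
  have h3 : ∏ p ∈ pr z, (1 - 1 / (p : ℝ)) = (∏ p ∈ pr w, (1 - 1 / (p : ℝ))) *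
      ∏ p ∈ (pr z).filter (fun p => w < p), (1 - 1 / (p : ℝ)) := by
    rw [← Finset.prod_union h2, ← h1]
  rw [h3, mul_pow, ← Finset.prod_pow, ← Finset.prod_pow]
  have hq : ∀ p : ℕ, p.Prime → 0 ≤ 1 - 1 / (p : ℝ) ∧ 1 - 1 / (p : ℝ) ≤ 1 := by
    intro p hp
    have h2 : (2 : ℝ) ≤ p := by exact_mod_cast hp.two_le
    have h3 : (0 : ℝ) ≤ 1 / p := by positivity
    have h4 : 1 / (p : ℝ) ≤ 1 := by
      rw [div_le_one (by linarith)]
      linarith
    constructor <;> linarith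
  apply mul_le_mul
  · apply Finset.prod_le_prod
    · intro p hp
      exact pow_nonneg (hq p (mem_pr.1 hp).2).1 _
    · intro p hp
      have hpp := (mem_pr.1 hp).2
      rcases hpp.two_le.eq_or_lt with h | h
      · rw [← h]
        have h5 : (nu 2 : ℝ) ≤ 1 := by exact_mod_cast hnu2
        have h6 : (1 - 1 / ((2 : ℕ) : ℝ)) ^ 72 ≤ 1 - 1 / ((2 : ℕ) : ℝ) := by norm_num
        refine h6.trans ?_
        push_cast
        linarith
      · have h5 : (nu p : ℝ) ≤ 2 := by exact_mod_cast hnu p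
        have h6 : (3 : ℝ) ≤ p := by exact_mod_cast h
        have h7 : (1 - 1 / (p : ℝ)) ^ 72 ≤ (1 - 1 / (p : ℝ)) ^ 4 :=
          pow_le_pow_of_le_one (hq p hpp).1 (hq p hpp).2 (by norm_num)
        refine h7.trans ?_
        have h8 : (nu p : ℝ) / p ≤ 2 * (1 / p) := by
          rw [← mul_div_assoc, mul_one]
          exact div_le_div_of_nonneg_right h5 (by linarith)
        set x := 1 / (p : ℝ) with hx
        have hx0 : 0 ≤ x := by positivity
        have hx3 : x ≤ 1 / 3 := one_div_le_one_div_of_le (by norm_num) h6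
        have h9 : (1 - x) ^ 4 ≤ 1 - 2 * x := by
          have : (1 - x) ^ 4 - (1 - 2 * x) = -(x * (2 - 6 * x + 4 * x ^ 2 - x ^ 3)) := by ring
          have h10 : 0 ≤ 2 - 6 * x + 4 * x ^ 2 - x ^ 3 := by nlinarith [sq_nonneg x, mul_nonneg hx0 hx0]
          nlinarith [mul_nonneg hx0 h10]
        linarith
  · apply Finset.prod_le_prod
    · intro p hp
      exact pow_nonneg (hq p (mem_pr.1 (Finset.mem_filter.1 hp).1).2).1 _
    · intro p hp
      rw [Finset.mem_filter] at hp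
      have hpp := (mem_pr.1 hp.1).2
      have h6 : (200 : ℝ) ≤ p := by exact_mod_cast hw.trans hp.2.le
      have h7 : (1 - 1 / (p : ℝ)) ^ 72 ≤ (1 - 1 / (p : ℝ)) ^ (2 * k) :=
        pow_le_pow_of_le_one (hq p hpp).1 (hq p hpp).2 (by omega)
      refine h7.trans ?_
      have h8 := pow_le_lin (x := 1 / (p : ℝ)) (by positivity) k (by
        rw [mul_one_div, div_le_one (by linarith)]
        have : (k : ℝ) ≤ 36 := by exact_mod_cast hk
        linarith)
      refine h8.trans (le_of_eq ?_)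
      ring
  · apply Finset.prod_nonneg
    intro p hp
    exact pow_nonneg (hq p (mem_pr.1 (Finset.mem_filter.1 hp).1).2).1 _
  · exact fac_nonneg hnu w

theorem V_low : ∃ C : ℝ, 1 ≤ C ∧ ∀ z : ℕ, 2 ≤ z → 1 ≤ C * Real.log z * V z := by
  obtain ⟨C, hC, h⟩ := Pool.Agent.Lib.Sieve.mertens_product_upper
  refine ⟨max C 1, le_max_right _ _, fun z hz => ?_⟩
  have h1 := h z hz
  have h2 : (Finset.Icc 1 z).filter Nat.Prime = pr z := by
    ext p
    rw [Finset.mem_filter, Finset.mem_Icc, mem_pr]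
    constructor
    · rintro ⟨⟨_, b⟩, c⟩
      exact ⟨b, c⟩
    · rintro ⟨b, c⟩
      exact ⟨⟨c.one_lt.le, b⟩, c⟩
  rw [h2, Finset.prod_inv_distrib] at h1
  have hV : 0 < V z := by
    unfold V
    apply Finset.prod_pos
    intro p hp
    have h2 : (2 : ℝ) ≤ p := by exact_mod_cast (mem_pr.1 hp).2.two_le
    rw [sub_pos, div_lt_one (by linarith)]
    linarith
  have h3 : (V z)⁻¹ ≤ C * Real.log z := h1
  have hl : 0 ≤ Real.log z := Real.log_natCast_nonneg z
  calc (1 : ℝ) = (V z)⁻¹ * V z := (inv_mul_cancel₀ hV.ne').symm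
    _ ≤ C * Real.log z * V z := mul_le_mul_of_nonneg_right h3 hV.le
    _ ≤ max C 1 * Real.log z * V z := by
        refine mul_le_mul_of_nonneg_right ?_ hV.le
        exact mul_le_mul_of_nonneg_right (le_max_left _ _) hl

theorem MMg_low : ∃ C : ℝ, 1 ≤ C ∧ ∀ (nu : ℕ → ℕ) (w z k : ℕ), (∀ p, nu p ≤ 2) → nu 2 ≤ 1 →
    200 ≤ w → w < z → k ≤ 36 → 1 ≤ (C * Real.log z) ^ 72 * MMg nu w z k := by
  obtain ⟨C, hC, h⟩ := V_low
  refine ⟨C, hC, fun nu w z k hnu hnu2 hw hwz hk => ?_⟩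
  have h1 := h z (by omega)
  have h2 := MMg_ge_V hnu hnu2 hw hwz hk
  have hl : 0 ≤ Real.log z := Real.log_natCast_nonneg z
  calc (1 : ℝ) = 1 ^ 72 := (one_pow _).symm
    _ ≤ (C * Real.log z * V z) ^ 72 := pow_le_pow_left₀ zero_le_one h1 _
    _ = (C * Real.log z) ^ 72 * (V z) ^ 72 := mul_pow _ _ _
    _ ≤ _ := mul_le_mul_of_nonneg_left h2 (by positivity)

/-- few rough divisors -/
theorem rough_divisors {z D X m : ℕ} (hz : 2 ≤ z) (hD : D ≠ 0) (hDX : D ≤ X ^ 100)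
    (hX : X ≤ z ^ m) : (D.divisors.filter (fun d => Rough z d)).card ≤ 2 ^ (100 * m) := by
  classical
  set S := D.primeFactors.filter (fun p => z < p) with hS
  set D' := ∏ p ∈ S, p ^ D.factorization p with hD'
  have hSp : ∀ p ∈ S, p.Prime := fun p hp => Nat.prime_of_mem_primeFactors (Finset.mem_filter.1 hp).1
  have hD'0 : D' ≠ 0 := Finset.prod_ne_zero_iff.2 fun p hp => pow_ne_zero _ (hSp p hp).ne_zero
  have hD'D : D' ∣ D := by
    conv_rhs => rw [← Nat.prod_factorization_pow_eq_self hD]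
    rw [Finsupp.prod, Nat.support_factorization]
    exact Finset.prod_dvd_prod_of_subset _ _ _ (Finset.filter_subset _ _)
  have h1 : D.divisors.filter (fun d => Rough z d) ⊆ D'.divisors := by
    intro d hd
    rw [Finset.mem_filter, Nat.mem_divisors] at hd
    rw [Nat.mem_divisors]
    refine ⟨?_, hD'0⟩
    have hd0 : d ≠ 0 := fun h => hD (by rw [h] at hd; exact zero_dvd_iff.1 hd.1.1)
    conv_lhs => rw [← Nat.prod_factorization_pow_eq_self hd0]
    rw [Finsupp.prod, Nat.support_factorization]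
    have h2 : d.primeFactors ⊆ S := by
      intro p hp
      rw [hS, Finset.mem_filter]
      exact ⟨Nat.primeFactors_mono hd.1.1 hD hp,
        hd.2 p (Nat.prime_of_mem_primeFactors hp) (Nat.dvd_of_mem_primeFactors hp)⟩
    refine (Finset.prod_dvd_prod_of_dvd _ _ fun p _ => ?_).trans
      (Finset.prod_dvd_prod_of_subset _ _ (fun p => p ^ D.factorization p) h2)
    exact pow_dvd_pow _ ((Nat.factorization_le_iff_dvd hd0 hD).2 hd.1.1 p)
  have h3 : D'.divisors.card = ∏ p ∈ S, (D.factorization p + 1) := by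
    have h4 : ∀ p, D'.factorization p = if p ∈ S then D.factorization p else 0 := by
      intro p
      rw [hD', Nat.factorization_prod (fun q hq => pow_ne_zero _ (hSp q hq).ne_zero)]
      rw [Finsupp.coe_finsetSum, Finset.sum_apply]
      have h5 : ∀ q ∈ S, (q ^ D.factorization q).factorization p =
          if q = p then D.factorization p else 0 := by
        intro q hq
        rw [(hSp q hq).factorization_pow, Finsupp.single_apply]
        split_ifs with h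
        · rw [h]
        · rfl
      rw [Finset.sum_congr rfl h5, Finset.sum_ite_eq']
    have h5 : D'.primeFactors = S := by
      ext p
      constructor
      · intro hp
        by_contra hc
        have h6 := h4 p
        rw [if_neg hc] at h6
        have h7 := (Nat.prime_of_mem_primeFactors hp).factorization_pos_of_dvd hD'0
          (Nat.dvd_of_mem_primeFactors hp)
        omega
      · intro hp
        rw [Nat.mem_primeFactors]
        refine ⟨hSp p hp, ?_, hD'0⟩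
        have h6 := (Finset.mem_filter.1 hp).1
        have h7 := (hSp p hp).factorization_pos_of_dvd hD (Nat.dvd_of_mem_primeFactors h6)
        exact (dvd_pow_self p h7.ne').trans (Finset.dvd_prod_of_mem _ hp)
    rw [Nat.card_divisors hD'0, h5]
    exact Finset.prod_congr rfl fun p hp => by rw [h4 p, if_pos hp]
  have h4 : ∏ p ∈ S, (D.factorization p + 1) ≤ 2 ^ (∑ p ∈ S, D.factorization p) := by
    rw [← Finset.prod_pow_eq_pow_sum]
    exact Finset.prod_le_prod' fun p _ => Nat.lt_two_pow_self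
  have h5 : z ^ (∑ p ∈ S, D.factorization p) ≤ z ^ (100 * m) := by
    calc z ^ (∑ p ∈ S, D.factorization p) = ∏ p ∈ S, z ^ D.factorization p :=
          (Finset.prod_pow_eq_pow_sum _ _ _).symm
      _ ≤ ∏ p ∈ S, p ^ D.factorization p :=
          Finset.prod_le_prod' fun p hp => Nat.pow_le_pow_left (Finset.mem_filter.1 hp).2.le _
      _ ≤ D := Nat.le_of_dvd (Nat.pos_of_ne_zero hD) hD'D
      _ ≤ X ^ 100 := hDX
      _ ≤ (z ^ m) ^ 100 := Nat.pow_le_pow_left hX _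
      _ = z ^ (100 * m) := by rw [← pow_mul, mul_comm]
  have h6 : ∑ p ∈ S, D.factorization p ≤ 100 * m := (Nat.pow_le_pow_iff_right (by omega)).1 h5
  calc _ ≤ D'.divisors.card := Finset.card_le_card h1
    _ = _ := h3
    _ ≤ _ := h4
    _ ≤ _ := Nat.pow_le_pow_right (by norm_num) h6

end Pool.Agent.Lib.EX.MMf

namespace Pool.Agent.Lib.EX.Env

variable (e : Env)

theorem nu_le (p : ℕ) : e.nu p ≤ 2 := by
  unfold nu
  split_ifs <;> norm_num

theorem nu_two (h : 2 ∣ e.N0) : e.nu 2 ≤ 1 := by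
  unfold nu
  rw [if_pos h]

theorem MM_pair (hw : 36 < e.w) {k r : ℕ} (hk : k + 2 * r ≤ 36) :
    e.MM (k + 2 * r) * e.MM k ≤ e.MM (k + r) ^ 2 :=
  MMf.MMg_pair e.nu hw hk

theorem MM_anti (hw : 36 < e.w) {k : ℕ} (hk : k + 1 ≤ 36) : e.MM (k + 1) ≤ e.MM k :=
  MMf.MMg_anti e.nu_le hw hk

theorem MM_le_one (hw : 36 < e.w) {k : ℕ} (hk : k ≤ 36) : e.MM k ≤ 1 :=
  MMf.MMg_le_one e.nu_le hw hk

theorem MM_nonneg (hw : 36 < e.w) {k : ℕ} (hk : k ≤ 36) : 0 ≤ e.MM k :=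
  MMf.MMg_nonneg e.nu_le hw hk

theorem MM_mono (hw : 36 < e.w) {j k : ℕ} (hjk : j ≤ k) (hk : k ≤ 36) : e.MM k ≤ e.MM j := by
  induction k, hjk using Nat.le_induction with
  | base => exact le_refl _
  | succ k _ ih => exact (e.MM_anti hw hk).trans (ih (by omega))

theorem MM_low : ∃ C : ℝ, 1 ≤ C ∧ ∀ e : Env, 200 ≤ e.w → e.w < e.z → 2 ∣ e.N0 → ∀ k ≤ 36,
    1 ≤ (C * Real.log e.z) ^ 72 * e.MM k := by
  obtain ⟨C, hC, h⟩ := MMf.MMg_low
  exact ⟨C, hC, fun e hw hwz h2 k hk => h e.nu e.w e.z k e.nu_le (e.nu_two h2) hw hwz hk⟩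

theorem MM_low' : ∃ C0 : ℕ, ∀ e : Env, 200 ≤ e.w → e.w < e.z → 2 ∣ e.N0 → ∀ k ≤ 36,
    1 ≤ (C0 : ℝ) * (Real.log e.z + 1) ^ C0 * e.MM k := by
  obtain ⟨C, hC, h⟩ := MM_low
  obtain ⟨c, hc⟩ : ∃ c : ℕ, c = ⌈C ^ 72⌉₊ := ⟨_, rfl⟩
  have hc' : C ^ 72 ≤ c := by rw [hc]; exact Nat.le_ceil _
  refine ⟨max c 72, fun e hw hwz h2 k hk => ?_⟩
  have h1 := h e hw hwz h2 k hk
  have hl : 0 ≤ Real.log e.z := Real.log_natCast_nonneg e.z
  have hM := e.MM_nonneg (by omega : 36 < e.w) hk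
  refine h1.trans (mul_le_mul_of_nonneg_right ?_ hM)
  rw [mul_pow]
  apply mul_le_mul
  · exact hc'.trans (Nat.cast_le.mpr (le_max_left _ _))
  · calc Real.log e.z ^ 72 ≤ (Real.log e.z + 1) ^ 72 := pow_le_pow_left₀ hl (by linarith) _
      _ ≤ _ := pow_le_pow_right₀ (by linarith) (le_max_right _ _)
  · exact pow_nonneg hl _
  · exact Nat.cast_nonneg _

theorem MM_pos (hw : 200 ≤ e.w) (hwz : e.w < e.z) (h2 : 2 ∣ e.N0) {k : ℕ} (hk : k ≤ 36) :
    0 < e.MM k := by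
  obtain ⟨C, hC, h⟩ := MM_low
  have h1 := h e hw hwz h2 k hk
  rcases (e.MM_nonneg (by omega : 36 < e.w) hk).lt_or_eq with h3 | h3
  · exact h3
  · rw [← h3, mul_zero] at h1
    linarith

/-- the field `dvs` of `Env.Ok` -/
theorem dvs_of {m : ℕ} (hz : 2 ≤ e.z) (hX : e.X ≤ e.z ^ m) (hU : 2 ^ (100 * m) ≤ e.U) (D : ℕ)
    (hD : D ≠ 0) (hDX : D ≤ e.X ^ 100) :
    (D.divisors.filter (fun d => Rough e.z d)).card ≤ e.U :=
  (MMf.rough_divisors hz hD hDX hX).trans hU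

end Pool.Agent.Lib.EX.Env
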