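import Mathlib

/-!
# EX, module Pig: pigeonhole, one class modulo `W` in one short interval
-/

set_option autoImplicit false

open Finset

namespace Pool.Agent.Lib.EX.AX

theorem pig (X W H : ℕ) (hH : 1 ≤ H) (hHX : 2 * H ≤ X) (hW : 1 ≤ W) (S : Finset ℕ) (hS : ∀ N ∈ S, X < N ∧ N ≤ 2 * X) (M : ℕ)
    (hM : M * ((X / H + 1) * W) < S.card) :
    ∃ E : Finset ℕ, E ⊆ S ∧ ∃ Xs N0 : ℕ, N0 ∈ E ∧ M ≤ E.card ∧ (∀ N ∈ E, Xs ≤ N ∧ N ≤ Xs + H) ∧
      (∀ N ∈ E, N ≡ N0 [MOD W]) ∧ X < Xs ∧ Xs + H ≤ 2 * X := by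
  classical
  have hmaps : ∀ N ∈ S, ((N - X - 1) / H, N % W) ∈ range (X / H + 1) ×ˢ range W := by
    intro N hN
    obtain ⟨h1, h2⟩ := hS N hN
    rw [mem_product, mem_range, mem_range]
    exact ⟨Nat.lt_succ_of_le (Nat.div_le_div_right (by omega)), Nat.mod_lt _ hW⟩
  obtain ⟨y, -, hy⟩ := exists_lt_card_fiber_of_mul_lt_card_of_maps_to hmaps (n := M) (by
    rw [card_product, card_range, card_range, mul_comm]
    exact hM)
  obtain ⟨j, r⟩ := y
  obtain ⟨N0, hN0⟩ : (S.filter fun N => ((N - X - 1) / H, N % W) = (j, r)).Nonempty :=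
    card_pos.mp (lt_of_le_of_lt (Nat.zero_le _) hy)
  refine ⟨S.filter fun N => ((N - X - 1) / H, N % W) = (j, r), filter_subset _ _, min (X + 1 + j * H) (2 * X - H), N0, hN0,
    hy.le, fun N hN => ?_, fun N hN => ?_, ?_, ?_⟩
  · obtain ⟨h1, h2⟩ := mem_filter.mp hN
    obtain ⟨h3, h4⟩ := hS N h1
    have h5 : (N - X - 1) / H = j := congrArg Prod.fst h2
    have h6 : j * H ≤ N - X - 1 := by rw [← h5]; exact Nat.div_mul_le_self _ _
    have h7 : N - X - 1 < j * H + H := by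
      have h8 := Nat.lt_mul_div_succ (N - X - 1) hH
      rw [h5] at h8
      calc N - X - 1 < H * (j + 1) := h8
        _ = j * H + H := by ring
    omega
  · obtain ⟨-, h2⟩ := mem_filter.mp hN
    obtain ⟨-, h3⟩ := mem_filter.mp hN0
    exact (congrArg Prod.snd h2).trans (congrArg Prod.snd h3).symm
  · omega
  · omega

end Pool.Agent.Lib.EX.AX
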