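import Pool.Agent.Lib.MP_61161c_nt.EX.EnvNum
import Pool.Agent.Lib.MP_61161c_nt.EX.EnvDy
import Pool.Agent.Lib.MP_61161c_nt.EX.AP2
import Pool.Agent.Lib.MP_61161c_nt.EX.AP3
import Pool.Agent.Lib.MP_61161c_nt.EX.Pig
import Pool.Agent.Lib.MP_61161c_nt.EX.MMf

/-!
# EX, module EnvEx: the environment theorem
-/

set_option autoImplicit false

open Finset
open Pool.Agent.Lib.MP_45349e_nt.LS (lam)
open Pool.Agent.Lib.GT (Rough pr)

namespace Pool.Agent.Lib.EX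

open AX

/-- the number of prime factors of a number `f ≤ N^(1/1000)` -/
theorem card_pf_le {N f : ℕ} (hN : 1 ≤ N) (hf : f ∈ Ioc 1 (rtN N)) : (f.primeFactors.card : ℝ) ≤ Real.log N := by
  obtain ⟨h1, h2⟩ := mem_Ioc.mp hf
  have hNR : (1 : ℝ) ≤ N := by exact_mod_cast hN
  have h3 : (f : ℝ) ≤ (N : ℝ) ^ ((1 : ℝ) / 1000) := by
    have h4 : ((rtN N : ℕ) : ℝ) ≤ (N : ℝ) ^ ((1 : ℝ) / 1000) := Nat.floor_le (by positivity)
    have h5 : (f : ℝ) ≤ rtN N := by exact_mod_cast h2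
    exact h5.trans h4
  have hf0 : (0 : ℝ) < f := by exact_mod_cast (by omega : 0 < f)
  have h6 : 2 ^ f.primeFactors.card ≤ f := by
    calc 2 ^ f.primeFactors.card = ∏ _p ∈ f.primeFactors, 2 := by rw [prod_const]
      _ ≤ ∏ p ∈ f.primeFactors, p := prod_le_prod' fun p hp => (Nat.prime_of_mem_primeFactors hp).two_le
      _ ≤ f := Nat.le_of_dvd (by omega) (Nat.prod_primeFactors_dvd f)
  have h7 : ((2 : ℝ) ^ f.primeFactors.card) ≤ f := by exact_mod_cast h6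
  have h8 : (f.primeFactors.card : ℝ) * Real.log 2 ≤ Real.log f := by
    rw [← Real.log_pow]
    exact Real.log_le_log (by positivity) h7
  have h9 : Real.log f ≤ 1 / 1000 * Real.log N := by
    rw [← Real.log_rpow (by linarith)]
    exact Real.log_le_log hf0 h3
  have h10 : 0 ≤ Real.log N := Real.log_nonneg hNR
  have h11 := Real.log_two_gt_d9
  have h12 : (0 : ℝ) ≤ f.primeFactors.card := Nat.cast_nonneg _
  nlinarith

/-- the environment theorem at one scale -/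
theorem core_all (ε om del : ℝ) (hε : 0 < ε) (hε1 : ε ≤ 1) (hom : 0 < om) (hom1 : om ≤ ε / 10 ^ 7) (hdel : 0 < del) (hdel1 : del ≤ 1 / 100) :
    ∃ cs : ℝ, 0 < cs ∧ cs ≤ 1 ∧ ∀ c0 : ℝ, 0 < c0 → c0 ≤ cs → Core ε om del c0 := by
  classical
  obtain ⟨C0, hMM⟩ := Env.MM_low'
  obtain ⟨A, K2, N1, hP2⟩ := p2_of 24 (C0 + 2)
  obtain ⟨K1, hK1, hP1⟩ := p1_of 36
  obtain ⟨K3, hK3, hP3⟩ := p3_of
  obtain ⟨C1, N2, hbf⟩ := bf_card A
  obtain ⟨b, hb1, hbK⟩ : ∃ b : ℕ, 1 ≤ b ∧ ((K1 : ℝ) + K2 + K3) * (1 / 2) ^ b ≤ del / 16 := by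
    have hK : (0 : ℝ) < (K1 : ℝ) + K2 + K3 := by
      have : (1 : ℝ) ≤ K1 := by exact_mod_cast hK1
      positivity
    obtain ⟨n, hn⟩ := exists_pow_lt_of_lt_one (show 0 < del / 16 / ((K1 : ℝ) + K2 + K3) by positivity) (show (1 / 2 : ℝ) < 1 by norm_num)
    refine ⟨n + 1, by omega, ?_⟩
    rw [lt_div_iff₀ hK] at hn
    rw [pow_succ]
    nlinarith [show (0 : ℝ) ≤ (1 / 2) ^ n by positivity]
  have hbR : (1 : ℝ) ≤ b := by exact_mod_cast hb1
  have hom2 : om ≤ 1 / 10 ^ 7 := hom1.trans (div_le_div_of_nonneg_right hε1 (by norm_num))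
  refine ⟨om / (200 * b), by positivity, ?_, fun c0 hc hcs => ?_⟩
  · rw [div_le_one (by positivity)]
    linarith
  have hcb : c0 * (200 * b) ≤ om := by rwa [le_div_iff₀ (by positivity)] at hcs
  have hm : 2 ≤ c0 * (⌈2 / c0⌉₊ : ℕ) := by
    have h1 : 2 / c0 ≤ (⌈2 / c0⌉₊ : ℕ) := Nat.le_ceil _
    rw [div_le_iff₀ hc] at h1
    linarith
  obtain ⟨m, hmd⟩ : ∃ m : ℕ, m = ⌈2 / c0⌉₊ := ⟨_, rfl⟩
  rw [← hmd] at hm
  obtain ⟨X2, hX2⟩ := num_ev ε om del c0 b m C0 C1 (C0 + C1 + 60) hε hε1 hom hom1 hdel hdel1 hb1 hc hcb hm (by omega) (by omega) (by omega)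
  refine ⟨max X2 (max N1 N2), fun X hX s t hs ht S hS hcard hms => ?_⟩
  have H := hX2 X (by omega)
  have hXN1 : N1 ≤ X := by omega
  have hXN2 : N2 ≤ X := by omega
  clear hX2 hX
  obtain ⟨Y, hY⟩ : ∃ Y : ℕ, Y = ⌊(X : ℝ) ^ om⌋₊ := ⟨_, rfl⟩
  obtain ⟨z, hz⟩ : ∃ z : ℕ, z = ⌊(X : ℝ) ^ c0⌋₊ := ⟨_, rfl⟩
  obtain ⟨w, hw⟩ : ∃ w : ℕ, w = ⌊om / 2 * Real.log X⌋₊ := ⟨_, rfl⟩
  obtain ⟨U, hU⟩ : ∃ U : ℕ, U = ⌈Real.log X ^ (C0 + C1 + 60)⌉₊ := ⟨_, rfl⟩
  rw [← hY, ← hz, ← hw, ← hU] at H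
  rw [← hz] at hms
  rw [← hY, ← hz]
  have hXbig := H.n0
  have hX1 : 1 ≤ X := by omega
  have hXR : (1 : ℝ) ≤ X := by exact_mod_cast hX1
  have hx0 : 0 ≤ Real.log X := Real.log_nonneg hXR
  -- the prime
  obtain ⟨Np, hNp, hNp1, hNp2⟩ := Nat.exists_prime_lt_and_le_two_mul (2 * X) (by omega)
  have hlogNp : Real.log X ≤ Real.log Np := Real.log_le_log (by linarith) (by exact_mod_cast (by omega : X ≤ Np))
  have hlogNp2 : Real.log Np ≤ 2 * Real.log X := by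
    have h1 : Real.log Np ≤ Real.log (8 * X) := Real.log_le_log (by exact_mod_cast hNp.pos) (by exact_mod_cast (by omega : Np ≤ 8 * X))
    rw [Real.log_mul (by norm_num) (by linarith)] at h1
    linarith [H.n14]
  -- the bad primes
  obtain ⟨Bad, hBad⟩ : ∃ Bad : Finset ℕ, Bad = (Bf Np A).biUnion fun f => f.primeFactors.filter (fun p => z < p) := ⟨_, rfl⟩
  have hBmem : ∀ p, p ∈ Bad ↔ ∃ f ∈ Bf Np A, (p.Prime ∧ p ∣ f ∧ f ≠ 0) ∧ z < p := by
    intro p
    rw [hBad, mem_biUnion]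
    simp only [mem_filter, Nat.mem_primeFactors]
  have hBcard : Bad.card ≤ U := by
    have h1 : (Bad.card : ℝ) ≤ U := by
      have h2 : (Bad.card : ℝ) ≤ ∑ f ∈ Bf Np A, (f.primeFactors.card : ℝ) := by
        rw [hBad]
        have h3 := (card_biUnion_le (s := Bf Np A) (t := fun f => f.primeFactors.filter (fun p => z < p))).trans
          (sum_le_sum fun f _ => card_le_card (filter_subset (fun p => z < p) f.primeFactors))
        exact_mod_cast h3
      have h4 : ∑ f ∈ Bf Np A, (f.primeFactors.card : ℝ) ≤ ∑ _f ∈ Bf Np A, Real.log Np := by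
        refine sum_le_sum fun f hf => card_pf_le hNp.one_lt.le ?_
        unfold Bf at hf
        exact (mem_filter.mp hf).1
      rw [sum_const, nsmul_eq_mul] at h4
      have h5 := hbf Np (by omega)
      have h6 : 0 ≤ Real.log Np := hx0.trans hlogNp
      calc (Bad.card : ℝ) ≤ ((Bf Np A).card : ℝ) * Real.log Np := h2.trans h4
        _ ≤ Real.log Np ^ C1 * Real.log Np := mul_le_mul_of_nonneg_right h5 h6
        _ = Real.log Np ^ (C1 + 1) := (pow_succ _ _).symm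
        _ ≤ (2 * Real.log X) ^ (C1 + 1) := pow_le_pow_left₀ h6 hlogNp2 _
        _ ≤ U := H.n13
    exact_mod_cast h1
  -- pigeonhole
  have hXH : X / (X / 10 ^ 6) + 1 ≤ 2 * 10 ^ 6 := by
    have h1 : X < 10 ^ 6 * (X / 10 ^ 6 + 1) := by omega
    have h2 : 2 ≤ X / 10 ^ 6 := by omega
    have h3 : X / (X / 10 ^ 6) < 2 * 10 ^ 6 := by
      rw [Nat.div_lt_iff_lt_mul (by omega)]
      omega
    omega
  have hM : Y ^ 60 * ((X / (X / 10 ^ 6) + 1) * primorial w) < S.card := by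
    have h1 : Y ^ 60 * ((X / (X / 10 ^ 6) + 1) * primorial w) ≤ Y ^ 60 * (2 * 10 ^ 6 * Y) :=
      Nat.mul_le_mul_left _ (Nat.mul_le_mul hXH H.n3)
    have h2 : ((Y ^ 60 * (2 * 10 ^ 6 * Y) : ℕ) : ℝ) < S.card := by
      refine lt_of_lt_of_le ?_ hcard
      refine lt_of_le_of_lt ?_ H.n21
      push_cast
      have h3 : (Y : ℝ) ^ 61 = (Y : ℝ) ^ 60 * Y := pow_succ _ _
      rw [h3]
      have h4 : (0 : ℝ) ≤ (Y : ℝ) ^ 60 * Y := mul_nonneg (pow_nonneg (Nat.cast_nonneg Y) 60) (Nat.cast_nonneg Y)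
      linarith
    have h3 : Y ^ 60 * (2 * 10 ^ 6 * Y) < S.card := by exact_mod_cast h2
    omega
  obtain ⟨E, hES, Xs, N0, hN0, hEc, hEH, hEW, hXs0, hXs1⟩ := pig X (primorial w) (X / 10 ^ 6) (by omega) (by omega)
    (primorial_pos w) S (fun N hN => ⟨(hS N hN).1, (hS N hN).2.1⟩) (Y ^ 60) hM
  have hN0e : 2 ∣ N0 := (hS N0 (hES hN0)).2.2.two_dvd
  obtain ⟨e, he⟩ : ∃ e : Env, e = ⟨X, Y, z, w, U, N0, Xs, X / 10 ^ 6, E, Bad, -(s * t), del⟩ := ⟨_, rfl⟩
  have eX : e.X = X := by rw [he]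
  have eY : e.Y = Y := by rw [he]
  have ez : e.z = z := by rw [he]
  have ew : e.w = w := by rw [he]
  have eU : e.U = U := by rw [he]
  have eN0 : e.N0 = N0 := by rw [he]
  have eXs : e.Xs = Xs := by rw [he]
  have eH : e.H = X / 10 ^ 6 := by rw [he]
  have eE : e.E = E := by rw [he]
  have eB : e.Bad = Bad := by rw [he]
  have ek : e.kap = -(s * t) := by rw [he]
  have eeta : e.eta = del := by rw [he]
  have eW : e.W = primorial w := by rw [he]; rfl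
  clear he
  have hw200 := H.n1
  have hwz := H.n2
  have hU0 : (0 : ℝ) < U := by
    have h1 := H.n9
    by_contra h2
    have h3 : (U : ℝ) = 0 := le_antisymm (by linarith) (Nat.cast_nonneg U)
    rw [h3] at h1
    norm_num at h1
  have hMk : ∀ k ≤ 36, 2 ≤ (U : ℝ) * e.MM k ∧ 64 * 10 ^ 9 ≤ del * e.MM k * Real.log X ^ (C0 + 2) := by
    intro k hk
    have h1 := hMM e (by rw [ew]; exact hw200) (by rw [ew, ez]; exact hwz) (by rw [eN0]; exact hN0e) k hk
    rw [ez] at h1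
    exact H.n8 _ h1
  have hMpos : ∀ k ≤ 36, 0 < e.MM k := fun k hk => e.MM_pos (by rw [ew]; exact hw200) (by rw [ew, ez]; exact hwz) (by rw [eN0]; exact hN0e) hk
  have hzR : (1 : ℝ) ≤ z := by exact_mod_cast (by omega : 1 ≤ z)
  have hz26 : ∀ k ≤ 36, (e.z : ℝ) ^ (26 * b) + 1 ≤ del / 16 * (e.Y * e.MM k) := by
    intro k hk
    rw [ez, eY]
    have h1 := (hMk k hk).1
    have h2 : (1 : ℝ) ≤ (z : ℝ) ^ (26 * b) := one_le_pow₀ hzR
    have h3 := H.n16
    have h4 : 0 < (z : ℝ) ^ (26 * b) := by linarith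
    -- 16 (z^26b + 1) U ≤ 32 z^26b U ≤ del Y ≤ del Y U MM
    have h5 : 16 * ((z : ℝ) ^ (26 * b) + 1) * U ≤ del * Y * (U * e.MM k) := by
      have hdY : 0 ≤ del * Y := by positivity
      have h6 : del * Y * 1 ≤ del * Y * (U * e.MM k) := mul_le_mul_of_nonneg_left (by linarith) hdY
      have h7 : 16 * ((z : ℝ) ^ (26 * b) + 1) * U ≤ 32 * ((z : ℝ) ^ (26 * b) * U) := by
        have : U * 1 ≤ U * (z : ℝ) ^ (26 * b) := mul_le_mul_of_nonneg_left h2 hU0.le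
        linarith
      linarith
    have h8 : (16 * ((z : ℝ) ^ (26 * b) + 1)) * U ≤ (del * (Y * e.MM k)) * U := by
      calc (16 * ((z : ℝ) ^ (26 * b) + 1)) * U ≤ del * Y * (U * e.MM k) := h5
        _ = (del * (Y * e.MM k)) * U := by ring
    have h9 := le_of_mul_le_mul_right h8 hU0
    linarith
  have hb2 : (0 : ℝ) ≤ (1 / 2) ^ b := by positivity
  have hbK1 : (K1 : ℝ) * (1 / 2) ^ b ≤ del / 16 := by
    refine le_trans ?_ hbK
    nlinarith [mul_nonneg (Nat.cast_nonneg (α := ℝ) K2) hb2, mul_nonneg (Nat.cast_nonneg (α := ℝ) K3) hb2]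
  have hbK2 : (K2 : ℝ) * (1 / 2) ^ b ≤ del / 16 := by
    refine le_trans ?_ hbK
    nlinarith [mul_nonneg (Nat.cast_nonneg (α := ℝ) K1) hb2, mul_nonneg (Nat.cast_nonneg (α := ℝ) K3) hb2]
  have hbK3 : (K3 : ℝ) * (1 / 2) ^ b ≤ del / 16 := by
    refine le_trans ?_ hbK
    nlinarith [mul_nonneg (Nat.cast_nonneg (α := ℝ) K1) hb2, mul_nonneg (Nat.cast_nonneg (α := ℝ) K2) hb2]
  have hYM : ∀ k ≤ 36, 0 ≤ e.Y * e.MM k := fun k hk => mul_nonneg (Nat.cast_nonneg _) (hMpos k hk).le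
  have hYX : Y ≤ X := by
    have h1 := H.n5
    have h2 : Y ^ 1 ≤ Y ^ 10000 := Nat.pow_le_pow_right (by have := H.n0'; omega) (by norm_num)
    rw [pow_one] at h2
    exact h2.trans h1
  have hlg := H.n15
  -- P1, P2, P3
  have p1 : e.P1 36 := by
    refine hP1 b hb1 e (by rw [eeta]; exact hdel) (by rw [eeta]; linarith) (by rw [eeta]; linarith) (by rw [ew]; omega) (by rw [ew]; omega)
      (by rw [ew, ez]; omega) (by rw [eN0]; exact hN0e) (by rw [eX]; exact hX1) ?_ ?_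
    · rw [eX, eeta, ew]
      push_cast
      exact hlg
    · intro k hk
      rw [eeta]
      have h1 := hz26 k hk
      have h2 := mul_nonneg hdel.le (hYM k hk)
      linarith
  have p3 : e.P3 := by
    refine hP3 b hb1 e (by linarith) (by rw [ew]; omega) (by rw [ew, ez]; omega) (by rw [eN0]; exact hN0e) ?_ ?_
    · have h1 := hz26 2 (by norm_num)
      have h2 := hYM 2 (by norm_num)
      nlinarith
    · rw [eU]
      exact (hMk 2 (by norm_num)).1
  have htau : ∀ n : ℕ, n ≠ 0 → n ≤ e.Y ^ 100 → Rough e.z n → (n.divisors.card : ℝ) ≤ Real.log Np := by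
    intro n hn hnY hnr
    have h1 : n ≤ X ^ 100 := hnY.trans (by rw [eY]; exact Nat.pow_le_pow_left hYX 100)
    have h2 := MMf.rough_divisors (z := z) (D := n) (X := X) (m := m) (by omega) hn h1 H.n10
    have h3 : n.divisors.filter (fun d => Rough z d) = n.divisors := by
      refine filter_true_of_mem fun d hd p hp hpd => ?_
      rw [ez] at hnr
      exact hnr p hp (hpd.trans (Nat.dvd_of_mem_divisors hd))
    rw [h3] at h2
    have h4 : (n.divisors.card : ℝ) ≤ ((2 ^ (100 * m) : ℕ) : ℝ) := by exact_mod_cast h2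
    exact h4.trans (H.n12.trans hlogNp)
  have hmis : ∀ N ∈ E, ((Mis N z s t).card : ℝ) ≤ 4 * (X : ℝ) ^ (1 - ε) := by
    intro N hN
    have h1 := hms N (hES hN)
    have h2 : Mis N z s t ⊆ Ms N z s t := by
      intro a ha
      unfold Mis at ha
      unfold Ms
      rw [mem_filter, mem_Icc] at ha
      rw [mem_filter, mem_range]
      exact ⟨by omega, ha.2⟩
    have h3 : ((Mis N z s t).card : ℝ) ≤ ((Ms N z s t).card : ℝ) := by exact_mod_cast card_le_card h2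
    have h4 : (N : ℝ) ^ (1 - ε) ≤ 2 * (X : ℝ) ^ (1 - ε) := by
      have h5 : (N : ℝ) ≤ 2 * X := by exact_mod_cast (hS N (hES hN)).2.1
      calc (N : ℝ) ^ (1 - ε) ≤ (2 * (X : ℝ)) ^ (1 - ε) := Real.rpow_le_rpow (Nat.cast_nonneg _) h5 (by linarith)
        _ = 2 ^ (1 - ε) * (X : ℝ) ^ (1 - ε) := Real.mul_rpow (by norm_num) (Nat.cast_nonneg _)
        _ ≤ 2 * (X : ℝ) ^ (1 - ε) := by
          refine mul_le_mul_of_nonneg_right ?_ (by positivity)
          calc (2 : ℝ) ^ (1 - ε) ≤ 2 ^ (1 : ℝ) := Real.rpow_le_rpow_of_exponent_le (by norm_num) (by linarith)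
            _ = 2 := Real.rpow_one _
    linarith
  have p2 : e.P2 24 := by
    refine hP2 e b Np s t (4 * (X : ℝ) ^ (1 - ε)) (by omega) ?_
    refine { b1 := hb1, eta0 := by rw [eeta]; exact hdel, eta1 := by rw [eeta]; linarith, Kb := by rw [eeta]; exact hbK2,
             w2 := by rw [ew]; omega, wk := by rw [ew]; omega, wz := by rw [ew, ez]; omega, N0e := by rw [eN0]; exact hN0e,
             X1 := by rw [eX]; exact hX1, lg := ?_, z26 := ?_, prm := hNp, XNp := by rw [eX]; exact hNp1, NpX := by rw [eX]; omega,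
             zX := by rw [ez, eX]; exact H.n17, D := by rw [eY, ez, eX]; exact H.n18, YX := by rw [eY, eX]; exact H.n19,
             Y1 := by rw [eY]; exact H.n0', bf := ?_, tau := htau, big := ?_, kap := ek, s1 := hs, t1 := ht, E2X := ?_, miss := ?_, mis0 := ?_ }
    · rw [eX, eeta, ew]
      refine le_trans ?_ hlg
      push_cast
      have h1 : 0 ≤ Real.log 2 + 80 * Real.log X := by
        have := Real.log_two_gt_d9
        linarith
      nlinarith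
    · intro k hk
      rw [eeta]
      exact hz26 k (by omega)
    · intro f hf p hp hpf hzp
      rw [eB, hBmem]
      have hf0 : f ≠ 0 := by
        have : f ∈ Ioc 1 (rtN Np) := by
          unfold Bf at hf
          exact (mem_filter.mp hf).1
        have := (mem_Ioc.mp this).1
        omega
      exact ⟨f, hf, ⟨hp, hpf, hf0⟩, by rw [ez] at hzp; exact hzp⟩
    · intro k hk
      rw [eeta]
      have h1 := (hMk k (by omega)).2
      have h2 : Real.log X ^ (C0 + 2) ≤ Real.log Np ^ (C0 + 2) := pow_le_pow_left₀ hx0 hlogNp _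
      have h3 : 0 ≤ del * e.MM k := mul_nonneg hdel.le (hMpos k (by omega)).le
      exact h1.trans (mul_le_mul_of_nonneg_left h2 h3)
    · intro N hN
      rw [eE] at hN
      rw [eX]
      exact (hS N (hES hN)).2.1
    · intro N hN
      rw [eE] at hN
      rw [ez]
      exact hmis N hN
    · intro k hk
      rw [eeta, eX, eY]
      have h1 := (hMk k (by omega)).1
      have h2 := H.n20
      have hdX : 0 ≤ del * X := by positivity
      have h3 : (8 * 10 ^ 9 * (Y : ℝ) ^ 100 * (4 * (X : ℝ) ^ (1 - ε))) * U ≤ (del * X * e.MM k) * U := by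
        calc (8 * 10 ^ 9 * (Y : ℝ) ^ 100 * (4 * (X : ℝ) ^ (1 - ε))) * U = 32 * 10 ^ 9 * ((Y : ℝ) ^ 100 * (X : ℝ) ^ (1 - ε) * U) := by ring
          _ ≤ del * X := h2
          _ ≤ del * X * (U * e.MM k) := le_mul_of_one_le_right hdX (by linarith)
          _ = (del * X * e.MM k) * U := by ring
      exact le_of_mul_le_mul_right h3 hU0
  refine ⟨e, ?_, p1, p2, p3, eeta, eX, eY, ez, ek, by rw [eE]; exact hES⟩
  refine { kap := ?_, eta0 := by rw [eeta]; exact hdel, eta1 := by rw [eeta]; exact hdel1, etaU := by rw [eeta, eU]; exact H.n9,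
           w := by rw [ew]; exact hw200, wz := by rw [ew, ez]; exact hwz, W := by rw [eW, eY]; exact H.n3, zY := by rw [ez, eY]; exact H.n4,
           YX := by rw [eY, eX]; exact H.n5, Uz := by rw [eU, ez]; exact H.n6, logU := by rw [eX, eU]; exact H.n7, MM0 := ?_, MMr := ?_,
           dvs := ?_, bad := ?_, E0 := by rw [eY, eE]; exact hEc, EH := ?_, EW := ?_, N0e := by rw [eN0]; exact hN0e,
           H1 := by rw [eH]; omega, HX := by rw [eH, eX]; exact Nat.mul_div_le X (10 ^ 6), Xs0 := by rw [eX, eXs]; exact hXs0, Xs1 := by rw [eXs, eH, eX]; exact hXs1 }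
  · rw [ek]
    rcases hs with h | h <;> rcases ht with h' | h' <;> rw [h, h'] <;> norm_num
  · intro k hk
    rw [eU]
    have h1 := (hMk k hk).1
    rw [inv_le_iff_one_le_mul₀' hU0]
    linarith
  · intro k r hkr
    rw [eeta]
    refine (e.MM_pair (by rw [ew]; omega) hkr).trans ?_
    have h1 : 0 ≤ del * e.MM (k + r) ^ 2 := by positivity
    linarith
  · exact Env.dvs_of e (m := m) (by rw [ez]; omega) (by rw [eX, ez]; exact H.n10) (by rw [eU]; exact H.n11)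
  · rw [eB, eU, ez]
    refine ⟨hBcard, fun p hp => ?_⟩
    rw [hBmem] at hp
    obtain ⟨f, -, ⟨h1, -, -⟩, h2⟩ := hp
    exact ⟨h1, h2⟩
  · intro N hN
    rw [eE] at hN
    rw [eXs, eH]
    exact hEH N hN
  · intro N hN
    rw [eE] at hN
    rw [eN0, eW]
    exact hEW N hN

/-- **ENVIRONMENT THEOREM** -/
theorem env_ex (ε om del : ℝ) (hε : 0 < ε) (hε1 : ε ≤ 1) (hom : 0 < om) (hom1 : om ≤ ε / 10 ^ 7) (hdel : 0 < del) (hdel1 : del ≤ 1 / 100) :
    ∃ cs : ℝ, 0 < cs ∧ ∀ c0 : ℝ, 0 < c0 → c0 ≤ cs → ∃ C : ℕ, 0 < C ∧ ∀ X1 : ℕ, ∃ X0 : ℕ, ∀ X : ℕ, X0 ≤ X → ∀ i j : ℕ, i < 2 → j < 2 →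
      (X : ℝ) ^ ε / 4 ≤ (((Icc 1 X).filter fun N => Even N ∧ ((Rp C N i j).card : ℝ) < (N : ℝ) ^ (1 - ε)).card : ℝ) →
      ∃ e : Env, e.Ok ∧ e.P1 36 ∧ e.P2 24 ∧ e.P3 ∧ e.eta = del ∧ X1 ≤ e.X ∧ e.Y = ⌊(e.X : ℝ) ^ om⌋₊ ∧
        ((2 * e.X : ℕ) : ℝ) ^ (c0 / 2) ≤ e.z ∧ (e.z : ℝ) ≤ (e.X : ℝ) ^ c0 ∧ e.kap = -((-1) ^ i * (-1) ^ j) ∧
        (∀ N ∈ e.E, Even N) ∧
        ∀ N ∈ e.E, (((range N).filter fun a => Rough e.z a ∧ Rough e.z (N - a) ∧ lam a = (-1) ^ i ∧ lam (N - a) = (-1) ^ j).card : ℝ) <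
          2 * (N : ℝ) ^ (1 - ε) := by
  obtain ⟨cs, h1, h2, h3⟩ := core_all ε om del hε hε1 hom hom1 hdel hdel1
  exact ⟨cs, h1, fun c0 hc hcs => env_dy ε om del c0 hε hε1 hc (hcs.trans h2) (h3 c0 hc hcs)⟩

end Pool.Agent.Lib.EX
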