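import Pool.Agent.Lib.MP_61161c_nt.EX.EnvDefs

/-!
# EX, module EnvNum: the numerical facts of the environment
-/

set_option autoImplicit false

open Finset

namespace Pool.Agent.Lib.EX.AX

/-- the numerical facts, `x = log X` -/
structure Num (ε om del c0 : ℝ) (b m C0 C1 CU X Y z w U : ℕ) : Prop where
  n0 : 2 * 10 ^ 6 ≤ X
  n0' : 1 ≤ Y
  n1 : 200 ≤ w
  n2 : w < z
  n3 : primorial w ≤ Y
  n4 : z ^ 2 ≤ Y
  n5 : Y ^ 10000 ≤ X
  n6 : U ^ 60 ≤ z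
  n7 : Real.log X ^ 50 ≤ U
  n8 : ∀ M : ℝ, 1 ≤ C0 * (Real.log z + 1) ^ C0 * M → 2 ≤ U * M ∧ 64 * 10 ^ 9 ≤ del * M * Real.log X ^ (C0 + 2)
  n9 : 1 ≤ del * U
  n10 : X ≤ z ^ m
  n11 : 2 ^ (100 * m) ≤ U
  n12 : ((2 ^ (100 * m) : ℕ) : ℝ) ≤ Real.log X
  n13 : (2 * Real.log X) ^ (C1 + 1) ≤ U
  n14 : Real.log 8 ≤ Real.log X
  n15 : 4 * (36 : ℝ) ^ 3 * (Real.log 2 + 80 * Real.log X) ≤ del / 8 * (w * Real.log w)
  n16 : 32 * ((z : ℝ) ^ (26 * b) * U) ≤ del * Y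
  n17 : z ≤ X
  n18 : (Y ^ 100 * z ^ (12 * b)) ^ 1000 ≤ X
  n19 : 10 ^ 9 * Y ^ 101 ≤ X
  n20 : 32 * 10 ^ 9 * ((Y : ℝ) ^ 100 * (X : ℝ) ^ (1 - ε) * U) ≤ del * X
  n21 : (2 * 10 ^ 6 + 1) * (Y : ℝ) ^ 61 < (X : ℝ) ^ (ε / 2)

theorem ev_log_pow (A : ℕ) (δ : ℝ) (hδ : 0 < δ) (C : ℝ) (hC : 0 < C) :
    ∀ᶠ N : ℕ in Filter.atTop, C * (Real.log N) ^ A ≤ (N : ℝ) ^ δ := by
  have h1 := isLittleO_log_rpow_rpow_atTop (A : ℝ) hδ
  have h2 := h1.bound (show (0 : ℝ) < 1 / C by positivity)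
  have h3 := tendsto_natCast_atTop_atTop (R := ℝ) |>.eventually h2
  filter_upwards [h3, Filter.eventually_ge_atTop 1] with N h4 hN
  have hN1 : (1 : ℝ) ≤ N := by exact_mod_cast hN
  have h5 : 0 ≤ Real.log N := Real.log_nonneg hN1
  rw [Real.rpow_natCast, Real.norm_of_nonneg (pow_nonneg h5 _),
    Real.norm_of_nonneg (Real.rpow_nonneg (by linarith) _)] at h4
  calc C * (Real.log N) ^ A ≤ C * (1 / C * (N : ℝ) ^ δ) := mul_le_mul_of_nonneg_left h4 hC.le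
    _ = _ := by field_simp

theorem ev_log_ge (T : ℝ) : ∀ᶠ N : ℕ in Filter.atTop, T ≤ Real.log N :=
  (Real.tendsto_log_atTop.comp tendsto_natCast_atTop_atTop).eventually_ge_atTop T

theorem ev_pow_ge (δ : ℝ) (hδ : 0 < δ) (T : ℝ) : ∀ᶠ N : ℕ in Filter.atTop, T ≤ (N : ℝ) ^ δ :=
  ((tendsto_rpow_atTop hδ).comp tendsto_natCast_atTop_atTop).eventually_ge_atTop T

theorem num_ev (ε om del c0 : ℝ) (b m C0 C1 CU : ℕ) (hε : 0 < ε) (hε1 : ε ≤ 1) (hom : 0 < om) (hom1 : om ≤ ε / 10 ^ 7)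
    (hdel : 0 < del) (hdel1 : del ≤ 1 / 100) (hb : 1 ≤ b) (hc : 0 < c0) (hcb : c0 * (200 * b) ≤ om) (hm : 2 ≤ c0 * m)
    (hCU : 50 ≤ CU) (hCU1 : C1 + 2 ≤ CU) (hCU0 : C0 + 2 ≤ CU) :
    ∃ X0 : ℕ, ∀ X : ℕ, X0 ≤ X → Num ε om del c0 b m C0 C1 CU X ⌊(X : ℝ) ^ om⌋₊ ⌊(X : ℝ) ^ c0⌋₊ ⌊om / 2 * Real.log X⌋₊ ⌈Real.log X ^ CU⌉₊ := by
  obtain ⟨T1, hT1⟩ : ∃ T1 : ℝ, T1 = 4 * 36 ^ 3 * 81 * 32 / (om * del) := ⟨_, rfl⟩
  have a1 := ev_log_ge (max 3 (400 / om))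
  have a2 := ev_log_ge (max ((C0 : ℝ) * 2 ^ C0) (64 * 10 ^ 9 / del))
  have a3 := ev_log_ge (max ((2 : ℝ) ^ (100 * m)) ((2 : ℝ) ^ (C1 + 1)))
  have a4 := ev_log_ge (4 * Real.exp T1 / om)
  have a5 := ev_log_pow (60 * CU) (c0 / 2) (by linarith) (2 ^ 60) (by norm_num)
  have a6 := ev_pow_ge (om / 4) (by linarith) (64 / del)
  have a7 := ev_pow_ge (ε / 4) (by linarith) (max (32 * 10 ^ 9 / del) (2 * 10 ^ 6 + 2))
  have a8 := ev_pow_ge (1 / 2) (by norm_num) (10 ^ 9)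
  have a9 := Filter.eventually_ge_atTop (2 * 10 ^ 6 : ℕ)
  obtain ⟨X0, hX0⟩ := Filter.eventually_atTop.mp (((a1.and a2).and (a3.and a4)).and ((a5.and a6).and ((a7.and a8).and a9)))
  refine ⟨X0, fun X hX => ?_⟩
  obtain ⟨⟨⟨b1, b2⟩, b3, b4⟩, ⟨b5, b6⟩, ⟨b7, b8⟩, b9⟩ := hX0 X hX
  clear a1 a2 a3 a4 a5 a6 a7 a8 a9 hX0 hX
  have c1 := (le_max_left _ _).trans b1
  have c2 := (le_max_right _ _).trans b1
  have c3 := (le_max_left _ _).trans b2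
  have c4 := (le_max_right _ _).trans b2
  have c5 := (le_max_left _ _).trans b3
  have c6 := (le_max_right _ _).trans b3
  have c7 := (le_max_left _ _).trans b7
  have c8 := (le_max_right _ _).trans b7
  clear b1 b2 b3 b7
  have hXR : (1 : ℝ) ≤ X := by exact_mod_cast (show 1 ≤ X by omega)
  have hX0 : (0 : ℝ) < X := by linarith
  obtain ⟨x, hx⟩ : ∃ x : ℝ, x = Real.log X := ⟨_, rfl⟩
  rw [← hx] at c1 c2 c3 c4 c5 c6 b4 b5
  rw [← hx]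
  have hx0 : 0 < x := by linarith
  have hx1 : 1 ≤ x := by linarith
  -- powers
  have P0 : ∀ δ : ℝ, 0 ≤ δ → 1 ≤ (X : ℝ) ^ δ := fun δ hδ => Real.one_le_rpow hXR hδ
  have Pm : ∀ δ δ' : ℝ, δ ≤ δ' → (X : ℝ) ^ δ ≤ (X : ℝ) ^ δ' := fun δ δ' h => Real.rpow_le_rpow_of_exponent_le hXR h
  have Pa : ∀ δ δ' : ℝ, (X : ℝ) ^ δ * (X : ℝ) ^ δ' = (X : ℝ) ^ (δ + δ') := fun δ δ' => (Real.rpow_add hX0 _ _).symm
  have Pn : ∀ (δ : ℝ) (n : ℕ), ((X : ℝ) ^ δ) ^ n = (X : ℝ) ^ (δ * n) := fun δ n => by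
    rw [← Real.rpow_natCast, ← Real.rpow_mul hX0.le]
  have P1 : (X : ℝ) ^ (1 : ℝ) = X := Real.rpow_one _
  have hb' : (1 : ℝ) ≤ b := by exact_mod_cast hb
  have hc1 : c0 * 200 ≤ om := by
    refine le_trans ?_ hcb
    nlinarith
  have hom2 : om ≤ 1 / 10 ^ 7 := hom1.trans (div_le_div_of_nonneg_right hε1 (by norm_num))
  -- Y
  obtain ⟨Y, hY⟩ : ∃ Y : ℕ, Y = ⌊(X : ℝ) ^ om⌋₊ := ⟨_, rfl⟩
  rw [← hY]
  have hY1 : (Y : ℝ) ≤ (X : ℝ) ^ om := by rw [hY]; exact Nat.floor_le (by positivity)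
  have hY2 : (X : ℝ) ^ om < Y + 1 := by rw [hY]; exact Nat.lt_floor_add_one _
  have hd1 : (64 : ℝ) ≤ 64 / del := by rw [le_div_iff₀ hdel]; linarith
  have hq4 : 64 ≤ (X : ℝ) ^ (om / 4) := hd1.trans b6
  have hY3 : (X : ℝ) ^ om / 2 ≤ Y := by
    have := hq4.trans (Pm (om / 4) om (by linarith))
    linarith
  have hYn : ∀ n : ℕ, (Y : ℝ) ^ n ≤ (X : ℝ) ^ (om * n) := fun n => by
    rw [← Pn]
    exact pow_le_pow_left₀ (Nat.cast_nonneg _) hY1 n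
  -- z
  obtain ⟨z, hz⟩ : ∃ z : ℕ, z = ⌊(X : ℝ) ^ c0⌋₊ := ⟨_, rfl⟩
  rw [← hz]
  have hz1 : (z : ℝ) ≤ (X : ℝ) ^ c0 := by rw [hz]; exact Nat.floor_le (by positivity)
  have hz2 : (X : ℝ) ^ c0 < z + 1 := by rw [hz]; exact Nat.lt_floor_add_one _
  have hxCU : 1 ≤ x ^ (60 * CU) := one_le_pow₀ hx1
  have hh2 : 2 ≤ (X : ℝ) ^ (c0 / 2) := by
    refine le_trans ?_ b5
    linarith
  have hz3 : (X : ℝ) ^ (c0 / 2) ≤ z := by
    have h1 : (X : ℝ) ^ c0 = (X : ℝ) ^ (c0 / 2) * (X : ℝ) ^ (c0 / 2) := by rw [Pa]; congr 1; ring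
    nlinarith
  have hzn : ∀ n : ℕ, (z : ℝ) ^ n ≤ (X : ℝ) ^ (c0 * n) := fun n => by
    rw [← Pn]
    exact pow_le_pow_left₀ (Nat.cast_nonneg _) hz1 n
  have hz0 : (0 : ℝ) < z := by linarith
  -- w
  obtain ⟨w, hw⟩ : ∃ w : ℕ, w = ⌊om / 2 * x⌋₊ := ⟨_, rfl⟩
  rw [← hw]
  have hwx : 0 ≤ om / 2 * x := by positivity
  have hw1 : (w : ℝ) ≤ om / 2 * x := by rw [hw]; exact Nat.floor_le hwx
  have hw2 : om / 2 * x < w + 1 := by rw [hw]; exact Nat.lt_floor_add_one _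
  have hox : 400 ≤ om * x := by
    rw [div_le_iff₀ hom] at c2
    linarith
  have hw3 : 200 ≤ w := by
    rw [hw]
    refine Nat.le_floor ?_
    push_cast
    linarith
  have hw4 : om / 4 * x ≤ w := by linarith
  -- U
  obtain ⟨U, hU⟩ : ∃ U : ℕ, U = ⌈x ^ CU⌉₊ := ⟨_, rfl⟩
  rw [← hU]
  have hU1 : x ^ CU ≤ U := by rw [hU]; exact Nat.le_ceil _
  have hxC : 1 ≤ x ^ CU := one_le_pow₀ hx1
  have hU2 : (U : ℝ) ≤ 2 * x ^ CU := by
    have h1 : (U : ℝ) < x ^ CU + 1 := by rw [hU]; exact Nat.ceil_lt_add_one (by positivity)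
    linarith
  have hUx : ∀ n : ℕ, n ≤ CU → x ^ n ≤ U := fun n hn => (pow_le_pow_right₀ hx1 hn).trans hU1
  have hU0 : (0 : ℝ) < U := by linarith
  have hUz20 : (U : ℝ) ^ 60 ≤ z := by
    calc (U : ℝ) ^ 60 ≤ (2 * x ^ CU) ^ 60 := pow_le_pow_left₀ hU0.le hU2 60
      _ = 2 ^ 60 * x ^ (60 * CU) := by rw [mul_pow, ← pow_mul, mul_comm CU 60]
      _ ≤ (X : ℝ) ^ (c0 / 2) := b5
      _ ≤ z := hz3
  have hU1' : (1 : ℝ) ≤ U := by linarith
  have hUz : (U : ℝ) ≤ z := by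
    refine le_trans ?_ hUz20
    calc (U : ℝ) = (U : ℝ) ^ 1 := (pow_one _).symm
      _ ≤ (U : ℝ) ^ 60 := pow_le_pow_right₀ hU1' (by norm_num)
  constructor
  · exact b9
  · have h1 : (1 : ℝ) ≤ Y := by
      have := hq4.trans (Pm (om / 4) om (by linarith))
      linarith
    exact_mod_cast h1
  · exact hw3
  · have h1 : (w : ℝ) < z := by
      have h2 : x ≤ 2 ^ 60 * x ^ (60 * CU) := by
        have h3 : x ^ 1 ≤ x ^ (60 * CU) := pow_le_pow_right₀ hx1 (by omega)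
        rw [pow_one] at h3
        linarith
      have h4 : om / 2 * x ≤ 1 / 2 * x := mul_le_mul_of_nonneg_right (by linarith) hx0.le
      linarith
    exact_mod_cast h1
  · -- primorial
    have h1 : ((primorial w : ℕ) : ℝ) ≤ (4 : ℝ) ^ w := by exact_mod_cast primorial_le_four_pow w
    have h2 : (4 : ℝ) ^ w ≤ (X : ℝ) ^ (om * (7 / 10)) := by
      rw [← Real.rpow_natCast, Real.rpow_def_of_pos (by norm_num), Real.rpow_def_of_pos hX0, ← hx]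
      refine Real.exp_le_exp.mpr ?_
      have h3 : Real.log 4 ≤ 14 / 10 := by
        have h4 : Real.log 4 = 2 * Real.log 2 := by
          rw [show (4 : ℝ) = 2 ^ 2 by norm_num, Real.log_pow]
          norm_num
        rw [h4]
        linarith [Real.log_two_lt_d9]
      calc Real.log 4 * w ≤ 14 / 10 * (om / 2 * x) := mul_le_mul h3 hw1 (Nat.cast_nonneg _) (by norm_num)
        _ = x * (om * (7 / 10)) := by ring
    have h3 : (X : ℝ) ^ (om * (7 / 10)) * 2 ≤ (X : ℝ) ^ om := by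
      have h4 : (X : ℝ) ^ om = (X : ℝ) ^ (om * (7 / 10)) * (X : ℝ) ^ (om * (3 / 10)) := by rw [Pa]; congr 1; ring
      rw [h4]
      refine mul_le_mul_of_nonneg_left ?_ (by positivity)
      have := Pm (om / 4) (om * (3 / 10)) (by linarith)
      linarith
    have h4 : ((primorial w : ℕ) : ℝ) ≤ Y := by linarith
    exact_mod_cast h4
  · have h1 : (z : ℝ) ^ 2 ≤ Y := by
      have h2 := hzn 2
      push_cast at h2
      have h3 : (X : ℝ) ^ (c0 * 2) * 2 ≤ (X : ℝ) ^ om := by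
        have h4 : (X : ℝ) ^ om = (X : ℝ) ^ (om * (3 / 4)) * (X : ℝ) ^ (om / 4) := by rw [Pa]; congr 1; ring
        rw [h4]
        exact mul_le_mul (Pm _ _ (by linarith)) (by linarith) (by norm_num) (by positivity)
      linarith
    exact_mod_cast h1
  · have h1 : ∀ n : ℕ, (n : ℝ) ≤ 10000 → Y ^ n ≤ X := by
      intro n hn
      have h2 : (Y : ℝ) ^ n ≤ X := by
        refine (hYn n).trans ?_
        calc (X : ℝ) ^ (om * n) ≤ (X : ℝ) ^ (1 : ℝ) := Pm _ _ (by nlinarith)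
          _ = X := P1
      exact_mod_cast h2
    exact h1 10000 (by norm_num)
  · exact_mod_cast hUz20
  · rw [← hx]
    exact hUx 50 hCU
  · intro M hM
    have hlz : Real.log z + 1 ≤ 2 * x := by
      have h1 : Real.log z ≤ x := by
        rw [hx]
        refine Real.log_le_log hz0 (hz1.trans ?_)
        calc (X : ℝ) ^ c0 ≤ (X : ℝ) ^ (1 : ℝ) := Pm _ _ (by linarith)
          _ = X := P1
      linarith
    have hlz0 : 0 ≤ Real.log z + 1 := by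
      have : 0 ≤ Real.log z := Real.log_nonneg (by linarith)
      linarith
    have hM0 : 0 ≤ M := by
      by_contra h
      have h1 : (C0 : ℝ) * (Real.log z + 1) ^ C0 * M ≤ 0 := mul_nonpos_of_nonneg_of_nonpos (by positivity) (by linarith)
      linarith
    have h1 : 1 ≤ x ^ (C0 + 1) * M := by
      refine hM.trans (mul_le_mul_of_nonneg_right ?_ hM0)
      calc (C0 : ℝ) * (Real.log z + 1) ^ C0 ≤ C0 * (2 * x) ^ C0 :=
            mul_le_mul_of_nonneg_left (pow_le_pow_left₀ hlz0 hlz C0) (Nat.cast_nonneg _)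
        _ = (C0 * 2 ^ C0) * x ^ C0 := by rw [mul_pow]; ring
        _ ≤ x * x ^ C0 := mul_le_mul_of_nonneg_right c3 (by positivity)
        _ = x ^ (C0 + 1) := by rw [pow_succ]; ring
    have h2 : x ≤ x ^ (C0 + 2) * M := by
      calc x = x * 1 := (mul_one _).symm
        _ ≤ x * (x ^ (C0 + 1) * M) := mul_le_mul_of_nonneg_left h1 hx0.le
        _ = x ^ (C0 + 2) * M := by rw [pow_succ x (C0 + 1)]; ring
    rw [← hx]
    refine ⟨?_, ?_⟩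
    · have h3 : x ^ (C0 + 2) * M ≤ U * M := mul_le_mul_of_nonneg_right (hUx _ hCU0) hM0
      linarith
    · rw [div_le_iff₀ hdel] at c4
      calc (64 : ℝ) * 10 ^ 9 ≤ x * del := c4
        _ ≤ (x ^ (C0 + 2) * M) * del := mul_le_mul_of_nonneg_right h2 hdel.le
        _ = del * M * x ^ (C0 + 2) := by ring
  · rw [div_le_iff₀ hdel] at c4
    have h1 : x ≤ U := by
      have := hUx 1 (by omega)
      rwa [pow_one] at this
    have h2 : x * del ≤ U * del := mul_le_mul_of_nonneg_right h1 hdel.le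
    linarith
  · have h1 : (X : ℝ) ≤ (z : ℝ) ^ m := by
      calc (X : ℝ) = (X : ℝ) ^ (1 : ℝ) := P1.symm
        _ ≤ (X : ℝ) ^ (c0 / 2 * m) := Pm _ _ (by linarith)
        _ = ((X : ℝ) ^ (c0 / 2)) ^ m := (Pn _ _).symm
        _ ≤ (z : ℝ) ^ m := pow_le_pow_left₀ (by positivity) hz3 m
    exact_mod_cast h1
  · have h1 : (2 : ℝ) ^ (100 * m) ≤ U := by
      have := hUx 1 (by omega)
      rw [pow_one] at this
      linarith
    exact_mod_cast h1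
  · push_cast
    rw [← hx]
    exact c5
  · rw [← hx]
    calc (2 * x) ^ (C1 + 1) = 2 ^ (C1 + 1) * x ^ (C1 + 1) := mul_pow _ _ _
      _ ≤ x * x ^ (C1 + 1) := mul_le_mul_of_nonneg_right c6 (by positivity)
      _ = x ^ (C1 + 2) := by rw [pow_succ x (C1 + 1)]; ring
      _ ≤ U := hUx _ hCU1
  · have h1 : Real.log 8 = 3 * Real.log 2 := by
      rw [show (8 : ℝ) = 2 ^ 3 by norm_num, Real.log_pow]
      norm_num
    rw [h1]
    linarith [Real.log_two_lt_d9]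
  · -- log w
    have h1 : Real.exp T1 ≤ w := by
      refine le_trans ?_ hw4
      rw [div_le_iff₀ hom] at b4
      linarith
    have h2 : T1 ≤ Real.log w := by
      rw [Real.le_log_iff_exp_le (by linarith [Real.exp_pos T1])]
      exact h1
    have hT0 : 0 ≤ T1 := by rw [hT1]; positivity
    have h3 : om / 4 * x * T1 ≤ w * Real.log w := mul_le_mul hw4 h2 hT0 (Nat.cast_nonneg _)
    have h4 : del / 8 * (om / 4 * x * T1) = 4 * 36 ^ 3 * 81 * x := by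
      rw [hT1]
      field_simp
      ring
    have h5 : del / 8 * (om / 4 * x * T1) ≤ del / 8 * (w * Real.log w) := mul_le_mul_of_nonneg_left h3 (by positivity)
    have h6 : 4 * (36 : ℝ) ^ 3 * (Real.log 2 + 80 * x) ≤ 4 * 36 ^ 3 * 81 * x := by
      have := Real.log_two_lt_d9
      nlinarith
    linarith
  · -- n16
    have h1 : (z : ℝ) ^ (26 * b) * U ≤ (X : ℝ) ^ (om / 2) := by
      calc (z : ℝ) ^ (26 * b) * U ≤ (z : ℝ) ^ (26 * b) * z := mul_le_mul_of_nonneg_left hUz (by positivity)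
        _ = (z : ℝ) ^ (26 * b + 1) := (pow_succ _ _).symm
        _ ≤ (X : ℝ) ^ (c0 * ((26 * b + 1 : ℕ) : ℝ)) := hzn _
        _ ≤ (X : ℝ) ^ (om / 2) := Pm _ _ (by
            push_cast
            nlinarith)
    have h2 : (X : ℝ) ^ om = (X : ℝ) ^ (om / 2) * ((X : ℝ) ^ (om / 4) * (X : ℝ) ^ (om / 4)) := by
      rw [Pa, Pa]
      congr 1
      ring
    have h3 : 64 / del ≤ (X : ℝ) ^ (om / 4) * (X : ℝ) ^ (om / 4) := by
      have := P0 (om / 4) (by linarith)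
      nlinarith
    have h4 : 64 ≤ del * ((X : ℝ) ^ (om / 4) * (X : ℝ) ^ (om / 4)) := by
      rw [div_le_iff₀ hdel] at h3
      linarith
    have h5 : (X : ℝ) ^ (om / 2) * 64 ≤ (X : ℝ) ^ (om / 2) * (del * ((X : ℝ) ^ (om / 4) * (X : ℝ) ^ (om / 4))) :=
      mul_le_mul_of_nonneg_left h4 (by positivity)
    have h6 : del * ((X : ℝ) ^ om / 2) ≤ del * Y := mul_le_mul_of_nonneg_left hY3 hdel.le
    have h7 : del * ((X : ℝ) ^ om / 2) = (X : ℝ) ^ (om / 2) * (del * ((X : ℝ) ^ (om / 4) * (X : ℝ) ^ (om / 4))) / 2 := by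
      rw [h2]
      ring
    linarith
  · have h1 : (z : ℝ) ≤ X := by
      refine hz1.trans ?_
      calc (X : ℝ) ^ c0 ≤ (X : ℝ) ^ (1 : ℝ) := Pm _ _ (by linarith)
        _ = X := P1
    exact_mod_cast h1
  · have h1 : ((Y : ℝ) ^ 100 * (z : ℝ) ^ (12 * b)) ^ 1000 ≤ X := by
      have h2 : (Y : ℝ) ^ 100 * (z : ℝ) ^ (12 * b) ≤ (X : ℝ) ^ (om * 101) := by
        have h3 := hYn 100
        have h4 : (z : ℝ) ^ (12 * b) ≤ (X : ℝ) ^ om := (hzn (12 * b)).trans (Pm _ _ (by push_cast; nlinarith))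
        push_cast at h3
        calc (Y : ℝ) ^ 100 * (z : ℝ) ^ (12 * b) ≤ (X : ℝ) ^ (om * 100) * (X : ℝ) ^ om := mul_le_mul h3 h4 (by positivity) (by positivity)
          _ = (X : ℝ) ^ (om * 101) := by rw [Pa]; congr 1; ring
      calc ((Y : ℝ) ^ 100 * (z : ℝ) ^ (12 * b)) ^ 1000 ≤ ((X : ℝ) ^ (om * 101)) ^ 1000 := pow_le_pow_left₀ (by positivity) h2 1000
        _ = (X : ℝ) ^ (om * 101 * ((1000 : ℕ) : ℝ)) := Pn _ _
        _ ≤ (X : ℝ) ^ (1 : ℝ) := Pm _ _ (by push_cast; linarith)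
        _ = X := P1
    exact_mod_cast h1
  · have h1 : (10 : ℝ) ^ 9 * (Y : ℝ) ^ 101 ≤ X := by
      have h3 := hYn 101
      push_cast at h3
      calc (10 : ℝ) ^ 9 * (Y : ℝ) ^ 101 ≤ (X : ℝ) ^ ((1 : ℝ) / 2) * (X : ℝ) ^ (om * 101) := mul_le_mul b8 h3 (by positivity) (by positivity)
        _ = (X : ℝ) ^ ((1 : ℝ) / 2 + om * 101) := Pa _ _
        _ ≤ (X : ℝ) ^ (1 : ℝ) := Pm _ _ (by linarith)
        _ = X := P1
    exact_mod_cast h1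
  · have h3 := hYn 100
    push_cast at h3
    have h4 : (U : ℝ) ≤ (X : ℝ) ^ om := (hUz.trans hz1).trans (Pm _ _ (by linarith))
    have h5 : (Y : ℝ) ^ 100 * (X : ℝ) ^ (1 - ε) * U ≤ (X : ℝ) ^ (om * 100) * (X : ℝ) ^ (1 - ε) * (X : ℝ) ^ om :=
      mul_le_mul (mul_le_mul_of_nonneg_right h3 (by positivity)) h4 hU0.le (by positivity)
    have h6 : (X : ℝ) ^ (om * 100) * (X : ℝ) ^ (1 - ε) * (X : ℝ) ^ om * (X : ℝ) ^ (ε / 4) ≤ X := by
      rw [Pa, Pa, Pa]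
      calc (X : ℝ) ^ (om * 100 + (1 - ε) + om + ε / 4) ≤ (X : ℝ) ^ (1 : ℝ) := Pm _ _ (by linarith)
        _ = X := P1
    have h7 : 32 * 10 ^ 9 ≤ del * (X : ℝ) ^ (ε / 4) := by
      rw [div_le_iff₀ hdel] at c7
      linarith
    have h8 : 0 ≤ (X : ℝ) ^ (om * 100) * (X : ℝ) ^ (1 - ε) * (X : ℝ) ^ om := by positivity
    calc 32 * 10 ^ 9 * ((Y : ℝ) ^ 100 * (X : ℝ) ^ (1 - ε) * U)
        ≤ (del * (X : ℝ) ^ (ε / 4)) * ((X : ℝ) ^ (om * 100) * (X : ℝ) ^ (1 - ε) * (X : ℝ) ^ om) :=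
          mul_le_mul h7 h5 (by positivity) (by positivity)
      _ = del * ((X : ℝ) ^ (om * 100) * (X : ℝ) ^ (1 - ε) * (X : ℝ) ^ om * (X : ℝ) ^ (ε / 4)) := by ring
      _ ≤ del * X := mul_le_mul_of_nonneg_left h6 hdel.le
  · have h3 := hYn 61
    push_cast at h3
    have h4 : (2 : ℝ) * 10 ^ 6 + 1 < (X : ℝ) ^ (ε / 4) := by linarith
    have h5 : (0 : ℝ) < (X : ℝ) ^ (om * 61) := by positivity
    calc (2 * 10 ^ 6 + 1) * (Y : ℝ) ^ 61 ≤ (2 * 10 ^ 6 + 1) * (X : ℝ) ^ (om * 61) := mul_le_mul_of_nonneg_left h3 (by norm_num)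
      _ < (X : ℝ) ^ (ε / 4) * (X : ℝ) ^ (om * 61) := mul_lt_mul_of_pos_right h4 h5
      _ = (X : ℝ) ^ (ε / 4 + om * 61) := Pa _ _
      _ ≤ (X : ℝ) ^ (ε / 2) := Pm _ _ (by linarith)

end Pool.Agent.Lib.EX.AX
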