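import Pool.Agent.Lib.MP_61161c_nt.EX.Fcon

/-!
# EX, block D, module Fcnt: few characters have a large twisted average over primes

`P` primes `≤ B` not dividing `N`, `B^k < N`: the number of characters with `‖mu P l χ‖ ≥ 1/2`, times `|P|^k`, is at most
`4^k φ(N) k!`. PROOF: `2k`-th moment; products of `k` primes `≤ B` are `< N`, so congruence modulo `N` is equality.
-/

set_option autoImplicit false

open Finset

namespace Pool.Agent.Lib.EX

open Pool.Agent.Lib.RG (bch chNorm chInv chPars chParsF phi_pos phi_ne chOrth)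

/-- `k`-tuples of primes with the same product are permutations of each other -/
private theorem fc_perm {u : ℕ} (f g : Fin u → ℕ) (hf : ∀ i, (f i).Prime) (hg : ∀ i, (g i).Prime)
    (h : ∏ i, f i = ∏ i, g i) : (List.ofFn g).Perm (List.ofFn f) := by
  have h1 : (List.ofFn g).prod = ∏ i, f i := by rw [List.prod_ofFn, h]
  have h2 : (List.ofFn f).prod = ∏ i, f i := by rw [List.prod_ofFn]
  have h3 := Nat.primeFactorsList_unique h1 (by
    intro p hp
    rw [List.mem_ofFn] at hp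
    obtain ⟨i, rfl⟩ := hp
    exact hg i)
  have h4 := Nat.primeFactorsList_unique h2 (by
    intro p hp
    rw [List.mem_ofFn] at hp
    obtain ⟨i, rfl⟩ := hp
    exact hf i)
  exact h3.trans h4.symm

open Classical in
private theorem fc_count {u : ℕ} (Q : Finset ℕ) (hQ : ∀ l ∈ Q, l.Prime) (f : Fin u → ℕ)
    (hf : ∀ i, f i ∈ Q) :
    ((Fintype.piFinset (fun _ : Fin u => Q)).filter (fun g => ∏ i, f i = ∏ i, g i)).card ≤ u.factorial := by
  have h1 : ((Fintype.piFinset (fun _ : Fin u => Q)).filter (fun g => ∏ i, f i = ∏ i, g i)).card ≤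
      ((List.ofFn f).permutations.toFinset).card := by
    refine card_le_card_of_injOn (fun g => List.ofFn g) ?_ ?_
    · intro g hg
      rw [mem_coe, mem_filter, Fintype.mem_piFinset] at hg
      rw [mem_coe, List.mem_toFinset, List.mem_permutations]
      exact fc_perm f g (fun i => hQ _ (hf i)) (fun i => hQ _ (hg.1 i)) hg.2
    · intro g _ g' _ h
      exact List.ofFn_injective h
  refine h1.trans ((List.toFinset_card_le _).trans ?_)
  rw [List.length_permutations, List.length_ofFn]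

private theorem fc_conj {N : ℕ} [NeZero N] (χ : DirichletCharacter ℂ N) (a : ZMod N) (ha : IsUnit a) :
    (starRingEnd ℂ) (χ a) = χ a⁻¹ := by
  obtain ⟨v, rfl⟩ := ha
  have h1 : ‖χ (v : ZMod N)‖ = 1 := DirichletCharacter.unit_norm_eq_one χ v
  rw [← Complex.inv_eq_conj h1, ZMod.inv_coe_unit, ← MulChar.inv_apply_eq_inv', MulChar.inv_apply,
    Ring.inverse_unit]

open Classical in
/-- the `2k`-th moment -/
theorem fc_moment (N : ℕ) [NeZero N] (Q : Finset ℕ) (B u : ℕ) (l : ℕ → ℝ) (hl : ∀ p ∈ Q, l p ^ 2 = 1)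
    (hQ : ∀ l ∈ Q, l.Prime ∧ l ≤ B ∧ ¬ l ∣ N) (hB : B ^ u < N) :
    ∑ χ : DirichletCharacter ℂ N, (‖(∑ p ∈ Q, (l p : ℂ) * χ (p : ZMod N)) ^ u‖ ^ 2 : ℝ) ≤
      N.totient * ((Q.card : ℝ) ^ u * u.factorial) := by
  set P := Fintype.piFinset (fun _ : Fin u => Q) with hP
  have hPc : P.card = Q.card ^ u := by
    rw [hP, Fintype.card_piFinset, prod_const, card_univ, Fintype.card_fin]
  have hmem : ∀ f ∈ P, ∀ i, f i ∈ Q := fun f hf i => Fintype.mem_piFinset.1 hf i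
  have hunit : ∀ f ∈ P, IsUnit (((∏ i, f i : ℕ) : ZMod N)) := by
    intro f hf
    rw [ZMod.isUnit_iff_coprime]
    refine Nat.Coprime.prod_left fun i _ => ?_
    obtain ⟨h1, -, h3⟩ := hQ (f i) (hmem f hf i)
    exact (Nat.Prime.coprime_iff_not_dvd h1).2 h3
  have hlt : ∀ f ∈ P, ∏ i, f i < N := by
    intro f hf
    refine lt_of_le_of_lt ?_ hB
    have h := prod_le_pow_card (univ : Finset (Fin u)) f B fun i _ => (hQ _ (hmem f hf i)).2.1
    rwa [card_univ, Fintype.card_fin] at h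
  have hinj : ∀ f ∈ P, ∀ g ∈ P, (((∏ i, f i : ℕ) : ZMod N)) = ((∏ i, g i : ℕ) : ZMod N) →
      ∏ i, f i = ∏ i, g i := by
    intro f hf g hg h
    rwa [ZMod.natCast_eq_natCast_iff', Nat.mod_eq_of_lt (hlt f hf), Nat.mod_eq_of_lt (hlt g hg)] at h
  have hpow : ∀ χ : DirichletCharacter ℂ N, (∑ p ∈ Q, (l p : ℂ) * χ (p : ZMod N)) ^ u =
      ∑ f ∈ P, ((∏ i, l (f i) : ℝ) : ℂ) * χ (((∏ i, f i : ℕ) : ZMod N)) := by
    intro χ
    have h1 := prod_univ_sum (fun _ : Fin u => Q) (fun _ p => (l p : ℂ) * χ (p : ZMod N))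
    rw [prod_const, card_univ, Fintype.card_fin] at h1
    rw [h1]
    refine sum_congr rfl fun f _ => ?_
    rw [Nat.cast_prod, map_prod, prod_mul_distrib, Complex.ofReal_prod]
  set L : (Fin u → ℕ) → ℝ := fun f => ∏ i, l (f i) with hL
  have hL1 : ∀ f ∈ P, |L f| = 1 := by
    intro f hf
    rw [hL]
    simp only
    rw [abs_prod]
    refine prod_eq_one fun i _ => ?_
    have h1 := hl _ (hmem f hf i)
    rw [← sq_abs] at h1
    exact (pow_eq_one_iff_of_nonneg (abs_nonneg _) two_ne_zero).mp h1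
  have key : ((∑ χ : DirichletCharacter ℂ N, (‖(∑ p ∈ Q, (l p : ℂ) * χ (p : ZMod N)) ^ u‖ ^ 2 : ℝ) : ℝ) : ℂ) =
      (((N.totient : ℝ) * ∑ f ∈ P, ∑ g ∈ P.filter (fun g => ∏ i, f i = ∏ i, g i), L f * L g : ℝ) : ℂ) := by
    push_cast
    have h2 : ∀ χ : DirichletCharacter ℂ N,
        ((‖(∑ p ∈ Q, (l p : ℂ) * χ (p : ZMod N)) ^ u‖ : ℂ) ^ 2) =
        ∑ f ∈ P, ∑ g ∈ P, ((L f : ℂ) * (L g : ℂ)) *
          (χ ((((∏ i, f i : ℕ) : ZMod N))⁻¹) * χ (((∏ i, g i : ℕ) : ZMod N))) := by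
      intro χ
      rw [hpow χ, ← Complex.conj_mul', map_sum, sum_mul_sum]
      refine sum_congr rfl fun f hf => sum_congr rfl fun g _ => ?_
      rw [map_mul, fc_conj χ _ (hunit f hf), Complex.conj_ofReal]
      ring
    have h3 : ∑ χ : DirichletCharacter ℂ N, ((‖(∑ p ∈ Q, (l p : ℂ) * χ (p : ZMod N)) ^ u‖ : ℂ) ^ 2) =
        ∑ f ∈ P, ∑ g ∈ P, ((L f : ℂ) * (L g : ℂ)) * ∑ χ : DirichletCharacter ℂ N,
          χ ((((∏ i, f i : ℕ) : ZMod N))⁻¹) * χ (((∏ i, g i : ℕ) : ZMod N)) := by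
      rw [sum_congr rfl fun χ _ => h2 χ, sum_comm]
      refine sum_congr rfl fun f _ => ?_
      rw [sum_comm]
      refine sum_congr rfl fun g _ => ?_
      rw [mul_sum]
    have h4 : ∀ f ∈ P, ∑ g ∈ P, ((L f : ℂ) * (L g : ℂ)) * ∑ χ : DirichletCharacter ℂ N,
          χ ((((∏ i, f i : ℕ) : ZMod N))⁻¹) * χ (((∏ i, g i : ℕ) : ZMod N)) =
          (N.totient : ℂ) * ∑ g ∈ P.filter (fun g => ∏ i, f i = ∏ i, g i), (L f : ℂ) * (L g : ℂ) := by
      intro f hf
      have h5 : ∀ g ∈ P, ((L f : ℂ) * (L g : ℂ)) * ∑ χ : DirichletCharacter ℂ N,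
          χ ((((∏ i, f i : ℕ) : ZMod N))⁻¹) * χ (((∏ i, g i : ℕ) : ZMod N)) =
          if ∏ i, f i = ∏ i, g i then (N.totient : ℂ) * ((L f : ℂ) * (L g : ℂ)) else 0 := by
        intro g hg
        rw [DirichletCharacter.sum_char_inv_mul_char_eq ℂ (hunit f hf)]
        by_cases h : ∏ i, f i = ∏ i, g i
        · rw [if_pos h, if_pos (by rw [h])]; ring
        · rw [if_neg h, if_neg (fun h' => h (hinj f hf g hg h')), mul_zero]
      rw [sum_congr rfl h5, ← sum_filter, mul_sum]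
    rw [h3, sum_congr rfl h4, ← mul_sum]
  have key2 := Complex.ofReal_injective key
  rw [key2]
  refine mul_le_mul_of_nonneg_left ?_ (Nat.cast_nonneg _)
  calc ∑ f ∈ P, ∑ g ∈ P.filter (fun g => ∏ i, f i = ∏ i, g i), L f * L g ≤
        ∑ f ∈ P, (u.factorial : ℝ) := by
        refine sum_le_sum fun f hf => ?_
        calc ∑ g ∈ P.filter (fun g => ∏ i, f i = ∏ i, g i), L f * L g ≤
              ∑ g ∈ P.filter (fun g => ∏ i, f i = ∏ i, g i), (1 : ℝ) := by
              refine sum_le_sum fun g hg => ?_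
              calc L f * L g ≤ |L f * L g| := le_abs_self _
                _ = 1 := by rw [abs_mul, hL1 f hf, hL1 g (mem_filter.mp hg).1, one_mul]
          _ = ((P.filter (fun g => ∏ i, f i = ∏ i, g i)).card : ℝ) := by
              rw [sum_const, nsmul_eq_mul, mul_one]
          _ ≤ _ := by exact_mod_cast fc_count Q (fun l hl => (hQ l hl).1) f (hmem f hf)
    _ = (Q.card : ℝ) ^ u * u.factorial := by
        rw [sum_const, nsmul_eq_mul, hPc]
        push_cast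
        ring

open Classical in
theorem fcnt (N : ℕ) [NeZero N] (P : Finset ℕ) (B k : ℕ) (l : ℕ → ℝ) (hl : ∀ p ∈ P, l p ^ 2 = 1)
    (hP : ∀ p ∈ P, p.Prime ∧ p ≤ B ∧ ¬ p ∣ N) (hc : 0 < P.card) (hB : B ^ k < N) :
    ((univ.filter (fun χ : DirichletCharacter ℂ N => ¬ ‖mu P l χ‖ < 1 / 2)).card : ℝ) * (P.card : ℝ) ^ k ≤
      (4 : ℝ) ^ k * N.totient * k.factorial := by
  have hcR : (0 : ℝ) < P.card := by exact_mod_cast hc
  have h1 := fc_moment N P B k l hl hP hB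
  set J := univ.filter (fun χ : DirichletCharacter ℂ N => ¬ ‖mu P l χ‖ < 1 / 2) with hJ
  have h2 : ∀ χ ∈ J, ((P.card : ℝ) / 2) ^ (2 * k) ≤ ‖(∑ p ∈ P, (l p : ℂ) * χ (p : ZMod N)) ^ k‖ ^ 2 := by
    intro χ hχ
    have h3 : 1 / 2 ≤ ‖mu P l χ‖ := not_lt.mp (mem_filter.mp hχ).2
    unfold mu at h3
    rw [norm_mul, norm_inv, Complex.norm_natCast] at h3
    have h4 : (P.card : ℝ) / 2 ≤ ‖∑ u ∈ P, (l u : ℂ) * χ (u : ZMod N)‖ := by
      rw [inv_mul_eq_div, le_div_iff₀ hcR] at h3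
      linarith
    rw [norm_pow, ← pow_mul, mul_comm k 2]
    exact pow_le_pow_left₀ (by positivity) h4 _
  have h3 : (J.card : ℝ) * ((P.card : ℝ) / 2) ^ (2 * k) ≤
      N.totient * ((P.card : ℝ) ^ k * k.factorial) := by
    refine le_trans ?_ h1
    calc (J.card : ℝ) * ((P.card : ℝ) / 2) ^ (2 * k) =
          ∑ _χ ∈ J, ((P.card : ℝ) / 2) ^ (2 * k) := by rw [sum_const, nsmul_eq_mul]
      _ ≤ ∑ χ ∈ J, ‖(∑ p ∈ P, (l p : ℂ) * χ (p : ZMod N)) ^ k‖ ^ 2 := sum_le_sum h2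
      _ ≤ _ := sum_le_sum_of_subset_of_nonneg (subset_univ _) fun _ _ _ => sq_nonneg _
  have h5 : ((P.card : ℝ) / 2) ^ (2 * k) = (P.card : ℝ) ^ k * ((P.card : ℝ) ^ k / 4 ^ k) := by
    rw [pow_mul, div_pow]
    have : ((P.card : ℝ) ^ 2 / 2 ^ 2) = (P.card : ℝ) * ((P.card : ℝ) / 4) := by ring
    rw [this, mul_pow, div_pow]
  rw [h5] at h3
  have h6 : (0 : ℝ) < (P.card : ℝ) ^ k := by positivity
  have h7 : (J.card : ℝ) * ((P.card : ℝ) ^ k / 4 ^ k) ≤ N.totient * k.factorial := by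
    have h8 : (P.card : ℝ) ^ k * ((J.card : ℝ) * ((P.card : ℝ) ^ k / 4 ^ k)) ≤
        (P.card : ℝ) ^ k * (N.totient * k.factorial) := by
      calc (P.card : ℝ) ^ k * ((J.card : ℝ) * ((P.card : ℝ) ^ k / 4 ^ k)) =
            (J.card : ℝ) * ((P.card : ℝ) ^ k * ((P.card : ℝ) ^ k / 4 ^ k)) := by ring
        _ ≤ N.totient * ((P.card : ℝ) ^ k * k.factorial) := h3
        _ = _ := by ring
    exact le_of_mul_le_mul_left h8 h6
  calc (J.card : ℝ) * (P.card : ℝ) ^ k =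
        (4 : ℝ) ^ k * ((J.card : ℝ) * ((P.card : ℝ) ^ k / 4 ^ k)) := by field_simp
    _ ≤ (4 : ℝ) ^ k * (N.totient * k.factorial) := mul_le_mul_of_nonneg_left h7 (by positivity)
    _ = _ := by ring

end Pool.Agent.Lib.EX
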