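import Pool.Agent.Lib.MP_7b7e48_nt.RG.CHA

/-!
# EX, block D, module Fcon: concentration of the Fourier mass

`F1`, `F2` are two functions on the units modulo `N`; for every `u ∈ P` the function `x ↦ F2 (u x)` is close to
`l u * F1 x` in mean square. Then the mass of `F2` on the characters whose twisted average over `P` is `< 1/2` is
`≤ (8/3) √ε`.

PROOF. `H x = (1/|P|) ∑_u l u F2 (u x)`; `bch H χ = mu χ * bch F2 χ`, `‖H - F1‖² ≤ ε φ` (convexity), `‖F1‖² = φ`, so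
`∑ ‖mu‖² ‖bch F2‖² ≥ (1 - √ε)²` and `∑ ‖bch F2‖² ≤ 1`.
-/

set_option autoImplicit false

open Finset

namespace Pool.Agent.Lib.EX

open Pool.Agent.Lib.RG (bch chNorm chInv chPars chParsF phi_pos phi_ne chOrth)

variable {N : ℕ} [NeZero N]

/-- the twisted average of a character -/
noncomputable def mu (P : Finset ℕ) (l : ℕ → ℝ) (χ : DirichletCharacter ℂ N) : ℂ :=
  (P.card : ℂ)⁻¹ * ∑ u ∈ P, (l u : ℂ) * χ (u : ZMod N)

/-- translation on the Fourier side -/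
theorem bch_trans (F : ZMod N → ℂ) (u : ℕ) (hu : u.Coprime N) (χ : DirichletCharacter ℂ N) :
    bch (fun x => F ((u : ZMod N) * x)) χ = χ (u : ZMod N) * bch F χ := by
  obtain ⟨v, hv⟩ := (ZMod.isUnit_iff_coprime u N).mpr hu
  unfold bch
  rw [← hv]
  have h1 : ∑ y : ZMod N, F ((v : ZMod N) * y) * (starRingEnd ℂ) (χ ((v : ZMod N) * y)) =
      ∑ y : ZMod N, F y * (starRingEnd ℂ) (χ y) :=
    Fintype.sum_bijective (fun x => (v : ZMod N) * x) (Units.mulLeft_bijective v) _ _ (fun x => rfl)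
  have h2 : χ (v : ZMod N) * (starRingEnd ℂ) (χ (v : ZMod N)) = 1 := by
    rw [Complex.mul_conj', DirichletCharacter.unit_norm_eq_one χ v]
    norm_num
  have h3 : ∑ y : ZMod N, F ((v : ZMod N) * y) * (starRingEnd ℂ) (χ y) =
      χ (v : ZMod N) * ∑ y : ZMod N, F ((v : ZMod N) * y) * (starRingEnd ℂ) (χ ((v : ZMod N) * y)) := by
    rw [mul_sum]
    refine sum_congr rfl fun y _ => ?_
    rw [map_mul χ, map_mul (starRingEnd ℂ)]
    linear_combination (-(F ((v : ZMod N) * y) * (starRingEnd ℂ) (χ y))) * h2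
  rw [h3, h1]
  ring

theorem bch_H (P : Finset ℕ) (l : ℕ → ℝ) (hP : ∀ u ∈ P, u.Coprime N) (F : ZMod N → ℂ)
    (χ : DirichletCharacter ℂ N) :
    bch (fun x => (P.card : ℂ)⁻¹ * ∑ u ∈ P, (l u : ℂ) * F ((u : ZMod N) * x)) χ = mu P l χ * bch F χ := by
  have h1 : ∀ u ∈ P, ∑ y : ZMod N, F ((u : ZMod N) * y) * (starRingEnd ℂ) (χ y) =
      χ (u : ZMod N) * ∑ y : ZMod N, F y * (starRingEnd ℂ) (χ y) := by
    intro u hu
    have h := bch_trans F u (hP u hu) χ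
    unfold bch at h
    have hp : ((N.totient : ℕ) : ℂ) ≠ 0 := phi_ne
    have h2 : ((N.totient : ℕ) : ℂ)⁻¹ * ∑ y : ZMod N, F ((u : ZMod N) * y) * (starRingEnd ℂ) (χ y) =
      ((N.totient : ℕ) : ℂ)⁻¹ * (χ (u : ZMod N) * ∑ y : ZMod N, F y * (starRingEnd ℂ) (χ y)) := by
      rw [h]; ring
    exact mul_left_cancel₀ (inv_ne_zero hp) h2
  unfold bch mu
  have h2 : ∑ y : ZMod N, (P.card : ℂ)⁻¹ * (∑ u ∈ P, (l u : ℂ) * F ((u : ZMod N) * y)) * (starRingEnd ℂ) (χ y) =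
      (P.card : ℂ)⁻¹ * ∑ u ∈ P, (l u : ℂ) * ∑ y : ZMod N, F ((u : ZMod N) * y) * (starRingEnd ℂ) (χ y) := by
    simp_rw [mul_sum, sum_mul]
    rw [sum_comm]
    refine sum_congr rfl fun u _ => sum_congr rfl fun y _ => ?_
    ring
  have h3 : ∑ u ∈ P, (l u : ℂ) * ∑ y : ZMod N, F ((u : ZMod N) * y) * (starRingEnd ℂ) (χ y) =
      (∑ u ∈ P, (l u : ℂ) * χ (u : ZMod N)) * ∑ y : ZMod N, F y * (starRingEnd ℂ) (χ y) := by
    rw [sum_mul]
    refine sum_congr rfl fun u hu => ?_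
    rw [h1 u hu]
    ring
  rw [h2, h3]
  ring

open Classical in
theorem card_isUnit : ((univ.filter (fun x : ZMod N => IsUnit x)).card : ℝ) = N.totient := by
  have h := chPars (N := N) {1} (fun _ => 1)
  rw [sum_singleton] at h
  simp only [sum_singleton, one_mul, norm_one, one_pow, mul_one] at h
  rw [← h]
  have h1 : ∀ x : ZMod N, ‖(1 : DirichletCharacter ℂ N) x‖ ^ 2 = if IsUnit x then (1 : ℝ) else 0 := by
    intro x
    by_cases hx : IsUnit x
    · rw [if_pos hx, chNorm _ hx, one_pow]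
    · rw [if_neg hx, MulChar.map_nonunit _ hx]; simp
  simp_rw [h1]
  rw [← sum_filter, sum_const, nsmul_eq_mul, mul_one]

theorem mass_le_one (F : ZMod N → ℝ) (h0 : ∀ x, ¬ IsUnit x → F x = 0) (h1 : ∀ x, |F x| ≤ 1) :
    ∑ χ : DirichletCharacter ℂ N, ‖bch (fun x => (F x : ℂ)) χ‖ ^ 2 ≤ 1 := by
  classical
  have h := chParsF (fun x => (F x : ℂ)) (fun x hx => by rw [h0 x hx]; simp)
  have hp := phi_pos (N := N)
  have h2 : ∑ x : ZMod N, ‖((F x : ℝ) : ℂ)‖ ^ 2 ≤ (N.totient : ℝ) := by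
    calc ∑ x : ZMod N, ‖((F x : ℝ) : ℂ)‖ ^ 2 ≤ ∑ x : ZMod N, (if IsUnit x then (1 : ℝ) else 0) := by
          refine sum_le_sum fun x _ => ?_
          by_cases hx : IsUnit x
          · rw [if_pos hx, Complex.norm_real, Real.norm_eq_abs]
            exact pow_le_one₀ (abs_nonneg _) (h1 x)
          · rw [if_neg hx, h0 x hx]; simp
      _ = (N.totient : ℝ) := by
          rw [← sum_filter, sum_const, nsmul_eq_mul, mul_one, card_isUnit]
  rw [h] at h2
  exact le_of_mul_le_mul_left (by linarith) hp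

open Classical in
theorem fcon (P : Finset ℕ) (hP : ∀ u ∈ P, u.Coprime N) (hc : 0 < P.card) (l : ℕ → ℝ)
    (hl : ∀ u ∈ P, l u ^ 2 = 1) (F1 F2 : ZMod N → ℝ)
    (h10 : ∀ x, ¬ IsUnit x → F1 x = 0) (h11 : ∀ x, IsUnit x → F1 x ^ 2 = 1)
    (h20 : ∀ x, ¬ IsUnit x → F2 x = 0) (h21 : ∀ x, |F2 x| ≤ 1)
    (ε : ℝ) (hε : 0 ≤ ε) (hε1 : ε ≤ 1)
    (h : ∀ u ∈ P, ∑ x : ZMod N, (F2 ((u : ZMod N) * x) - l u * F1 x) ^ 2 ≤ ε * N.totient) :
    ∑ χ ∈ univ.filter (fun χ : DirichletCharacter ℂ N => ‖mu P l χ‖ < 1 / 2),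
      ‖bch (fun x => (F2 x : ℂ)) χ‖ ^ 2 ≤ 8 / 3 * √ε := by
  have hp := phi_pos (N := N)
  have hcR : (0 : ℝ) < P.card := by exact_mod_cast hc
  have hcC : (P.card : ℂ) ≠ 0 := by exact_mod_cast hc.ne'
  set H : ZMod N → ℝ := fun x => (P.card : ℝ)⁻¹ * ∑ u ∈ P, l u * F2 ((u : ZMod N) * x) with hH
  have hH0 : ∀ x, ¬ IsUnit x → H x = 0 := by
    intro x hx
    rw [hH]
    simp only
    have : ∑ u ∈ P, l u * F2 ((u : ZMod N) * x) = 0 := by
      refine sum_eq_zero fun u hu => ?_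
      rw [h20, mul_zero]
      intro h3
      exact hx (isUnit_of_mul_isUnit_right h3)
    rw [this, mul_zero]
  -- distance of H and F1
  have hd : ∑ x : ZMod N, (H x - F1 x) ^ 2 ≤ ε * N.totient := by
    have h1 : ∀ x : ZMod N, (H x - F1 x) ^ 2 ≤ (P.card : ℝ)⁻¹ *
        ∑ u ∈ P, (F2 ((u : ZMod N) * x) - l u * F1 x) ^ 2 := by
      intro x
      have h2 : H x - F1 x = (P.card : ℝ)⁻¹ * ∑ u ∈ P, l u * (F2 ((u : ZMod N) * x) - l u * F1 x) := by
        have h3 : ∑ u ∈ P, l u * (F2 ((u : ZMod N) * x) - l u * F1 x) =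
            ∑ u ∈ P, l u * F2 ((u : ZMod N) * x) - P.card * F1 x := by
          rw [eq_sub_iff_add_eq, ← nsmul_eq_mul, ← sum_const, ← sum_add_distrib]
          refine sum_congr rfl fun u hu => ?_
          linear_combination (-F1 x) * hl u hu
        rw [h3, hH]
        simp only
        field_simp
      rw [h2, mul_pow]
      have h4 := sq_sum_le_card_mul_sum_sq (s := P) (f := fun u => l u * (F2 ((u : ZMod N) * x) - l u * F1 x))
      have h5 : ∑ u ∈ P, (l u * (F2 ((u : ZMod N) * x) - l u * F1 x)) ^ 2 =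
          ∑ u ∈ P, (F2 ((u : ZMod N) * x) - l u * F1 x) ^ 2 := by
        refine sum_congr rfl fun u hu => ?_
        rw [mul_pow, hl u hu, one_mul]
      rw [h5] at h4
      calc ((P.card : ℝ)⁻¹) ^ 2 * (∑ u ∈ P, l u * (F2 ((u : ZMod N) * x) - l u * F1 x)) ^ 2 ≤
            ((P.card : ℝ)⁻¹) ^ 2 * (P.card * ∑ u ∈ P, (F2 ((u : ZMod N) * x) - l u * F1 x) ^ 2) :=
            mul_le_mul_of_nonneg_left h4 (by positivity)
        _ = (P.card : ℝ)⁻¹ * ∑ u ∈ P, (F2 ((u : ZMod N) * x) - l u * F1 x) ^ 2 := by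
            rw [← mul_assoc]
            congr 1
            field_simp
    calc ∑ x : ZMod N, (H x - F1 x) ^ 2 ≤ ∑ x : ZMod N, (P.card : ℝ)⁻¹ *
          ∑ u ∈ P, (F2 ((u : ZMod N) * x) - l u * F1 x) ^ 2 := sum_le_sum fun x _ => h1 x
      _ = (P.card : ℝ)⁻¹ * ∑ u ∈ P, ∑ x : ZMod N, (F2 ((u : ZMod N) * x) - l u * F1 x) ^ 2 := by
          rw [← mul_sum, sum_comm]
      _ ≤ (P.card : ℝ)⁻¹ * ∑ u ∈ P, ε * N.totient :=
          mul_le_mul_of_nonneg_left (sum_le_sum h) (by positivity)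
      _ = ε * N.totient := by
          rw [sum_const, nsmul_eq_mul]
          field_simp
  -- mass of F1
  have hm1 : ∑ x : ZMod N, F1 x ^ 2 = N.totient := by
    have h1 : ∀ x : ZMod N, F1 x ^ 2 = if IsUnit x then (1 : ℝ) else 0 := by
      intro x
      by_cases hx : IsUnit x
      · rw [if_pos hx, h11 x hx]
      · rw [if_neg hx, h10 x hx]; norm_num
    simp_rw [h1]
    rw [← sum_filter, sum_const, nsmul_eq_mul, mul_one, card_isUnit]
  -- lower bound for the mass of H: F1 H ≥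
  have hs0 := Real.sqrt_nonneg ε
  have hs1 : √ε ≤ 1 := Real.sqrt_le_one.mpr hε1
  have hss : √ε ^ 2 = ε := Real.sq_sqrt hε
  have hmH : (1 - √ε) ^ 2 * N.totient ≤ ∑ x : ZMod N, H x ^ 2 := by
    -- for every t>0: F1² ≤ (1+t) H² + (1+1/t) (H-F1)²
    rcases eq_or_lt_of_le hs0 with h3 | h3
    · -- ε = 0
      have h4 : ε = 0 := by rw [← hss, ← h3]; norm_num
      have h5 : ∑ x : ZMod N, (H x - F1 x) ^ 2 = 0 := by
        refine le_antisymm ?_ (sum_nonneg fun x _ => sq_nonneg _)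
        rw [h4, zero_mul] at hd; exact hd
      have h6 : ∀ x : ZMod N, H x = F1 x := by
        intro x
        have := (sum_eq_zero_iff_of_nonneg (fun x _ => sq_nonneg (H x - F1 x))).mp h5 x (mem_univ _)
        have h7 : H x - F1 x = 0 := by
          exact pow_eq_zero_iff (two_ne_zero) |>.mp this
        linarith
      rw [← h3]
      simp_rw [h6]
      rw [hm1]
      norm_num
    · rcases eq_or_lt_of_le hs1 with h4 | h4
      · rw [h4]; norm_num
        exact sum_nonneg fun x _ => sq_nonneg _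
      · set s := √ε with hsdef
        have h5 : 0 < 1 - s := by linarith
        -- F1² (1 - s) ≤ H² / (1-s) ... use  F1² ≤ H²/(1-s) + (H-F1)²/s
        have h6 : ∀ x : ZMod N, F1 x ^ 2 ≤ H x ^ 2 / (1 - s) + (H x - F1 x) ^ 2 / s := by
          intro x
          rw [div_add_div _ _ h5.ne' h3.ne', le_div_iff₀ (mul_pos h5 h3)]
          nlinarith [sq_nonneg (s * H x - (1 - s) * (F1 x - H x))]
        have h7 : (N.totient : ℝ) ≤ (∑ x : ZMod N, H x ^ 2) / (1 - s) + ε * N.totient / s := by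
          calc (N.totient : ℝ) = ∑ x : ZMod N, F1 x ^ 2 := hm1.symm
            _ ≤ ∑ x : ZMod N, (H x ^ 2 / (1 - s) + (H x - F1 x) ^ 2 / s) := sum_le_sum fun x _ => h6 x
            _ = (∑ x : ZMod N, H x ^ 2) / (1 - s) + (∑ x : ZMod N, (H x - F1 x) ^ 2) / s := by
                rw [sum_add_distrib, sum_div, sum_div]
            _ ≤ _ := by gcongr
        have h8 : ε * N.totient / s = s * N.totient := by
          rw [← hss]; field_simp
        rw [h8] at h7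
        have h9 : (1 - s) * (N.totient : ℝ) ≤ (∑ x : ZMod N, H x ^ 2) / (1 - s) := by linarith
        rw [le_div_iff₀ h5] at h9
        calc (1 - s) ^ 2 * (N.totient : ℝ) = (1 - s) * (N.totient : ℝ) * (1 - s) := by ring
          _ ≤ _ := h9
  -- Fourier side
  have hF2m := mass_le_one F2 h20 h21
  have hbH : ∀ χ : DirichletCharacter ℂ N, bch (fun x => (H x : ℂ)) χ =
      mu P l χ * bch (fun x => (F2 x : ℂ)) χ := by
    intro χ
    rw [← bch_H P l hP (fun x => (F2 x : ℂ)) χ]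
    congr 1
    funext x
    rw [hH]
    push_cast
    rfl
  have hpH := chParsF (fun x => (H x : ℂ)) (fun x hx => by rw [hH0 x hx]; simp)
  have hpH2 : ∑ x : ZMod N, ‖((H x : ℝ) : ℂ)‖ ^ 2 = ∑ x : ZMod N, H x ^ 2 := by
    refine sum_congr rfl fun x _ => ?_
    rw [Complex.norm_real, Real.norm_eq_abs, sq_abs]
  rw [hpH2] at hpH
  have hmuH : (1 - √ε) ^ 2 ≤ ∑ χ : DirichletCharacter ℂ N, ‖mu P l χ‖ ^ 2 *
      ‖bch (fun x => (F2 x : ℂ)) χ‖ ^ 2 := by
    have h3 : ∑ χ : DirichletCharacter ℂ N, ‖bch (fun x => (H x : ℂ)) χ‖ ^ 2 =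
        ∑ χ : DirichletCharacter ℂ N, ‖mu P l χ‖ ^ 2 * ‖bch (fun x => (F2 x : ℂ)) χ‖ ^ 2 := by
      refine sum_congr rfl fun χ _ => ?_
      rw [hbH χ, norm_mul, mul_pow]
    rw [h3] at hpH
    rw [hpH] at hmH
    exact le_of_mul_le_mul_left (by linarith) hp
  have hmu1 : ∀ χ : DirichletCharacter ℂ N, ‖mu P l χ‖ ^ 2 ≤ 1 := by
    intro χ
    refine pow_le_one₀ (norm_nonneg _) ?_
    unfold mu
    rw [norm_mul, norm_inv, Complex.norm_natCast]
    have h3 : ‖∑ u ∈ P, (l u : ℂ) * χ (u : ZMod N)‖ ≤ P.card := by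
      refine (norm_sum_le _ _).trans ?_
      calc ∑ u ∈ P, ‖(l u : ℂ) * χ (u : ZMod N)‖ ≤ ∑ u ∈ P, (1 : ℝ) := by
            refine sum_le_sum fun u hu => ?_
            rw [norm_mul, chNorm χ ((ZMod.isUnit_iff_coprime u N).mpr (hP u hu)), mul_one,
              Complex.norm_real, Real.norm_eq_abs]
            exact (sq_le_one_iff_abs_le_one _).mp (hl u hu).le
        _ = P.card := by rw [sum_const, nsmul_eq_mul, mul_one]
    rw [inv_mul_le_iff₀ hcR, mul_one]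
    exact h3
  -- conclusion
  have hsum : ∑ χ : DirichletCharacter ℂ N, (1 - ‖mu P l χ‖ ^ 2) * ‖bch (fun x => (F2 x : ℂ)) χ‖ ^ 2 ≤
      2 * √ε := by
    have h3 : ∑ χ : DirichletCharacter ℂ N, (1 - ‖mu P l χ‖ ^ 2) * ‖bch (fun x => (F2 x : ℂ)) χ‖ ^ 2 =
        ∑ χ : DirichletCharacter ℂ N, ‖bch (fun x => (F2 x : ℂ)) χ‖ ^ 2 -
        ∑ χ : DirichletCharacter ℂ N, ‖mu P l χ‖ ^ 2 * ‖bch (fun x => (F2 x : ℂ)) χ‖ ^ 2 := by
      rw [← sum_sub_distrib]
      refine sum_congr rfl fun χ _ => ?_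
      ring
    rw [h3]
    nlinarith
  have hfil : ∑ χ ∈ univ.filter (fun χ : DirichletCharacter ℂ N => ‖mu P l χ‖ < 1 / 2),
      3 / 4 * ‖bch (fun x => (F2 x : ℂ)) χ‖ ^ 2 ≤
      ∑ χ : DirichletCharacter ℂ N, (1 - ‖mu P l χ‖ ^ 2) * ‖bch (fun x => (F2 x : ℂ)) χ‖ ^ 2 := by
    calc ∑ χ ∈ univ.filter (fun χ : DirichletCharacter ℂ N => ‖mu P l χ‖ < 1 / 2),
          3 / 4 * ‖bch (fun x => (F2 x : ℂ)) χ‖ ^ 2 ≤
          ∑ χ ∈ univ.filter (fun χ : DirichletCharacter ℂ N => ‖mu P l χ‖ < 1 / 2),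
          (1 - ‖mu P l χ‖ ^ 2) * ‖bch (fun x => (F2 x : ℂ)) χ‖ ^ 2 := by
            refine sum_le_sum fun χ hχ => mul_le_mul_of_nonneg_right ?_ (sq_nonneg _)
            have h3 := (mem_filter.mp hχ).2
            nlinarith [norm_nonneg (mu P l χ)]
      _ ≤ _ := by
            refine sum_le_sum_of_subset_of_nonneg (subset_univ _) fun χ _ _ => mul_nonneg ?_ (sq_nonneg _)
            linarith [hmu1 χ]
  rw [← mul_sum] at hfil
  linarith

end Pool.Agent.Lib.EX
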