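import Pool.Agent.Lib.MP_61161c_nt.EX.Chn
import Pool.Agent.Lib.MP_61161c_nt.EX.DbSv

/-!
# EX, block D, module Fib: multiplicity of products in dyadic boxes
-/

set_option autoImplicit false

open Finset

namespace Pool.Agent.Lib.EX

/-- **Fib.** The pairs of the boxes `(2^k a, 2^(k+1) a] × M2 k` (first component free of primes `≤ z3`) with product in `B`. -/
theorem fib (z3 R a k1 : ℕ) (M2 : ℕ → Finset ℕ) (B : Finset ℕ)
    (hB : ∀ n ∈ B, 1 ≤ n ∧ n < (z3 + 1) ^ (R + 1)) :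
    ∑ k ∈ range k1, (((rg z3 (2 ^ k * a) (2 ^ (k + 1) * a)) ×ˢ (M2 k)).filter (fun p => p.1 * p.2 ∈ B)).card ≤
      2 ^ R * B.card := by
  classical
  set S := (range k1).sigma
    (fun k => ((rg z3 (2 ^ k * a) (2 ^ (k + 1) * a)) ×ˢ (M2 k)).filter (fun p => p.1 * p.2 ∈ B)) with hS
  have h1 : ∑ k ∈ range k1, (((rg z3 (2 ^ k * a) (2 ^ (k + 1) * a)) ×ˢ (M2 k)).filter (fun p => p.1 * p.2 ∈ B)).card =
      S.card := by rw [hS, card_sigma]
  rw [h1]
  have hmaps : ∀ x ∈ S, x.2.1 * x.2.2 ∈ B := by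
    intro x hx
    rw [hS, mem_sigma, mem_filter] at hx
    exact hx.2.2
  rw [card_eq_sum_card_fiberwise hmaps, mul_comm, ← smul_eq_mul, ← sum_const]
  refine sum_le_sum fun n hn => ?_
  obtain ⟨hn1, hn2⟩ := hB n hn
  refine le_trans ?_ (rdiv z3 R n hn1 hn2)
  refine card_le_card_of_injOn (fun x => x.2.1) ?_ ?_
  · intro x hx
    rw [mem_coe, mem_filter, hS, mem_sigma, mem_filter, mem_product] at hx
    obtain ⟨⟨_, ⟨hx1, _⟩, _⟩, hx2⟩ := hx
    rw [mem_coe, mem_filter, Nat.mem_divisors]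
    unfold rg at hx1
    rw [mem_filter] at hx1
    exact ⟨⟨⟨x.2.2, hx2.symm⟩, by omega⟩, hx1.2⟩
  · intro x hx y hy hxy
    rw [mem_coe, mem_filter, hS, mem_sigma, mem_filter, mem_product] at hx hy
    obtain ⟨⟨_, ⟨hx1, hx1'⟩, _⟩, hx2⟩ := hx
    obtain ⟨⟨_, ⟨hy1, hy1'⟩, _⟩, hy2⟩ := hy
    unfold rg at hx1 hy1
    rw [mem_filter, mem_Ioc] at hx1 hy1
    have hxy' : x.2.1 = y.2.1 := hxy
    have hxpos : 0 < x.2.1 := by
      have := hx1.1.1
      omega
    have h22 : x.2.2 = y.2.2 := by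
      rw [← hxy'] at hy2
      have : x.2.1 * x.2.2 = x.2.1 * y.2.2 := by rw [hx2, hy2]
      exact Nat.eq_of_mul_eq_mul_left hxpos this
    have hk : x.1 = y.1 := by
      rcases lt_trichotomy x.1 y.1 with h | h | h
      · exfalso
        have h3 : 2 ^ (x.1 + 1) * a ≤ 2 ^ y.1 * a := Nat.mul_le_mul_right a (Nat.pow_le_pow_right (by norm_num) h)
        have h4 := hx1.1.2
        have h5 := hy1.1.1
        omega
      · exact h
      · exfalso
        have h3 : 2 ^ (y.1 + 1) * a ≤ 2 ^ x.1 * a := Nat.mul_le_mul_right a (Nat.pow_le_pow_right (by norm_num) h)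
        have h4 := hy1.1.2
        have h5 := hx1.1.1
        omega
    obtain ⟨kx, mx1, mx2⟩ := x
    obtain ⟨ky, my1, my2⟩ := y
    simp only at hxy' h22 hk
    subst hxy' h22 hk
    rfl

end Pool.Agent.Lib.EX
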