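import Pool.Agent.Lib.MP_61161c_nt.EX.BlkC
import Pool.Agent.Lib.MP_61161c_nt.XE.Defs

/-!
# EX, module FinH: on most of the representations of `N ∈ E` by rough numbers `lam a * lam (N - a) = kap`
-/

set_option autoImplicit false

open Finset
open Pool.Agent.Lib.MP_45349e_nt.LS (lam)
open Pool.Agent.Lib.GT (Rough pr)
open Pool.Agent.Lib.XE (AA VN VW rh)

namespace Pool.Agent.Lib.EX

theorem sf_nat {z n : ℕ} : Sf z (n : ℤ) ↔ Rough z n := by
  unfold Sf Rough
  constructor
  · intro h p hp hd
    by_contra hc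
    exact h p hp (by omega) (by exact_mod_cast hd)
  · intro h p hp hz hd
    exact absurd (h p hp (by exact_mod_cast hd)) (by omega)

theorem sf_one (z : ℕ) : Sf z 1 := by
  intro p hp _ hd
  exact hp.one_lt.ne' (by exact_mod_cast Int.eq_one_of_dvd_one (by positivity) hd)

theorem sf_neg {z : ℕ} {a : ℤ} (h : Sf z a) : Sf z (-a) := fun p hp hz hd => h p hp hz ((dvd_neg).1 hd)

/-- the density of the star class is at most the density of the representations -/
theorem mm_le (e : Env) (he : e.Ok) (N : ℕ) (hN : N ≡ e.N0 [MOD e.W]) : e.MM 2 ≤ VN N e.z := by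
  have hw := he.w
  have hwz := he.wz
  have hsplit : VN N e.z = (∏ p ∈ pr e.w, (1 - (rh N p : ℝ) / p)) *
      ∏ p ∈ (pr e.z).filter (fun p => e.w < p), (1 - (rh N p : ℝ) / p) := by
    unfold VN VW
    rw [filter_true_of_mem (s := pr e.z) (p := fun p => ¬ p ∣ 1) (fun p hp => by
      have h2 : p.Prime := by
        unfold pr at hp
        exact (mem_filter.1 hp).2
      exact fun h => h2.one_lt.ne' (Nat.dvd_one.1 h))]
    rw [← prod_filter_mul_prod_filter_not (pr e.z) (fun p => e.w < p), mul_comm]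
    congr 1
    refine prod_congr ?_ fun _ _ => rfl
    ext p
    unfold pr
    simp only [mem_filter, mem_range, not_lt]
    constructor
    · rintro ⟨⟨_, h2⟩, h3⟩
      exact ⟨by omega, h2⟩
    · rintro ⟨h1, h2⟩
      exact ⟨⟨by omega, h2⟩, by omega⟩
  have h1 : ∏ p ∈ pr e.w, (1 - (rh N p : ℝ) / p) = ∏ p ∈ pr e.w, (1 - (e.nu p : ℝ) / p) := by
    refine prod_congr rfl fun p hp => ?_
    have hp2 : p ≤ e.w ∧ p.Prime := by
      unfold pr at hp
      rw [mem_filter, mem_range] at hp
      exact ⟨by omega, hp.2⟩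
    have h3 : p ∣ e.W := hp2.2.dvd_primorial_iff.2 hp2.1
    have h4 : N ≡ e.N0 [MOD p] := hN.of_dvd h3
    have h5 : rh N p = e.nu p := by
      unfold rh Env.nu
      have h6 : p ∣ N ↔ p ∣ e.N0 := by
        rw [← Nat.modEq_zero_iff_dvd, ← Nat.modEq_zero_iff_dvd]
        exact ⟨fun h => h4.symm.trans h, fun h => h4.trans h⟩
      simp only [h6]
    rw [h5]
  have hnu : ∀ p ∈ pr e.w, (0 : ℝ) ≤ 1 - (e.nu p : ℝ) / p := by
    intro p hp
    have hp2 : p.Prime := by
      unfold pr at hp
      exact (mem_filter.1 hp).2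
    have h3 : (2 : ℝ) ≤ p := by exact_mod_cast hp2.two_le
    have h4 : (e.nu p : ℝ) ≤ 2 := by
      unfold Env.nu
      split_ifs <;> norm_num
    have : (e.nu p : ℝ) / p ≤ 1 := by
      rw [div_le_one (by linarith)]
      linarith
    linarith
  rw [hsplit, h1]
  unfold Env.MM
  refine mul_le_mul_of_nonneg_left ?_ (prod_nonneg hnu)
  refine prod_le_prod ?_ ?_
  · intro p hp
    rw [mem_filter] at hp
    have h3 : (200 : ℝ) ≤ p := by
      have := hp.2
      exact_mod_cast (by omega : 200 ≤ p)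
    have : ((2 : ℕ) : ℝ) / p ≤ 1 := by
      rw [div_le_one (by linarith)]
      push_cast
      linarith
    linarith
  · intro p hp
    rw [mem_filter] at hp
    have h3 : (200 : ℝ) ≤ p := by
      have := hp.2
      exact_mod_cast (by omega : 200 ≤ p)
    have h4 : (rh N p : ℝ) ≤ (2 : ℕ) := by
      unfold rh
      split_ifs <;> norm_num
    have : (rh N p : ℝ) / p ≤ ((2 : ℕ) : ℝ) / p := by gcongr
    linarith

open Classical in
theorem h2_of (e : Env) (he : e.Ok) (hP2 : e.P2 24) (N : ℕ) (hN : N ∈ e.E) :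
    (((AA N e.z 1).filter fun a => lam a * lam (N - a) ≠ e.kap).card : ℝ) ≤ e.eta * N * VN N e.z := by
  have hN1 := he.EH N hN
  have hN2 := he.EW N hN
  have hX0 := he.Xs0
  have hX1 := he.Xs1
  have hXb := he.Xbig
  have hW0 : 0 < e.W := by
    unfold Env.W
    exact primorial_pos _
  have hNX : N ≤ e.X ^ 2 := by nlinarith
  have hNpos : 0 < N := by omega
  set t : Frm := ⟨1, 0⟩ with ht
  set F2 : Frm := ⟨-1, N⟩ with hF2
  have hev1 : ∀ n : ℤ, t.ev n = n := fun n => by rw [ht]; unfold Frm.ev; ring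
  have hev2 : ∀ n : ℤ, F2.ev n = N - n := fun n => by rw [hF2]; unfold Frm.ev; ring
  have hWN : (e.W : ℤ) ∣ (N : ℤ) - e.N0 := by
    have := (Nat.modEq_iff_dvd.1 hN2.symm)
    exact this
  have hSOk : e.SOk 40 t [t, F2] := by
    have hX40 : (e.X : ℤ) ^ 2 ≤ (e.X : ℤ) ^ 40 := pow_le_pow_right₀ (by omega) (by norm_num)
    have hX1' : (1 : ℤ) ≤ (e.X : ℤ) ^ 40 := one_le_pow₀ (by omega)
    refine ⟨isCoprime_one_left, ?_, ?_, ?_, ?_⟩
    · intro F hF
      rcases List.mem_cons.1 hF with h | h
      · rw [h]; exact sf_one _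
      · rw [List.mem_singleton.1 h]; exact sf_neg (sf_one _)
    · intro F hF
      rcases List.mem_cons.1 hF with h | h
      · rw [h, ht]
        exact ⟨by simpa using hX1', by simpa using (by positivity : (0 : ℤ) ≤ (e.X : ℤ) ^ 40)⟩
      · rw [List.mem_singleton.1 h, hF2]
        refine ⟨by simpa using hX1', ?_⟩
        have : (N : ℤ) ≤ (e.X : ℤ) ^ 2 := by exact_mod_cast hNX
        rw [abs_of_nonneg (by positivity)]
        linarith
    · intro F hF
      rcases List.mem_cons.1 hF with h | h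
      · rw [h]
        exact ⟨1, isCoprime_one_left, Or.inl ⟨by simp, by simp⟩⟩
      · rw [List.mem_singleton.1 h, hF2, ht]
        refine ⟨1, isCoprime_one_left, Or.inr ⟨by simp, ?_⟩⟩
        simpa using hWN
    · rw [List.pairwise_cons]
      refine ⟨fun F hF => ?_, List.pairwise_singleton _ _⟩
      rw [List.mem_singleton.1 hF, hF2, ht]
      unfold Frm.NP
      simp
      omega
  have hMM : e.MM 2 ≤ VN N e.z := mm_le e he N hN2
  have h := hP2 t [t, F2] 1 (N - 1) hSOk (by simp) t N hN ⟨sf_one _, fun p hp hd => by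
      have := (he.bad.2 p hp).1
      exact this.one_lt.ne' (by exact_mod_cast Int.eq_one_of_dvd_one (by positivity) hd)⟩
    (by
      rw [ht]
      simp only [abs_one]
      exact one_le_pow₀ (by have := he.Y4; omega)) (by
      rw [ht]
      simp only [abs_one, one_mul]
      have : (e.X : ℤ) ≤ ((N - 1 : ℕ) : ℤ) := by omega
      nlinarith) (by
      have hX40 : e.X ^ 2 ≤ e.X ^ 40 := Nat.pow_le_pow_right (by omega) (by norm_num)
      omega) (by
      intro n h1 h2
      rw [hev1]
      omega) (by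
      intro n hn
      unfold Env.SS at hn
      rw [mem_filter] at hn
      have h1 := hn.2.2 t (by simp)
      have h2 := hn.2.2 F2 (by simp)
      rw [hev2] at h2
      rw [hev1] at h1 ⊢
      exact ⟨h1, h2⟩)
  have hsub : (AA N e.z 1).filter (fun a => lam a * lam (N - a) ≠ e.kap) ⊆
      (e.SS t [t, F2] 1 (N - 1)).filter (fun n : ℕ => lz (t.ev n) * lz (N - t.ev n) ≠ e.kap) := by
    intro a ha
    rw [mem_filter] at ha
    obtain ⟨ha1, ha2⟩ := ha
    unfold AA at ha1
    rw [mem_filter, mem_Icc] at ha1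
    obtain ⟨⟨h1, h2⟩, h3, h4, h5⟩ := ha1
    rw [one_mul] at h3 h5
    have hcast : (N : ℤ) - (a : ℤ) = ((N - a : ℕ) : ℤ) := by omega
    rw [mem_filter]
    refine ⟨?_, ?_⟩
    · unfold Env.SS
      rw [mem_filter, mem_Ico]
      refine ⟨by omega, ?_, ?_⟩
      · rw [hev1]
        have hcp : ∀ m : ℕ, Rough e.z m → IsCoprime (m : ℤ) (e.W : ℤ) := by
          intro m hm
          rw [Nat.isCoprime_iff_coprime]
          refine Nat.Coprime.symm (Nat.coprime_of_dvd fun p hp hpW hpm => ?_)
          have h6 : p ≤ e.w := (hp.dvd_primorial_iff).1 hpW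
          have h7 := hm p hp hpm
          have := he.wz
          omega
        refine IsCoprime.mul_left (hcp a h4) ?_
        obtain ⟨k, hk⟩ := hWN
        have h6 : (e.N0 : ℤ) - a = ((N - a : ℕ) : ℤ) + e.W * (-k) := by
          rw [← hcast]
          linear_combination -hk
        rw [h6]
        exact (IsCoprime.add_mul_left_left_iff).2 (hcp _ h5)
      · intro F hF
        rcases List.mem_cons.1 hF with h | h
        · rw [h, hev1]
          exact sf_nat.2 h4
        · rw [List.mem_singleton.1 h, hev2, hcast]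
          exact sf_nat.2 h5
    · rw [hev1, hcast]
      unfold lz
      rw [Int.natAbs_natCast, Int.natAbs_natCast]
      exact ha2
  have hcard : (((AA N e.z 1).filter fun a => lam a * lam (N - a) ≠ e.kap).card : ℝ) ≤
      (((e.SS t [t, F2] 1 (N - 1)).filter (fun n : ℕ => lz (t.ev n) * lz (N - t.ev n) ≠ e.kap)).card : ℝ) := by
    exact_mod_cast card_le_card hsub
  refine hcard.trans (h.trans ?_)
  have hM0 : 0 ≤ e.MM 2 := le_trans (by positivity) (he.MM0 2 (by norm_num))
  have hL : ((N - 1 : ℕ) : ℝ) ≤ N := by exact_mod_cast Nat.sub_le _ _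
  have heta := he.eta0
  have hlen : [t, F2].length = 2 := rfl
  rw [hlen, mul_assoc]
  refine mul_le_mul_of_nonneg_left ?_ heta.le
  exact mul_le_mul hL hMM hM0 (by positivity)

end Pool.Agent.Lib.EX
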