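import Pool.Agent.Lib.MP_61161c_nt.EX.EnvEx
import Pool.Agent.Lib.MP_61161c_nt.EX.DOut
import Pool.Agent.Lib.MP_61161c_nt.EX.FinH
import Pool.Agent.Lib.MP_61161c_nt.XE.Xend

/-!
# EX, module Fin: THEOREM EX
-/

set_option autoImplicit false

open Finset
open Pool.Agent.Lib.MP_45349e_nt.LS (lam)
open Pool.Agent.Lib.GT (Rough pr)
open Pool.Agent.Lib.XE (AA VN VW rh RP x_end)
open Pool.Agent.Lib.PQ (pw)

namespace Pool.Agent.Lib.EX

/-- everything after the environment -/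
theorem no_env (ε : ℝ) (hε : 0 < ε) (hε1 : ε ≤ 1) : ∃ om : ℝ, 0 < om ∧ om ≤ ε / 10 ^ 7 ∧ ∃ del : ℝ, 0 < del ∧ del ≤ 1 / 100 ∧
    ∃ cs : ℝ, 0 < cs ∧ ∀ c0 : ℝ, 0 < c0 → c0 ≤ cs → ∃ X1 : ℕ, ∀ i j : ℕ, ∀ e : Env, e.Ok → e.P1 36 → e.P2 24 →
      e.P3 → e.eta = del → X1 ≤ e.X → e.Y = ⌊(e.X : ℝ) ^ om⌋₊ → ((2 * e.X : ℕ) : ℝ) ^ (c0 / 2) ≤ e.z → (e.z : ℝ) ≤ (e.X : ℝ) ^ c0 →
      e.kap = -((-1) ^ i * (-1) ^ j) → (∀ N ∈ e.E, Even N) →
      ∃ N ∈ e.E, 2 * (N : ℝ) ^ (1 - ε) ≤ ((RP N e.z ((-1) ^ i) ((-1) ^ j)).card : ℝ) := by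
  obtain ⟨μ0, hμ0, hx⟩ := x_end
  set μ := min (min μ0 (20 * ε)) 1 with hμ
  have hμp : 0 < μ := lt_min (lt_min hμ0 (by positivity)) one_pos
  have hμ1 : μ ≤ μ0 := (min_le_left _ _).trans (min_le_left _ _)
  have hμ2 : μ ≤ 20 * ε := (min_le_left _ _).trans (min_le_right _ _)
  have hμ3 : μ ≤ 1 := min_le_right _ _
  obtain ⟨δ, hδ, hx⟩ := hx μ hμp hμ1
  set om := min ε μ / 10 ^ 7 with hom
  have homp : 0 < om := by
    rw [hom]
    have : 0 < min ε μ := lt_min hε hμp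
    positivity
  have hom1 : om ≤ ε / 10 ^ 7 := by
    rw [hom]
    gcongr
    exact min_le_left _ _
  have hom2 : om ≤ μ / 10 ^ 7 := by
    rw [hom]
    gcongr
    exact min_le_right _ _
  have hom3 : om ≤ 1 / 10 ^ 7 := hom2.trans (by gcongr)
  obtain ⟨c1, hc1, hx⟩ := hx om homp
  obtain ⟨del0, hdel0, hdel01, hd⟩ := dout om μ δ homp (hom2.trans (by linarith)) hμp hμ3 hδ
  set del := min del0 δ with hdel
  have hdelp : 0 < del := lt_min hdel0 hδ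
  obtain ⟨cs, hcs, hd⟩ := hd del hdelp (min_le_left _ _)
  refine ⟨om, homp, hom1, del, hdelp, (min_le_left _ _).trans hdel01, min cs c1, lt_min hcs hc1, fun c0 hc0 hc0' => ?_⟩
  obtain ⟨N0, hx⟩ := hx c0 hc0 (hc0'.trans (min_le_right _ _))
  obtain ⟨X1, hd⟩ := hd c0 hc0 (hc0'.trans (min_le_left _ _))
  -- thresholds
  have hT : ∀ᶠ x : ℝ in Filter.atTop, 4 ≤ x ^ om ∧ 4 ≤ x ^ (ε / 2) ∧ 4 ≤ x ^ (μ / 100) := by
    refine ((tendsto_rpow_atTop homp).eventually_ge_atTop 4).and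
      (((tendsto_rpow_atTop (by positivity)).eventually_ge_atTop 4).and
        ((tendsto_rpow_atTop (by positivity)).eventually_ge_atTop 4))
  obtain ⟨T, hT⟩ := Filter.eventually_atTop.1 hT
  refine ⟨max (max N0 X1) (max ⌈T⌉₊ 1), fun i j e he hP1 hP2 hP3 heta hX1 hY hz1 hz2 hkap hE => ?_⟩
  have hXN0 : N0 ≤ e.X := ((le_max_left _ _).trans (le_max_left _ _)).trans hX1
  have hXX1 : X1 ≤ e.X := ((le_max_right _ _).trans (le_max_left _ _)).trans hX1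
  have hXT : T ≤ (e.X : ℝ) := (Nat.le_ceil T).trans (by exact_mod_cast ((le_max_left _ _).trans (le_max_right _ _)).trans hX1)
  obtain ⟨ht1, ht2, ht3⟩ := hT e.X hXT
  obtain ⟨G, hG, hGY, χ, hχ2, hχ1, hsum⟩ := hd e he hP1 hP2 hP3 heta hXX1 hY hz2
  have hXb := he.Xbig
  have hXr : (1 : ℝ) ≤ e.X := by exact_mod_cast (by omega : 1 ≤ e.X)
  have hXpos : (0 : ℝ) < e.X := by linarith
  have hEne : e.E.Nonempty := by
    rw [← card_pos]
    have h1 := he.E0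
    have h2 : 0 < e.Y ^ 60 := Nat.pow_pos (by have := he.Y4; omega)
    omega
  obtain ⟨N, hN⟩ := hEne
  refine ⟨N, hN, ?_⟩
  have hN1 := he.EH N hN
  have hX0 := he.Xs0
  have hX1' := he.Xs1
  have hXN : (e.X : ℝ) ≤ N := by exact_mod_cast (by omega : e.X ≤ N)
  have hNX : (N : ℝ) ≤ ((2 * e.X : ℕ) : ℝ) := by exact_mod_cast (by omega : N ≤ 2 * e.X)
  have hNpos : (0 : ℝ) < N := by linarith
  have hYl := y_low e.X om hXr homp
  rw [← hY] at hYl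
  have hYu : (e.Y : ℝ) ≤ (e.X : ℝ) ^ om := by
    rw [hY]
    exact Nat.floor_le (by positivity)
  have hY1 : (1 : ℝ) ≤ e.Y := by exact_mod_cast (by have := he.Y4; omega : 1 ≤ e.Y)
  have hG1 : (G : ℝ) ≤ (N : ℝ) ^ (1 - om) := by
    have h1 : (G : ℝ) * (e.Y : ℝ) ^ 17 ≤ e.X := by exact_mod_cast hGY
    have h2 : (e.X : ℝ) ^ om ≤ (e.Y : ℝ) ^ 17 := by
      have h3 : (e.Y : ℝ) ^ 2 ≤ (e.Y : ℝ) ^ 17 := pow_le_pow_right₀ hY1 (by norm_num)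
      nlinarith
    have h4 : (G : ℝ) * (e.X : ℝ) ^ om ≤ e.X :=
      (mul_le_mul_of_nonneg_left h2 (Nat.cast_nonneg G)).trans h1
    have h5 : (G : ℝ) ≤ (e.X : ℝ) ^ (1 - om) := by
      rw [Real.rpow_sub hXpos, Real.rpow_one, le_div_iff₀ (by positivity)]
      exact h4
    refine h5.trans (Real.rpow_le_rpow hXpos.le hXN ?_)
    have : om ≤ 1 := hom3.trans (by norm_num)
    linarith
  have hs : ∀ i : ℕ, ((-1 : ℝ) ^ i = 1 ∨ (-1 : ℝ) ^ i = -1) := fun i => neg_one_pow_eq_or ℝ i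
  have hH1 := hsum N (by omega) (by omega)
  have hH2 : (((AA N e.z 1).filter fun a => lam a * lam (N - a) ≠ -((-1 : ℝ) ^ i * (-1) ^ j)).card : ℝ) ≤
      δ * N * VN N e.z := by
    have h1 := h2_of e he hP2 N hN
    rw [hkap] at h1
    refine h1.trans ?_
    have h2 : 0 ≤ VN N e.z := by
      have h3 := mm_le e he N (he.EW N hN)
      exact le_trans (le_trans (by positivity) (he.MM0 2 (by norm_num))) h3
    have h4 : e.eta ≤ δ := by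
      rw [heta]
      exact min_le_right _ _
    gcongr
  have hfin := hx N (by omega) (hE N hN) e.z
    (le_trans (Real.rpow_le_rpow hNpos.le hNX (by positivity)) hz1)
    (hz2.trans (Real.rpow_le_rpow hXpos.le hXN hc0.le)) G hG1 χ hχ2 hχ1 hH1 ((-1) ^ i) ((-1) ^ j) (hs i) (hs j) hH2
  refine le_trans ?_ hfin
  have hN1r : (1 : ℝ) ≤ N := hXr.trans hXN
  calc 2 * (N : ℝ) ^ (1 - ε) ≤ (N : ℝ) ^ (ε / 2) * (N : ℝ) ^ (1 - ε) := by
        gcongr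
        have : (e.X : ℝ) ^ (ε / 2) ≤ (N : ℝ) ^ (ε / 2) := Real.rpow_le_rpow hXpos.le hXN (by positivity)
        linarith
    _ = (N : ℝ) ^ (1 - ε / 2) := by
        rw [← Real.rpow_add hNpos]
        congr 1
        ring
    _ ≤ (N : ℝ) ^ (1 - μ / 40) := Real.rpow_le_rpow_of_exponent_le hN1r (by linarith)

open Classical in
/-- THEOREM EX -/
theorem ex_main (ε : ℝ) (hε : 0 < ε) : ∃ C X0 : ℕ, 0 < C ∧ ∀ X : ℕ, X0 ≤ X →
    (((Icc 1 X).filter fun N => Even N ∧ ∃ i j : ℕ, i < 2 ∧ j < 2 ∧ ((Rp C N i j).card : ℝ) < (N : ℝ) ^ (1 - ε)).card : ℝ) ≤ (X : ℝ) ^ ε := by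
  rcases le_or_gt 1 ε with h1 | h1
  · refine ⟨1, 1, one_pos, fun X hX => ?_⟩
    have h2 : (((Icc 1 X).filter fun N => Even N ∧ ∃ i j : ℕ, i < 2 ∧ j < 2 ∧ ((Rp 1 N i j).card : ℝ) < (N : ℝ) ^ (1 - ε)).card : ℝ) ≤ X := by
      have h3 := card_le_card (filter_subset (fun N : ℕ => Even N ∧ ∃ i j : ℕ, i < 2 ∧ j < 2 ∧ ((Rp 1 N i j).card : ℝ) < (N : ℝ) ^ (1 - ε)) (Icc 1 X))
      rw [Nat.card_Icc, Nat.add_sub_cancel] at h3
      exact_mod_cast h3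
    refine h2.trans ?_
    have hX1 : (1 : ℝ) ≤ X := by exact_mod_cast hX
    calc (X : ℝ) = (X : ℝ) ^ (1 : ℝ) := (Real.rpow_one _).symm
      _ ≤ (X : ℝ) ^ ε := Real.rpow_le_rpow_of_exponent_le hX1 h1
  obtain ⟨om, hom, hom1, del, hdel, hdel1, cs, hcs, hno⟩ := no_env ε hε h1.le
  obtain ⟨cs', hcs', henv⟩ := env_ex ε om del hε h1.le hom hom1 hdel hdel1
  obtain ⟨X1, hno⟩ := hno (min cs cs') (lt_min hcs hcs') (min_le_left _ _)
  obtain ⟨C, hC, henv⟩ := henv (min cs cs') (lt_min hcs hcs') (min_le_right _ _)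
  obtain ⟨X0, henv⟩ := henv X1
  refine ⟨C, X0, hC, fun X hX => ?_⟩
  by_contra hcon
  push Not at hcon
  set S : ℕ → ℕ → Finset ℕ := fun i j => (Icc 1 X).filter fun N => Even N ∧ ((Rp C N i j).card : ℝ) < (N : ℝ) ^ (1 - ε) with hS
  have hcov : ((Icc 1 X).filter fun N => Even N ∧ ∃ i j : ℕ, i < 2 ∧ j < 2 ∧ ((Rp C N i j).card : ℝ) < (N : ℝ) ^ (1 - ε)) ⊆
      (S 0 0 ∪ S 0 1) ∪ (S 1 0 ∪ S 1 1) := by
    intro N hN
    rw [mem_filter] at hN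
    obtain ⟨hN1, hN2, i, j, hi, hj, hN3⟩ := hN
    rw [mem_union, mem_union, mem_union]
    simp only [hS, mem_filter]
    interval_cases i <;> interval_cases j
    · exact Or.inl (Or.inl ⟨hN1, hN2, hN3⟩)
    · exact Or.inl (Or.inr ⟨hN1, hN2, hN3⟩)
    · exact Or.inr (Or.inl ⟨hN1, hN2, hN3⟩)
    · exact Or.inr (Or.inr ⟨hN1, hN2, hN3⟩)
  have hcard : (((Icc 1 X).filter fun N => Even N ∧ ∃ i j : ℕ, i < 2 ∧ j < 2 ∧ ((Rp C N i j).card : ℝ) < (N : ℝ) ^ (1 - ε)).card : ℝ) ≤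
      (((S 0 0).card : ℝ) + (S 0 1).card) + ((S 1 0).card + (S 1 1).card) := by
    have h2 := (card_le_card hcov).trans ((card_union_le _ _).trans (Nat.add_le_add (card_union_le _ _) (card_union_le _ _)))
    exact_mod_cast h2
  have hex : ∃ i j : ℕ, i < 2 ∧ j < 2 ∧ (X : ℝ) ^ ε / 4 ≤ ((S i j).card : ℝ) := by
    by_contra hc
    push Not at hc
    have h00 := hc 0 0 (by norm_num) (by norm_num)
    have h01 := hc 0 1 (by norm_num) (by norm_num)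
    have h10 := hc 1 0 (by norm_num) (by norm_num)
    have h11 := hc 1 1 (by norm_num) (by norm_num)
    linarith
  obtain ⟨i, j, hi, hj, hij⟩ := hex
  obtain ⟨e, he, hP1, hP2, hP3, heta, hX1, hY, hz1, hz2, hkap, hE, hmiss⟩ := henv X hX i j hi hj hij
  obtain ⟨N, hN, hlow⟩ := hno i j e he hP1 hP2 hP3 heta hX1 hY hz1 hz2 hkap hE
  have h3 := hmiss N hN
  have h4 : ((RP N e.z ((-1) ^ i) ((-1) ^ j)).card : ℝ) ≤ (((range N).filter fun a => Rough e.z a ∧ Rough e.z (N - a) ∧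
      lam a = (-1) ^ i ∧ lam (N - a) = (-1) ^ j).card : ℝ) := by
    exact_mod_cast card_le_card fun a ha => by
      unfold RP at ha
      rw [mem_filter] at ha ⊢
      exact ⟨ha.1, ha.2.1, ha.2.2.1, ha.2.2.2.2.1, ha.2.2.2.2.2⟩
  linarith

end Pool.Agent.Lib.EX
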