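import Pool.Agent.Lib.MP_61161c_nt.EX.Rs

/-!
# EX, module Fm: first moment and coprime pairs of paths

`SP θ` is the sifted set of the scheme `(Fs ++ θ.Fs)` on the progression `n = c + m n'` (`ss_cp`, `rs`), so (P1) applies; `m L' = L ± m` and `m ≤ Y^42`,
`L ≥ X / Y^100` is much larger.
-/

set_option autoImplicit false

open Finset

namespace Pool.Agent.Lib.EX

variable {e : Env} {k0 B cr : ℕ} {eps g : ℤ} {Ns qs : ℕ} {k : ℤ} {qlo qhi : ℕ} {s dl : ℝ} {a0 lo hi : ℤ}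
  {t : Frm} {Fs : List Frm} {A L : ℕ} {G : Frm}

private theorem fm_Y (he : e.Ok) : 40000 ≤ e.Y := by
  have h1 := he.zY
  have h2 := he.wz
  have h3 := he.w
  have h4 : 200 ^ 2 ≤ e.z ^ 2 := Nat.pow_le_pow_left (by omega) 2
  omega

/-- `L ≥ X / Y^100` -/
private theorem fm_L0 (he : e.Ok) (h : DH e k0 B cr eps g Ns qs k qlo qhi s dl a0 lo hi)
    (hG : BD e k0 B cr (eps * k * g) a0 lo hi t Fs A L G) : e.Y ^ 9900 ≤ L := by
  have hY := fm_Y he
  have hqlo : 0 < qlo := lt_of_lt_of_le (by positivity) h.hq0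
  have hqhi : (1 : ℤ) ≤ qhi := by
    have h1 := h.hq2.1
    have h2 := abs_nonneg k
    omega
  have h1 : (e.X : ℤ) ≤ e.Y ^ 100 * L := by
    have h2 := hG.cr
    have h3 := hG.ga
    have h4 := h.ha0
    have h5 : a0 ≤ (e.Y : ℤ) ^ 98 := by
      refine le_trans ?_ h4.2
      have : (1 : ℤ) ≤ (qhi : ℤ) ^ 2 := one_le_pow₀ hqhi
      nlinarith [h4.1]
    have h6 : (cr : ℤ) ≤ (e.Y : ℤ) ^ 2 := by
      have h7 : (cr : ℤ) ≤ 10 ^ 7 := by exact_mod_cast h.hcr
      have h8 : (40000 : ℤ) ^ 2 ≤ (e.Y : ℤ) ^ 2 := pow_le_pow_left₀ (by norm_num) (by exact_mod_cast hY) 2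
      norm_num at h7 h8
      linarith
    calc (e.X : ℤ) ≤ cr * (|G.a| * L) := h2
      _ ≤ (e.Y : ℤ) ^ 2 * ((e.Y : ℤ) ^ 98 * L) := by
        refine mul_le_mul h6 (mul_le_mul_of_nonneg_right (h3.trans h5) (Nat.cast_nonneg _)) ?_ (by positivity)
        exact mul_nonneg (abs_nonneg _) (Nat.cast_nonneg _)
      _ = (e.Y : ℤ) ^ 100 * L := by ring
  have h2 : e.X ≤ e.Y ^ 100 * L := by exact_mod_cast h1
  have h3 := he.YX.trans h2
  have h4 : e.Y ^ 10000 = e.Y ^ 100 * e.Y ^ 9900 := by rw [← pow_add]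
  rw [h4] at h3
  exact Nat.le_of_mul_le_mul_left h3 (by positivity)

theorem L_big (he : e.Ok) (h : DH e k0 B cr eps g Ns qs k qlo qhi s dl a0 lo hi)
    (hG : BD e k0 B cr (eps * k * g) a0 lo hi t Fs A L G) : e.Y ^ 200 ≤ L := by
  refine le_trans ?_ (fm_L0 he h hG)
  exact Nat.pow_le_pow_right (by have := fm_Y he; omega) (by norm_num)

/-- `SOk` is monotone in the bound -/
private theorem fm_mono (he : e.Ok) {B B' : ℕ} (hB : B ≤ B') {t : Frm} {Fs : List Frm} (h : e.SOk B t Fs) : e.SOk B' t Fs := by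
  have hX : (1 : ℤ) ≤ e.X := by
    have h1 := he.YX
    have h2 := fm_Y he
    have h3 : 1 ≤ e.Y ^ 10000 := Nat.one_le_pow _ _ (by omega)
    exact_mod_cast h3.trans h1
  have h1 : (e.X : ℤ) ^ B ≤ (e.X : ℤ) ^ B' := pow_le_pow_right₀ hX hB
  exact ⟨h.ta, h.sa, fun F hF => ⟨(h.bd F hF).1.trans h1, (h.bd F hF).2.trans h1⟩, h.ty, h.np⟩

/-- error term: `4 m ≤ η L` -/
private theorem fm_err (he : e.Ok) {L m : ℕ} (hL : e.Y ^ 200 ≤ L) (hm : m ≤ e.Y ^ 84) : 2 * (m : ℝ) ≤ e.eta * L := by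
  have hY := fm_Y he
  have hU : e.U ≤ e.Y := by
    have h1 := he.Uz
    have h2 := he.zY
    by_cases hU : e.U = 0
    · omega
    have h3 : e.U ≤ e.U ^ 60 := Nat.le_self_pow (by norm_num) _
    have h4 : e.z ≤ e.z ^ 2 := Nat.le_self_pow (by norm_num) _
    omega
  have h1 := he.etaU
  have h0 := he.eta0
  have hUr : (e.U : ℝ) ≤ e.Y := by exact_mod_cast hU
  have hY0 : (0 : ℝ) < e.Y := by exact_mod_cast (by omega : 0 < e.Y)
  have hY1 : (40000 : ℝ) ≤ e.Y := by exact_mod_cast hY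
  have h2 : 1 ≤ e.eta * e.Y := h1.trans (mul_le_mul_of_nonneg_left hUr h0.le)
  have h3 : ((e.Y : ℝ)) ^ 200 ≤ L := by exact_mod_cast hL
  have h4 : (m : ℝ) ≤ (e.Y : ℝ) ^ 84 := by exact_mod_cast hm
  have h5 : (e.Y : ℝ) ^ 200 = e.Y * (e.Y ^ 114 * (e.Y * (e.Y : ℝ) ^ 84)) := by ring
  have h6 : (1 : ℝ) ≤ (e.Y : ℝ) ^ 114 := one_le_pow₀ (by linarith)
  calc 2 * (m : ℝ) ≤ e.Y * (e.Y : ℝ) ^ 84 := mul_le_mul (by linarith) h4 (Nat.cast_nonneg _) hY0.le
    _ ≤ e.Y ^ 114 * (e.Y * (e.Y : ℝ) ^ 84) := by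
      have : (0 : ℝ) ≤ e.Y * (e.Y : ℝ) ^ 84 := by positivity
      nlinarith
    _ ≤ (e.eta * e.Y) * (e.Y ^ 114 * (e.Y * (e.Y : ℝ) ^ 84)) := by
      have : (0 : ℝ) ≤ e.Y ^ 114 * (e.Y * (e.Y : ℝ) ^ 84) := by positivity
      nlinarith
    _ = e.eta * (e.Y : ℝ) ^ 200 := by rw [h5]; ring
    _ ≤ e.eta * L := mul_le_mul_of_nonneg_left h3 h0.le

/-- the count of a scheme in a residue class -/
private theorem fm_cnt (he : e.Ok) (hP1 : e.P1 36) {B : ℕ} (hB : B ≤ 39) {t : Frm} {Fs : List Frm} {A L : ℕ} (hok : e.SOk B t Fs)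
    (hlen : Fs.length ≤ 36) (hL : e.Y ^ 200 ≤ L) {m c : ℕ} (hm0 : 0 < m) (hm : Sf e.z m) (hmY : m ≤ e.Y ^ 84) (hc : c < m) :
    |(m : ℝ) * ((e.SS t Fs A L).filter (fun n : ℕ => n % m = c)).card - L * e.MM Fs.length| ≤
      2 * e.eta * (L * e.MM Fs.length) := by
  have hY := fm_Y he
  obtain ⟨A', L', h1, h2, -, h4⟩ := itv A L m c hm0 hc
  rw [ss_cp e t Fs A L A' L' m c hc h4, card_image_of_injective _ (fun x y hxy => by
    have : m * x = m * y := by simpa using hxy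
    exact Nat.eq_of_mul_eq_mul_left hm0 this)]
  have hm1 : m ≤ e.Y ^ 100 := hmY.trans (Nat.pow_le_pow_right (by omega) (by norm_num))
  have h5 := fm_mono he (show B + 1 ≤ 40 by omega) (sok_cp e he B t Fs hok m c hm hm1 hc)
  have hYL : e.Y ≤ L' := by
    by_contra hn
    push Not at hn
    have h6 : (L : ℤ) ≤ m * L' + m := h2
    have h7 : L ≤ m * L' + m := by exact_mod_cast h6
    have h8 : m * L' + m = m * (L' + 1) := by ring
    have h9 : m * (L' + 1) ≤ e.Y ^ 84 * e.Y := Nat.mul_le_mul hmY (by omega)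
    have h10 : e.Y ^ 84 * e.Y < e.Y ^ 200 := by
      rw [← pow_succ]
      exact Nat.pow_lt_pow_right (by omega) (by norm_num)
    omega
  have h6 := hP1 (t.cp c m) (Fs.map fun F => F.cp c m) A' L' h5 (by rw [List.length_map]; exact hlen) hYL
  rw [List.length_map] at h6
  have hM : 0 ≤ e.MM Fs.length := le_trans (by positivity) (he.MM0 _ hlen)
  have h7 := fm_err he hL hmY
  have h8 : (m : ℝ) * L' ≤ L + m := by exact_mod_cast h1
  have h9 : (L : ℝ) ≤ m * L' + m := by exact_mod_cast h2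
  have h0 := he.eta0
  have h01 := he.eta1
  have hmr : (0 : ℝ) < m := by exact_mod_cast hm0
  set M := e.MM Fs.length
  set C := ((e.SS (t.cp c m) (Fs.map fun F => F.cp c m) A' L').card : ℝ)
  rw [abs_le] at h6 ⊢
  obtain ⟨h61, h62⟩ := h6
  have e1 : (m : ℝ) * C - m * (L' * M) ≤ m * (e.eta * (L' * M)) := by nlinarith
  have e2 : -(m * (e.eta * (L' * M))) ≤ (m : ℝ) * C - m * (L' * M) := by nlinarith
  have e3 : m * (e.eta * (L' * M)) ≤ e.eta * ((L + m) * M) := by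
    have : (m * L') * M ≤ (L + m) * M := mul_le_mul_of_nonneg_right h8 hM
    nlinarith
  have e4 : m * (L' * M) ≤ (L + m) * M := by
    have : (m * L') * M ≤ (L + m) * M := mul_le_mul_of_nonneg_right h8 hM
    nlinarith
  have e5 : L * M ≤ m * (L' * M) + m * M := by
    have : L * M ≤ (m * L' + m) * M := mul_le_mul_of_nonneg_right h9 hM
    nlinarith
  have e6 : (1 + e.eta) * m * M ≤ e.eta * (L * M) := by
    have h10 : (1 + e.eta) * m ≤ e.eta * L := by nlinarith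
    have h11 := mul_le_mul_of_nonneg_right h10 hM
    nlinarith
  constructor
  · nlinarith
  · nlinarith

theorem fm (he : e.Ok) (hP1 : e.P1 36) (h : DH e k0 B cr eps g Ns qs k qlo qhi s dl a0 lo hi)
    (hG : BD e k0 B cr (eps * k * g) a0 lo hi t Fs A L G) {θ : Th} (hθ : θ ∈ e.TT qs qlo qhi k G.a)
    (hg : θ.Gn eps g Ns qs k G Fs) :
    |(θ.mo k : ℝ) * (e.SP eps g Ns qs k G t Fs A L θ).card - L * e.MM (Fs.length + 11)| ≤
      2 * e.eta * (L * e.MM (Fs.length + 11)) := by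
  classical
  obtain ⟨c, hc, hcn⟩ := rs h hθ
  obtain ⟨hm1, -, hm0, hm2, hm3⟩ := mo_F he h hθ
  have hlen : (Fs ++ θ.Fs eps g Ns qs k G).length = Fs.length + 11 := by
    rw [List.length_append]; rfl
  have hSP : e.SP eps g Ns qs k G t Fs A L θ =
      (e.SS t (Fs ++ θ.Fs eps g Ns qs k G) A L).filter (fun n : ℕ => n % θ.mo k = c) := by
    unfold Env.SP Env.SS
    ext n
    simp only [mem_filter, List.mem_append, hcn]
    constructor
    · rintro ⟨⟨h1, h2, h3⟩, h4, h5⟩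
      exact ⟨⟨h1, h2, fun F hF => hF.elim (h3 F) (h5 F)⟩, h4⟩
    · rintro ⟨⟨h1, h2, h3⟩, h4⟩
      exact ⟨⟨h1, h2, fun F hF => h3 F (Or.inl hF)⟩, h4, fun F hF => h3 F (Or.inr hF)⟩
  rw [hSP, ← hlen]
  have h1 := h.hk0
  have h2 := hG.len
  have h3 := h.hB
  refine fm_cnt he hP1 (B := B + 4) (by omega) (sok_F he h hG hθ hg) (by omega) (L_big he h hG) hm0 hm1
    ((hm2.trans hm3).trans (Nat.pow_le_pow_right (by have := fm_Y he; omega) (by norm_num))) hc

theorem sm (he : e.Ok) (hP1 : e.P1 36) (h : DH e k0 B cr eps g Ns qs k qlo qhi s dl a0 lo hi)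
    (hG : BD e k0 B cr (eps * k * g) a0 lo hi t Fs A L G) {θ θ' : Th} (hθ : θ ∈ e.TT qs qlo qhi k G.a)
    (hθ' : θ' ∈ e.TT qs qlo qhi k G.a) (hg : θ.Gn eps g Ns qs k G Fs) (hg' : θ'.Gn eps g Ns qs k G Fs)
    (hgg : ∀ F ∈ θ.Fs eps g Ns qs k G, ∀ F' ∈ θ'.Fs eps g Ns qs k G, F.NP F')
    (hc : (θ.mo k).Coprime (θ'.mo k)) :
    (θ.mo k : ℝ) * θ'.mo k * (e.SP eps g Ns qs k G t Fs A L θ ∩ e.SP eps g Ns qs k G t Fs A L θ').card ≤
      (1 + 2 * e.eta) * (L * e.MM (Fs.length + 22)) := by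
  classical
  obtain ⟨c, hcm, hcn⟩ := rs2 h hθ hθ' hc
  obtain ⟨hm1, -, hm0, hm2, hm3⟩ := mo_F he h hθ
  obtain ⟨hm1', -, hm0', hm2', hm3'⟩ := mo_F he h hθ'
  have hlen : (Fs ++ (θ.Fs eps g Ns qs k G ++ θ'.Fs eps g Ns qs k G)).length = Fs.length + 22 := by
    rw [List.length_append, List.length_append]; rfl
  have hSP : e.SP eps g Ns qs k G t Fs A L θ ∩ e.SP eps g Ns qs k G t Fs A L θ' =
      (e.SS t (Fs ++ (θ.Fs eps g Ns qs k G ++ θ'.Fs eps g Ns qs k G)) A L).filter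
        (fun n : ℕ => n % (θ.mo k * θ'.mo k) = c) := by
    unfold Env.SP Env.SS
    ext n
    simp only [mem_inter, mem_filter, List.mem_append, ← hcn]
    constructor
    · rintro ⟨⟨⟨h1, h2, h3⟩, h4, h5⟩, -, h6, h7⟩
      exact ⟨⟨h1, h2, fun F hF => hF.elim (h3 F) fun hF => hF.elim (h5 F) (h7 F)⟩, h4, h6⟩
    · rintro ⟨⟨h1, h2, h3⟩, h4, h5⟩
      exact ⟨⟨⟨h1, h2, fun F hF => h3 F (Or.inl hF)⟩, h4, fun F hF => h3 F (Or.inr (Or.inl hF))⟩,
        ⟨h1, h2, fun F hF => h3 F (Or.inl hF)⟩, h5, fun F hF => h3 F (Or.inr (Or.inr hF))⟩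
  have hok : e.SOk (B + 4) t (Fs ++ (θ.Fs eps g Ns qs k G ++ θ'.Fs eps g Ns qs k G)) := by
    have h1 := sok_F he h hG hθ hg
    have h2 := sok_F he h hG hθ' hg'
    refine ⟨h1.ta, ?_, ?_, ?_, ?_⟩
    · intro F hF
      rw [List.mem_append, List.mem_append] at hF
      rcases hF with hF | hF | hF
      · exact h1.sa F (List.mem_append_left _ hF)
      · exact h1.sa F (List.mem_append_right _ hF)
      · exact h2.sa F (List.mem_append_right _ hF)
    · intro F hF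
      rw [List.mem_append, List.mem_append] at hF
      rcases hF with hF | hF | hF
      · exact h1.bd F (List.mem_append_left _ hF)
      · exact h1.bd F (List.mem_append_right _ hF)
      · exact h2.bd F (List.mem_append_right _ hF)
    · intro F hF
      rw [List.mem_append, List.mem_append] at hF
      rcases hF with hF | hF | hF
      · exact h1.ty F (List.mem_append_left _ hF)
      · exact h1.ty F (List.mem_append_right _ hF)
      · exact h2.ty F (List.mem_append_right _ hF)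
    · have h3 := List.pairwise_append.1 hg
      have h4 := List.pairwise_append.1 hg'
      rw [List.pairwise_append]
      refine ⟨h3.1, ?_, ?_⟩
      · rw [List.pairwise_append]
        exact ⟨h3.2.1, h4.2.1, hgg⟩
      · intro F hF F' hF'
        rcases List.mem_append.1 hF' with hF' | hF'
        · exact h3.2.2 F hF F' hF'
        · exact h4.2.2 F hF F' hF'
  rw [hSP, ← hlen]
  have h1 := h.hk0
  have h2 := hG.len
  have h3 := h.hB
  have hSf : Sf e.z ((θ.mo k * θ'.mo k : ℕ) : ℤ) := by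
    intro p hp hpz hd
    rw [Nat.cast_mul] at hd
    rcases (Nat.prime_iff_prime_int.1 hp).dvd_or_dvd hd with hd | hd
    · exact hm1 p hp hpz hd
    · exact hm1' p hp hpz hd
  have hmm : θ.mo k * θ'.mo k ≤ e.Y ^ 84 := by
    calc θ.mo k * θ'.mo k ≤ e.Y ^ 42 * e.Y ^ 42 := Nat.mul_le_mul (hm2.trans hm3) (hm2'.trans hm3')
      _ = e.Y ^ 84 := by rw [← pow_add]
  have h4 := fm_cnt he hP1 (B := B + 4) (A := A) (by omega) hok (by omega) (L_big he h hG) (Nat.mul_pos hm0 hm0') hSf hmm hcm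
  rw [abs_le] at h4
  have h5 := h4.2
  push_cast at h5
  linarith

end Pool.Agent.Lib.EX
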