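import Pool.Agent.Lib.MP_61161c_nt.EX.Rs

/-!
# EX, module Gn1: anticoncentration of the roots of the interior forms

Every interior form is `α G + β(θ)` with a fixed `α ≠ 0` (`α ∈ {1, -1, eps, -eps, -qs}`). For a fixed value `v` the equation `β(θ) = v` determines one of
the parameters when the others are fixed: `F1 : n1`, `F2, F3, F4 : n1`, `F5 : n1` (`eps = 1`, `β = n1 - q g`) or `n1'` (`eps = -1`, `β = n1' - q g`), `F6 : q`,
`F7 : n2`, `F8, F9, F10 : n2`, `F11 : n2` (`eps = 1`, `β = n2 - k g`) or `n2'` (`eps = -1`, `β = n2' + k g`).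
A form `C` (`C.a ≠ 0`, `G.a ≠ 0`) is proportional to `α G + β` iff `β = (a determined rational number)`.
-/

set_option autoImplicit false

open Finset

namespace Pool.Agent.Lib.EX

variable {e : Env} {k0 B cr : ℕ} {eps g : ℤ} {Ns qs : ℕ} {k : ℤ} {qlo qhi : ℕ} {s dl : ℝ} {a0 lo hi : ℤ}
  {t : Frm} {Fs : List Frm} {A L : ℕ} {G : Frm}

private lemma gn1_mem_TT {a : ℤ} {θ : Th} (h : θ ∈ e.TT qs qlo qhi k a) :
    θ.q ∈ e.Qs qs qlo qhi k a ∧ θ.n1 ∈ e.E ∧ θ.n1' ∈ e.E ∧ θ.n2 ∈ e.E ∧ θ.n2' ∈ e.E := by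
  unfold Env.TT at h
  rw [mem_image] at h
  obtain ⟨x, hx, rfl⟩ := h
  simp only [mem_product] at hx
  exact ⟨hx.1, hx.2.1.1, hx.2.1.2, hx.2.2.1, hx.2.2.2⟩

private lemma gn1_card4 {β : Type} [DecidableEq β] (S : Finset Th) (f : Th → β) (T : Finset β)
    (hf : ∀ θ ∈ S, f θ ∈ T) (hi : ∀ θ ∈ S, ∀ θ' ∈ S, f θ = f θ' → θ = θ') : S.card ≤ T.card :=
  Finset.card_le_card_of_injOn f (fun θ hθ => hf θ hθ) (fun θ hθ θ' hθ' h => hi θ hθ θ' hθ' h)

private lemma gn1_n1 {a : ℤ} {S : Finset Th} (hS : ∀ θ ∈ S, θ ∈ e.TT qs qlo qhi k a)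
    (hd : ∀ θ ∈ S, ∀ θ' ∈ S, θ.q = θ'.q → θ.n1' = θ'.n1' → θ.n2 = θ'.n2 → θ.n2' = θ'.n2' → θ.n1 = θ'.n1) :
    (S.card : ℝ) ≤ (e.Qs qs qlo qhi k a).card * e.E.card ^ 3 + e.E.card ^ 4 := by
  have h1 : S.card ≤ (e.Qs qs qlo qhi k a ×ˢ e.E ×ˢ e.E ×ˢ e.E).card := by
    refine gn1_card4 S (fun θ => (θ.q, θ.n1', θ.n2, θ.n2')) _ (fun θ hθ => ?_) (fun θ hθ θ' hθ' h => ?_)
    · obtain ⟨h1, h2, h3, h4, h5⟩ := gn1_mem_TT (hS θ hθ)
      simp only [mem_product]
      exact ⟨h1, h3, h4, h5⟩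
    · simp only [Prod.mk.injEq] at h
      obtain ⟨h1, h2, h3, h4⟩ := h
      have h5 := hd θ hθ θ' hθ' h1 h2 h3 h4
      cases θ; cases θ'
      simp only at h1 h2 h3 h4 h5
      simp only [h1, h2, h3, h4, h5]
  rw [card_product, card_product, card_product] at h1
  have h2 : (S.card : ℝ) ≤ (e.Qs qs qlo qhi k a).card * (e.E.card * (e.E.card * e.E.card)) := by
    exact_mod_cast h1
  have h3 : (0 : ℝ) ≤ (e.E.card : ℝ) ^ 4 := by positivity
  nlinarith

private lemma gn1_n1' {a : ℤ} {S : Finset Th} (hS : ∀ θ ∈ S, θ ∈ e.TT qs qlo qhi k a)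
    (hd : ∀ θ ∈ S, ∀ θ' ∈ S, θ.q = θ'.q → θ.n1 = θ'.n1 → θ.n2 = θ'.n2 → θ.n2' = θ'.n2' → θ.n1' = θ'.n1') :
    (S.card : ℝ) ≤ (e.Qs qs qlo qhi k a).card * e.E.card ^ 3 + e.E.card ^ 4 := by
  have h1 : S.card ≤ (e.Qs qs qlo qhi k a ×ˢ e.E ×ˢ e.E ×ˢ e.E).card := by
    refine gn1_card4 S (fun θ => (θ.q, θ.n1, θ.n2, θ.n2')) _ (fun θ hθ => ?_) (fun θ hθ θ' hθ' h => ?_)
    · obtain ⟨h1, h2, h3, h4, h5⟩ := gn1_mem_TT (hS θ hθ)
      simp only [mem_product]
      exact ⟨h1, h2, h4, h5⟩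
    · simp only [Prod.mk.injEq] at h
      obtain ⟨h1, h2, h3, h4⟩ := h
      have h5 := hd θ hθ θ' hθ' h1 h2 h3 h4
      cases θ; cases θ'
      simp only at h1 h2 h3 h4 h5
      simp only [h1, h2, h3, h4, h5]
  rw [card_product, card_product, card_product] at h1
  have h2 : (S.card : ℝ) ≤ (e.Qs qs qlo qhi k a).card * (e.E.card * (e.E.card * e.E.card)) := by
    exact_mod_cast h1
  have h3 : (0 : ℝ) ≤ (e.E.card : ℝ) ^ 4 := by positivity
  nlinarith

private lemma gn1_n2 {a : ℤ} {S : Finset Th} (hS : ∀ θ ∈ S, θ ∈ e.TT qs qlo qhi k a)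
    (hd : ∀ θ ∈ S, ∀ θ' ∈ S, θ.q = θ'.q → θ.n1 = θ'.n1 → θ.n1' = θ'.n1' → θ.n2' = θ'.n2' → θ.n2 = θ'.n2) :
    (S.card : ℝ) ≤ (e.Qs qs qlo qhi k a).card * e.E.card ^ 3 + e.E.card ^ 4 := by
  have h1 : S.card ≤ (e.Qs qs qlo qhi k a ×ˢ e.E ×ˢ e.E ×ˢ e.E).card := by
    refine gn1_card4 S (fun θ => (θ.q, θ.n1, θ.n1', θ.n2')) _ (fun θ hθ => ?_) (fun θ hθ θ' hθ' h => ?_)
    · obtain ⟨h1, h2, h3, h4, h5⟩ := gn1_mem_TT (hS θ hθ)
      simp only [mem_product]
      exact ⟨h1, h2, h3, h5⟩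
    · simp only [Prod.mk.injEq] at h
      obtain ⟨h1, h2, h3, h4⟩ := h
      have h5 := hd θ hθ θ' hθ' h1 h2 h3 h4
      cases θ; cases θ'
      simp only at h1 h2 h3 h4 h5
      simp only [h1, h2, h3, h4, h5]
  rw [card_product, card_product, card_product] at h1
  have h2 : (S.card : ℝ) ≤ (e.Qs qs qlo qhi k a).card * (e.E.card * (e.E.card * e.E.card)) := by
    exact_mod_cast h1
  have h3 : (0 : ℝ) ≤ (e.E.card : ℝ) ^ 4 := by positivity
  nlinarith

private lemma gn1_n2' {a : ℤ} {S : Finset Th} (hS : ∀ θ ∈ S, θ ∈ e.TT qs qlo qhi k a)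
    (hd : ∀ θ ∈ S, ∀ θ' ∈ S, θ.q = θ'.q → θ.n1 = θ'.n1 → θ.n1' = θ'.n1' → θ.n2 = θ'.n2 → θ.n2' = θ'.n2') :
    (S.card : ℝ) ≤ (e.Qs qs qlo qhi k a).card * e.E.card ^ 3 + e.E.card ^ 4 := by
  have h1 : S.card ≤ (e.Qs qs qlo qhi k a ×ˢ e.E ×ˢ e.E ×ˢ e.E).card := by
    refine gn1_card4 S (fun θ => (θ.q, θ.n1, θ.n1', θ.n2)) _ (fun θ hθ => ?_) (fun θ hθ θ' hθ' h => ?_)
    · obtain ⟨h1, h2, h3, h4, h5⟩ := gn1_mem_TT (hS θ hθ)
      simp only [mem_product]
      exact ⟨h1, h2, h3, h4⟩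
    · simp only [Prod.mk.injEq] at h
      obtain ⟨h1, h2, h3, h4⟩ := h
      have h5 := hd θ hθ θ' hθ' h1 h2 h3 h4
      cases θ; cases θ'
      simp only at h1 h2 h3 h4 h5
      simp only [h1, h2, h3, h4, h5]
  rw [card_product, card_product, card_product] at h1
  have h2 : (S.card : ℝ) ≤ (e.Qs qs qlo qhi k a).card * (e.E.card * (e.E.card * e.E.card)) := by
    exact_mod_cast h1
  have h3 : (0 : ℝ) ≤ (e.E.card : ℝ) ^ 4 := by positivity
  nlinarith

private lemma gn1_q {a : ℤ} {S : Finset Th} (hS : ∀ θ ∈ S, θ ∈ e.TT qs qlo qhi k a)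
    (hd : ∀ θ ∈ S, ∀ θ' ∈ S, θ.n1 = θ'.n1 → θ.n1' = θ'.n1' → θ.n2 = θ'.n2 → θ.n2' = θ'.n2' → θ.q = θ'.q) :
    (S.card : ℝ) ≤ (e.Qs qs qlo qhi k a).card * e.E.card ^ 3 + e.E.card ^ 4 := by
  have h1 : S.card ≤ (e.E ×ˢ e.E ×ˢ e.E ×ˢ e.E).card := by
    refine gn1_card4 S (fun θ => (θ.n1, θ.n1', θ.n2, θ.n2')) _ (fun θ hθ => ?_) (fun θ hθ θ' hθ' h => ?_)
    · obtain ⟨h1, h2, h3, h4, h5⟩ := gn1_mem_TT (hS θ hθ)
      simp only [mem_product]
      exact ⟨h2, h3, h4, h5⟩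
    · simp only [Prod.mk.injEq] at h
      obtain ⟨h1, h2, h3, h4⟩ := h
      have h5 := hd θ hθ θ' hθ' h1 h2 h3 h4
      cases θ; cases θ'
      simp only at h1 h2 h3 h4 h5
      simp only [h1, h2, h3, h4, h5]
  rw [card_product, card_product, card_product] at h1
  have h2 : (S.card : ℝ) ≤ e.E.card * (e.E.card * (e.E.card * e.E.card)) := by
    exact_mod_cast h1
  have h3 : (0 : ℝ) ≤ (e.Qs qs qlo qhi k a).card * (e.E.card : ℝ) ^ 3 := by positivity
  nlinarith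

private lemma gn1_key {C G : Frm} (hC : C.a ≠ 0) {α β β' : ℤ}
    (h1 : C.a * (α * G.b + β) = (α * G.a) * C.b) (h2 : C.a * (α * G.b + β') = (α * G.a) * C.b) : β = β' := by
  have h3 : C.a * β = C.a * β' := by linarith
  exact mul_left_cancel₀ hC h3

private lemma gn1_list (T : Finset Th) (P : Frm → Prop) (M : ℝ) (l : List (Th → Frm))
    (h : ∀ f ∈ l, ∀ S : Finset Th, (∀ θ ∈ S, θ ∈ T) → (∀ θ ∈ S, P (f θ)) → (S.card : ℝ) ≤ M)
    (S : Finset Th) (hS : ∀ θ ∈ S, θ ∈ T) (hP : ∀ θ ∈ S, ∃ F ∈ l.map (fun f => f θ), P F) :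
    (S.card : ℝ) ≤ l.length * M := by
  classical
  induction l generalizing S with
  | nil =>
    have h1 : S = ∅ := by
      rw [eq_empty_iff_forall_notMem]
      intro θ hθ
      obtain ⟨F, hF, _⟩ := hP θ hθ
      simp at hF
    rw [h1]
    simp
  | cons f l ih =>
    have h1 := h f (List.mem_cons_self ..) (S.filter fun θ => P (f θ)) (fun θ hθ => hS θ (mem_filter.1 hθ).1)
      (fun θ hθ => (mem_filter.1 hθ).2)
    have h2 := ih (fun g hg => h g (List.mem_cons_of_mem _ hg)) (S.filter fun θ => ¬ P (f θ))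
      (fun θ hθ => hS θ (mem_filter.1 hθ).1) (fun θ hθ => by
        rw [mem_filter] at hθ
        obtain ⟨F, hF, hPF⟩ := hP θ hθ.1
        rw [List.map_cons, List.mem_cons] at hF
        rcases hF with hF | hF
        · exact absurd (hF ▸ hPF) hθ.2
        · exact ⟨F, hF, hPF⟩)
    have h3 := card_filter_add_card_filter_not (s := S) (fun θ => P (f θ))
    have h4 : (S.card : ℝ) = ((S.filter fun θ => P (f θ)).card : ℝ) + ((S.filter fun θ => ¬ P (f θ)).card : ℝ) := by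
      exact_mod_cast h3.symm
    rw [List.length_cons]
    push_cast
    linarith

open Classical in
/-- at most `11 (|Qs| |E|^3 + |E|^4)` paths have a form proportional to a given form `C` -/
theorem anti (h : DH e k0 B cr eps g Ns qs k qlo qhi s dl a0 lo hi) (ha : G.a ≠ 0) (C : Frm) (hC : C.a ≠ 0) :
    (((e.TT qs qlo qhi k G.a).filter fun θ => ∃ F ∈ θ.Fs eps g Ns qs k G, ¬ C.NP F ∨ ¬ F.NP C).card : ℝ) ≤
      11 * ((e.Qs qs qlo qhi k G.a).card * e.E.card ^ 3 + e.E.card ^ 4) := by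
  have hqs0 : (qs : ℤ) ≠ 0 := by
    have h1 := h.hqs1.2
    have h2 := h.hq2.1
    have h3 : 0 < |k| := abs_pos.2 h.hk
    have h4 : (0 : ℤ) ≤ qlo := Int.natCast_nonneg _
    have h5 : (qhi : ℤ) ≤ 2 * qs := by exact_mod_cast h1
    omega
  have hg0 : g ≠ 0 := h.hg.1.ne'
  have heps0 : eps ≠ 0 := by
    rcases h.heps with h1 | h1 <;> rw [h1] <;> norm_num
  have hm1 : ¬ ((-1 : ℤ) = 1) := by norm_num
  set fs : List (Th → Frm) := [fun θ => θ.F1 G, fun θ => θ.F2 G, fun θ => θ.F3 Ns qs G, fun θ => θ.F4 eps g G,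
    fun θ => θ.F5 eps g G, fun θ => θ.F6 eps g G, fun θ => θ.F7 eps g G, fun θ => θ.F8 eps g G,
    fun θ => θ.F9 eps g Ns qs k G, fun θ => θ.F10 eps g k G, fun θ => θ.F11 eps g k G] with hfs
  have hlen : ((fs.length : ℕ) : ℝ) = 11 := by
    rw [hfs]
    simp
  rw [← hlen]
  refine gn1_list (e.TT qs qlo qhi k G.a) (fun F => C.a * F.b = F.a * C.b)
    ((e.Qs qs qlo qhi k G.a).card * e.E.card ^ 3 + e.E.card ^ 4) fs ?_ _ (fun θ hθ => (mem_filter.1 hθ).1) ?_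
  swap
  · intro θ hθ
    obtain ⟨h1, F, hF, hP⟩ := mem_filter.1 hθ
    refine ⟨F, ?_, ?_⟩
    · rw [hfs]
      simpa [Th.Fs] using hF
    · unfold Frm.NP at hP
      rcases hP with hP | hP
      · push Not at hP
        exact hP
      · push Not at hP
        exact hP.symm
  · intro f hf S hS hP
    -- a general tool: the value `β` is determined
    have hdet : ∀ (α : ℤ) (β : Th → ℤ), (∀ θ, (f θ).a = α * G.a ∧ (f θ).b = α * G.b + β θ) →
        ∀ θ ∈ S, ∀ θ' ∈ S, β θ = β θ' := by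
      intro α β hαβ θ hθ θ' hθ'
      have h1 := hP θ hθ
      have h2 := hP θ' hθ'
      rw [(hαβ θ).1, (hαβ θ).2] at h1
      rw [(hαβ θ').1, (hαβ θ').2] at h2
      exact gn1_key hC h1 h2
    rw [hfs] at hf
    simp only [List.mem_cons, List.not_mem_nil, or_false] at hf
    rcases hf with rfl | rfl | rfl | rfl | rfl | rfl | rfl | rfl | rfl | rfl | rfl
    · -- F1
      refine gn1_n1 hS (fun θ hθ θ' hθ' hq h1 h2 h3 => ?_)
      have := hdet (-1) (fun θ => (θ.n1 : ℤ)) (fun θ => by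
        constructor <;> simp only [Th.F1, Frm.af]) θ hθ θ' hθ'
      beta_reduce at this
      exact_mod_cast this
    · -- F2
      refine gn1_n1 hS (fun θ hθ θ' hθ' hq h1 h2 h3 => ?_)
      have := hdet 1 (fun θ => (θ.n1' : ℤ) - θ.n1) (fun θ => by
        constructor <;> simp only [Th.F2, Frm.af]) θ hθ θ' hθ'
      simp only [h1] at this
      have h4 : (θ.n1 : ℤ) = θ'.n1 := by linarith
      exact_mod_cast h4
    · -- F3
      refine gn1_n1 hS (fun θ hθ θ' hθ' hq h1 h2 h3 => ?_)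
      have := hdet (-qs) (fun θ => -qs * ((θ.n1' : ℤ) - θ.n1) + θ.q * Ns) (fun θ => by
        constructor <;> simp only [Th.F3, Th.F2, Frm.af] <;> ring) θ hθ θ' hθ'
      simp only [h1, hq] at this
      have h4 : (qs : ℤ) * (θ.n1 : ℤ) = qs * θ'.n1 := by linarith
      have h5 := mul_left_cancel₀ hqs0 h4
      exact_mod_cast h5
    · -- F4
      refine gn1_n1 hS (fun θ hθ θ' hθ' hq h1 h2 h3 => ?_)
      have := hdet eps (fun θ => eps * ((θ.n1' : ℤ) - θ.n1) + θ.q * g) (fun θ => by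
        constructor <;> simp only [Th.F4, Th.F2, Frm.af] <;> ring) θ hθ θ' hθ'
      simp only [h1, hq] at this
      have h4 : eps * (θ.n1 : ℤ) = eps * θ'.n1 := by linarith
      have h5 := mul_left_cancel₀ heps0 h4
      exact_mod_cast h5
    · -- F5
      rcases h.heps with he | he
      · refine gn1_n1 hS (fun θ hθ θ' hθ' hq h1 h2 h3 => ?_)
        have := hdet (-1) (fun θ => (θ.n1 : ℤ) - θ.q * g) (fun θ => by
          constructor <;> simp only [Th.F5, Th.F4, Th.F2, Th.nA, Frm.af, he, if_true] <;> ring) θ hθ θ' hθ'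
        simp only [hq] at this
        have h4 : (θ.n1 : ℤ) = θ'.n1 := by linarith
        exact_mod_cast h4
      · refine gn1_n1' hS (fun θ hθ θ' hθ' hq h1 h2 h3 => ?_)
        have := hdet 1 (fun θ => (θ.n1' : ℤ) - θ.q * g) (fun θ => by
          constructor <;> simp only [Th.F5, Th.F4, Th.F2, Th.nA, Frm.af, he, if_neg hm1] <;> ring) θ hθ θ' hθ'
        simp only [hq] at this
        have h4 : (θ.n1' : ℤ) = θ'.n1' := by linarith
        exact_mod_cast h4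
    · -- F6
      refine gn1_q hS (fun θ hθ θ' hθ' h0 h1 h2 h3 => ?_)
      have := hdet eps (fun θ => (θ.q : ℤ) * g) (fun θ => by
        constructor <;> simp only [Th.F6, Frm.af]) θ hθ θ' hθ'
      beta_reduce at this
      have h5 := mul_right_cancel₀ hg0 this
      exact_mod_cast h5
    · -- F7
      refine gn1_n2 hS (fun θ hθ θ' hθ' hq h1 h2 h3 => ?_)
      have := hdet (-eps) (fun θ => (θ.n2 : ℤ) - θ.q * g) (fun θ => by
        constructor <;> simp only [Th.F7, Th.F6, Frm.af] <;> ring) θ hθ θ' hθ'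
      simp only [hq] at this
      have h4 : (θ.n2 : ℤ) = θ'.n2 := by linarith
      exact_mod_cast h4
    · -- F8
      refine gn1_n2 hS (fun θ hθ θ' hθ' hq h1 h2 h3 => ?_)
      have := hdet eps (fun θ => (θ.n2' : ℤ) - θ.n2 + θ.q * g) (fun θ => by
        constructor <;> simp only [Th.F8, Th.F6, Frm.af] <;> ring) θ hθ θ' hθ'
      simp only [hq, h3] at this
      have h4 : (θ.n2 : ℤ) = θ'.n2 := by linarith
      exact_mod_cast h4
    · -- F9
      refine gn1_n2 hS (fun θ hθ θ' hθ' hq h1 h2 h3 => ?_)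
      have hee : eps * eps = 1 := by
        rcases h.heps with h1 | h1 <;> rw [h1] <;> norm_num
      have := hdet (-qs * (eps * eps)) (fun θ => -qs * (eps * ((θ.n2' : ℤ) - θ.n2) + eps * (θ.q * g) -
          eps * ((θ.q - k) * g)) + (θ.q - k) * Ns) (fun θ => by
        constructor <;> simp only [Th.F9, Th.F10, Th.F8, Th.F6, Frm.af] <;> ring) θ hθ θ' hθ'
      simp only [hq, h3] at this
      have h4 : ((qs : ℤ) * eps) * (θ.n2 : ℤ) = (qs * eps) * θ'.n2 := by linarith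
      have h5 := mul_left_cancel₀ (mul_ne_zero hqs0 heps0) h4
      exact_mod_cast h5
    · -- F10
      refine gn1_n2 hS (fun θ hθ θ' hθ' hq h1 h2 h3 => ?_)
      have := hdet (eps * eps) (fun θ => eps * ((θ.n2' : ℤ) - θ.n2) + eps * (θ.q * g) -
          eps * ((θ.q - k) * g)) (fun θ => by
        constructor <;> simp only [Th.F10, Th.F8, Th.F6, Frm.af] <;> ring) θ hθ θ' hθ'
      simp only [hq, h3] at this
      have h4 : eps * (θ.n2 : ℤ) = eps * θ'.n2 := by linarith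
      have h5 := mul_left_cancel₀ heps0 h4
      exact_mod_cast h5
    · -- F11
      rcases h.heps with he | he
      · refine gn1_n2 hS (fun θ hθ θ' hθ' hq h1 h2 h3 => ?_)
        have := hdet (-1) (fun θ => (θ.n2 : ℤ) - k * g) (fun θ => by
          constructor <;> simp only [Th.F11, Th.F10, Th.F8, Th.F6, Th.nC, Frm.af, he, if_true] <;> ring)
          θ hθ θ' hθ'
        beta_reduce at this
        have h4 : (θ.n2 : ℤ) = θ'.n2 := by linarith
        exact_mod_cast h4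
      · refine gn1_n2' hS (fun θ hθ θ' hθ' hq h1 h2 h3 => ?_)
        have := hdet (-1) (fun θ => (θ.n2' : ℤ) + k * g) (fun θ => by
          constructor <;> simp only [Th.F11, Th.F10, Th.F8, Th.F6, Th.nC, Frm.af, he, if_neg hm1] <;> ring)
          θ hθ θ' hθ'
        beta_reduce at this
        have h4 : (θ.n2' : ℤ) = θ'.n2' := by linarith
        exact_mod_cast h4

end Pool.Agent.Lib.EX
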