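import Pool.Agent.Lib.MP_61161c_nt.EX.Gn1

/-!
# EX, module Gn2: the forms of one path are pairwise non proportional, except for few paths

With `F_s = α_s G + β_s` put `D(s,t) = α_s β_t - α_t β_s` (`F_s.NP F_t` iff `D(s,t) ≠ 0`, as `G.a ≠ 0`); `h = n1' - n1`, `h' = n2' - n2`, `q' = q - k`.
First half: D(1,2) = -n1', D(1,3) = -q Ns + qs n1', D(1,4) = -eps n1' - q g, D(1,5) = q g (eps = 1), -n1' - n1 + q g (eps = -1),
D(2,3) = q Ns, D(2,4) = q g, D(2,5) = nA - q g, D(3,4) = -q (qs g + eps Ns), D(3,5) = -qs nA + qs q g + eps q Ns, D(4,5) = eps nA,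
D(1,6) = -q g - eps n1, D(2,6) = q g - eps h, D(3,6) = -qs q g - eps (q Ns - qs h), D(4,6) = -h, D(5,6) = -eps nA + h.
Second half: D(7,8) = -eps n2', D(7,9) = -eps q' Ns + qs n2' - qs q' g, D(7,10) = -n2' + q' g, D(7,11) = -q' g (eps = 1), n2 + n2' - q' g (eps = -1),
D(8,9) = q' (eps Ns + qs g), D(8,10) = -q' g, D(8,11) = eps nC + q' g, D(9,10) = -q' Ns, D(9,11) = -qs nC + q' Ns, D(10,11) = nC.
Each is never `0` or linear in one of the E-parameters with non zero coefficient. Second half against first half and `F6`: `F_t`, `t ≥ 7`, determines `n2` (or `n2'`) as in `anti`.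
-/

set_option autoImplicit false

open Finset

namespace Pool.Agent.Lib.EX

variable {e : Env} {k0 B cr : ℕ} {eps g : ℤ} {Ns qs : ℕ} {k : ℤ} {qlo qhi : ℕ} {s dl : ℝ} {a0 lo hi : ℤ}
  {t : Frm} {Fs : List Frm} {A L : ℕ} {G : Frm}

open Classical in
private theorem gn2_ex {α : Type*} (T : Finset α) (B : ℕ) (a : α → Frm) : ∀ l : List (α → Frm),
    (∀ f ∈ l, (T.filter fun x => ¬ (a x).NP (f x)).card ≤ B) →
    (T.filter fun x => ∃ f ∈ l, ¬ (a x).NP (f x)).card ≤ l.length * B := by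
  intro l
  induction l with
  | nil => intro _; simp
  | cons b l ih =>
    intro h
    have h1 : (T.filter fun x => ∃ f ∈ b :: l, ¬ (a x).NP (f x)) ⊆
        (T.filter fun x => ¬ (a x).NP (b x)) ∪ (T.filter fun x => ∃ f ∈ l, ¬ (a x).NP (f x)) := by
      intro x hx
      rw [mem_filter] at hx
      rw [mem_union, mem_filter, mem_filter]
      obtain ⟨hx1, f, hf, hx2⟩ := hx
      rcases List.mem_cons.1 hf with rfl | hf
      · exact Or.inl ⟨hx1, hx2⟩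
      · exact Or.inr ⟨hx1, f, hf, hx2⟩
    have h2 := ih fun f hf => h f (List.mem_cons_of_mem _ hf)
    have h3 := h b (List.mem_cons_self)
    rw [List.length_cons, add_mul, one_mul]
    have h4 := (card_le_card h1).trans (card_union_le _ _)
    omega

open Classical in
private theorem gn2_list {α : Type*} (T : Finset α) (B : ℕ) : ∀ l : List (α → Frm),
    (l.Pairwise fun f f' => (T.filter fun x => ¬ (f x).NP (f' x)).card ≤ B) →
    (T.filter fun x => ¬ (l.map fun f => f x).Pairwise Frm.NP).card ≤ l.length.choose 2 * B := by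
  intro l
  induction l with
  | nil => intro _; simp
  | cons b l ih =>
    intro h
    rw [List.pairwise_cons] at h
    have h1 : (T.filter fun x => ¬ ((b :: l).map fun f => f x).Pairwise Frm.NP) ⊆
        (T.filter fun x => ∃ f ∈ l, ¬ (b x).NP (f x)) ∪ (T.filter fun x => ¬ (l.map fun f => f x).Pairwise Frm.NP) := by
      intro x hx
      rw [mem_filter] at hx
      rw [mem_union, mem_filter, mem_filter]
      obtain ⟨hx1, hx2⟩ := hx
      by_cases hc : ∃ f ∈ l, ¬ (b x).NP (f x)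
      · exact Or.inl ⟨hx1, hc⟩
      · refine Or.inr ⟨hx1, fun hp => hx2 ?_⟩
        rw [List.map_cons, List.pairwise_cons]
        refine ⟨fun F hF => ?_, hp⟩
        obtain ⟨f, hf, rfl⟩ := List.mem_map.1 hF
        by_contra hn
        exact hc ⟨f, hf, hn⟩
    have h2 := gn2_ex T B b l h.1
    have h3 := ih h.2
    have h4 := (card_le_card h1).trans (card_union_le _ _)
    have h5 : (b :: l).length.choose 2 = l.length + l.length.choose 2 := by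
      rw [List.length_cons, Nat.choose_succ_succ' l.length 1, Nat.choose_one_right]
    rw [h5, add_mul]
    omega

private theorem gn2_cnt {a : ℤ} (P : Th → Prop) [DecidablePred P] (f : Th → ℕ × ℕ × ℕ × ℕ)
    (hm : ∀ q ∈ e.Qs qs qlo qhi k a, ∀ n1 ∈ e.E, ∀ n1' ∈ e.E, ∀ n2 ∈ e.E, ∀ n2' ∈ e.E,
      f ⟨q, n1, n1', n2, n2'⟩ ∈ e.Qs qs qlo qhi k a ×ˢ e.E ×ˢ e.E ×ˢ e.E)
    (hi : ∀ θ θ', P θ → P θ' → f θ = f θ' → θ = θ') :
    ((e.TT qs qlo qhi k a).filter P).card ≤ (e.Qs qs qlo qhi k a).card * e.E.card ^ 3 := by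
  have h1 : (e.Qs qs qlo qhi k a ×ˢ e.E ×ˢ e.E ×ˢ e.E).card = (e.Qs qs qlo qhi k a).card * e.E.card ^ 3 := by
    rw [card_product, card_product, card_product]; ring
  rw [← h1]
  refine card_le_card_of_injOn f ?_ ?_
  · intro θ hθ
    rw [mem_coe, mem_filter] at hθ
    obtain ⟨hθ1, -⟩ := hθ
    unfold Env.TT at hθ1
    rw [mem_image] at hθ1
    obtain ⟨x, hx, rfl⟩ := hθ1
    rw [mem_product, mem_product, mem_product, mem_product] at hx
    exact hm _ hx.1 _ hx.2.1.1 _ hx.2.1.2 _ hx.2.2.1 _ hx.2.2.2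
  · intro θ hθ θ' hθ' hf
    rw [mem_coe, mem_filter] at hθ hθ'
    exact hi θ θ' hθ.2 hθ'.2 hf

private theorem gn2_c1 {a : ℤ} (P : Th → Prop) [DecidablePred P] (hi : ∀ q x y b c d, P ⟨q, x, b, c, d⟩ → P ⟨q, y, b, c, d⟩ → x = y) :
    ((e.TT qs qlo qhi k a).filter P).card ≤ (e.Qs qs qlo qhi k a).card * e.E.card ^ 3 := by
  refine gn2_cnt P (fun θ => (θ.q, θ.n1', θ.n2, θ.n2')) ?_ ?_
  · intro q hq n1 h1 n1' h1' n2 h2 n2' h2'
    simp only [mem_product]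
    exact ⟨hq, h1', h2, h2'⟩
  · rintro ⟨q, x, b, c, d⟩ ⟨q', y, b', c', d'⟩ h1 h2 h3
    simp only [Prod.mk.injEq] at h3
    obtain ⟨rfl, rfl, rfl, rfl⟩ := h3
    rw [hi _ _ _ _ _ _ h1 h2]

private theorem gn2_c2 {a : ℤ} (P : Th → Prop) [DecidablePred P] (hi : ∀ q x y b c d, P ⟨q, b, x, c, d⟩ → P ⟨q, b, y, c, d⟩ → x = y) :
    ((e.TT qs qlo qhi k a).filter P).card ≤ (e.Qs qs qlo qhi k a).card * e.E.card ^ 3 := by
  refine gn2_cnt P (fun θ => (θ.q, θ.n1, θ.n2, θ.n2')) ?_ ?_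
  · intro q hq n1 h1 n1' h1' n2 h2 n2' h2'
    simp only [mem_product]
    exact ⟨hq, h1, h2, h2'⟩
  · rintro ⟨q, b, x, c, d⟩ ⟨q', b', y, c', d'⟩ h1 h2 h3
    simp only [Prod.mk.injEq] at h3
    obtain ⟨rfl, rfl, rfl, rfl⟩ := h3
    rw [hi _ _ _ _ _ _ h1 h2]

private theorem gn2_c3 {a : ℤ} (P : Th → Prop) [DecidablePred P] (hi : ∀ q x y b c d, P ⟨q, b, c, x, d⟩ → P ⟨q, b, c, y, d⟩ → x = y) :
    ((e.TT qs qlo qhi k a).filter P).card ≤ (e.Qs qs qlo qhi k a).card * e.E.card ^ 3 := by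
  refine gn2_cnt P (fun θ => (θ.q, θ.n1, θ.n1', θ.n2')) ?_ ?_
  · intro q hq n1 h1 n1' h1' n2 h2 n2' h2'
    simp only [mem_product]
    exact ⟨hq, h1, h1', h2'⟩
  · rintro ⟨q, b, c, x, d⟩ ⟨q', b', c', y, d'⟩ h1 h2 h3
    simp only [Prod.mk.injEq] at h3
    obtain ⟨rfl, rfl, rfl, rfl⟩ := h3
    rw [hi _ _ _ _ _ _ h1 h2]

private theorem gn2_c4 {a : ℤ} (P : Th → Prop) [DecidablePred P] (hi : ∀ q x y b c d, P ⟨q, b, c, d, x⟩ → P ⟨q, b, c, d, y⟩ → x = y) :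
    ((e.TT qs qlo qhi k a).filter P).card ≤ (e.Qs qs qlo qhi k a).card * e.E.card ^ 3 := by
  refine gn2_cnt P (fun θ => (θ.q, θ.n1, θ.n1', θ.n2)) ?_ ?_
  · intro q hq n1 h1 n1' h1' n2 h2 n2' h2'
    simp only [mem_product]
    exact ⟨hq, h1, h1', h2⟩
  · rintro ⟨q, b, c, d, x⟩ ⟨q', b', c', d', y⟩ h1 h2 h3
    simp only [Prod.mk.injEq] at h3
    obtain ⟨rfl, rfl, rfl, rfl⟩ := h3
    rw [hi _ _ _ _ _ _ h1 h2]

private theorem gn2_c0 {a : ℤ} (P : Th → Prop) [DecidablePred P] (M : ℕ) (hi : ∀ θ ∈ e.TT qs qlo qhi k a, ¬ P θ) :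
    ((e.TT qs qlo qhi k a).filter P).card ≤ M := by
  rw [filter_false_of_mem hi, card_empty]
  exact Nat.zero_le _

private theorem gn2_if : ((-1 : ℤ) = 1) = False := by decide

private theorem gn2_fin {a c : ℤ} {x y : ℕ} (ha : a ≠ 0) (hc : c ≠ 0) (h : a * (c * ((x : ℤ) - y)) = 0) : x = y := by
  rcases mul_eq_zero.1 h with h | h
  · exact absurd h ha
  rcases mul_eq_zero.1 h with h | h
  · exact absurd h hc
  omega

set_option linter.unusedSimpArgs false in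
open Classical in
private theorem gn2_p (ha : G.a ≠ 0) (hqs : (qs : ℤ) ≠ 0) (hNs : (Ns : ℤ) ≠ 0) (hg : g ≠ 0) (hx : (qs : ℤ) * g + Ns ≠ 0)
    (hq : ∀ θ ∈ e.TT qs qlo qhi k G.a, (θ.q : ℤ) ≠ 0 ∧ (θ.q : ℤ) - k ≠ 0) :
    ([fun θ : Th => θ.F1 G, fun θ => θ.F2 G, fun θ => θ.F3 Ns qs G, fun θ => θ.F4 1 g G, fun θ => θ.F5 1 g G,
      fun θ => θ.F6 1 g G, fun θ => θ.F7 1 g G, fun θ => θ.F8 1 g G, fun θ => θ.F9 1 g Ns qs k G,
      fun θ => θ.F10 1 g k G, fun θ => θ.F11 1 g k G] : List (Th → Frm)).Pairwise fun f f' =>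
      ((e.TT qs qlo qhi k G.a).filter fun θ => ¬ (f θ).NP (f' θ)).card ≤ (e.Qs qs qlo qhi k G.a).card * e.E.card ^ 3 := by
  have hqs2 : (qs : ℤ) * qs ≠ 0 := mul_ne_zero hqs hqs
  simp only [List.pairwise_cons, List.mem_cons, List.not_mem_nil, or_false, forall_eq_or_imp, forall_eq, false_imp_iff, IsEmpty.forall_iff, implies_true, and_true, List.Pairwise.nil]
  refine ⟨⟨?_, ?_, ?_, ?_, ?_, ?_, ?_, ?_, ?_, ?_⟩, ⟨?_, ?_, ?_, ?_, ?_, ?_, ?_, ?_, ?_⟩, ⟨?_, ?_, ?_, ?_, ?_, ?_, ?_, ?_⟩, ⟨?_, ?_, ?_, ?_, ?_, ?_, ?_⟩, ⟨?_, ?_, ?_, ?_, ?_, ?_⟩, ⟨?_, ?_, ?_, ?_, ?_⟩, ⟨?_, ?_, ?_, ?_⟩, ⟨?_, ?_, ?_⟩, ⟨?_, ?_⟩, ?_⟩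
  · refine gn2_c2 _ fun q x y b c d h1 h2 => ?_
    rw [Frm.NP, ne_eq, not_not] at h1 h2
    simp only [Th.F1, Th.F2, Th.F3, Th.F4, Th.F5, Th.F6, Th.F7, Th.F8, Th.F9, Th.F10, Th.F11, Frm.af, Th.nA, Th.nC, if_true, gn2_if, if_false] at h1 h2
    exact gn2_fin ha one_ne_zero (by linear_combination h2 - h1)
  · refine gn2_c2 _ fun q x y b c d h1 h2 => ?_
    rw [Frm.NP, ne_eq, not_not] at h1 h2
    simp only [Th.F1, Th.F2, Th.F3, Th.F4, Th.F5, Th.F6, Th.F7, Th.F8, Th.F9, Th.F10, Th.F11, Frm.af, Th.nA, Th.nC, if_true, gn2_if, if_false] at h1 h2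
    exact gn2_fin ha hqs (by linear_combination h1 - h2)
  · refine gn2_c2 _ fun q x y b c d h1 h2 => ?_
    rw [Frm.NP, ne_eq, not_not] at h1 h2
    simp only [Th.F1, Th.F2, Th.F3, Th.F4, Th.F5, Th.F6, Th.F7, Th.F8, Th.F9, Th.F10, Th.F11, Frm.af, Th.nA, Th.nC, if_true, gn2_if, if_false] at h1 h2
    exact gn2_fin ha one_ne_zero (by linear_combination h2 - h1)
  · refine gn2_c0 _ _ fun θ hθ => ?_
    obtain ⟨h1, h2⟩ := hq θ hθ
    rw [not_not]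
    intro h3
    simp only [Th.F1, Th.F2, Th.F3, Th.F4, Th.F5, Th.F6, Th.F7, Th.F8, Th.F9, Th.F10, Th.F11, Frm.af, Th.nA, Th.nC, if_true, gn2_if, if_false] at h3
    exact mul_ne_zero ha (mul_ne_zero h1 hg) (by linear_combination h3)
  · refine gn2_c1 _ fun q x y b c d h1 h2 => ?_
    rw [Frm.NP, ne_eq, not_not] at h1 h2
    simp only [Th.F1, Th.F2, Th.F3, Th.F4, Th.F5, Th.F6, Th.F7, Th.F8, Th.F9, Th.F10, Th.F11, Frm.af, Th.nA, Th.nC, if_true, gn2_if, if_false] at h1 h2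
    exact gn2_fin ha one_ne_zero (by linear_combination h2 - h1)
  · refine gn2_c1 _ fun q x y b c d h1 h2 => ?_
    rw [Frm.NP, ne_eq, not_not] at h1 h2
    simp only [Th.F1, Th.F2, Th.F3, Th.F4, Th.F5, Th.F6, Th.F7, Th.F8, Th.F9, Th.F10, Th.F11, Frm.af, Th.nA, Th.nC, if_true, gn2_if, if_false] at h1 h2
    exact gn2_fin ha one_ne_zero (by linear_combination h1 - h2)
  · refine gn2_c1 _ fun q x y b c d h1 h2 => ?_
    rw [Frm.NP, ne_eq, not_not] at h1 h2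
    simp only [Th.F1, Th.F2, Th.F3, Th.F4, Th.F5, Th.F6, Th.F7, Th.F8, Th.F9, Th.F10, Th.F11, Frm.af, Th.nA, Th.nC, if_true, gn2_if, if_false] at h1 h2
    exact gn2_fin ha one_ne_zero (by linear_combination h2 - h1)
  · refine gn2_c1 _ fun q x y b c d h1 h2 => ?_
    rw [Frm.NP, ne_eq, not_not] at h1 h2
    simp only [Th.F1, Th.F2, Th.F3, Th.F4, Th.F5, Th.F6, Th.F7, Th.F8, Th.F9, Th.F10, Th.F11, Frm.af, Th.nA, Th.nC, if_true, gn2_if, if_false] at h1 h2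
    exact gn2_fin ha hqs (by linear_combination h1 - h2)
  · refine gn2_c1 _ fun q x y b c d h1 h2 => ?_
    rw [Frm.NP, ne_eq, not_not] at h1 h2
    simp only [Th.F1, Th.F2, Th.F3, Th.F4, Th.F5, Th.F6, Th.F7, Th.F8, Th.F9, Th.F10, Th.F11, Frm.af, Th.nA, Th.nC, if_true, gn2_if, if_false] at h1 h2
    exact gn2_fin ha one_ne_zero (by linear_combination h2 - h1)
  · refine gn2_c1 _ fun q x y b c d h1 h2 => ?_
    rw [Frm.NP, ne_eq, not_not] at h1 h2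
    simp only [Th.F1, Th.F2, Th.F3, Th.F4, Th.F5, Th.F6, Th.F7, Th.F8, Th.F9, Th.F10, Th.F11, Frm.af, Th.nA, Th.nC, if_true, gn2_if, if_false] at h1 h2
    exact gn2_fin ha one_ne_zero (by linear_combination h1 - h2)
  · refine gn2_c0 _ _ fun θ hθ => ?_
    obtain ⟨h1, h2⟩ := hq θ hθ
    rw [not_not]
    intro h3
    simp only [Th.F1, Th.F2, Th.F3, Th.F4, Th.F5, Th.F6, Th.F7, Th.F8, Th.F9, Th.F10, Th.F11, Frm.af, Th.nA, Th.nC, if_true, gn2_if, if_false] at h3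
    exact mul_ne_zero ha (mul_ne_zero h1 hNs) (by linear_combination h3)
  · refine gn2_c0 _ _ fun θ hθ => ?_
    obtain ⟨h1, h2⟩ := hq θ hθ
    rw [not_not]
    intro h3
    simp only [Th.F1, Th.F2, Th.F3, Th.F4, Th.F5, Th.F6, Th.F7, Th.F8, Th.F9, Th.F10, Th.F11, Frm.af, Th.nA, Th.nC, if_true, gn2_if, if_false] at h3
    exact mul_ne_zero ha (mul_ne_zero h1 hg) (by linear_combination h3)
  · refine gn2_c2 _ fun q x y b c d h1 h2 => ?_
    rw [Frm.NP, ne_eq, not_not] at h1 h2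
    simp only [Th.F1, Th.F2, Th.F3, Th.F4, Th.F5, Th.F6, Th.F7, Th.F8, Th.F9, Th.F10, Th.F11, Frm.af, Th.nA, Th.nC, if_true, gn2_if, if_false] at h1 h2
    exact gn2_fin ha one_ne_zero (by linear_combination h1 - h2)
  · refine gn2_c1 _ fun q x y b c d h1 h2 => ?_
    rw [Frm.NP, ne_eq, not_not] at h1 h2
    simp only [Th.F1, Th.F2, Th.F3, Th.F4, Th.F5, Th.F6, Th.F7, Th.F8, Th.F9, Th.F10, Th.F11, Frm.af, Th.nA, Th.nC, if_true, gn2_if, if_false] at h1 h2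
    exact gn2_fin ha one_ne_zero (by linear_combination h1 - h2)
  · refine gn2_c1 _ fun q x y b c d h1 h2 => ?_
    rw [Frm.NP, ne_eq, not_not] at h1 h2
    simp only [Th.F1, Th.F2, Th.F3, Th.F4, Th.F5, Th.F6, Th.F7, Th.F8, Th.F9, Th.F10, Th.F11, Frm.af, Th.nA, Th.nC, if_true, gn2_if, if_false] at h1 h2
    exact gn2_fin ha one_ne_zero (by linear_combination h2 - h1)
  · refine gn2_c1 _ fun q x y b c d h1 h2 => ?_
    rw [Frm.NP, ne_eq, not_not] at h1 h2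
    simp only [Th.F1, Th.F2, Th.F3, Th.F4, Th.F5, Th.F6, Th.F7, Th.F8, Th.F9, Th.F10, Th.F11, Frm.af, Th.nA, Th.nC, if_true, gn2_if, if_false] at h1 h2
    exact gn2_fin ha one_ne_zero (by linear_combination h1 - h2)
  · refine gn2_c1 _ fun q x y b c d h1 h2 => ?_
    rw [Frm.NP, ne_eq, not_not] at h1 h2
    simp only [Th.F1, Th.F2, Th.F3, Th.F4, Th.F5, Th.F6, Th.F7, Th.F8, Th.F9, Th.F10, Th.F11, Frm.af, Th.nA, Th.nC, if_true, gn2_if, if_false] at h1 h2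
    exact gn2_fin ha hqs (by linear_combination h2 - h1)
  · refine gn2_c1 _ fun q x y b c d h1 h2 => ?_
    rw [Frm.NP, ne_eq, not_not] at h1 h2
    simp only [Th.F1, Th.F2, Th.F3, Th.F4, Th.F5, Th.F6, Th.F7, Th.F8, Th.F9, Th.F10, Th.F11, Frm.af, Th.nA, Th.nC, if_true, gn2_if, if_false] at h1 h2
    exact gn2_fin ha one_ne_zero (by linear_combination h1 - h2)
  · refine gn2_c1 _ fun q x y b c d h1 h2 => ?_
    rw [Frm.NP, ne_eq, not_not] at h1 h2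
    simp only [Th.F1, Th.F2, Th.F3, Th.F4, Th.F5, Th.F6, Th.F7, Th.F8, Th.F9, Th.F10, Th.F11, Frm.af, Th.nA, Th.nC, if_true, gn2_if, if_false] at h1 h2
    exact gn2_fin ha one_ne_zero (by linear_combination h2 - h1)
  · refine gn2_c0 _ _ fun θ hθ => ?_
    obtain ⟨h1, h2⟩ := hq θ hθ
    rw [not_not]
    intro h3
    simp only [Th.F1, Th.F2, Th.F3, Th.F4, Th.F5, Th.F6, Th.F7, Th.F8, Th.F9, Th.F10, Th.F11, Frm.af, Th.nA, Th.nC, if_true, gn2_if, if_false] at h3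
    exact mul_ne_zero ha (mul_ne_zero h1 hx) (by linear_combination -h3)
  · refine gn2_c2 _ fun q x y b c d h1 h2 => ?_
    rw [Frm.NP, ne_eq, not_not] at h1 h2
    simp only [Th.F1, Th.F2, Th.F3, Th.F4, Th.F5, Th.F6, Th.F7, Th.F8, Th.F9, Th.F10, Th.F11, Frm.af, Th.nA, Th.nC, if_true, gn2_if, if_false] at h1 h2
    exact gn2_fin ha hqs (by linear_combination h2 - h1)
  · refine gn2_c1 _ fun q x y b c d h1 h2 => ?_
    rw [Frm.NP, ne_eq, not_not] at h1 h2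
    simp only [Th.F1, Th.F2, Th.F3, Th.F4, Th.F5, Th.F6, Th.F7, Th.F8, Th.F9, Th.F10, Th.F11, Frm.af, Th.nA, Th.nC, if_true, gn2_if, if_false] at h1 h2
    exact gn2_fin ha hqs (by linear_combination h2 - h1)
  · refine gn2_c1 _ fun q x y b c d h1 h2 => ?_
    rw [Frm.NP, ne_eq, not_not] at h1 h2
    simp only [Th.F1, Th.F2, Th.F3, Th.F4, Th.F5, Th.F6, Th.F7, Th.F8, Th.F9, Th.F10, Th.F11, Frm.af, Th.nA, Th.nC, if_true, gn2_if, if_false] at h1 h2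
    exact gn2_fin ha hqs (by linear_combination h1 - h2)
  · refine gn2_c1 _ fun q x y b c d h1 h2 => ?_
    rw [Frm.NP, ne_eq, not_not] at h1 h2
    simp only [Th.F1, Th.F2, Th.F3, Th.F4, Th.F5, Th.F6, Th.F7, Th.F8, Th.F9, Th.F10, Th.F11, Frm.af, Th.nA, Th.nC, if_true, gn2_if, if_false] at h1 h2
    exact gn2_fin ha hqs (by linear_combination h2 - h1)
  · refine gn2_c1 _ fun q x y b c d h1 h2 => ?_
    rw [Frm.NP, ne_eq, not_not] at h1 h2
    simp only [Th.F1, Th.F2, Th.F3, Th.F4, Th.F5, Th.F6, Th.F7, Th.F8, Th.F9, Th.F10, Th.F11, Frm.af, Th.nA, Th.nC, if_true, gn2_if, if_false] at h1 h2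
    exact gn2_fin ha hqs2 (by linear_combination h1 - h2)
  · refine gn2_c1 _ fun q x y b c d h1 h2 => ?_
    rw [Frm.NP, ne_eq, not_not] at h1 h2
    simp only [Th.F1, Th.F2, Th.F3, Th.F4, Th.F5, Th.F6, Th.F7, Th.F8, Th.F9, Th.F10, Th.F11, Frm.af, Th.nA, Th.nC, if_true, gn2_if, if_false] at h1 h2
    exact gn2_fin ha hqs (by linear_combination h2 - h1)
  · refine gn2_c1 _ fun q x y b c d h1 h2 => ?_
    rw [Frm.NP, ne_eq, not_not] at h1 h2
    simp only [Th.F1, Th.F2, Th.F3, Th.F4, Th.F5, Th.F6, Th.F7, Th.F8, Th.F9, Th.F10, Th.F11, Frm.af, Th.nA, Th.nC, if_true, gn2_if, if_false] at h1 h2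
    exact gn2_fin ha hqs (by linear_combination h1 - h2)
  · refine gn2_c2 _ fun q x y b c d h1 h2 => ?_
    rw [Frm.NP, ne_eq, not_not] at h1 h2
    simp only [Th.F1, Th.F2, Th.F3, Th.F4, Th.F5, Th.F6, Th.F7, Th.F8, Th.F9, Th.F10, Th.F11, Frm.af, Th.nA, Th.nC, if_true, gn2_if, if_false] at h1 h2
    exact gn2_fin ha one_ne_zero (by linear_combination h1 - h2)
  · refine gn2_c1 _ fun q x y b c d h1 h2 => ?_
    rw [Frm.NP, ne_eq, not_not] at h1 h2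
    simp only [Th.F1, Th.F2, Th.F3, Th.F4, Th.F5, Th.F6, Th.F7, Th.F8, Th.F9, Th.F10, Th.F11, Frm.af, Th.nA, Th.nC, if_true, gn2_if, if_false] at h1 h2
    exact gn2_fin ha one_ne_zero (by linear_combination h1 - h2)
  · refine gn2_c1 _ fun q x y b c d h1 h2 => ?_
    rw [Frm.NP, ne_eq, not_not] at h1 h2
    simp only [Th.F1, Th.F2, Th.F3, Th.F4, Th.F5, Th.F6, Th.F7, Th.F8, Th.F9, Th.F10, Th.F11, Frm.af, Th.nA, Th.nC, if_true, gn2_if, if_false] at h1 h2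
    exact gn2_fin ha one_ne_zero (by linear_combination h2 - h1)
  · refine gn2_c1 _ fun q x y b c d h1 h2 => ?_
    rw [Frm.NP, ne_eq, not_not] at h1 h2
    simp only [Th.F1, Th.F2, Th.F3, Th.F4, Th.F5, Th.F6, Th.F7, Th.F8, Th.F9, Th.F10, Th.F11, Frm.af, Th.nA, Th.nC, if_true, gn2_if, if_false] at h1 h2
    exact gn2_fin ha one_ne_zero (by linear_combination h1 - h2)
  · refine gn2_c1 _ fun q x y b c d h1 h2 => ?_
    rw [Frm.NP, ne_eq, not_not] at h1 h2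
    simp only [Th.F1, Th.F2, Th.F3, Th.F4, Th.F5, Th.F6, Th.F7, Th.F8, Th.F9, Th.F10, Th.F11, Frm.af, Th.nA, Th.nC, if_true, gn2_if, if_false] at h1 h2
    exact gn2_fin ha hqs (by linear_combination h2 - h1)
  · refine gn2_c1 _ fun q x y b c d h1 h2 => ?_
    rw [Frm.NP, ne_eq, not_not] at h1 h2
    simp only [Th.F1, Th.F2, Th.F3, Th.F4, Th.F5, Th.F6, Th.F7, Th.F8, Th.F9, Th.F10, Th.F11, Frm.af, Th.nA, Th.nC, if_true, gn2_if, if_false] at h1 h2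
    exact gn2_fin ha one_ne_zero (by linear_combination h1 - h2)
  · refine gn2_c1 _ fun q x y b c d h1 h2 => ?_
    rw [Frm.NP, ne_eq, not_not] at h1 h2
    simp only [Th.F1, Th.F2, Th.F3, Th.F4, Th.F5, Th.F6, Th.F7, Th.F8, Th.F9, Th.F10, Th.F11, Frm.af, Th.nA, Th.nC, if_true, gn2_if, if_false] at h1 h2
    exact gn2_fin ha one_ne_zero (by linear_combination h2 - h1)
  · refine gn2_c1 _ fun q x y b c d h1 h2 => ?_
    rw [Frm.NP, ne_eq, not_not] at h1 h2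
    simp only [Th.F1, Th.F2, Th.F3, Th.F4, Th.F5, Th.F6, Th.F7, Th.F8, Th.F9, Th.F10, Th.F11, Frm.af, Th.nA, Th.nC, if_true, gn2_if, if_false] at h1 h2
    exact gn2_fin ha one_ne_zero (by linear_combination h2 - h1)
  · refine gn2_c1 _ fun q x y b c d h1 h2 => ?_
    rw [Frm.NP, ne_eq, not_not] at h1 h2
    simp only [Th.F1, Th.F2, Th.F3, Th.F4, Th.F5, Th.F6, Th.F7, Th.F8, Th.F9, Th.F10, Th.F11, Frm.af, Th.nA, Th.nC, if_true, gn2_if, if_false] at h1 h2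
    exact gn2_fin ha one_ne_zero (by linear_combination h1 - h2)
  · refine gn2_c1 _ fun q x y b c d h1 h2 => ?_
    rw [Frm.NP, ne_eq, not_not] at h1 h2
    simp only [Th.F1, Th.F2, Th.F3, Th.F4, Th.F5, Th.F6, Th.F7, Th.F8, Th.F9, Th.F10, Th.F11, Frm.af, Th.nA, Th.nC, if_true, gn2_if, if_false] at h1 h2
    exact gn2_fin ha one_ne_zero (by linear_combination h2 - h1)
  · refine gn2_c1 _ fun q x y b c d h1 h2 => ?_
    rw [Frm.NP, ne_eq, not_not] at h1 h2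
    simp only [Th.F1, Th.F2, Th.F3, Th.F4, Th.F5, Th.F6, Th.F7, Th.F8, Th.F9, Th.F10, Th.F11, Frm.af, Th.nA, Th.nC, if_true, gn2_if, if_false] at h1 h2
    exact gn2_fin ha hqs (by linear_combination h1 - h2)
  · refine gn2_c1 _ fun q x y b c d h1 h2 => ?_
    rw [Frm.NP, ne_eq, not_not] at h1 h2
    simp only [Th.F1, Th.F2, Th.F3, Th.F4, Th.F5, Th.F6, Th.F7, Th.F8, Th.F9, Th.F10, Th.F11, Frm.af, Th.nA, Th.nC, if_true, gn2_if, if_false] at h1 h2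
    exact gn2_fin ha one_ne_zero (by linear_combination h2 - h1)
  · refine gn2_c1 _ fun q x y b c d h1 h2 => ?_
    rw [Frm.NP, ne_eq, not_not] at h1 h2
    simp only [Th.F1, Th.F2, Th.F3, Th.F4, Th.F5, Th.F6, Th.F7, Th.F8, Th.F9, Th.F10, Th.F11, Frm.af, Th.nA, Th.nC, if_true, gn2_if, if_false] at h1 h2
    exact gn2_fin ha one_ne_zero (by linear_combination h1 - h2)
  · refine gn2_c3 _ fun q x y b c d h1 h2 => ?_
    rw [Frm.NP, ne_eq, not_not] at h1 h2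
    simp only [Th.F1, Th.F2, Th.F3, Th.F4, Th.F5, Th.F6, Th.F7, Th.F8, Th.F9, Th.F10, Th.F11, Frm.af, Th.nA, Th.nC, if_true, gn2_if, if_false] at h1 h2
    exact gn2_fin ha one_ne_zero (by linear_combination h1 - h2)
  · refine gn2_c3 _ fun q x y b c d h1 h2 => ?_
    rw [Frm.NP, ne_eq, not_not] at h1 h2
    simp only [Th.F1, Th.F2, Th.F3, Th.F4, Th.F5, Th.F6, Th.F7, Th.F8, Th.F9, Th.F10, Th.F11, Frm.af, Th.nA, Th.nC, if_true, gn2_if, if_false] at h1 h2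
    exact gn2_fin ha one_ne_zero (by linear_combination h2 - h1)
  · refine gn2_c3 _ fun q x y b c d h1 h2 => ?_
    rw [Frm.NP, ne_eq, not_not] at h1 h2
    simp only [Th.F1, Th.F2, Th.F3, Th.F4, Th.F5, Th.F6, Th.F7, Th.F8, Th.F9, Th.F10, Th.F11, Frm.af, Th.nA, Th.nC, if_true, gn2_if, if_false] at h1 h2
    exact gn2_fin ha hqs (by linear_combination h1 - h2)
  · refine gn2_c3 _ fun q x y b c d h1 h2 => ?_
    rw [Frm.NP, ne_eq, not_not] at h1 h2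
    simp only [Th.F1, Th.F2, Th.F3, Th.F4, Th.F5, Th.F6, Th.F7, Th.F8, Th.F9, Th.F10, Th.F11, Frm.af, Th.nA, Th.nC, if_true, gn2_if, if_false] at h1 h2
    exact gn2_fin ha one_ne_zero (by linear_combination h2 - h1)
  · refine gn2_c3 _ fun q x y b c d h1 h2 => ?_
    rw [Frm.NP, ne_eq, not_not] at h1 h2
    simp only [Th.F1, Th.F2, Th.F3, Th.F4, Th.F5, Th.F6, Th.F7, Th.F8, Th.F9, Th.F10, Th.F11, Frm.af, Th.nA, Th.nC, if_true, gn2_if, if_false] at h1 h2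
    exact gn2_fin ha one_ne_zero (by linear_combination h1 - h2)
  · refine gn2_c4 _ fun q x y b c d h1 h2 => ?_
    rw [Frm.NP, ne_eq, not_not] at h1 h2
    simp only [Th.F1, Th.F2, Th.F3, Th.F4, Th.F5, Th.F6, Th.F7, Th.F8, Th.F9, Th.F10, Th.F11, Frm.af, Th.nA, Th.nC, if_true, gn2_if, if_false] at h1 h2
    exact gn2_fin ha one_ne_zero (by linear_combination h2 - h1)
  · refine gn2_c4 _ fun q x y b c d h1 h2 => ?_
    rw [Frm.NP, ne_eq, not_not] at h1 h2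
    simp only [Th.F1, Th.F2, Th.F3, Th.F4, Th.F5, Th.F6, Th.F7, Th.F8, Th.F9, Th.F10, Th.F11, Frm.af, Th.nA, Th.nC, if_true, gn2_if, if_false] at h1 h2
    exact gn2_fin ha hqs (by linear_combination h1 - h2)
  · refine gn2_c4 _ fun q x y b c d h1 h2 => ?_
    rw [Frm.NP, ne_eq, not_not] at h1 h2
    simp only [Th.F1, Th.F2, Th.F3, Th.F4, Th.F5, Th.F6, Th.F7, Th.F8, Th.F9, Th.F10, Th.F11, Frm.af, Th.nA, Th.nC, if_true, gn2_if, if_false] at h1 h2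
    exact gn2_fin ha one_ne_zero (by linear_combination h2 - h1)
  · refine gn2_c0 _ _ fun θ hθ => ?_
    obtain ⟨h1, h2⟩ := hq θ hθ
    rw [not_not]
    intro h3
    simp only [Th.F1, Th.F2, Th.F3, Th.F4, Th.F5, Th.F6, Th.F7, Th.F8, Th.F9, Th.F10, Th.F11, Frm.af, Th.nA, Th.nC, if_true, gn2_if, if_false] at h3
    exact mul_ne_zero ha (mul_ne_zero h2 hg) (by linear_combination -h3)
  · refine gn2_c0 _ _ fun θ hθ => ?_
    obtain ⟨h1, h2⟩ := hq θ hθ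
    rw [not_not]
    intro h3
    simp only [Th.F1, Th.F2, Th.F3, Th.F4, Th.F5, Th.F6, Th.F7, Th.F8, Th.F9, Th.F10, Th.F11, Frm.af, Th.nA, Th.nC, if_true, gn2_if, if_false] at h3
    exact mul_ne_zero ha (mul_ne_zero h2 hx) (by linear_combination h3)
  · refine gn2_c0 _ _ fun θ hθ => ?_
    obtain ⟨h1, h2⟩ := hq θ hθ
    rw [not_not]
    intro h3
    simp only [Th.F1, Th.F2, Th.F3, Th.F4, Th.F5, Th.F6, Th.F7, Th.F8, Th.F9, Th.F10, Th.F11, Frm.af, Th.nA, Th.nC, if_true, gn2_if, if_false] at h3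
    exact mul_ne_zero ha (mul_ne_zero h2 hg) (by linear_combination -h3)
  · refine gn2_c4 _ fun q x y b c d h1 h2 => ?_
    rw [Frm.NP, ne_eq, not_not] at h1 h2
    simp only [Th.F1, Th.F2, Th.F3, Th.F4, Th.F5, Th.F6, Th.F7, Th.F8, Th.F9, Th.F10, Th.F11, Frm.af, Th.nA, Th.nC, if_true, gn2_if, if_false] at h1 h2
    exact gn2_fin ha one_ne_zero (by linear_combination h1 - h2)
  · refine gn2_c0 _ _ fun θ hθ => ?_
    obtain ⟨h1, h2⟩ := hq θ hθ
    rw [not_not]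
    intro h3
    simp only [Th.F1, Th.F2, Th.F3, Th.F4, Th.F5, Th.F6, Th.F7, Th.F8, Th.F9, Th.F10, Th.F11, Frm.af, Th.nA, Th.nC, if_true, gn2_if, if_false] at h3
    exact mul_ne_zero ha (mul_ne_zero h2 hNs) (by linear_combination -h3)
  · refine gn2_c4 _ fun q x y b c d h1 h2 => ?_
    rw [Frm.NP, ne_eq, not_not] at h1 h2
    simp only [Th.F1, Th.F2, Th.F3, Th.F4, Th.F5, Th.F6, Th.F7, Th.F8, Th.F9, Th.F10, Th.F11, Frm.af, Th.nA, Th.nC, if_true, gn2_if, if_false] at h1 h2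
    exact gn2_fin ha hqs (by linear_combination h2 - h1)
  · refine gn2_c4 _ fun q x y b c d h1 h2 => ?_
    rw [Frm.NP, ne_eq, not_not] at h1 h2
    simp only [Th.F1, Th.F2, Th.F3, Th.F4, Th.F5, Th.F6, Th.F7, Th.F8, Th.F9, Th.F10, Th.F11, Frm.af, Th.nA, Th.nC, if_true, gn2_if, if_false] at h1 h2
    exact gn2_fin ha one_ne_zero (by linear_combination h1 - h2)

set_option linter.unusedSimpArgs false in
open Classical in
private theorem gn2_m (ha : G.a ≠ 0) (hqs : (qs : ℤ) ≠ 0) (hNs : (Ns : ℤ) ≠ 0) (hg : g ≠ 0) (hx : (qs : ℤ) * g - Ns ≠ 0)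
    (hq : ∀ θ ∈ e.TT qs qlo qhi k G.a, (θ.q : ℤ) ≠ 0 ∧ (θ.q : ℤ) - k ≠ 0) :
    ([fun θ : Th => θ.F1 G, fun θ => θ.F2 G, fun θ => θ.F3 Ns qs G, fun θ => θ.F4 (-1) g G, fun θ => θ.F5 (-1) g G,
      fun θ => θ.F6 (-1) g G, fun θ => θ.F7 (-1) g G, fun θ => θ.F8 (-1) g G, fun θ => θ.F9 (-1) g Ns qs k G,
      fun θ => θ.F10 (-1) g k G, fun θ => θ.F11 (-1) g k G] : List (Th → Frm)).Pairwise fun f f' =>
      ((e.TT qs qlo qhi k G.a).filter fun θ => ¬ (f θ).NP (f' θ)).card ≤ (e.Qs qs qlo qhi k G.a).card * e.E.card ^ 3 := by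
  have hqs2 : (qs : ℤ) * qs ≠ 0 := mul_ne_zero hqs hqs
  simp only [List.pairwise_cons, List.mem_cons, List.not_mem_nil, or_false, forall_eq_or_imp, forall_eq, false_imp_iff, IsEmpty.forall_iff, implies_true, and_true, List.Pairwise.nil]
  refine ⟨⟨?_, ?_, ?_, ?_, ?_, ?_, ?_, ?_, ?_, ?_⟩, ⟨?_, ?_, ?_, ?_, ?_, ?_, ?_, ?_, ?_⟩, ⟨?_, ?_, ?_, ?_, ?_, ?_, ?_, ?_⟩, ⟨?_, ?_, ?_, ?_, ?_, ?_, ?_⟩, ⟨?_, ?_, ?_, ?_, ?_, ?_⟩, ⟨?_, ?_, ?_, ?_, ?_⟩, ⟨?_, ?_, ?_, ?_⟩, ⟨?_, ?_, ?_⟩, ⟨?_, ?_⟩, ?_⟩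
  · refine gn2_c2 _ fun q x y b c d h1 h2 => ?_
    rw [Frm.NP, ne_eq, not_not] at h1 h2
    simp only [Th.F1, Th.F2, Th.F3, Th.F4, Th.F5, Th.F6, Th.F7, Th.F8, Th.F9, Th.F10, Th.F11, Frm.af, Th.nA, Th.nC, if_true, gn2_if, if_false] at h1 h2
    exact gn2_fin ha one_ne_zero (by linear_combination h2 - h1)
  · refine gn2_c2 _ fun q x y b c d h1 h2 => ?_
    rw [Frm.NP, ne_eq, not_not] at h1 h2
    simp only [Th.F1, Th.F2, Th.F3, Th.F4, Th.F5, Th.F6, Th.F7, Th.F8, Th.F9, Th.F10, Th.F11, Frm.af, Th.nA, Th.nC, if_true, gn2_if, if_false] at h1 h2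
    exact gn2_fin ha hqs (by linear_combination h1 - h2)
  · refine gn2_c2 _ fun q x y b c d h1 h2 => ?_
    rw [Frm.NP, ne_eq, not_not] at h1 h2
    simp only [Th.F1, Th.F2, Th.F3, Th.F4, Th.F5, Th.F6, Th.F7, Th.F8, Th.F9, Th.F10, Th.F11, Frm.af, Th.nA, Th.nC, if_true, gn2_if, if_false] at h1 h2
    exact gn2_fin ha one_ne_zero (by linear_combination h1 - h2)
  · refine gn2_c1 _ fun q x y b c d h1 h2 => ?_
    rw [Frm.NP, ne_eq, not_not] at h1 h2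
    simp only [Th.F1, Th.F2, Th.F3, Th.F4, Th.F5, Th.F6, Th.F7, Th.F8, Th.F9, Th.F10, Th.F11, Frm.af, Th.nA, Th.nC, if_true, gn2_if, if_false] at h1 h2
    exact gn2_fin ha one_ne_zero (by linear_combination h2 - h1)
  · refine gn2_c1 _ fun q x y b c d h1 h2 => ?_
    rw [Frm.NP, ne_eq, not_not] at h1 h2
    simp only [Th.F1, Th.F2, Th.F3, Th.F4, Th.F5, Th.F6, Th.F7, Th.F8, Th.F9, Th.F10, Th.F11, Frm.af, Th.nA, Th.nC, if_true, gn2_if, if_false] at h1 h2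
    exact gn2_fin ha one_ne_zero (by linear_combination h1 - h2)
  · refine gn2_c1 _ fun q x y b c d h1 h2 => ?_
    rw [Frm.NP, ne_eq, not_not] at h1 h2
    simp only [Th.F1, Th.F2, Th.F3, Th.F4, Th.F5, Th.F6, Th.F7, Th.F8, Th.F9, Th.F10, Th.F11, Frm.af, Th.nA, Th.nC, if_true, gn2_if, if_false] at h1 h2
    exact gn2_fin ha one_ne_zero (by linear_combination h2 - h1)
  · refine gn2_c1 _ fun q x y b c d h1 h2 => ?_
    rw [Frm.NP, ne_eq, not_not] at h1 h2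
    simp only [Th.F1, Th.F2, Th.F3, Th.F4, Th.F5, Th.F6, Th.F7, Th.F8, Th.F9, Th.F10, Th.F11, Frm.af, Th.nA, Th.nC, if_true, gn2_if, if_false] at h1 h2
    exact gn2_fin ha one_ne_zero (by linear_combination h1 - h2)
  · refine gn2_c1 _ fun q x y b c d h1 h2 => ?_
    rw [Frm.NP, ne_eq, not_not] at h1 h2
    simp only [Th.F1, Th.F2, Th.F3, Th.F4, Th.F5, Th.F6, Th.F7, Th.F8, Th.F9, Th.F10, Th.F11, Frm.af, Th.nA, Th.nC, if_true, gn2_if, if_false] at h1 h2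
    exact gn2_fin ha hqs (by linear_combination h1 - h2)
  · refine gn2_c1 _ fun q x y b c d h1 h2 => ?_
    rw [Frm.NP, ne_eq, not_not] at h1 h2
    simp only [Th.F1, Th.F2, Th.F3, Th.F4, Th.F5, Th.F6, Th.F7, Th.F8, Th.F9, Th.F10, Th.F11, Frm.af, Th.nA, Th.nC, if_true, gn2_if, if_false] at h1 h2
    exact gn2_fin ha one_ne_zero (by linear_combination h2 - h1)
  · refine gn2_c1 _ fun q x y b c d h1 h2 => ?_
    rw [Frm.NP, ne_eq, not_not] at h1 h2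
    simp only [Th.F1, Th.F2, Th.F3, Th.F4, Th.F5, Th.F6, Th.F7, Th.F8, Th.F9, Th.F10, Th.F11, Frm.af, Th.nA, Th.nC, if_true, gn2_if, if_false] at h1 h2
    exact gn2_fin ha one_ne_zero (by linear_combination h1 - h2)
  · refine gn2_c0 _ _ fun θ hθ => ?_
    obtain ⟨h1, h2⟩ := hq θ hθ
    rw [not_not]
    intro h3
    simp only [Th.F1, Th.F2, Th.F3, Th.F4, Th.F5, Th.F6, Th.F7, Th.F8, Th.F9, Th.F10, Th.F11, Frm.af, Th.nA, Th.nC, if_true, gn2_if, if_false] at h3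
    exact mul_ne_zero ha (mul_ne_zero h1 hNs) (by linear_combination h3)
  · refine gn2_c0 _ _ fun θ hθ => ?_
    obtain ⟨h1, h2⟩ := hq θ hθ
    rw [not_not]
    intro h3
    simp only [Th.F1, Th.F2, Th.F3, Th.F4, Th.F5, Th.F6, Th.F7, Th.F8, Th.F9, Th.F10, Th.F11, Frm.af, Th.nA, Th.nC, if_true, gn2_if, if_false] at h3
    exact mul_ne_zero ha (mul_ne_zero h1 hg) (by linear_combination h3)
  · refine gn2_c1 _ fun q x y b c d h1 h2 => ?_
    rw [Frm.NP, ne_eq, not_not] at h1 h2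
    simp only [Th.F1, Th.F2, Th.F3, Th.F4, Th.F5, Th.F6, Th.F7, Th.F8, Th.F9, Th.F10, Th.F11, Frm.af, Th.nA, Th.nC, if_true, gn2_if, if_false] at h1 h2
    exact gn2_fin ha one_ne_zero (by linear_combination h1 - h2)
  · refine gn2_c1 _ fun q x y b c d h1 h2 => ?_
    rw [Frm.NP, ne_eq, not_not] at h1 h2
    simp only [Th.F1, Th.F2, Th.F3, Th.F4, Th.F5, Th.F6, Th.F7, Th.F8, Th.F9, Th.F10, Th.F11, Frm.af, Th.nA, Th.nC, if_true, gn2_if, if_false] at h1 h2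
    exact gn2_fin ha one_ne_zero (by linear_combination h2 - h1)
  · refine gn2_c1 _ fun q x y b c d h1 h2 => ?_
    rw [Frm.NP, ne_eq, not_not] at h1 h2
    simp only [Th.F1, Th.F2, Th.F3, Th.F4, Th.F5, Th.F6, Th.F7, Th.F8, Th.F9, Th.F10, Th.F11, Frm.af, Th.nA, Th.nC, if_true, gn2_if, if_false] at h1 h2
    exact gn2_fin ha one_ne_zero (by linear_combination h1 - h2)
  · refine gn2_c1 _ fun q x y b c d h1 h2 => ?_
    rw [Frm.NP, ne_eq, not_not] at h1 h2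
    simp only [Th.F1, Th.F2, Th.F3, Th.F4, Th.F5, Th.F6, Th.F7, Th.F8, Th.F9, Th.F10, Th.F11, Frm.af, Th.nA, Th.nC, if_true, gn2_if, if_false] at h1 h2
    exact gn2_fin ha one_ne_zero (by linear_combination h2 - h1)
  · refine gn2_c1 _ fun q x y b c d h1 h2 => ?_
    rw [Frm.NP, ne_eq, not_not] at h1 h2
    simp only [Th.F1, Th.F2, Th.F3, Th.F4, Th.F5, Th.F6, Th.F7, Th.F8, Th.F9, Th.F10, Th.F11, Frm.af, Th.nA, Th.nC, if_true, gn2_if, if_false] at h1 h2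
    exact gn2_fin ha hqs (by linear_combination h2 - h1)
  · refine gn2_c1 _ fun q x y b c d h1 h2 => ?_
    rw [Frm.NP, ne_eq, not_not] at h1 h2
    simp only [Th.F1, Th.F2, Th.F3, Th.F4, Th.F5, Th.F6, Th.F7, Th.F8, Th.F9, Th.F10, Th.F11, Frm.af, Th.nA, Th.nC, if_true, gn2_if, if_false] at h1 h2
    exact gn2_fin ha one_ne_zero (by linear_combination h1 - h2)
  · refine gn2_c1 _ fun q x y b c d h1 h2 => ?_
    rw [Frm.NP, ne_eq, not_not] at h1 h2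
    simp only [Th.F1, Th.F2, Th.F3, Th.F4, Th.F5, Th.F6, Th.F7, Th.F8, Th.F9, Th.F10, Th.F11, Frm.af, Th.nA, Th.nC, if_true, gn2_if, if_false] at h1 h2
    exact gn2_fin ha one_ne_zero (by linear_combination h2 - h1)
  · refine gn2_c0 _ _ fun θ hθ => ?_
    obtain ⟨h1, h2⟩ := hq θ hθ
    rw [not_not]
    intro h3
    simp only [Th.F1, Th.F2, Th.F3, Th.F4, Th.F5, Th.F6, Th.F7, Th.F8, Th.F9, Th.F10, Th.F11, Frm.af, Th.nA, Th.nC, if_true, gn2_if, if_false] at h3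
    exact mul_ne_zero ha (mul_ne_zero h1 hx) (by linear_combination -h3)
  · refine gn2_c1 _ fun q x y b c d h1 h2 => ?_
    rw [Frm.NP, ne_eq, not_not] at h1 h2
    simp only [Th.F1, Th.F2, Th.F3, Th.F4, Th.F5, Th.F6, Th.F7, Th.F8, Th.F9, Th.F10, Th.F11, Frm.af, Th.nA, Th.nC, if_true, gn2_if, if_false] at h1 h2
    exact gn2_fin ha hqs (by linear_combination h2 - h1)
  · refine gn2_c1 _ fun q x y b c d h1 h2 => ?_
    rw [Frm.NP, ne_eq, not_not] at h1 h2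
    simp only [Th.F1, Th.F2, Th.F3, Th.F4, Th.F5, Th.F6, Th.F7, Th.F8, Th.F9, Th.F10, Th.F11, Frm.af, Th.nA, Th.nC, if_true, gn2_if, if_false] at h1 h2
    exact gn2_fin ha hqs (by linear_combination h1 - h2)
  · refine gn2_c1 _ fun q x y b c d h1 h2 => ?_
    rw [Frm.NP, ne_eq, not_not] at h1 h2
    simp only [Th.F1, Th.F2, Th.F3, Th.F4, Th.F5, Th.F6, Th.F7, Th.F8, Th.F9, Th.F10, Th.F11, Frm.af, Th.nA, Th.nC, if_true, gn2_if, if_false] at h1 h2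
    exact gn2_fin ha hqs (by linear_combination h2 - h1)
  · refine gn2_c1 _ fun q x y b c d h1 h2 => ?_
    rw [Frm.NP, ne_eq, not_not] at h1 h2
    simp only [Th.F1, Th.F2, Th.F3, Th.F4, Th.F5, Th.F6, Th.F7, Th.F8, Th.F9, Th.F10, Th.F11, Frm.af, Th.nA, Th.nC, if_true, gn2_if, if_false] at h1 h2
    exact gn2_fin ha hqs (by linear_combination h1 - h2)
  · refine gn2_c1 _ fun q x y b c d h1 h2 => ?_
    rw [Frm.NP, ne_eq, not_not] at h1 h2
    simp only [Th.F1, Th.F2, Th.F3, Th.F4, Th.F5, Th.F6, Th.F7, Th.F8, Th.F9, Th.F10, Th.F11, Frm.af, Th.nA, Th.nC, if_true, gn2_if, if_false] at h1 h2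
    exact gn2_fin ha hqs2 (by linear_combination h1 - h2)
  · refine gn2_c1 _ fun q x y b c d h1 h2 => ?_
    rw [Frm.NP, ne_eq, not_not] at h1 h2
    simp only [Th.F1, Th.F2, Th.F3, Th.F4, Th.F5, Th.F6, Th.F7, Th.F8, Th.F9, Th.F10, Th.F11, Frm.af, Th.nA, Th.nC, if_true, gn2_if, if_false] at h1 h2
    exact gn2_fin ha hqs (by linear_combination h2 - h1)
  · refine gn2_c1 _ fun q x y b c d h1 h2 => ?_
    rw [Frm.NP, ne_eq, not_not] at h1 h2
    simp only [Th.F1, Th.F2, Th.F3, Th.F4, Th.F5, Th.F6, Th.F7, Th.F8, Th.F9, Th.F10, Th.F11, Frm.af, Th.nA, Th.nC, if_true, gn2_if, if_false] at h1 h2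
    exact gn2_fin ha hqs (by linear_combination h1 - h2)
  · refine gn2_c1 _ fun q x y b c d h1 h2 => ?_
    rw [Frm.NP, ne_eq, not_not] at h1 h2
    simp only [Th.F1, Th.F2, Th.F3, Th.F4, Th.F5, Th.F6, Th.F7, Th.F8, Th.F9, Th.F10, Th.F11, Frm.af, Th.nA, Th.nC, if_true, gn2_if, if_false] at h1 h2
    exact gn2_fin ha one_ne_zero (by linear_combination h2 - h1)
  · refine gn2_c1 _ fun q x y b c d h1 h2 => ?_
    rw [Frm.NP, ne_eq, not_not] at h1 h2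
    simp only [Th.F1, Th.F2, Th.F3, Th.F4, Th.F5, Th.F6, Th.F7, Th.F8, Th.F9, Th.F10, Th.F11, Frm.af, Th.nA, Th.nC, if_true, gn2_if, if_false] at h1 h2
    exact gn2_fin ha one_ne_zero (by linear_combination h1 - h2)
  · refine gn2_c1 _ fun q x y b c d h1 h2 => ?_
    rw [Frm.NP, ne_eq, not_not] at h1 h2
    simp only [Th.F1, Th.F2, Th.F3, Th.F4, Th.F5, Th.F6, Th.F7, Th.F8, Th.F9, Th.F10, Th.F11, Frm.af, Th.nA, Th.nC, if_true, gn2_if, if_false] at h1 h2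
    exact gn2_fin ha one_ne_zero (by linear_combination h2 - h1)
  · refine gn2_c1 _ fun q x y b c d h1 h2 => ?_
    rw [Frm.NP, ne_eq, not_not] at h1 h2
    simp only [Th.F1, Th.F2, Th.F3, Th.F4, Th.F5, Th.F6, Th.F7, Th.F8, Th.F9, Th.F10, Th.F11, Frm.af, Th.nA, Th.nC, if_true, gn2_if, if_false] at h1 h2
    exact gn2_fin ha one_ne_zero (by linear_combination h1 - h2)
  · refine gn2_c1 _ fun q x y b c d h1 h2 => ?_
    rw [Frm.NP, ne_eq, not_not] at h1 h2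
    simp only [Th.F1, Th.F2, Th.F3, Th.F4, Th.F5, Th.F6, Th.F7, Th.F8, Th.F9, Th.F10, Th.F11, Frm.af, Th.nA, Th.nC, if_true, gn2_if, if_false] at h1 h2
    exact gn2_fin ha hqs (by linear_combination h1 - h2)
  · refine gn2_c1 _ fun q x y b c d h1 h2 => ?_
    rw [Frm.NP, ne_eq, not_not] at h1 h2
    simp only [Th.F1, Th.F2, Th.F3, Th.F4, Th.F5, Th.F6, Th.F7, Th.F8, Th.F9, Th.F10, Th.F11, Frm.af, Th.nA, Th.nC, if_true, gn2_if, if_false] at h1 h2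
    exact gn2_fin ha one_ne_zero (by linear_combination h2 - h1)
  · refine gn2_c1 _ fun q x y b c d h1 h2 => ?_
    rw [Frm.NP, ne_eq, not_not] at h1 h2
    simp only [Th.F1, Th.F2, Th.F3, Th.F4, Th.F5, Th.F6, Th.F7, Th.F8, Th.F9, Th.F10, Th.F11, Frm.af, Th.nA, Th.nC, if_true, gn2_if, if_false] at h1 h2
    exact gn2_fin ha one_ne_zero (by linear_combination h1 - h2)
  · refine gn2_c2 _ fun q x y b c d h1 h2 => ?_
    rw [Frm.NP, ne_eq, not_not] at h1 h2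
    simp only [Th.F1, Th.F2, Th.F3, Th.F4, Th.F5, Th.F6, Th.F7, Th.F8, Th.F9, Th.F10, Th.F11, Frm.af, Th.nA, Th.nC, if_true, gn2_if, if_false] at h1 h2
    exact gn2_fin ha one_ne_zero (by linear_combination h1 - h2)
  · refine gn2_c2 _ fun q x y b c d h1 h2 => ?_
    rw [Frm.NP, ne_eq, not_not] at h1 h2
    simp only [Th.F1, Th.F2, Th.F3, Th.F4, Th.F5, Th.F6, Th.F7, Th.F8, Th.F9, Th.F10, Th.F11, Frm.af, Th.nA, Th.nC, if_true, gn2_if, if_false] at h1 h2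
    exact gn2_fin ha one_ne_zero (by linear_combination h2 - h1)
  · refine gn2_c2 _ fun q x y b c d h1 h2 => ?_
    rw [Frm.NP, ne_eq, not_not] at h1 h2
    simp only [Th.F1, Th.F2, Th.F3, Th.F4, Th.F5, Th.F6, Th.F7, Th.F8, Th.F9, Th.F10, Th.F11, Frm.af, Th.nA, Th.nC, if_true, gn2_if, if_false] at h1 h2
    exact gn2_fin ha one_ne_zero (by linear_combination h1 - h2)
  · refine gn2_c2 _ fun q x y b c d h1 h2 => ?_
    rw [Frm.NP, ne_eq, not_not] at h1 h2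
    simp only [Th.F1, Th.F2, Th.F3, Th.F4, Th.F5, Th.F6, Th.F7, Th.F8, Th.F9, Th.F10, Th.F11, Frm.af, Th.nA, Th.nC, if_true, gn2_if, if_false] at h1 h2
    exact gn2_fin ha hqs (by linear_combination h1 - h2)
  · refine gn2_c2 _ fun q x y b c d h1 h2 => ?_
    rw [Frm.NP, ne_eq, not_not] at h1 h2
    simp only [Th.F1, Th.F2, Th.F3, Th.F4, Th.F5, Th.F6, Th.F7, Th.F8, Th.F9, Th.F10, Th.F11, Frm.af, Th.nA, Th.nC, if_true, gn2_if, if_false] at h1 h2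
    exact gn2_fin ha one_ne_zero (by linear_combination h2 - h1)
  · refine gn2_c2 _ fun q x y b c d h1 h2 => ?_
    rw [Frm.NP, ne_eq, not_not] at h1 h2
    simp only [Th.F1, Th.F2, Th.F3, Th.F4, Th.F5, Th.F6, Th.F7, Th.F8, Th.F9, Th.F10, Th.F11, Frm.af, Th.nA, Th.nC, if_true, gn2_if, if_false] at h1 h2
    exact gn2_fin ha one_ne_zero (by linear_combination h1 - h2)
  · refine gn2_c3 _ fun q x y b c d h1 h2 => ?_
    rw [Frm.NP, ne_eq, not_not] at h1 h2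
    simp only [Th.F1, Th.F2, Th.F3, Th.F4, Th.F5, Th.F6, Th.F7, Th.F8, Th.F9, Th.F10, Th.F11, Frm.af, Th.nA, Th.nC, if_true, gn2_if, if_false] at h1 h2
    exact gn2_fin ha one_ne_zero (by linear_combination h2 - h1)
  · refine gn2_c3 _ fun q x y b c d h1 h2 => ?_
    rw [Frm.NP, ne_eq, not_not] at h1 h2
    simp only [Th.F1, Th.F2, Th.F3, Th.F4, Th.F5, Th.F6, Th.F7, Th.F8, Th.F9, Th.F10, Th.F11, Frm.af, Th.nA, Th.nC, if_true, gn2_if, if_false] at h1 h2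
    exact gn2_fin ha one_ne_zero (by linear_combination h1 - h2)
  · refine gn2_c3 _ fun q x y b c d h1 h2 => ?_
    rw [Frm.NP, ne_eq, not_not] at h1 h2
    simp only [Th.F1, Th.F2, Th.F3, Th.F4, Th.F5, Th.F6, Th.F7, Th.F8, Th.F9, Th.F10, Th.F11, Frm.af, Th.nA, Th.nC, if_true, gn2_if, if_false] at h1 h2
    exact gn2_fin ha hqs (by linear_combination h1 - h2)
  · refine gn2_c3 _ fun q x y b c d h1 h2 => ?_
    rw [Frm.NP, ne_eq, not_not] at h1 h2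
    simp only [Th.F1, Th.F2, Th.F3, Th.F4, Th.F5, Th.F6, Th.F7, Th.F8, Th.F9, Th.F10, Th.F11, Frm.af, Th.nA, Th.nC, if_true, gn2_if, if_false] at h1 h2
    exact gn2_fin ha one_ne_zero (by linear_combination h2 - h1)
  · refine gn2_c4 _ fun q x y b c d h1 h2 => ?_
    rw [Frm.NP, ne_eq, not_not] at h1 h2
    simp only [Th.F1, Th.F2, Th.F3, Th.F4, Th.F5, Th.F6, Th.F7, Th.F8, Th.F9, Th.F10, Th.F11, Frm.af, Th.nA, Th.nC, if_true, gn2_if, if_false] at h1 h2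
    exact gn2_fin ha one_ne_zero (by linear_combination h2 - h1)
  · refine gn2_c4 _ fun q x y b c d h1 h2 => ?_
    rw [Frm.NP, ne_eq, not_not] at h1 h2
    simp only [Th.F1, Th.F2, Th.F3, Th.F4, Th.F5, Th.F6, Th.F7, Th.F8, Th.F9, Th.F10, Th.F11, Frm.af, Th.nA, Th.nC, if_true, gn2_if, if_false] at h1 h2
    exact gn2_fin ha one_ne_zero (by linear_combination h1 - h2)
  · refine gn2_c4 _ fun q x y b c d h1 h2 => ?_
    rw [Frm.NP, ne_eq, not_not] at h1 h2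
    simp only [Th.F1, Th.F2, Th.F3, Th.F4, Th.F5, Th.F6, Th.F7, Th.F8, Th.F9, Th.F10, Th.F11, Frm.af, Th.nA, Th.nC, if_true, gn2_if, if_false] at h1 h2
    exact gn2_fin ha hqs (by linear_combination h1 - h2)
  · refine gn2_c4 _ fun q x y b c d h1 h2 => ?_
    rw [Frm.NP, ne_eq, not_not] at h1 h2
    simp only [Th.F1, Th.F2, Th.F3, Th.F4, Th.F5, Th.F6, Th.F7, Th.F8, Th.F9, Th.F10, Th.F11, Frm.af, Th.nA, Th.nC, if_true, gn2_if, if_false] at h1 h2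
    exact gn2_fin ha one_ne_zero (by linear_combination h2 - h1)
  · refine gn2_c3 _ fun q x y b c d h1 h2 => ?_
    rw [Frm.NP, ne_eq, not_not] at h1 h2
    simp only [Th.F1, Th.F2, Th.F3, Th.F4, Th.F5, Th.F6, Th.F7, Th.F8, Th.F9, Th.F10, Th.F11, Frm.af, Th.nA, Th.nC, if_true, gn2_if, if_false] at h1 h2
    exact gn2_fin ha one_ne_zero (by linear_combination h1 - h2)
  · refine gn2_c0 _ _ fun θ hθ => ?_
    obtain ⟨h1, h2⟩ := hq θ hθ
    rw [not_not]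
    intro h3
    simp only [Th.F1, Th.F2, Th.F3, Th.F4, Th.F5, Th.F6, Th.F7, Th.F8, Th.F9, Th.F10, Th.F11, Frm.af, Th.nA, Th.nC, if_true, gn2_if, if_false] at h3
    exact mul_ne_zero ha (mul_ne_zero h2 hx) (by linear_combination h3)
  · refine gn2_c0 _ _ fun θ hθ => ?_
    obtain ⟨h1, h2⟩ := hq θ hθ
    rw [not_not]
    intro h3
    simp only [Th.F1, Th.F2, Th.F3, Th.F4, Th.F5, Th.F6, Th.F7, Th.F8, Th.F9, Th.F10, Th.F11, Frm.af, Th.nA, Th.nC, if_true, gn2_if, if_false] at h3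
    exact mul_ne_zero ha (mul_ne_zero h2 hg) (by linear_combination -h3)
  · refine gn2_c3 _ fun q x y b c d h1 h2 => ?_
    rw [Frm.NP, ne_eq, not_not] at h1 h2
    simp only [Th.F1, Th.F2, Th.F3, Th.F4, Th.F5, Th.F6, Th.F7, Th.F8, Th.F9, Th.F10, Th.F11, Frm.af, Th.nA, Th.nC, if_true, gn2_if, if_false] at h1 h2
    exact gn2_fin ha one_ne_zero (by linear_combination h2 - h1)
  · refine gn2_c0 _ _ fun θ hθ => ?_
    obtain ⟨h1, h2⟩ := hq θ hθ
    rw [not_not]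
    intro h3
    simp only [Th.F1, Th.F2, Th.F3, Th.F4, Th.F5, Th.F6, Th.F7, Th.F8, Th.F9, Th.F10, Th.F11, Frm.af, Th.nA, Th.nC, if_true, gn2_if, if_false] at h3
    exact mul_ne_zero ha (mul_ne_zero h2 hNs) (by linear_combination -h3)
  · refine gn2_c3 _ fun q x y b c d h1 h2 => ?_
    rw [Frm.NP, ne_eq, not_not] at h1 h2
    simp only [Th.F1, Th.F2, Th.F3, Th.F4, Th.F5, Th.F6, Th.F7, Th.F8, Th.F9, Th.F10, Th.F11, Frm.af, Th.nA, Th.nC, if_true, gn2_if, if_false] at h1 h2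
    exact gn2_fin ha hqs (by linear_combination h2 - h1)
  · refine gn2_c3 _ fun q x y b c d h1 h2 => ?_
    rw [Frm.NP, ne_eq, not_not] at h1 h2
    simp only [Th.F1, Th.F2, Th.F3, Th.F4, Th.F5, Th.F6, Th.F7, Th.F8, Th.F9, Th.F10, Th.F11, Frm.af, Th.nA, Th.nC, if_true, gn2_if, if_false] at h1 h2
    exact gn2_fin ha one_ne_zero (by linear_combination h1 - h2)

open Classical in
theorem intr (he : e.Ok) (h : DH e k0 B cr eps g Ns qs k qlo qhi s dl a0 lo hi) (ha : G.a ≠ 0) :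
    (((e.TT qs qlo qhi k G.a).filter fun θ => ¬ (θ.Fs eps g Ns qs k G).Pairwise Frm.NP).card : ℝ) ≤
      55 * ((e.Qs qs qlo qhi k G.a).card * e.E.card ^ 3) := by
  have hY : 0 < e.Y := by
    have h1 := he.zY
    have h2 := he.wz
    by_contra hY
    have h3 : e.Y = 0 := by omega
    rw [h3] at h1
    have h4 : 0 < e.z ^ 2 := by
      have : 0 < e.z := by omega
      positivity
    omega
  have hqlo : 0 < qlo := lt_of_lt_of_le (by positivity) h.hq0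
  have hqs : (qs : ℤ) ≠ 0 := by
    have h1 := h.hqs.1 2 Nat.prime_two (by have := he.wz; have := he.w; omega)
    intro h2
    rw [h2] at h1
    exact h1 (dvd_zero _)
  have hNs : (Ns : ℤ) ≠ 0 := by
    have h1 := (he.EH Ns h.hNs).1
    have h2 := he.Xs0
    omega
  have hNs0 : (0 : ℤ) ≤ Ns := Nat.cast_nonneg _
  have hqs0 : (0 : ℤ) ≤ qs := Nat.cast_nonneg _
  have hg : g ≠ 0 := h.hg.1.ne'
  have hq : ∀ θ ∈ e.TT qs qlo qhi k G.a, (θ.q : ℤ) ≠ 0 ∧ (θ.q : ℤ) - k ≠ 0 := by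
    intro θ hθ
    obtain ⟨⟨h1, -, h2, -⟩, -⟩ := tt_mem hθ
    constructor <;> omega
  have hc : (11 : ℕ).choose 2 = 55 := by decide
  rcases h.heps with rfl | rfl
  · have hx : (qs : ℤ) * g + Ns ≠ 0 := by
      have h1 := h.hg.1
      have h2 : (0 : ℤ) ≤ qs * g := mul_nonneg hqs0 h1.le
      omega
    have h1 := gn2_list _ _ _ (gn2_p (e := e) (qlo := qlo) (qhi := qhi) ha hqs hNs hg hx hq)
    simp only [List.length_cons, List.length_nil, Nat.zero_add, Nat.reduceAdd, hc, List.map_cons, List.map_nil] at h1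
    have h2 : (((e.TT qs qlo qhi k G.a).filter fun θ => ¬ (θ.Fs 1 g Ns qs k G).Pairwise Frm.NP).card) ≤
      55 * ((e.Qs qs qlo qhi k G.a).card * e.E.card ^ 3) := h1
    exact_mod_cast h2
  · have hx : (qs : ℤ) * g - Ns ≠ 0 := by
      rcases h.md with ⟨h1, -⟩ | ⟨-, -, h1⟩
      · norm_num at h1
      · exact sub_ne_zero.2 h1
    have h1 := gn2_list _ _ _ (gn2_m (e := e) (qlo := qlo) (qhi := qhi) ha hqs hNs hg hx hq)
    simp only [List.length_cons, List.length_nil, Nat.zero_add, Nat.reduceAdd, hc, List.map_cons, List.map_nil] at h1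
    have h2 : (((e.TT qs qlo qhi k G.a).filter fun θ => ¬ (θ.Fs (-1) g Ns qs k G).Pairwise Frm.NP).card) ≤
      55 * ((e.Qs qs qlo qhi k G.a).card * e.E.card ^ 3) := h1
    exact_mod_cast h2

end Pool.Agent.Lib.EX
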