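import Pool.Agent.Lib.MP_61161c_nt.EX.Fcnt
import Pool.Agent.Lib.BV.Defs

/-!
# EX, block D, module Jcard: at most `X^(e1/100)` characters have a large twisted average over primes of `(V, 2V]`
-/

set_option autoImplicit false

open Finset

namespace Pool.Agent.Lib.EX

open Classical in
theorem jcard (e1 cv : ℝ) (he : 0 < e1) (hcv : 0 < cv) : ∃ X0 : ℕ, ∀ X : ℕ, X0 ≤ X → ∀ (G V : ℕ) [NeZero G],
    G ≤ X → (X : ℝ) ^ cv ≤ V → (V : ℝ) ≤ (X : ℝ) ^ (e1 / 200) → ∀ (P : Finset ℕ) (l : ℕ → ℝ), (∀ p ∈ P, l p ^ 2 = 1) →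
    (∀ p ∈ P, p.Prime ∧ p ≤ 2 * V ∧ ¬ p ∣ G) → (V : ℝ) / (Real.log X) ^ 2 ≤ P.card →
    ((univ.filter (fun χ : DirichletCharacter ℂ G => ¬ ‖mu P l χ‖ < 1 / 2)).card : ℝ) ≤ (X : ℝ) ^ (e1 / 100) := by
  -- number of factors
  set m : ℕ := ⌈1 / cv⌉₊ with hm
  have hlogpow : Filter.Tendsto (fun X : ℝ => (Real.log X) ^ (2 * m) / X ^ (e1 / 200)) Filter.atTop (nhds 0) := by
    have h := isLittleO_log_rpow_rpow_atTop ((2 * m : ℕ) : ℝ) (show 0 < e1 / 200 by linarith)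
    have h2 := h.tendsto_div_nhds_zero
    refine h2.congr fun X => ?_
    rw [Real.rpow_natCast]
  have hlim : Filter.Tendsto (fun X : ℕ => 2 * (8 * m : ℝ) ^ m * ((Real.log X) ^ (2 * m) / (X : ℝ) ^ (e1 / 200)))
      Filter.atTop (nhds 0) := by
    have h := (hlogpow.comp tendsto_natCast_atTop_atTop).const_mul (2 * (8 * m : ℝ) ^ m)
    rw [mul_zero] at h
    exact h
  have hlog : Filter.Tendsto (fun X : ℕ => Real.log X) Filter.atTop Filter.atTop :=
    Real.tendsto_log_atTop.comp tendsto_natCast_atTop_atTop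
  have hev := ((hlim.eventually (gt_mem_nhds one_pos)).and (hlog.eventually_ge_atTop 1)).and
    (Filter.eventually_ge_atTop 2)
  obtain ⟨X0, h0⟩ := Filter.eventually_atTop.mp hev
  refine ⟨X0, fun X hX G V _ hGX hV1 hV2 P l hl hP hPc => ?_⟩
  obtain ⟨⟨hsm, hL⟩, hX2⟩ := h0 X hX
  have hXr : (1 : ℝ) < X := by exact_mod_cast (by omega : 1 < X)
  have hX0 : (0 : ℝ) < X := by linarith
  have hVr : 1 < (V : ℝ) := lt_of_lt_of_le (Real.one_lt_rpow hXr hcv) hV1
  have hV : 1 < V := by exact_mod_cast hVr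
  have hm1 : 1 ≤ m := Nat.one_le_ceil_iff.mpr (by positivity)
  have hPpos : (0 : ℝ) < P.card := lt_of_lt_of_le (by positivity) hPc
  have hPc0 : 0 < P.card := by exact_mod_cast hPpos
  have hXe : (1 : ℝ) ≤ (X : ℝ) ^ (e1 / 100) := Real.one_le_rpow hXr.le (by linarith)
  rcases Nat.lt_or_ge G 2 with hG | hG
  · have h1 : (univ.filter (fun χ : DirichletCharacter ℂ G => ¬ ‖mu P l χ‖ < 1 / 2)).card ≤ 1 := by
      refine (card_filter_le _ _).trans ?_
      rw [card_univ, BV.card_chars G (by have := NeZero.ne G; omega)]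
      have hG1 : G = 1 := by have := NeZero.ne G; omega
      rw [hG1]
      simp
    have h2 : ((univ.filter (fun χ : DirichletCharacter ℂ G => ¬ ‖mu P l χ‖ < 1 / 2)).card : ℝ) ≤ 1 := by
      exact_mod_cast h1
    exact h2.trans hXe
  · set k := Nat.log (2 * V) (G - 1) with hk
    have hk1 : (2 * V) ^ k < G := by
      have := Nat.pow_log_le_self (2 * V) (x := G - 1) (by omega)
      rw [← hk] at this
      omega
    have hk2 : G ≤ (2 * V) ^ (k + 1) := by
      have := Nat.lt_pow_succ_log_self (b := 2 * V) (by omega) (G - 1)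
      rw [← hk, Nat.succ_eq_add_one] at this
      omega
    -- k ≤ m
    have hkm : k ≤ m := by
      have h1 : (V : ℝ) ^ k ≤ X := by
        have h2 : V ^ k ≤ (2 * V) ^ k := Nat.pow_le_pow_left (by omega) k
        exact_mod_cast (h2.trans hk1.le).trans hGX
      have h2 : ((X : ℝ) ^ cv) ^ k ≤ X := (pow_le_pow_left₀ (by positivity) hV1 k).trans h1
      rw [← Real.rpow_natCast, ← Real.rpow_mul hX0.le] at h2
      have h3 : cv * k ≤ 1 := by
        by_contra hcon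
        push Not at hcon
        have h4 := Real.rpow_lt_rpow_of_exponent_lt hXr hcon
        rw [Real.rpow_one] at h4
        linarith
      have h4 : (k : ℝ) ≤ 1 / cv := by
        rw [le_div_iff₀ hcv]
        linarith
      exact_mod_cast h4.trans (Nat.le_ceil _)
    have hf := fcnt G P (2 * V) k l hl hP hPc0 hk1
    set Jc := ((univ.filter (fun χ : DirichletCharacter ℂ G => ¬ ‖mu P l χ‖ < 1 / 2)).card : ℝ) with hJc
    have hJ0 : 0 ≤ Jc := Nat.cast_nonneg _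
    have hphi : (G.totient : ℝ) ≤ (2 * V) ^ (k + 1) := by
      exact_mod_cast (Nat.totient_le G).trans hk2
    have hfac : (k.factorial : ℝ) ≤ (m : ℝ) ^ k := by
      have h1 : (k.factorial : ℝ) ≤ (k : ℝ) ^ k := by exact_mod_cast Nat.factorial_le_pow k
      exact h1.trans (pow_le_pow_left₀ (Nat.cast_nonneg _) (by exact_mod_cast hkm) k)
    have hLp : 0 < Real.log X := by linarith
    have hlow : ((V : ℝ) / (Real.log X) ^ 2) ^ k ≤ (P.card : ℝ) ^ k := pow_le_pow_left₀ (by positivity) hPc k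
    have h1 : Jc * ((V : ℝ) / (Real.log X) ^ 2) ^ k ≤ (4 : ℝ) ^ k * (2 * V) ^ (k + 1) * (m : ℝ) ^ k := by
      calc Jc * ((V : ℝ) / (Real.log X) ^ 2) ^ k ≤ Jc * (P.card : ℝ) ^ k := mul_le_mul_of_nonneg_left hlow hJ0
        _ ≤ (4 : ℝ) ^ k * G.totient * k.factorial := hf
        _ ≤ _ := by gcongr
    have h2 : (4 : ℝ) ^ k * (2 * V) ^ (k + 1) * (m : ℝ) ^ k =
        (2 * V * ((8 * m) * (Real.log X) ^ 2) ^ k) * ((V : ℝ) / (Real.log X) ^ 2) ^ k := by
      rw [pow_succ, mul_assoc (2 * (V : ℝ)), ← mul_pow]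
      have h3 : 8 * (m : ℝ) * (Real.log X) ^ 2 * ((V : ℝ) / (Real.log X) ^ 2) = 4 * (2 * V) * m := by
        field_simp
        ring
      have h4 : (4 * (2 * (V : ℝ)) * m) ^ k = 4 ^ k * (2 * V) ^ k * m ^ k := by rw [mul_pow, mul_pow]
      rw [h3, h4]
      ring
    rw [h2] at h1
    have h3 : Jc ≤ 2 * V * ((8 * m) * (Real.log X) ^ 2) ^ k :=
      le_of_mul_le_mul_right h1 (by positivity)
    have h4 : ((8 * m) * (Real.log X) ^ 2 : ℝ) ^ k ≤ ((8 * m) * (Real.log X) ^ 2) ^ m := by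
      refine pow_le_pow_right₀ ?_ hkm
      have h5 : (1 : ℝ) ≤ m := by exact_mod_cast hm1
      have h6 : (1 : ℝ) ≤ (Real.log X) ^ 2 := one_le_pow₀ hL
      nlinarith
    have h5 : 2 * ((8 * m) * (Real.log X) ^ 2 : ℝ) ^ m ≤ (X : ℝ) ^ (e1 / 200) := by
      have hp : 0 < (X : ℝ) ^ (e1 / 200) := Real.rpow_pos_of_pos hX0 _
      rw [mul_pow, ← pow_mul]
      rw [← mul_div_assoc, div_lt_one hp] at hsm
      linarith
    calc Jc ≤ 2 * V * ((8 * m) * (Real.log X) ^ 2) ^ k := h3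
      _ ≤ 2 * V * ((8 * m) * (Real.log X) ^ 2) ^ m := mul_le_mul_of_nonneg_left h4 (by positivity)
      _ = V * (2 * ((8 * m) * (Real.log X) ^ 2) ^ m) := by ring
      _ ≤ (X : ℝ) ^ (e1 / 200) * (X : ℝ) ^ (e1 / 200) := by gcongr
      _ = (X : ℝ) ^ (e1 / 100) := by rw [← Real.rpow_add hX0]; congr 1; ring

end Pool.Agent.Lib.EX
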