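import Pool.Agent.Lib.MP_61161c_nt.EX.DDefs
import Pool.Agent.Lib.Sieve.Mertens

/-!
# EX, block D: `vz z ≥ c / log z`
-/

set_option autoImplicit false

open Finset

namespace Pool.Agent.Lib.EX

theorem vz_mert : ∃ cm : ℝ, 0 < cm ∧ cm ≤ 1 ∧ ∀ z : ℕ, 2 ≤ z → cm / Real.log z ≤ vz z := by
  obtain ⟨C, hC, h⟩ := Pool.Agent.Lib.Sieve.mertens_product_upper
  refine ⟨1 / max C 1, by positivity, ?_, fun z hz => ?_⟩
  · rw [div_le_one (by positivity)]
    exact le_max_right _ _
  · have h1 := h z hz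
    have hl : 0 < Real.log z := Real.log_pos (by exact_mod_cast hz)
    have hm : 0 < max C 1 := by positivity
    rw [← VV_eq]
    have hV := VV_pos z (by omega)
    rw [prod_inv_distrib] at h1
    have h2 : (VV z)⁻¹ ≤ max C 1 * Real.log z := by
      refine le_trans ?_ (mul_le_mul_of_nonneg_right (le_max_left C 1) hl.le)
      exact h1
    rw [div_div, one_div]
    exact inv_le_of_inv_le₀ hV h2

end Pool.Agent.Lib.EX
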