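import Pool.Agent.Lib.MP_61161c_nt.EX.O1b

/-!
# EX, block D, module O1: one real character

A function `F = ± 1` on the units modulo `G ≤ X^(1-e1)`, almost equal to `lam` on the rough numbers of `(x1, x2]` and almost
invariant under the quotients of primes of `(V, 2V]`, is `± χ`, `χ² = 1`, on most units.
-/

set_option autoImplicit false

open Finset
open Pool.Agent.Lib.MP_45349e_nt.LS (lam lam_mul)

namespace Pool.Agent.Lib.EX

open Pool.Agent.Lib.RG (bch chNorm chInv chPars chParsF phi_pos phi_ne chOrth chStar chNormsq chExpand)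

open Classical in
theorem o1 (e1 cv d4 : ℝ) (he1 : 0 < e1) (he1' : e1 ≤ 1) (hcv : 0 < cv) (hd4 : 0 < d4) (hd4' : d4 ≤ 1 / 4) :
    ∃ d : ℝ, 0 < d ∧ ∃ cs : ℝ, 0 < cs ∧ ∀ c0 : ℝ, 0 < c0 → c0 ≤ cs → ∃ X0 : ℕ, ∀ X z : ℕ, X0 ≤ X →
    (Real.log X) ^ 3 ≤ z → (z : ℝ) ≤ (X : ℝ) ^ c0 →
    ∀ (G V : ℕ) [NeZero G], (G : ℝ) ≤ (X : ℝ) ^ (1 - e1) → (X : ℝ) ^ cv ≤ V → (V : ℝ) ≤ (X : ℝ) ^ (e1 / 200) →
    ∀ x1 x2 : ℕ, (X : ℝ) ^ (1 - e1 / 5) ≤ x2 → x2 ≤ X → 8 * x1 ≤ x2 →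
    ∀ P : Finset ℕ, (∀ p ∈ P, p.Prime ∧ p ≤ 2 * V ∧ ¬ p ∣ G) → (V : ℝ) / (Real.log X) ^ 2 ≤ P.card →
    ∀ F : ZMod G → ℝ, (∀ x, ¬ IsUnit x → F x = 0) → (∀ x, IsUnit x → F x = 1 ∨ F x = -1) →
    (((rg z x1 x2).filter (fun n : ℕ => n.Coprime G ∧ lam n ≠ F n)).card : ℝ) ≤ d * (x2 * vz z) →
    (∀ u ∈ P, ∀ u' ∈ P, ((univ.filter (fun r : ZMod G => IsUnit r ∧ F (u * r) ≠ F (u' * r))).card : ℝ) ≤ d * G.totient) →
    ∃ χ : DirichletCharacter ℂ G, χ ^ 2 = 1 ∧ ∃ s : ℝ, (s = 1 ∨ s = -1) ∧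
      ((univ.filter (fun x : ZMod G => IsUnit x ∧ ((F x : ℝ) : ℂ) ≠ (s : ℂ) * χ x)).card : ℝ) ≤ d4 * G.totient := by
  obtain ⟨b, hb1, X1, hX1, hdb⟩ := db (e1 / 10) (d4 / 4) (by linarith) (by linarith)
  obtain ⟨cm, hcm0, hcm1, hmert⟩ := vz_mert
  obtain ⟨csr, hcsr, hrap⟩ := rap (e1 / 2) (by linarith)
  obtain ⟨Xj, hXj⟩ := jcard e1 cv he1 hcv
  obtain ⟨Xb, hXb2, hXb⟩ := box_len e1 he1 he1'
  set c3 : ℝ := e1 / 10 / 10 / ((12 * b + 3 : ℕ) : ℝ) with hc3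
  have hbpos : (0 : ℝ) < ((12 * b + 3 : ℕ) : ℝ) := by positivity
  have hc30 : 0 < c3 := by positivity
  have hc31 : c3 ≤ 1 := by
    rw [hc3, div_le_one hbpos]
    have : (1 : ℝ) ≤ ((12 * b + 3 : ℕ) : ℝ) := by exact_mod_cast (by omega : 1 ≤ 12 * b + 3)
    linarith
  set R : ℕ := ⌈1 / c3⌉₊ with hR
  have hRc : 1 ≤ c3 * (R + 1) := by
    have h1 : 1 / c3 ≤ R := Nat.le_ceil _
    rw [div_le_iff₀ hc30] at h1
    linarith
  set τ : ℝ := e1 * cm / 128 with hτ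
  have hτ0 : 0 < τ := by positivity
  have hτ1 : τ ≤ 1 := by
    rw [hτ]
    have h1 : e1 * cm ≤ 1 * 1 := mul_le_mul (by linarith) (by linarith) hcm0.le (by norm_num)
    linarith
  set C : ℝ := 2 ^ (R + 1) / τ with hC
  have h2R : (1 : ℝ) ≤ 2 ^ (R + 1) := one_le_pow₀ (by norm_num)
  have hC1 : 1 ≤ C := by
    rw [hC, one_le_div hτ0]
    linarith
  set d : ℝ := min (d4 * τ / 2 ^ (R + 4)) ((d4 ^ 2 / (100 * C)) ^ 2) with hd
  have hd0 : 0 < d := by
    rw [hd]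
    refine lt_min ?_ ?_ <;> positivity
  have hda : d ≤ d4 * τ / 2 ^ (R + 4) := min_le_left _ _
  have hdb' : √d ≤ d4 ^ 2 / (100 * C) := by
    rw [Real.sqrt_le_left (by positivity)]
    exact min_le_right _ _
  have hd1 : 4 * d ≤ 1 := by
    have h1 : d4 * τ / 2 ^ (R + 4) ≤ 1 / 4 := by
      rw [div_le_iff₀ (by positivity)]
      have h2 : (1 : ℝ) ≤ 2 ^ (R + 4) := one_le_pow₀ (by norm_num)
      have h3 : d4 * τ ≤ 1 / 4 * 1 := mul_le_mul hd4' hτ1 hτ0.le (by norm_num)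
      linarith
    linarith
  refine ⟨d, hd0, min c3 csr, lt_min hc30 hcsr, fun c0 hc0 hc0s => ?_⟩
  obtain ⟨Xr, hXr⟩ := hrap c0 hc0 (hc0s.trans (min_le_right _ _))
  -- the threshold
  have hlog : Filter.Tendsto (fun X : ℕ => Real.log X) Filter.atTop Filter.atTop :=
    Real.tendsto_log_atTop.comp tendsto_natCast_atTop_atTop
  have hpow : Filter.Tendsto (fun X : ℕ => (X : ℝ) ^ c3) Filter.atTop Filter.atTop :=
    (tendsto_rpow_atTop hc30).comp tendsto_natCast_atTop_atTop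
  have hev := ((hlog.eventually_ge_atTop (max 2 (1 / (cm * Real.log 2 * d)))).and (hpow.eventually_ge_atTop 2)).and
    (Filter.eventually_ge_atTop (max (max ⌈X1⌉₊ 2) (max (max Xj Xb) Xr)))
  obtain ⟨X0, h0⟩ := Filter.eventually_atTop.mp hev
  refine ⟨X0, fun X z hX hzl hz G V _ hG hV1 hV2 x1 x2 hx2 hx2X h8 P hP hPc F hF0 hF1 hD1 hD2 => ?_⟩
  obtain ⟨⟨hL, hp3⟩, hXX⟩ := h0 X hX
  have hXX1 : X1 ≤ (X : ℝ) := (Nat.le_ceil X1).trans
    (by exact_mod_cast ((le_max_left _ _).trans (le_max_left _ _)).trans hXX)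
  have hX2 : 2 ≤ X := ((le_max_right _ _).trans (le_max_left _ _)).trans hXX
  have hXXj : Xj ≤ X := (((le_max_left _ _).trans (le_max_left _ _)).trans (le_max_right _ _)).trans hXX
  have hXXb : Xb ≤ X := (((le_max_right _ _).trans (le_max_left _ _)).trans (le_max_right _ _)).trans hXX
  have hXXr : Xr ≤ X := ((le_max_right _ _).trans (le_max_right _ _)).trans hXX
  have hXr1 : (1 : ℝ) < X := by exact_mod_cast (by omega : 1 < X)
  have hXr0 : (0 : ℝ) < X := by linarith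
  have hl2 : 0 < Real.log 2 := Real.log_pos (by norm_num)
  have hlX2 : 2 ≤ Real.log X := (le_max_left _ _).trans hL
  have hlX : 1 / (cm * Real.log 2 * d) ≤ Real.log X := (le_max_right _ _).trans hL
  have hz8 : (8 : ℝ) ≤ z := by
    refine le_trans ?_ hzl
    calc (8 : ℝ) = 2 ^ 3 := by norm_num
      _ ≤ _ := pow_le_pow_left₀ (by norm_num) hlX2 3
  have hz2 : 2 ≤ z := by
    have : (2 : ℝ) ≤ z := by linarith
    exact_mod_cast this
  have hG0 : G ≠ 0 := NeZero.ne G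
  have hG1 : 1 ≤ G := by omega
  have hGX' : (G : ℝ) ≤ X := hG.trans (by
    calc (X : ℝ) ^ (1 - e1) ≤ (X : ℝ) ^ (1 : ℝ) := Real.rpow_le_rpow_of_exponent_le hXr1.le (by linarith)
      _ = X := Real.rpow_one _)
  have hGX : G ≤ X := by exact_mod_cast hGX'
  have hφ := phi_pos (N := G)
  have hx20 : (0 : ℝ) < x2 := lt_of_lt_of_le (Real.rpow_pos_of_pos hXr0 _) hx2
  -- the level z3
  set z3 : ℕ := ⌊(X : ℝ) ^ c3⌋₊ with hz3
  have hz3a : (z3 : ℝ) ≤ (X : ℝ) ^ c3 := Nat.floor_le (Real.rpow_nonneg hXr0.le _)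
  have hz3b : (X : ℝ) ^ c3 < z3 + 1 := Nat.lt_floor_add_one _
  have hz32 : 2 ≤ z3 := Nat.le_floor (by exact_mod_cast hp3)
  have hzz3 : z ≤ z3 := Nat.le_floor (hz.trans (Real.rpow_le_rpow_of_exponent_le hXr1.le (hc0s.trans (min_le_left _ _))))
  have hz3p : (z3 : ℝ) ^ (12 * b + 3) ≤ (X : ℝ) ^ (e1 / 10 / 10) :=
    zlev (e1 / 10 / 10) (12 * b + 3) (by omega) c3 le_rfl X z3 (by omega) hz3a
  have hzp : (z : ℝ) ^ (12 * b + 3) ≤ (X : ℝ) ^ (e1 / 10 / 10) := by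
    refine le_trans (pow_le_pow_left₀ (Nat.cast_nonneg _) ?_ _) hz3p
    exact_mod_cast hzz3
  have hx2R : x2 < (z3 + 1) ^ (R + 1) := by
    have h1 : (X : ℝ) < ((z3 : ℝ) + 1) ^ (R + 1) := by
      calc (X : ℝ) = (X : ℝ) ^ (1 : ℝ) := (Real.rpow_one _).symm
        _ ≤ (X : ℝ) ^ (c3 * ((R + 1 : ℕ) : ℝ)) := by
            refine Real.rpow_le_rpow_of_exponent_le hXr1.le ?_
            push_cast
            exact hRc
        _ = ((X : ℝ) ^ c3) ^ (R + 1) := by rw [Real.rpow_mul hXr0.le, Real.rpow_natCast]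
        _ < ((z3 : ℝ) + 1) ^ (R + 1) := pow_lt_pow_left₀ hz3b (Real.rpow_nonneg hXr0.le _) (by omega)
    have h2 : X < (z3 + 1) ^ (R + 1) := by exact_mod_cast h1
    omega
  -- J
  have hPcop : ∀ p ∈ P, p.Coprime G := fun p hp => (hP p hp).1.coprime_iff_not_dvd.mpr (hP p hp).2.2
  have hPpos : 0 < P.card := by
    have h1 : (0 : ℝ) < (V : ℝ) / (Real.log X) ^ 2 := by
      have hV0 : (0 : ℝ) < V := lt_of_lt_of_le (Real.rpow_pos_of_pos hXr0 _) hV1
      positivity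
    exact_mod_cast lt_of_lt_of_le h1 hPc
  set J : Finset (DirichletCharacter ℂ G) := univ.filter (fun χ => ¬ ‖mu P (fun _ => (-1 : ℝ)) χ‖ < 1 / 2) with hJ
  have hJc : (J.card : ℝ) ≤ (X : ℝ) ^ (e1 / 10 / 4) := by
    have h1 := hXj X hXXj G V hGX hV1 hV2 P (fun _ => (-1 : ℝ)) (fun _ _ => by norm_num) hP hPc
    refine h1.trans (Real.rpow_le_rpow_of_exponent_le hXr1.le (by linarith))
  have hmass := conc P hPcop hPpos F hF0 hF1 d hd0.le hd1 hD2
  have hJmass : ∑ χ ∈ univ.filter (fun χ : DirichletCharacter ℂ G => χ ∉ J), ‖bch (fun x => (F x : ℂ)) χ‖ ^ 2 ≤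
      16 / 3 * √d := by
    refine le_trans (le_of_eq ?_) hmass
    refine sum_congr ?_ fun _ _ => rfl
    ext χ
    simp only [hJ, mem_filter, mem_univ, true_and, not_not]
  -- the boxes
  set a := ba e1 X with ha
  set K := bk e1 X with hK
  obtain ⟨ha1, hKlow, hbox⟩ := hXb X hXXb G x1 x2 hG1 hG hx2 hx2X h8
  have ha0 : (0 : ℝ) < a := by exact_mod_cast ha1
  have hV3 : 0 < vz z3 := vz_pos z3 (by omega)
  have hVz : 0 < vz z := vz_pos z (by omega)
  have hGX2 : (G : ℝ) ≤ (X : ℝ) ^ 2 := hGX'.trans (le_self_pow₀ hXr1.le (by norm_num))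
  have he16 : 15 / 16 ≤ 1 - d4 / 4 := by linarith
  have hM1 : ∀ k < K, (15 / 16 * (2 ^ k * (a : ℝ) * vz z3) ≤ ((bM1 z3 a k).card : ℝ)) ∧
      ∑ χ ∈ J, ‖∑ m ∈ bM1 z3 a k, ((lam m : ℝ) : ℂ) * χ (m : ZMod G)‖ ^ 2 ≤ (1 + d4 / 4) * ((bM1 z3 a k).card : ℝ) ^ 2 := by
    intro k hk
    obtain ⟨h1, -, -⟩ := hbox k hk
    have hAB : 2 ^ k * a ≤ 2 ^ (k + 1) * a :=
      Nat.mul_le_mul_right a (Nat.pow_le_pow_right (by norm_num) (Nat.le_succ k))
    obtain ⟨g1, -, g3⟩ := hdb X hXX1 z3 hz32 hz3p G hGX2 (2 ^ k * a) (2 ^ (k + 1) * a) hAB h1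
    refine ⟨?_, g3 J hJc (fun m => ((lam m : ℝ) : ℂ)) (fun m => by
      rw [Complex.norm_real, Real.norm_eq_abs]
      rcases lam_pm' m with h | h <;> rw [h] <;> norm_num)⟩
    refine le_trans ?_ g1
    push_cast
    have e1 : (2 : ℝ) ^ (k + 1) * a - 2 ^ k * a = 2 ^ k * a := by ring
    rw [e1, mul_comm (15 / 16 : ℝ)]
    exact mul_le_mul_of_nonneg_left he16 (by positivity)
  have hM2 : ∀ k < K, (15 / 16 * ((x2 : ℝ) / (4 * (2 ^ k * (a : ℝ))) * vz z) ≤ ((bM2 z a x1 x2 k).card : ℝ)) ∧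
      ∑ χ ∈ J, ‖∑ m ∈ bM2 z a x1 x2 k, ((lam m : ℝ) : ℂ) * χ (m : ZMod G)‖ ^ 2 ≤
        (1 + d4 / 4) * ((bM2 z a x1 x2 k).card : ℝ) ^ 2 := by
    intro k hk
    obtain ⟨-, h2, h3⟩ := hbox k hk
    have hpos : (0 : ℝ) ≤ (x2 : ℝ) / (4 * (2 ^ k * a : ℕ)) := by positivity
    have hAB : x1 / (2 ^ k * a) ≤ x2 / (2 ^ (k + 1) * a) := by
      have : ((x1 / (2 ^ k * a) : ℕ) : ℝ) ≤ ((x2 / (2 ^ (k + 1) * a) : ℕ) : ℝ) := by linarith
      exact_mod_cast this
    obtain ⟨g1, -, g3⟩ := hdb X hXX1 z hz2 hzp G hGX2 (x1 / (2 ^ k * a)) (x2 / (2 ^ (k + 1) * a)) hAB (h3.trans h2)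
    refine ⟨?_, g3 J hJc (fun m => ((lam m : ℝ) : ℂ)) (fun m => by
      rw [Complex.norm_real, Real.norm_eq_abs]
      rcases lam_pm' m with h | h <;> rw [h] <;> norm_num)⟩
    refine le_trans ?_ g1
    have h4 : (x2 : ℝ) / (4 * (2 ^ k * (a : ℝ))) ≤
        ((x2 / (2 ^ (k + 1) * a) : ℕ) : ℝ) - (x1 / (2 ^ k * a) : ℕ) := by
      refine le_trans (le_of_eq ?_) h2
      push_cast
      rfl
    calc 15 / 16 * ((x2 : ℝ) / (4 * (2 ^ k * (a : ℝ))) * vz z)
        = (x2 : ℝ) / (4 * (2 ^ k * (a : ℝ))) * vz z * (15 / 16) := by ring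
      _ ≤ (x2 : ℝ) / (4 * (2 ^ k * (a : ℝ))) * vz z * (1 - d4 / 4) := mul_le_mul_of_nonneg_left he16 (by positivity)
      _ ≤ _ := by
          refine mul_le_mul_of_nonneg_right (mul_le_mul_of_nonneg_right h4 hVz.le) (by linarith)
  -- lower bound for T
  set T : ℝ := ∑ k ∈ range K, ((bM1 z3 a k).card : ℝ) * (bM2 z a x1 x2 k).card with hT
  have hTlow : τ * (x2 * vz z) ≤ T := by
    have h1 := tlow K a x2 (vz z3) (vz z) hV3.le hVz.le ha0 hx20.le (bM1 z3 a) (bM2 z a x1 x2)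
      (fun k hk => (hM1 k hk).1) (fun k hk => (hM2 k hk).1)
    refine le_trans ?_ h1
    have h2 := hmert z3 hz32
    have hlz3 : 0 < Real.log z3 := Real.log_pos (by exact_mod_cast hz32)
    have hlz3X : Real.log z3 ≤ Real.log X := by
      refine Real.log_le_log (by positivity) (hz3a.trans ?_)
      calc (X : ℝ) ^ c3 ≤ (X : ℝ) ^ (1 : ℝ) := Real.rpow_le_rpow_of_exponent_le hXr1.le hc31
        _ = X := Real.rpow_one _
    have h3 : cm / Real.log X ≤ vz z3 := le_trans (by gcongr) h2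
    have hlX0 : 0 < Real.log X := by linarith
    calc τ * (x2 * vz z) ≤ (e1 / 16 * Real.log X) * (3 / 16 * (x2 * (cm / Real.log X) * vz z)) := by
          rw [hτ]
          have h4 : (e1 / 16 * Real.log X) * (3 / 16 * ((x2 : ℝ) * (cm / Real.log X) * vz z)) =
              3 / 256 * (e1 * cm) * (x2 * vz z) := by
            field_simp
            ring
          rw [h4]
          refine mul_le_mul_of_nonneg_right ?_ (by positivity)
          have : 0 < e1 * cm := by positivity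
          linarith
      _ ≤ (K : ℝ) * (3 / 16 * (x2 * (cm / Real.log X) * vz z)) :=
          mul_le_mul_of_nonneg_right hKlow (by positivity)
      _ ≤ _ := by
          refine mul_le_mul_of_nonneg_left ?_ (Nat.cast_nonneg _)
          refine mul_le_mul_of_nonneg_left ?_ (by norm_num)
          exact mul_le_mul_of_nonneg_right (mul_le_mul_of_nonneg_left h3 hx20.le) hVz.le
  have hS0 : 0 < (x2 : ℝ) * vz z := by positivity
  have hT0 : 0 < T := lt_of_lt_of_le (by positivity) hTlow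
  -- the exceptional numbers
  have hBad : (((rg z x1 x2).filter (fun n : ℕ => ¬ (n.Coprime G ∧ lam n = F n))).card : ℝ) ≤ 2 * d * (x2 * vz z) := by
    have hsub : (rg z x1 x2).filter (fun n : ℕ => ¬ (n.Coprime G ∧ lam n = F n)) ⊆
        (rg z x1 x2).filter (fun n : ℕ => n.Coprime G ∧ lam n ≠ F n) ∪
          (rg z x1 x2).filter (fun n : ℕ => ¬ n.Coprime G) := by
      intro n hn
      rw [mem_filter] at hn
      rw [mem_union, mem_filter, mem_filter]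
      by_cases hc : n.Coprime G
      · exact Or.inl ⟨hn.1, hc, fun h => hn.2 ⟨hc, h⟩⟩
      · exact Or.inr ⟨hn.1, hc⟩
    have h1 : (((rg z x1 x2).filter (fun n : ℕ => ¬ (n.Coprime G ∧ lam n = F n))).card : ℝ) ≤
        (((rg z x1 x2).filter (fun n : ℕ => n.Coprime G ∧ lam n ≠ F n)).card : ℝ) +
          (((rg z x1 x2).filter (fun n : ℕ => ¬ n.Coprime G)).card : ℝ) := by
      exact_mod_cast (card_le_card hsub).trans (card_union_le _ _)
    have h2 := ncop z G x1 x2 hz2 hG1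
    have h3 : Real.log G / Real.log 2 * ((x2 : ℝ) / z) ≤ d * (x2 * vz z) := by
      have hlG : Real.log G ≤ Real.log X := Real.log_le_log (by exact_mod_cast hG1) hGX'
      have hlG0 : 0 ≤ Real.log G := Real.log_natCast_nonneg G
      have hlX0 : 0 < Real.log X := by linarith
      have hlz : 0 < Real.log z := Real.log_pos (by exact_mod_cast hz2)
      have hzX : (z : ℝ) ≤ X := by
        have h4 : (z : ℝ) ≤ z3 := by exact_mod_cast hzz3
        refine h4.trans (hz3a.trans ?_)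
        calc (X : ℝ) ^ c3 ≤ (X : ℝ) ^ (1 : ℝ) := Real.rpow_le_rpow_of_exponent_le hXr1.le hc31
          _ = X := Real.rpow_one _
      have hlzX : Real.log z ≤ Real.log X := Real.log_le_log (by linarith) hzX
      have h4 : cm / Real.log X ≤ vz z := le_trans (by gcongr) (hmert z hz2)
      have hz0 : (0 : ℝ) < z := by linarith
      calc Real.log G / Real.log 2 * ((x2 : ℝ) / z) ≤ Real.log X / Real.log 2 * ((x2 : ℝ) / (Real.log X) ^ 3) := by
            gcongr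
        _ = x2 * (cm / Real.log X) * (1 / (cm * Real.log 2 * Real.log X)) := by
            field_simp
        _ ≤ x2 * vz z * d := by
            have h5 : 1 / (cm * Real.log 2 * Real.log X) ≤ d := by
              rw [div_le_iff₀ (by positivity)] at hlX ⊢
              linarith
            exact mul_le_mul (mul_le_mul_of_nonneg_left h4 hx20.le) h5 (by positivity) (by positivity)
        _ = _ := by ring
    linarith
  -- the bilinear form
  have hbil0 := bil F hF0 hF1 z z3 R a K x1 x2 ha1 hzz3 hx2R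
  rw [← hT] at hbil0
  set δ : ℝ := 2 ^ (R + 2) * d / τ with hδ
  have hbil : (1 - δ) * T ≤ ∑ k ∈ range K, ∑ m ∈ bM1 z3 a k, ∑ n ∈ bM2 z a x1 x2 k,
      F ((m * n : ℕ) : ZMod G) * (lam m * lam n) := by
    refine le_trans ?_ hbil0
    have h1 : 2 * ((2 : ℝ) ^ R * (((rg z x1 x2).filter (fun n : ℕ => ¬ (n.Coprime G ∧ lam n = F n))).card : ℝ)) ≤ δ * T := by
      calc _ ≤ 2 * ((2 : ℝ) ^ R * (2 * d * (x2 * vz z))) := by gcongr
        _ = δ * (τ * (x2 * vz z)) := by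
            rw [hδ, pow_add]
            field_simp
        _ ≤ δ * T := mul_le_mul_of_nonneg_left hTlow (by positivity)
    linarith
  -- multiplicities
  have hmult : ∀ x : ZMod G, IsUnit x →
      (∑ k ∈ range K, ((((bM1 z3 a k) ×ˢ (bM2 z a x1 x2 k)).filter (fun p => ((p.1 * p.2 : ℕ) : ZMod G) = x)).card : ℝ)) *
        G.totient ≤ C * T := by
    intro x hx
    have h1 := cmul z z3 R a K x1 x2 ha1 hzz3 hx2R x
    have hxc : x.val.Coprime G := by
      rw [← ZMod.isUnit_iff_coprime, ZMod.natCast_zmod_val]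
      exact hx
    have h2 := hXr X z hXXr hz2 hz G x.val x2 hG1 hxc (by
      calc (G : ℝ) * (X : ℝ) ^ (e1 / 2) ≤ (X : ℝ) ^ (1 - e1) * (X : ℝ) ^ (e1 / 2) := by gcongr
        _ = (X : ℝ) ^ (1 - e1 / 2) := by
            rw [← Real.rpow_add hXr0]
            congr 1
            ring
        _ ≤ (X : ℝ) ^ (1 - e1 / 5) := Real.rpow_le_rpow_of_exponent_le hXr1.le (by linarith)
        _ ≤ x2 := hx2) hx2X
    have h3 : (((rg z x1 x2).filter (fun n : ℕ => (n : ZMod G) = x)).card : ℝ) ≤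
        (((Icc 1 x2).filter fun n : ℕ => Sf z (n : ℤ) ∧ n ≡ x.val [MOD G]).card : ℝ) := by
      have h4 : ((rg z x1 x2).filter (fun n : ℕ => (n : ZMod G) = x)) ⊆
          ((Icc 1 x2).filter fun n : ℕ => Sf z (n : ℤ) ∧ n ≡ x.val [MOD G]) := by
        intro n hn
        rw [mem_filter, mem_rg'] at hn
        rw [mem_filter, mem_Icc]
        refine ⟨⟨by omega, hn.1.1.2⟩, Sf_nat.mpr hn.1.2, ?_⟩
        rw [← ZMod.natCast_eq_natCast_iff, ZMod.natCast_zmod_val]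
        exact hn.2
      exact_mod_cast card_le_card h4
    rw [VV_eq] at h2
    calc _ ≤ (2 ^ R * (((rg z x1 x2).filter (fun n : ℕ => (n : ZMod G) = x)).card : ℝ)) * G.totient :=
          mul_le_mul_of_nonneg_right h1 hφ.le
      _ ≤ (2 ^ R * (((Icc 1 x2).filter fun n : ℕ => Sf z (n : ℤ) ∧ n ≡ x.val [MOD G]).card : ℝ)) * G.totient := by
          gcongr
      _ = 2 ^ R * ((((Icc 1 x2).filter fun n : ℕ => Sf z (n : ℤ) ∧ n ≡ x.val [MOD G]).card : ℝ) * G.totient) := by ring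
      _ ≤ 2 ^ R * (2 * x2 * vz z) := by gcongr
      _ = C * (τ * (x2 * vz z)) := by
          rw [hC, pow_succ]
          field_simp
      _ ≤ C * T := mul_le_mul_of_nonneg_left hTlow (by linarith)
  -- one large coefficient
  have hε0 : 0 ≤ 16 / 3 * √d := by positivity
  have hsq : √(C * (16 / 3 * √d)) ≤ d4 / 4 := by
    rw [Real.sqrt_le_left (by linarith)]
    have h1 : C * (16 / 3 * √d) ≤ C * (16 / 3 * (d4 ^ 2 / (100 * C))) := by gcongr
    have h2 : C * (16 / 3 * (d4 ^ 2 / (100 * C))) = 16 / 300 * d4 ^ 2 := by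
      have : C ≠ 0 := by positivity
      field_simp
      norm_num
    have h3 := sq_nonneg d4
    have h4 : (d4 / 4) ^ 2 = d4 ^ 2 / 16 := by ring
    linarith
  have hδ4 : δ ≤ d4 / 4 := by
    rw [hδ, div_le_iff₀ hτ0]
    calc (2 : ℝ) ^ (R + 2) * d ≤ 2 ^ (R + 2) * (d4 * τ / 2 ^ (R + 4)) := by gcongr
      _ = d4 / 4 * τ := by
          rw [show R + 4 = (R + 2) + 2 by ring, pow_add (2 : ℝ) (R + 2) 2]
          field_simp
          norm_num
  have hκ : (1 - d4) * (1 + d4 / 4) < 1 - δ - √(C * (16 / 3 * √d)) := by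
    have h1 : (1 - d4) * (1 + d4 / 4) = 1 - 3 / 4 * d4 - d4 ^ 2 / 4 := by ring
    rw [h1]
    have h2 := sq_nonneg d4
    linarith
  obtain ⟨χ, hχ, hbig⟩ := one F hF0 J (16 / 3 * √d) hε0 hJmass (range K) (bM1 z3 a) (bM2 z a x1 x2) lam lam
    (fun k _ m _ => by rcases lam_pm' m with h | h <;> rw [h] <;> norm_num)
    (fun k _ m _ => by rcases lam_pm' m with h | h <;> rw [h] <;> norm_num) δ T hT hT0 hbil C (by linarith)
    hmult (d4 / 4) (by linarith) (fun k hk => (hM1 k (mem_range.mp hk)).2) (fun k hk => (hM2 k (mem_range.mp hk)).2)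
    (1 - d4) hκ (by linarith)
  obtain ⟨h1, h2⟩ := real_one F hF0 hF1 χ d4 hd4' hbig
  exact ⟨χ, h1, h2⟩

end Pool.Agent.Lib.EX
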