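import Pool.Agent.Lib.MP_61161c_nt.EX.Bes

/-!
# EX, block D, module One: one character

`one`: the bilinear form `∑_{M1 × M2} F(m1 m2) f(m1) f(m2)` is almost extremal, the Fourier mass of `F` lives on `J`, Bessel holds
for `J` on `M1`, `M2`: then one coefficient has absolute value close to `1`. `real_one`: then the character is real and `F` is
`± χ` on most units.
-/

set_option autoImplicit false

open Finset

namespace Pool.Agent.Lib.EX

open Pool.Agent.Lib.RG (bch chNorm chInv chPars chParsF phi_pos phi_ne chOrth chStar chNormsq chExpand)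

open Classical in
/-- the part of `F` outside `J` in a box -/
private theorem one_box {N : ℕ} [NeZero N] (F : ZMod N → ℝ) (h0 : ∀ x, ¬ IsUnit x → F x = 0)
    (J : Finset (DirichletCharacter ℂ N)) (M1 M2 : Finset ℕ) (f g : ℕ → ℝ) :
    ((∑ m ∈ M1, ∑ n ∈ M2, F ((m * n : ℕ) : ZMod N) * (f m * g n) : ℝ) : ℂ) =
      ∑ χ ∈ J, bch (fun x => (F x : ℂ)) χ *
        ((∑ m ∈ M1, (f m : ℂ) * χ (m : ZMod N)) * (∑ n ∈ M2, (g n : ℂ) * χ (n : ZMod N))) +
      ∑ m ∈ M1, ∑ n ∈ M2, (∑ χ ∈ univ.filter (fun χ : DirichletCharacter ℂ N => χ ∉ J),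
        bch (fun x => (F x : ℂ)) χ * χ ((m * n : ℕ) : ZMod N)) * ((f m : ℂ) * (g n : ℂ)) := by
  set b : DirichletCharacter ℂ N → ℂ := fun χ => bch (fun x => (F x : ℂ)) χ with hb
  have hsplit : ∀ x : ZMod N, (F x : ℂ) = ∑ χ ∈ J, b χ * χ x +
      ∑ χ ∈ univ.filter (fun χ : DirichletCharacter ℂ N => χ ∉ J), b χ * χ x := by
    intro x
    rw [chInv (fun x => (F x : ℂ)) (fun x hx => by rw [h0 x hx]; simp) x]
    rw [← sum_filter_add_sum_filter_not univ (fun χ : DirichletCharacter ℂ N => χ ∈ J)]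
    congr 1
    refine sum_congr ?_ fun _ _ => rfl
    ext χ
    simp
  have h2 : ∀ χ : DirichletCharacter ℂ N, b χ * ((∑ m ∈ M1, (f m : ℂ) * χ (m : ZMod N)) *
      (∑ n ∈ M2, (g n : ℂ) * χ (n : ZMod N))) =
      ∑ m ∈ M1, ∑ n ∈ M2, (b χ * χ ((m * n : ℕ) : ZMod N)) * ((f m : ℂ) * (g n : ℂ)) := by
    intro χ
    rw [sum_mul_sum, mul_sum]
    refine sum_congr rfl fun m _ => ?_
    rw [mul_sum]
    refine sum_congr rfl fun n _ => ?_
    push_cast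
    rw [map_mul]
    ring
  have h3 : ∑ χ ∈ J, b χ * ((∑ m ∈ M1, (f m : ℂ) * χ (m : ZMod N)) * (∑ n ∈ M2, (g n : ℂ) * χ (n : ZMod N))) =
      ∑ m ∈ M1, ∑ n ∈ M2, ∑ χ ∈ J, (b χ * χ ((m * n : ℕ) : ZMod N)) * ((f m : ℂ) * (g n : ℂ)) := by
    rw [sum_congr rfl fun χ _ => h2 χ, sum_comm]
    refine sum_congr rfl fun m _ => ?_
    rw [sum_comm]
  rw [h3, ← sum_add_distrib, Complex.ofReal_sum]
  refine sum_congr rfl fun m _ => ?_
  rw [← sum_add_distrib, Complex.ofReal_sum]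
  refine sum_congr rfl fun n _ => ?_
  rw [Complex.ofReal_mul, Complex.ofReal_mul, hsplit ((m * n : ℕ) : ZMod N), add_mul, sum_mul]

open Classical in
theorem one {N : ℕ} [NeZero N] (F : ZMod N → ℝ) (h0 : ∀ x, ¬ IsUnit x → F x = 0)
    (J : Finset (DirichletCharacter ℂ N)) (ε : ℝ) (hε : 0 ≤ ε)
    (hJ : ∑ χ ∈ univ.filter (fun χ : DirichletCharacter ℂ N => χ ∉ J), ‖bch (fun x => (F x : ℂ)) χ‖ ^ 2 ≤ ε)
    {ι : Type} (K : Finset ι) (M1 M2 : ι → Finset ℕ) (f g : ℕ → ℝ)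
    (hf : ∀ k ∈ K, ∀ m ∈ M1 k, |f m| ≤ 1) (hg : ∀ k ∈ K, ∀ m ∈ M2 k, |g m| ≤ 1) (δ T : ℝ)
    (hT : T = ∑ k ∈ K, ((M1 k).card : ℝ) * (M2 k).card) (hT0 : 0 < T)
    (hbil : (1 - δ) * T ≤ ∑ k ∈ K, ∑ m ∈ M1 k, ∑ n ∈ M2 k, F ((m * n : ℕ) : ZMod N) * (f m * g n))
    (C : ℝ) (hC0 : 0 ≤ C) (hC : ∀ x : ZMod N, IsUnit x →
      (∑ k ∈ K, ((((M1 k) ×ˢ (M2 k)).filter (fun p => ((p.1 * p.2 : ℕ) : ZMod N) = x)).card : ℝ)) * N.totient ≤ C * T)
    (e : ℝ) (he : 0 ≤ e)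
    (hB1 : ∀ k ∈ K, ∑ χ ∈ J, ‖∑ m ∈ M1 k, (f m : ℂ) * χ (m : ZMod N)‖ ^ 2 ≤ (1 + e) * ((M1 k).card : ℝ) ^ 2)
    (hB2 : ∀ k ∈ K, ∑ χ ∈ J, ‖∑ m ∈ M2 k, (g m : ℂ) * χ (m : ZMod N)‖ ^ 2 ≤ (1 + e) * ((M2 k).card : ℝ) ^ 2)
    (κ : ℝ) (hκ : κ * (1 + e) < 1 - δ - √(C * ε)) (hκ0 : 0 ≤ κ) :
    ∃ χ ∈ J, κ ≤ ‖bch (fun x => (F x : ℂ)) χ‖ := by
  by_contra hcon
  push Not at hcon
  have hp := phi_pos (N := N)
  set b : DirichletCharacter ℂ N → ℂ := fun χ => bch (fun x => (F x : ℂ)) χ with hb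
  have he1 : 0 < 1 + e := by linarith
  have hCe : 0 ≤ C * ε := mul_nonneg hC0 hε
  set A1 : ι → DirichletCharacter ℂ N → ℂ := fun k χ => ∑ m ∈ M1 k, (f m : ℂ) * χ (m : ZMod N) with hA1
  set A2 : ι → DirichletCharacter ℂ N → ℂ := fun k χ => ∑ m ∈ M2 k, (g m : ℂ) * χ (m : ZMod N) with hA2
  set Jc := univ.filter (fun χ : DirichletCharacter ℂ N => χ ∉ J) with hJc
  set H : ZMod N → ℂ := fun x => ∑ χ ∈ Jc, b χ * χ x with hH
  have hHp : ∑ x : ZMod N, ‖H x‖ ^ 2 ≤ N.totient * ε := by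
    rw [hH]
    simp only
    rw [chPars Jc b]
    exact mul_le_mul_of_nonneg_left hJ hp.le
  have hmain : ∀ k ∈ K, ((∑ m ∈ M1 k, ∑ n ∈ M2 k, F ((m * n : ℕ) : ZMod N) * (f m * g n) : ℝ) : ℂ) =
      ∑ χ ∈ J, b χ * (A1 k χ * A2 k χ) +
        ∑ m ∈ M1 k, ∑ n ∈ M2 k, H ((m * n : ℕ) : ZMod N) * ((f m : ℂ) * (g n : ℂ)) := by
    intro k _
    exact one_box F h0 J (M1 k) (M2 k) f g
  -- first part
  have hfirst : ∀ k ∈ K, ‖∑ χ ∈ J, b χ * (A1 k χ * A2 k χ)‖ ≤ κ * ((1 + e) * ((M1 k).card * (M2 k).card)) := by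
    intro k hk
    have hem : 0 ≤ (1 + e) * (((M1 k).card : ℝ) * (M2 k).card) :=
      mul_nonneg he1.le (mul_nonneg (Nat.cast_nonneg _) (Nat.cast_nonneg _))
    have hem2 : 0 ≤ (1 + e) * ((M1 k).card : ℝ) ^ 2 := mul_nonneg he1.le (sq_nonneg _)
    have h2 : ‖∑ χ ∈ J, b χ * (A1 k χ * A2 k χ)‖ ≤ ∑ χ ∈ J, κ * (‖A1 k χ‖ * ‖A2 k χ‖) := by
      refine (norm_sum_le _ _).trans (sum_le_sum fun χ hχ => ?_)
      rw [norm_mul, norm_mul]
      exact mul_le_mul_of_nonneg_right (hcon χ hχ).le (mul_nonneg (norm_nonneg _) (norm_nonneg _))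
    have h3 : (∑ χ ∈ J, ‖A1 k χ‖ * ‖A2 k χ‖) ^ 2 ≤ ((1 + e) * ((M1 k).card * (M2 k).card)) ^ 2 := by
      calc (∑ χ ∈ J, ‖A1 k χ‖ * ‖A2 k χ‖) ^ 2 ≤ (∑ χ ∈ J, ‖A1 k χ‖ ^ 2) * ∑ χ ∈ J, ‖A2 k χ‖ ^ 2 :=
            sum_mul_sq_le_sq_mul_sq _ _ _
        _ ≤ ((1 + e) * ((M1 k).card : ℝ) ^ 2) * ((1 + e) * ((M2 k).card : ℝ) ^ 2) :=
            mul_le_mul (hB1 k hk) (hB2 k hk) (sum_nonneg fun χ _ => sq_nonneg _) hem2
        _ = _ := by ring
    have h4 : ∑ χ ∈ J, ‖A1 k χ‖ * ‖A2 k χ‖ ≤ (1 + e) * ((M1 k).card * (M2 k).card) :=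
      (pow_le_pow_iff_left₀ (sum_nonneg fun χ _ => mul_nonneg (norm_nonneg _) (norm_nonneg _)) hem two_ne_zero).mp h3
    rw [← mul_sum] at h2
    exact h2.trans (mul_le_mul_of_nonneg_left h4 hκ0)
  -- second part
  set Z : ℝ := ∑ k ∈ K, ∑ p ∈ (M1 k) ×ˢ (M2 k), ‖H ((p.1 * p.2 : ℕ) : ZMod N)‖ with hZ
  have hsecond : ∀ k ∈ K, ‖∑ m ∈ M1 k, ∑ n ∈ M2 k, H ((m * n : ℕ) : ZMod N) * ((f m : ℂ) * (g n : ℂ))‖ ≤
      ∑ p ∈ (M1 k) ×ˢ (M2 k), ‖H ((p.1 * p.2 : ℕ) : ZMod N)‖ := by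
    intro k hk
    rw [sum_product]
    refine (norm_sum_le _ _).trans (sum_le_sum fun m hm => (norm_sum_le _ _).trans (sum_le_sum fun n hn => ?_))
    rw [norm_mul, norm_mul, Complex.norm_real, Complex.norm_real, Real.norm_eq_abs, Real.norm_eq_abs]
    have h3 := hf k hk m hm
    have h4 := hg k hk n hn
    have h5 := abs_nonneg (f m)
    have h6 := abs_nonneg (g n)
    calc ‖H ((m * n : ℕ) : ZMod N)‖ * (|f m| * |g n|) ≤ ‖H ((m * n : ℕ) : ZMod N)‖ * 1 := by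
          refine mul_le_mul_of_nonneg_left ?_ (norm_nonneg _)
          nlinarith
      _ = _ := mul_one _
  have hZ2 : Z ≤ √(C * ε) * T := by
    set S := K.sigma (fun k => (M1 k) ×ˢ (M2 k)) with hS
    have hZS : Z = ∑ p ∈ S, ‖H ((p.2.1 * p.2.2 : ℕ) : ZMod N)‖ := by
      rw [hZ, hS, sum_sigma]
    have hSc : (S.card : ℝ) = T := by
      rw [hS, card_sigma, hT]
      push_cast
      refine sum_congr rfl fun k _ => ?_
      rw [card_product]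
      push_cast
      rfl
    have h3 : ∑ p ∈ S, ‖H ((p.2.1 * p.2.2 : ℕ) : ZMod N)‖ ^ 2 ≤ C * ε * T := by
      have h4 : ∑ p ∈ S, ‖H ((p.2.1 * p.2.2 : ℕ) : ZMod N)‖ ^ 2 =
          ∑ x : ZMod N, (∑ k ∈ K, ((((M1 k) ×ˢ (M2 k)).filter (fun p => ((p.1 * p.2 : ℕ) : ZMod N) = x)).card : ℝ)) *
            ‖H x‖ ^ 2 := by
        rw [hS, sum_sigma]
        simp_rw [sum_mul]
        rw [sum_comm]
        refine sum_congr rfl fun k _ => ?_
        rw [← sum_fiberwise ((M1 k) ×ˢ (M2 k)) (fun p : ℕ × ℕ => ((p.1 * p.2 : ℕ) : ZMod N))]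
        refine sum_congr rfl fun x _ => ?_
        rw [← nsmul_eq_mul, ← sum_const]
        refine sum_congr rfl fun p hp => ?_
        rw [(mem_filter.mp hp).2]
      rw [h4]
      have h5 : ∀ x : ZMod N, (∑ k ∈ K, ((((M1 k) ×ˢ (M2 k)).filter
          (fun p => ((p.1 * p.2 : ℕ) : ZMod N) = x)).card : ℝ)) * ‖H x‖ ^ 2 ≤ (C * T / N.totient) * ‖H x‖ ^ 2 := by
        intro x
        by_cases hx : IsUnit x
        · refine mul_le_mul_of_nonneg_right ?_ (sq_nonneg _)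
          rw [le_div_iff₀ hp]
          exact hC x hx
        · have h6 : H x = 0 := by
            rw [hH]
            simp only
            refine sum_eq_zero fun χ _ => ?_
            rw [MulChar.map_nonunit χ hx, mul_zero]
          rw [h6, norm_zero]
          norm_num
      refine (sum_le_sum fun x _ => h5 x).trans ?_
      rw [← mul_sum]
      calc C * T / N.totient * ∑ x : ZMod N, ‖H x‖ ^ 2 ≤ C * T / N.totient * (N.totient * ε) :=
            mul_le_mul_of_nonneg_left hHp (div_nonneg (mul_nonneg hC0 hT0.le) hp.le)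
        _ = _ := by rw [div_mul_eq_mul_div, div_eq_iff hp.ne']; ring
    have h4 : Z ^ 2 ≤ (√(C * ε) * T) ^ 2 := by
      calc Z ^ 2 ≤ (S.card : ℝ) * ∑ p ∈ S, ‖H ((p.2.1 * p.2.2 : ℕ) : ZMod N)‖ ^ 2 := by
            rw [hZS]; exact sq_sum_le_card_mul_sum_sq
        _ ≤ (S.card : ℝ) * (C * ε * T) := mul_le_mul_of_nonneg_left h3 (Nat.cast_nonneg _)
        _ = _ := by
            rw [hSc, mul_pow, Real.sq_sqrt hCe]
            ring
    have hZ0 : 0 ≤ Z := by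
      rw [hZ]
      exact sum_nonneg fun k _ => sum_nonneg fun p _ => norm_nonneg _
    exact (pow_le_pow_iff_left₀ hZ0 (mul_nonneg (Real.sqrt_nonneg _) hT0.le) two_ne_zero).mp h4
  -- conclusion
  have hlow : (1 - δ) * T ≤ κ * (1 + e) * T + √(C * ε) * T := by
    calc (1 - δ) * T ≤ ∑ k ∈ K, ∑ m ∈ M1 k, ∑ n ∈ M2 k, F ((m * n : ℕ) : ZMod N) * (f m * g n) := hbil
      _ ≤ ∑ k ∈ K, (κ * ((1 + e) * ((M1 k).card * (M2 k).card)) +
            ∑ p ∈ (M1 k) ×ˢ (M2 k), ‖H ((p.1 * p.2 : ℕ) : ZMod N)‖) := by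
          refine sum_le_sum fun k hk => ?_
          calc ∑ m ∈ M1 k, ∑ n ∈ M2 k, F ((m * n : ℕ) : ZMod N) * (f m * g n) ≤
                ‖((∑ m ∈ M1 k, ∑ n ∈ M2 k, F ((m * n : ℕ) : ZMod N) * (f m * g n) : ℝ) : ℂ)‖ := by
                rw [Complex.norm_real, Real.norm_eq_abs]
                exact le_abs_self _
            _ ≤ _ := by
                rw [hmain k hk]
                exact (norm_add_le _ _).trans (add_le_add (hfirst k hk) (hsecond k hk))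
      _ = κ * (1 + e) * T + Z := by
          rw [sum_add_distrib, ← mul_sum, ← mul_sum, ← hT, hZ]
          ring
      _ ≤ _ := by linarith
  nlinarith

/-- coefficient of the inverse character for a real function -/
theorem bch_inv_real {N : ℕ} [NeZero N] (F : ZMod N → ℝ) (χ : DirichletCharacter ℂ N) :
    bch (fun x => (F x : ℂ)) χ⁻¹ = (starRingEnd ℂ) (bch (fun x => (F x : ℂ)) χ) := by
  unfold bch
  rw [map_mul, map_sum, map_inv₀, Complex.conj_natCast]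
  congr 1
  refine sum_congr rfl fun y _ => ?_
  rw [map_mul, Complex.conj_ofReal, Complex.conj_conj, chStar, inv_inv]

open Classical in
/-- a large coefficient of a real function: the character is real, the function is `± χ` on most units -/
theorem real_one {N : ℕ} [NeZero N] (F : ZMod N → ℝ) (h0 : ∀ x, ¬ IsUnit x → F x = 0)
    (h1 : ∀ x, IsUnit x → F x = 1 ∨ F x = -1) (χ : DirichletCharacter ℂ N) (δ : ℝ) (hδ : δ ≤ 1 / 4)
    (hb : 1 - δ ≤ ‖bch (fun x => (F x : ℂ)) χ‖) :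
    χ ^ 2 = 1 ∧ ∃ s : ℝ, (s = 1 ∨ s = -1) ∧
      ((univ.filter (fun x : ZMod N => IsUnit x ∧ ((F x : ℝ) : ℂ) ≠ (s : ℂ) * χ x)).card : ℝ) ≤ δ * N.totient := by
  have hp := phi_pos (N := N)
  have hle : ∀ x, |F x| ≤ 1 := by
    intro x
    by_cases hx : IsUnit x
    · rcases h1 x hx with h | h <;> rw [h] <;> norm_num
    · rw [h0 x hx]; norm_num
  have hmass := mass_le_one F h0 hle
  have hreal : χ⁻¹ = χ := by
    by_contra hne
    have h2 : ‖bch (fun x => (F x : ℂ)) χ‖ ^ 2 + ‖bch (fun x => (F x : ℂ)) χ⁻¹‖ ^ 2 ≤ 1 := by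
      refine le_trans ?_ hmass
      have h3 := sum_pair (f := fun ψ : DirichletCharacter ℂ N => ‖bch (fun x => (F x : ℂ)) ψ‖ ^ 2)
        (fun h : χ = χ⁻¹ => hne h.symm)
      rw [← h3]
      exact sum_le_sum_of_subset_of_nonneg (subset_univ _) fun _ _ _ => sq_nonneg _
    rw [bch_inv_real, RCLike.norm_conj] at h2
    nlinarith
  have hsq : χ ^ 2 = 1 := by
    rw [pow_two]
    nth_rewrite 1 [← hreal]
    exact inv_mul_cancel χ
  refine ⟨hsq, ?_⟩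
  -- values of χ on units
  have hval : ∀ x : ZMod N, IsUnit x → χ x = 1 ∨ χ x = -1 := by
    intro x hx
    have h2 : (χ x) ^ 2 = 1 := by
      have h3 : (χ ^ 2) x = 1 := by
        rw [hsq]
        exact MulChar.one_apply hx
      rwa [MulChar.pow_apply' χ two_ne_zero] at h3
    exact sq_eq_one_iff.mp h2
  set Tp := univ.filter (fun x : ZMod N => IsUnit x ∧ ((F x : ℝ) : ℂ) = χ x) with hTp
  set Tm := univ.filter (fun x : ZMod N => IsUnit x ∧ ¬ ((F x : ℝ) : ℂ) = χ x) with hTm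
  have hcard : (Tp.card : ℝ) + Tm.card = N.totient := by
    rw [← card_isUnit (N := N), ← Nat.cast_add]
    congr 1
    rw [hTp, hTm, ← filter_filter, ← filter_filter, card_filter_add_card_filter_not]
  have hS : ∑ y : ZMod N, ((F y : ℝ) : ℂ) * (starRingEnd ℂ) (χ y) = (((Tp.card : ℝ) - Tm.card : ℝ) : ℂ) := by
    have h2 : ∀ y : ZMod N, ((F y : ℝ) : ℂ) * (starRingEnd ℂ) (χ y) =
        (if IsUnit y ∧ ((F y : ℝ) : ℂ) = χ y then 1 else 0) -
          (if IsUnit y ∧ ¬ ((F y : ℝ) : ℂ) = χ y then 1 else 0) := by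
      intro y
      by_cases hy : IsUnit y
      · rcases h1 y hy with h3 | h3 <;> rcases hval y hy with h4 | h4 <;>
          (rw [h3, h4]; norm_num [hy])
      · rw [h0 y hy]
        simp [hy]
    simp_rw [h2]
    rw [sum_sub_distrib, ← sum_filter, ← sum_filter, sum_const, sum_const, nsmul_eq_mul, nsmul_eq_mul, mul_one,
      mul_one]
    push_cast
    rfl
  have habs : (1 - δ) * N.totient ≤ |(Tp.card : ℝ) - Tm.card| := by
    unfold bch at hb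
    rw [hS, norm_mul, norm_inv, Complex.norm_natCast, Complex.norm_real, Real.norm_eq_abs,
      inv_mul_eq_div, le_div_iff₀ hp] at hb
    exact hb
  have hd0 : 0 ≤ δ * N.totient := by
    have h2 : |(Tp.card : ℝ) - Tm.card| ≤ N.totient := by
      rw [← hcard, abs_le]
      constructor <;> linarith [Nat.cast_nonneg (α := ℝ) Tp.card, Nat.cast_nonneg (α := ℝ) Tm.card]
    linarith
  rcases le_total 0 ((Tp.card : ℝ) - Tm.card) with h2 | h2
  · refine ⟨1, Or.inl rfl, ?_⟩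
    rw [abs_of_nonneg h2] at habs
    have h3 : univ.filter (fun x : ZMod N => IsUnit x ∧ ((F x : ℝ) : ℂ) ≠ ((1 : ℝ) : ℂ) * χ x) = Tm := by
      rw [hTm]
      refine filter_congr fun x _ => ?_
      rw [Complex.ofReal_one, one_mul]
    rw [h3]
    linarith
  · refine ⟨-1, Or.inr rfl, ?_⟩
    rw [abs_of_nonpos h2] at habs
    have h3 : univ.filter (fun x : ZMod N => IsUnit x ∧ ((F x : ℝ) : ℂ) ≠ ((-1 : ℝ) : ℂ) * χ x) ⊆ Tp := by
      rw [hTp]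
      intro x hx
      rw [mem_filter] at hx ⊢
      refine ⟨hx.1, hx.2.1, ?_⟩
      have h6 := hx.2.2
      rcases h1 x hx.2.1 with h4 | h4 <;> rcases hval x hx.2.1 with h5 | h5 <;>
        rw [h4, h5] at h6 ⊢ <;> norm_num at h6 <;> norm_num
    have h4 : ((univ.filter (fun x : ZMod N => IsUnit x ∧ ((F x : ℝ) : ℂ) ≠ ((-1 : ℝ) : ℂ) * χ x)).card : ℝ) ≤
        Tp.card := by exact_mod_cast card_le_card h3
    linarith

end Pool.Agent.Lib.EX
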