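import Pool.Agent.Lib.MP_61161c_nt.EX.Box
import Pool.Agent.Lib.MP_61161c_nt.EX.Jcard
import Pool.Agent.Lib.MP_61161c_nt.EX.One
import Pool.Agent.Lib.MP_61161c_nt.EX.Db
import Pool.Agent.Lib.MP_45349e_nt.LS.LamB

/-!
# EX, block D, module O1a: the bilinear form over the boxes
-/

set_option autoImplicit false

open Finset
open Pool.Agent.Lib.MP_45349e_nt.LS (lam lam_mul)

namespace Pool.Agent.Lib.EX

theorem lam_pm' (n : ℕ) : lam n = 1 ∨ lam n = -1 := by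
  unfold lam
  exact neg_one_pow_eq_or ℝ _

/-- first components -/
noncomputable def bM1 (z3 a k : ℕ) : Finset ℕ := rg z3 (2 ^ k * a) (2 ^ (k + 1) * a)

/-- second components -/
noncomputable def bM2 (z a x1 x2 k : ℕ) : Finset ℕ := rg z (x1 / (2 ^ k * a)) (x2 / (2 ^ (k + 1) * a))

theorem mem_rg' {z A B m : ℕ} : m ∈ rg z A B ↔ (A < m ∧ m ≤ B) ∧ ∀ p ≤ z, p.Prime → ¬ p ∣ m := by
  unfold rg
  rw [mem_filter, mem_Ioc]

theorem rg_mul {z m n : ℕ} (hm : ∀ p ≤ z, p.Prime → ¬ p ∣ m) (hn : ∀ p ≤ z, p.Prime → ¬ p ∣ n) :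
    ∀ p ≤ z, p.Prime → ¬ p ∣ m * n := fun p hp hpp hd =>
  (hpp.dvd_mul.mp hd).elim (hm p hp hpp) (hn p hp hpp)

/-- products of the boxes lie in `rg z x1 x2` -/
theorem box_mem {z z3 a x1 x2 k m n : ℕ} (ha : 1 ≤ a) (hz : z ≤ z3) (hm : m ∈ bM1 z3 a k) (hn : n ∈ bM2 z a x1 x2 k) :
    m * n ∈ rg z x1 x2 ∧ 1 ≤ m ∧ 1 ≤ n := by
  unfold bM1 at hm
  unfold bM2 at hn
  rw [mem_rg'] at hm hn
  obtain ⟨⟨hm1, hm2⟩, hm3⟩ := hm
  obtain ⟨⟨hn1, hn2⟩, hn3⟩ := hn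
  have hA : 0 < 2 ^ k * a := by positivity
  refine ⟨?_, lt_of_le_of_lt (Nat.zero_le _) hm1, lt_of_le_of_lt (Nat.zero_le _) hn1⟩
  rw [mem_rg']
  refine ⟨⟨?_, ?_⟩, rg_mul (fun p hp => hm3 p (hp.trans hz)) hn3⟩
  · calc x1 < 2 ^ k * a * (x1 / (2 ^ k * a) + 1) := by
          have := Nat.lt_mul_div_succ x1 hA
          exact this
      _ ≤ m * n := Nat.mul_le_mul hm1.le hn1
  · calc m * n ≤ 2 ^ (k + 1) * a * (x2 / (2 ^ (k + 1) * a)) := Nat.mul_le_mul hm2 hn2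
      _ ≤ x2 := Nat.mul_div_le _ _

open Classical in
/-- the bilinear form is almost extremal -/
theorem bil {G : ℕ} [NeZero G] (F : ZMod G → ℝ) (h0 : ∀ x, ¬ IsUnit x → F x = 0) (h1 : ∀ x, IsUnit x → F x = 1 ∨ F x = -1)
    (z z3 R a k1 x1 x2 : ℕ) (ha : 1 ≤ a) (hz : z ≤ z3) (hx2 : x2 < (z3 + 1) ^ (R + 1)) :
    ∑ k ∈ range k1, ((bM1 z3 a k).card : ℝ) * (bM2 z a x1 x2 k).card -
      2 * (2 ^ R * (((rg z x1 x2).filter (fun n : ℕ => ¬ (n.Coprime G ∧ lam n = F n))).card : ℝ)) ≤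
    ∑ k ∈ range k1, ∑ m ∈ bM1 z3 a k, ∑ n ∈ bM2 z a x1 x2 k, F ((m * n : ℕ) : ZMod G) * (lam m * lam n) := by
  set B := (rg z x1 x2).filter (fun n : ℕ => ¬ (n.Coprime G ∧ lam n = F n)) with hB
  have hfib := fib z3 R a k1 (fun k => bM2 z a x1 x2 k) B (by
    intro n hn
    rw [hB, mem_filter, mem_rg'] at hn
    exact ⟨by omega, lt_of_le_of_lt hn.1.1.2 hx2⟩)
  have hterm : ∀ k ∈ range k1, ((bM1 z3 a k).card : ℝ) * (bM2 z a x1 x2 k).card -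
      2 * ((((bM1 z3 a k) ×ˢ (bM2 z a x1 x2 k)).filter (fun p => p.1 * p.2 ∈ B)).card : ℝ) ≤
      ∑ m ∈ bM1 z3 a k, ∑ n ∈ bM2 z a x1 x2 k, F ((m * n : ℕ) : ZMod G) * (lam m * lam n) := by
    intro k _
    rw [← sum_product' (bM1 z3 a k) (bM2 z a x1 x2 k) (fun m n => F ((m * n : ℕ) : ZMod G) * (lam m * lam n))]
    have h2 : ((bM1 z3 a k).card : ℝ) * (bM2 z a x1 x2 k).card -
        2 * ((((bM1 z3 a k) ×ˢ (bM2 z a x1 x2 k)).filter (fun p => p.1 * p.2 ∈ B)).card : ℝ) =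
        ∑ p ∈ (bM1 z3 a k) ×ˢ (bM2 z a x1 x2 k), (1 - 2 * (if p.1 * p.2 ∈ B then (1 : ℝ) else 0)) := by
      rw [sum_sub_distrib, ← mul_sum, ← sum_filter, sum_const, sum_const, card_product]
      simp
    rw [h2]
    refine sum_le_sum fun p hp => ?_
    rw [mem_product] at hp
    obtain ⟨hmem, hm1, hn1⟩ := box_mem ha hz hp.1 hp.2
    split_ifs with h
    · have hle : |F ((p.1 * p.2 : ℕ) : ZMod G) * (lam p.1 * lam p.2)| ≤ 1 := by
        rw [abs_mul, abs_mul]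
        have e1 : |F ((p.1 * p.2 : ℕ) : ZMod G)| ≤ 1 := by
          by_cases hx : IsUnit (((p.1 * p.2 : ℕ) : ZMod G))
          · rcases h1 _ hx with h | h <;> rw [h] <;> norm_num
          · rw [h0 _ hx]; norm_num
        have e2 : |lam p.1| = 1 := by rcases lam_pm' p.1 with h | h <;> rw [h] <;> norm_num
        have e3 : |lam p.2| = 1 := by rcases lam_pm' p.2 with h | h <;> rw [h] <;> norm_num
        rw [e2, e3]
        linarith
      have := (abs_le.mp hle).1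
      linarith
    · rw [hB, mem_filter, not_and, not_not] at h
      obtain ⟨_, h3⟩ := h hmem
      rw [← h3, lam_mul p.1 p.2 (by omega) (by omega)]
      rcases lam_pm' p.1 with h | h <;> rcases lam_pm' p.2 with h' | h' <;> rw [h, h'] <;> norm_num
  have hsum := sum_le_sum hterm
  rw [sum_sub_distrib, ← mul_sum] at hsum
  have h3 : ∑ k ∈ range k1, ((((bM1 z3 a k) ×ˢ (bM2 z a x1 x2 k)).filter (fun p => p.1 * p.2 ∈ B)).card : ℝ) ≤
      2 ^ R * (B.card : ℝ) := by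
    exact_mod_cast hfib
  linarith

open Classical in
/-- multiplicity of the classes -/
theorem cmul {G : ℕ} (z z3 R a k1 x1 x2 : ℕ) (ha : 1 ≤ a) (hz : z ≤ z3)
    (hx2 : x2 < (z3 + 1) ^ (R + 1)) (x : ZMod G) :
    ∑ k ∈ range k1, ((((bM1 z3 a k) ×ˢ (bM2 z a x1 x2 k)).filter (fun p => ((p.1 * p.2 : ℕ) : ZMod G) = x)).card : ℝ) ≤
      2 ^ R * (((rg z x1 x2).filter (fun n : ℕ => (n : ZMod G) = x)).card : ℝ) := by
  set B := (rg z x1 x2).filter (fun n : ℕ => (n : ZMod G) = x) with hB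
  have hfib := fib z3 R a k1 (fun k => bM2 z a x1 x2 k) B (by
    intro n hn
    rw [hB, mem_filter, mem_rg'] at hn
    exact ⟨by omega, lt_of_le_of_lt hn.1.1.2 hx2⟩)
  have h2 : ∀ k ∈ range k1, (((bM1 z3 a k) ×ˢ (bM2 z a x1 x2 k)).filter (fun p => ((p.1 * p.2 : ℕ) : ZMod G) = x)).card ≤
      (((rg z3 (2 ^ k * a) (2 ^ (k + 1) * a)) ×ˢ (bM2 z a x1 x2 k)).filter (fun p => p.1 * p.2 ∈ B)).card := by
    intro k _
    refine card_le_card fun p hp => ?_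
    rw [mem_filter, mem_product] at hp
    rw [mem_filter, mem_product, hB, mem_filter]
    exact ⟨hp.1, (box_mem ha hz hp.1.1 hp.1.2).1, hp.2⟩
  have h3 := (sum_le_sum h2).trans hfib
  exact_mod_cast h3

end Pool.Agent.Lib.EX
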