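import Pool.Agent.Lib.MP_61161c_nt.EX.DDefs

/-!
# EX, block D: rough numbers in a reduced class modulo `G`, upper bound
-/

set_option autoImplicit false

open Finset

namespace Pool.Agent.Lib.EX

open Pool.Agent.Lib.TC (flm)
open Pool.Agent.Lib.GT (NJ NJ_le)

/-- numbers `≤ y` in one class modulo `r` -/
theorem count_mod (r t y : ℕ) (hr : 0 < r) :
    |∑ m ∈ Icc 1 y, (if m ≡ t [MOD r] then (1 : ℝ) else 0) - (y : ℝ) / r| ≤ 1 := by
  have h0 : ∑ m ∈ Icc 1 y, (if m ≡ t [MOD r] then (1 : ℝ) else 0) =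
      (((Ioc 0 y).filter (fun m => m ≡ t [MOD r])).card : ℝ) := by
    rw [← sum_filter, sum_const, nsmul_eq_mul, mul_one]
    rfl
  have h1 := Nat.Ioc_filter_modEq_card 0 y hr t
  rw [h0]
  have h2 : (((Ioc 0 y).filter (fun m => m ≡ t [MOD r])).card : ℝ) =
      ((((Ioc 0 y).filter (fun m => m ≡ t [MOD r])).card : ℤ) : ℝ) := by push_cast; rfl
  rw [h2, h1]
  have hrr : (0 : ℝ) < r := by exact_mod_cast hr
  have hmono : ⌊(((0 : ℕ) : ℚ) - t) / r⌋ ≤ ⌊((y : ℚ) - t) / r⌋ := by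
    apply Int.floor_le_floor
    have : (0 : ℚ) < r := by exact_mod_cast hr
    have hy : (0 : ℚ) ≤ y := by positivity
    push_cast
    gcongr
  rw [max_eq_left (by linarith)]
  have f1 := Int.floor_le (((y : ℚ) - t) / r)
  have f2 := Int.lt_floor_add_one (((y : ℚ) - t) / r)
  have f3 := Int.floor_le ((((0 : ℕ) : ℚ) - t) / r)
  have f4 := Int.lt_floor_add_one ((((0 : ℕ) : ℚ) - t) / r)
  set A : ℤ := ⌊((y : ℚ) - t) / r⌋
  set B : ℤ := ⌊(((0 : ℕ) : ℚ) - t) / r⌋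
  have e1 : ((y : ℚ) - t) / r - (((0 : ℕ) : ℚ) - t) / r = (y : ℚ) / r := by
    push_cast
    ring
  have g1 : ((A - B : ℤ) : ℚ) ≤ (y : ℚ) / r + 1 := by push_cast; linarith
  have g2 : (y : ℚ) / r - 1 ≤ ((A - B : ℤ) : ℚ) := by push_cast; linarith
  have g1' : ((A - B : ℤ) : ℝ) ≤ (y : ℝ) / r + 1 := by
    have h := (Rat.cast_le (K := ℝ)).mpr g1
    push_cast at h ⊢
    exact h
  have g2' : (y : ℝ) / r - 1 ≤ ((A - B : ℤ) : ℝ) := by
    have h := (Rat.cast_le (K := ℝ)).mpr g2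
    push_cast at h ⊢
    exact h
  rw [abs_le]
  constructor <;> linarith

/-- numbers `≤ y` in a class modulo `G` divisible by `D`, `(D, G) = 1` -/
theorem count_mod_dvd (G D x y : ℕ) (hG : 0 < G) (hD : 0 < D) (hGD : D.Coprime G) :
    |∑ m ∈ Icc 1 y, (if m ≡ x [MOD G] ∧ D ∣ m then (1 : ℝ) else 0) - (y : ℝ) / (G * D)| ≤ 1 := by
  have hco : G.Coprime D := hGD.symm
  set t := (Nat.chineseRemainder hco x 0 : ℕ) with ht
  have h1 : t ≡ x [MOD G] := (Nat.chineseRemainder hco x 0).2.1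
  have h2 : t ≡ 0 [MOD D] := (Nat.chineseRemainder hco x 0).2.2
  have h3 : ∀ m, (m ≡ x [MOD G] ∧ D ∣ m) ↔ m ≡ t [MOD G * D] := by
    intro m
    rw [← Nat.modEq_and_modEq_iff_modEq_mul hco]
    constructor
    · rintro ⟨h4, h5⟩
      exact ⟨h4.trans h1.symm, ((Nat.modEq_zero_iff_dvd).mpr h5).trans h2.symm⟩
    · rintro ⟨h4, h5⟩
      exact ⟨h4.trans h1, (Nat.modEq_zero_iff_dvd).mp (h5.trans h2)⟩
  have h4 := count_mod (G * D) t y (Nat.mul_pos hG hD)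
  push_cast at h4
  simp_rw [h3]
  exact h4

/-- product over the primes `≤ z` not dividing `G` -/
theorem VG_le (z G : ℕ) (hG : 1 ≤ G) :
    (G.totient : ℝ) * ∏ p ∈ (pz z).filter (fun p => ¬ p ∣ G), (1 - 1 / (p : ℝ)) ≤ G * vz z := by
  have hGr : (0 : ℝ) < G := by exact_mod_cast hG
  have hpos : ∀ p : ℕ, p.Prime → 0 < 1 - 1 / (p : ℝ) ∧ 1 - 1 / (p : ℝ) ≤ 1 := by
    intro p hp
    have : (2 : ℝ) ≤ p := by exact_mod_cast hp.two_le
    constructor
    · rw [sub_pos, div_lt_one (by linarith)]; linarith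
    · have : 0 ≤ 1 / (p : ℝ) := by positivity
      linarith
  have h1 : (G.totient : ℝ) = G * ∏ p ∈ G.primeFactors, (1 - 1 / (p : ℝ)) := by
    have h := Nat.totient_eq_mul_prod_factors G
    have h' : ((G.totient : ℚ) : ℝ) = ((G * ∏ p ∈ G.primeFactors, (1 - (p : ℚ)⁻¹) : ℚ) : ℝ) := by rw [h]
    push_cast at h'
    rw [h']
    simp [one_div]
  have h2 : vz z = (∏ p ∈ (pz z).filter (fun p => p ∣ G), (1 - 1 / (p : ℝ))) *
      ∏ p ∈ (pz z).filter (fun p => ¬ p ∣ G), (1 - 1 / (p : ℝ)) := by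
    unfold vz
    rw [prod_filter_mul_prod_filter_not]
  have h3 : ∏ p ∈ G.primeFactors, (1 - 1 / (p : ℝ)) ≤ ∏ p ∈ (pz z).filter (fun p => p ∣ G), (1 - 1 / (p : ℝ)) := by
    have hsub : (pz z).filter (fun p => p ∣ G) ⊆ G.primeFactors := by
      intro p hp
      rw [mem_filter, mem_pz] at hp
      exact Nat.mem_primeFactors.mpr ⟨hp.1.1, hp.2, by omega⟩
    rw [← prod_sdiff hsub]
    refine mul_le_of_le_one_left ?_ ?_
    · exact prod_nonneg fun p hp => (hpos p (mem_pz.mp (mem_filter.mp hp).1).1).1.le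
    · refine prod_le_one (fun p hp => ?_) (fun p hp => ?_)
      · exact (hpos p (Nat.prime_of_mem_primeFactors (mem_sdiff.mp hp).1)).1.le
      · exact (hpos p (Nat.prime_of_mem_primeFactors (mem_sdiff.mp hp).1)).2
  have h4 : 0 ≤ ∏ p ∈ (pz z).filter (fun p => ¬ p ∣ G), (1 - 1 / (p : ℝ)) :=
    prod_nonneg fun p hp => (hpos p (mem_pz.mp (mem_filter.mp hp).1).1).1.le
  rw [h1, h2]
  calc (G : ℝ) * (∏ p ∈ G.primeFactors, (1 - 1 / (p : ℝ))) * ∏ p ∈ (pz z).filter (fun p => ¬ p ∣ G), (1 - 1 / (p : ℝ))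
      ≤ (G : ℝ) * (∏ p ∈ (pz z).filter (fun p => p ∣ G), (1 - 1 / (p : ℝ))) *
        ∏ p ∈ (pz z).filter (fun p => ¬ p ∣ G), (1 - 1 / (p : ℝ)) := by gcongr
    _ = _ := by ring

open Classical in
/-- **Rap** rough numbers in a reduced class modulo `G`, upper bound -/
theorem rap (c : ℝ) (hc : 0 < c) : ∃ cs : ℝ, 0 < cs ∧ ∀ c0 : ℝ, 0 < c0 → c0 ≤ cs → ∃ X0 : ℕ,
    ∀ X z : ℕ, X0 ≤ X → 2 ≤ z → (z : ℝ) ≤ (X : ℝ) ^ c0 → ∀ G x y : ℕ, 1 ≤ G → x.Coprime G → (G : ℝ) * (X : ℝ) ^ c ≤ y → y ≤ X →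
    (((Icc 1 y).filter fun n : ℕ => Sf z (n : ℤ) ∧ n ≡ x [MOD G]).card : ℝ) * G.totient ≤ 2 * y * VV z := by
  obtain ⟨K, hK, hflm⟩ := flm 1 (by norm_num)
  obtain ⟨b, hb, hKb⟩ := half_pow_small K (1 / 2) (by norm_num)
  refine ⟨c / ((12 * b + 2 : ℕ) : ℝ), by positivity, fun c0 hc0 hcs => ?_⟩
  refine ⟨1, fun X z hX hz2 hz G x y hG hx hy hyX => ?_⟩
  have hz4 := zlev c (12 * b + 2) (by omega) c0 hcs X z hX hz
  have hX1r : (1 : ℝ) ≤ X := by exact_mod_cast hX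
  set P : Finset ℕ := (pz z).filter (fun p => ¬ p ∣ G) with hP
  have hPpz : P ⊆ pz z := filter_subset _ _
  obtain ⟨up, lo, hbd, hsup, hpt, hdens⟩ := hflm b hb z hz2 P (fun r hr => mem_pz.mp (hPpz hr))
  set D : Finset (Finset ℕ) := P.powerset.filter (fun d => up d ≠ 0 ∨ lo d ≠ 0) with hD
  have hDP : ∀ d ∈ D, d ⊆ P := fun d hd => mem_powerset.mp (mem_filter.mp hd).1
  have hDsub : ∀ d ∈ D, d ⊆ pz z := fun d hd => (hDP d hd).trans hPpz
  have hDT : ∀ d ∈ D, ∏ r ∈ d, r ≤ z ^ (12 * b) := by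
    intro d hd
    have h1 := hsup d (hDP d hd) (mem_filter.mp hd).2
    exact_mod_cast h1
  have hDcard : (D.card : ℝ) ≤ (z : ℝ) ^ (12 * b) := by
    have := card_small z (z ^ (12 * b)) D hDsub hDT
    exact_mod_cast this
  have hDpos : ∀ d ∈ D, 0 < ∏ r ∈ d, r := fun d hd =>
    Nat.pos_of_ne_zero (prod_ne_zero_iff.mpr fun r hr => (mem_pz.mp (hDsub d hd hr)).1.ne_zero)
  have hDco : ∀ d ∈ D, (∏ r ∈ d, r).Coprime G := by
    intro d hd
    refine Nat.Coprime.prod_left fun r hr => ?_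
    have h1 := mem_filter.mp (hDP d hd hr)
    exact (Nat.Prime.coprime_iff_not_dvd (mem_pz.mp h1.1).1).mpr h1.2
  have hres : ∀ (g : Finset ℕ → ℝ), ∑ d ∈ P.powerset, up d * g d = ∑ d ∈ D, up d * g d := by
    intro g
    rw [hD, sum_filter]
    refine sum_congr rfl fun d _ => ?_
    by_cases h : up d = 0
    · rw [h]; simp
    · rw [if_pos (Or.inl h)]
  -- pointwise majorant
  have hsum : ∀ m : ℕ, ∑ d ∈ (P.filter (· ∣ m)).powerset, up d = ∑ d ∈ D, up d * (if (∏ r ∈ d, r) ∣ m then 1 else 0) := by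
    intro m
    rw [← hres]
    have h1 : (P.filter (· ∣ m)).powerset = P.powerset.filter (fun d => (∏ r ∈ d, r) ∣ m) := by
      ext d
      rw [mem_powerset, mem_filter, mem_powerset]
      constructor
      · intro h
        have h2 := h.trans (filter_subset _ _)
        refine ⟨h2, prod_primes_dvd m (fun r hr => (mem_pz.mp (hPpz (h2 hr))).1.prime) fun r hr => (mem_filter.mp (h hr)).2⟩
      · rintro ⟨h2, h3⟩ r hr
        exact mem_filter.mpr ⟨h2 hr, (dvd_prod_of_mem _ hr).trans h3⟩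
    rw [h1, sum_filter]
    refine sum_congr rfl fun d _ => ?_
    split_ifs <;> simp
  have hpt1 : ∀ m : ℕ, 0 ≤ ∑ d ∈ D, up d * (if (∏ r ∈ d, r) ∣ m then (1 : ℝ) else 0) ∧
      (Sf z (m : ℤ) → 1 ≤ ∑ d ∈ D, up d * (if (∏ r ∈ d, r) ∣ m then (1 : ℝ) else 0)) := by
    intro m
    rw [← hsum]
    have h1 := (hpt (P.filter (· ∣ m)) (filter_subset _ _)).2
    refine ⟨le_trans (by split_ifs <;> norm_num) h1, fun hS => ?_⟩
    rwa [if_pos] at h1
    rw [filter_eq_empty_iff]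
    intro p hp
    have h2 := mem_pz.mp (hPpz hp)
    exact Sf_nat.mp hS p h2.2 h2.1
  -- densities
  have hg := (hdens (fun r => 1 / (r : ℝ)) (by
    intro r hr
    have h2 : (2 : ℝ) ≤ r := by exact_mod_cast (mem_pz.mp (hPpz hr)).1.two_le
    refine ⟨by positivity, le_refl _, ?_⟩
    rw [div_le_iff₀ (by linarith)]
    linarith)).1
  have hU1 : ∑ d ∈ P.powerset, up d * ∏ r ∈ d, (fun r : ℕ => 1 / (r : ℝ)) r =
      ∑ d ∈ D, up d * (1 / ((∏ r ∈ d, r : ℕ) : ℝ)) := by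
    rw [hres]
    refine sum_congr rfl fun d _ => ?_
    rw [← prod_one_div]
  rw [hU1] at hg
  set V' : ℝ := ∏ r ∈ P, (1 - (fun r : ℕ => 1 / (r : ℝ)) r) with hV'
  have hV'0 : 0 ≤ V' := by
    refine prod_nonneg fun r hr => ?_
    have : (2 : ℝ) ≤ r := by exact_mod_cast (mem_pz.mp (hPpz hr)).1.two_le
    rw [sub_nonneg, div_le_one (by linarith)]
    linarith
  have hGr : (0 : ℝ) < G := by exact_mod_cast hG
  have hy0 : (0 : ℝ) ≤ y := Nat.cast_nonneg _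
  have hup : ∑ d ∈ D, up d * (1 / ((∏ r ∈ d, r : ℕ) : ℝ)) ≤ 3 / 2 * V' := by
    have h1 := (abs_le.mp hg).2
    have h2 : K * (1 / 2) ^ b * V' ≤ 1 / 2 * V' := mul_le_mul_of_nonneg_right hKb hV'0
    linarith
  -- the count
  have hcount : (((Icc 1 y).filter fun n : ℕ => Sf z (n : ℤ) ∧ n ≡ x [MOD G]).card : ℝ) ≤
      y / G * (3 / 2 * V') + (z : ℝ) ^ (12 * b) := by
    calc (((Icc 1 y).filter fun n : ℕ => Sf z (n : ℤ) ∧ n ≡ x [MOD G]).card : ℝ)
        = ∑ m ∈ Icc 1 y, (if Sf z (m : ℤ) ∧ m ≡ x [MOD G] then (1 : ℝ) else 0) := by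
          rw [← sum_filter, sum_const, nsmul_eq_mul, mul_one]
      _ ≤ ∑ m ∈ Icc 1 y, (if m ≡ x [MOD G] then (1 : ℝ) else 0) *
            ∑ d ∈ D, up d * (if (∏ r ∈ d, r) ∣ m then (1 : ℝ) else 0) := by
          refine sum_le_sum fun m _ => ?_
          obtain ⟨h1, h2⟩ := hpt1 m
          by_cases hx' : m ≡ x [MOD G]
          · by_cases hS : Sf z (m : ℤ)
            · rw [if_pos ⟨hS, hx'⟩, if_pos hx', one_mul]; exact h2 hS
            · rw [if_neg (fun h => hS h.1), if_pos hx', one_mul]; exact h1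
          · rw [if_neg (fun h => hx' h.2), if_neg hx', zero_mul]
      _ = ∑ d ∈ D, up d * ∑ m ∈ Icc 1 y, (if m ≡ x [MOD G] ∧ (∏ r ∈ d, r) ∣ m then (1 : ℝ) else 0) := by
          simp_rw [mul_sum]
          rw [sum_comm]
          refine sum_congr rfl fun d _ => sum_congr rfl fun m _ => ?_
          by_cases h1 : m ≡ x [MOD G]
          · by_cases h2 : (∏ r ∈ d, r) ∣ m
            · rw [if_pos h1, if_pos h2, if_pos ⟨h1, h2⟩]; ring
            · rw [if_pos h1, if_neg h2, if_neg (fun h => h2 h.2)]; ring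
          · rw [if_neg h1, if_neg (show ¬ (m ≡ x [MOD G] ∧ (∏ r ∈ d, r) ∣ m) from fun h => h1 h.1)]; ring
      _ ≤ ∑ d ∈ D, ((y : ℝ) / G * (up d * (1 / ((∏ r ∈ d, r : ℕ) : ℝ))) + 1) := by
          refine sum_le_sum fun d hd => ?_
          have h1 := count_mod_dvd G (∏ r ∈ d, r) x y hG (hDpos d hd) (hDco d hd)
          set S := ∑ m ∈ Icc 1 y, (if m ≡ x [MOD G] ∧ (∏ r ∈ d, r) ∣ m then (1 : ℝ) else 0)
          have hDr : (0 : ℝ) < ((∏ r ∈ d, r : ℕ) : ℝ) := by exact_mod_cast hDpos d hd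
          have h2 : up d * S - (y : ℝ) / G * (up d * (1 / ((∏ r ∈ d, r : ℕ) : ℝ))) =
              up d * (S - (y : ℝ) / (G * ((∏ r ∈ d, r : ℕ) : ℝ))) := by
            field_simp
          have h3 : |up d * (S - (y : ℝ) / (G * ((∏ r ∈ d, r : ℕ) : ℝ)))| ≤ 1 := by
            rw [abs_mul]
            exact mul_le_one₀ (hbd d).1 (abs_nonneg _) h1
          have h4 := (abs_le.mp h3).2
          linarith
      _ = (y : ℝ) / G * (∑ d ∈ D, up d * (1 / ((∏ r ∈ d, r : ℕ) : ℝ))) + D.card := by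
          rw [sum_add_distrib, ← mul_sum, sum_const, nsmul_eq_mul, mul_one]
      _ ≤ _ := by gcongr
  have hVG := VG_le z G hG
  have hVV' : (G.totient : ℝ) * V' ≤ G * vz z := hVG
  have hφ : (G.totient : ℝ) ≤ G := by exact_mod_cast Nat.totient_le G
  have hφ0 : (0 : ℝ) ≤ G.totient := Nat.cast_nonneg _
  have hzr : (2 : ℝ) ≤ z := by exact_mod_cast hz2
  have hvz := vz_ge z (by omega)
  -- the error term
  have herr : (z : ℝ) ^ (12 * b) * G.totient ≤ 1 / 2 * (y * vz z) := by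
    have h1 : (z : ℝ) ^ (12 * b) * 2 ≤ (X : ℝ) ^ c * (1 / z) := by
      rw [mul_one_div, le_div_iff₀ (by linarith)]
      calc (z : ℝ) ^ (12 * b) * 2 * z ≤ (z : ℝ) ^ (12 * b) * z * z := by gcongr
        _ = (z : ℝ) ^ (12 * b + 2) := by ring
        _ ≤ _ := hz4
    calc (z : ℝ) ^ (12 * b) * G.totient ≤ (z : ℝ) ^ (12 * b) * G := by gcongr
      _ = 1 / 2 * (G * ((z : ℝ) ^ (12 * b) * 2)) := by ring
      _ ≤ 1 / 2 * (G * ((X : ℝ) ^ c * (1 / z))) := by gcongr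
      _ = 1 / 2 * ((G * (X : ℝ) ^ c) * (1 / z)) := by ring
      _ ≤ 1 / 2 * (y * vz z) := by gcongr
  rw [VV_eq]
  calc (((Icc 1 y).filter fun n : ℕ => Sf z (n : ℤ) ∧ n ≡ x [MOD G]).card : ℝ) * G.totient
      ≤ (y / G * (3 / 2 * V') + (z : ℝ) ^ (12 * b)) * G.totient := mul_le_mul_of_nonneg_right hcount hφ0
    _ = y / G * (3 / 2) * (G.totient * V') + (z : ℝ) ^ (12 * b) * G.totient := by ring
    _ ≤ y / G * (3 / 2) * (G * vz z) + 1 / 2 * (y * vz z) := by gcongr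
    _ = 2 * y * vz z := by
      field_simp
      ring

end Pool.Agent.Lib.EX
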