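import Pool.Agent.Lib.MP_61161c_nt.EX.O1a
import Pool.Agent.Lib.MP_61161c_nt.EX.Mrt
import Pool.Agent.Lib.MP_61161c_nt.EX.Rap

/-!
# EX, block D, module O1b: the pieces of the one-character theorem
-/

set_option autoImplicit false

open Finset
open Pool.Agent.Lib.MP_45349e_nt.LS (lam lam_mul)

namespace Pool.Agent.Lib.EX

open Pool.Agent.Lib.RG (bch chNorm chInv chPars chParsF phi_pos phi_ne chOrth chStar chNormsq chExpand)

open Classical in
/-- the mass of `F` outside the characters with a large twisted average -/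
theorem conc {G : ℕ} [NeZero G] (P : Finset ℕ) (hP : ∀ p ∈ P, p.Coprime G) (hc : 0 < P.card)
    (F : ZMod G → ℝ) (h0 : ∀ x, ¬ IsUnit x → F x = 0) (h1 : ∀ x, IsUnit x → F x = 1 ∨ F x = -1)
    (d : ℝ) (hd : 0 ≤ d) (hd4 : 4 * d ≤ 1)
    (h : ∀ u ∈ P, ∀ u' ∈ P, ((univ.filter (fun r : ZMod G => IsUnit r ∧ F (u * r) ≠ F (u' * r))).card : ℝ) ≤ d * G.totient) :
    ∑ χ ∈ univ.filter (fun χ : DirichletCharacter ℂ G => ‖mu P (fun _ => (-1 : ℝ)) χ‖ < 1 / 2),
      ‖bch (fun x => (F x : ℂ)) χ‖ ^ 2 ≤ 16 / 3 * √d := by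
  obtain ⟨u0, hu0⟩ := card_pos.mp hc
  have hun : ∀ (u : ℕ), u.Coprime G → ∀ x : ZMod G, IsUnit x → IsUnit ((u : ZMod G) * x) := fun u hu x hx =>
    ((ZMod.isUnit_iff_coprime u G).mpr hu).mul hx
  have hnu : ∀ (u : ℕ) (x : ZMod G), ¬ IsUnit x → ¬ IsUnit ((u : ZMod G) * x) := fun u x hx h =>
    hx (isUnit_of_mul_isUnit_right h)
  have hle : ∀ x, |F x| ≤ 1 := by
    intro x
    by_cases hx : IsUnit x
    · rcases h1 x hx with h | h <;> rw [h] <;> norm_num
    · rw [h0 x hx]; norm_num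
  have key := fcon P hP hc (fun _ => (-1 : ℝ)) (fun _ _ => by norm_num) (fun x => - F ((u0 : ZMod G) * x)) F
    (fun x hx => by simp only [h0 _ (hnu u0 x hx), neg_zero])
    (fun x hx => by rcases h1 _ (hun u0 (hP u0 hu0) x hx) with h | h <;> simp only [h] <;> norm_num)
    h0 hle (4 * d) (by linarith) hd4 (by
      intro u hu
      have h2 : ∀ x : ZMod G, (F ((u : ZMod G) * x) - (-1) * (- F ((u0 : ZMod G) * x))) ^ 2 ≤
          4 * (if IsUnit x ∧ F (u * x) ≠ F (u0 * x) then (1 : ℝ) else 0) := by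
        intro x
        by_cases hx : IsUnit x
        · rcases h1 _ (hun u (hP u hu) x hx) with h3 | h3 <;> rcases h1 _ (hun u0 (hP u0 hu0) x hx) with h4 | h4 <;>
            rw [h3, h4] <;> norm_num [hx]
        · rw [h0 _ (hnu u x hx), h0 _ (hnu u0 x hx)]
          simp
      refine (sum_le_sum fun x _ => h2 x).trans ?_
      rw [← mul_sum, ← sum_filter, sum_const, nsmul_eq_mul, mul_one]
      have h3 := h u hu u0 hu0
      linarith)
  have h4 : √(4 * d) = 2 * √d := by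
    rw [Real.sqrt_mul (by norm_num), show (4 : ℝ) = 2 ^ 2 by norm_num, Real.sqrt_sq (by norm_num)]
  rw [h4] at key
  linarith

open Classical in
/-- rough numbers not coprime to `G` -/
theorem ncop (z G x1 x2 : ℕ) (hz : 2 ≤ z) (hG : 1 ≤ G) :
    (((rg z x1 x2).filter (fun n : ℕ => ¬ n.Coprime G)).card : ℝ) ≤ Real.log G / Real.log 2 * (x2 / z) := by
  set S := G.primeFactors.filter (fun p => z < p) with hS
  have hsub : (rg z x1 x2).filter (fun n : ℕ => ¬ n.Coprime G) ⊆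
      S.biUnion (fun p => (Ioc 0 x2).filter (fun n => p ∣ n)) := by
    intro n hn
    rw [mem_filter, mem_rg'] at hn
    obtain ⟨⟨⟨hn1, hn2⟩, hn3⟩, hn4⟩ := hn
    obtain ⟨p, hp, hpn, hpG⟩ := Nat.Prime.not_coprime_iff_dvd.mp hn4
    rw [mem_biUnion]
    refine ⟨p, ?_, ?_⟩
    · rw [hS, mem_filter, Nat.mem_primeFactors]
      refine ⟨⟨hp, hpG, by omega⟩, ?_⟩
      by_contra hcon
      exact hn3 p (by omega) hp hpn
    · rw [mem_filter, mem_Ioc]
      exact ⟨⟨by omega, hn2⟩, hpn⟩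
  have hz0 : (0 : ℝ) < z := by exact_mod_cast (by omega : 0 < z)
  have hcard : ∀ p ∈ S, (((Ioc 0 x2).filter (fun n => p ∣ n)).card : ℝ) ≤ x2 / z := by
    intro p hp
    rw [Nat.Ioc_filter_dvd_card_eq_div]
    rw [hS, mem_filter] at hp
    have hp0 : (z : ℝ) ≤ p := by exact_mod_cast hp.2.le
    calc ((x2 / p : ℕ) : ℝ) ≤ (x2 : ℝ) / p := Nat.cast_div_le
      _ ≤ x2 / z := by gcongr
  have hl2 : 0 < Real.log 2 := Real.log_pos (by norm_num)
  have hScard : (S.card : ℝ) ≤ Real.log G / Real.log 2 := by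
    rw [le_div_iff₀ hl2]
    have h1 : (2 : ℕ) ^ S.card ≤ G := by
      calc (2 : ℕ) ^ S.card ≤ ∏ p ∈ S, p := by
            refine Finset.pow_card_le_prod S (fun p => p) 2 fun p hp => ?_
            rw [hS, mem_filter, Nat.mem_primeFactors] at hp
            exact hp.1.1.two_le
        _ ≤ G := Nat.le_of_dvd (by omega) ((prod_dvd_prod_of_subset _ _ _ (filter_subset _ _)).trans
            (Nat.prod_primeFactors_dvd G))
    have h2 : ((2 : ℝ)) ^ S.card ≤ G := by exact_mod_cast h1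
    have h3 := Real.log_le_log (by positivity) h2
    rw [Real.log_pow] at h3
    exact h3
  calc (((rg z x1 x2).filter (fun n : ℕ => ¬ n.Coprime G)).card : ℝ)
      ≤ ((S.biUnion (fun p => (Ioc 0 x2).filter (fun n => p ∣ n))).card : ℝ) := by exact_mod_cast card_le_card hsub
    _ ≤ ∑ p ∈ S, (((Ioc 0 x2).filter (fun n => p ∣ n)).card : ℝ) := by exact_mod_cast card_biUnion_le
    _ ≤ ∑ p ∈ S, (x2 : ℝ) / z := sum_le_sum hcard
    _ = S.card * ((x2 : ℝ) / z) := by rw [sum_const, nsmul_eq_mul]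
    _ ≤ _ := mul_le_mul_of_nonneg_right hScard (by positivity)

/-- lower bound for the number of pairs -/
theorem tlow (K : ℕ) (a x2 : ℝ) (V3 Vz : ℝ) (hV3 : 0 ≤ V3) (hVz : 0 ≤ Vz) (ha : 0 < a) (hx2 : 0 ≤ x2) (M1 M2 : ℕ → Finset ℕ)
    (h1 : ∀ k < K, 15 / 16 * (2 ^ k * a * V3) ≤ (M1 k).card)
    (h2 : ∀ k < K, 15 / 16 * (x2 / (4 * (2 ^ k * a)) * Vz) ≤ (M2 k).card) :
    K * (3 / 16 * (x2 * V3 * Vz)) ≤ ∑ k ∈ range K, ((M1 k).card : ℝ) * (M2 k).card := by
  have h3 : ∀ k ∈ range K, 3 / 16 * (x2 * V3 * Vz) ≤ ((M1 k).card : ℝ) * (M2 k).card := by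
    intro k hk
    rw [mem_range] at hk
    have hA : (0 : ℝ) < 2 ^ k * a := by positivity
    calc 3 / 16 * (x2 * V3 * Vz) ≤ 225 / 256 * (1 / 4 * (x2 * V3 * Vz)) := by
          have : 0 ≤ x2 * V3 * Vz := by positivity
          linarith
      _ = (15 / 16 * (2 ^ k * a * V3)) * (15 / 16 * (x2 / (4 * (2 ^ k * a)) * Vz)) := by
          field_simp
          ring
      _ ≤ _ := mul_le_mul (h1 k hk) (h2 k hk) (by positivity) (Nat.cast_nonneg _)
  have h4 := sum_le_sum h3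
  rw [sum_const, card_range, nsmul_eq_mul] at h4
  exact h4

end Pool.Agent.Lib.EX
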