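import Pool.Agent.Lib.MP_61161c_nt.EX.PLap

/-!
# EX, module PFrm: the Liouville function along a linear form
-/

set_option autoImplicit false

open Finset
open Pool.Agent.Lib.MP_45349e_nt.LS (lam)
open Pool.Agent.Lib.TE (FN LamC)

namespace Pool.Agent.Lib.EX.AX

/-- sum over an interval of a class as a difference -/
private theorem ioc_diff (f : ℕ → ℝ) (m c T1 T2 : ℕ) (h : T1 ≤ T2) :
    ∑ n ∈ (Ioc T1 T2).filter (fun n => n ≡ c [MOD m]), f n =
      ∑ n ∈ (Icc 1 T2).filter (fun n => n ≡ c [MOD m]), f n - ∑ n ∈ (Icc 1 T1).filter (fun n => n ≡ c [MOD m]), f n := by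
  classical
  rw [eq_sub_iff_add_eq, ← Finset.sum_union]
  · refine Finset.sum_congr ?_ fun _ _ => rfl
    ext n
    simp only [mem_union, mem_filter, mem_Ioc, mem_Icc]
    constructor
    · rintro (⟨⟨h1, h2⟩, h3⟩ | ⟨⟨h1, h2⟩, h3⟩)
      · exact ⟨⟨by omega, h2⟩, h3⟩
      · exact ⟨⟨h1, by omega⟩, h3⟩
    · rintro ⟨⟨h1, h2⟩, h3⟩
      rcases le_or_gt n T1 with h4 | h4
      · exact Or.inr ⟨⟨h1, h4⟩, h3⟩
      · exact Or.inl ⟨⟨h4, h2⟩, h3⟩
  · rw [Finset.disjoint_left]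
    intro n hn hn'
    rw [mem_filter, mem_Ioc] at hn
    rw [mem_filter, mem_Icc] at hn'
    omega

/-- the values of a form on a class of an interval -/
private theorem frm_sum (x : Frm) (d c A0 L : ℕ) (ha : x.a ≠ 0) (hd : 1 ≤ d) (hL : 1 ≤ L)
    (hpos : ∀ n : ℕ, A0 ≤ n → n < A0 + L → 0 < x.ev n) :
    ∃ T1 T2 c' : ℕ, T1 ≤ T2 ∧ (∃ n : ℕ, A0 ≤ n ∧ n < A0 + L ∧ (T2 : ℤ) = x.ev n) ∧
      ∑ n ∈ (Ico A0 (A0 + L)).filter (fun n => n ≡ c [MOD d]), lz (x.ev n) =
        ∑ n ∈ (Ioc T1 T2).filter (fun n => n ≡ c' [MOD x.a.natAbs * d]), lam n := by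
  classical
  obtain ⟨m, hm⟩ : ∃ m, m = x.a.natAbs * d := ⟨_, rfl⟩
  have ha0 : 0 < x.a.natAbs := Int.natAbs_pos.2 ha
  have hm0 : 0 < m := by rw [hm]; exact Nat.mul_pos ha0 hd
  have hmZ : (m : ℤ) ≠ 0 := by exact_mod_cast hm0.ne'
  obtain ⟨c', hc'⟩ : ∃ c' : ℕ, (c' : ℤ) = x.ev c % (m : ℤ) := by
    refine ⟨(x.ev c % (m : ℤ)).toNat, ?_⟩
    rw [Int.toNat_of_nonneg (Int.emod_nonneg _ hmZ)]
  have hcc : (c' : ℤ) ≡ x.ev c [ZMOD m] := by
    rw [hc']
    exact Int.mod_modEq _ _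
  have hdvd : ∀ n : ℤ, ((m : ℤ) ∣ x.ev n - x.ev c) ↔ ((d : ℤ) ∣ n - c) := by
    intro n
    have h1 : x.ev n - x.ev c = x.a * (n - c) := by unfold Frm.ev; ring
    rw [h1, hm]
    push_cast
    rw [show (|x.a| : ℤ) * (d : ℤ) = |x.a| * (d : ℤ) from rfl]
    constructor
    · intro h
      have h2 : |x.a| * (d : ℤ) ∣ |x.a| * (n - c) := by
        refine h.trans ?_
        rcases abs_choice x.a with h3 | h3
        · rw [h3]
        · rw [h3]
          exact ⟨-1, by ring⟩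
      exact (mul_dvd_mul_iff_left (abs_ne_zero.2 ha)).1 h2
    · intro h
      have h2 : |x.a| * (d : ℤ) ∣ |x.a| * (n - c) := mul_dvd_mul_left _ h
      refine h2.trans ?_
      rcases abs_choice x.a with h3 | h3
      · rw [h3]
      · rw [h3]
        exact ⟨-1, by ring⟩
  -- the end points
  have hinj : ∀ n n' : ℤ, x.ev n = x.ev n' → n = n' := by
    intro n n' h
    unfold Frm.ev at h
    have h1 : x.a * n = x.a * n' := by linarith
    exact mul_left_cancel₀ ha h1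
  obtain ⟨lo, hi, hlo1, hlo2, hhi1, hhi2, hmin, hmax, hend⟩ : ∃ lo hi : ℕ, A0 ≤ lo ∧ lo < A0 + L ∧ A0 ≤ hi ∧ hi < A0 + L ∧
      (∀ n : ℕ, A0 ≤ n → n < A0 + L → x.ev lo ≤ x.ev n) ∧ (∀ n : ℕ, A0 ≤ n → n < A0 + L → x.ev n ≤ x.ev hi) ∧
      (∀ n : ℤ, x.ev lo ≤ x.ev n → x.ev n ≤ x.ev hi → (A0 : ℤ) ≤ n ∧ n < A0 + L) := by
    rcases lt_or_gt_of_ne ha with hneg | hpos'
    · refine ⟨A0 + L - 1, A0, by omega, by omega, le_refl _, by omega, ?_, ?_, ?_⟩
      · intro n h1 h2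
        unfold Frm.ev
        have h3 : (n : ℤ) ≤ ((A0 + L - 1 : ℕ) : ℤ) := by omega
        nlinarith
      · intro n h1 h2
        unfold Frm.ev
        have h3 : (A0 : ℤ) ≤ (n : ℤ) := by omega
        nlinarith
      · intro n h1 h2
        unfold Frm.ev at h1 h2
        constructor
        · by_contra h3
          push Not at h3
          nlinarith
        · by_contra h3
          have h4 : ((A0 + L - 1 : ℕ) : ℤ) < n := by omega
          nlinarith
    · refine ⟨A0, A0 + L - 1, le_refl _, by omega, by omega, by omega, ?_, ?_, ?_⟩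
      · intro n h1 h2
        unfold Frm.ev
        have h3 : (A0 : ℤ) ≤ (n : ℤ) := by omega
        nlinarith
      · intro n h1 h2
        unfold Frm.ev
        have h3 : (n : ℤ) ≤ ((A0 + L - 1 : ℕ) : ℤ) := by omega
        nlinarith
      · intro n h1 h2
        unfold Frm.ev at h1 h2
        constructor
        · by_contra h3
          push Not at h3
          nlinarith
        · by_contra h3
          have h4 : ((A0 + L - 1 : ℕ) : ℤ) < n := by omega
          nlinarith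
  have hplo := hpos lo hlo1 hlo2
  have hphi := hpos hi hhi1 hhi2
  have hle := hmax lo hlo1 hlo2
  refine ⟨(x.ev lo).toNat - 1, (x.ev hi).toNat, c', by omega, ⟨hi, hhi1, hhi2, by omega⟩, ?_⟩
  rw [← hm]
  refine Finset.sum_bij (fun n _ => (x.ev n).toNat) ?_ ?_ ?_ ?_
  · intro n hn
    rw [mem_filter, mem_Ico] at hn
    rw [mem_filter, mem_Ioc]
    have h1 := hmin n hn.1.1 hn.1.2
    have h2 := hmax n hn.1.1 hn.1.2
    have h3 := hpos n hn.1.1 hn.1.2
    refine ⟨⟨by omega, by omega⟩, ?_⟩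
    rw [← Int.natCast_modEq_iff, Int.toNat_of_nonneg h3.le]
    refine Int.ModEq.trans ?_ hcc.symm
    refine (Int.modEq_iff_dvd.2 ?_).symm
    rw [hdvd]
    have h4 : (n : ℤ) ≡ c [ZMOD d] := Int.natCast_modEq_iff.2 hn.2
    exact Int.modEq_iff_dvd.1 h4.symm
  · intro n hn n' hn' h
    rw [mem_filter, mem_Ico] at hn hn'
    have h3 := hpos n hn.1.1 hn.1.2
    have h3' := hpos n' hn'.1.1 hn'.1.2
    have h4 : x.ev n = x.ev n' := by
      have h5 : ((x.ev n).toNat : ℤ) = ((x.ev n').toNat : ℤ) := by exact_mod_cast h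
      rwa [Int.toNat_of_nonneg h3.le, Int.toNat_of_nonneg h3'.le] at h5
    exact_mod_cast hinj _ _ h4
  · intro v hv
    rw [mem_filter, mem_Ioc] at hv
    have h1 : (m : ℤ) ∣ (v : ℤ) - x.ev c := by
      have h2 : (v : ℤ) ≡ c' [ZMOD m] := Int.natCast_modEq_iff.2 hv.2
      exact Int.modEq_iff_dvd.1 (h2.trans hcc).symm
    have h3 : x.a ∣ (v : ℤ) - x.ev c := by
      refine dvd_trans ?_ h1
      rw [hm]
      push_cast
      exact (self_dvd_abs x.a).mul_right _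
    obtain ⟨k, hk⟩ := h3
    have h4 : x.ev (c + k) = v := by
      have : x.ev (c + k) = x.ev c + x.a * k := by unfold Frm.ev; ring
      rw [this, ← hk]
      ring
    obtain ⟨h5, h6⟩ := hend (c + k) (by rw [h4]; omega) (by rw [h4]; omega)
    have h7 : (d : ℤ) ∣ ((c : ℤ) + k) - c := by
      rw [← hdvd, h4]
      exact h1
    refine ⟨((c : ℤ) + k).toNat, ?_, ?_⟩
    · rw [mem_filter, mem_Ico]
      refine ⟨⟨by omega, by omega⟩, ?_⟩
      rw [← Int.natCast_modEq_iff, Int.toNat_of_nonneg (by omega)]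
      exact (Int.modEq_iff_dvd.2 h7).symm
    · rw [Int.toNat_of_nonneg (by omega), h4]
      exact Int.toNat_natCast v
  · intro n hn
    rw [mem_filter, mem_Ico] at hn
    have h3 := hpos n hn.1.1 hn.1.2
    unfold lz
    congr 1
    omega

/-- The Liouville function along a form in a class. -/
theorem lap_frm (A : ℕ) : ∃ N0 : ℕ, ∀ N : ℕ, N0 ≤ N → N.Prime → ∀ (x : Frm) (d c A0 L : ℕ), x.a ≠ 0 → 1 ≤ d →
    ((x.a.natAbs * d : ℕ) : ℝ) ≤ (N : ℝ) ^ ((1 : ℝ) / 1000) → (∀ f ∈ Bf N A, ¬ f ∣ x.a.natAbs * d) →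
    (∀ n : ℕ, A0 ≤ n → n < A0 + L → 0 < x.ev n ∧ x.ev n < N) →
    |∑ n ∈ (Ico A0 (A0 + L)).filter (fun n => n ≡ c [MOD d]), lz (x.ev n)| ≤
      2 * ((x.a.natAbs * d).divisors.card : ℝ) * N / ((x.a.natAbs * d).totient * Real.log N ^ A) := by
  obtain ⟨N0, H⟩ := lap A
  refine ⟨max N0 1, fun N hN hNp x d c A0 L ha hd hm hf hev => ?_⟩
  have hN1 : 1 ≤ N := (le_max_right _ _).trans hN
  have hlog : 0 ≤ Real.log N := Real.log_nonneg (by exact_mod_cast hN1)
  rcases Nat.eq_zero_or_pos L with hL | hL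
  · subst hL
    simp only [add_zero, Ico_self, filter_empty, sum_empty, abs_zero]
    positivity
  · obtain ⟨T1, T2, c', hT, ⟨n, hn1, hn2, hn3⟩, hsum⟩ := frm_sum x d c A0 L ha hd hL fun n h1 h2 => (hev n h1 h2).1
    have hT2 : T2 < N := by
      have := (hev n hn1 hn2).2
      omega
    have hm1 : 1 ≤ x.a.natAbs * d := Nat.mul_pos (Int.natAbs_pos.2 ha) hd
    rw [hsum, ioc_diff _ _ _ _ _ hT]
    have h1 := H N ((le_max_left _ _).trans hN) hNp _ hm1 hm hf c' T2 hT2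
    have h2 := H N ((le_max_left _ _).trans hN) hNp _ hm1 hm hf c' T1 (lt_of_le_of_lt hT hT2)
    refine (abs_sub _ _).trans ?_
    calc _ ≤ ((x.a.natAbs * d).divisors.card : ℝ) * N / ((x.a.natAbs * d).totient * Real.log N ^ A) +
          ((x.a.natAbs * d).divisors.card : ℝ) * N / ((x.a.natAbs * d).totient * Real.log N ^ A) := add_le_add h1 h2
      _ = _ := by ring

end Pool.Agent.Lib.EX.AX
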