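import Pool.Agent.Lib.MP_61161c_nt.EX.PDefs

/-!
# EX, module PFrm0: sums of `lam` over the values of a form in a class
-/

set_option autoImplicit false

open Finset
open Pool.Agent.Lib.MP_45349e_nt.LS (lam)

namespace Pool.Agent.Lib.EX.AX

/-- the values of a form on an interval in a class are an interval in a class -/
theorem frm_sum (x : Frm) (d c A0 L T0 T1 : ℕ) (hx : x.a ≠ 0) (hd : 1 ≤ d)
    (hr : ∀ n : ℕ, A0 ≤ n → n < A0 + L → (T0 : ℤ) < x.ev n ∧ x.ev n ≤ T1)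
    (hr' : ∀ n : ℤ, (T0 : ℤ) < x.ev n → x.ev n ≤ T1 → (A0 : ℤ) ≤ n ∧ n < A0 + L) :
    ∑ n ∈ (Ico A0 (A0 + L)).filter (fun n => n ≡ c [MOD d]), lz (x.ev n) =
      ∑ v ∈ (Ioc T0 T1).filter (fun v => v ≡ ((x.ev c) % ((x.a.natAbs * d : ℕ) : ℤ)).toNat [MOD x.a.natAbs * d]), lam v := by
  have hm : (0 : ℤ) < ((x.a.natAbs * d : ℕ) : ℤ) := by
    have h1 : 0 < x.a.natAbs := Int.natAbs_pos.2 hx
    exact_mod_cast Nat.mul_pos h1 (by omega)
  have hC : ((((x.ev c) % ((x.a.natAbs * d : ℕ) : ℤ)).toNat : ℕ) : ℤ) = (x.ev c) % ((x.a.natAbs * d : ℕ) : ℤ) :=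
    Int.toNat_of_nonneg (Int.emod_nonneg _ hm.ne')
  have hmod : ∀ v : ℕ, v ≡ ((x.ev c) % ((x.a.natAbs * d : ℕ) : ℤ)).toNat [MOD x.a.natAbs * d] ↔
      ((x.a.natAbs * d : ℕ) : ℤ) ∣ x.ev c - v := by
    intro v
    rw [← Int.natCast_modEq_iff, hC, ← Int.modEq_iff_dvd]
    constructor
    · intro h
      exact h.trans (Int.mod_modEq _ _)
    · intro h
      exact h.trans (Int.mod_modEq _ _).symm
  have habs : |x.a| = x.a ∨ |x.a| = -x.a := abs_choice x.a
  refine sum_bij (fun n _ => (x.ev n).toNat) ?_ ?_ ?_ ?_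
  · intro n hn
    rw [mem_filter, mem_Ico] at hn
    obtain ⟨⟨h1, h2⟩, h3⟩ := hn
    obtain ⟨h4, h5⟩ := hr n h1 h2
    have h6 : (((x.ev n).toNat : ℕ) : ℤ) = x.ev n := Int.toNat_of_nonneg (by omega)
    rw [mem_filter, mem_Ioc, hmod, h6]
    refine ⟨⟨by omega, by omega⟩, ?_⟩
    obtain ⟨k, hk⟩ : (d : ℤ) ∣ c - n := (Int.natCast_modEq_iff.2 h3).dvd
    have h7 : x.ev c - x.ev n = x.a * (c - n) := by
      unfold Frm.ev
      ring
    rw [h7, hk]
    push_cast
    rcases habs with h | h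
    · exact ⟨k, by rw [h]; ring⟩
    · exact ⟨-k, by rw [h]; ring⟩
  · intro n1 h1 n2 h2 h
    rw [mem_filter, mem_Ico] at h1 h2
    have e1 := hr n1 h1.1.1 h1.1.2
    have e2 := hr n2 h2.1.1 h2.1.2
    have h3 : x.ev n1 = x.ev n2 := by
      have a1 : (((x.ev n1).toNat : ℕ) : ℤ) = x.ev n1 := Int.toNat_of_nonneg (by omega)
      have a2 : (((x.ev n2).toNat : ℕ) : ℤ) = x.ev n2 := Int.toNat_of_nonneg (by omega)
      have a3 : (x.ev n1).toNat = (x.ev n2).toNat := h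
      rw [← a1, ← a2, a3]
    unfold Frm.ev at h3
    have h4 : x.a * (n1 : ℤ) = x.a * n2 := by linarith
    have h5 := mul_left_cancel₀ hx h4
    exact_mod_cast h5
  · intro v hv
    rw [mem_filter, mem_Ioc, hmod] at hv
    obtain ⟨⟨h1, h2⟩, k, hk⟩ := hv
    push_cast at hk
    obtain ⟨k', hk'⟩ : ∃ k' : ℤ, x.ev c - v = x.a * (d * k') := by
      rcases habs with h | h
      · exact ⟨k, by rw [hk, h]; ring⟩
      · exact ⟨-k, by rw [hk, h]; ring⟩
    have h3 : x.ev (c - d * k') = v := by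
      have : x.ev (c - d * k') = x.ev c - x.a * (d * k') := by
        unfold Frm.ev
        ring
      rw [this, ← hk']
      ring
    obtain ⟨h4, h5⟩ := hr' (c - d * k') (by rw [h3]; exact_mod_cast h1) (by rw [h3]; exact_mod_cast h2)
    have h6 : ((((c : ℤ) - d * k').toNat : ℕ) : ℤ) = c - d * k' := Int.toNat_of_nonneg (by omega)
    refine ⟨((c : ℤ) - d * k').toNat, ?_, ?_⟩
    · rw [mem_filter, mem_Ico]
      refine ⟨⟨by omega, by omega⟩, ?_⟩
      rw [← Int.natCast_modEq_iff, h6, Int.modEq_iff_dvd]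
      exact ⟨k', by ring⟩
    · show (x.ev ((((c : ℤ) - d * k').toNat : ℕ) : ℤ)).toNat = v
      rw [h6, h3, Int.toNat_natCast]
  · intro n hn
    rw [mem_filter, mem_Ico] at hn
    have h4 := hr n hn.1.1 hn.1.2
    show lz (x.ev n) = lam (x.ev n).toNat
    unfold lz
    congr 1
    omega

theorem frm_red (N : ℕ) (x : Frm) (d c A0 L : ℕ) (hx : x.a ≠ 0) (hd : 1 ≤ d)
    (hr : ∀ n : ℕ, A0 ≤ n → n < A0 + L → 0 < x.ev n ∧ x.ev n < N) (B : ℝ) (hB : 0 ≤ B)
    (h : ∀ C T : ℕ, T < N → |∑ n ∈ (Icc 1 T).filter (fun n => n ≡ C [MOD x.a.natAbs * d]), lam n| ≤ B) :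
    |∑ n ∈ (Ico A0 (A0 + L)).filter (fun n => n ≡ c [MOD d]), lz (x.ev n)| ≤ 2 * B := by
  rcases Nat.eq_zero_or_pos L with hL | hL
  · subst hL
    simp only [add_zero, Ico_self, filter_empty, sum_empty, abs_zero]
    linarith
  have hev : ∀ m n : ℤ, x.ev m - x.ev n = x.a * (m - n) := fun m n => by
    unfold Frm.ev
    ring
  obtain ⟨T0, T1, h01, hT1, hr1, hr2⟩ : ∃ T0 T1 : ℕ, T0 ≤ T1 ∧ T1 < N ∧
      (∀ n : ℕ, A0 ≤ n → n < A0 + L → (T0 : ℤ) < x.ev n ∧ x.ev n ≤ T1) ∧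
      (∀ n : ℤ, (T0 : ℤ) < x.ev n → x.ev n ≤ T1 → (A0 : ℤ) ≤ n ∧ n < A0 + L) := by
    have e1 := hr A0 le_rfl (by omega)
    have e2 := hr (A0 + L - 1) (by omega) (by omega)
    have hcast : ((A0 + L - 1 : ℕ) : ℤ) = A0 + L - 1 := by omega
    rcases lt_or_gt_of_ne hx with ha | ha
    · -- decreasing
      have hmono : ∀ m n : ℤ, m ≤ n → x.ev n ≤ x.ev m := by
        intro m n hmn
        have := hev m n
        have h2 : 0 ≤ x.a * (m - n) := mul_nonneg_of_nonpos_of_nonpos ha.le (by omega)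
        omega
      have hmono' : ∀ m n : ℤ, x.ev m ≤ x.ev n → n ≤ m := by
        intro m n hmn
        by_contra hcon
        push Not at hcon
        have := hev m n
        have h2 : 0 < x.a * (m - n) := mul_pos_of_neg_of_neg ha (by omega)
        omega
      refine ⟨(x.ev ((A0 + L - 1 : ℕ) : ℤ)).toNat - 1, (x.ev A0).toNat, ?_, ?_, ?_, ?_⟩
      · have := hmono A0 ((A0 + L - 1 : ℕ) : ℤ) (by omega)
        omega
      · omega
      · intro n h1 h2
        have a1 := hmono A0 n (by omega)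
        have a2 := hmono n ((A0 + L - 1 : ℕ) : ℤ) (by omega)
        omega
      · intro n h1 h2
        have a1 := hmono' n A0 (by omega)
        have a2 := hmono' ((A0 + L - 1 : ℕ) : ℤ) n (by omega)
        omega
    · have hmono : ∀ m n : ℤ, m ≤ n → x.ev m ≤ x.ev n := by
        intro m n hmn
        have := hev n m
        have h2 : 0 ≤ x.a * (n - m) := mul_nonneg ha.le (by omega)
        omega
      have hmono' : ∀ m n : ℤ, x.ev m ≤ x.ev n → m ≤ n := by
        intro m n hmn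
        by_contra hcon
        push Not at hcon
        have := hev m n
        have h2 : 0 < x.a * (m - n) := mul_pos ha (by omega)
        omega
      refine ⟨(x.ev A0).toNat - 1, (x.ev ((A0 + L - 1 : ℕ) : ℤ)).toNat, ?_, ?_, ?_, ?_⟩
      · have := hmono A0 ((A0 + L - 1 : ℕ) : ℤ) (by omega)
        omega
      · omega
      · intro n h1 h2
        have a1 := hmono A0 n (by omega)
        have a2 := hmono n ((A0 + L - 1 : ℕ) : ℤ) (by omega)
        omega
      · intro n h1 h2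
        have a1 := hmono' A0 n (by omega)
        have a2 := hmono' n ((A0 + L - 1 : ℕ) : ℤ) (by omega)
        omega
  rw [frm_sum x d c A0 L T0 T1 hx hd hr1 hr2]
  set C := ((x.ev c) % ((x.a.natAbs * d : ℕ) : ℤ)).toNat
  have hsplit : (Icc 1 T1).filter (fun n => n ≡ C [MOD x.a.natAbs * d]) =
      (Icc 1 T0).filter (fun n => n ≡ C [MOD x.a.natAbs * d]) ∪
        (Ioc T0 T1).filter (fun n => n ≡ C [MOD x.a.natAbs * d]) := by
    rw [← filter_union]
    congr 1
    ext n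
    rw [mem_union, mem_Icc, mem_Icc, mem_Ioc]
    omega
  have hdis : Disjoint ((Icc 1 T0).filter (fun n => n ≡ C [MOD x.a.natAbs * d]))
      ((Ioc T0 T1).filter (fun n => n ≡ C [MOD x.a.natAbs * d])) := by
    rw [disjoint_left]
    intro n h1 h2
    rw [mem_filter, mem_Icc] at h1
    rw [mem_filter, mem_Ioc] at h2
    omega
  have h1 := h C T1 hT1
  have h2 := h C T0 (by omega)
  rw [hsplit, sum_union hdis] at h1
  rw [abs_le] at h1 h2 ⊢
  constructor <;> linarith [h1.1, h1.2, h2.1, h2.2]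

end Pool.Agent.Lib.EX.AX
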