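import Pool.Agent.Lib.MP_61161c_nt.EX.PDefs
import Pool.Agent.Lib.MP_7b7e48_nt.TE.SWL
import Pool.Agent.Lib.MP_7b7e48_nt.TE.ClsLe

/-!
# EX, module PLap: the Liouville function in a progression whose modulus is divisible by no bad conductor

Grid of `PDefs`, `TE.cls_le` at the grid point below `T`, `TE.swl_one` for the principal character, the definition of `Bf` for the other ones.
-/

set_option autoImplicit false

open Finset
open Pool.Agent.Lib.MP_45349e_nt.LS (lam)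
open Pool.Agent.Lib.BV (PS)
open Pool.Agent.Lib.TE (FN LamC)

namespace Pool.Agent.Lib.EX.AX

private theorem plap_ev_log_pow (A : ℕ) (δ : ℝ) (hδ : 0 < δ) (C : ℝ) (hC : 0 < C) :
    ∀ᶠ N : ℕ in Filter.atTop, C * (Real.log N) ^ A ≤ (N : ℝ) ^ δ := by
  have h1 := isLittleO_log_rpow_rpow_atTop (A : ℝ) hδ
  have h2 := h1.bound (show (0 : ℝ) < 1 / C by positivity)
  have h3 := tendsto_natCast_atTop_atTop (R := ℝ) |>.eventually h2
  filter_upwards [h3, Filter.eventually_ge_atTop 1] with N h4 hN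
  have hN1 : (1 : ℝ) ≤ N := by exact_mod_cast hN
  have h5 : 0 ≤ Real.log N := Real.log_nonneg hN1
  rw [Real.rpow_natCast, Real.norm_of_nonneg (pow_nonneg h5 _),
    Real.norm_of_nonneg (Real.rpow_nonneg (by linarith) _)] at h4
  calc C * (Real.log N) ^ A ≤ C * (1 / C * (N : ℝ) ^ δ) := mul_le_mul_of_nonneg_left h4 hC.le
    _ = _ := by field_simp

private theorem plap_ev_log_ge (T : ℝ) : ∀ᶠ N : ℕ in Filter.atTop, T ≤ Real.log N :=
  (Real.tendsto_log_atTop.comp tendsto_natCast_atTop_atTop).eventually_ge_atTop T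

private theorem plap_abs_FN (N n : ℕ) : |FN N n| ≤ 1 := by
  unfold FN
  split_ifs
  · exact (Pool.Agent.Lib.MP_45349e_nt.LS.abs_lam n).le
  · simp

private theorem plap_card (m c t T : ℕ) (hm : 1 ≤ m) (htT : t ≤ T) :
    (((Ioc t T).filter (fun n => n ≡ c [MOD m])).card : ℝ) ≤ ((T : ℝ) - t) / m + 1 := by
  have h := Nat.Ioc_filter_modEq_card t T (r := m) (by omega) c
  have hm0 : (0 : ℚ) < m := by exact_mod_cast hm
  have h1 : ((⌊((T : ℚ) - c) / m⌋ : ℤ) : ℚ) ≤ ((T : ℚ) - c) / m := Int.floor_le _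
  have h2 : ((t : ℚ) - c) / m < ((⌊((t : ℚ) - c) / m⌋ : ℤ) : ℚ) + 1 := Int.lt_floor_add_one _
  have h3 : (((Ioc t T).filter (fun n => n ≡ c [MOD m])).card : ℚ) ≤ ((T : ℚ) - t) / m + 1 := by
    have h4 : (((Ioc t T).filter (fun n => n ≡ c [MOD m])).card : ℚ) =
        ((max (⌊((T : ℚ) - c) / m⌋ - ⌊((t : ℚ) - c) / m⌋) 0 : ℤ) : ℚ) := by
      rw [← h]; push_cast; rfl
    rw [h4]
    push_cast
    refine max_le ?_ ?_
    · have h5 : ((T : ℚ) - t) / m = ((T : ℚ) - c) / m - ((t : ℚ) - c) / m := by ring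
      rw [h5]; linarith
    · have h6 : (t : ℚ) ≤ T := by exact_mod_cast htT
      have : 0 ≤ ((T : ℚ) - t) / m := div_nonneg (by linarith) hm0.le
      linarith
  have h7 := (Rat.cast_le (K := ℝ)).mpr h3
  rw [Rat.cast_add, Rat.cast_div, Rat.cast_sub, Rat.cast_natCast, Rat.cast_natCast, Rat.cast_natCast, Rat.cast_natCast, Rat.cast_one] at h7
  exact h7

private theorem plap_diff (N m c t T : ℕ) (hm : 1 ≤ m) (htT : t ≤ T) :
    |∑ n ∈ (Icc 1 T).filter (fun n => n ≡ c [MOD m]), FN N n| ≤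
    |∑ n ∈ (Icc 1 t).filter (fun n => n ≡ c [MOD m]), FN N n| + (((T : ℝ) - t) / m + 1) := by
  have h1 : (Icc 1 T).filter (fun n => n ≡ c [MOD m]) =
      (Icc 1 t).filter (fun n => n ≡ c [MOD m]) ∪ (Ioc t T).filter (fun n => n ≡ c [MOD m]) := by
    ext n
    simp only [mem_filter, mem_Icc, mem_union, mem_Ioc]
    constructor
    · rintro ⟨⟨h1, h2⟩, h3⟩
      rcases Nat.lt_or_ge t n with h | h
      · exact Or.inr ⟨⟨h, h2⟩, h3⟩
      · exact Or.inl ⟨⟨h1, h⟩, h3⟩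
    · rintro (⟨⟨h1, h2⟩, h3⟩ | ⟨⟨h1, h2⟩, h3⟩)
      · exact ⟨⟨h1, h2.trans htT⟩, h3⟩
      · exact ⟨⟨by omega, h2⟩, h3⟩
  have h2 : Disjoint ((Icc 1 t).filter (fun n => n ≡ c [MOD m])) ((Ioc t T).filter (fun n => n ≡ c [MOD m])) := by
    rw [Finset.disjoint_left]
    intro n h3 h4
    have h5 := (mem_Icc.mp (mem_filter.mp h3).1).2
    have h6 := (mem_Ioc.mp (mem_filter.mp h4).1).1
    omega
  rw [h1, sum_union h2]
  refine (abs_add_le _ _).trans ?_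
  have h3 : |∑ n ∈ (Ioc t T).filter (fun n => n ≡ c [MOD m]), FN N n| ≤ ((T : ℝ) - t) / m + 1 := by
    refine (abs_sum_le_sum_abs _ _).trans ?_
    refine (sum_le_card_nsmul _ _ 1 (fun n _ => plap_abs_FN N n)).trans ?_
    rw [nsmul_eq_mul, mul_one]
    exact plap_card m c t T hm htT
  linarith

private theorem plap_tot (a : ℕ) : ∀ b : ℕ, (a * b).totient ≤ a * b.totient := by
  induction a using induction_on_primes with
  | zero => intro b; simp
  | one => intro b; simp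
  | prime_mul p a hp ih =>
    intro b
    rw [mul_assoc, mul_assoc]
    refine le_trans ?_ (Nat.mul_le_mul_left p (ih b))
    by_cases h : p ∣ a * b
    · rw [Nat.totient_mul_of_prime_of_dvd hp h]
    · rw [Nat.totient_mul_of_prime_of_not_dvd hp h]
      exact Nat.mul_le_mul_right _ (Nat.sub_le _ _)

/-- the grid point below `T` -/
private theorem plap_grid (N A T : ℕ) (K : ℝ) (hKd : K = Real.log N) (hK3 : 3 ≤ K) (hN1 : 1 ≤ N)
    (h56 : 4 ≤ (N : ℝ) ^ ((1 : ℝ) / 56)) (hT1 : (N : ℝ) ^ ((1 : ℝ) / 7) ≤ T) (hT2 : T ≤ N) :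
    ∃ i : ℕ, (i : ℝ) ≤ 2 * K ^ (A + 3) ∧ grd N A i ≤ T ∧ (N : ℝ) ^ ((1 : ℝ) / 8) ≤ grd N A i ∧
      ((T : ℝ) - grd N A i) ≤ T * (1 / K ^ (A + 2)) + 1 := by
  have hK0 : 0 < K := by linarith
  have hNr : (1 : ℝ) ≤ N := by exact_mod_cast hN1
  have hNp : (0 : ℝ) < N := by linarith
  have hKB : (0 : ℝ) < K ^ (A + 2) := pow_pos hK0 _
  have hKB1 : (1 : ℝ) ≤ K ^ (A + 2) := one_le_pow₀ (by linarith)
  obtain ⟨u, hu⟩ : ∃ u : ℝ, u = 1 / K ^ (A + 2) := ⟨_, rfl⟩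
  have hu0 : 0 < u := by rw [hu]; positivity
  have hu1 : u ≤ 1 := by rw [hu, div_le_one hKB]; exact hKB1
  obtain ⟨q, hq⟩ : ∃ q : ℝ, q = 1 + u := ⟨_, rfl⟩
  have hq0 : 0 < q := by linarith
  have hq1 : 1 ≤ q := by linarith
  have hgrd : ∀ i : ℕ, grd N A i = ⌊q ^ i⌋₊ := by
    intro i
    unfold grd
    rw [← hKd, ← hu, ← hq]
  obtain ⟨L, hL⟩ : ∃ L : ℝ, L = Real.log q := ⟨_, rfl⟩
  have hLu : u / 2 ≤ L := by
    have h1 := Real.one_sub_inv_le_log_of_pos hq0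
    have h2 : u / 2 ≤ 1 - q⁻¹ := by
      have h3 : 1 - q⁻¹ = u / q := by
        rw [hq]; field_simp; ring
      rw [h3]
      exact div_le_div_of_nonneg_left hu0.le hq0 (by linarith)
    linarith
  have hL0 : 0 < L := by linarith
  have h7 : (1 : ℝ) ≤ (N : ℝ) ^ ((1 : ℝ) / 7) := Real.one_le_rpow hNr (by norm_num)
  have h8 : (1 : ℝ) ≤ (N : ℝ) ^ ((1 : ℝ) / 8) := Real.one_le_rpow hNr (by norm_num)
  have h78 : (N : ℝ) ^ ((1 : ℝ) / 7) = (N : ℝ) ^ ((1 : ℝ) / 8) * (N : ℝ) ^ ((1 : ℝ) / 56) := by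
    rw [← Real.rpow_add hNp]; norm_num
  have h78' : 4 * (N : ℝ) ^ ((1 : ℝ) / 8) ≤ (N : ℝ) ^ ((1 : ℝ) / 7) := by
    rw [h78]; nlinarith [h8, h56]
  have hT1' : (1 : ℝ) ≤ T := h7.trans hT1
  have hT0 : (0 : ℝ) < T := by linarith
  have hlT : 0 ≤ Real.log T := Real.log_nonneg hT1'
  obtain ⟨i, hi⟩ : ∃ i : ℕ, i = ⌊Real.log T / L⌋₊ := ⟨_, rfl⟩
  have hi1 : (i : ℝ) ≤ Real.log T / L := by rw [hi]; exact Nat.floor_le (by positivity)
  have hi2 : Real.log T / L < (i : ℝ) + 1 := by rw [hi]; exact Nat.lt_floor_add_one _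
  have hqi : q ^ i ≤ T := by
    rw [← Real.log_le_log_iff (pow_pos hq0 _) hT0, Real.log_pow, ← hL]
    rwa [le_div_iff₀ hL0] at hi1
  have hqi2 : (T : ℝ) ≤ q ^ (i + 1) := by
    rw [← Real.log_le_log_iff hT0 (pow_pos hq0 _), Real.log_pow, ← hL]
    rw [div_lt_iff₀ hL0] at hi2
    push_cast
    exact hi2.le
  have ht1 : ((grd N A i : ℕ) : ℝ) ≤ q ^ i := by rw [hgrd]; exact Nat.floor_le (pow_pos hq0 _).le
  have ht2 : q ^ i < ((grd N A i : ℕ) : ℝ) + 1 := by rw [hgrd]; exact Nat.lt_floor_add_one _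
  refine ⟨i, ?_, by exact_mod_cast ht1.trans hqi, ?_, ?_⟩
  · refine hi1.trans ?_
    rw [div_le_iff₀ hL0]
    have h9 : Real.log T ≤ K := by rw [hKd]; exact Real.log_le_log hT0 (by exact_mod_cast hT2)
    have h10 : 2 * K ^ (A + 3) * (u / 2) = K := by
      rw [hu]; field_simp; ring
    calc Real.log T ≤ K := h9
      _ = 2 * K ^ (A + 3) * (u / 2) := h10.symm
      _ ≤ 2 * K ^ (A + 3) * L := mul_le_mul_of_nonneg_left hLu (by positivity)
  · have h9 : (T : ℝ) ≤ 2 * q ^ i := by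
      refine hqi2.trans ?_
      rw [pow_succ, mul_comm]
      exact mul_le_mul_of_nonneg_right (by linarith) (pow_pos hq0 _).le
    linarith
  · rw [pow_succ] at hqi2
    have h9 : q ^ i * q = q ^ i + q ^ i * u := by rw [hq]; ring
    have h10 : q ^ i * u ≤ T * u := mul_le_mul_of_nonneg_right hqi hu0.le
    rw [← hu]
    linarith

private theorem plap_PS_nonneg (N t f : ℕ) : 0 ≤ PS f (fun ψ => ‖LamC N t ψ‖) := by
  unfold Pool.Agent.Lib.BV.PS
  exact sum_nonneg fun _ _ => norm_nonneg _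

theorem lap_cop (A : ℕ) : ∃ N0 : ℕ, ∀ N : ℕ, N0 ≤ N → ∀ m : ℕ, 1 ≤ m → (m : ℝ) ≤ (N : ℝ) ^ ((1 : ℝ) / 1000) →
    (∀ f ∈ Bf N A, ¬ f ∣ m) → ∀ c T : ℕ, c.Coprime m → (N : ℝ) ^ ((1 : ℝ) / 7) ≤ T → T ≤ N →
    |∑ n ∈ (Icc 1 T).filter (fun n => n ≡ c [MOD m]), FN N n| ≤ (m.divisors.card : ℝ) * T / (m.totient * Real.log N ^ A) := by
  obtain ⟨N1, hN1⟩ := Pool.Agent.Lib.TE.swl_one (A + 2)
  have hev := ((plap_ev_log_ge 3).and ((plap_ev_log_pow (A + 2) (1 / 8) (by norm_num) 1 one_pos).and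
    ((plap_ev_log_pow 0 (1 / 56) (by norm_num) 4 (by norm_num)).and
    ((plap_ev_log_pow 0 (1 / 100) (by norm_num) 2 (by norm_num)).and (Filter.eventually_ge_atTop 1)))))
  obtain ⟨N2, hN2⟩ := Filter.eventually_atTop.mp hev
  refine ⟨max N1 N2, fun N hN m hm1 hm2 hbad c T hco hT1 hT2 => ?_⟩
  obtain ⟨hK3, hK8, h56, h100, hN1'⟩ := hN2 N (le_of_max_le_right hN)
  have hsw := hN1 N (le_of_max_le_left hN)
  rw [one_mul] at hK8
  rw [pow_zero, mul_one] at h56 h100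
  obtain ⟨i, hi, hg1, hg2, hg3⟩ := plap_grid N A T (Real.log N) rfl hK3 hN1' h56 hT1 hT2
  obtain ⟨K, hKd⟩ : ∃ K : ℝ, K = Real.log N := ⟨_, rfl⟩
  obtain ⟨t, ht⟩ : ∃ t : ℕ, t = grd N A i := ⟨_, rfl⟩
  rw [← ht] at hg1 hg2 hg3
  rw [← hKd] at hK3 hK8 hsw hi hg3 ⊢
  have hK0 : 0 < K := by linarith
  have hNr : (1 : ℝ) ≤ N := by exact_mod_cast hN1'
  have hNp : (0 : ℝ) < N := by linarith
  have hP : (0 : ℝ) < K ^ (A + 2) := pow_pos hK0 _
  have hm0 : (0 : ℝ) < m := by exact_mod_cast hm1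
  have hφ0 : (0 : ℝ) < m.totient := by exact_mod_cast Nat.totient_pos.mpr hm1
  have hφm : (m.totient : ℝ) ≤ m := by exact_mod_cast Nat.totient_le m
  have hD1 : (1 : ℝ) ≤ m.divisors.card := by
    exact_mod_cast Finset.card_pos.mpr ⟨1, Nat.one_mem_divisors.mpr (by omega)⟩
  have hrt : m ≤ rtN N := Nat.le_floor hm2
  -- the principal characters
  have hone : ∀ k ∈ m.divisors, |∑ n ∈ Icc 1 (t / k), FN N n| ≤ t / K ^ (A + 2) := by
    intro k hk
    have hk1 : 1 ≤ k := Nat.pos_of_mem_divisors hk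
    have hkm : k ≤ m := Nat.divisor_le hk
    have hk9 : (N : ℝ) ^ ((1 : ℝ) / 9) ≤ ((t / k : ℕ) : ℝ) := by
      by_contra hcon
      rw [not_le] at hcon
      have h1 : t < k * (t / k + 1) := Nat.lt_mul_div_succ t hk1
      have h2 : (t : ℝ) < k * (((t / k : ℕ) : ℝ) + 1) := by exact_mod_cast h1
      have h3 : (k : ℝ) ≤ (N : ℝ) ^ ((1 : ℝ) / 1000) := le_trans (by exact_mod_cast hkm) hm2
      have h4 : (1 : ℝ) ≤ (N : ℝ) ^ ((1 : ℝ) / 9) := Real.one_le_rpow hNr (by norm_num)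
      have h5 : ((t / k : ℕ) : ℝ) + 1 ≤ (N : ℝ) ^ ((1 : ℝ) / 9) * (N : ℝ) ^ ((1 : ℝ) / 100) := by
        nlinarith
      have h6 : (k : ℝ) * (((t / k : ℕ) : ℝ) + 1) ≤
          (N : ℝ) ^ ((1 : ℝ) / 1000) * ((N : ℝ) ^ ((1 : ℝ) / 9) * (N : ℝ) ^ ((1 : ℝ) / 100)) :=
        mul_le_mul h3 h5 (by positivity) (by positivity)
      have h7 : (N : ℝ) ^ ((1 : ℝ) / 1000) * ((N : ℝ) ^ ((1 : ℝ) / 9) * (N : ℝ) ^ ((1 : ℝ) / 100)) ≤
          (N : ℝ) ^ ((1 : ℝ) / 8) := by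
        rw [← Real.rpow_add hNp, ← Real.rpow_add hNp]
        exact Real.rpow_le_rpow_of_exponent_le hNr (by norm_num)
      linarith
    refine (hsw (t / k) hk9).trans ?_
    refine div_le_div_of_nonneg_right ?_ hP.le
    exact_mod_cast Nat.div_le_self t k
  -- the other ones
  have hoth : ∀ f ∈ m.divisors.filter (fun f => 1 < f),
      ∑ k ∈ (m / f).divisors, PS f (fun ψ => ‖LamC N (t / k) ψ‖) ≤ t / K ^ (A + 2) := by
    intro f hf
    obtain ⟨hf1, hf2⟩ := mem_filter.mp hf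
    have hfm : f ∣ m := Nat.dvd_of_mem_divisors hf1
    have hfle : f ≤ m := Nat.le_of_dvd hm1 hfm
    have hsub : (m / f).divisors ⊆ Icc 1 (rtN N) := by
      intro k hk
      rw [mem_Icc]
      exact ⟨Nat.pos_of_mem_divisors hk, ((Nat.divisor_le hk).trans (Nat.div_le_self m f)).trans hrt⟩
    refine (sum_le_sum_of_subset_of_nonneg hsub (fun k _ _ => plap_PS_nonneg N (t / k) f)).trans ?_
    by_contra hcon
    rw [not_le] at hcon
    refine hbad f ?_ hfm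
    classical
    unfold Bf
    simp only [mem_filter, mem_Ioc]
    refine ⟨⟨hf2, hfle.trans hrt⟩, i, ?_, ?_, ?_, ?_⟩
    · rw [← hKd]; exact hi
    · rw [← ht]; exact hg2
    · rw [← ht]; exact hg1.trans hT2
    · rw [← ht, ← hKd]; exact hcon
  have hcls := Pool.Agent.Lib.TE.cls_le N t m c hN1' hm1 hco
  have hs1 : ∑ k ∈ m.divisors, |∑ n ∈ Icc 1 (t / k), FN N n| ≤ m.divisors.card * (t / K ^ (A + 2)) := by
    refine (sum_le_card_nsmul _ _ _ hone).trans ?_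
    rw [nsmul_eq_mul]
  have hs2 : ∑ f ∈ m.divisors.filter (fun f => 1 < f), ∑ k ∈ (m / f).divisors, PS f (fun ψ => ‖LamC N (t / k) ψ‖) ≤
      m.divisors.card * (t / K ^ (A + 2)) := by
    refine (sum_le_card_nsmul _ _ _ hoth).trans ?_
    rw [nsmul_eq_mul]
    refine mul_le_mul_of_nonneg_right ?_ (by positivity)
    exact_mod_cast card_filter_le _ _
  have htT : (t : ℝ) ≤ T := by exact_mod_cast hg1
  have hT0 : (0 : ℝ) ≤ T := by positivity
  obtain ⟨D, hD⟩ : ∃ D : ℝ, D = (m.divisors.card : ℝ) := ⟨_, rfl⟩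
  rw [← hD] at hs1 hs2 hD1 ⊢
  have h1 : |∑ n ∈ (Icc 1 t).filter (fun n => n ≡ c [MOD m]), FN N n| ≤ 2 * (D * T / (m.totient * K ^ (A + 2))) := by
    refine hcls.trans ?_
    have e1 : 2 * (D * T / (m.totient * K ^ (A + 2))) = 1 / (m.totient : ℝ) * (2 * (D * (T / K ^ (A + 2)))) := by
      field_simp
    rw [e1]
    refine mul_le_mul_of_nonneg_left ?_ (by positivity)
    have e2 : D * (t / K ^ (A + 2)) ≤ D * (T / K ^ (A + 2)) :=
      mul_le_mul_of_nonneg_left (div_le_div_of_nonneg_right htT hP.le) (by linarith)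
    linarith
  have h2 : ((T : ℝ) - t) / m + 1 ≤ 3 * (D * T / (m.totient * K ^ (A + 2))) := by
    have hm1' : (1 : ℝ) ≤ m := by exact_mod_cast hm1
    have e1 : ((T : ℝ) - t) / m ≤ (T * (1 / K ^ (A + 2)) + 1) / m := div_le_div_of_nonneg_right hg3 hm0.le
    have e2 : 1 / (m : ℝ) ≤ 1 := by rw [div_le_one hm0]; exact hm1'
    have e3 : (1 : ℝ) ≤ T / (m * K ^ (A + 2)) := by
      have h4 : (m : ℝ) * K ^ (A + 2) ≤ T := by
        have h5 : (N : ℝ) ^ ((1 : ℝ) / 1000) * (N : ℝ) ^ ((1 : ℝ) / 8) ≤ (N : ℝ) ^ ((1 : ℝ) / 7) := by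
          rw [← Real.rpow_add hNp]
          exact Real.rpow_le_rpow_of_exponent_le hNr (by norm_num)
        calc (m : ℝ) * K ^ (A + 2) ≤ (N : ℝ) ^ ((1 : ℝ) / 1000) * (N : ℝ) ^ ((1 : ℝ) / 8) :=
              mul_le_mul hm2 hK8 hP.le (by positivity)
          _ ≤ _ := h5.trans hT1
      rw [le_div_iff₀ (by positivity), one_mul]
      exact h4
    have e4 : (T * (1 / K ^ (A + 2)) + 1) / (m : ℝ) = T / (m * K ^ (A + 2)) + 1 / m := by field_simp
    rw [e4] at e1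
    have e5 : T / (m * K ^ (A + 2)) ≤ D * T / (m.totient * K ^ (A + 2)) := by
      rw [div_le_div_iff₀ (by positivity) (by positivity)]
      have e6 : (m.totient : ℝ) * K ^ (A + 2) ≤ m * K ^ (A + 2) := mul_le_mul_of_nonneg_right hφm hP.le
      have e7 : (T : ℝ) ≤ D * T := by nlinarith
      exact mul_le_mul e7 e6 (by positivity) (by positivity)
    linarith
  have h3 := plap_diff N m c t T hm1 hg1
  have h4 : 5 * (D * T / (m.totient * K ^ (A + 2))) ≤ D * T / (m.totient * K ^ A) := by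
    have e1 : (m.totient : ℝ) * K ^ (A + 2) = m.totient * K ^ A * K ^ 2 := by rw [pow_add]; ring
    rw [e1, ← div_div, ← mul_div_assoc, div_le_iff₀ (by positivity)]
    have e2 : 0 ≤ D * T / (m.totient * K ^ A) := by positivity
    nlinarith [mul_nonneg e2 (show 0 ≤ K ^ 2 - 9 by nlinarith)]
  linarith

theorem lap (A : ℕ) : ∃ N0 : ℕ, ∀ N : ℕ, N0 ≤ N → N.Prime → ∀ m : ℕ, 1 ≤ m → (m : ℝ) ≤ (N : ℝ) ^ ((1 : ℝ) / 1000) →
    (∀ f ∈ Bf N A, ¬ f ∣ m) → ∀ c T : ℕ, T < N →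
    |∑ n ∈ (Icc 1 T).filter (fun n => n ≡ c [MOD m]), lam n| ≤ (m.divisors.card : ℝ) * N / (m.totient * Real.log N ^ A) := by
  obtain ⟨N1, hN1⟩ := lap_cop A
  have hev := ((plap_ev_log_ge 3).and ((plap_ev_log_pow A (1 / 8) (by norm_num) 1 one_pos).and
    (Filter.eventually_ge_atTop 1)))
  obtain ⟨N2, hN2⟩ := Filter.eventually_atTop.mp hev
  refine ⟨max N1 N2, fun N hN hNpr m hm1 hm2 hbad c T hT => ?_⟩
  obtain ⟨hK3, hK8, hN1'⟩ := hN2 N (le_of_max_le_right hN)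
  have hlc := hN1 N (le_of_max_le_left hN)
  rw [one_mul] at hK8
  obtain ⟨K, hKd⟩ : ∃ K : ℝ, K = Real.log N := ⟨_, rfl⟩
  rw [← hKd] at hK3 hK8 hlc ⊢
  have hK0 : 0 < K := by linarith
  have hNr : (1 : ℝ) ≤ N := by exact_mod_cast hN1'
  have hNp : (0 : ℝ) < N := by linarith
  have hP : (0 : ℝ) < K ^ A := pow_pos hK0 _
  have hg0 : 0 < c.gcd m := Nat.gcd_pos_of_pos_right _ hm1
  have hcop := Nat.coprime_div_gcd_div_gcd hg0
  obtain ⟨g, hg⟩ : ∃ g : ℕ, g = c.gcd m := ⟨_, rfl⟩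
  obtain ⟨c', hc'⟩ : g ∣ c := by rw [hg]; exact Nat.gcd_dvd_left c m
  obtain ⟨m', hm'⟩ : g ∣ m := by rw [hg]; exact Nat.gcd_dvd_right c m
  rw [← hg] at hg0 hcop
  rw [show c / g = c' by rw [hc', Nat.mul_div_cancel_left _ hg0], show m / g = m' by rw [hm', Nat.mul_div_cancel_left _ hg0]] at hcop
  have hm'1 : 1 ≤ m' := by
    rcases Nat.eq_zero_or_pos m' with h | h
    · rw [h, mul_zero] at hm'; omega
    · exact h
  have hm'm : m' ∣ m := ⟨g, by rw [hm', mul_comm]⟩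
  have hm'le : m' ≤ m := Nat.le_of_dvd hm1 hm'm
  have hsum : ∑ n ∈ (Icc 1 T).filter (fun n => n ≡ c [MOD m]), lam n =
      lam g * ∑ n ∈ (Icc 1 (T / g)).filter (fun n => n ≡ c' [MOD m']), FN N n := by
    rw [mul_sum]
    refine sum_nbij' (fun n => n / g) (fun n => g * n) ?_ ?_ ?_ ?_ ?_
    · intro n hn
      rw [mem_filter, mem_Icc] at hn ⊢
      obtain ⟨⟨h1, h2⟩, h3⟩ := hn
      obtain ⟨k, rfl⟩ : g ∣ n := (h3.dvd_iff ⟨m', hm'⟩).mpr ⟨c', hc'⟩
      rw [Nat.mul_div_cancel_left _ hg0]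
      refine ⟨⟨?_, ?_⟩, ?_⟩
      · rcases Nat.eq_zero_or_pos k with h | h
        · rw [h, mul_zero] at h1; omega
        · exact h
      · rw [Nat.le_div_iff_mul_le hg0, mul_comm]; exact h2
      · rw [hc', hm'] at h3
        exact Nat.ModEq.mul_left_cancel' (by omega) h3
    · intro n hn
      rw [mem_filter, mem_Icc] at hn ⊢
      obtain ⟨⟨h1, h2⟩, h3⟩ := hn
      refine ⟨⟨Nat.mul_pos hg0 h1, ?_⟩, ?_⟩
      · rw [Nat.le_div_iff_mul_le hg0, mul_comm] at h2; exact h2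
      · rw [hc', hm']
        exact h3.mul_left' g
    · intro n hn
      rw [mem_filter] at hn
      exact Nat.mul_div_cancel' ((hn.2.dvd_iff ⟨m', hm'⟩).mpr ⟨c', hc'⟩)
    · intro n _
      exact Nat.mul_div_cancel_left n hg0
    · intro n hn
      rw [mem_filter, mem_Icc] at hn
      obtain ⟨⟨h1, h2⟩, h3⟩ := hn
      obtain ⟨k, rfl⟩ : g ∣ n := (h3.dvd_iff ⟨m', hm'⟩).mpr ⟨c', hc'⟩
      have hk1 : 1 ≤ k := by
        rcases Nat.eq_zero_or_pos k with h | h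
        · rw [h, mul_zero] at h1; omega
        · exact h
      have hkN : k < N := lt_of_le_of_lt ((Nat.le_mul_of_pos_left k hg0).trans h2) hT
      have hkc : k.Coprime N := by
        rw [Nat.coprime_comm, hNpr.coprime_iff_not_dvd]
        exact fun h => absurd (Nat.le_of_dvd hk1 h) (by omega)
      rw [Nat.mul_div_cancel_left _ hg0]
      unfold FN
      rw [if_pos hkc]
      exact Pool.Agent.Lib.MP_45349e_nt.LS.lam_mul g k (by omega) (by omega)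
  rw [hsum, abs_mul, Pool.Agent.Lib.MP_45349e_nt.LS.abs_lam, one_mul]
  have hφ0 : (0 : ℝ) < m.totient := by exact_mod_cast Nat.totient_pos.mpr hm1
  have hφ0' : (0 : ℝ) < m'.totient := by exact_mod_cast Nat.totient_pos.mpr hm'1
  have hφm : (m.totient : ℝ) ≤ m := by exact_mod_cast Nat.totient_le m
  have hD1 : (1 : ℝ) ≤ m.divisors.card := by
    exact_mod_cast Finset.card_pos.mpr ⟨1, Nat.one_mem_divisors.mpr (by omega)⟩
  have hg1 : (1 : ℝ) ≤ g := by exact_mod_cast hg0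
  by_cases hcase : (N : ℝ) ^ ((1 : ℝ) / 7) ≤ ((T / g : ℕ) : ℝ)
  · have h1 := hlc m' hm'1 (le_trans (by exact_mod_cast hm'le) hm2) (fun f hf hd => hbad f hf (hd.trans hm'm)) c' (T / g) hcop
      hcase ((Nat.div_le_self T g).trans hT.le)
    refine h1.trans ?_
    have h2 : (m'.divisors.card : ℝ) ≤ m.divisors.card := by
      exact_mod_cast card_le_card (Nat.divisors_subset_of_dvd (by omega) hm'm)
    have h3 : (m.totient : ℝ) ≤ g * m'.totient := by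
      rw [hm']
      exact_mod_cast plap_tot g m'
    have h4 : ((T / g : ℕ) : ℝ) * g ≤ N := by
      have : T / g * g ≤ N := (Nat.div_mul_le_self T g).trans hT.le
      exact_mod_cast this
    have h5 : (0 : ℝ) ≤ ((T / g : ℕ) : ℝ) := Nat.cast_nonneg _
    have h6 : (0 : ℝ) ≤ (m'.divisors.card : ℝ) := Nat.cast_nonneg _
    generalize ((T / g : ℕ) : ℝ) = x at h4 h5 ⊢
    generalize (m'.divisors.card : ℝ) = d' at h2 h6 ⊢
    generalize (m.divisors.card : ℝ) = d at h2 hD1 ⊢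
    generalize (m'.totient : ℝ) = f' at h3 hφ0' ⊢
    generalize (m.totient : ℝ) = f at h3 hφ0 ⊢
    rw [div_le_div_iff₀ (mul_pos hφ0' hP) (mul_pos hφ0 hP)]
    have h7 : 0 ≤ d * x := mul_nonneg (by linarith) h5
    calc d' * x * (f * K ^ A) ≤ d * x * (g * f' * K ^ A) :=
            mul_le_mul (mul_le_mul_of_nonneg_right h2 h5) (mul_le_mul_of_nonneg_right h3 hP.le)
              (mul_nonneg hφ0.le hP.le) h7
      _ = d * (x * g) * (f' * K ^ A) := by ring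
      _ ≤ d * N * (f' * K ^ A) :=
            mul_le_mul_of_nonneg_right (mul_le_mul_of_nonneg_left h4 (by linarith)) (mul_nonneg hφ0'.le hP.le)
  · rw [not_le] at hcase
    have h1 : |∑ n ∈ (Icc 1 (T / g)).filter (fun n => n ≡ c' [MOD m']), FN N n| ≤ ((T / g : ℕ) : ℝ) := by
      refine (abs_sum_le_sum_abs _ _).trans ?_
      refine (sum_le_card_nsmul _ _ 1 (fun n _ => plap_abs_FN N n)).trans ?_
      rw [nsmul_eq_mul, mul_one]
      have := (card_filter_le (Icc 1 (T / g)) (fun n => n ≡ c' [MOD m']))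
      rw [Nat.card_Icc, Nat.add_sub_cancel] at this
      exact_mod_cast this
    refine (h1.trans hcase.le).trans ?_
    rw [le_div_iff₀ (by positivity)]
    have h2 : (N : ℝ) ^ ((1 : ℝ) / 7) * ((N : ℝ) ^ ((1 : ℝ) / 1000) * (N : ℝ) ^ ((1 : ℝ) / 8)) ≤ N := by
      rw [← Real.rpow_add hNp, ← Real.rpow_add hNp]
      calc (N : ℝ) ^ ((1 : ℝ) / 7 + (1 / 1000 + 1 / 8)) ≤ (N : ℝ) ^ (1 : ℝ) :=
            Real.rpow_le_rpow_of_exponent_le hNr (by norm_num)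
        _ = N := Real.rpow_one _
    have h3 : (m.totient : ℝ) * K ^ A ≤ (N : ℝ) ^ ((1 : ℝ) / 1000) * (N : ℝ) ^ ((1 : ℝ) / 8) :=
      mul_le_mul (hφm.trans hm2) hK8 hP.le (by positivity)
    calc (N : ℝ) ^ ((1 : ℝ) / 7) * (m.totient * K ^ A) ≤
          (N : ℝ) ^ ((1 : ℝ) / 7) * ((N : ℝ) ^ ((1 : ℝ) / 1000) * (N : ℝ) ^ ((1 : ℝ) / 8)) :=
            mul_le_mul_of_nonneg_left h3 (by positivity)
      _ ≤ N := h2
      _ = 1 * N := (one_mul _).symm
      _ ≤ m.divisors.card * N := mul_le_mul_of_nonneg_right hD1 hNp.le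

end Pool.Agent.Lib.EX.AX
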