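import Pool.Agent.Lib.MP_092512_nt.P3.D0
set_option autoImplicit false
open Finset
namespace Pool.Agent.Lib.EX

theorem pcnt : ∃ y0 : ℕ, ∀ y : ℕ, y0 ≤ y →
    (y : ℝ) / (2 * Real.log y) ≤ (((Ioc y (2 * y)).filter Nat.Prime).card : ℝ) := by
  obtain ⟨Y0, hY0, hth⟩ := Pool.Agent.Lib.MP_092512_nt.P3.D0_theta_asymp (1 / 12) (by norm_num)
  refine ⟨⌈Y0⌉₊ + 4, fun y hy => ?_⟩
  have hyY : Y0 ≤ (y : ℝ) := by
    have h1 : Y0 ≤ (⌈Y0⌉₊ : ℝ) := Nat.le_ceil _
    have h2 : (⌈Y0⌉₊ : ℝ) ≤ (y : ℝ) := by exact_mod_cast (by omega : ⌈Y0⌉₊ ≤ y)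
    linarith
  have hy4 : (4 : ℝ) ≤ (y : ℝ) := by exact_mod_cast (by omega : 4 ≤ y)
  have hy0 : (0 : ℝ) < (y : ℝ) := by linarith
  have h1 := hth (y : ℝ) hyY
  have h2 := hth (((2 * y : ℕ)) : ℝ) (by push_cast; linarith)
  rw [abs_le] at h1 h2
  have hth1 : Chebyshev.theta ((y : ℕ) : ℝ) = ∑ p ∈ (Ioc 0 y).filter Nat.Prime, Real.log p := by
    unfold Chebyshev.theta
    rw [Nat.floor_natCast]
  have hth2 : Chebyshev.theta ((2 * y : ℕ) : ℝ) = ∑ p ∈ (Ioc 0 (2 * y)).filter Nat.Prime, Real.log p := by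
    unfold Chebyshev.theta
    rw [Nat.floor_natCast]
  have hsplit : ∑ p ∈ (Ioc 0 (2 * y)).filter Nat.Prime, Real.log p =
      ∑ p ∈ (Ioc 0 y).filter Nat.Prime, Real.log p + ∑ p ∈ (Ioc y (2 * y)).filter Nat.Prime, Real.log p := by
    rw [← Finset.sum_union]
    · congr 1
      ext p
      simp only [mem_filter, mem_Ioc, mem_union]
      constructor
      · rintro ⟨⟨h1, h2⟩, h3⟩
        by_cases h : p ≤ y
        · exact Or.inl ⟨⟨h1, h⟩, h3⟩
        · exact Or.inr ⟨⟨by omega, h2⟩, h3⟩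
      · rintro (⟨⟨h1, h2⟩, h3⟩ | ⟨⟨h1, h2⟩, h3⟩)
        · exact ⟨⟨h1, by omega⟩, h3⟩
        · exact ⟨⟨by omega, h2⟩, h3⟩
    · rw [Finset.disjoint_left]
      intro p hp hp'
      simp only [mem_filter, mem_Ioc] at hp hp'
      omega
  have hle : ∑ p ∈ (Ioc y (2 * y)).filter Nat.Prime, Real.log p ≤
      (((Ioc y (2 * y)).filter Nat.Prime).card : ℝ) * Real.log (2 * y) := by
    rw [← nsmul_eq_mul]
    apply Finset.sum_le_card_nsmul
    intro p hp
    simp only [mem_filter, mem_Ioc] at hp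
    apply Real.log_le_log
    · exact_mod_cast hp.2.pos
    · exact_mod_cast hp.1.2
  rw [hth1] at h1
  rw [hth2, hsplit] at h2
  push_cast at h2
  have h3 : (3 / 4 : ℝ) * y ≤ (((Ioc y (2 * y)).filter Nat.Prime).card : ℝ) * Real.log (2 * y) := by
    linarith [h1.2, h2.1]
  have hl4 : Real.log 4 = 2 * Real.log 2 := by
    rw [show (4 : ℝ) = 2 ^ 2 by norm_num, Real.log_pow]
    push_cast
    ring
  have hl : Real.log 4 ≤ Real.log y := Real.log_le_log (by norm_num) hy4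
  have hl2 : 0 < Real.log 2 := Real.log_pos (by norm_num)
  have hlog : Real.log (2 * y) ≤ 3 / 2 * Real.log y := by
    rw [Real.log_mul (by norm_num) hy0.ne']
    linarith
  have hly : 0 < Real.log y := by linarith
  rw [div_le_iff₀ (by positivity)]
  have hc : (0 : ℝ) ≤ (((Ioc y (2 * y)).filter Nat.Prime).card : ℝ) := Nat.cast_nonneg _
  have h4 := mul_le_mul_of_nonneg_left hlog hc
  nlinarith

end Pool.Agent.Lib.EX
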