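import Pool.Agent.Lib.MP_61161c_nt.EX.Dd

/-!
# EX, module Pp: abstract second moment lemma

PROOF. `X n = (∑_{θ : n ∈ S θ} m θ) / (|Θ| ρ)`. Then `∑_{S0} X ≥ (1 - 3η) B`, `∑_{S0} X^2 ≤ (1 + 8η) B`, `|S0| ≤ (1 + η) B`, so `∑_{S0} (X - 1)^2 ≤ 15 η B`.
A bad `n` with `X n < 1/2` has `(X n - 1)^2 ≥ 1/4`: at most `60 η B` of them. For a bad `n` with `X n ≥ 1/2` the same sum over the `θ` with
`n ∈ V θ` equals `X n ≥ 1/2`, and the sum over all `n` of these is `≤ δ B`: at most `2 δ B` of them.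
-/

set_option autoImplicit false

open Finset

namespace Pool.Agent.Lib.EX

theorem pp {ι α : Type*} [DecidableEq α] (S0 : Finset α) (Θ : Finset ι) (m : ι → ℝ) (S V : ι → Finset α) (B rho η δ : ℝ)
    (hΘ : Θ.Nonempty) (hm : ∀ θ ∈ Θ, 0 ≤ m θ) (hB : 0 ≤ B) (hr : 0 < rho) (hη : 0 ≤ η)
    (hS : ∀ θ ∈ Θ, S θ ⊆ S0) (hV : ∀ θ ∈ Θ, V θ ⊆ S θ) (h0 : (S0.card : ℝ) ≤ (1 + η) * B)
    (h1 : ∀ θ ∈ Θ, (1 - 3 * η) * (rho * B) ≤ m θ * (S θ).card)
    (h2 : ∑ θ ∈ Θ, ∑ θ' ∈ Θ, m θ * m θ' * (S θ ∩ S θ').card ≤ (1 + 8 * η) * (Θ.card ^ 2 * rho ^ 2 * B))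
    (h3 : ∑ θ ∈ Θ, m θ * (V θ).card ≤ δ * (Θ.card * rho * B))
    (Bad : Finset α) (hb : Bad ⊆ S0) (hbad : ∀ n ∈ Bad, ∀ θ ∈ Θ, n ∈ S θ → n ∈ V θ) :
    (Bad.card : ℝ) ≤ (60 * η + 2 * δ) * B := by
  classical
  have hcard : (0 : ℝ) < Θ.card := by exact_mod_cast hΘ.card_pos
  set M : ℝ := Θ.card * rho with hM
  have hM0 : 0 < M := mul_pos hcard hr
  set f : α → ℝ := fun n => ∑ θ ∈ Θ, if n ∈ S θ then m θ else 0 with hf
  set g : α → ℝ := fun n => ∑ θ ∈ Θ, if n ∈ V θ then m θ else 0 with hg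
  have hcnt : ∀ T : Finset α, T ⊆ S0 → ∀ c : ℝ,
      ∑ n ∈ S0, (if n ∈ T then c else 0) = c * T.card := by
    intro T hT c
    rw [← Finset.sum_filter, Finset.sum_const, nsmul_eq_mul, Finset.filter_mem_eq_inter,
      Finset.inter_eq_right.2 hT, mul_comm]
  -- first moment
  have s1 : ∑ n ∈ S0, f n = ∑ θ ∈ Θ, m θ * (S θ).card := by
    rw [hf, Finset.sum_comm]
    exact Finset.sum_congr rfl fun θ hθ => hcnt _ (hS θ hθ) _
  have s1g : ∑ n ∈ S0, g n = ∑ θ ∈ Θ, m θ * (V θ).card := by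
    rw [hg, Finset.sum_comm]
    exact Finset.sum_congr rfl fun θ hθ => hcnt _ ((hV θ hθ).trans (hS θ hθ)) _
  -- second moment
  have s2 : ∑ n ∈ S0, f n ^ 2 = ∑ θ ∈ Θ, ∑ θ' ∈ Θ, m θ * m θ' * (S θ ∩ S θ').card := by
    have e1 : ∀ n ∈ S0, f n ^ 2 =
        ∑ θ ∈ Θ, ∑ θ' ∈ Θ, if n ∈ S θ ∩ S θ' then m θ * m θ' else 0 := by
      intro n _
      rw [hf, sq, Finset.sum_mul_sum]
      refine Finset.sum_congr rfl fun θ _ => Finset.sum_congr rfl fun θ' _ => ?_
      simp only [Finset.mem_inter]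
      by_cases h1 : n ∈ S θ <;> by_cases h2 : n ∈ S θ' <;> simp [h1, h2]
    rw [Finset.sum_congr rfl e1, Finset.sum_comm]
    refine Finset.sum_congr rfl fun θ hθ => ?_
    rw [Finset.sum_comm]
    exact Finset.sum_congr rfl fun θ' _ =>
      hcnt _ (Finset.inter_subset_left.trans (hS θ hθ)) _
  have t1 : (1 - 3 * η) * M * B ≤ ∑ n ∈ S0, f n := by
    rw [s1]
    calc (1 - 3 * η) * M * B = ∑ _θ ∈ Θ, (1 - 3 * η) * (rho * B) := by
          rw [Finset.sum_const, nsmul_eq_mul, hM]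
          ring
      _ ≤ _ := Finset.sum_le_sum h1
  have t2 : ∑ n ∈ S0, f n ^ 2 ≤ (1 + 8 * η) * (M ^ 2 * B) := by
    rw [s2]
    refine h2.trans (le_of_eq ?_)
    rw [hM]
    ring
  have tv : ∑ n ∈ S0, (f n - M) ^ 2 ≤ 15 * η * (M ^ 2 * B) := by
    have e1 : ∑ n ∈ S0, (f n - M) ^ 2 =
        ∑ n ∈ S0, f n ^ 2 - 2 * M * ∑ n ∈ S0, f n + M ^ 2 * S0.card := by
      have e2 : ∀ n ∈ S0, (f n - M) ^ 2 = f n ^ 2 - 2 * M * f n + M ^ 2 := fun n _ => by ring
      rw [Finset.sum_congr rfl e2, Finset.sum_add_distrib, Finset.sum_sub_distrib,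
        ← Finset.mul_sum, Finset.sum_const, nsmul_eq_mul]
      ring
    rw [e1]
    have e3 := mul_le_mul_of_nonneg_left t1 (show 0 ≤ 2 * M by linarith)
    have e4 := mul_le_mul_of_nonneg_left h0 (sq_nonneg M)
    nlinarith
  -- the bad elements
  have hsplit : (Bad.card : ℝ) = ((Bad.filter (fun n => f n < M / 2)).card : ℝ) +
      ((Bad.filter (fun n => ¬ f n < M / 2)).card : ℝ) := by
    exact_mod_cast (Finset.card_filter_add_card_filter_not (s := Bad) (fun n => f n < M / 2)).symm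
  have b1 : ((Bad.filter (fun n => f n < M / 2)).card : ℝ) ≤ 60 * η * B := by
    have e1 : ((Bad.filter (fun n => f n < M / 2)).card : ℝ) * (M ^ 2 / 4) ≤
        ∑ n ∈ S0, (f n - M) ^ 2 := by
      calc ((Bad.filter (fun n => f n < M / 2)).card : ℝ) * (M ^ 2 / 4) =
            ∑ _n ∈ Bad.filter (fun n => f n < M / 2), M ^ 2 / 4 := by
            rw [Finset.sum_const, nsmul_eq_mul]
        _ ≤ ∑ n ∈ Bad.filter (fun n => f n < M / 2), (f n - M) ^ 2 := by
            refine Finset.sum_le_sum fun n hn => ?_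
            have := (Finset.mem_filter.1 hn).2
            nlinarith
        _ ≤ ∑ n ∈ S0, (f n - M) ^ 2 :=
            Finset.sum_le_sum_of_subset_of_nonneg ((Finset.filter_subset _ _).trans hb)
              fun n _ _ => sq_nonneg _
    have e2 := e1.trans tv
    have hM2 : 0 < M ^ 2 := by positivity
    refine le_of_mul_le_mul_right ?_ hM2
    nlinarith
  have b2 : ((Bad.filter (fun n => ¬ f n < M / 2)).card : ℝ) ≤ 2 * δ * B := by
    have hg0 : ∀ n, 0 ≤ g n := fun n => Finset.sum_nonneg fun θ hθ => by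
      split_ifs
      · exact hm θ hθ
      · exact le_rfl
    have e1 : ((Bad.filter (fun n => ¬ f n < M / 2)).card : ℝ) * (M / 2) ≤ ∑ n ∈ S0, g n := by
      calc ((Bad.filter (fun n => ¬ f n < M / 2)).card : ℝ) * (M / 2) =
            ∑ _n ∈ Bad.filter (fun n => ¬ f n < M / 2), M / 2 := by
            rw [Finset.sum_const, nsmul_eq_mul]
        _ ≤ ∑ n ∈ Bad.filter (fun n => ¬ f n < M / 2), g n := by
            refine Finset.sum_le_sum fun n hn => ?_
            obtain ⟨h5, h6⟩ := Finset.mem_filter.1 hn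
            refine (not_lt.1 h6).trans ?_
            refine Finset.sum_le_sum fun θ hθ => ?_
            by_cases h7 : n ∈ S θ
            · rw [if_pos h7, if_pos (hbad n h5 θ hθ h7)]
            · rw [if_neg h7]
              split_ifs
              · exact hm θ hθ
              · exact le_rfl
        _ ≤ ∑ n ∈ S0, g n :=
            Finset.sum_le_sum_of_subset_of_nonneg ((Finset.filter_subset _ _).trans hb)
              fun n _ _ => hg0 n
    rw [s1g] at e1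
    have e2 := e1.trans h3
    have e3 : δ * (Θ.card * rho * B) = δ * (M * B) := by rw [hM]
    rw [e3] at e2
    refine le_of_mul_le_mul_right ?_ hM0
    nlinarith
  rw [hsplit]
  linarith

end Pool.Agent.Lib.EX
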