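import Pool.Agent.Lib.MP_61161c_nt.EX.Tf

/-!
# EX, module Rs: the congruences of a path are one residue class modulo `q q'`

`q ∣ G n + h` and `q' ∣ eps G n + q g + h'` with `q`, `q'` coprime to each other and to `G.a`: Chinese remainder theorem.
-/

set_option autoImplicit false

open Finset

namespace Pool.Agent.Lib.EX

variable {e : Env} {k0 B cr : ℕ} {eps g : ℤ} {Ns qs : ℕ} {k : ℤ} {qlo qhi : ℕ} {s dl : ℝ} {a0 lo hi : ℤ}
  {t : Frm} {Fs : List Frm} {A L : ℕ} {G : Frm}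

/-- one linear congruence with coprime leading coefficient is one class -/
private theorem Rs_lin (m : ℕ) (hm : 0 < m) (a b : ℤ) (h : IsCoprime (m : ℤ) a) :
    ∃ c : ℕ, c < m ∧ ∀ n : ℕ, (m : ℤ) ∣ a * n + b ↔ n % m = c := by
  obtain ⟨u, v, huv⟩ := h
  have hm' : (0 : ℤ) < m := by exact_mod_cast hm
  have hc0 : 0 ≤ (-(v * b)) % (m : ℤ) := Int.emod_nonneg _ hm'.ne'
  have hc1 : (-(v * b)) % (m : ℤ) < m := Int.emod_lt_of_pos _ hm'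
  refine ⟨((-(v * b)) % (m : ℤ)).toNat, by omega, fun n => ?_⟩
  have h1 : n % m = ((-(v * b)) % (m : ℤ)).toNat ↔ ((n : ℤ)) % (m : ℤ) = (-(v * b)) % (m : ℤ) := by
    have h2 : ((n % m : ℕ) : ℤ) = (n : ℤ) % (m : ℤ) := by push_cast; rfl
    rw [← h2]
    omega
  rw [h1]
  constructor
  · intro h3
    have h4 : (m : ℤ) ∣ (n : ℤ) - (-(v * b)) := by
      have : (n : ℤ) - (-(v * b)) = v * (a * n + b) + m * (u * n) := by linear_combination (-(n : ℤ)) * huv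
      rw [this]
      exact dvd_add (h3.mul_left v) (dvd_mul_right _ _)
    exact (Int.ModEq.symm ((Int.modEq_iff_dvd).2 h4) : (n : ℤ) ≡ -(v * b) [ZMOD m])
  · intro h3
    have h4 : (m : ℤ) ∣ (n : ℤ) - (-(v * b)) := (Int.modEq_iff_dvd).1 (show -(v * b) ≡ (n : ℤ) [ZMOD m] from h3.symm)
    have : a * n + b = a * ((n : ℤ) - (-(v * b))) + m * (u * b) := by linear_combination (-b) * huv
    rw [this]
    exact dvd_add (h4.mul_left a) (dvd_mul_right _ _)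

/-- two classes with coprime moduli are one class -/
private theorem Rs_crt (m1 m2 c1 c2 : ℕ) (h1 : 0 < m1) (h2 : 0 < m2) (hc1 : c1 < m1) (hc2 : c2 < m2)
    (hco : m1.Coprime m2) : ∃ c : ℕ, c < m1 * m2 ∧ ∀ n : ℕ, (n % m1 = c1 ∧ n % m2 = c2) ↔ n % (m1 * m2) = c := by
  obtain ⟨x, hx1, hx2, hlt⟩ : ∃ x : ℕ, x ≡ c1 [MOD m1] ∧ x ≡ c2 [MOD m2] ∧ x < m1 * m2 :=
    ⟨(Nat.chineseRemainder hco c1 c2 : ℕ), (Nat.chineseRemainder hco c1 c2).2.1, (Nat.chineseRemainder hco c1 c2).2.2,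
      Nat.chineseRemainder_lt_mul hco c1 c2 h1.ne' h2.ne'⟩
  refine ⟨x, hlt, fun n => ?_⟩
  have e1 : n % m1 = c1 ↔ n ≡ x [MOD m1] := by
    unfold Nat.ModEq at hx1 ⊢
    rw [hx1, Nat.mod_eq_of_lt hc1]
  have e2 : n % m2 = c2 ↔ n ≡ x [MOD m2] := by
    unfold Nat.ModEq at hx2 ⊢
    rw [hx2, Nat.mod_eq_of_lt hc2]
  rw [e1, e2, Nat.modEq_and_modEq_iff_modEq_mul hco]
  unfold Nat.ModEq
  rw [Nat.mod_eq_of_lt hlt]

private theorem Rs_qlo (h : DH e k0 B cr eps g Ns qs k qlo qhi s dl a0 lo hi) : 0 < qlo := by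
  obtain ⟨h1, h2, -⟩ := h.hq2
  have h3 : 0 < |k| := abs_pos.2 h.hk
  omega

theorem rs (h : DH e k0 B cr eps g Ns qs k qlo qhi s dl a0 lo hi) {θ : Th} (hθ : θ ∈ e.TT qs qlo qhi k G.a) :
    ∃ c : ℕ, c < θ.mo k ∧ ∀ n : ℕ, θ.Dv eps g k G n ↔ n % θ.mo k = c := by
  obtain ⟨⟨hq1, -, hq3, -, -, -, -, hqq, hqa, hqa'⟩, -⟩ := tt_mem hθ
  have hlo := Rs_qlo h
  have hm1 : 0 < θ.q := by omega
  have hm2 : 0 < ((θ.q : ℤ) - k).natAbs := by omega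
  have hco : (θ.q).Coprime ((θ.q : ℤ) - k).natAbs := by
    have := Int.isCoprime_iff_gcd_eq_one.1 hqq
    rw [Int.gcd_eq_natAbs, Int.natAbs_natCast] at this
    exact this
  obtain ⟨c1, hc1, H1⟩ := Rs_lin θ.q hm1 G.a (G.b + (θ.n1' - θ.n1)) hqa
  have hqa2 : IsCoprime ((((θ.q : ℤ) - k).natAbs : ℕ) : ℤ) (eps * G.a) := by
    have h1 : IsCoprime ((θ.q : ℤ) - k) (eps * G.a) := by
      rcases h.heps with h1 | h1
      · rw [h1, one_mul]; exact hqa'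
      · rw [h1, neg_one_mul]; exact hqa'.neg_right
    rcases Int.natAbs_eq ((θ.q : ℤ) - k) with h2 | h2
    · rw [← h2]; exact h1
    · rw [h2] at h1
      exact (IsCoprime.neg_left_iff _ _).1 h1
  obtain ⟨c2, hc2, H2⟩ := Rs_lin ((θ.q : ℤ) - k).natAbs hm2 (eps * G.a)
    (eps * G.b + θ.q * g + (θ.n2' - θ.n2)) hqa2
  obtain ⟨c, hc, H⟩ := Rs_crt _ _ c1 c2 hm1 hm2 hc1 hc2 hco
  refine ⟨c, hc, fun n => ?_⟩
  have e1 : (θ.F2 G).ev n = G.a * n + (G.b + (θ.n1' - θ.n1)) := by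
    simp only [Th.F2, Frm.af, Frm.ev]; ring
  have e2 : (θ.F8 eps g G).ev n = eps * G.a * n + (eps * G.b + θ.q * g + (θ.n2' - θ.n2)) := by
    simp only [Th.F8, Th.F6, Frm.af, Frm.ev]; ring
  unfold Th.Dv Th.mo
  rw [e1, e2, ← Int.natAbs_dvd (a := (θ.q : ℤ) - k), H1 n, H2 n]
  exact H n

/-- two paths with coprime moduli: one class modulo the product -/
theorem rs2 (h : DH e k0 B cr eps g Ns qs k qlo qhi s dl a0 lo hi) {θ θ' : Th} (hθ : θ ∈ e.TT qs qlo qhi k G.a)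
    (hθ' : θ' ∈ e.TT qs qlo qhi k G.a) (hc : (θ.mo k).Coprime (θ'.mo k)) :
    ∃ c : ℕ, c < θ.mo k * θ'.mo k ∧ ∀ n : ℕ, (θ.Dv eps g k G n ∧ θ'.Dv eps g k G n) ↔ n % (θ.mo k * θ'.mo k) = c := by
  obtain ⟨c1, hc1, H1⟩ := rs h hθ
  obtain ⟨c2, hc2, H2⟩ := rs h hθ'
  obtain ⟨c, hc', H⟩ := Rs_crt _ _ c1 c2 (by omega) (by omega) hc1 hc2 hc
  refine ⟨c, hc', fun n => ?_⟩
  rw [H1 n, H2 n]
  exact H n

/-- size and goodness of the modulus -/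
theorem mo_F (he : e.Ok) (h : DH e k0 B cr eps g Ns qs k qlo qhi s dl a0 lo hi) {θ : Th}
    (hθ : θ ∈ e.TT qs qlo qhi k G.a) : Sf e.z (θ.mo k) ∧ e.Gd (θ.mo k) ∧ 0 < θ.mo k ∧ θ.mo k ≤ qhi ^ 2 ∧ qhi ^ 2 ≤ e.Y ^ 42 := by
  obtain ⟨⟨hq1, hq2, hq3, hq4, -, hg1, hg2, -, -, -⟩, -⟩ := tt_mem hθ
  have hlo := Rs_qlo h
  have hm1 : 0 < θ.q := by omega
  have hm2 : 0 < ((θ.q : ℤ) - k).natAbs := by omega
  have hcast : ((θ.mo k : ℕ) : ℤ) = (θ.q : ℤ) * ((θ.q : ℤ) - k) := by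
    unfold Th.mo
    rw [Nat.cast_mul, Int.natAbs_of_nonneg (by omega)]
  have hS : Sf e.z (θ.mo k) := by
    intro p hp hpz hd
    rw [hcast] at hd
    rcases (Nat.prime_iff_prime_int.1 hp).dvd_or_dvd hd with h1 | h1
    · exact hg1.1 p hp hpz h1
    · exact hg2.1 p hp hpz h1
  refine ⟨hS, ⟨hS, ?_⟩, ?_, ?_, ?_⟩
  · intro p hpB hd
    have hp := (he.bad.2 p hpB).1
    rw [hcast] at hd
    rcases (Nat.prime_iff_prime_int.1 hp).dvd_or_dvd hd with h1 | h1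
    · exact hg1.2 p hpB h1
    · exact hg2.2 p hpB h1
  · exact Nat.mul_pos hm1 hm2
  · unfold Th.mo
    rw [pow_two]
    exact Nat.mul_le_mul hq2 (by omega)
  · calc qhi ^ 2 ≤ (e.Y ^ 21) ^ 2 := Nat.pow_le_pow_left h.hq1 2
      _ = e.Y ^ 42 := by rw [← pow_mul]

end Pool.Agent.Lib.EX
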