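import Pool.Agent.Lib.MP_61161c_nt.EX.DDefs

/-!
# EX, block D: products of `k` primes of a set `Q` and one rough number, the counting step
-/

set_option autoImplicit false

open Finset

namespace Pool.Agent.Lib.EX

theorem Sf_mul_nat {z m n : ℕ} (hm : Sf z (m : ℤ)) (hn : Sf z (n : ℤ)) : Sf z ((m * n : ℕ) : ℤ) := by
  rw [Sf_nat] at hm hn ⊢
  intro p hp hpp hd
  rcases (Nat.Prime.dvd_mul hpp).mp hd with h | h
  · exact hm p hp hpp h
  · exact hn p hp hpp h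

theorem Sf_prime {z p : ℕ} (hp : p.Prime) (h : z < p) : Sf z (p : ℤ) := by
  rw [Sf_nat]
  intro q hq hqp hd
  have := (Nat.prime_dvd_prime_iff_eq hqp hp).mp hd
  omega

theorem Sf_one {z : ℕ} : Sf z ((1 : ℕ) : ℤ) := by
  rw [Sf_nat]
  intro q hq hqp hd
  exact hqp.one_lt.ne' (Nat.dvd_one.mp hd)

/-- few large prime factors -/
theorem few_primes (X κ : ℝ) (hX : 1 < X) (hκ : 0 < κ) (m : ℕ) (hm : 1 ≤ m) (hmX : (m : ℝ) ≤ X) :
    ((m.primeFactors.filter (fun p : ℕ => X ^ κ < (p : ℝ))).card : ℝ) ≤ 1 / κ := by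
  classical
  set S := m.primeFactors.filter (fun p : ℕ => X ^ κ < (p : ℝ)) with hS
  have h1 : ∏ p ∈ S, p ∣ m := by
    refine Nat.dvd_trans (prod_dvd_prod_of_subset _ _ _ (filter_subset _ _)) (Nat.prod_primeFactors_dvd m)
  have h2 : ((∏ p ∈ S, p : ℕ) : ℝ) ≤ m := by exact_mod_cast Nat.le_of_dvd (by omega) h1
  have h3 : (X ^ κ) ^ S.card ≤ ((∏ p ∈ S, p : ℕ) : ℝ) := by
    push_cast
    rw [← prod_const]
    exact prod_le_prod (fun _ _ => by positivity) fun p hp => (mem_filter.mp hp).2.le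
  have h4 : X ^ (κ * S.card) ≤ X ^ (1 : ℝ) := by
    rw [Real.rpow_one, Real.rpow_mul (by linarith), Real.rpow_natCast]
    linarith
  have h5 := (Real.rpow_le_rpow_left_iff hX).mp h4
  rw [le_div_iff₀ hκ]
  linarith

open Classical in
theorem smo_core (X κ : ℝ) (hX : 1 < X) (hκ : 0 < κ) (k z : ℕ) (Q Bad : Finset ℕ)
    (hQ : ∀ p ∈ Q, p.Prime ∧ X ^ κ < (p : ℝ) ∧ z < p) (g : ℕ → ℝ)
    (hg : ∀ m n : ℕ, 1 ≤ m → 1 ≤ n → g (m * n) = g m * g n) (hgQ : ∀ p ∈ Q, g p = 1)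
    (y1 y2 A B : ℝ) (hy2 : 0 < y2) (hy2X : y2 ≤ X)
    (hg1 : ∀ u ∈ Fintype.piFinset (fun _ : Fin k => Q), ∀ v : ℕ, 1 < v → (v : ℝ) ≤ y2 / ((∏ i, u i : ℕ) : ℝ) →
      Sf z (v : ℤ) → v ∉ Bad → g v = 1)
    (hcnt : ∀ u ∈ Fintype.piFinset (fun _ : Fin k => Q), A * (y2 / ((∏ i, u i : ℕ) : ℝ)) ≤
      (((Icc 1 ⌊y2 / ((∏ i, u i : ℕ) : ℝ)⌋₊).filter fun v : ℕ => y1 / ((∏ i, u i : ℕ) : ℝ) < v ∧ 1 < v ∧
        Sf z (v : ℤ)).card : ℝ))
    (hbad : ∑ u ∈ Bad, 1 / (u : ℝ) ≤ B) :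
    (A - B) * y2 * (∑ p ∈ Q, 1 / (p : ℝ)) ^ k ≤ (1 / κ) ^ k *
      (((Icc 1 ⌊y2⌋₊).filter fun n : ℕ => y1 < n ∧ Sf z (n : ℤ) ∧ g n = 1).card : ℝ) := by
  set T := (Icc 1 ⌊y2⌋₊).filter fun n : ℕ => y1 < n ∧ Sf z (n : ℤ) ∧ g n = 1 with hT
  set Uk := Fintype.piFinset (fun _ : Fin k => Q) with hUk
  set Vu : (Fin k → ℕ) → Finset ℕ := fun u => (Icc 1 ⌊y2 / ((∏ i, u i : ℕ) : ℝ)⌋₊).filter
    fun v : ℕ => y1 / ((∏ i, u i : ℕ) : ℝ) < v ∧ 1 < v ∧ Sf z (v : ℤ) ∧ v ∉ Bad with hVu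
  have hmemU : ∀ u ∈ Uk, ∀ i, u i ∈ Q := fun u hu => Fintype.mem_piFinset.mp hu
  have hPpos : ∀ u ∈ Uk, 0 < ∏ i, u i := fun u hu =>
    Finset.prod_pos fun i _ => (hQ _ (hmemU u hu i)).1.pos
  -- sum of 1/Π
  have hsumP : ∑ u ∈ Uk, 1 / ((∏ i, u i : ℕ) : ℝ) = (∑ p ∈ Q, 1 / (p : ℝ)) ^ k := by
    have h := Finset.prod_univ_sum (fun _ : Fin k => Q) (fun _ p => 1 / (p : ℝ))
    rw [prod_const, card_univ, Fintype.card_fin] at h
    rw [h]
    refine sum_congr rfl fun u _ => ?_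
    rw [prod_div_distrib, prod_const_one]
    push_cast
    rfl
  -- lower bound for the number of pairs
  have hlow : ∀ u ∈ Uk, (A - B) * (y2 / ((∏ i, u i : ℕ) : ℝ)) ≤ ((Vu u).card : ℝ) := by
    intro u hu
    set Pi : ℝ := ((∏ i, u i : ℕ) : ℝ) with hPi
    have hPi0 : 0 < Pi := Nat.cast_pos.mpr (hPpos u hu)
    have h1 := hcnt u hu
    rw [← hPi] at h1
    set F := (Icc 1 ⌊y2 / Pi⌋₊).filter fun v : ℕ => y1 / Pi < v ∧ 1 < v ∧ Sf z (v : ℤ) with hF
    have h2 : F ⊆ Vu u ∪ Bad.filter (fun v : ℕ => 1 ≤ v ∧ (v : ℝ) ≤ y2 / Pi) := by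
      intro v hv
      rw [hF, mem_filter, mem_Icc] at hv
      rw [mem_union]
      by_cases hb : v ∈ Bad
      · right
        rw [mem_filter]
        exact ⟨hb, hv.1.1, (Nat.le_floor_iff (by positivity)).mp hv.1.2⟩
      · left
        rw [hVu]
        simp only
        rw [mem_filter, mem_Icc]
        exact ⟨hv.1, hv.2.1, hv.2.2.1, hv.2.2.2, hb⟩
    have h3 : (F.card : ℝ) ≤ ((Vu u).card : ℝ) + ((Bad.filter (fun v : ℕ => 1 ≤ v ∧ (v : ℝ) ≤ y2 / Pi)).card : ℝ) := by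
      exact_mod_cast (card_le_card h2).trans (card_union_le _ _)
    have h4 : ((Bad.filter (fun v : ℕ => 1 ≤ v ∧ (v : ℝ) ≤ y2 / Pi)).card : ℝ) ≤ B * (y2 / Pi) := by
      calc ((Bad.filter (fun v : ℕ => 1 ≤ v ∧ (v : ℝ) ≤ y2 / Pi)).card : ℝ)
          = ∑ v ∈ Bad.filter (fun v : ℕ => 1 ≤ v ∧ (v : ℝ) ≤ y2 / Pi), (1 : ℝ) := by
            rw [sum_const, nsmul_eq_mul, mul_one]
        _ ≤ ∑ v ∈ Bad.filter (fun v : ℕ => 1 ≤ v ∧ (v : ℝ) ≤ y2 / Pi), (y2 / Pi) * (1 / (v : ℝ)) := by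
            refine sum_le_sum fun v hv => ?_
            have h5 := (mem_filter.mp hv).2
            have h6 : (0 : ℝ) < v := by exact_mod_cast h5.1
            rw [mul_one_div, le_div_iff₀ h6]
            linarith [h5.2]
        _ ≤ ∑ v ∈ Bad, (y2 / Pi) * (1 / (v : ℝ)) :=
            sum_le_sum_of_subset_of_nonneg (filter_subset _ _) fun _ _ _ => by positivity
        _ = (∑ v ∈ Bad, 1 / (v : ℝ)) * (y2 / Pi) := by rw [← mul_sum, mul_comm]
        _ ≤ _ := mul_le_mul_of_nonneg_right hbad (by positivity)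
    linarith
  set Om : Finset (Σ _ : Fin k → ℕ, ℕ) := Uk.sigma Vu with hOm
  have hOmcard : (A - B) * y2 * (∑ p ∈ Q, 1 / (p : ℝ)) ^ k ≤ (Om.card : ℝ) := by
    rw [hOm, card_sigma]
    push_cast
    rw [← hsumP, mul_sum]
    refine sum_le_sum fun u hu => ?_
    refine le_trans (le_of_eq ?_) (hlow u hu)
    ring
  -- the map
  set f : (Σ _ : Fin k → ℕ, ℕ) → ℕ := fun x => x.2 * ∏ i, x.1 i with hf
  have hgprod : ∀ u ∈ Uk, g (∏ i, u i) = 1 ∨ k = 0 := by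
    intro u hu
    have hgen : ∀ s : Finset (Fin k), s.Nonempty → g (∏ i ∈ s, u i) = 1 := by
      intro s hs
      induction s using Finset.induction_on with
      | empty => exact absurd hs (by simp)
      | insert i s hi ih =>
        rw [prod_insert hi]
        have h1 := (hQ _ (hmemU u hu i)).1.pos
        rcases s.eq_empty_or_nonempty with h | h
        · rw [h, prod_empty, mul_one]; exact hgQ _ (hmemU u hu i)
        · rw [hg _ _ h1 (Finset.prod_pos fun j _ => (hQ _ (hmemU u hu j)).1.pos), hgQ _ (hmemU u hu i), ih h, one_mul]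
    rcases Nat.eq_zero_or_pos k with h0 | h0
    · exact Or.inr h0
    · left
      have : Nonempty (Fin k) := ⟨⟨0, h0⟩⟩
      exact hgen univ univ_nonempty
  have hfT : ∀ x ∈ Om, f x ∈ T := by
    rintro ⟨u, v⟩ hx
    rw [hOm, mem_sigma] at hx
    obtain ⟨hu, hv⟩ := hx
    simp only at hu hv
    rw [hVu] at hv
    simp only at hv
    rw [mem_filter, mem_Icc] at hv
    obtain ⟨⟨hv1, hv2⟩, hv3, hv4, hv5, hv6⟩ := hv
    have hPi0 : (0 : ℝ) < ((∏ i, u i : ℕ) : ℝ) := Nat.cast_pos.mpr (hPpos u hu)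
    have hv7 : (v : ℝ) ≤ y2 / ((∏ i, u i : ℕ) : ℝ) := (Nat.le_floor_iff (by positivity)).mp hv2
    have hgv := hg1 u hu v hv4 hv7 hv5 hv6
    rw [hT, mem_filter, mem_Icc, hf]
    simp only
    refine ⟨⟨Nat.mul_pos hv1 (hPpos u hu), ?_⟩, ?_, ?_, ?_⟩
    · rw [Nat.le_floor_iff hy2.le]
      push_cast
      rw [le_div_iff₀ hPi0] at hv7
      push_cast at hv7
      exact hv7
    · rw [div_lt_iff₀ hPi0] at hv3
      push_cast at hv3 ⊢
      exact hv3
    · refine Sf_mul_nat hv5 ?_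
      have hgen : ∀ s : Finset (Fin k), Sf z ((∏ i ∈ s, u i : ℕ) : ℤ) := by
        intro s
        induction s using Finset.induction_on with
        | empty => rw [prod_empty]; exact Sf_one
        | insert i s hi ih =>
          rw [prod_insert hi]
          exact Sf_mul_nat (Sf_prime (hQ _ (hmemU u hu i)).1 (hQ _ (hmemU u hu i)).2.2) ih
      exact hgen univ
    · rcases hgprod u hu with h | h
      · rw [hg _ _ hv1 (hPpos u hu), hgv, h, one_mul]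
      · subst h
        simpa using hgv
  have hfib : ∀ m ∈ T, (Om.filter (fun x => f x = m)).card ≤ ⌊(1 / κ) ^ k⌋₊ := by
    intro m hm
    rw [hT, mem_filter, mem_Icc] at hm
    have hmX : (m : ℝ) ≤ X := ((Nat.le_floor_iff hy2.le).mp hm.1.2).trans hy2X
    set S := m.primeFactors.filter (fun p : ℕ => X ^ κ < (p : ℝ)) with hS
    have h1 : (Om.filter (fun x => f x = m)).card ≤ (Fintype.piFinset (fun _ : Fin k => S)).card := by
      refine card_le_card_of_injOn (fun x => x.1) ?_ ?_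
      · rintro ⟨u, v⟩ hx
        have hx' := mem_filter.mp (mem_coe.mp hx)
        rw [hOm, mem_sigma] at hx'
        simp only at hx' ⊢
        rw [mem_coe, Fintype.mem_piFinset]
        intro i
        rw [hS, mem_filter, Nat.mem_primeFactors]
        have h2 := hQ _ (hmemU u hx'.1.1 i)
        refine ⟨⟨h2.1, ?_, by omega⟩, h2.2.1⟩
        rw [← hx'.2]
        simp only [hf]
        exact (dvd_prod_of_mem _ (mem_univ i)).trans (dvd_mul_left _ _)
      · rintro ⟨u, v⟩ hx ⟨u', v'⟩ hx' h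
        have h1 := mem_filter.mp (mem_coe.mp hx)
        have h2 := mem_filter.mp (mem_coe.mp hx')
        have h' : u = u' := h
        subst h'
        rw [hOm, mem_sigma] at h1
        simp only [hf] at h1 h2
        have h3 : v * ∏ i, u i = v' * ∏ i, u i := h1.2.trans h2.2.symm
        have h4 := Nat.eq_of_mul_eq_mul_right (hPpos u h1.1.1) h3
        rw [h4]
    refine h1.trans ?_
    rw [Fintype.card_piFinset, prod_const, card_univ, Fintype.card_fin]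
    apply Nat.le_floor
    push_cast
    exact pow_le_pow_left₀ (Nat.cast_nonneg _) (few_primes X κ hX hκ m hm.1.1 hmX) k
  have hcard := card_le_mul_card_image (s := Om) (f := f) ⌊(1 / κ) ^ k⌋₊ (by
    intro m hm
    obtain ⟨x, hx, rfl⟩ := mem_image.mp hm
    exact hfib _ (hfT x hx))
  have himg : (Om.image f).card ≤ T.card := card_le_card (image_subset_iff.mpr hfT)
  have hfl : (⌊(1 / κ) ^ k⌋₊ : ℝ) ≤ (1 / κ) ^ k := Nat.floor_le (by positivity)
  calc _ ≤ (Om.card : ℝ) := hOmcard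
    _ ≤ ((⌊(1 / κ) ^ k⌋₊ * (Om.image f).card : ℕ) : ℝ) := by exact_mod_cast hcard
    _ = (⌊(1 / κ) ^ k⌋₊ : ℝ) * ((Om.image f).card : ℝ) := by push_cast; ring
    _ ≤ (1 / κ) ^ k * (T.card : ℝ) := by
      have : ((Om.image f).card : ℝ) ≤ T.card := by exact_mod_cast himg
      gcongr

end Pool.Agent.Lib.EX
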