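import Pool.Agent.Lib.Sieve.Mertens3
import Pool.Agent.Lib.MP_61161c_nt.EX.SmoCore

/-!
# EX, block D: Mertens estimates for `smo`
-/

set_option autoImplicit false

open Finset

namespace Pool.Agent.Lib.EX

/-- sum of `1/p` over the primes of `(A, B]` -/
theorem mert_int : ∃ C : ℝ, 0 < C ∧ ∀ A B : ℝ, 1 ≤ A → A ≤ B → 1 < B →
    (Real.log B - Real.log A - C) / Real.log B ≤
      ∑ p ∈ (Icc 1 ⌊B⌋₊).filter (fun p : ℕ => p.Prime ∧ A < p), 1 / (p : ℝ) := by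
  classical
  obtain ⟨C1, hC1⟩ := Pool.Agent.Lib.Sieve.Mertens3.mertens_one_lower
  refine ⟨|C1| + Real.log 4 + Real.log 2 + 1, by positivity, fun A B hA hAB hB => ?_⟩
  have hlB : 0 < Real.log B := Real.log_pos hB
  have hfB : 1 ≤ ⌊B⌋₊ := (Nat.one_le_floor_iff B).mpr hB.le
  have hfA : 1 ≤ ⌊A⌋₊ := (Nat.one_le_floor_iff A).mpr hA
  have h1 := hC1 ⌊B⌋₊ hfB
  have h2 := Pool.Agent.Lib.Sieve.sum_log_div_le ⌊A⌋₊ hfA
  have h3 : Real.log B - Real.log 2 ≤ Real.log (⌊B⌋₊ : ℝ) := by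
    rw [← Real.log_div (by linarith) (by norm_num)]
    refine Real.log_le_log (by linarith) ?_
    have h4 := Nat.lt_floor_add_one B
    have h5 : (1 : ℝ) ≤ (⌊B⌋₊ : ℝ) := by exact_mod_cast hfB
    linarith
  have h4 : Real.log (⌊A⌋₊ : ℝ) ≤ Real.log A := by
    refine Real.log_le_log (by exact_mod_cast hfA) (Nat.floor_le (by linarith))
  have h5 : ∑ p ∈ (Icc 1 ⌊B⌋₊).filter Nat.Prime, Real.log p / p =
      ∑ p ∈ (Icc 1 ⌊A⌋₊).filter Nat.Prime, Real.log p / p +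
      ∑ p ∈ (Icc 1 ⌊B⌋₊).filter (fun p : ℕ => p.Prime ∧ A < p), Real.log p / p := by
    rw [← sum_union]
    · refine sum_congr ?_ fun _ _ => rfl
      ext p
      rw [mem_union, mem_filter, mem_filter, mem_filter, mem_Icc, mem_Icc]
      constructor
      · rintro ⟨⟨h6, h7⟩, h8⟩
        rcases le_or_gt (p : ℝ) A with h9 | h9
        · left; exact ⟨⟨h6, Nat.le_floor h9⟩, h8⟩
        · right; exact ⟨⟨h6, h7⟩, h8, h9⟩
      · rintro (⟨⟨h6, h7⟩, h8⟩ | ⟨⟨h6, h7⟩, h8, h9⟩)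
        · exact ⟨⟨h6, h7.trans (Nat.floor_le_floor hAB)⟩, h8⟩
        · exact ⟨⟨h6, h7⟩, h8⟩
    · rw [disjoint_left]
      intro p hp hp'
      rw [mem_filter, mem_Icc] at hp hp'
      have h6 : (p : ℝ) ≤ A := (Nat.le_floor_iff (by linarith)).mp hp.1.2
      linarith [hp'.2.2]
  have h6 : ∑ p ∈ (Icc 1 ⌊B⌋₊).filter (fun p : ℕ => p.Prime ∧ A < p), Real.log p / p ≤
      Real.log B * ∑ p ∈ (Icc 1 ⌊B⌋₊).filter (fun p : ℕ => p.Prime ∧ A < p), 1 / (p : ℝ) := by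
    rw [mul_sum]
    refine sum_le_sum fun p hp => ?_
    rw [mem_filter, mem_Icc] at hp
    have h7 : (p : ℝ) ≤ B := (Nat.le_floor_iff (by linarith)).mp hp.1.2
    have h8 : (0 : ℝ) < p := by exact_mod_cast hp.2.1.pos
    rw [mul_one_div]
    have h9 := Real.log_le_log h8 h7
    gcongr
  rw [div_le_iff₀ hlB]
  have h7 := neg_abs_le C1
  have h8 := le_abs_self C1
  linarith

/-- the sieve product is at least `c / log z` -/
theorem vz_log : ∃ C : ℝ, 0 < C ∧ ∀ z : ℕ, 2 ≤ z → 1 / (C * Real.log z) ≤ VV z := by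
  obtain ⟨C, hC, h⟩ := Pool.Agent.Lib.Sieve.mertens_product_upper
  refine ⟨C, hC, fun z hz => ?_⟩
  have h1 := h z hz
  have h2 : ∏ p ∈ (Icc 1 z).filter Nat.Prime, (1 - (1 : ℝ) / p)⁻¹ = (VV z)⁻¹ := by
    unfold VV
    rw [prod_inv_distrib]
  rw [h2] at h1
  have h3 := VV_pos z (by omega)
  have hl : 0 < Real.log z := Real.log_pos (by exact_mod_cast (by omega : 1 < z))
  rw [one_div]
  have h4 := inv_anti₀ (inv_pos.mpr h3) h1
  rwa [inv_inv] at h4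

end Pool.Agent.Lib.EX
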