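import Pool.Agent.Lib.MP_61161c_nt.EX.SmoM

/-!
# EX, block D: `smo`, the step with windows
-/

set_option autoImplicit false

open Finset

namespace Pool.Agent.Lib.EX

open Classical in
/-- rough numbers of `(y1/Π, y2/Π]` -/
theorem smo_win (c' : ℝ) (hc' : 0 < c') : ∃ cs : ℝ, 0 < cs ∧ ∀ c0 : ℝ, 0 < c0 → c0 ≤ cs → ∃ X0 : ℕ,
    ∀ X z : ℕ, X0 ≤ X → 2 ≤ z → (z : ℝ) ≤ (X : ℝ) ^ c0 → ∀ w1 w2 : ℝ, 0 ≤ w1 → (X : ℝ) ^ (2 * c') ≤ w2 → w2 ≤ X →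
      (1 + 1 / 10 ^ 6) * w1 ≤ w2 → w2 / 2 ≤ w1 →
      VV z / (2 * 10 ^ 7) * w2 ≤ (((Icc 1 ⌊w2⌋₊).filter fun v : ℕ => w1 < v ∧ 1 < v ∧ Sf z (v : ℤ)).card : ℝ) := by
  classical
  obtain ⟨cs, hcs, h⟩ := rcnt (1 / 2) c' (by norm_num) hc'
  refine ⟨cs, hcs, fun c0 hc0 hc0s => ?_⟩
  obtain ⟨X1, hX1⟩ := h c0 hc0 hc0s
  have hlim : Filter.Tendsto (fun X : ℕ => ((X : ℝ)) ^ c') Filter.atTop Filter.atTop :=
    (tendsto_rpow_atTop hc').comp tendsto_natCast_atTop_atTop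
  obtain ⟨X2, hX2⟩ := Filter.eventually_atTop.mp (hlim.eventually_ge_atTop (10 ^ 8))
  refine ⟨max X1 (max X2 1), fun X z hX hz2 hz w1 w2 hw1 hw2 hw2X h12 h21 => ?_⟩
  have hXa : 1 ≤ X := (le_max_right X2 1).trans ((le_max_right X1 _).trans hX)
  have hXr : (1 : ℝ) ≤ X := by exact_mod_cast hXa
  have hbig : (10 : ℝ) ^ 8 ≤ (X : ℝ) ^ c' := hX2 X ((le_max_left X2 1).trans ((le_max_right X1 _).trans hX))
  have hsq : (X : ℝ) ^ (2 * c') = (X : ℝ) ^ c' * (X : ℝ) ^ c' := by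
    rw [← Real.rpow_add (by linarith)]
    congr 1
    ring
  have hw2big : 10 ^ 8 * (X : ℝ) ^ c' ≤ w2 := by
    refine le_trans ?_ hw2
    rw [hsq]
    gcongr
  have hw2b : (10 : ℝ) ^ 8 ≤ w2 := by
    have : (1 : ℝ) ≤ (X : ℝ) ^ c' := Real.one_le_rpow hXr hc'.le
    nlinarith
  have hw1w2 : w1 ≤ w2 := by nlinarith
  set a := ⌊w1⌋₊ with ha
  set L := ⌊w2⌋₊ - ⌊w1⌋₊ with hL
  have haL : a + L = ⌊w2⌋₊ := by
    rw [ha, hL]
    have := Nat.floor_le_floor hw1w2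
    omega
  have hLr : (L : ℝ) = (⌊w2⌋₊ : ℝ) - ⌊w1⌋₊ := by
    rw [hL, Nat.cast_sub (Nat.floor_le_floor hw1w2)]
  have f1 := Nat.lt_floor_add_one w2
  have f2 := Nat.floor_le hw1
  have hLlow : w2 / 10 ^ 7 ≤ (L : ℝ) := by
    rw [hLr]
    have h3 : w2 / 10 ^ 7 + 1 ≤ w2 - w1 := by
      have h4 : w2 - w1 ≥ w2 / (10 ^ 6 + 1) := by
        rw [ge_iff_le, div_le_iff₀ (by norm_num)]
        nlinarith
      have h5 : w2 / 10 ^ 7 + 1 ≤ w2 / (10 ^ 6 + 1) := by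
        rw [div_add' _ _ _ (by norm_num), div_le_div_iff₀ (by norm_num) (by norm_num)]
        nlinarith
      linarith
    linarith
  have hLX : (X : ℝ) ^ c' ≤ L := by
    refine le_trans ?_ hLlow
    rw [le_div_iff₀ (by norm_num)]
    have : 0 < (X : ℝ) ^ c' := by positivity
    linarith
  have haLX : a + L ≤ X := by
    rw [haL]
    have h3 := Nat.floor_le_floor hw2X
    rwa [Nat.floor_natCast] at h3
  have h6 := hX1 X z ((le_max_left X1 _).trans hX) hz2 hz a L hLX haLX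
  have h7 := (abs_le.mp h6).1
  have hV := VV_pos z (by omega)
  have h8 : ((RI z a (a + L)).card : ℝ) ≤
      (((Icc 1 ⌊w2⌋₊).filter fun v : ℕ => w1 < v ∧ 1 < v ∧ Sf z (v : ℤ)).card : ℝ) := by
    have : (RI z a (a + L)) ⊆ (Icc 1 ⌊w2⌋₊).filter fun v : ℕ => w1 < v ∧ 1 < v ∧ Sf z (v : ℤ) := by
      intro v hv
      unfold RI at hv
      rw [mem_filter, mem_Ioc, haL] at hv
      rw [mem_filter, mem_Icc]
      have h9 : 1 ≤ a := by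
        rw [ha]
        apply (Nat.one_le_floor_iff w1).mpr
        linarith
      refine ⟨⟨by omega, hv.1.2⟩, ?_, by omega, hv.2⟩
      exact Nat.lt_of_floor_lt hv.1.1
    exact_mod_cast card_le_card this
  have h9 : VV z / (2 * 10 ^ 7) * w2 = 1 / 2 * (w2 / 10 ^ 7 * VV z) := by ring
  rw [h9]
  have h10 : w2 / 10 ^ 7 * VV z ≤ (L : ℝ) * VV z := mul_le_mul_of_nonneg_right hLlow hV.le
  linarith

open Classical in
theorem smo_step (cu κ c' s0 : ℝ) (hκ : 0 < κ) (hκ1 : κ ≤ 1) (hc' : 0 < c') (hs0 : 0 < s0) (hs01 : s0 ≤ 1)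
    (K0 : ℕ) : ∃ cs : ℝ, 0 < cs ∧ ∀ c0 : ℝ, 0 < c0 → c0 ≤ cs → ∃ X0 : ℕ,
    ∀ X z : ℕ, X0 ≤ X → 2 ≤ z → (z : ℝ) ≤ (X : ℝ) ^ c0 → ∀ Bad : Finset ℕ, ∑ u ∈ Bad, 1 / (u : ℝ) ≤ 1 / (Real.log X) ^ 10 →
    ∀ g : ℕ → ℝ, (∀ m n : ℕ, 1 ≤ m → 1 ≤ n → g (m * n) = g m * g n) →
    (∀ u : ℕ, 1 < u → (u : ℝ) ≤ (X : ℝ) ^ cu → Sf z (u : ℤ) → u ∉ Bad → g u = 1) →
    ∀ y1 y2 : ℝ, 0 < y2 → y2 ≤ X → 0 ≤ y1 → (1 + 1 / 10 ^ 6) * y1 ≤ y2 →
    ∀ k : ℕ, k ≤ K0 → ∀ Q : Finset ℕ, (∀ p ∈ Q, p.Prime ∧ (X : ℝ) ^ κ < p ∧ (p : ℝ) ≤ (X : ℝ) ^ cu ∧ z < p ∧ p ∉ Bad) →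
    s0 ^ k ≤ (∑ p ∈ Q, 1 / (p : ℝ)) ^ k →
    (∀ u ∈ Fintype.piFinset (fun _ : Fin k => Q), (X : ℝ) ^ (2 * c') ≤ y2 / ((∏ i, u i : ℕ) : ℝ) ∧
      y2 / ((∏ i, u i : ℕ) : ℝ) ≤ (X : ℝ) ^ cu) →
    (κ * s0) ^ K0 / (4 * 10 ^ 7) * (y2 * VV z) ≤
      ((((Icc 1 ⌊y2⌋₊).filter fun n : ℕ => y1 < n ∧ Sf z (n : ℤ) ∧ g n = 1).card : ℝ)) := by
  obtain ⟨cs, hcs, h⟩ := smo_win c' hc'
  obtain ⟨C, hC, hVlog⟩ := vz_log
  refine ⟨min cs 1, lt_min hcs one_pos, fun c0 hc0 hc0s => ?_⟩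
  obtain ⟨X1, hX1⟩ := h c0 hc0 (hc0s.trans (min_le_left _ _))
  have hlim : Filter.Tendsto (fun X : ℕ => (Real.log (X : ℝ)) ^ 9) Filter.atTop Filter.atTop :=
    (Filter.tendsto_pow_atTop (by norm_num)).comp (Real.tendsto_log_atTop.comp tendsto_natCast_atTop_atTop)
  obtain ⟨X2, hX2⟩ := Filter.eventually_atTop.mp (hlim.eventually_ge_atTop (4 * 10 ^ 7 * C))
  refine ⟨max X1 (max X2 3), fun X z hX hz2 hz Bad hBad g hg hg1 y1 y2 hy2 hy2X hy1 h12 k hk Q hQ hSQ hwin => ?_⟩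
  have hXa : 3 ≤ X := (le_max_right X2 3).trans ((le_max_right X1 _).trans hX)
  have hX1r : (1 : ℝ) < X := by exact_mod_cast (by omega : 1 < X)
  have hlogX : 0 < Real.log X := Real.log_pos hX1r
  have hbig : 4 * 10 ^ 7 * C ≤ Real.log (X : ℝ) ^ 9 := hX2 X ((le_max_left X2 3).trans ((le_max_right X1 _).trans hX))
  set y1' : ℝ := max y1 (y2 / 2) with hy1'
  have hy1'a : y1 ≤ y1' := le_max_left _ _
  have hy1'b : y2 / 2 ≤ y1' := le_max_right _ _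
  have hy1'c : (1 + 1 / 10 ^ 6) * y1' ≤ y2 := by
    rcases max_cases y1 (y2 / 2) with ⟨h1, _⟩ | ⟨h1, _⟩
    · rw [hy1', h1]; exact h12
    · rw [hy1', h1]; nlinarith
  have hPpos : ∀ u ∈ Fintype.piFinset (fun _ : Fin k => Q), 1 ≤ ∏ i, u i := fun u hu =>
    Finset.prod_pos fun i _ => (hQ _ (Fintype.mem_piFinset.mp hu i)).1.pos
  have hV := VV_pos z (by omega)
  have hcore := smo_core X κ hX1r hκ k z Q Bad (fun p hp => ⟨(hQ p hp).1, (hQ p hp).2.1, (hQ p hp).2.2.2.1⟩) g hg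
    (fun p hp => hg1 p (hQ p hp).1.one_lt (hQ p hp).2.2.1 (Sf_prime (hQ p hp).1 (hQ p hp).2.2.2.1) (hQ p hp).2.2.2.2)
    y1' y2 (VV z / (2 * 10 ^ 7)) (1 / (Real.log X) ^ 10) hy2 hy2X
    (by
      intro u hu v hv1 hv2 hv3 hv4
      exact hg1 v hv1 (hv2.trans (hwin u hu).2) hv3 hv4)
    (by
      intro u hu
      have hPi1 : (1 : ℝ) ≤ ((∏ i, u i : ℕ) : ℝ) := by
        have := hPpos u hu
        exact Nat.one_le_cast.mpr this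
      set Pi : ℝ := ((∏ i, u i : ℕ) : ℝ) with hPi
      have hPi0 : 0 < Pi := by linarith
      refine hX1 X z ((le_max_left X1 _).trans hX) hz2 hz (y1' / Pi) (y2 / Pi) (by positivity) (hwin u hu).1 ?_ ?_ ?_
      · exact (div_le_self hy2.le hPi1).trans hy2X
      · rw [← mul_div_assoc]
        gcongr
      · rw [div_div, mul_comm Pi 2, ← div_div]
        gcongr)
    hBad
  -- compare the constants
  have hVl : 1 / (C * Real.log X) ≤ VV z := by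
    refine le_trans ?_ (hVlog z hz2)
    have hzX : Real.log z ≤ Real.log X := by
      refine Real.log_le_log (by exact_mod_cast (by omega : 0 < z)) (hz.trans ?_)
      calc (X : ℝ) ^ c0 ≤ (X : ℝ) ^ (1 : ℝ) :=
            Real.rpow_le_rpow_of_exponent_le hX1r.le (hc0s.trans (min_le_right _ _))
        _ = X := Real.rpow_one _
    have hlz : 0 < Real.log z := Real.log_pos (by exact_mod_cast (by omega : 1 < z))
    gcongr
  have hB : 1 / (Real.log X) ^ 10 ≤ VV z / (4 * 10 ^ 7) := by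
    have h1 : 1 / (Real.log X) ^ 10 ≤ 1 / (C * Real.log X) / (4 * 10 ^ 7) := by
      rw [div_div]
      apply one_div_le_one_div_of_le (by positivity)
      calc C * Real.log X * (4 * 10 ^ 7) = (4 * 10 ^ 7 * C) * Real.log X := by ring
        _ ≤ Real.log X ^ 9 * Real.log X := by gcongr
        _ = Real.log X ^ 10 := by ring
    refine h1.trans ?_
    gcongr
  have hAB : VV z / (4 * 10 ^ 7) ≤ VV z / (2 * 10 ^ 7) - 1 / (Real.log X) ^ 10 := by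
    have : VV z / (2 * 10 ^ 7) = 2 * (VV z / (4 * 10 ^ 7)) := by ring
    linarith
  set T' := ((((Icc 1 ⌊y2⌋₊).filter fun n : ℕ => y1' < n ∧ Sf z (n : ℤ) ∧ g n = 1).card : ℝ)) with hT'
  have hTT : T' ≤ ((((Icc 1 ⌊y2⌋₊).filter fun n : ℕ => y1 < n ∧ Sf z (n : ℤ) ∧ g n = 1).card : ℝ)) := by
    rw [hT']
    have : ((Icc 1 ⌊y2⌋₊).filter fun n : ℕ => y1' < n ∧ Sf z (n : ℤ) ∧ g n = 1) ⊆
        ((Icc 1 ⌊y2⌋₊).filter fun n : ℕ => y1 < n ∧ Sf z (n : ℤ) ∧ g n = 1) := by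
      intro n hn
      rw [mem_filter] at hn ⊢
      exact ⟨hn.1, lt_of_le_of_lt hy1'a hn.2.1, hn.2.2⟩
    exact_mod_cast card_le_card this
  refine le_trans ?_ hTT
  have h1 : VV z / (4 * 10 ^ 7) * y2 * s0 ^ k ≤ (1 / κ) ^ k * T' := by
    refine le_trans ?_ hcore
    have h2 : 0 ≤ VV z / (4 * 10 ^ 7) := by positivity
    have h3 : VV z / (4 * 10 ^ 7) * y2 ≤ (VV z / (2 * 10 ^ 7) - 1 / (Real.log X) ^ 10) * y2 :=
      mul_le_mul_of_nonneg_right hAB hy2.le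
    exact mul_le_mul h3 hSQ (by positivity) (by
      refine mul_nonneg ?_ hy2.le
      linarith)
  have h2 : κ ^ k * (1 / κ) ^ k = 1 := by
    rw [← mul_pow, mul_one_div_cancel hκ.ne', one_pow]
  have h3 : (κ * s0) ^ k / (4 * 10 ^ 7) * (y2 * VV z) ≤ T' := by
    have h4 : κ ^ k * (VV z / (4 * 10 ^ 7) * y2 * s0 ^ k) ≤ κ ^ k * ((1 / κ) ^ k * T') :=
      mul_le_mul_of_nonneg_left h1 (by positivity)
    have h5 : κ ^ k * ((1 / κ) ^ k * T') = T' := by rw [← mul_assoc, h2, one_mul]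
    rw [h5] at h4
    refine le_trans (le_of_eq ?_) h4
    rw [mul_pow]
    ring
  refine le_trans ?_ h3
  have h5 : (κ * s0) ^ K0 ≤ (κ * s0) ^ k := by
    refine pow_le_pow_of_le_one (by positivity) ?_ hk
    exact mul_le_one₀ hκ1 hs0.le hs01
  have h6 : 0 ≤ y2 * VV z := by positivity
  gcongr

end Pool.Agent.Lib.EX
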